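import Pool.Agent.N802.WD.Stm2
import Pool.Agent.N802.U.Kern
import Pool.Agent.N802.U.Win

/-!
# The window with a bound in the whole plane (leaf WIN2 of project WD)
-/

set_option autoImplicit false
set_option maxHeartbeats 1000000

open Complex Filter Topology Set MeasureTheory
open scoped BigOperators ComplexConjugate

namespace Pool.Agent.N802.WD

open Pool.Agent.N802.U

namespace Win2aux

open Pool.Agent.N802.U.Kernaux Pool.Agent.N802.U.Winaux

/-! ### decay of the kernel -/

lemma norm_Sa_decay {a : ℝ} (ha : 0 < a) {z : ℂ} (hz : z.re ≠ 0) :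
    ‖Sa a z‖ ≤ Real.exp (a * |z.im|) * (1 / (a * |z.re|)) := by
  have hz0 : z ≠ 0 := by
    rintro rfl
    exact hz rfl
  have hre : 0 < |z.re| := abs_pos.2 hz
  have hIz : I * z ≠ 0 := mul_ne_zero Complex.I_ne_zero hz0
  unfold Sa
  have h1 : ∫ v in (-a)..a, cexp (I * v * z) =
      (cexp (I * z * a) - cexp (I * z * (-a : ℝ))) / (I * z) := by
    rw [← integral_exp_mul_complex hIz]
    congr 1
    funext v
    congr 1
    ring
  rw [h1, norm_mul, Complex.norm_real, Real.norm_eq_abs, abs_of_pos (by positivity), norm_div,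
    norm_mul, Complex.norm_I, one_mul]
  have h2 : ∀ t : ℝ, |t| ≤ a → ‖cexp (I * z * t)‖ ≤ Real.exp (a * |z.im|) := by
    intro t ht
    have := norm_exp_le t z ht
    rwa [show I * z * t = I * t * z by ring]
  have h3 : ‖cexp (I * z * a) - cexp (I * z * (-a : ℝ))‖ ≤ 2 * Real.exp (a * |z.im|) := by
    refine (norm_sub_le _ _).trans ?_
    have e1 := h2 a (abs_of_pos ha).le
    have e2 := h2 (-a) (by rw [abs_neg, abs_of_pos ha])
    linarith
  have h4 : |z.re| ≤ ‖z‖ := Complex.abs_re_le_norm z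
  calc 1 / (2 * a) * (‖cexp (I * z * a) - cexp (I * z * (-a : ℝ))‖ / ‖z‖)
      ≤ 1 / (2 * a) * (2 * Real.exp (a * |z.im|) / |z.re|) := by
        apply mul_le_mul_of_nonneg_left _ (by positivity)
        exact div_le_div₀ (by positivity) h3 hre h4
    _ = Real.exp (a * |z.im|) * (1 / (a * |z.re|)) := by
        field_simp

/-- the majorant of the kernel on horizontal lines -/
noncomputable def kap (b : ℝ) (n : ℕ) (v : ℝ) : ℝ :=
  b / 2 * 4 ^ n * ((1 + b / (2 * n) * |v|) ^ (2 * n))⁻¹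

/-- the kernel with its decay -/
def S_kern2 : Prop := ∀ (b : ℝ) (n : ℕ), 0 < b → 1 ≤ n → ∃ (J : ℂ → ℂ) (j : ℝ → ℂ), BW b J j ∧
  (∀ x : ℝ, (J x).im = 0 ∧ 0 ≤ (J x).re) ∧
  Integrable (fun x : ℝ => (J x).re) ∧ (∫ x : ℝ, (J x).re) = 1 ∧
  (∀ X : ℝ, 0 < X → ∫ x in {x : ℝ | X ≤ |x|}, (J x).re ≤ 2 * (2 * n / (b * X)) ^ (2 * n - 1)) ∧
  (∀ z : ℂ, ‖J z‖ ≤ b / 2 * Real.exp (b * |z.im|)) ∧
  ∀ z : ℂ, ‖J z‖ ≤ Real.exp (b * |z.im|) * kap b n z.re

theorem kern2 : S_kern2 := by
  intro b n hb hn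
  have hn0 : (0 : ℝ) < n := by exact_mod_cast hn
  have hn1 : (1 : ℝ) ≤ n := by exact_mod_cast hn
  set a : ℝ := b / (2 * n) with ha_def
  have ha : 0 < a := by positivity
  have hkb : ((2 * n : ℕ) : ℝ) * a = b := by
    rw [ha_def]; push_cast; field_simp
  obtain ⟨w, hw⟩ := BW_pow ha (2 * n) (by omega)
  rw [hkb] at hw
  set I0 : ℝ := ∫ x : ℝ, Real.sinc (a * x) ^ (2 * n) with hI0
  have hlow : 1 / (a * Real.sqrt n) ≤ I0 := f_lower ha hn
  have hs : 0 < Real.sqrt n := Real.sqrt_pos.mpr hn0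
  have hs1 : 1 ≤ Real.sqrt n := Real.one_le_sqrt.mpr hn1
  have hI0pos : 0 < I0 := lt_of_lt_of_le (by positivity) hlow
  set c : ℝ := 1 / I0 with hc
  have hc0 : 0 < c := by positivity
  have hcle : c ≤ a * Real.sqrt n := by
    rw [hc, div_le_iff₀ hI0pos]
    rw [div_le_iff₀ (by positivity)] at hlow
    linarith
  have hre : ∀ x : ℝ, (c : ℂ) * Sa a x ^ (2 * n) = ((c * Real.sinc (a * x) ^ (2 * n) : ℝ) : ℂ) := by
    intro x
    rw [Sa_real ha]
    push_cast
    ring
  have hcb : c ≤ b / 2 := by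
    refine hcle.trans ?_
    rw [ha_def]
    have h3 : Real.sqrt n ≤ n := by
      have := Real.sq_sqrt hn0.le
      nlinarith
    rw [div_mul_eq_mul_div, div_le_div_iff₀ (by positivity) (by norm_num)]
    nlinarith
  have htriv : ∀ z : ℂ, ‖(c : ℂ) * Sa a z ^ (2 * n)‖ ≤ b / 2 * Real.exp (b * |z.im|) := by
    intro z
    simp only [norm_mul, norm_pow, Complex.norm_real, Real.norm_eq_abs, abs_of_pos hc0]
    have h1 : ‖Sa a z‖ ^ (2 * n) ≤ Real.exp (a * |z.im|) ^ (2 * n) :=
      pow_le_pow_left₀ (norm_nonneg _) (norm_Sa_le ha z) _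
    rw [← Real.exp_nat_mul, show ((2 * n : ℕ) : ℝ) * (a * |z.im|) = b * |z.im| by
      rw [← mul_assoc, hkb]] at h1
    exact mul_le_mul hcb h1 (by positivity) (by positivity)
  refine ⟨fun z => (c : ℂ) * Sa a z ^ (2 * n), fun v => (c : ℂ) * w v, BW_smul hw _, ?_, ?_, ?_, ?_,
    htriv, ?_⟩
  · intro x
    simp only [hre x]
    rw [ofReal_im, ofReal_re]
    exact ⟨rfl, mul_nonneg hc0.le (f_nonneg a n x)⟩
  · simp only [hre, ofReal_re]
    exact (f_int ha hn).const_mul c
  · simp only [hre, ofReal_re]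
    rw [integral_const_mul, ← hI0, hc]
    field_simp
  · intro X hX
    simp only [hre, ofReal_re]
    rw [integral_const_mul]
    have ht := f_tail ha hn hX
    have h2n : (0 : ℝ) < 2 * n - 1 := by linarith
    have e : 1 / (a * X) = 2 * n / (b * X) := by
      rw [ha_def]; field_simp
    rw [e] at ht
    have hsn : Real.sqrt n ≤ 2 * n - 1 := by
      have := Real.sq_sqrt hn0.le
      nlinarith
    set q : ℝ := (2 * n / (b * X)) ^ (2 * n - 1) with hq
    have hq0 : 0 ≤ q := by positivity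
    calc c * ∫ x in {x : ℝ | X ≤ |x|}, Real.sinc (a * x) ^ (2 * n)
        ≤ c * (2 / a * q / (2 * n - 1)) := mul_le_mul_of_nonneg_left ht hc0.le
      _ ≤ (a * Real.sqrt n) * (2 / a * q / (2 * n - 1)) := by
          apply mul_le_mul_of_nonneg_right hcle
          positivity
      _ = 2 * q * (Real.sqrt n / (2 * n - 1)) := by
          field_simp
      _ ≤ 2 * q * 1 := by
          apply mul_le_mul_of_nonneg_left _ (by positivity)
          rw [div_le_one h2n]
          exact hsn
      _ = 2 * q := mul_one _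
  · intro z
    show ‖(c : ℂ) * Sa a z ^ (2 * n)‖ ≤ Real.exp (b * |z.im|) * kap b n z.re
    unfold kap
    rw [← ha_def]
    set y : ℝ := a * |z.re| with hy
    have hy0 : 0 ≤ y := by positivity
    have hE : (0 : ℝ) < Real.exp (b * |z.im|) := Real.exp_pos _
    rcases le_or_gt y 1 with h1 | h1
    · refine (htriv z).trans ?_
      have h2 : 1 ≤ 4 ^ n * ((1 + y) ^ (2 * n))⁻¹ := by
        rw [← div_eq_mul_inv, le_div_iff₀ (by positivity), one_mul, pow_mul]
        apply pow_le_pow_left₀ (by positivity)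
        nlinarith
      calc b / 2 * Real.exp (b * |z.im|) = Real.exp (b * |z.im|) * (b / 2) * 1 := by ring
        _ ≤ Real.exp (b * |z.im|) * (b / 2) * (4 ^ n * ((1 + y) ^ (2 * n))⁻¹) :=
            mul_le_mul_of_nonneg_left h2 (by positivity)
        _ = _ := by ring
    · have hzr : z.re ≠ 0 := by
        intro h0
        rw [hy, h0, abs_zero, mul_zero] at h1
        linarith
      simp only [norm_mul, norm_pow, Complex.norm_real, Real.norm_eq_abs, abs_of_pos hc0]
      have h2 : ‖Sa a z‖ ≤ Real.exp (a * |z.im|) * (2 / (1 + y)) := by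
        refine (norm_Sa_decay ha hzr).trans ?_
        apply mul_le_mul_of_nonneg_left _ (Real.exp_pos _).le
        rw [← hy, div_le_div_iff₀ (by linarith) (by linarith)]
        linarith
      have h3 : ‖Sa a z‖ ^ (2 * n) ≤ (Real.exp (a * |z.im|) * (2 / (1 + y))) ^ (2 * n) :=
        pow_le_pow_left₀ (norm_nonneg _) h2 _
      rw [mul_pow, ← Real.exp_nat_mul, show ((2 * n : ℕ) : ℝ) * (a * |z.im|) = b * |z.im| by
        rw [← mul_assoc, hkb], div_pow, pow_mul (2 : ℝ) 2 n] at h3
      norm_num at h3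
      calc c * ‖Sa a z‖ ^ (2 * n) ≤ (b / 2) * (Real.exp (b * |z.im|) * (4 ^ n / (1 + y) ^ (2 * n))) :=
            mul_le_mul hcb h3 (by positivity) (by positivity)
        _ = _ := by
            rw [div_eq_mul_inv]
            ring

/-! ### the majorant of the window -/

/-- the constant in the decay of the double exponential -/
theorem exp_exp_le (m : ℕ) {t : ℝ} (ht : 0 ≤ t) :
    Real.exp (-(Real.exp t / 2)) ≤ 2 ^ m * (m.factorial : ℝ) * ((1 + t) ^ m)⁻¹ := by
  have h1 : 1 + t ≤ Real.exp t := by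
    have := Real.add_one_le_exp t
    linarith
  have h2 : ((1 + t) / 2) ^ m / (m.factorial : ℝ) ≤ Real.exp ((1 + t) / 2) :=
    Real.pow_div_factorial_le_exp _ (by positivity) m
  have h3 : Real.exp (-(Real.exp t / 2)) ≤ Real.exp (-((1 + t) / 2)) :=
    Real.exp_le_exp.2 (by linarith)
  refine h3.trans ?_
  have hf : (0 : ℝ) < m.factorial := by exact_mod_cast Nat.factorial_pos m
  have hp : (0 : ℝ) < (1 + t) ^ m := by positivity
  rw [Real.exp_neg, ← div_eq_mul_inv, le_div_iff₀ hp, ← div_eq_inv_mul,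
    div_le_iff₀ (Real.exp_pos _)]
  rw [div_pow, div_div, div_le_iff₀ (by positivity)] at h2
  linarith

theorem kap_nonneg {b : ℝ} (hb : 0 < b) (n : ℕ) (v : ℝ) : 0 ≤ kap b n v := by
  unfold kap
  positivity

theorem kap_cont {b : ℝ} (hb : 0 < b) (n : ℕ) : Continuous (kap b n) := by
  unfold kap
  refine continuous_const.mul (Continuous.inv₀ (by fun_prop) fun v => ?_)
  positivity

/-- comparison with the Cauchy density -/
theorem kap_le {b : ℝ} (hb : 0 < b) {n : ℕ} (hn : 1 ≤ n) {Y v : ℝ} (hY : 0 ≤ Y) (hv : Y ≤ |v|) :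
    kap b n v ≤ b / 2 * 16 ^ n * ((1 + b / (2 * n) * Y) ^ (2 * n))⁻¹ *
      (1 + (b / (2 * n) / (1 + b / (2 * n) * Y) * v) ^ 2)⁻¹ := by
  have hn0 : (0 : ℝ) < n := by exact_mod_cast hn
  unfold kap
  set a : ℝ := b / (2 * n) with ha_def
  have ha : 0 < a := by positivity
  set q : ℝ := 1 + a * Y with hq
  have hq1 : 1 ≤ q := by
    have : 0 ≤ a * Y := by positivity
    linarith
  have hq0 : 0 < q := by linarith
  have h1 : q * (1 + a / q * |v|) ≤ 2 * (1 + a * |v|) := by
    have e : q * (1 + a / q * |v|) = q + a * |v| := by field_simp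
    rw [e, hq]
    have : a * Y ≤ a * |v| := mul_le_mul_of_nonneg_left hv ha.le
    nlinarith
  have h2 : q ^ (2 * n) * (1 + (a / q * v) ^ 2) ≤ 4 ^ n * (1 + a * |v|) ^ (2 * n) := by
    have h3 : (q * (1 + a / q * |v|)) ^ (2 * n) ≤ (2 * (1 + a * |v|)) ^ (2 * n) :=
      pow_le_pow_left₀ (by positivity) h1 _
    rw [mul_pow, mul_pow, pow_mul (2 : ℝ) 2 n] at h3
    norm_num at h3
    refine le_trans ?_ h3
    apply mul_le_mul_of_nonneg_left _ (by positivity)
    have h4 : 1 + (a / q * v) ^ 2 ≤ (1 + a / q * |v|) ^ 2 := by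
      have : (a / q * v) ^ 2 = (a / q * |v|) ^ 2 := by rw [mul_pow, mul_pow, sq_abs]
      rw [this]
      have : 0 ≤ a / q * |v| := by positivity
      nlinarith
    refine h4.trans ?_
    rw [pow_mul]
    have h5 : 1 ≤ (1 + a / q * |v|) ^ 2 := by
      apply one_le_pow₀
      have : 0 ≤ a / q * |v| := by positivity
      linarith
    exact le_self_pow₀ h5 (by omega)
  have hA : (0 : ℝ) < (1 + a * |v|) ^ (2 * n) := by positivity
  have hB : (0 : ℝ) < q ^ (2 * n) * (1 + (a / q * v) ^ 2) := by positivity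
  have h3 : ((1 + a * |v|) ^ (2 * n))⁻¹ ≤ 4 ^ n * ((q ^ (2 * n)) * (1 + (a / q * v) ^ 2))⁻¹ := by
    rw [← div_eq_mul_inv, le_div_iff₀ hB, ← div_eq_inv_mul, div_le_iff₀ hA]
    exact h2
  calc b / 2 * 4 ^ n * ((1 + a * |v|) ^ (2 * n))⁻¹
      ≤ b / 2 * 4 ^ n * (4 ^ n * ((q ^ (2 * n)) * (1 + (a / q * v) ^ 2))⁻¹) :=
        mul_le_mul_of_nonneg_left h3 (by positivity)
    _ = _ := by
        have h16 : (16 : ℝ) ^ n = 4 ^ n * 4 ^ n := by
          rw [← mul_pow]
          norm_num
        rw [mul_inv, h16]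
        ring

theorem cauchy_int {a : ℝ} (ha : 0 < a) (x : ℝ) :
    Integrable (fun u : ℝ => (1 + (a * (x - u)) ^ 2)⁻¹) ∧
    ∫ u : ℝ, (1 + (a * (x - u)) ^ 2)⁻¹ = Real.pi / a := by
  have h1 : Integrable (fun u : ℝ => (1 + (a * u) ^ 2)⁻¹) :=
    (integrable_inv_one_add_sq).comp_mul_left' ha.ne'
  refine ⟨h1.comp_sub_left x, ?_⟩
  rw [integral_sub_left_eq_self (fun u : ℝ => (1 + (a * u) ^ 2)⁻¹) volume x]
  have h2 := Measure.integral_comp_mul_left (fun u : ℝ => (1 + u ^ 2)⁻¹) a
  rw [h2, integral_univ_inv_one_add_sq, abs_of_pos (by positivity), smul_eq_mul]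
  field_simp

/-- the smoothed majorant -/
theorem maj_bound {n : ℕ} (hn : 1 ≤ n) {b s h X0 : ℝ} (hb : 0 < b) (hs : 0 < s) (hh : 0 < h)
    (hX : s ≤ X0) (hbX : 1 / b ≤ X0) (x : ℝ) :
    ∃ g : ℝ → ℝ, Integrable g ∧ (∀ u, Fr (dd h s) s u * kap b n (x - u) ≤ g u) ∧
    ∫ u, g u ≤ (16 ^ n * n * Real.pi * (4 * n) ^ (2 * n - 1) +
      (2 ^ (2 * n - 1) * ((2 * n - 1).factorial : ℝ)) * 16 ^ n * n * Real.pi * 2 ^ (2 * n - 1)) *
      ((1 + max 0 (|x| - h) / X0) ^ (2 * n - 1))⁻¹ := by
  have hn0 : (0 : ℝ) < n := by exact_mod_cast hn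
  have hn1 : (1 : ℝ) ≤ n := by exact_mod_cast hn
  have hπ := Real.pi_pos
  have hX0 : 0 < X0 := hs.trans_le hX
  set a : ℝ := b / (2 * n) with ha_def
  have ha : 0 < a := by positivity
  set Y : ℝ := max 0 (|x| - h) / 2 with hY_def
  have hY : 0 ≤ Y := by positivity
  have hYx : |x| - h ≤ 2 * Y := by
    have := le_max_right 0 (|x| - h)
    rw [hY_def]
    linarith
  set q : ℝ := 1 + a * Y with hq
  have hq1 : 1 ≤ q := by
    have : 0 ≤ a * Y := by positivity
    linarith
  have hq0 : 0 < q := by linarith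
  set D : ℝ := 2 ^ (2 * n - 1) * ((2 * n - 1).factorial : ℝ) with hD
  have hD0 : 0 < D := by
    have : (0 : ℝ) < (2 * n - 1).factorial := by exact_mod_cast Nat.factorial_pos _
    positivity
  set e : ℝ := D * ((1 + Y / s) ^ (2 * n - 1))⁻¹ with he
  have he0 : 0 ≤ e := by positivity
  obtain ⟨i1, v1⟩ := cauchy_int (a := a / q) (by positivity) x
  obtain ⟨i2, v2⟩ := cauchy_int ha x
  set g1 : ℝ → ℝ := fun u => b / 2 * 16 ^ n * (q ^ (2 * n))⁻¹ * (1 + (a / q * (x - u)) ^ 2)⁻¹ with hg1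
  set g2 : ℝ → ℝ := fun u => e * (b / 2 * 16 ^ n) * (1 + (a * (x - u)) ^ 2)⁻¹ with hg2
  refine ⟨fun u => g1 u + g2 u, (i1.const_mul _).add (i2.const_mul _), fun u => ?_, ?_⟩
  · have hg1n : 0 ≤ g1 u := by positivity
    have hg2n : 0 ≤ g2 u := by positivity
    have hF0 := (Fr_pos (dd h s) s u).le
    rcases le_or_gt Y |x - u| with h1 | h1
    · have h2 : Fr (dd h s) s u ≤ 1 := by
        unfold Fr
        rw [Real.exp_le_one_iff]
        have h3 := dd_pos h s
        have h4 := Real.cosh_pos (u / s)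
        have : 0 < dd h s * Real.cosh (u / s) := by positivity
        linarith
      have h3 := kap_le hb hn hY h1
      rw [← ha_def, ← hq] at h3
      calc Fr (dd h s) s u * kap b n (x - u) ≤ 1 * kap b n (x - u) :=
            mul_le_mul_of_nonneg_right h2 (kap_nonneg hb n _)
        _ = kap b n (x - u) := one_mul _
        _ ≤ g1 u := h3
        _ ≤ g1 u + g2 u := by linarith
    · have h2 : Y ≤ |u| - h := by
        have h3 : |x| ≤ |x - u| + |u| := by
          have := abs_add_le (x - u) u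
          rwa [sub_add_cancel] at this
        rcases le_or_gt (|x| - h) 0 with h4 | h4
        · have : Y = 0 := by rw [hY_def, max_eq_left h4, zero_div]
          rw [this] at h1
          exact absurd h1 (not_lt.2 (abs_nonneg _))
        · have : Y = (|x| - h) / 2 := by rw [hY_def, max_eq_right h4.le]
          linarith
      have h3 : Fr (dd h s) s u ≤ e := by
        have h4 := norm_Fw_le' (h := h) hs (z := (u : ℂ)) (by simpa using hs.le)
        rw [integral_norm_Fw, Complex.ofReal_re] at h4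
        refine h4.trans ?_
        have h5 : Real.exp (Y / s) ≤ Real.exp ((|u| - h) / s) :=
          Real.exp_le_exp.2 (div_le_div_of_nonneg_right h2 hs.le)
        have h6 : Real.exp (-(Real.exp ((|u| - h) / s) / 2)) ≤ Real.exp (-(Real.exp (Y / s) / 2)) :=
          Real.exp_le_exp.2 (by linarith)
        exact h6.trans (exp_exp_le _ (by positivity))
      have h4 := kap_le hb hn le_rfl (abs_nonneg (x - u))
      rw [← ha_def, mul_zero, add_zero, one_pow, inv_one, div_one, mul_one] at h4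
      calc Fr (dd h s) s u * kap b n (x - u)
          ≤ e * (b / 2 * 16 ^ n * (1 + (a * (x - u)) ^ 2)⁻¹) :=
            mul_le_mul h3 h4 (kap_nonneg hb n _) he0
        _ = g2 u := by rw [hg2]; ring
        _ ≤ g1 u + g2 u := by linarith
  · rw [integral_add (i1.const_mul _) (i2.const_mul _), integral_const_mul, integral_const_mul, v1, v2]
    obtain ⟨m, hm⟩ : ∃ m, 2 * n = m + 1 := ⟨2 * n - 1, by omega⟩
    have hm' : 2 * n - 1 = m := by omega
    have e1 : b / 2 * 16 ^ n * (q ^ (2 * n))⁻¹ * (Real.pi / (a / q)) =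
        16 ^ n * n * Real.pi * (q ^ m)⁻¹ := by
      rw [hm, pow_succ, ha_def]
      field_simp
    have e2 : e * (b / 2 * 16 ^ n) * (Real.pi / a) = e * 16 ^ n * n * Real.pi := by
      rw [ha_def]
      field_simp
    rw [e1, e2, hm']
    set R : ℝ := 1 + max 0 (|x| - h) / X0 with hR
    have hR1 : 1 ≤ R := by
      have : 0 ≤ max 0 (|x| - h) / X0 := by positivity
      linarith
    have hR0 : 0 < R := by linarith
    have hmax : max 0 (|x| - h) = 2 * Y := by rw [hY_def]; ring
    have q1 : R / (4 * n) ≤ q := by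
      rw [div_le_iff₀ (by positivity), hR, hq, hmax]
      have h1 : 2 * Y / X0 ≤ 2 * Y * b := by
        rw [div_le_iff₀ hX0]
        have : 1 ≤ b * X0 := by
          rw [div_le_iff₀ hb] at hbX
          linarith
        nlinarith
      have h2 : a * Y * (4 * n) = 2 * Y * b := by
        rw [ha_def]
        field_simp
        ring
      nlinarith
    have q2 : R / 2 ≤ 1 + Y / s := by
      rw [hR, hmax]
      have h1 : 2 * Y / X0 ≤ 2 * Y / s := div_le_div_of_nonneg_left (by positivity) hs hX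
      have h2 : 2 * Y / s = 2 * (Y / s) := by ring
      linarith
    have r1 : (q ^ m)⁻¹ ≤ (4 * n) ^ m * (R ^ m)⁻¹ := by
      have h1 : (R / (4 * n)) ^ m ≤ q ^ m := pow_le_pow_left₀ (by positivity) q1 m
      have h2 : (q ^ m)⁻¹ ≤ ((R / (4 * n)) ^ m)⁻¹ := inv_anti₀ (by positivity) h1
      refine h2.trans (le_of_eq ?_)
      rw [div_pow, inv_div, div_eq_mul_inv]
    have r2 : ((1 + Y / s) ^ m)⁻¹ ≤ 2 ^ m * (R ^ m)⁻¹ := by
      have h1 : (R / 2) ^ m ≤ (1 + Y / s) ^ m := pow_le_pow_left₀ (by positivity) q2 m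
      have h2 : ((1 + Y / s) ^ m)⁻¹ ≤ ((R / 2) ^ m)⁻¹ := inv_anti₀ (by positivity) h1
      refine h2.trans (le_of_eq ?_)
      rw [div_pow, inv_div, div_eq_mul_inv]
    have he' : e ≤ D * (2 ^ m * (R ^ m)⁻¹) := by
      rw [he, hm']
      exact mul_le_mul_of_nonneg_left r2 hD0.le
    calc 16 ^ n * n * Real.pi * (q ^ m)⁻¹ + e * 16 ^ n * n * Real.pi
        ≤ 16 ^ n * n * Real.pi * ((4 * n) ^ m * (R ^ m)⁻¹) +
          D * (2 ^ m * (R ^ m)⁻¹) * 16 ^ n * n * Real.pi := by
          refine add_le_add (mul_le_mul_of_nonneg_left r1 (by positivity)) ?_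
          have : 0 ≤ (16 : ℝ) ^ n * n * Real.pi := by positivity
          nlinarith [mul_le_mul_of_nonneg_right he' this]
      _ = _ := by ring

end Win2aux

open Win2aux Pool.Agent.N802.U.Winaux

theorem win2 : S_win2 := by
  intro n hn
  set C0 : ℝ := 16 ^ n * n * Real.pi * (4 * n) ^ (2 * n - 1) +
      (2 ^ (2 * n - 1) * ((2 * n - 1).factorial : ℝ)) * 16 ^ n * n * Real.pi * 2 ^ (2 * n - 1) with hC0
  have hC00 : 0 ≤ C0 := by positivity
  refine ⟨1 + C0, by linarith, ?_⟩
  intro b s h X0 hb hs hh hsX hbX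
  obtain ⟨J, j, hJ, hJr, hJi, hJ1, hJt, hJb, hJd⟩ := kern2 b n hb hn
  have hr : ∀ x : ℝ, (J x).im = 0 := fun x => (hJr x).1
  have hp : ∀ x : ℝ, 0 ≤ (J x).re := fun x => (hJr x).2
  have hd := dd_pos h s
  have havg : ∀ z : ℂ, |z.im| ≤ s → GG h s J z = ∫ v : ℝ, Fw (dd h s) s (z - v) * ((J v).re : ℂ) :=
    fun z hz => GG_avg hs hb hJ hJb hr hz
  have hFc : Continuous (Fw (dd h s) s) := (Fw_diff _ _).continuous
  have him : ∀ (z : ℂ) (v : ℝ), (z - (v : ℂ)).im = z.im := fun z v => by simp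
  have hre : ∀ (z : ℂ) (v : ℝ), (z - (v : ℂ)).re = z.re - v := fun z v => by simp
  have hJm : AEStronglyMeasurable (fun v : ℝ => ((J v).re : ℂ)) :=
    (Complex.continuous_ofReal.comp (Complex.continuous_re.comp
      ((bw_diff hJ).continuous.comp Complex.continuous_ofReal))).aestronglyMeasurable
  -- integrability
  have hint : ∀ z : ℂ, |z.im| ≤ s →
      Integrable (fun v : ℝ => Fw (dd h s) s (z - v) * ((J v).re : ℂ)) := by
    intro z hz
    refine Integrable.mono' hJi ?_ (Eventually.of_forall fun v => ?_)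
    · refine AEStronglyMeasurable.mul ?_ hJm
      exact (hFc.comp (by fun_prop)).aestronglyMeasurable
    · rw [norm_mul, Complex.norm_real, Real.norm_of_nonneg (hp v)]
      exact mul_le_of_le_one_left (hp v) (norm_Fw_le_one hd.le hs (by rw [him]; exact hz))
  -- the tail
  have htail : ∀ X : ℝ, 0 < X → Integrable ({x : ℝ | X ≤ |x|}.indicator fun x : ℝ => (J x).re) ∧
      ∫ x : ℝ, {x : ℝ | X ≤ |x|}.indicator (fun x : ℝ => (J x).re) x ≤
        2 * (2 * n / (b * X)) ^ (2 * n - 1) := by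
    intro X hX
    have hm : MeasurableSet {x : ℝ | X ≤ |x|} := measurableSet_le measurable_const
      continuous_abs.measurable
    refine ⟨hJi.indicator hm, ?_⟩
    rw [integral_indicator hm]
    exact hJt X hX
  -- averages
  have hbnd : ∀ (z : ℂ) (X E R : ℝ) (c : ℂ), |z.im| ≤ s → 0 < X → 0 ≤ R →
      (∀ v : ℝ, |v| < X → ‖Fw (dd h s) s (z - v) - c‖ ≤ E) →
      (∀ v : ℝ, ‖Fw (dd h s) s (z - v) - c‖ ≤ R) → 0 ≤ E →
      ‖GG h s J z - c‖ ≤ E + R * (2 * (2 * n / (b * X)) ^ (2 * n - 1)) := by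
    intro z X E R c hz hX hR h1 h2 hE
    have h3 : GG h s J z - c = ∫ v : ℝ, (Fw (dd h s) s (z - v) - c) * ((J v).re : ℂ) := by
      have h4 : ∀ v : ℝ, (Fw (dd h s) s (z - v) - c) * ((J v).re : ℂ) =
          Fw (dd h s) s (z - v) * ((J v).re : ℂ) - c * ((J v).re : ℂ) := fun v => by ring
      simp_rw [h4]
      have h5 : Integrable (fun v : ℝ => ((J v).re : ℂ)) := hJi.ofReal
      rw [integral_sub (hint z hz) (h5.const_mul c), ← havg z hz, integral_const_mul]
      have h6 : ∫ v : ℝ, ((J v).re : ℂ) = 1 := by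
        have h7 : ∫ v : ℝ, ((J v).re : ℂ) = ((∫ v : ℝ, (J v).re : ℝ) : ℂ) := integral_ofReal
        rw [h7, hJ1, Complex.ofReal_one]
      rw [h6, mul_one]
    rw [h3]
    obtain ⟨t1, t2⟩ := htail X hX
    have h4 : Integrable (fun v : ℝ => E * (J v).re +
        R * {x : ℝ | X ≤ |x|}.indicator (fun x : ℝ => (J x).re) v) :=
      (hJi.const_mul E).add (t1.const_mul R)
    have h5 := norm_integral_le_of_norm_le h4 (f := fun v : ℝ =>
      (Fw (dd h s) s (z - v) - c) * ((J v).re : ℂ)) (Eventually.of_forall fun v => by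
        rw [norm_mul, Complex.norm_real, Real.norm_of_nonneg (hp v)]
        by_cases hv : |v| < X
        · rw [indicator_of_notMem (by
            show ¬ (X ≤ |v|)
            exact not_le.2 hv), mul_zero, add_zero]
          exact mul_le_mul_of_nonneg_right (h1 v hv) (hp v)
        · rw [indicator_of_mem (by
            show X ≤ |v|
            exact not_lt.1 hv)]
          have h6 := mul_le_mul_of_nonneg_right (h2 v) (hp v)
          have h7 : 0 ≤ E * (J v).re := mul_nonneg hE (hp v)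
          linarith)
    refine h5.trans ?_
    rw [integral_add (hJi.const_mul E) (t1.const_mul R), integral_const_mul, integral_const_mul,
      hJ1, mul_one]
    exact add_le_add le_rfl (mul_le_mul_of_nonneg_left t2 hR)
  -- the real line
  have hreal : ∀ x : ℝ, GG h s J x = ((∫ v : ℝ, (J v).re * Fr (dd h s) s (x - v) : ℝ) : ℂ) := by
    intro x
    have e0 : ((∫ v : ℝ, (J v).re * Fr (dd h s) s (x - v) : ℝ) : ℂ) =
        ∫ v : ℝ, (((J v).re * Fr (dd h s) s (x - v) : ℝ) : ℂ) := integral_ofReal.symm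
    rw [havg x (by simpa using hs.le), e0]
    refine integral_congr_ae (Eventually.of_forall fun v => ?_)
    show Fw (dd h s) s ((x : ℂ) - v) * ((J v).re : ℂ) = (((J v).re * Fr (dd h s) s (x - v) : ℝ) : ℂ)
    have h1 : (x : ℂ) - v = ((x - v : ℝ) : ℂ) := by push_cast; ring
    rw [h1, Fw_real]
    push_cast
    ring
  obtain ⟨hFi, hFle⟩ := Fr_int hh hs
  have hconv : (fun x : ℝ => (GG h s J x).re) =
      MeasureTheory.convolution (fun v : ℝ => (J v).re) (Fr (dd h s) s)
        (ContinuousLinearMap.mul ℝ ℝ) volume := by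
    funext x
    rw [hreal x, Complex.ofReal_re]
    rfl
  have hGnorm : ∀ z : ℂ, |z.im| ≤ s → ‖GG h s J z‖ ≤ 1 := by
    intro z hz
    rw [havg z hz]
    have h1 := norm_integral_le_of_norm_le hJi (f := fun v : ℝ =>
      Fw (dd h s) s (z - v) * ((J v).re : ℂ)) (Eventually.of_forall fun v => by
        rw [norm_mul, Complex.norm_real, Real.norm_of_nonneg (hp v)]
        exact mul_le_of_le_one_left (hp v) (norm_Fw_le_one hd.le hs (by rw [him]; exact hz)))
    rw [hJ1] at h1
    exact h1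
  refine ⟨GG h s J, gg h s j, gg_bw hh hs hJ, ?_, ?_, ?_, ?_, hGnorm, ?_, ?_, ?_⟩
  · -- conjugation
    refine bw_conj (gg_bw hh hs hJ) fun x => ?_
    rw [hreal x]
    exact Complex.ofReal_im _
  · intro x
    constructor
    · rw [hreal x, Complex.ofReal_re]
      exact integral_nonneg fun v => mul_nonneg (hp v) (Fr_pos _ _ _).le
    · exact (Complex.re_le_norm _).trans (hGnorm x (by simpa using hs.le))
  · rw [hconv]
    exact hJi.integrable_convolution (ContinuousLinearMap.mul ℝ ℝ) hFi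
  · rw [hconv, integral_convolution (ContinuousLinearMap.mul ℝ ℝ) hJi hFi, hJ1]
    simpa using hFle
  · -- close to one
    intro z X hz hX
    have h1 := hbnd z X (2 * Real.exp ((|z.re| + X - h) / s)) 2 1 hz hX zero_le_two
      (fun v hv => by
        refine (norm_Fw_sub_one hs (by rw [him]; exact hz)).trans ?_
        refine mul_le_mul_of_nonneg_left (Real.exp_le_exp.2 ?_) zero_le_two
        refine div_le_div_of_nonneg_right ?_ hs.le
        rw [hre]
        have := abs_sub z.re v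
        linarith)
      (fun v => by
        have h2 := norm_Fw_le_one hd.le hs (z := z - v) (by rw [him]; exact hz)
        refine (norm_sub_le _ _).trans ?_
        rw [norm_one]
        linarith)
      (by positivity)
    have h2 : (2 : ℝ) * (2 * (2 * n / (b * X)) ^ (2 * n - 1)) =
        4 * (2 * n / (b * X)) ^ (2 * n - 1) := by ring
    rw [h2] at h1
    exact h1
  · -- phases
    intro z κ θ hκ hκ1 hz hθ
    have hz' : |z.im| ≤ s := hz.trans (mul_le_of_le_one_left hs.le hκ1)
    rw [havg z hz', ← integral_mul_const]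
    have h1 : Integrable (fun v : ℝ => Fw (dd h s) s (z - v) * ((J v).re : ℂ) * cexp (I * θ)) :=
      (hint z hz').mul_const _
    have h2 : (∫ v : ℝ, Fw (dd h s) s (z - v) * ((J v).re : ℂ) * cexp (I * θ)).re =
        ∫ v : ℝ, (Fw (dd h s) s (z - v) * ((J v).re : ℂ) * cexp (I * θ)).re :=
      (integral_re h1).symm
    rw [h2]
    have h3 : -Real.exp (-(1 / (3 * κ))) = ∫ v : ℝ, -Real.exp (-(1 / (3 * κ))) * (J v).re := by
      rw [integral_const_mul, hJ1, mul_one]
    rw [h3]
    refine integral_mono (hJi.const_mul _) h1.re fun v => ?_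
    have h4 : (Fw (dd h s) s (z - v) * ((J v).re : ℂ) * cexp (I * θ)).re =
        (Fw (dd h s) s (z - v) * cexp (I * θ)).re * (J v).re := by
      rw [mul_right_comm, Complex.re_mul_ofReal]
    show -Real.exp (-(1 / (3 * κ))) * (J v).re ≤
      (Fw (dd h s) s (z - v) * ((J v).re : ℂ) * cexp (I * θ)).re
    rw [h4]
    exact mul_le_mul_of_nonneg_right (Fw_phase hs hκ hκ1 (by rw [him]; exact hz) hθ) (hp v)
  · -- the bound in the whole plane
    intro z
    obtain ⟨g, hg, hgu, hgI⟩ := maj_bound hn hb hs hh hsX hbX z.re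
    unfold GG
    have h2 := norm_integral_le_of_norm_le (hg.const_mul (Real.exp (b * |z.im|)))
      (f := fun u : ℝ => Fw (dd h s) s u * J (z - u)) (Eventually.of_forall fun u => by
        rw [norm_mul, integral_norm_Fw]
        have h3 := hJd (z - u)
        rw [him, hre] at h3
        calc Fr (dd h s) s u * ‖J (z - u)‖
            ≤ Fr (dd h s) s u * (Real.exp (b * |z.im|) * kap b n (z.re - u)) :=
              mul_le_mul_of_nonneg_left h3 (Fr_pos _ _ _).le
          _ = Real.exp (b * |z.im|) * (Fr (dd h s) s u * kap b n (z.re - u)) := by ring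
          _ ≤ Real.exp (b * |z.im|) * g u :=
              mul_le_mul_of_nonneg_left (hgu u) (Real.exp_pos _).le)
    refine h2.trans ?_
    rw [integral_const_mul]
    have hE := Real.exp_pos (b * |z.im|)
    have hP : 0 ≤ ((1 + max 0 (|z.re| - h) / X0) ^ (2 * n - 1))⁻¹ := by
      have : 0 < X0 := hs.trans_le hsX
      positivity
    calc Real.exp (b * |z.im|) * ∫ u, g u
        ≤ Real.exp (b * |z.im|) * (C0 * ((1 + max 0 (|z.re| - h) / X0) ^ (2 * n - 1))⁻¹) :=
          mul_le_mul_of_nonneg_left hgI hE.le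
      _ ≤ Real.exp (b * |z.im|) * ((1 + C0) * ((1 + max 0 (|z.re| - h) / X0) ^ (2 * n - 1))⁻¹) := by
          apply mul_le_mul_of_nonneg_left _ hE.le
          apply mul_le_mul_of_nonneg_right _ hP
          linarith
      _ = _ := by ring

end Pool.Agent.N802.WD
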