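import Pool.Agent.N802.WD.Stm
import Pool.Agent.H370R2.DirGood

/-!
# The weighted density theorem from the decay of the mean square and Jensen's formula
-/

open Complex Filter Topology Set MeasureTheory
open scoped BigOperators ComplexConjugate

set_option autoImplicit false

namespace Pool.Agent.N802.WD

open H370 hiding pt
open TC Pool.Agent.N802.U
open Pool.Agent.R399.TW (pt)

namespace Asm

/-! ### the values to the right -/

lemma cube_sum (N : ℕ) : ∑ i ∈ Finset.range N, (1 : ℝ) / ((i : ℝ) + 2) ^ 3 ≤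
    5 / 24 - (if N = 0 then 0 else 1 / (2 * ((N : ℝ) + 1) * ((N : ℝ) + 2))) := by
  induction N with
  | zero => norm_num
  | succ n ih =>
    rw [Finset.sum_range_succ, if_neg (Nat.succ_ne_zero n)]
    rcases Nat.eq_zero_or_pos n with h0 | h0
    · subst h0
      norm_num
    · rw [if_neg h0.ne'] at ih
      have hn : (1 : ℝ) ≤ n := by exact_mod_cast h0
      have h1 : (1 : ℝ) / ((n : ℝ) + 2) ^ 3 ≤ 1 / (2 * ((n : ℝ) + 1) * ((n : ℝ) + 2)) -
          1 / (2 * (((n + 1 : ℕ) : ℝ) + 1) * (((n + 1 : ℕ) : ℝ) + 2)) := by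
        push_cast
        have e : 1 / (2 * ((n : ℝ) + 1) * ((n : ℝ) + 2)) -
            1 / (2 * ((n : ℝ) + 1 + 1) * ((n : ℝ) + 1 + 2)) =
            1 / (((n : ℝ) + 1) * ((n : ℝ) + 2) * ((n : ℝ) + 3)) := by
          field_simp
          ring
        rw [e]
        apply one_div_le_one_div_of_le (by positivity)
        nlinarith
      linarith

lemma cube_le (N : ℕ) : ∑ i ∈ Finset.range N, (1 : ℝ) / ((i : ℝ) + 2) ^ 3 ≤ 5 / 24 := by
  refine (cube_sum N).trans ?_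
  split_ifs
  · linarith
  · have : (0 : ℝ) ≤ 1 / (2 * ((N : ℝ) + 1) * ((N : ℝ) + 2)) := by positivity
    linarith

lemma norm_pow_le {z : ℂ} (hz : 3 ≤ z.re) (n : ℕ) (hn : 1 ≤ n) :
    ‖(n : ℂ) ^ (-z)‖ ≤ 1 / (n : ℝ) ^ 3 := by
  rw [Complex.norm_natCast_cpow_of_pos (by omega)]
  have h1 : (1 : ℝ) ≤ n := by exact_mod_cast hn
  have h2 : (n : ℝ) ^ ((-z).re) ≤ (n : ℝ) ^ (-(3 : ℝ)) :=
    Real.rpow_le_rpow_of_exponent_le h1 (by simp; linarith)
  refine h2.trans (le_of_eq ?_)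
  rw [Real.rpow_neg (by linarith), one_div]
  norm_cast

lemma zeta_sub {z : ℂ} (hz : 3 ≤ z.re) : ‖riemannZeta z - 1‖ ≤ 5 / 24 := by
  have h1 := zeta_eq_tsum_one_div_nat_add_one_cpow (s := z) (by linarith)
  have hterm : ∀ n : ℕ, ‖(1 : ℂ) / ((n : ℂ) + 1) ^ z‖ ≤ 1 / ((n : ℝ) + 1) ^ 3 := by
    intro n
    have h2 := norm_pow_le hz (n + 1) (by omega)
    rw [Complex.cpow_neg] at h2
    rw [one_div]
    push_cast at h2
    exact h2
  have hs : Summable fun n : ℕ => (1 : ℝ) / ((n : ℝ) + 1) ^ 3 := by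
    have h3 := (Real.summable_one_div_nat_pow (p := 3)).2 (by norm_num)
    have h4 := (summable_nat_add_iff (f := fun n : ℕ => (1 : ℝ) / (n : ℝ) ^ 3) 1).2 h3
    refine h4.congr fun n => ?_
    push_cast
    rfl
  have hsc : Summable fun n : ℕ => (1 : ℂ) / ((n : ℂ) + 1) ^ z :=
    Summable.of_norm_bounded hs hterm
  rw [h1, hsc.tsum_eq_zero_add]
  have e0 : (1 : ℂ) / (((0 : ℕ) : ℂ) + 1) ^ z = 1 := by simp
  rw [e0, add_sub_cancel_left]
  have h5 : ∀ n : ℕ, ‖(1 : ℂ) / (((n + 1 : ℕ) : ℂ) + 1) ^ z‖ ≤ 1 / ((n : ℝ) + 2) ^ 3 := by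
    intro n
    refine (hterm (n + 1)).trans (le_of_eq ?_)
    push_cast
    ring_nf
  have hs2 : Summable fun n : ℕ => (1 : ℝ) / ((n : ℝ) + 2) ^ 3 := by
    have h3 := (Real.summable_one_div_nat_pow (p := 3)).2 (by norm_num)
    have h4 := (summable_nat_add_iff (f := fun n : ℕ => (1 : ℝ) / (n : ℝ) ^ 3) 2).2 h3
    refine h4.congr fun n => ?_
    push_cast
    rfl
  refine (tsum_of_norm_bounded hs2.hasSum h5).trans ?_
  exact Real.tsum_le_of_sum_range_le (fun n => by positivity) fun n => cube_le n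

lemma mp_sub {V : ℝ → ℝ} (hV : ∀ x, 0 ≤ V x ∧ V x ≤ 1) (h0 : V 0 = 1) {M : ℕ} (hM : 1 ≤ M)
    {z : ℂ} (hz : 3 ≤ z.re) : ‖Mp V M z - 1‖ ≤ 5 / 24 := by
  obtain ⟨N, rfl⟩ : ∃ N, M = N + 1 := ⟨M - 1, by omega⟩
  set a : ℕ → ℂ := fun n => ((ArithmeticFunction.moebius n : ℤ) : ℂ) *
    ((V (Real.log n) : ℂ) * (n : ℂ) ^ (-z)) with ha
  have e1 : Mp V (N + 1) z = ∑ i ∈ Finset.range (N + 1), a (i + 1) := by
    rw [Mp, Finset.range_eq_Ico, Finset.sum_Ico_add' a 0 (N + 1) 1]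
    rfl
  have e2 : a (0 + 1) = 1 := by
    simp [ha, h0]
  rw [e1, Finset.sum_range_succ', e2, add_sub_cancel_right]
  refine (norm_sum_le _ _).trans (le_trans (Finset.sum_le_sum fun i _ => ?_) (cube_le N))
  rw [ha]
  simp only
  rw [norm_mul, norm_mul]
  have h1 : ‖((ArithmeticFunction.moebius (i + 1 + 1) : ℤ) : ℂ)‖ ≤ 1 := by
    rw [Complex.norm_intCast]
    exact_mod_cast ArithmeticFunction.abs_moebius_le_one
  have h2 : ‖((V (Real.log ((i + 1 + 1 : ℕ) : ℝ)) : ℝ) : ℂ)‖ ≤ 1 := by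
    rw [Complex.norm_real, Real.norm_eq_abs, abs_of_nonneg (hV _).1]
    exact (hV _).2
  have h3 := norm_pow_le hz (i + 1 + 1) (by omega)
  have h4 : (1 : ℝ) / ((i + 1 + 1 : ℕ) : ℝ) ^ 3 = 1 / ((i : ℝ) + 2) ^ 3 := by
    push_cast
    ring_nf
  rw [h4] at h3
  calc _ ≤ 1 * (1 * (1 / ((i : ℝ) + 2) ^ 3)) := by
        refine mul_le_mul h1 (mul_le_mul h2 h3 (norm_nonneg _) zero_le_one) ?_ zero_le_one
        positivity
    _ = _ := by ring

lemma f_le {V : ℝ → ℝ} (hV : ∀ x, 0 ≤ V x ∧ V x ≤ 1) (h0 : V 0 = 1) {M : ℕ} (hM : 1 ≤ M)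
    {z : ℂ} (hz : 3 ≤ z.re) : ‖riemannZeta z * Mp V M z - 1‖ ≤ 1 / 2 := by
  have h1 := zeta_sub hz
  have h2 := mp_sub hV h0 hM hz
  have e : riemannZeta z * Mp V M z - 1 = (riemannZeta z - 1) * (Mp V M z - 1) +
      (riemannZeta z - 1) + (Mp V M z - 1) := by ring
  rw [e]
  have h3 := norm_add₃_le (a := (riemannZeta z - 1) * (Mp V M z - 1)) (b := riemannZeta z - 1)
    (c := Mp V M z - 1)
  rw [norm_mul] at h3
  have h4 : ‖riemannZeta z - 1‖ * ‖Mp V M z - 1‖ ≤ 5 / 24 * (5 / 24) :=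
    mul_le_mul h1 h2 (norm_nonneg _) (by norm_num)
  linarith

/-! ### analyticity -/

lemma Mp_diff (V : ℝ → ℝ) (M : ℕ) : Differentiable ℂ (Mp V M) := by
  unfold Mp
  refine Differentiable.fun_sum fun n hn => ?_
  have hn1 : (n : ℂ) ≠ 0 := by
    have : 1 ≤ n := (Finset.mem_Icc.1 hn).1
    exact_mod_cast (by omega : n ≠ 0)
  refine (differentiable_const _).mul ((differentiable_const _).mul ?_)
  intro z
  exact (differentiableAt_id.neg).const_cpow (Or.inl hn1)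

lemma order_le {V : ℝ → ℝ} (hV : ∀ x, 0 ≤ V x ∧ V x ≤ 1) (h0 : V 0 = 1) {M : ℕ} (hM : 1 ≤ M)
    {s : ℂ} (hs : s ≠ 1) : mult riemannZeta s ≤
    analyticOrderNatAt (fun z => 1 + (riemannZeta z * Mp V M z - 1)) s := by
  have e : (fun z => 1 + (riemannZeta z * Mp V M z - 1)) = riemannZeta * Mp V M := by
    funext z
    simp only [Pi.mul_apply]
    ring
  have hMd := Mp_diff V M
  have hz : AnalyticAt ℂ riemannZeta s := by
    have h1 : DifferentiableOn ℂ riemannZeta {1}ᶜ := fun z hz =>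
      (differentiableAt_riemannZeta hz).differentiableWithinAt
    exact h1.analyticAt (isOpen_compl_singleton.mem_nhds hs)
  have h3 : Mp V M 3 ≠ 0 := by
    intro h
    have h4 := mp_sub hV h0 hM (z := 3) (by norm_num)
    rw [h] at h4
    norm_num at h4
  have h4 : analyticOrderAt (Mp V M) 3 ≠ ⊤ := by
    rw [(hMd.analyticAt 3).analyticOrderAt_eq_zero.mpr h3]
    exact ENat.zero_ne_top
  have hA : AnalyticOnNhd ℂ (Mp V M) univ := fun z _ => hMd.analyticAt z
  have h5 : analyticOrderAt (Mp V M) s ≠ ⊤ :=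
    hA.analyticOrderAt_ne_top_of_isPreconnected isPreconnected_univ (mem_univ 3) (mem_univ s) h4
  unfold mult analyticOrderNatAt
  rw [e, analyticOrderAt_mul hz (hMd.analyticAt s)]
  by_cases h6 : analyticOrderAt riemannZeta s = ⊤
  · rw [h6]
    simp
  · refine ENat.toNat_le_toNat le_self_add ?_
    exact WithTop.add_ne_top.2 ⟨h6, h5⟩

/-! ### the weights -/

lemma rh_cont' (τ H : ℝ) (S : Finset ℕ) (r : ℕ → ℂ) : Continuous (rh τ H S r) := by
  unfold rh
  have h2 : Continuous (fun t => RP S r t) := TP_cont _ _ _ _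
  exact (om_cont τ H).mul (h2.norm.pow 2)

lemma rh_nonneg' (τ H : ℝ) (S : Finset ℕ) (r : ℕ → ℂ) (t : ℝ) : 0 ≤ rh τ H S r t :=
  mul_nonneg (om_pos _ _ _).le (sq_nonneg _)

open Classical in
lemma cnt_int {w : ℝ → ℝ} (hw : Continuous w) (Z : Finset ℂ) (P : ℂ → Prop) (m : ℂ → ℝ)
    (x h a b : ℝ) : IntervalIntegrable
      (fun t => w t * ∑ s ∈ Z.filter (fun s => P s ∧ |s.im - (t + x)| ≤ h), m s) volume a b := by
  have e : (fun t => w t * ∑ s ∈ Z.filter (fun s => P s ∧ |s.im - (t + x)| ≤ h), m s) =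
      ∑ s ∈ Z, fun t => {t : ℝ | P s ∧ |s.im - (t + x)| ≤ h}.indicator (fun t => w t * m s) t := by
    funext t
    rw [Finset.sum_apply, Finset.sum_filter, Finset.mul_sum]
    refine Finset.sum_congr rfl fun s _ => ?_
    by_cases hs : P s ∧ |s.im - (t + x)| ≤ h
    · rw [if_pos hs, Set.indicator_of_mem (show t ∈ {t : ℝ | P s ∧ |s.im - (t + x)| ≤ h} from hs)]
    · rw [if_neg hs, Set.indicator_of_notMem
        (show t ∉ {t : ℝ | P s ∧ |s.im - (t + x)| ≤ h} from hs), mul_zero]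
  rw [e]
  refine IntervalIntegrable.sum _ fun s _ => ?_
  have hmeas : MeasurableSet {t : ℝ | P s ∧ |s.im - (t + x)| ≤ h} := by
    by_cases hP : P s
    · have : {t : ℝ | P s ∧ |s.im - (t + x)| ≤ h} = {t : ℝ | |s.im - (t + x)| ≤ h} := by
        ext t; simp [hP]
      rw [this]
      exact (isClosed_le (by fun_prop) continuous_const).measurableSet
    · have : {t : ℝ | P s ∧ |s.im - (t + x)| ≤ h} = ∅ := by
        ext t; simp [hP]
      rw [this]
      exact MeasurableSet.empty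
  have hc : IntervalIntegrable (fun t => w t * m s) volume a b :=
    (hw.mul continuous_const).intervalIntegrable a b
  exact ⟨hc.1.indicator hmeas, hc.2.indicator hmeas⟩

open Classical in
/-- the reflection -/
lemma refl_le {F : ℂ → ℂ} (hF : GoodL F) {U1 U2 : ℝ} (hU : 1 ≤ U1) {L : ℝ} (hL : 0 < L)
    (A g h : ℝ) :
    ∑ s ∈ (Zf F U1 U2).filter (fun s => A ≤ |(zz s).im| * L ∧ |s.im - g| ≤ h),
      (mult F s : ℝ) ≤
    2 * ∑ s ∈ (Zf F U1 U2).filter (fun s => 1 / 2 + A / L ≤ s.re ∧ |s.im - g| ≤ h),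
      (mult F s : ℝ) := by
  have e1 : ∑ s ∈ (Zf F U1 U2).filter (fun s => s.re ≤ 1 / 2 - A / L ∧ |s.im - g| ≤ h),
      (mult F s : ℝ) =
      ∑ s ∈ (Zf F U1 U2).filter (fun s => 1 / 2 + A / L ≤ s.re ∧ |s.im - g| ≤ h),
      (mult F s : ℝ) := by
    rw [Finset.sum_filter, Finset.sum_filter, ← sum_refl hF hU]
    refine Finset.sum_congr rfl fun s hs => ?_
    obtain ⟨h1, h2, h3, _, _⟩ := (mem_Zf hF hU).1 hs
    have him : (1 - conj s).im = s.im := by simp
    have hre : (1 - conj s).re = 1 - s.re := by simp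
    rw [him, hre, mult_refl hF h1 h2 (by linarith)]
    have e2 : (1 - s.re ≤ 1 / 2 - A / L) ↔ (1 / 2 + A / L ≤ s.re) := by
      constructor <;> intro h <;> linarith
    simp only [e2]
  have e3 : ∑ s ∈ (Zf F U1 U2).filter (fun s => A ≤ |(zz s).im| * L ∧ |s.im - g| ≤ h),
      (mult F s : ℝ) ≤
      ∑ s ∈ (Zf F U1 U2).filter (fun s => s.re ≤ 1 / 2 - A / L ∧ |s.im - g| ≤ h),
        (mult F s : ℝ) +
      ∑ s ∈ (Zf F U1 U2).filter (fun s => 1 / 2 + A / L ≤ s.re ∧ |s.im - g| ≤ h),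
        (mult F s : ℝ) := by
    rw [Finset.sum_filter, Finset.sum_filter, Finset.sum_filter, ← Finset.sum_add_distrib]
    refine Finset.sum_le_sum fun s _ => ?_
    have hm : (0 : ℝ) ≤ (mult F s : ℝ) := Nat.cast_nonneg _
    by_cases h1 : A ≤ |(zz s).im| * L ∧ |s.im - g| ≤ h
    · rw [if_pos h1]
      have h2 : A / L ≤ |s.re - 1 / 2| := by
        rw [div_le_iff₀ hL]
        have := h1.1
        rwa [zz_im, abs_neg] at this
      rcases abs_cases (s.re - 1 / 2) with ⟨h3, _⟩ | ⟨h3, _⟩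
      · rw [h3] at h2
        rw [if_pos (c := 1 / 2 + A / L ≤ s.re ∧ |s.im - g| ≤ h) ⟨by linarith, h1.2⟩]
        split_ifs <;> linarith
      · rw [h3] at h2
        rw [if_pos (c := s.re ≤ 1 / 2 - A / L ∧ |s.im - g| ≤ h) ⟨by linarith, h1.2⟩]
        split_ifs <;> linarith
    · rw [if_neg h1]
      split_ifs <;> linarith
  rw [e1] at e3
  linarith

end Asm

open Asm

theorem asm (hrt : S_rt) (hjen : S_jen) : S_wd riemannZeta := by
  classical
  obtain ⟨β₁, β₂, c₁, C₁, δ, T0, hβ₁, hβ, hβ₂, hc₁, hC₁, hδ, hT0, hmain⟩ := hrt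
  obtain ⟨c, C, L₀, hc, hC, hL₀, hj⟩ := hjen c₁ C₁ hc₁ hC₁
  have hgz : GoodL riemannZeta := good_zeta
  refine ⟨c, 2 * C, δ, max (max T0 600) (Real.exp L₀), hc, by positivity, hδ,
    le_max_of_le_left (le_max_of_le_left hT0), ?_⟩
  intro T hT S hS r τ H hH U1 U2 x A hU1 hx hA
  have hT1 : T0 ≤ T := (le_max_left _ _).trans ((le_max_left _ _).trans hT)
  have hT2 : 600 ≤ T := (le_max_right _ _).trans ((le_max_left _ _).trans hT)
  have hT3 : Real.exp L₀ ≤ T := (le_max_right _ _).trans hT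
  have hTpos : 0 < T := by linarith
  set L := Real.log T with hL
  have hLL : L₀ ≤ L := by
    rw [hL, Real.le_log_iff_exp_le hTpos]
    exact hT3
  have hL1 : 1 ≤ L := hL₀.trans hLL
  have hL0 : 0 < L := by linarith
  obtain ⟨V, hV, hV1, _, hms⟩ := hmain T hT1
  have hV0 : V 0 = 1 := hV1 0 (by positivity)
  set M := ⌊T ^ β₂⌋₊ with hM
  have hM1 : 1 ≤ M := by
    rw [hM]
    refine Nat.le_floor ?_
    push_cast
    exact Real.one_le_rpow (by linarith) (by linarith)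
  set f : ℂ → ℂ := fun z => riemannZeta z * Mp V M z - 1 with hf
  have hHpos : 0 < H := lt_of_lt_of_le (Real.rpow_pos_of_pos hTpos _) hH
  have hmr : 0 ≤ mr H S r := by
    unfold mr
    have := w1_nonneg S r
    positivity
  have hfd : ∀ z : ℂ, 1 < z.im → DifferentiableAt ℂ f z := by
    intro z hz
    have h1 : z ≠ 1 := by
      rintro rfl
      simp at hz
      linarith
    exact ((differentiableAt_riemannZeta h1).mul (Mp_diff V M z)).sub_const 1
  have hf3 : ∀ z : ℂ, 1 < z.im → 3 ≤ z.re → ‖f z‖ ≤ 1 / 2 := fun z _ hz => f_le hV hV0 hM1 hz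
  have hxa := abs_le.1 hx
  have key := hj L hLL f hfd hf3 T (2 * T) x (mr H S r) (rh τ H S r) (by linarith)
    (by linarith) (rh_cont' _ _ _ _) (rh_nonneg' _ _ _ _) hmr (by
      intro ρ y h1 h2 h3
      have hy := abs_le.1 h3
      have h4 := hms S hS r τ H hH (x + y) (by
        rw [abs_le]
        constructor <;> linarith) ρ h1 h2
      refine le_trans (le_of_eq ?_) h4
      refine intervalIntegral.integral_congr fun t _ => ?_
      simp only [hf, add_assoc]) (Zf riemannZeta U1 U2) (mult riemannZeta) (by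
      intro s hs
      obtain ⟨h1, h2, h3, _, _⟩ := (mem_Zf hgz hU1).1 hs
      refine ⟨by linarith, h2.le, order_le hV hV0 hM1 ?_⟩
      rintro rfl
      simp at h3
      linarith) A hA
  have hmono : ∫ t in T..(2 * T), rh τ H S r t *
      ∑ s ∈ (Zf riemannZeta U1 U2).filter (fun s => A ≤ |(zz s).im| * L ∧
        |s.im - (t + x)| ≤ 1 / L), (mult riemannZeta s : ℝ) ≤
      ∫ t in T..(2 * T), 2 * (rh τ H S r t *
      ∑ s ∈ (Zf riemannZeta U1 U2).filter (fun s => 1 / 2 + A / L ≤ s.re ∧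
        |s.im - (t + x)| ≤ 1 / L), (mult riemannZeta s : ℝ)) := by
    refine intervalIntegral.integral_mono_on (by linarith) ?_ ?_ ?_
    · exact cnt_int (rh_cont' _ _ _ _) _ (fun s => A ≤ |(zz s).im| * L) _ _ _ _ _
    · exact (cnt_int (rh_cont' _ _ _ _) _ (fun s => 1 / 2 + A / L ≤ s.re) _ _ _ _ _).const_mul 2
    · intro t _
      have h1 := refl_le hgz hU1 (U2 := U2) hL0 A (t + x) (1 / L)
      have h2 := rh_nonneg' τ H S r t
      calc _ ≤ rh τ H S r t * (2 * ∑ s ∈ (Zf riemannZeta U1 U2).filter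
            (fun s => 1 / 2 + A / L ≤ s.re ∧ |s.im - (t + x)| ≤ 1 / L),
            (mult riemannZeta s : ℝ)) := mul_le_mul_of_nonneg_left h1 h2
        _ = _ := by ring
  rw [intervalIntegral.integral_const_mul] at hmono
  refine hmono.trans ?_
  have h5 := mul_le_mul_of_nonneg_left key (show (0 : ℝ) ≤ 2 by norm_num)
  calc _ ≤ 2 * (C * Real.exp (-(c * A)) * mr H S r) := h5
    _ = _ := by ring

end Pool.Agent.N802.WD
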