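import Pool.Agent.N802.WD.Stm

/-!
# The density of zeros with the weight of a long Dirichlet polynomial: statements

The weight is `|R|²`, `R` a Dirichlet polynomial of length `N` with arbitrary coefficients, in
windows of width `H ≥ N T ^ (1 / 2 + ε)`. The function is zeta or the `L`-function of a primitive
Dirichlet character.
-/

open Complex Filter Topology Set MeasureTheory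
open scoped BigOperators ComplexConjugate

namespace Pool.Agent.N802.WD

open H370 hiding pt
open TC Pool.Agent.N802.U
open Pool.Agent.R399.TW (pt)
open Pool.Agent.N786.D (kap)

/-- **CUT2**: as `S_cut`, with an arbitrary rate `c` -/
def S_cut2 : Prop := ∀ (β₁ β₂ a₀ : ℝ) (B : ℕ) (c : ℝ), 0 < β₁ → β₁ < β₂ → 1 ≤ a₀ → 0 < c →
  ∃ C : ℝ, 0 < C ∧ ∀ L : ℝ, 1 ≤ L → ∃ (V : ℝ → ℝ) (K : ℝ → ℝ → ℂ),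
    Cutf L β₁ β₂ a₀ B c C V K

/-- **KER2**: as `S_ker`, with powers of the Gevrey factor -/
def S_ker2 : Prop :=
  (∀ {g : ℂ → ℂ}, Differentiable ℂ g → ∀ {a μ lam G : ℝ} {m B : ℕ} (J p : ℕ),
    m + 3 ≤ 2 * B - 1 → μ < lam →
    (∀ z : ℂ, a ≤ z.re → ‖g z‖ ≤ G * (1 + |z.im|) ^ m * Real.exp (-(lam * z.re))) →
    ∀ {s : ℂ}, a < s.re →
    Integrable (fun v : ℝ => ‖g (pt a (s.im + v))‖ *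
      (kap B (s.re - a) v * gev (s.re - a) J v ^ p)) ∧
    ‖g s‖ ≤ Real.exp (-(μ * (s.re - a))) *
      ∫ v : ℝ, ‖g (pt a (s.im + v))‖ * (kap B (s.re - a) v * gev (s.re - a) J v ^ p)) ∧
  (∃ C₂ : ℝ, 0 < C₂ ∧ ∀ κ C₁ : ℝ, 0 < κ → 0 < C₁ → ∃ p : ℕ, ∀ L r : ℝ, 1 ≤ L → 0 < r →
    r ≤ κ / L → ∃ J : ℕ, Continuous (gev r J) ∧ ∀ v : ℝ, 0 ≤ gev r J v ∧
      gev r J v ^ p * Real.exp (C₁ * Real.sqrt (L * min 1 |v|)) ≤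
        Real.exp (C₂ * (1 + C₁ * Real.sqrt κ)))

/-! ### twisted series -/

/-- `F` is the Dirichlet series with the completely multiplicative coefficients `χ` -/
structure TwF (χ : ℕ → ℂ) (F : ℂ → ℂ) (A : ℝ) : Prop where
  mul : ∀ m n : ℕ, χ (m * n) = χ m * χ n
  one : χ 1 = 1
  le : ∀ n : ℕ, ‖χ n‖ ≤ 1
  ent : ∃ G : ℂ → ℂ, Differentiable ℂ G ∧ ∀ s : ℂ, s ≠ 1 → G s = (s - 1) * F s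
  ser : ∀ s : ℂ, 1 < s.re → HasSum (fun n : ℕ => χ n * (n : ℂ) ^ (-s)) (F s)
  gr : ∀ s : ℂ, 1 / 4 ≤ s.re → s.re ≤ 4 → ‖(s - 1) * F s‖ ≤ A * (1 + |s.im|) ^ 6
  refl : ∀ d u : ℝ, 0 ≤ d → d ≤ 1 / 4 →
    ‖F (pt (1 / 2 - d) u)‖ ≤ A * (1 + |u|) ^ d * ‖F (pt (1 / 2 + d) u)‖

/-- the twisted smooth partial sum -/
noncomputable def Dx (χ : ℕ → ℂ) (V : ℝ → ℝ) (M : ℕ) (s : ℂ) : ℂ :=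
  ∑ n ∈ Finset.Icc 1 M, χ n * ((V (Real.log n) : ℂ) * (n : ℂ) ^ (-s))

/-- the twisted mollifier -/
noncomputable def Mx (χ : ℕ → ℂ) (V : ℝ → ℝ) (M : ℕ) (s : ℂ) : ℂ :=
  ∑ n ∈ Finset.Icc 1 M, ((ArithmeticFunction.moebius n : ℤ) : ℂ) * (χ n * ((V (Real.log n) : ℂ) *
    (n : ℂ) ^ (-s)))

/-- **MSD2** -/
def S_msd2 : Prop := ∃ (q : ℕ) (C₁ : ℝ), 0 < C₁ ∧ ∀ α₁ α₂ β₁ β₂ κ C ε : ℝ, 0 < α₁ → α₁ < α₂ →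
  0 < β₁ → β₁ < β₂ → 1 ≤ κ → 0 < C → 0 < ε →
  ∃ a T0 : ℝ, 0 < a ∧ 10 ≤ T0 ∧ ∀ T : ℝ, T0 ≤ T →
  ∀ (V₁ V₂ : ℝ → ℝ) (K₁ K₂ : ℝ → ℝ → ℂ),
  Cutf (Real.log T) α₁ α₂ (2 * κ + 1) (q + 4) C₁ C V₁ K₁ →
  Cutf (Real.log T) β₁ β₂ (2 * κ + 1) (q + 4) C₁ C V₂ K₂ →
  ∀ χ : ℕ → ℂ, (∀ m n : ℕ, χ (m * n) = χ m * χ n) → (∀ n : ℕ, ‖χ n‖ ≤ 1) →
  ∀ N H : ℝ, 1 ≤ N → N ≤ T → N * T ^ (α₂ + β₂ + ε) ≤ H →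
  ∀ S : Finset ℕ, Len S N → ∀ (r : ℕ → ℂ) (τ k₁ k₂ : ℝ), |k₁| ≤ κ → |k₂| ≤ κ → ∀ x v : ℝ,
  ∫ t : ℝ, rh τ H S r t *
    (‖Dx χ V₁ ⌊T ^ α₂⌋₊ (pt (1 / 2 + k₁ / Real.log T) (t + x + v))‖ ^ 2 *
      ‖Mx χ V₂ ⌊T ^ β₂⌋₊ (pt (1 / 2 + k₂ / Real.log T) (t + x))‖ ^ 2) ≤
    a * grow (Real.log T) C₁ q v * mr H S r

/-- **BOOT2** -/
def S_mz2 : Prop := ∀ (χ : ℕ → ℂ) (F : ℂ → ℂ) (A : ℝ), TwF χ F A → ∀ ε : ℝ, 0 < ε → ε ≤ 1 / 4 →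
  ∃ β₁ β₂ C T0 : ℝ, 0 < β₁ ∧ β₁ < β₂ ∧ β₂ < 1 / 2 ∧ 0 < C ∧ 10 ≤ T0 ∧
  ∀ T : ℝ, T0 ≤ T → ∃ V : ℝ → ℝ, (∀ x, 0 ≤ V x ∧ V x ≤ 1) ∧ (∀ x, x ≤ β₁ * Real.log T → V x = 1) ∧
  (∀ x, β₂ * Real.log T ≤ x → V x = 0) ∧
  ∀ N H : ℝ, 1 ≤ N → N ≤ T → N * T ^ (1 / 2 + ε) ≤ H →
  ∀ S : Finset ℕ, Len S N → ∀ (r : ℕ → ℂ) (τ x : ℝ), |x| ≤ T / 2 →
  ∫ t in T..(2 * T), rh τ H S r t *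
    ‖F (pt (1 / 2 - 1 / Real.log T) (t + x)) *
      Mx χ V ⌊T ^ β₂⌋₊ (pt (1 / 2 - 1 / Real.log T) (t + x))‖ ^ 2 ≤ C * mr H S r

/-- **RIGHT2** -/
def S_rt2 : Prop := ∀ (χ : ℕ → ℂ) (F : ℂ → ℂ) (A : ℝ), TwF χ F A → ∀ ε : ℝ, 0 < ε → ε ≤ 1 / 4 →
  ∃ β₁ β₂ c C T0 : ℝ, 0 < β₁ ∧ β₁ < β₂ ∧ β₂ < 1 / 2 ∧ 0 < c ∧ 0 < C ∧ 10 ≤ T0 ∧
  ∀ T : ℝ, T0 ≤ T → ∃ V : ℝ → ℝ, (∀ x, 0 ≤ V x ∧ V x ≤ 1) ∧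
  (∀ x, x ≤ β₁ * Real.log T → V x = 1) ∧ (∀ x, β₂ * Real.log T ≤ x → V x = 0) ∧
  ∀ N H : ℝ, 1 ≤ N → N ≤ T → N * T ^ (1 / 2 + ε) ≤ H →
  ∀ S : Finset ℕ, Len S N → ∀ (r : ℕ → ℂ) (τ x : ℝ), |x| ≤ T / 4 →
  ∀ ρ : ℝ, -(1 / (2 * Real.log T)) ≤ ρ → ρ ≤ 30 →
  ∫ t in T..(2 * T), rh τ H S r t *
    ‖F (pt (1 / 2 + ρ) (t + x)) * Mx χ V ⌊T ^ β₂⌋₊ (pt (1 / 2 + ρ) (t + x)) - 1‖ ^ 2 ≤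
    C * Real.exp (-(c * Real.log T * ρ)) * mr H S r

open Classical in
/-- **the weighted density theorem**, windows of width `1 / log T` -/
def S_wd2 (F : ℂ → ℂ) : Prop := ∀ ε : ℝ, 0 < ε → ε ≤ 1 / 4 → ∃ c C T0 : ℝ, 0 < c ∧ 0 < C ∧
  10 ≤ T0 ∧ ∀ T : ℝ, T0 ≤ T → ∀ N H : ℝ, 1 ≤ N → N ≤ T → N * T ^ (1 / 2 + ε) ≤ H →
  ∀ S : Finset ℕ, Len S N → ∀ (r : ℕ → ℂ) (τ U1 U2 x A : ℝ), 1 ≤ U1 → |x| ≤ T / 5 → 0 ≤ A →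
  ∫ t in T..(2 * T), rh τ H S r t *
    ∑ s ∈ (Zf F U1 U2).filter (fun s => A ≤ |(zz s).im| * Real.log T ∧
      |s.im - (t + x)| ≤ 1 / Real.log T), (mult F s : ℝ) ≤
    C * Real.exp (-(c * A)) * mr H S r

open Classical in
/-- **WDZ2**: the weighted density theorem for the values at the zeros -/
def S_wdz2 (F : ℂ → ℂ) : Prop := ∀ ε : ℝ, 0 < ε → ε ≤ 1 / 4 → ∃ c C T0 : ℝ, 0 < c ∧ 0 < C ∧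
  10 ≤ T0 ∧ ∀ T : ℝ, T0 ≤ T → ∀ N K : ℝ, 1 ≤ N → N * T ^ (1 / 2 + ε) ≤ K → K ≤ T / 2 →
  ∀ S : Finset ℕ, Len S N → ∀ (r : ℕ → ℂ) (A : ℝ), 0 ≤ A →
  (∑ s ∈ (Zf F T (T + K)).filter (fun s => A ≤ |(zz s).im| * Real.log T),
    (mult F s : ℝ) * ‖RP S r s.im‖ ^ 2) ≤
    C * Real.exp (-(c * A)) * (K * Real.log T * w1 S r)

/-- **ASM2** -/
def S_asm2 : Prop := S_rt2 → S_jen → ∀ (χ : ℕ → ℂ) (F : ℂ → ℂ) (A : ℝ), TwF χ F A → GoodL F →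
  S_wd2 F

end Pool.Agent.N802.WD
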