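import Pool.Agent.N802.WD.Asm
import Pool.Agent.N802.WD.Stm3

/-!
# The weighted density theorem with long weights
-/

open Complex Filter Topology Set MeasureTheory
open scoped BigOperators ComplexConjugate

set_option autoImplicit false

namespace Pool.Agent.N802.WD

open H370 hiding pt
open TC Pool.Agent.N802.U
open Pool.Agent.R399.TW (pt)

namespace Asm2

open Asm (cube_le norm_pow_le rh_cont' rh_nonneg' cnt_int refl_le)

variable {χ : ℕ → ℂ} {F : ℂ → ℂ} {Q : ℝ}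

lemma F_sub (hF : TwF χ F Q) {z : ℂ} (hz : 3 ≤ z.re) : ‖F z - 1‖ ≤ 5 / 24 := by
  have h1 := hF.ser z (by linarith)
  have h2 := (hasSum_nat_add_iff' (f := fun n : ℕ => χ n * (n : ℂ) ^ (-z)) 2).2 h1
  have e0 : ∑ i ∈ Finset.range 2, χ i * (i : ℂ) ^ (-z) = 1 := by
    rw [Finset.sum_range_succ, Finset.sum_range_one]
    have hz0 : (-z) ≠ 0 := by
      intro h
      have := congrArg Complex.re h
      simp at this
      linarith
    rw [Nat.cast_zero, Complex.zero_cpow hz0, mul_zero, zero_add, hF.one, Nat.cast_one,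
      Complex.one_cpow, mul_one]
  rw [e0] at h2
  have h5 : ∀ n : ℕ, ‖χ (n + 2) * ((n + 2 : ℕ) : ℂ) ^ (-z)‖ ≤ 1 / ((n : ℝ) + 2) ^ 3 := by
    intro n
    rw [norm_mul]
    have h3 := norm_pow_le hz (n + 2) (by omega)
    have h4 := hF.le (n + 2)
    have e : (1 : ℝ) / ((n + 2 : ℕ) : ℝ) ^ 3 = 1 / ((n : ℝ) + 2) ^ 3 := by
      push_cast
      ring_nf
    rw [e] at h3
    calc _ ≤ 1 * (1 / ((n : ℝ) + 2) ^ 3) :=
          mul_le_mul h4 h3 (norm_nonneg _) zero_le_one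
      _ = _ := one_mul _
  have hs2 : Summable fun n : ℕ => (1 : ℝ) / ((n : ℝ) + 2) ^ 3 := by
    have h3 := (Real.summable_one_div_nat_pow (p := 3)).2 (by norm_num)
    have h4 := (summable_nat_add_iff (f := fun n : ℕ => (1 : ℝ) / (n : ℝ) ^ 3) 2).2 h3
    refine h4.congr fun n => ?_
    push_cast
    rfl
  rw [← h2.tsum_eq]
  refine (tsum_of_norm_bounded hs2.hasSum h5).trans ?_
  exact Real.tsum_le_of_sum_range_le (fun n => by positivity) fun n => cube_le n

lemma mx_sub (hF : TwF χ F Q) {V : ℝ → ℝ} (hV : ∀ x, 0 ≤ V x ∧ V x ≤ 1) (h0 : V 0 = 1) {M : ℕ}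
    (hM : 1 ≤ M) {z : ℂ} (hz : 3 ≤ z.re) : ‖Mx χ V M z - 1‖ ≤ 5 / 24 := by
  obtain ⟨N, rfl⟩ : ∃ N, M = N + 1 := ⟨M - 1, by omega⟩
  set a : ℕ → ℂ := fun n => ((ArithmeticFunction.moebius n : ℤ) : ℂ) *
    (χ n * ((V (Real.log n) : ℂ) * (n : ℂ) ^ (-z))) with ha
  have e1 : Mx χ V (N + 1) z = ∑ i ∈ Finset.range (N + 1), a (i + 1) := by
    rw [Mx, Finset.range_eq_Ico, Finset.sum_Ico_add' a 0 (N + 1) 1]
    rfl
  have e2 : a (0 + 1) = 1 := by
    simp [ha, h0, hF.one]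
  rw [e1, Finset.sum_range_succ', e2, add_sub_cancel_right]
  refine (norm_sum_le _ _).trans (le_trans (Finset.sum_le_sum fun i _ => ?_) (cube_le N))
  rw [ha]
  simp only
  rw [norm_mul, norm_mul, norm_mul]
  have h1 : ‖((ArithmeticFunction.moebius (i + 1 + 1) : ℤ) : ℂ)‖ ≤ 1 := by
    rw [Complex.norm_intCast]
    exact_mod_cast ArithmeticFunction.abs_moebius_le_one
  have h2 : ‖((V (Real.log ((i + 1 + 1 : ℕ) : ℝ)) : ℝ) : ℂ)‖ ≤ 1 := by
    rw [Complex.norm_real, Real.norm_eq_abs, abs_of_nonneg (hV _).1]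
    exact (hV _).2
  have h3 := norm_pow_le hz (i + 1 + 1) (by omega)
  have h4 : (1 : ℝ) / ((i + 1 + 1 : ℕ) : ℝ) ^ 3 = 1 / ((i : ℝ) + 2) ^ 3 := by
    push_cast
    ring_nf
  rw [h4] at h3
  calc _ ≤ 1 * (1 * (1 * (1 / ((i : ℝ) + 2) ^ 3))) := by
        refine mul_le_mul h1 (mul_le_mul (hF.le _) (mul_le_mul h2 h3 (norm_nonneg _) zero_le_one)
          ?_ zero_le_one) ?_ zero_le_one
        · positivity
        · positivity
    _ = _ := by ring

lemma f_le (hF : TwF χ F Q) {V : ℝ → ℝ} (hV : ∀ x, 0 ≤ V x ∧ V x ≤ 1) (h0 : V 0 = 1) {M : ℕ}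
    (hM : 1 ≤ M) {z : ℂ} (hz : 3 ≤ z.re) : ‖F z * Mx χ V M z - 1‖ ≤ 1 / 2 := by
  have h1 := F_sub hF hz
  have h2 := mx_sub hF hV h0 hM hz
  have e : F z * Mx χ V M z - 1 = (F z - 1) * (Mx χ V M z - 1) +
      (F z - 1) + (Mx χ V M z - 1) := by ring
  rw [e]
  have h3 := norm_add₃_le (a := (F z - 1) * (Mx χ V M z - 1)) (b := F z - 1)
    (c := Mx χ V M z - 1)
  rw [norm_mul] at h3
  have h4 : ‖F z - 1‖ * ‖Mx χ V M z - 1‖ ≤ 5 / 24 * (5 / 24) :=
    mul_le_mul h1 h2 (norm_nonneg _) (by norm_num)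
  linarith

lemma Mx_diff (χ : ℕ → ℂ) (V : ℝ → ℝ) (M : ℕ) : Differentiable ℂ (Mx χ V M) := by
  unfold Mx
  refine Differentiable.fun_sum fun n hn => ?_
  have hn1 : (n : ℂ) ≠ 0 := by
    have : 1 ≤ n := (Finset.mem_Icc.1 hn).1
    exact_mod_cast (by omega : n ≠ 0)
  refine (differentiable_const _).mul ((differentiable_const _).mul
    ((differentiable_const _).mul ?_))
  intro z
  exact (differentiableAt_id.neg).const_cpow (Or.inl hn1)

lemma F_diff (hF : TwF χ F Q) {s : ℂ} (hs : s ≠ 1) : DifferentiableAt ℂ F s := by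
  obtain ⟨G, hG, hGe⟩ := hF.ent
  have h1 : DifferentiableAt ℂ (fun z => G z / (z - 1)) s :=
    (hG s).div (differentiableAt_id.sub_const 1) (sub_ne_zero.2 hs)
  refine h1.congr_of_eventuallyEq ?_
  filter_upwards [isOpen_ne.mem_nhds hs] with z hz
  rw [hGe z hz, mul_div_cancel_left₀ _ (sub_ne_zero.2 hz)]

lemma order_le (hF : TwF χ F Q) {V : ℝ → ℝ} (hV : ∀ x, 0 ≤ V x ∧ V x ≤ 1) (h0 : V 0 = 1) {M : ℕ}
    (hM : 1 ≤ M) {s : ℂ} (hs : s ≠ 1) : mult F s ≤
    analyticOrderNatAt (fun z => 1 + (F z * Mx χ V M z - 1)) s := by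
  have e : (fun z => 1 + (F z * Mx χ V M z - 1)) = F * Mx χ V M := by
    funext z
    simp only [Pi.mul_apply]
    ring
  have hMd := Mx_diff χ V M
  have hz : AnalyticAt ℂ F s := by
    have h1 : DifferentiableOn ℂ F {1}ᶜ := fun z hz =>
      (F_diff hF hz).differentiableWithinAt
    exact h1.analyticAt (isOpen_compl_singleton.mem_nhds hs)
  have h3 : Mx χ V M 3 ≠ 0 := by
    intro h
    have h4 := mx_sub hF hV h0 hM (z := 3) (by norm_num)
    rw [h] at h4
    norm_num at h4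
  have h4 : analyticOrderAt (Mx χ V M) 3 ≠ ⊤ := by
    rw [(hMd.analyticAt 3).analyticOrderAt_eq_zero.mpr h3]
    exact ENat.zero_ne_top
  have hA : AnalyticOnNhd ℂ (Mx χ V M) univ := fun z _ => hMd.analyticAt z
  have h5 : analyticOrderAt (Mx χ V M) s ≠ ⊤ :=
    hA.analyticOrderAt_ne_top_of_isPreconnected isPreconnected_univ (mem_univ 3) (mem_univ s) h4
  unfold mult analyticOrderNatAt
  rw [e, analyticOrderAt_mul hz (hMd.analyticAt s)]
  by_cases h6 : analyticOrderAt F s = ⊤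
  · rw [h6]
    simp
  · refine ENat.toNat_le_toNat le_self_add ?_
    exact WithTop.add_ne_top.2 ⟨h6, h5⟩

end Asm2

open Asm2
open Asm (cube_le norm_pow_le rh_cont' rh_nonneg' cnt_int refl_le)

theorem asm2b : S_asm2 := by
  classical
  intro hrt hjen χ F Q hF hgz ε hε hε4
  obtain ⟨β₁, β₂, c₁, C₁, T0, hβ₁, hβ, hβ₂, hc₁, hC₁, hT0, hmain⟩ := hrt χ F Q hF ε hε hε4
  obtain ⟨c, C, L₀, hc, hC, hL₀, hj⟩ := hjen c₁ C₁ hc₁ hC₁
  refine ⟨c, 2 * C, max (max T0 600) (Real.exp L₀), hc, by positivity,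
    le_max_of_le_left (le_max_of_le_left hT0), ?_⟩
  intro T hT N H hN hNT hH S hS r τ U1 U2 x A hU1 hx hA
  have hT1 : T0 ≤ T := (le_max_left _ _).trans ((le_max_left _ _).trans hT)
  have hT2 : 600 ≤ T := (le_max_right _ _).trans ((le_max_left _ _).trans hT)
  have hT3 : Real.exp L₀ ≤ T := (le_max_right _ _).trans hT
  have hTpos : 0 < T := by linarith
  set L := Real.log T with hL
  have hLL : L₀ ≤ L := by
    rw [hL, Real.le_log_iff_exp_le hTpos]
    exact hT3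
  have hL1 : 1 ≤ L := hL₀.trans hLL
  have hL0 : 0 < L := by linarith
  obtain ⟨V, hV, hV1, _, hms⟩ := hmain T hT1
  have hV0 : V 0 = 1 := hV1 0 (by positivity)
  set M := ⌊T ^ β₂⌋₊ with hM
  have hM1 : 1 ≤ M := by
    rw [hM]
    refine Nat.le_floor ?_
    push_cast
    exact Real.one_le_rpow (by linarith) (by linarith)
  set f : ℂ → ℂ := fun z => F z * Mx χ V M z - 1 with hf
  have hHpos : 0 < H := lt_of_lt_of_le (by positivity) hH
  have hmr : 0 ≤ mr H S r := by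
    unfold mr
    have := w1_nonneg S r
    positivity
  have hfd : ∀ z : ℂ, 1 < z.im → DifferentiableAt ℂ f z := by
    intro z hz
    have h1 : z ≠ 1 := by
      rintro rfl
      simp at hz
      linarith
    exact ((F_diff hF h1).mul (Mx_diff χ V M z)).sub_const 1
  have hf3 : ∀ z : ℂ, 1 < z.im → 3 ≤ z.re → ‖f z‖ ≤ 1 / 2 :=
    fun z _ hz => f_le hF hV hV0 hM1 hz
  have hxa := abs_le.1 hx
  have key := hj L hLL f hfd hf3 T (2 * T) x (mr H S r) (rh τ H S r) (by linarith)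
    (by linarith) (rh_cont' _ _ _ _) (rh_nonneg' _ _ _ _) hmr (by
      intro ρ y h1 h2 h3
      have hy := abs_le.1 h3
      have h4 := hms N H hN hNT hH S hS r τ (x + y) (by
        rw [abs_le]
        constructor <;> linarith) ρ h1 h2
      refine le_trans (le_of_eq ?_) h4
      refine intervalIntegral.integral_congr fun t _ => ?_
      simp only [hf, add_assoc]) (Zf F U1 U2) (mult F) (by
      intro s hs
      obtain ⟨h1, h2, h3, _, _⟩ := (mem_Zf hgz hU1).1 hs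
      refine ⟨by linarith, h2.le, order_le hF hV hV0 hM1 ?_⟩
      rintro rfl
      simp at h3
      linarith) A hA
  have hmono : ∫ t in T..(2 * T), rh τ H S r t *
      ∑ s ∈ (Zf F U1 U2).filter (fun s => A ≤ |(zz s).im| * L ∧
        |s.im - (t + x)| ≤ 1 / L), (mult F s : ℝ) ≤
      ∫ t in T..(2 * T), 2 * (rh τ H S r t *
      ∑ s ∈ (Zf F U1 U2).filter (fun s => 1 / 2 + A / L ≤ s.re ∧
        |s.im - (t + x)| ≤ 1 / L), (mult F s : ℝ)) := by
    refine intervalIntegral.integral_mono_on (by linarith) ?_ ?_ ?_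
    · exact cnt_int (rh_cont' _ _ _ _) _ (fun s => A ≤ |(zz s).im| * L) _ _ _ _ _
    · exact (cnt_int (rh_cont' _ _ _ _) _ (fun s => 1 / 2 + A / L ≤ s.re) _ _ _ _ _).const_mul 2
    · intro t _
      have h1 := refl_le hgz hU1 (U2 := U2) hL0 A (t + x) (1 / L)
      have h2 := rh_nonneg' τ H S r t
      calc _ ≤ rh τ H S r t * (2 * ∑ s ∈ (Zf F U1 U2).filter
            (fun s => 1 / 2 + A / L ≤ s.re ∧ |s.im - (t + x)| ≤ 1 / L),
            (mult F s : ℝ)) := mul_le_mul_of_nonneg_left h1 h2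
        _ = _ := by ring
  rw [intervalIntegral.integral_const_mul] at hmono
  refine hmono.trans ?_
  have h5 := mul_le_mul_of_nonneg_left key (show (0 : ℝ) ≤ 2 by norm_num)
  calc _ ≤ 2 * (C * Real.exp (-(c * A)) * mr H S r) := h5
    _ = _ := by ring

end Pool.Agent.N802.WD
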