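import Pool.Agent.N802.WD.Stm3

/-!
# The density of zeros in the weight of a long Dirichlet polynomial, with the exponent `2 β - ε`:
statements
-/

open Complex Filter Topology Set MeasureTheory
open scoped BigOperators ComplexConjugate

namespace Pool.Agent.N802.WD

open H370 hiding pt
open TC Pool.Agent.N802.U
open Pool.Agent.R399.TW (pt)
open Pool.Agent.N786.D (kap)

/-- **BOOT3**: as `S_mz2`, the mollifier of arbitrary length `β₁ < β₂ < β` -/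
def S_mz3 : Prop := ∀ (χ : ℕ → ℂ) (F : ℂ → ℂ) (A : ℝ), TwF χ F A → ∀ β β₁ β₂ : ℝ, 0 < β₁ →
  β₁ < β₂ → β₂ < β → β < 1 / 2 → ∃ C T0 : ℝ, 0 < C ∧ 10 ≤ T0 ∧
  ∀ T : ℝ, T0 ≤ T → ∃ V : ℝ → ℝ, (∀ x, 0 ≤ V x ∧ V x ≤ 1) ∧ (∀ x, x ≤ β₁ * Real.log T → V x = 1) ∧
  (∀ x, β₂ * Real.log T ≤ x → V x = 0) ∧
  ∀ N H : ℝ, 1 ≤ N → N ≤ T → N * T ^ (1 / 2 + β) ≤ H →
  ∀ S : Finset ℕ, Len S N → ∀ (r : ℕ → ℂ) (τ x : ℝ), |x| ≤ T / 2 →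
  ∫ t in T..(2 * T), rh τ H S r t *
    ‖F (pt (1 / 2 - 1 / Real.log T) (t + x)) *
      Mx χ V ⌊T ^ β₂⌋₊ (pt (1 / 2 - 1 / Real.log T) (t + x))‖ ^ 2 ≤ C * mr H S r

/-- **RIGHT3**: as `S_rt2`, with the rate `2 β₁` -/
def S_rt3 : Prop := ∀ (χ : ℕ → ℂ) (F : ℂ → ℂ) (A : ℝ), TwF χ F A → ∀ β β₁ β₂ : ℝ, 0 < β₁ →
  β₁ < β₂ → β₂ < β → β < 1 / 2 → ∃ C T0 : ℝ, 0 < C ∧ 10 ≤ T0 ∧
  ∀ T : ℝ, T0 ≤ T → ∃ V : ℝ → ℝ, (∀ x, 0 ≤ V x ∧ V x ≤ 1) ∧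
  (∀ x, x ≤ β₁ * Real.log T → V x = 1) ∧ (∀ x, β₂ * Real.log T ≤ x → V x = 0) ∧
  ∀ N H : ℝ, 1 ≤ N → N ≤ T → N * T ^ (1 / 2 + β) ≤ H →
  ∀ S : Finset ℕ, Len S N → ∀ (r : ℕ → ℂ) (τ x : ℝ), |x| ≤ T / 4 →
  ∀ ρ : ℝ, -(1 / (2 * Real.log T)) ≤ ρ → ρ ≤ 30 →
  ∫ t in T..(2 * T), rh τ H S r t *
    ‖F (pt (1 / 2 + ρ) (t + x)) * Mx χ V ⌊T ^ β₂⌋₊ (pt (1 / 2 + ρ) (t + x)) - 1‖ ^ 2 ≤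
    C * Real.exp (-(2 * β₁ * Real.log T * ρ)) * mr H S r

open Classical in
/-- **JEN3**: as `S_jen`, without loss in the exponent -/
def S_jen3 : Prop := ∀ c₁ C₁ η : ℝ, 0 < c₁ → 0 < C₁ → 0 < η → ∃ C L₀ : ℝ, 0 < C ∧ 1 ≤ L₀ ∧
  ∀ L : ℝ, L₀ ≤ L → ∀ f : ℂ → ℂ, (∀ z : ℂ, 1 < z.im → DifferentiableAt ℂ f z) →
  (∀ z : ℂ, 1 < z.im → 3 ≤ z.re → ‖f z‖ ≤ 1 / 2) →
  ∀ (a b x M : ℝ) (w : ℝ → ℝ), a ≤ b → 50 ≤ a + x → Continuous w → (∀ t, 0 ≤ w t) → 0 ≤ M →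
  (∀ ρ y : ℝ, -(1 / (2 * L)) ≤ ρ → ρ ≤ 30 → |y| ≤ 30 →
    ∫ t in a..b, w t * ‖f (pt (1 / 2 + ρ) (t + x + y))‖ ^ 2 ≤
      C₁ * Real.exp (-(c₁ * L * ρ)) * M) →
  ∀ (Z : Finset ℂ) (m : ℂ → ℕ), (∀ s ∈ Z, 1 < s.im ∧ s.re ≤ 1 ∧
    m s ≤ analyticOrderNatAt (fun z => 1 + f z) s) →
  ∀ A : ℝ, 0 ≤ A →
  ∫ t in a..b, w t * ∑ s ∈ Z.filter (fun s => 1 / 2 + A / L ≤ s.re ∧ |s.im - (t + x)| ≤ 1 / L),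
    (m s : ℝ) ≤ C * Real.exp (-((c₁ - η) * A)) * M

open Classical in
/-- **the weighted density theorem**, windows of width `1 / log T`, exponent `2 β - ε` -/
def S_wd3 (F : ℂ → ℂ) : Prop := ∀ β ε : ℝ, 0 < β → β < 1 / 2 → 0 < ε → ∃ C T0 : ℝ, 0 < C ∧
  10 ≤ T0 ∧ ∀ T : ℝ, T0 ≤ T → ∀ N H : ℝ, 1 ≤ N → N ≤ T → N * T ^ (1 / 2 + β) ≤ H →
  ∀ S : Finset ℕ, Len S N → ∀ (r : ℕ → ℂ) (τ U1 U2 x A : ℝ), 1 ≤ U1 → |x| ≤ T / 5 → 0 ≤ A →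
  ∫ t in T..(2 * T), rh τ H S r t *
    ∑ s ∈ (Zf F U1 U2).filter (fun s => A ≤ |(zz s).im| * Real.log T ∧
      |s.im - (t + x)| ≤ 1 / Real.log T), (mult F s : ℝ) ≤
    C * Real.exp (-((2 * β - ε) * A)) * mr H S r

open Classical in
/-- **WDZ3**: the weighted density theorem for the values at the zeros, exponent `2 β - ε` -/
def S_wdz3 (F : ℂ → ℂ) : Prop := ∀ β ε : ℝ, 0 < β → β < 1 / 2 → 0 < ε → ∃ C T0 : ℝ, 0 < C ∧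
  10 ≤ T0 ∧ ∀ T : ℝ, T0 ≤ T → ∀ N K : ℝ, 1 ≤ N → N * T ^ (1 / 2 + β) ≤ K → K ≤ T / 2 →
  ∀ S : Finset ℕ, Len S N → ∀ (r : ℕ → ℂ) (A : ℝ), 0 ≤ A →
  (∑ s ∈ (Zf F T (T + K)).filter (fun s => A ≤ |(zz s).im| * Real.log T),
    (mult F s : ℝ) * ‖RP S r s.im‖ ^ 2) ≤
    C * Real.exp (-((2 * β - ε) * A)) * (K * Real.log T * w1 S r)

/-- **ASM3** -/
def S_asm3 : Prop := S_rt3 → S_jen3 → ∀ (χ : ℕ → ℂ) (F : ℂ → ℂ) (A : ℝ), TwF χ F A → GoodL F →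
  S_wd3 F

end Pool.Agent.N802.WD
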