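import Pool.Agent.N802.WD.Asm2b
import Pool.Agent.N802.WD.Stm4

/-!
# The weighted density theorem with long weights, exponent `2 β - ε`
-/

open Complex Filter Topology Set MeasureTheory
open scoped BigOperators ComplexConjugate

set_option autoImplicit false

namespace Pool.Agent.N802.WD

open H370 hiding pt
open TC Pool.Agent.N802.U
open Pool.Agent.R399.TW (pt)

open Asm2
open Asm (cube_le norm_pow_le rh_cont' rh_nonneg' cnt_int refl_le)

theorem asm3 : S_asm3 := by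
  classical
  intro hrt hjen χ F Q hF hgz β ε₀ hβ0 hβ4 hε₀
  obtain ⟨ε, hεd⟩ : ∃ ε : ℝ, ε = min ε₀ β := ⟨_, rfl⟩
  have hε : 0 < ε := by rw [hεd]; exact lt_min hε₀ hβ0
  have hεβ : ε ≤ β := by rw [hεd]; exact min_le_right _ _
  have hεε : ε ≤ ε₀ := by rw [hεd]; exact min_le_left _ _
  obtain ⟨β₁, hβ₁d⟩ : ∃ β₁ : ℝ, β₁ = β - ε / 4 := ⟨_, rfl⟩
  obtain ⟨β₂, hβ₂d⟩ : ∃ β₂ : ℝ, β₂ = β - ε / 8 := ⟨_, rfl⟩
  have hβ₁ : 0 < β₁ := by rw [hβ₁d]; linarith
  have hβ : β₁ < β₂ := by rw [hβ₁d, hβ₂d]; linarith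
  have hβ₂ : β₂ < β := by rw [hβ₂d]; linarith
  obtain ⟨C₁, T0, hC₁, hT0, hmain⟩ := hrt χ F Q hF β β₁ β₂ hβ₁ hβ hβ₂ hβ4
  obtain ⟨C, L₀, hC, hL₀, hj⟩ := hjen (2 * β₁) C₁ (ε / 2) (by positivity) hC₁ (by positivity)
  refine ⟨2 * C, max (max T0 600) (Real.exp L₀), by positivity,
    le_max_of_le_left (le_max_of_le_left hT0), ?_⟩
  intro T hT N H hN hNT hH S hS r τ U1 U2 x A hU1 hx hA
  have hT1 : T0 ≤ T := (le_max_left _ _).trans ((le_max_left _ _).trans hT)
  have hT2 : 600 ≤ T := (le_max_right _ _).trans ((le_max_left _ _).trans hT)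
  have hT3 : Real.exp L₀ ≤ T := (le_max_right _ _).trans hT
  have hTpos : 0 < T := by linarith
  set L := Real.log T with hL
  have hLL : L₀ ≤ L := by
    rw [hL, Real.le_log_iff_exp_le hTpos]
    exact hT3
  have hL1 : 1 ≤ L := hL₀.trans hLL
  have hL0 : 0 < L := by linarith
  obtain ⟨V, hV, hV1, _, hms⟩ := hmain T hT1
  have hV0 : V 0 = 1 := hV1 0 (by positivity)
  set M := ⌊T ^ β₂⌋₊ with hM
  have hM1 : 1 ≤ M := by
    rw [hM]
    refine Nat.le_floor ?_
    push_cast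
    exact Real.one_le_rpow (by linarith) (by linarith)
  set f : ℂ → ℂ := fun z => F z * Mx χ V M z - 1 with hf
  have hHpos : 0 < H := lt_of_lt_of_le (by positivity) hH
  have hmr : 0 ≤ mr H S r := by
    unfold mr
    have := w1_nonneg S r
    positivity
  have hfd : ∀ z : ℂ, 1 < z.im → DifferentiableAt ℂ f z := by
    intro z hz
    have h1 : z ≠ 1 := by
      rintro rfl
      simp at hz
      linarith
    exact ((F_diff hF h1).mul (Mx_diff χ V M z)).sub_const 1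
  have hf3 : ∀ z : ℂ, 1 < z.im → 3 ≤ z.re → ‖f z‖ ≤ 1 / 2 :=
    fun z _ hz => f_le hF hV hV0 hM1 hz
  have hxa := abs_le.1 hx
  have key := hj L hLL f hfd hf3 T (2 * T) x (mr H S r) (rh τ H S r) (by linarith)
    (by linarith) (rh_cont' _ _ _ _) (rh_nonneg' _ _ _ _) hmr (by
      intro ρ y h1 h2 h3
      have hy := abs_le.1 h3
      have h4 := hms N H hN hNT hH S hS r τ (x + y) (by
        rw [abs_le]
        constructor <;> linarith) ρ h1 h2
      refine le_trans (le_of_eq ?_) h4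
      refine intervalIntegral.integral_congr fun t _ => ?_
      simp only [hf, add_assoc]) (Zf F U1 U2) (mult F) (by
      intro s hs
      obtain ⟨h1, h2, h3, _, _⟩ := (mem_Zf hgz hU1).1 hs
      refine ⟨by linarith, h2.le, order_le hF hV hV0 hM1 ?_⟩
      rintro rfl
      simp at h3
      linarith) A hA
  have hmono : ∫ t in T..(2 * T), rh τ H S r t *
      ∑ s ∈ (Zf F U1 U2).filter (fun s => A ≤ |(zz s).im| * L ∧
        |s.im - (t + x)| ≤ 1 / L), (mult F s : ℝ) ≤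
      ∫ t in T..(2 * T), 2 * (rh τ H S r t *
      ∑ s ∈ (Zf F U1 U2).filter (fun s => 1 / 2 + A / L ≤ s.re ∧
        |s.im - (t + x)| ≤ 1 / L), (mult F s : ℝ)) := by
    refine intervalIntegral.integral_mono_on (by linarith) ?_ ?_ ?_
    · exact cnt_int (rh_cont' _ _ _ _) _ (fun s => A ≤ |(zz s).im| * L) _ _ _ _ _
    · exact (cnt_int (rh_cont' _ _ _ _) _ (fun s => 1 / 2 + A / L ≤ s.re) _ _ _ _ _).const_mul 2
    · intro t _
      have h1 := refl_le hgz hU1 (U2 := U2) hL0 A (t + x) (1 / L)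
      have h2 := rh_nonneg' τ H S r t
      calc _ ≤ rh τ H S r t * (2 * ∑ s ∈ (Zf F U1 U2).filter
            (fun s => 1 / 2 + A / L ≤ s.re ∧ |s.im - (t + x)| ≤ 1 / L),
            (mult F s : ℝ)) := mul_le_mul_of_nonneg_left h1 h2
        _ = _ := by ring
  rw [intervalIntegral.integral_const_mul] at hmono
  refine hmono.trans ?_
  have h5 := mul_le_mul_of_nonneg_left key (show (0 : ℝ) ≤ 2 by norm_num)
  have h6 : Real.exp (-((2 * β₁ - ε / 2) * A)) ≤ Real.exp (-((2 * β - ε₀) * A)) := by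
    apply Real.exp_le_exp.mpr
    have h7 : (2 * β - ε₀) * A ≤ (2 * β₁ - ε / 2) * A := by
      refine mul_le_mul_of_nonneg_right ?_ hA
      rw [hβ₁d]
      linarith
    linarith
  calc _ ≤ 2 * (C * Real.exp (-((2 * β₁ - ε / 2) * A)) * mr H S r) := h5
    _ ≤ 2 * (C * Real.exp (-((2 * β - ε₀) * A)) * mr H S r) := by
        refine mul_le_mul_of_nonneg_left (mul_le_mul_of_nonneg_right
          (mul_le_mul_of_nonneg_left h6 hC.le) hmr) (by norm_num)
    _ = _ := by ring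

end Pool.Agent.N802.WD
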