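import Pool.Agent.N802.WD.Stm
import Pool.Agent.H448R2.GC.X2
import Pool.Agent.N786.D.Sup

/-!
# Project WD (helper802), BOOT, part B (helper247): zeta near the critical line and the kernel
-/

set_option autoImplicit false

namespace Pool.Agent.N802.WD.BootN

open MeasureTheory Set Filter Topology Complex
open Pool.Agent.N786.D (kap kap_nn kap_cont kap_poly cB cB_nn)
open Pool.Agent.R399.TW (pt pt_re pt_im pt_cont)
open Pool.Agent.H448R2.GC (XX XX_upper zeta_fe zeta_one_entire zeta_growth_mid)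

theorem Dp_diff (V : ℝ → ℝ) (M : ℕ) : Differentiable ℂ (Dp V M) := by
  unfold Dp
  refine Differentiable.fun_sum fun n hn => ?_
  have hn0 : (n : ℂ) ≠ 0 := by
    rw [Finset.mem_Icc] at hn
    exact_mod_cast (by omega : n ≠ 0)
  exact (differentiable_const _).mul ((differentiable_id.neg).const_cpow (Or.inl hn0))

theorem Mp_diff (V : ℝ → ℝ) (M : ℕ) : Differentiable ℂ (Mp V M) := by
  unfold Mp
  refine Differentiable.fun_sum fun n hn => ?_
  have hn0 : (n : ℂ) ≠ 0 := by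
    rw [Finset.mem_Icc] at hn
    exact_mod_cast (by omega : n ≠ 0)
  exact (differentiable_const _).mul
    ((differentiable_const _).mul ((differentiable_id.neg).const_cpow (Or.inl hn0)))

theorem norm_npow_le {n : ℕ} (hn : 1 ≤ n) {z : ℂ} (hz : 0 ≤ z.re) : ‖(n : ℂ) ^ (-z)‖ ≤ 1 := by
  rw [Complex.norm_natCast_cpow_of_pos (by omega), Complex.neg_re]
  exact Real.rpow_le_one_of_one_le_of_nonpos (by exact_mod_cast hn) (by linarith)

theorem Dp_norm {V : ℝ → ℝ} (hV : ∀ x, 0 ≤ V x ∧ V x ≤ 1) (M : ℕ) {z : ℂ} (hz : 0 ≤ z.re) :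
    ‖Dp V M z‖ ≤ M := by
  unfold Dp
  refine (norm_sum_le _ _).trans ?_
  have h : ∀ n ∈ Finset.Icc 1 M, ‖(V (Real.log n) : ℂ) * (n : ℂ) ^ (-z)‖ ≤ 1 := by
    intro n hn
    rw [Finset.mem_Icc] at hn
    rw [norm_mul, Complex.norm_real, Real.norm_of_nonneg (hV _).1]
    exact mul_le_one₀ (hV _).2 (norm_nonneg _) (norm_npow_le hn.1 hz)
  refine (Finset.sum_le_sum h).trans (le_of_eq ?_)
  rw [Finset.sum_const, Nat.card_Icc, nsmul_eq_mul, mul_one, Nat.add_sub_cancel]

theorem Mp_norm {V : ℝ → ℝ} (hV : ∀ x, 0 ≤ V x ∧ V x ≤ 1) (M : ℕ) {z : ℂ} (hz : 0 ≤ z.re) :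
    ‖Mp V M z‖ ≤ M := by
  unfold Mp
  refine (norm_sum_le _ _).trans ?_
  have h : ∀ n ∈ Finset.Icc 1 M, ‖((ArithmeticFunction.moebius n : ℤ) : ℂ) *
      ((V (Real.log n) : ℂ) * (n : ℂ) ^ (-z))‖ ≤ 1 := by
    intro n hn
    rw [Finset.mem_Icc] at hn
    rw [norm_mul, norm_mul, Complex.norm_real, Real.norm_of_nonneg (hV _).1]
    have h1 : ‖((ArithmeticFunction.moebius n : ℤ) : ℂ)‖ ≤ 1 := by
      rw [Complex.norm_intCast]
      exact_mod_cast ArithmeticFunction.abs_moebius_le_one (n := n)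
    exact mul_le_one₀ h1 (by have := (hV (Real.log n)).1; positivity)
      (mul_le_one₀ (hV _).2 (norm_nonneg _) (norm_npow_le hn.1 hz))
  refine (Finset.sum_le_sum h).trans (le_of_eq ?_)
  rw [Finset.sum_const, Nat.card_Icc, nsmul_eq_mul, mul_one, Nat.add_sub_cancel]

/-- the entire function `(z - 1) ζ(z)` -/
noncomputable def Z1 : ℂ → ℂ := Function.update (fun w : ℂ => (w - 1) * riemannZeta w) 1 1

theorem Z1_of {z : ℂ} (hz : z ≠ 1) : Z1 z = (z - 1) * riemannZeta z := by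
  unfold Z1
  rw [Function.update_of_ne hz]

/-- to the right of `2` -/
theorem tail_bd {V : ℝ → ℝ} (hV : ∀ x, 0 ≤ V x ∧ V x ≤ 1) {M : ℕ} {Y : ℝ}
    (hV1 : ∀ x, x ≤ Y → V x = 1) (hM : ∀ n : ℕ, M < n → Y ≤ Real.log n) {z : ℂ} (hz : 2 ≤ z.re) :
    ‖Dp V M z - riemannZeta z‖ ≤ (∑' n : ℕ, 1 / ((n : ℝ) + 1) ^ 2) * Real.exp (-(Y * (z.re - 2))) := by
  set c : ℕ → ℝ := fun n => if n ≤ M then V (Real.log n) else 0 with hc
  have hc0 : ∀ n, 0 ≤ c n ∧ c n ≤ 1 := by
    intro n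
    rw [hc]
    simp only
    split_ifs
    · exact hV _
    · norm_num
  have hc1 : ∀ n, c n ≠ 1 → Y ≤ Real.log n := by
    intro n hn
    by_contra hcon
    push Not at hcon
    apply hn
    have h1 : n ≤ M := by
      by_contra h
      push Not at h
      exact absurd (hM n h) (not_le.2 hcon)
    rw [hc]
    simp only
    rw [if_pos h1, hV1 _ hcon.le]
  have hsum2 : Summable fun n : ℕ => 1 / ((n : ℝ) + 1) ^ 2 := by
    have := (summable_nat_add_iff 1).mpr (Real.summable_one_div_nat_pow.mpr one_lt_two)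
    simpa using this
  have hzs : Summable fun n : ℕ => 1 / ((n : ℂ) + 1) ^ z := by
    have := (summable_nat_add_iff 1).mpr
      (Complex.summable_one_div_nat_cpow.mpr (by linarith : 1 < z.re))
    simpa using this
  have hterm : ∀ n : ℕ, ‖(1 : ℂ) / ((n : ℂ) + 1) ^ z‖ = ((n : ℝ) + 1) ^ (-z.re) := by
    intro n
    have e : ((n : ℂ) + 1) = (((n : ℝ) + 1 : ℝ) : ℂ) := by push_cast; ring
    rw [norm_div, norm_one, e, Complex.norm_cpow_eq_rpow_re_of_pos (by positivity),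
      Real.rpow_neg (by positivity), one_div]
  have hcs : Summable fun n : ℕ => (c (n + 1) : ℂ) * (1 / ((n : ℂ) + 1) ^ z) := by
    refine Summable.of_norm_bounded (g := fun n : ℕ => ‖(1 : ℂ) / ((n : ℂ) + 1) ^ z‖) hzs.norm ?_
    intro n
    rw [norm_mul, Complex.norm_real, Real.norm_of_nonneg (hc0 _).1]
    exact mul_le_of_le_one_left (norm_nonneg _) (hc0 _).2
  have e1 : Dp V M z = ∑' n : ℕ, (c (n + 1) : ℂ) * (1 / ((n : ℂ) + 1) ^ z) := by
    have e2 : Dp V M z = ∑ n ∈ Finset.range M, (c (n + 1) : ℂ) * (1 / ((n : ℂ) + 1) ^ z) := by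
      unfold Dp
      refine Finset.sum_nbij' (fun n => n - 1) (fun n => n + 1) ?_ ?_ ?_ ?_ ?_
      · intro n hn
        rw [Finset.mem_Icc] at hn
        rw [Finset.mem_range]
        omega
      · intro n hn
        rw [Finset.mem_range] at hn
        rw [Finset.mem_Icc]
        omega
      · intro n hn
        rw [Finset.mem_Icc] at hn
        omega
      · intro n _
        rfl
      · intro n hn
        rw [Finset.mem_Icc] at hn
        obtain ⟨m, rfl⟩ : ∃ m, n = m + 1 := ⟨n - 1, by omega⟩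
        simp only [Nat.add_sub_cancel]
        rw [hc]
        simp only
        rw [if_pos hn.2, Complex.cpow_neg, one_div]
        push_cast
        rfl
    rw [e2]
    symm
    apply tsum_eq_sum
    intro n hn
    rw [Finset.mem_range, not_lt] at hn
    have : c (n + 1) = 0 := by
      rw [hc]
      simp only
      rw [if_neg (by omega)]
    rw [this]
    simp
  rw [e1, zeta_eq_tsum_one_div_nat_add_one_cpow (by linarith), ← hcs.tsum_sub hzs]
  have hb : ∀ n : ℕ, ‖(c (n + 1) : ℂ) * (1 / ((n : ℂ) + 1) ^ z) - 1 / ((n : ℂ) + 1) ^ z‖ ≤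
      1 / ((n : ℝ) + 1) ^ 2 * Real.exp (-(Y * (z.re - 2))) := by
    intro n
    have hn1 : (0 : ℝ) < (n : ℝ) + 1 := by positivity
    have e3 : (c (n + 1) : ℂ) * (1 / ((n : ℂ) + 1) ^ z) - 1 / ((n : ℂ) + 1) ^ z =
        ((c (n + 1) - 1 : ℝ) : ℂ) * (1 / ((n : ℂ) + 1) ^ z) := by push_cast; ring
    rw [e3, norm_mul, hterm, Complex.norm_real]
    by_cases h1 : c (n + 1) = 1
    · rw [h1, sub_self, norm_zero, zero_mul]
      positivity
    · have h2 := hc1 _ h1
      push_cast at h2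
      have h3 : ‖c (n + 1) - 1‖ ≤ 1 := by
        rw [Real.norm_eq_abs, abs_le]
        have := hc0 (n + 1)
        constructor <;> linarith [this.1, this.2]
      have h4 : ((n : ℝ) + 1) ^ (-z.re) = 1 / ((n : ℝ) + 1) ^ 2 *
          Real.exp (-(Real.log ((n : ℝ) + 1) * (z.re - 2))) := by
        have e4 : -z.re = -2 + -(z.re - 2) := by ring
        rw [e4, Real.rpow_add hn1, Real.rpow_def_of_pos hn1 (-(z.re - 2))]
        have e5 : ((n : ℝ) + 1) ^ (-2 : ℝ) = 1 / ((n : ℝ) + 1) ^ 2 := by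
          rw [Real.rpow_neg hn1.le, one_div]
          norm_cast
        rw [e5]
        congr 2
        ring
      rw [h4]
      calc ‖c (n + 1) - 1‖ * (1 / ((n : ℝ) + 1) ^ 2 *
            Real.exp (-(Real.log ((n : ℝ) + 1) * (z.re - 2)))) ≤
          1 * (1 / ((n : ℝ) + 1) ^ 2 * Real.exp (-(Y * (z.re - 2)))) := by
            have h5 : 0 ≤ z.re - 2 := by linarith
            gcongr
        _ = _ := one_mul _
  refine (norm_tsum_le_tsum_norm ?_).trans ?_
  · exact Summable.of_nonneg_of_le (fun n => norm_nonneg _) hb (hsum2.mul_right _)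
  · rw [← tsum_mul_right]
    exact Summable.tsum_le_tsum hb
      (Summable.of_nonneg_of_le (fun n => norm_nonneg _) hb (hsum2.mul_right _))
      (hsum2.mul_right _)

/-- the growth of `(z - 1) (D(z) - ζ(z))` -/
theorem growth {V : ℝ → ℝ} (hV : ∀ x, 0 ≤ V x ∧ V x ≤ 1) {M : ℕ} {L : ℝ} (hL : 1 ≤ L)
    (hV1 : ∀ x, x ≤ 3 / 5 * L → V x = 1) (hM : ∀ n : ℕ, M < n → 3 / 5 * L ≤ Real.log n) :
    ∃ G : ℝ, ∀ z : ℂ, 1 / 4 ≤ z.re → ‖(z - 1) * Dp V M z - Z1 z‖ ≤
      G * (1 + |z.im|) ^ 2 * Real.exp (-(23 / 40 * L * z.re)) := by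
  obtain ⟨C2, hC2⟩ : ∃ C2 : ℝ, C2 = ∑' n : ℕ, 1 / ((n : ℝ) + 1) ^ 2 := ⟨_, rfl⟩
  have hC20 : 0 ≤ C2 := by rw [hC2]; exact tsum_nonneg fun n => by positivity
  refine ⟨(3 * M + 28) * Real.exp (23 / 20 * L) + 40 * C2 * Real.exp (6 / 5 * L), ?_⟩
  intro z hz
  have ht := abs_nonneg z.im
  rcases le_or_gt z.re 2 with h2 | h2
  · have h1 : ‖z - 1‖ ≤ 1 + |z.im| := by
      have h3 := Complex.norm_le_abs_re_add_abs_im (z - 1)
      rw [Complex.sub_re, Complex.one_re, Complex.sub_im, Complex.one_im, sub_zero] at h3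
      have h4 : |z.re - 1| ≤ 1 := by rw [abs_le]; constructor <;> linarith
      linarith
    have hzn : ‖z‖ ≤ 2 + |z.im| := by
      have h3 := Complex.norm_le_abs_re_add_abs_im z
      rw [abs_of_nonneg (by linarith : 0 ≤ z.re)] at h3
      linarith
    have hD := Dp_norm hV M (z := z) (by linarith)
    have hZ : ‖Z1 z‖ ≤ 28 * (1 + |z.im|) ^ 2 := by
      by_cases hz1 : z = 1
      · rw [hz1]
        unfold Z1
        rw [Function.update_self]
        simp
      · rw [Z1_of hz1, norm_mul]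
        have h5 := Pool.Agent.H448R2.GC.X2.zeta_bd z (by linarith) hz1
        have h6 : 0 < ‖z - 1‖ := norm_pos_iff.2 (sub_ne_zero.2 hz1)
        have h7 : ‖z‖ / z.re ≤ 4 * (2 + |z.im|) := by
          rw [div_le_iff₀ (by linarith)]
          nlinarith
        calc ‖z - 1‖ * ‖riemannZeta z‖ ≤ ‖z - 1‖ * (1 + 1 / ‖z - 1‖ + 4 * (2 + |z.im|)) := by
              gcongr
              linarith
          _ = ‖z - 1‖ * (9 + 4 * |z.im|) + 1 := by field_simp; ring
          _ ≤ (1 + |z.im|) * (9 + 4 * |z.im|) + 1 := by gcongr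
          _ ≤ _ := by nlinarith
    have h8 : ‖(z - 1) * Dp V M z - Z1 z‖ ≤ (3 * M + 28) * (1 + |z.im|) ^ 2 := by
      refine (norm_sub_le _ _).trans ?_
      rw [norm_mul]
      have hM0 : (0 : ℝ) ≤ M := Nat.cast_nonneg M
      have h9 : ‖z - 1‖ * ‖Dp V M z‖ ≤ (1 + |z.im|) * M := by gcongr
      have h10 : (1 + |z.im|) * M ≤ 3 * M * (1 + |z.im|) ^ 2 := by
        have h11 : (1 + |z.im|) ≤ 3 * (1 + |z.im|) ^ 2 := by nlinarith
        calc (1 + |z.im|) * M ≤ (3 * (1 + |z.im|) ^ 2) * M := by gcongr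
          _ = _ := by ring
      linarith
    have h11 : 1 ≤ Real.exp (23 / 20 * L) * Real.exp (-(23 / 40 * L * z.re)) := by
      rw [← Real.exp_add]
      apply Real.one_le_exp
      nlinarith
    have h12 : 0 ≤ (3 * (M : ℝ) + 28) * (1 + |z.im|) ^ 2 := by positivity
    have h13 : 0 ≤ 40 * C2 * Real.exp (6 / 5 * L) * (1 + |z.im|) ^ 2 *
        Real.exp (-(23 / 40 * L * z.re)) := by positivity
    calc ‖(z - 1) * Dp V M z - Z1 z‖ ≤ (3 * M + 28) * (1 + |z.im|) ^ 2 := h8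
      _ ≤ (3 * M + 28) * (1 + |z.im|) ^ 2 *
          (Real.exp (23 / 20 * L) * Real.exp (-(23 / 40 * L * z.re))) :=
          le_mul_of_one_le_right h12 h11
      _ ≤ (3 * M + 28) * (1 + |z.im|) ^ 2 *
          (Real.exp (23 / 20 * L) * Real.exp (-(23 / 40 * L * z.re))) +
          40 * C2 * Real.exp (6 / 5 * L) * (1 + |z.im|) ^ 2 *
            Real.exp (-(23 / 40 * L * z.re)) := by linarith
      _ = _ := by ring
  · have hz1 : z ≠ 1 := by
      rintro rfl
      norm_num at h2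
    have e : (z - 1) * Dp V M z - Z1 z = (z - 1) * (Dp V M z - riemannZeta z) := by
      rw [Z1_of hz1]; ring
    rw [e, norm_mul]
    have h1 := tail_bd hV hV1 hM h2.le
    rw [← hC2] at h1
    have h3 : ‖z - 1‖ ≤ (1 + z.re) * (1 + |z.im|) := by
      have h3 := Complex.norm_le_abs_re_add_abs_im (z - 1)
      rw [Complex.sub_re, Complex.one_re, Complex.sub_im, Complex.one_im, sub_zero,
        abs_of_nonneg (by linarith : 0 ≤ z.re - 1)] at h3
      nlinarith
    have h4 : 1 + z.re ≤ 40 * Real.exp (1 / 40 * L * z.re) := by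
      have := Real.add_one_le_exp (1 / 40 * L * z.re)
      nlinarith
    have h5 : Real.exp (-(3 / 5 * L * (z.re - 2))) = Real.exp (6 / 5 * L) *
        Real.exp (-(3 / 5 * L * z.re)) := by
      rw [← Real.exp_add]; congr 1; ring
    have h6 : Real.exp (1 / 40 * L * z.re) * Real.exp (-(3 / 5 * L * z.re)) =
        Real.exp (-(23 / 40 * L * z.re)) := by
      rw [← Real.exp_add]; congr 1; ring
    rw [h5] at h1
    have h7 : (1 + |z.im|) ≤ (1 + |z.im|) ^ 2 := by nlinarith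
    calc ‖z - 1‖ * ‖Dp V M z - riemannZeta z‖ ≤
        ((40 * Real.exp (1 / 40 * L * z.re)) * (1 + |z.im|) ^ 2) *
          (C2 * (Real.exp (6 / 5 * L) * Real.exp (-(3 / 5 * L * z.re)))) := by
          refine mul_le_mul (h3.trans ?_) h1 (norm_nonneg _) (by positivity)
          gcongr
      _ = 40 * C2 * Real.exp (6 / 5 * L) * (1 + |z.im|) ^ 2 *
          (Real.exp (1 / 40 * L * z.re) * Real.exp (-(3 / 5 * L * z.re))) := by ring
      _ = 40 * C2 * Real.exp (6 / 5 * L) * (1 + |z.im|) ^ 2 *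
          Real.exp (-(23 / 40 * L * z.re)) := by rw [h6]
      _ ≤ _ := by
          have : 0 ≤ (3 * (M : ℝ) + 28) * Real.exp (23 / 20 * L) * (1 + |z.im|) ^ 2 *
            Real.exp (-(23 / 40 * L * z.re)) := by positivity
          linarith

/-- the kernel -/
noncomputable def kk (B : ℕ) (r : ℝ) (J : ℕ) (v : ℝ) : ℝ :=
  4 * (1 + |v|) * (kap B r v * gev r J v)

/-- the kernel inequality -/
theorem kerz (hker : S_ker) {V : ℝ → ℝ} (hV : ∀ x, 0 ≤ V x ∧ V x ≤ 1) {M : ℕ} {L : ℝ}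
    (hL : 1 ≤ L) (hV1 : ∀ x, x ≤ 3 / 5 * L → V x = 1)
    (hM : ∀ n : ℕ, M < n → 3 / 5 * L ≤ Real.log n) {a b : ℝ} (ha : 1 / 4 ≤ a) (ha2 : a ≤ 1 / 2)
    (hab : a < b) (hb : b ≤ 3 / 4) {B J : ℕ} (hB : 3 ≤ B) (hJc : Continuous (gev (b - a) J))
    (hJ0 : ∀ v, 0 ≤ gev (b - a) J v) (u : ℝ) :
    Integrable (fun v => ‖Dp V M (pt a (u + v)) - riemannZeta (pt a (u + v))‖ *
      kk B (b - a) J v) ∧
    ‖riemannZeta (pt b u)‖ ≤ ‖Dp V M (pt b u)‖ + Real.exp (-(11 / 20 * L * (b - a))) *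
      ∫ v, ‖Dp V M (pt a (u + v)) - riemannZeta (pt a (u + v))‖ * kk B (b - a) J v := by
  obtain ⟨G, hG⟩ := growth hV hL hV1 hM
  have hr : 0 < b - a := by linarith
  have hdiff : Differentiable ℂ fun z => (z - 1) * Dp V M z - Z1 z :=
    ((differentiable_id.sub_const 1).mul (Dp_diff V M)).sub zeta_one_entire
  obtain ⟨hker1, -⟩ := hker
  obtain ⟨i1, i2⟩ := hker1 hdiff (a := a) (μ := 11 / 20 * L) (lam := 23 / 40 * L) (G := G)
    (m := 2) (B := B) J (by omega) (by linarith) (fun z hz => hG z (by linarith)) (s := pt b u)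
    (by rw [pt_re]; exact hab)
  rw [pt_re, pt_im] at i1 i2
  have hne : ∀ c w : ℝ, c ≤ 3 / 4 → pt c w ≠ 1 := by
    intro c w hc h
    have := congrArg Complex.re h
    rw [pt_re, Complex.one_re] at this
    linarith
  have hg : ∀ c w : ℝ, c ≤ 3 / 4 → ‖(pt c w - 1) * Dp V M (pt c w) - Z1 (pt c w)‖ =
      ‖pt c w - 1‖ * ‖Dp V M (pt c w) - riemannZeta (pt c w)‖ := by
    intro c w hc
    rw [Z1_of (hne c w hc), ← mul_sub, norm_mul]
  have hb1 : 1 / 4 ≤ ‖pt b u - 1‖ := by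
    have h := Complex.abs_re_le_norm (pt b u - 1)
    rw [Complex.sub_re, pt_re, Complex.one_re] at h
    have h2 : -(b - 1) ≤ |b - 1| := neg_le_abs _
    linarith
  have hup : ∀ v : ℝ, ‖pt a (u + v) - 1‖ ≤ 4 * (1 + |v|) * ‖pt b u - 1‖ := by
    intro v
    have e : pt a (u + v) - 1 = (pt b u - 1) + (((a - b : ℝ) : ℂ) + (v : ℂ) * I) := by
      unfold pt; push_cast; ring
    have h1 : ‖((a - b : ℝ) : ℂ) + (v : ℂ) * I‖ ≤ (b - a) + |v| := by
      refine (norm_add_le _ _).trans ?_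
      rw [norm_mul, Complex.norm_I, mul_one, Complex.norm_real, Complex.norm_real,
        Real.norm_eq_abs, Real.norm_eq_abs, abs_sub_comm, abs_of_pos hr]
    rw [e]
    refine (norm_add_le _ _).trans ?_
    have := abs_nonneg v
    nlinarith
  have hlow : ∀ v : ℝ, 4 * (1 + |v|) ≤ 12 * (1 + |u|) * ‖pt a (u + v) - 1‖ := by
    intro v
    have h1 : 1 / 2 ≤ ‖pt a (u + v) - 1‖ := by
      have h := Complex.abs_re_le_norm (pt a (u + v) - 1)
      rw [Complex.sub_re, pt_re, Complex.one_re] at h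
      have h2 : -(a - 1) ≤ |a - 1| := neg_le_abs _
      linarith
    have h2 : |u + v| ≤ ‖pt a (u + v) - 1‖ := by
      have h := Complex.abs_im_le_norm (pt a (u + v) - 1)
      rwa [Complex.sub_im, pt_im, Complex.one_im, sub_zero] at h
    have h3 : |v| ≤ |u| + |u + v| := by
      have := abs_sub (u + v) u
      rw [add_sub_cancel_left] at this
      linarith
    have h4 := abs_nonneg u
    have h5 := abs_nonneg (u + v)
    nlinarith
  set f : ℝ → ℝ := fun w => ‖Dp V M (pt a w) - riemannZeta (pt a w)‖ with hf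
  have hzc : ∀ c : ℝ, c ≤ 3 / 4 → Continuous fun w => riemannZeta (pt c w) := by
    intro c hc
    rw [continuous_iff_continuousAt]
    intro w
    exact ContinuousAt.comp (differentiableAt_riemannZeta (hne c w hc)).continuousAt
      (pt_cont c).continuousAt
  have hfc : Continuous f :=
    (((Dp_diff V M).continuous.comp (pt_cont a)).sub (hzc a (by linarith))).norm
  have hkc : Continuous (kk B (b - a) J) := by
    unfold kk
    exact (by fun_prop : Continuous fun v : ℝ => 4 * (1 + |v|)).mul ((kap_cont B hr).mul hJc)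
  have hk0 : ∀ v, 0 ≤ kap B (b - a) v * gev (b - a) J v := fun v =>
    mul_nonneg (kap_nn B hr v) (hJ0 v)
  have hint : Integrable (fun v => f (u + v) * kk B (b - a) J v) := by
    refine (i1.const_mul (12 * (1 + |u|))).mono'
      ((hfc.comp (by fun_prop)).mul hkc).aestronglyMeasurable (Eventually.of_forall fun v => ?_)
    rw [hg a (u + v) (by linarith)]
    have hfv : 0 ≤ f (u + v) := norm_nonneg _
    have h1 := hk0 v
    have h2 := hlow v
    unfold kk
    rw [Real.norm_of_nonneg (by positivity)]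
    calc f (u + v) * (4 * (1 + |v|) * (kap B (b - a) v * gev (b - a) J v)) ≤
        f (u + v) * (12 * (1 + |u|) * ‖pt a (u + v) - 1‖ *
          (kap B (b - a) v * gev (b - a) J v)) := by gcongr
      _ = _ := by rw [hf]; ring
  refine ⟨hint, ?_⟩
  have h1 : ‖riemannZeta (pt b u)‖ ≤ ‖Dp V M (pt b u)‖ +
      ‖Dp V M (pt b u) - riemannZeta (pt b u)‖ := by
    have := norm_sub_norm_le (riemannZeta (pt b u)) (Dp V M (pt b u))
    rw [norm_sub_rev] at this
    linarith
  refine h1.trans (add_le_add le_rfl ?_)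
  rw [hg b u hb] at i2
  have hpos : 0 < ‖pt b u - 1‖ := by linarith
  have h2 : ∫ v, ‖(pt a (u + v) - 1) * Dp V M (pt a (u + v)) - Z1 (pt a (u + v))‖ *
      (kap B (b - a) v * gev (b - a) J v) ≤
      ‖pt b u - 1‖ * ∫ v, f (u + v) * kk B (b - a) J v := by
    rw [← integral_const_mul]
    refine integral_mono i1 (hint.const_mul _) fun v => ?_
    simp only
    rw [hg a (u + v) (by linarith)]
    have hfv : 0 ≤ f (u + v) := norm_nonneg _
    have h3 := hk0 v
    have h4 := hup v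
    unfold kk
    calc ‖pt a (u + v) - 1‖ * ‖Dp V M (pt a (u + v)) - riemannZeta (pt a (u + v))‖ *
          (kap B (b - a) v * gev (b - a) J v) ≤
        (4 * (1 + |v|) * ‖pt b u - 1‖) * ‖Dp V M (pt a (u + v)) - riemannZeta (pt a (u + v))‖ *
          (kap B (b - a) v * gev (b - a) J v) := by gcongr
      _ = _ := by rw [hf]; ring
  have h5 := i2.trans (mul_le_mul_of_nonneg_left h2 (Real.exp_pos _).le)
  refine le_of_mul_le_mul_left ?_ hpos
  calc ‖pt b u - 1‖ * ‖Dp V M (pt b u) - riemannZeta (pt b u)‖ ≤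
      Real.exp (-(11 / 20 * L * (b - a))) *
        (‖pt b u - 1‖ * ∫ v, f (u + v) * kk B (b - a) J v) := h5
    _ = _ := by ring

/-- the functional equation -/
theorem fe_ : ∃ A : ℝ, 1 ≤ A ∧ ∀ d u : ℝ, 0 < d → d ≤ 1 / 4 →
    ‖riemannZeta (pt (1 / 2 - d) u)‖ ≤ A * (1 + |u|) ^ d * ‖riemannZeta (pt (1 / 2 + d) u)‖ := by
  obtain ⟨C, hC, h⟩ := XX_upper 1
  refine ⟨C + 1, by linarith, ?_⟩
  intro d u hd hd1
  set w := pt (1 / 2 + d) (-u) with hw
  have hwre : w.re = 1 / 2 + d := by rw [hw, pt_re]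
  have hwim : w.im = -u := by rw [hw, pt_im]
  have hw1 : w ≠ 1 := by
    intro h
    rw [h, Complex.one_re] at hwre
    linarith
  have e1 : 1 - w = pt (1 / 2 - d) u := by
    rw [hw]; unfold pt; push_cast; ring
  have h1 := zeta_fe w (by rw [hwre]; linarith) hw1
  rw [e1] at h1
  have e2 : w = (starRingEnd ℂ) (pt (1 / 2 + d) u) := by
    apply Complex.ext
    · rw [Complex.conj_re, hwre, pt_re]
    · rw [Complex.conj_im, hwim, pt_im]
  have e3 : ‖riemannZeta w‖ = ‖riemannZeta (pt (1 / 2 + d) u)‖ := by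
    rw [e2, riemannZeta_conj, RCLike.norm_conj]
  have h2 := h w (by rw [hwre]; linarith) (by rw [hwre]; linarith)
  rw [hwre, hwim, abs_neg] at h2
  have e4 : 1 / 2 + d - 1 / 2 = d := by ring
  rw [e4] at h2
  rw [h1, norm_mul, e3]
  have h3 : 0 ≤ (1 + |u|) ^ d := by positivity
  gcongr
  refine h2.trans ?_
  nlinarith

end Pool.Agent.N802.WD.BootN
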