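import Pool.Agent.N802.WD.BootA
import Pool.Agent.N802.WD.BootB

/-!
# Project WD (helper802), BOOT (helper247): the mean square of the mollified zeta function near the
critical line, weighted by `|R|²`
-/

set_option autoImplicit false

namespace Pool.Agent.N802.WD.BootN

open MeasureTheory Set Filter Topology Complex
open TC (om om_pos om_cont om_integrable om_le_one om_mul_integrable)
open Pool.Agent.N802 Pool.Agent.N802.U
open Pool.Agent.N786.D (kap kap_nn kap_cont kap_poly cB cB_nn)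
open Pool.Agent.R399.TW (pt pt_re pt_im pt_cont)

/-! ### constants -/

/-- existence of the constant `κ` -/
lemma kappa2 (c₁ g : ℝ) (k : ℕ) (hg : 0 < g) :
    ∃ κ : ℝ, 2 ≤ κ ∧ c₁ * ((1 + 2 * κ) ^ k * Real.exp (-(g * κ))) ≤ 1 / 2 := by
  have h1 : Tendsto (fun κ : ℝ => c₁ * ((1 + 2 * κ) ^ k * Real.exp (-(g * κ)))) atTop (𝓝 0) := by
    have h2 : Tendsto (fun κ : ℝ => (1 + 2 * κ) ^ k * Real.exp (-(g / 2 * (1 + 2 * κ)))) atTop
        (𝓝 0) := by
      have h3 : Tendsto (fun x : ℝ => x ^ k * Real.exp (-(g / 2 * x))) atTop (𝓝 0) := by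
        have h4 := tendsto_rpow_mul_exp_neg_mul_atTop_nhds_zero (k : ℝ) (g / 2) (by positivity)
        refine h4.congr fun x => ?_
        rw [Real.rpow_natCast]
        congr 2
        ring
      refine h3.comp ?_
      exact tendsto_atTop_add_const_left _ _ (tendsto_id.const_mul_atTop two_pos)
    have h5 := (h2.mul_const (Real.exp (g / 2))).const_mul c₁
    rw [zero_mul, mul_zero] at h5
    refine h5.congr fun κ => ?_
    rw [mul_assoc, ← Real.exp_add]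
    congr 3
    ring
  have h6 : ∀ᶠ κ in atTop, c₁ * ((1 + 2 * κ) ^ k * Real.exp (-(g * κ))) ≤ 1 / 2 := by
    have := h1.eventually (Iio_mem_nhds (show (0 : ℝ) < 1 / 2 by norm_num))
    filter_upwards [this] with κ hκ
    exact (mem_Iio.mp hκ).le
  obtain ⟨κ, h7, h8⟩ := (h6.and (eventually_ge_atTop 2)).exists
  exact ⟨κ, h8, h7⟩

lemma cutf_mono {L β₁ β₂ a₀ : ℝ} {B : ℕ} {c C c' C' : ℝ} {V : ℝ → ℝ} {K : ℝ → ℝ → ℂ}
    (h : Cutf L β₁ β₂ a₀ B c C V K) (hc : c' ≤ c) (hC : C ≤ C') (hC0 : 0 ≤ C) :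
    Cutf L β₁ β₂ a₀ B c' C' V K := by
  refine ⟨h.nn, h.le, h.one, h.zero, h.cont, fun a h1 h2 y => ?_, h.rep⟩
  refine (h.bd a h1 h2 y).trans ?_
  have := Real.sqrt_nonneg (min |y| L)
  have hC' : 0 ≤ C' := hC0.trans hC
  gcongr

/-! ### the growth function -/

lemma grow_one {L ε : ℝ} (hL : 0 ≤ L) (hε : 0 ≤ ε) (q : ℕ) (v : ℝ) : 1 ≤ grow L ε q v := by
  unfold grow
  have h1 : 1 ≤ (1 + L * |v|) ^ q := one_le_pow₀ (by
    have : 0 ≤ L * |v| := by positivity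
    linarith)
  have h2 : 1 ≤ Real.exp (ε * Real.sqrt (L * min 1 |v|)) := Real.one_le_exp (by positivity)
  exact one_le_mul_of_one_le_of_one_le h1 h2

lemma grow_zero {L ε : ℝ} (q : ℕ) : grow L ε q 0 = 1 := by
  unfold grow
  simp

lemma grow_mono {L ε : ℝ} (hL : 0 ≤ L) {q q' : ℕ} (h : q ≤ q') (v : ℝ) :
    grow L ε q v ≤ grow L ε q' v := by
  unfold grow
  have h1 : 1 ≤ 1 + L * |v| := by
    have : 0 ≤ L * |v| := by positivity
    linarith
  gcongr

lemma grow_mul {L ε : ℝ} (hL : 0 ≤ L) (hε : 0 ≤ ε) (q : ℕ) (v w : ℝ) :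
    grow L ε q (v + w) ≤ grow L ε q v * grow L ε q w := by
  unfold grow
  have h1 : 1 + L * |v + w| ≤ (1 + L * |v|) * (1 + L * |w|) := by
    have h2 := abs_add_le v w
    have h3 : 0 ≤ (L * |v|) * (L * |w|) := by positivity
    nlinarith
  have h4 : Real.sqrt (L * min 1 |v + w|) ≤
      Real.sqrt (L * min 1 |v|) + Real.sqrt (L * min 1 |w|) := by
    have h5 : min 1 |v + w| ≤ min 1 |v| + min 1 |w| := by
      have h6 := abs_add_le v w
      have h7 := abs_nonneg v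
      have h8 := abs_nonneg w
      rcases le_total 1 |v| with a | a <;> rcases le_total 1 |w| with b | b
      · rw [min_eq_left a, min_eq_left b]
        exact (min_le_left _ _).trans (by norm_num)
      · rw [min_eq_left a, min_eq_right b]
        exact (min_le_left _ _).trans (by linarith)
      · rw [min_eq_right a, min_eq_left b]
        exact (min_le_left _ _).trans (by linarith)
      · rw [min_eq_right a, min_eq_right b]
        exact (min_le_right _ _).trans h6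
    have h9 : 0 ≤ min 1 |v| := le_min zero_le_one (abs_nonneg _)
    have h10 : 0 ≤ min 1 |w| := le_min zero_le_one (abs_nonneg _)
    apply Real.sqrt_le_iff.2
    refine ⟨by positivity, ?_⟩
    have h11 := Real.sq_sqrt (show 0 ≤ L * min 1 |v| by positivity)
    have h12 := Real.sq_sqrt (show 0 ≤ L * min 1 |w| by positivity)
    have h13 := Real.sqrt_nonneg (L * min 1 |v|)
    have h14 := Real.sqrt_nonneg (L * min 1 |w|)
    have h15 : L * min 1 |v + w| ≤ L * (min 1 |v| + min 1 |w|) :=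
      mul_le_mul_of_nonneg_left h5 hL
    nlinarith [mul_nonneg h13 h14]
  have h5 : Real.exp (ε * Real.sqrt (L * min 1 |v + w|)) ≤
      Real.exp (ε * Real.sqrt (L * min 1 |v|)) * Real.exp (ε * Real.sqrt (L * min 1 |w|)) := by
    rw [← Real.exp_add, ← mul_add]
    gcongr
  calc (1 + L * |v + w|) ^ q * Real.exp (ε * Real.sqrt (L * min 1 |v + w|)) ≤
      ((1 + L * |v|) * (1 + L * |w|)) ^ q * (Real.exp (ε * Real.sqrt (L * min 1 |v|)) *
        Real.exp (ε * Real.sqrt (L * min 1 |w|))) := by gcongr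
    _ = _ := by rw [mul_pow]; ring

lemma grow_cont (L ε : ℝ) (q : ℕ) : Continuous (grow L ε q) := by
  unfold grow
  fun_prop

/-! ### the kernel -/

lemma kk_facts {r L κ ε : ℝ} {B q J : ℕ} (hB : q + 3 ≤ 2 * B) (hr : 0 < r) (hr1 : r ≤ 1)
    (hL : 1 ≤ L) (hκ : L * r ≤ 2 * κ) (hε : 0 ≤ ε) (hJc : Continuous (gev r J))
    (hJ : ∀ v, 0 ≤ gev r J v ∧ gev r J v * Real.exp (ε * Real.sqrt (L * min 1 |v|)) ≤ 20) :
    Continuous (kk B r J) ∧ (∀ v, 0 ≤ kk B r J v) ∧ Integrable (kk B r J) ∧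
    ∫ v, kk B r J v ≤ 80 * ((1 + 2 * κ) ^ q * cB B (q + 1)) ∧
    Integrable (fun v => kk B r J v * grow L ε q v) ∧
    ∫ v, kk B r J v * grow L ε q v ≤ 80 * ((1 + 2 * κ) ^ q * cB B (q + 1)) := by
  obtain ⟨i1, i2⟩ := kap_poly (B := B) (k := q) (p := 1) (by omega) hr hr1
    (R := L) (κ := 2 * κ) (by linarith) hκ
  have hkc : Continuous (kk B r J) := by
    unfold kk
    exact (by fun_prop : Continuous fun v : ℝ => 4 * (1 + |v|)).mul ((kap_cont B hr).mul hJc)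
  have hk0 : ∀ v, 0 ≤ kk B r J v := by
    intro v
    unfold kk
    have h1 := kap_nn B hr v
    have h2 := (hJ v).1
    positivity
  have hpt : ∀ v, kk B r J v * grow L ε q v ≤
      80 * (kap B r v * ((1 + L * |v|) ^ q * (2 + |v|) ^ 1)) := by
    intro v
    unfold kk grow
    have h1 := kap_nn B hr v
    obtain ⟨h2, h3⟩ := hJ v
    have h4 : 1 + |v| ≤ 2 + |v| := by linarith
    have h5 : 0 ≤ (1 + L * |v|) ^ q := by positivity
    calc 4 * (1 + |v|) * (kap B r v * gev r J v) *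
          ((1 + L * |v|) ^ q * Real.exp (ε * Real.sqrt (L * min 1 |v|))) =
        4 * (1 + |v|) * kap B r v * (1 + L * |v|) ^ q *
          (gev r J v * Real.exp (ε * Real.sqrt (L * min 1 |v|))) := by ring
      _ ≤ 4 * (2 + |v|) * kap B r v * (1 + L * |v|) ^ q * 20 := by gcongr
      _ = _ := by rw [pow_one]; ring
  have hg1 := fun v => grow_one (L := L) (ε := ε) (by linarith) hε q v
  have i3 : Integrable (fun v => kk B r J v * grow L ε q v) := by
    refine (i1.const_mul 80).mono' (hkc.mul (grow_cont L ε q)).aestronglyMeasurable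
      (Eventually.of_forall fun v => ?_)
    rw [Real.norm_of_nonneg (mul_nonneg (hk0 v) (zero_le_one.trans (hg1 v)))]
    exact hpt v
  have h6 : ∫ v, kk B r J v * grow L ε q v ≤ 80 * ((1 + 2 * κ) ^ q * cB B (q + 1)) := by
    refine (integral_mono i3 (i1.const_mul 80) hpt).trans ?_
    rw [integral_const_mul]
    linarith
  have hle : ∀ v, kk B r J v ≤ kk B r J v * grow L ε q v := fun v =>
    le_mul_of_one_le_right (hk0 v) (hg1 v)
  have i4 : Integrable (kk B r J) := by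
    refine i3.mono' hkc.aestronglyMeasurable (Eventually.of_forall fun v => ?_)
    rw [Real.norm_of_nonneg (hk0 v)]
    exact hle v
  exact ⟨hkc, hk0, i4, (integral_mono i4 i3 hle).trans h6, i3, h6⟩

/-! ### the weight -/

lemma RP_cont (S : Finset ℕ) (r : ℕ → ℂ) : Continuous (RP S r) := TP_cont _ _ _ _

lemma rh_cont (τ H : ℝ) (S : Finset ℕ) (r : ℕ → ℂ) : Continuous (rh τ H S r) := by
  unfold rh
  exact (om_cont τ H).mul ((RP_cont S r).norm.pow 2)

lemma rh_nn (τ H : ℝ) (S : Finset ℕ) (r : ℕ → ℂ) (t : ℝ) : 0 ≤ rh τ H S r t := by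
  unfold rh
  have := (om_pos τ H t).le
  positivity

lemma rh_le {τ H N : ℝ} {S : Finset ℕ} (hS : Len S N) (hN : 1 ≤ N) (r : ℕ → ℂ) (t : ℝ) :
    rh τ H S r t ≤ N * w1 S r := by
  unfold rh
  have h1 := om_le_one τ H t
  have h2 := (om_pos τ H t).le
  have h3 : ‖RP S r t‖ ^ 2 ≤ n1 S r ^ 2 :=
    pow_le_pow_left₀ (norm_nonneg _) (TP_norm_le _ _ _ _ _) 2
  have h4 := n1_sq_le S r hS hN
  calc om τ H t * ‖RP S r t‖ ^ 2 ≤ 1 * (N * w1 S r) := by
        gcongr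
        exact h3.trans h4
    _ = _ := one_mul _

lemma lint_le {F : ℝ → ℝ} {R t₁ t₂ : ℝ} (hi : Integrable F) (h0 : ∀ t, 0 ≤ F t)
    (h : ∫ t, F t ≤ R) : ∫⁻ t in Icc t₁ t₂, ENNReal.ofReal (F t) ≤ ENNReal.ofReal R := by
  refine (setLIntegral_le_lintegral _ _).trans ?_
  rw [← ofReal_integral_eq_lintegral_ofReal hi (Eventually.of_forall h0)]
  exact ENNReal.ofReal_le_ofReal h

lemma msd_NN {τ H R t₁ t₂ A B : ℝ} {S : Finset ℕ} {r : ℕ → ℂ} (hH : 0 < H) {f g : ℝ → ℝ}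
    (hf : Continuous f) (hg : Continuous g) (hfb : ∀ t, 0 ≤ f t ∧ f t ≤ A)
    (hgb : ∀ t, 0 ≤ g t ∧ g t ≤ B)
    (h : ∫ t, rh τ H S r t * (f t ^ 2 * g t ^ 2) ≤ R) :
    NNw (fun t => rh τ H S r t * g t ^ 2) t₁ t₂ f ≤ ENNReal.ofReal R := by
  unfold NNw
  refine lint_le ?_ (fun t => by have := rh_nn τ H S r t; positivity) (le_trans (le_of_eq ?_) h)
  · have e : (fun t => rh τ H S r t * g t ^ 2 * f t ^ 2) =
        fun t => om τ H t * (‖RP S r t‖ ^ 2 * g t ^ 2 * f t ^ 2) := by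
      funext t
      unfold rh
      ring
    rw [e]
    refine om_mul_integrable (K := n1 S r ^ 2 * B ^ 2 * A ^ 2) hH
      ((((RP_cont S r).norm.pow 2).mul (hg.pow 2)).mul (hf.pow 2)) (fun t => ?_)
    rw [abs_of_nonneg (by positivity)]
    have h1 : ‖RP S r t‖ ≤ n1 S r := TP_norm_le _ _ _ _ _
    have h2 := hfb t
    have h3 := hgb t
    have h4 := h2.1
    have h5 := h3.1
    gcongr
    · exact h3.2
    · exact h2.2
  · refine integral_congr_ae (Eventually.of_forall fun t => ?_)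
    simp only
    ring

lemma triv_NN {W : ℝ → ℝ} {T Wm P : ℝ} {f : ℝ → ℝ} (hW0 : ∀ t, 0 ≤ W t)
    (hW : ∀ t, W t ≤ Wm) (hf : ∀ t ∈ Icc T (2 * T), 0 ≤ f t ∧ f t ≤ P) :
    NNw W T (2 * T) f ≤ ENNReal.ofReal (T * Wm * P ^ 2) := by
  unfold NNw
  have hWm : 0 ≤ Wm := (hW0 0).trans (hW 0)
  have h1 : ∀ t ∈ Icc T (2 * T), ENNReal.ofReal (W t * f t ^ 2) ≤ ENNReal.ofReal (Wm * P ^ 2) := by
    intro t ht
    refine ENNReal.ofReal_le_ofReal ?_
    have h2 := hf t ht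
    have h3 := h2.1
    have h4 := hW0 t
    exact mul_le_mul (hW t) (pow_le_pow_left₀ h3 h2.2 2) (by positivity) hWm
  refine (setLIntegral_mono' measurableSet_Icc h1).trans (le_of_eq ?_)
  rw [setLIntegral_const, Real.volume_Icc, ← ENNReal.ofReal_mul (by positivity)]
  congr 1
  ring

/-! ### elementary inequalities -/

lemma el1 {L : ℝ} (hL : 1 ≤ L) (v : ℝ) : 1 + |v| ≤ 1 + L * |v| := by
  have := abs_nonneg v
  nlinarith

lemma el2 {x y z : ℝ} (hx : 0 ≤ x) (h : x ≤ y + z) : x ^ 2 ≤ 2 * y ^ 2 + 2 * z ^ 2 := by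
  have h1 := pow_le_pow_left₀ hx h 2
  nlinarith [sq_nonneg (y - z)]

lemma el3 {T u v : ℝ} (hT : 10 ≤ T) (h : |u| ≤ 5 / 2 * T + |v|) : 1 + |u| ≤ 4 * T * (1 + |v|) := by
  have := abs_nonneg v
  nlinarith

lemma el4 {A κ : ℝ} (hA1 : 1 ≤ A) (hκ : 2 ≤ κ) : 1 ≤ 4 * A ^ 2 * Real.exp (2 * κ) := by
  have h1 : 1 ≤ Real.exp (2 * κ) := Real.one_le_exp (by linarith)
  have h2 : 1 ≤ A ^ 2 := one_le_pow₀ hA1
  nlinarith

lemma el5 {T x : ℝ} (hT : 10 ≤ T) (hx : |x| ≤ T / 2) : ∀ t ∈ Icc T (2 * T), ∀ v : ℝ,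
    |t + (x + v)| ≤ 5 / 2 * T + |v| := by
  intro t ht v
  have h1 := abs_add_le t (x + v)
  have h2 := abs_add_le x v
  rw [abs_of_nonneg (by linarith [ht.1] : 0 ≤ t)] at h1
  have h3 := ht.2
  linarith

/-- the functional equation for the squares -/
lemma fe_sq {A : ℝ} (hA : 1 ≤ A) (hfe : ∀ d u : ℝ, 0 < d → d ≤ 1 / 4 →
    ‖riemannZeta (pt (1 / 2 - d) u)‖ ≤ A * (1 + |u|) ^ d * ‖riemannZeta (pt (1 / 2 + d) u)‖)
    {T L κ d u v : ℝ} (hT : 10 ≤ T) (hL : L = Real.log T) (hLd : L * d = κ) (hd0 : 0 < d)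
    (hd4 : d ≤ 1 / 4) (hv : |v| ≤ T) (hu : |u| ≤ 5 / 2 * T + |v|) :
    ‖riemannZeta (pt (1 / 2 - d) u)‖ ^ 2 ≤
      4 * A ^ 2 * Real.exp (2 * κ) * ‖riemannZeta (pt (1 / 2 + d) u)‖ ^ 2 := by
  have hT0 : 0 < T := by linarith
  have h2 := hfe d u hd0 hd4
  have h4 : (1 + |u|) ^ d ≤ 2 * Real.exp κ := by
    have h5 : 1 + |u| ≤ 5 * T := by linarith
    calc (1 + |u|) ^ d ≤ (5 * T) ^ d := Real.rpow_le_rpow (by positivity) h5 hd0.le
      _ = 5 ^ d * T ^ d := Real.mul_rpow (by norm_num) hT0.le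
      _ ≤ 2 * Real.exp κ := by
          have h6 : (5 : ℝ) ^ d ≤ 2 := by
            calc (5 : ℝ) ^ d ≤ 5 ^ (1 / 4 : ℝ) :=
                  Real.rpow_le_rpow_of_exponent_le (by norm_num) hd4
              _ ≤ 16 ^ (1 / 4 : ℝ) :=
                  Real.rpow_le_rpow (by norm_num) (by norm_num) (by norm_num)
              _ = 2 := by
                  rw [show (16 : ℝ) = 2 ^ (4 : ℝ) by norm_num, ← Real.rpow_mul (by norm_num)]
                  norm_num
          have h7 : T ^ d = Real.exp κ := by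
            rw [Real.rpow_def_of_pos hT0, ← hL, hLd]
          rw [h7]
          gcongr
  have h8 : ‖riemannZeta (pt (1 / 2 - d) u)‖ ≤
      A * (2 * Real.exp κ) * ‖riemannZeta (pt (1 / 2 + d) u)‖ := by
    refine h2.trans ?_
    gcongr
  have h9 := pow_le_pow_left₀ (norm_nonneg _) h8 2
  refine h9.trans (le_of_eq ?_)
  rw [two_mul κ, Real.exp_add]
  ring

end Pool.Agent.N802.WD.BootN

namespace Pool.Agent.N802.WD

open MeasureTheory Set Filter Topology Complex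
open TC (om om_pos om_cont om_integrable om_le_one om_mul_integrable)
open Pool.Agent.N802 Pool.Agent.N802.U
open Pool.Agent.N786.D (kap kap_nn kap_cont kap_poly cB cB_nn)
open Pool.Agent.R399.TW (pt pt_re pt_im pt_cont)
open BootN

/-! ### the theorem -/

theorem boot (hcut : S_cut) (hmsd : S_msd) (hker : S_ker) : S_mz := by
  obtain ⟨q, hmsd⟩ := hmsd
  obtain ⟨A, hA1, hfe⟩ := fe_
  obtain ⟨C₀, hC₀, hgm⟩ := Pool.Agent.H448R2.GC.zeta_growth_mid
  -- the constants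
  obtain ⟨q', hq'⟩ : ∃ q' : ℕ, q' = q + 4 := ⟨_, rfl⟩
  obtain ⟨B, hB⟩ : ∃ B : ℕ, B = q' + 3 := ⟨_, rfl⟩
  obtain ⟨cb, hcb⟩ : ∃ cb : ℝ, cb = cB B (q' + 1) := ⟨_, rfl⟩
  have hcb0 : 0 ≤ cb := by rw [hcb]; exact cB_nn _ _
  obtain ⟨κ, hκ2, hκ⟩ := kappa2 (102400 * A ^ 2 * cb ^ 2) (1 / 5) (2 * q') (by norm_num)
  obtain ⟨ε, hε, hgev⟩ := hker.2 (2 * κ) (by linarith)
  obtain ⟨c₁, C₁, hc₁, hC₁, hcut1⟩ := hcut (3 / 5) (7 / 10) (2 * κ + 1) (q + 4) (by norm_num)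
    (by norm_num) (by linarith)
  obtain ⟨c₂, C₂, hc₂, hC₂, hcut2⟩ := hcut (1 / 10) (1 / 5) (2 * κ + 1) (q + 4) (by norm_num)
    (by norm_num) (by linarith)
  obtain ⟨a, δ₀, T₀, ha, hδ₀, hT₀, hmsd⟩ := hmsd (3 / 5) (7 / 10) (1 / 10) (1 / 5) κ (min c₁ c₂)
    (max C₁ C₂) ε (by norm_num) (by norm_num) (by norm_num) (by norm_num) (by norm_num)
    (by linarith) (lt_min hc₁ hc₂) (lt_max_of_lt_left hC₁) hε
  obtain ⟨δ, hδ⟩ : ∃ δ : ℝ, δ = min δ₀ (1 / 2) := ⟨_, rfl⟩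
  have hδ0 : 0 < δ := by rw [hδ]; exact lt_min hδ₀ (by norm_num)
  have hδle : δ ≤ δ₀ := by rw [hδ]; exact min_le_left _ _
  have hδ2 : δ ≤ 1 / 2 := by rw [hδ]; exact min_le_right _ _
  obtain ⟨K0, hK0⟩ : ∃ K0 : ℝ, K0 = 80 * ((1 + 2 * κ) ^ q' * cb) := ⟨_, rfl⟩
  have hK00 : 0 ≤ K0 := by rw [hK0]; positivity
  obtain ⟨c1, hc1⟩ : ∃ c1 : ℝ, c1 = 4 * A ^ 2 * Real.exp (2 * κ) := ⟨_, rfl⟩
  have hc11 : 1 ≤ c1 := by
    rw [hc1]
    exact el4 hA1 hκ2
  obtain ⟨G, hG⟩ : ∃ G : ℝ, G = 21 * C₀ ^ 2 := ⟨_, rfl⟩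
  have hG0 : 0 ≤ G := by rw [hG]; positivity
  obtain ⟨F, hF⟩ : ∃ F : ℝ, F = 2 * a + 2 * (c1 * (5 * a + G + 1)) + 2 * G := ⟨_, rfl⟩
  have hF0 : 0 ≤ F := by rw [hF]; positivity
  refine ⟨1 / 10, 1 / 5, 2 * a + 2 * K0 * K0 * F, δ, max T₀ (Real.exp (4 * κ)), by norm_num,
    by norm_num, by norm_num, by positivity, hδ0, hT₀.trans (le_max_left _ _), ?_⟩
  intro T hT
  have hTT₀ : T₀ ≤ T := (le_max_left _ _).trans hT
  have hT10 : 10 ≤ T := hT₀.trans hTT₀
  have hT0 : 0 < T := by linarith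
  obtain ⟨L, hL⟩ : ∃ L : ℝ, L = Real.log T := ⟨_, rfl⟩
  have hLκ : 4 * κ ≤ L := by
    rw [hL, Real.le_log_iff_exp_le hT0]
    exact (le_max_right _ _).trans hT
  have hL1 : 1 ≤ L := by linarith
  have hL0 : 0 < L := by linarith
  have hexpL : Real.exp L = T := by rw [hL, Real.exp_log hT0]
  obtain ⟨V₁, K₁, hV₁⟩ := hcut1 L hL1
  obtain ⟨V₂, K₂, hV₂⟩ := hcut2 L hL1
  have hV₁' := cutf_mono hV₁ (min_le_left c₁ c₂) (le_max_left C₁ C₂) hC₁.le
  have hV₂' := cutf_mono hV₂ (min_le_right c₁ c₂) (le_max_right C₁ C₂) hC₂.le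
  have hb1 : ∀ x, 0 ≤ V₁ x ∧ V₁ x ≤ 1 := fun x => ⟨hV₁.nn x, hV₁.le x⟩
  have hb2 : ∀ x, 0 ≤ V₂ x ∧ V₂ x ≤ 1 := fun x => ⟨hV₂.nn x, hV₂.le x⟩
  rw [← hL]
  refine ⟨V₂, hb2, hV₂.one, hV₂.zero, ?_⟩
  intro S hS r τ H hH x hx
  -- the parameters
  have hTpow : ∀ s : ℝ, 0 ≤ s → 1 ≤ T ^ s := fun s hs => Real.one_le_rpow (by linarith) hs
  have hH' : T ^ (1 - δ₀) ≤ H :=
    (Real.rpow_le_rpow_of_exponent_le (by linarith) (by linarith)).trans hH
  have hH0 : 0 < H := lt_of_lt_of_le (by positivity) hH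
  have hS' : Len S (T ^ δ₀) := fun k hk => ⟨(hS k hk).1, (hS k hk).2.trans
    (Real.rpow_le_rpow_of_exponent_le (by linarith) hδle)⟩
  obtain ⟨M, hM⟩ : ∃ M : ℕ, M = ⌊T ^ (7 / 10 : ℝ)⌋₊ := ⟨_, rfl⟩
  obtain ⟨M₂, hM₂⟩ : ∃ M₂ : ℕ, M₂ = ⌊T ^ (1 / 5 : ℝ)⌋₊ := ⟨_, rfl⟩
  rw [← hM₂]
  obtain ⟨m, hm⟩ : ∃ m : ℝ, m = mr H S r := ⟨_, rfl⟩
  have hw0 := w1_nonneg S r
  have hsq2 : 1 ≤ Real.sqrt (2 * Real.pi) := by
    rw [Real.one_le_sqrt]
    have := Real.pi_gt_three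
    linarith
  have hm1 : T ^ (1 - δ) * w1 S r ≤ m := by
    rw [hm]
    unfold mr
    have h1 : T ^ (1 - δ) ≤ Real.sqrt (2 * Real.pi) * H := by
      have : 1 * T ^ (1 - δ) ≤ Real.sqrt (2 * Real.pi) * H := by gcongr
      linarith
    gcongr
  have hm0 : 0 ≤ m := le_trans (by positivity) hm1
  rw [← hm]
  obtain ⟨d, hd⟩ : ∃ d : ℝ, d = κ / L := ⟨_, rfl⟩
  have hd0 : 0 < d := by rw [hd]; positivity
  have hd4 : d ≤ 1 / 4 := by rw [hd, div_le_iff₀ hL0]; linarith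
  have hLd : L * d = κ := by rw [hd]; field_simp
  have hMlog : ∀ n : ℕ, M < n → 3 / 5 * L ≤ Real.log n := by
    intro n hn
    rw [hM] at hn
    have h1 : T ^ (7 / 10 : ℝ) < n := Nat.lt_of_floor_lt hn
    have h2 := Real.log_lt_log (by positivity) h1
    rw [Real.log_rpow hT0, ← hL] at h2
    linarith
  -- the weight
  set ψ : ℝ → ℝ := fun t => ‖Mp V₂ M₂ (pt (1 / 2 - 1 / L) (t + x))‖ with hψ
  have hψc : Continuous ψ := ((Mp_diff V₂ M₂).continuous.comp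
    ((pt_cont _).comp (by fun_prop))).norm
  have hLinv : 1 / L ≤ 1 / 8 := by
    rw [div_le_div_iff₀ hL0 (by norm_num)]
    linarith
  have hLinv0 : 0 < 1 / L := by positivity
  have hψb : ∀ t, 0 ≤ ψ t ∧ ψ t ≤ M₂ := fun t => ⟨norm_nonneg _, Mp_norm hb2 M₂ (by
    rw [pt_re]; linarith)⟩
  set W : ℝ → ℝ := fun t => rh τ H S r t * ψ t ^ 2 with hW
  have hWc : Continuous W := (rh_cont τ H S r).mul (hψc.pow 2)
  have hW0 : ∀ t, 0 ≤ W t := fun t => mul_nonneg (rh_nn _ _ _ _ _) (sq_nonneg _)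
  have hWm : ∀ t, W t ≤ T ^ δ * w1 S r * T := by
    intro t
    have h1 := rh_le (τ := τ) (H := H) hS (hTpow δ hδ0.le) r t
    have h2 : ψ t ^ 2 ≤ T := by
      have h3 : (M₂ : ℝ) ≤ T ^ (1 / 5 : ℝ) := by
        rw [hM₂]
        exact Nat.floor_le (by positivity)
      calc ψ t ^ 2 ≤ (T ^ (1 / 5 : ℝ)) ^ 2 :=
            pow_le_pow_left₀ (hψb t).1 ((hψb t).2.trans h3) 2
        _ = T ^ (2 / 5 : ℝ) := by
            rw [← Real.rpow_natCast, ← Real.rpow_mul hT0.le]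
            norm_num
        _ ≤ T ^ (1 : ℝ) := Real.rpow_le_rpow_of_exponent_le (by linarith) (by norm_num)
        _ = T := Real.rpow_one T
    have h4 := rh_nn τ H S r t
    exact mul_le_mul h1 h2 (sq_nonneg _) (h4.trans h1)
  have hTW : T * (T ^ δ * w1 S r * T) ≤ T ^ 2 * m := by
    have h1 : T ^ δ ≤ T ^ (1 - δ) :=
      Real.rpow_le_rpow_of_exponent_le (by linarith) (by linarith)
    calc T * (T ^ δ * w1 S r * T) = T ^ 2 * (T ^ δ * w1 S r) := by ring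
      _ ≤ T ^ 2 * (T ^ (1 - δ) * w1 S r) := by gcongr
      _ ≤ _ := by gcongr
  -- the growth
  set gr : ℝ → ℝ := grow L ε q' with hgr
  have hgr1 : ∀ v, 1 ≤ gr v := fun v => grow_one hL0.le hε.le q' v
  have hgrm : ∀ v w, gr (v + w) ≤ gr v * gr w := fun v w => grow_mul hL0.le hε.le q' v w
  have hgrp : ∀ (v : ℝ) (j : ℕ), j ≤ q' → (1 + |v|) ^ j ≤ gr v := by
    intro v j hj
    rw [hgr]
    unfold grow
    have h1 : 1 ≤ Real.exp (ε * Real.sqrt (L * min 1 |v|)) := Real.one_le_exp (by positivity)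
    have h2 : 1 + |v| ≤ 1 + L * |v| := el1 hL1 v
    have h3 : 1 ≤ 1 + |v| := le_add_of_nonneg_right (abs_nonneg v)
    calc (1 + |v|) ^ j ≤ (1 + |v|) ^ q' := pow_le_pow_right₀ h3 hj
      _ ≤ (1 + L * |v|) ^ q' := by gcongr
      _ ≤ _ := le_mul_of_one_le_right (by positivity) h1
  -- the functions
  have hpt1 : ∀ c w : ℝ, c ≤ 3 / 4 → pt c w ≠ 1 := by
    intro c w hc h
    have := congrArg Complex.re h
    rw [pt_re, Complex.one_re] at this
    linarith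
  have hzc : ∀ c : ℝ, c ≤ 3 / 4 → Continuous fun w => ‖riemannZeta (pt c w)‖ := by
    intro c hc
    rw [continuous_iff_continuousAt]
    intro w
    exact (ContinuousAt.comp (differentiableAt_riemannZeta (hpt1 c w hc)).continuousAt
      (pt_cont c).continuousAt).norm
  have hDc : ∀ c : ℝ, Continuous fun w => ‖Dp V₁ M (pt c w)‖ := fun c =>
    ((Dp_diff V₁ M).continuous.comp (pt_cont c)).norm
  -- the mean squares of the Dirichlet polynomials
  have hDb : ∀ k : ℝ, |k| ≤ κ → 0 ≤ 1 / 2 + k / L → ∀ v : ℝ,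
      NNw W T (2 * T) (fun t => ‖Dp V₁ M (pt (1 / 2 + k / L) (t + (x + v)))‖) ≤
        ENNReal.ofReal (a * gr v * m) := by
    intro k hk hk0 v
    have h1 := hmsd T hTT₀ V₁ V₂ K₁ K₂ (by rw [← hL]; exact hV₁') (by rw [← hL]; exact hV₂') S hS'
      r τ H hH' k (-1) hk (by rw [abs_neg, abs_one]; linarith) x v
    rw [← hL, ← hM, ← hM₂, ← hm] at h1
    have e1 : (1 / 2 + -1 / L : ℝ) = 1 / 2 - 1 / L := by ring
    rw [e1] at h1
    have h2 : a * grow L ε q v * m ≤ a * gr v * m := by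
      have := grow_mono (ε := ε) hL0.le (show q ≤ q' by omega) v
      gcongr
    have h3 := h1.trans h2
    refine msd_NN (A := M) (B := M₂) hH0 ((hDc _).comp (by fun_prop)) hψc
      (fun t => ⟨norm_nonneg _, Dp_norm hb1 M (by rw [pt_re]; exact hk0)⟩) hψb ?_
    refine le_trans (le_of_eq ?_) h3
    refine integral_congr_ae (Eventually.of_forall fun t => ?_)
    simp only [add_assoc]
    rfl
  have eκ1 : (1 / 2 + κ / L : ℝ) = 1 / 2 + d := by rw [hd]
  have eκ2 : (1 / 2 + -κ / L : ℝ) = 1 / 2 - d := by rw [hd]; ring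
  have eκ3 : (1 / 2 + -1 / L : ℝ) = 1 / 2 - 1 / L := by ring
  have hDp1 := hDb κ (by rw [abs_of_pos (by linarith)]) (by rw [eκ1]; linarith)
  have hDm1 := hDb (-κ) (by rw [abs_neg, abs_of_pos (by linarith)]) (by rw [eκ2]; linarith)
  have hD11 := hDb (-1) (by rw [abs_neg, abs_one]; linarith) (by rw [eκ3]; linarith)
  rw [eκ1] at hDp1
  rw [eκ2] at hDm1
  rw [eκ3] at hD11
  -- kernels
  set a₀ : ℝ := 1 / 2 - d with ha₀
  set b₀ : ℝ := 1 / 2 + d with hb₀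
  set b₁ : ℝ := 1 / 2 - 1 / L with hb₁
  have hr1 : b₀ - a₀ = 2 * d := by rw [ha₀, hb₀]; ring
  have hr2 : b₁ - a₀ = d - 1 / L := by rw [ha₀, hb₁]; ring
  have hd1L : 1 / L < d := by
    rw [hd]
    gcongr
    linarith
  have hr2L : L * (d - 1 / L) = κ - 1 := by
    rw [mul_sub, hLd]
    field_simp
  obtain ⟨J, hJc, hJ⟩ := hgev L (b₀ - a₀) hL1 (by rw [hr1]; linarith) (by
    rw [hr1, hd, ← mul_div_assoc])
  obtain ⟨J', hJ'c, hJ'⟩ := hgev L (b₁ - a₀) hL1 (by rw [hr2]; linarith) (by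
    rw [hr2, le_div_iff₀ hL0, mul_comm, hr2L]; linarith)
  obtain ⟨k1, k2, k3, k4, k5, k6⟩ := kk_facts (κ := κ) (B := B) (q := q') (by omega)
    (by rw [hr1]; linarith : 0 < b₀ - a₀) (by rw [hr1]; linarith) hL1
    (by rw [hr1]; linarith) hε.le hJc hJ
  obtain ⟨l1, l2, l3, l4, l5, l6⟩ := kk_facts (κ := κ) (B := B) (q := q') (by omega)
    (by rw [hr2]; linarith : 0 < b₁ - a₀) (by rw [hr2]; linarith) hL1
    (by rw [hr2, hr2L]; linarith) hε.le hJ'c hJ'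
  rw [← hcb, ← hK0] at k4 k6 l4 l6
  have hkz := fun u => kerz hker hb1 hL1 hV₁.one hMlog (a := a₀) (b := b₀) (by linarith)
    (by linarith) (by linarith) (by linarith) (B := B) (J := J) (by omega) hJc
    (fun v => (hJ v).1) u
  have hlz := fun u => kerz hker hb1 hL1 hV₁.one hMlog (a := a₀) (b := b₁) (by linarith)
    (by linarith) (by linarith) (by linarith) (B := B) (J := J') (by omega) hJ'c
    (fun v => (hJ' v).1) u
  -- the supremum argument
  set f : ℝ → ℝ := fun w => ‖Dp V₁ M (pt a₀ w) - riemannZeta (pt a₀ w)‖ with hf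
  have hfc : Continuous f := by
    have h1 : Continuous fun w => riemannZeta (pt a₀ w) := by
      rw [continuous_iff_continuousAt]
      intro w
      exact ContinuousAt.comp (differentiableAt_riemannZeta (hpt1 a₀ w (by linarith))).continuousAt
        (pt_cont a₀).continuousAt
    exact (((Dp_diff V₁ M).continuous.comp (pt_cont a₀)).sub h1).norm
  have hff : ∀ u, f u ^ 2 ≤ 2 * ‖Dp V₁ M (pt a₀ u)‖ ^ 2 + 2 * ‖riemannZeta (pt a₀ u)‖ ^ 2 := by
    intro u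
    exact el2 (norm_nonneg _) (norm_sub_le (Dp V₁ M (pt a₀ u)) (riemannZeta (pt a₀ u)))
  have hσ2 : Real.exp (-(11 / 20 * L * (b₀ - a₀))) ^ 2 = Real.exp (-(11 / 5 * κ)) := by
    rw [← Real.exp_nat_mul, hr1, ← hLd]
    congr 1
    push_cast
    ring
  have habs := el5 hT10 hx
  have hmain := iterA (t₁ := T) (t₂ := 2 * T) hWc hW0 (Lp := fun w => ‖riemannZeta (pt b₀ w)‖)
    (Lm := fun w => ‖riemannZeta (pt a₀ w)‖) (Dq := fun w => ‖Dp V₁ M (pt b₀ w)‖)
    (Dm := fun w => ‖Dp V₁ M (pt a₀ w)‖) (f := f) (k1 := kk B (b₀ - a₀) J) (gr := gr)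
    (fun _ => norm_nonneg _) (hzc _ (by linarith)) (hzc _ (by linarith)) (hDc _)
    (fun _ => norm_nonneg _) (hDc _) hfc (fun _ => norm_nonneg _) k1 k2 k3
    (σ := Real.exp (-(11 / 20 * L * (b₀ - a₀)))) (K0 := K0) (K1 := K0) (Real.exp_pos _).le k4
    hkz hgr1 hgrm k5 k6 (a := a) (c1 := c1) (G := G) (S0 := 16 * C₀ ^ 2 * T ^ 4) (m := m)
    (x := x) ha.le hc11 hG0 (by positivity) hm0 hDp1 hDm1 hff
    (by
      intro v
      rcases le_or_gt |v| T with hv | hv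
      · have h1 := NNw_add (t₁ := T) (t₂ := 2 * T) hWc hW0
          (f := fun t => ‖riemannZeta (pt a₀ (t + (x + v)))‖)
          (g := fun t => ‖riemannZeta (pt b₀ (t + (x + v)))‖) (h := fun _ => 0) (p := c1) (q := 0)
          (by linarith) le_rfl ((hzc _ (by linarith)).comp (by fun_prop)) continuous_const (by
            intro t ht
            have h2 := fe_sq hA1 hfe hT10 hL hLd hd0 hd4 hv (habs t ht v)
            rw [← hc1] at h2
            simp only [zero_mul, add_zero]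
            exact h2)
        rw [ENNReal.ofReal_zero, zero_mul, add_zero] at h1
        exact h1.trans le_self_add
      · refine le_trans ?_ le_add_self
        have hv0 : T ≤ |v| := hv.le
        refine (triv_NN (T := T) (P := C₀ * (9 / 2 * |v|)) hW0 hWm (by
          intro t ht
          refine ⟨norm_nonneg _, ?_⟩
          have h2 := hgm (pt a₀ (t + (x + v))) (by rw [pt_re]; linarith) (by rw [pt_re]; linarith)
          rw [pt_im] at h2
          refine h2.trans ?_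
          have h3 := habs t ht v
          gcongr
          linarith)).trans (ENNReal.ofReal_le_ofReal ?_)
        have h4 : |v| ^ 4 ≤ gr v := by
          refine le_trans ?_ (hgrp v 4 (by omega))
          gcongr
          linarith
        have h5 : T ^ 2 ≤ |v| ^ 2 := pow_le_pow_left₀ hT0.le hv0 2
        calc T * (T ^ δ * w1 S r * T) * (C₀ * (9 / 2 * |v|)) ^ 2 ≤
            T ^ 2 * m * (C₀ * (9 / 2 * |v|)) ^ 2 := by gcongr
          _ ≤ |v| ^ 2 * m * (C₀ * (9 / 2 * |v|)) ^ 2 := by gcongr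
          _ = 81 / 4 * C₀ ^ 2 * |v| ^ 4 * m := by ring
          _ ≤ 21 * C₀ ^ 2 * gr v * m := by gcongr; norm_num
          _ = G * gr v * m := by rw [hG])
    (by
      intro v
      refine (triv_NN (T := T) (P := C₀ * (4 * T * (1 + |v|))) hW0 hWm (by
        intro t ht
        refine ⟨norm_nonneg _, ?_⟩
        have h2 := hgm (pt b₀ (t + (x + v))) (by rw [pt_re]; linarith) (by rw [pt_re]; linarith)
        rw [pt_im] at h2
        refine h2.trans ?_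
        have h3 := el3 hT10 (habs t ht v)
        gcongr)).trans (ENNReal.ofReal_le_ofReal ?_)
      have h4 := hgrp v 2 (by omega)
      calc T * (T ^ δ * w1 S r * T) * (C₀ * (4 * T * (1 + |v|))) ^ 2 ≤
          T ^ 2 * m * (C₀ * (4 * T * (1 + |v|))) ^ 2 := by gcongr
        _ = 16 * C₀ ^ 2 * T ^ 4 * (1 + |v|) ^ 2 * m := by ring
        _ ≤ 16 * C₀ ^ 2 * T ^ 4 * gr v * m := by gcongr)
    (by
      rw [hσ2, hK0, hc1]
      have e1 : 4 * Real.exp (-(11 / 5 * κ)) * (80 * ((1 + 2 * κ) ^ q' * cb)) *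
          (80 * ((1 + 2 * κ) ^ q' * cb)) * (4 * A ^ 2 * Real.exp (2 * κ)) =
          102400 * A ^ 2 * cb ^ 2 * ((1 + 2 * κ) ^ (2 * q') *
            (Real.exp (-(11 / 5 * κ)) * Real.exp (2 * κ))) := by
        rw [two_mul q', pow_add]
        ring
      rw [e1, ← Real.exp_add]
      have e2 : -(11 / 5 * κ) + 2 * κ = -(1 / 5 * κ) := by ring
      rw [e2]
      exact hκ)
  obtain ⟨-, hfb⟩ := hmain
  rw [← hF] at hfb
  -- the final estimate
  have hfin := stepB (t₁ := T) (t₂ := 2 * T) hWc hW0 (Lp := fun w => ‖riemannZeta (pt b₁ w)‖)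
    (Dq := fun w => ‖Dp V₁ M (pt b₁ w)‖) (f := f) (k1 := kk B (b₁ - a₀) J') (gr := gr)
    (fun _ => norm_nonneg _) (hDc _) (fun _ => norm_nonneg _) hfc (fun _ => norm_nonneg _) l1 l2 l3
    (σ := Real.exp (-(11 / 20 * L * (b₁ - a₀)))) (K0 := K0) (K1 := K0) (Real.exp_pos _).le l4
    hlz hgr1 hgrm l5 l6 (a := a) (F := F) (m := m) (x := x) ha.le hF0 hm0 0 (hD11 0) hfb
  have hσ1 : Real.exp (-(11 / 20 * L * (b₁ - a₀))) ^ 2 ≤ 1 := by
    apply pow_le_one₀ (Real.exp_pos _).le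
    rw [Real.exp_le_one_iff, neg_nonpos, hr2]
    have : 0 < d - 1 / L := by linarith
    positivity
  have hg0 : gr 0 = 1 := grow_zero q'
  rw [hg0, mul_one, add_zero] at hfin
  have hlast : ENNReal.ofReal (∫ t in Icc T (2 * T), W t * ‖riemannZeta (pt b₁ (t + x))‖ ^ 2) ≤
      ENNReal.ofReal ((2 * a + 2 * K0 * K0 * F) * m) := by
    have hc : Continuous fun t => W t * ‖riemannZeta (pt b₁ (t + x))‖ ^ 2 :=
      hWc.mul (((hzc b₁ (by linarith)).comp (by fun_prop : Continuous fun t : ℝ => t + x)).pow 2)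
    rw [ofReal_integral_eq_lintegral_ofReal hc.integrableOn_Icc
      (Eventually.of_forall fun t => mul_nonneg (hW0 t) (sq_nonneg _))]
    refine hfin.trans (ENNReal.ofReal_le_ofReal ?_)
    have h1 : 2 * Real.exp (-(11 / 20 * L * (b₁ - a₀))) ^ 2 * K0 * K0 * F ≤ 2 * 1 * K0 * K0 * F := by
      gcongr
    have h2 : 2 * a + 2 * Real.exp (-(11 / 20 * L * (b₁ - a₀))) ^ 2 * K0 * K0 * F ≤
        2 * a + 2 * K0 * K0 * F := by linarith
    gcongr
  rw [ENNReal.ofReal_le_ofReal_iff (by positivity)] at hlast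
  rw [intervalIntegral.integral_of_le (by linarith), ← integral_Icc_eq_integral_Ioc]
  refine le_trans (le_of_eq ?_) hlast
  refine integral_congr_ae (Eventually.of_forall fun t => ?_)
  show rh τ H S r t * ‖riemannZeta (pt b₁ (t + x)) * Mp V₂ M₂ (pt b₁ (t + x))‖ ^ 2 =
    rh τ H S r t * ‖Mp V₂ M₂ (pt b₁ (t + x))‖ ^ 2 * ‖riemannZeta (pt b₁ (t + x))‖ ^ 2
  rw [norm_mul, mul_pow]
  ring

end Pool.Agent.N802.WD
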