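import Pool.Agent.N802.WD.Boot2A
import Pool.Agent.N802.WD.Boot

/-!
# Project WD2 (helper802), BOOT2 (helper427, after helper247): the mean square of the mollified
function near the critical line, weighted by `|R|²`, `R` of arbitrary length
-/

set_option autoImplicit false

namespace Pool.Agent.N802.WD.Boot2N

open MeasureTheory Set Filter Topology Complex
open TC (om om_pos om_cont om_integrable om_le_one om_mul_integrable)
open Pool.Agent.N802 Pool.Agent.N802.U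
open Pool.Agent.N786.D (kap kap_nn kap_cont kap_poly cB cB_nn)
open Pool.Agent.R399.TW (pt pt_re pt_im pt_cont)
open Pool.Agent.N802.WD.BootN

/-- existence of the constant `κ` -/
lemma kappa3 (c₁ g D : ℝ) (k : ℕ) (hc₁ : 0 ≤ c₁) (hg : 0 < g) :
    ∃ κ : ℝ, 2 ≤ κ ∧ c₁ * ((1 + 2 * κ) ^ k * Real.exp (D * Real.sqrt (2 * κ)) *
      Real.exp (-(g * κ))) ≤ 1 / 2 := by
  obtain ⟨κ, hκ2, hκ⟩ := kappa2 (c₁ * Real.exp (D ^ 2 / g)) (g / 2) k (by linarith)
  refine ⟨κ, hκ2, le_trans ?_ hκ⟩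
  have hs := Real.sq_sqrt (show 0 ≤ 2 * κ by linarith)
  set s := Real.sqrt (2 * κ) with hsd
  have h1 : D * s ≤ D ^ 2 / g + g / 2 * κ := by
    have e : D ^ 2 / g + g / 2 * κ - D * s = (D - g * s / 2) ^ 2 / g := by
      have e2 : κ = s ^ 2 / 2 := by linarith
      rw [e2]
      field_simp
      ring
    have h2 : 0 ≤ (D - g * s / 2) ^ 2 / g := by positivity
    linarith
  have h3 : Real.exp (D * s) * Real.exp (-(g * κ)) ≤
      Real.exp (D ^ 2 / g) * Real.exp (-(g / 2 * κ)) := by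
    rw [← Real.exp_add, ← Real.exp_add]
    apply Real.exp_le_exp.2
    linarith
  calc c₁ * ((1 + 2 * κ) ^ k * Real.exp (D * s) * Real.exp (-(g * κ))) =
      c₁ * ((1 + 2 * κ) ^ k * (Real.exp (D * s) * Real.exp (-(g * κ)))) := by ring
    _ ≤ c₁ * ((1 + 2 * κ) ^ k * (Real.exp (D ^ 2 / g) * Real.exp (-(g / 2 * κ)))) := by gcongr
    _ = _ := by ring

/-- the kernel -/
lemma kk2_facts {r L κ C₁ E : ℝ} {B q J p : ℕ} (hB : q + 3 ≤ 2 * B) (hr : 0 < r) (hr1 : r ≤ 1)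
    (hL : 1 ≤ L) (hκ : L * r ≤ 2 * κ) (hC₁ : 0 ≤ C₁) (hJc : Continuous (gev r J))
    (hJ : ∀ v, 0 ≤ gev r J v ∧ gev r J v ^ p * Real.exp (C₁ * Real.sqrt (L * min 1 |v|)) ≤ E) :
    Continuous (kk2 B r J p) ∧ (∀ v, 0 ≤ kk2 B r J p v) ∧ Integrable (kk2 B r J p) ∧
    ∫ v, kk2 B r J p v ≤ 4 * E * ((1 + 2 * κ) ^ q * cB B (q + 1)) ∧
    Integrable (fun v => kk2 B r J p v * grow L C₁ q v) ∧
    ∫ v, kk2 B r J p v * grow L C₁ q v ≤ 4 * E * ((1 + 2 * κ) ^ q * cB B (q + 1)) := by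
  obtain ⟨i1, i2⟩ := kap_poly (B := B) (k := q) (p := 1) (by omega) hr hr1
    (R := L) (κ := 2 * κ) (by linarith) hκ
  have hE : 0 ≤ E := by
    have h1 := hJ 0
    have h2 : 0 ≤ gev r J 0 ^ p * Real.exp (C₁ * Real.sqrt (L * min 1 |(0 : ℝ)|)) := by
      have := h1.1
      positivity
    exact h2.trans h1.2
  have hkc : Continuous (kk2 B r J p) := by
    unfold kk2
    exact (by fun_prop : Continuous fun v : ℝ => 4 * (1 + |v|)).mul
      ((kap_cont B hr).mul (hJc.pow p))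
  have hk0 : ∀ v, 0 ≤ kk2 B r J p v := by
    intro v
    unfold kk2
    have h1 := kap_nn B hr v
    have h2 := (hJ v).1
    positivity
  have hpt : ∀ v, kk2 B r J p v * grow L C₁ q v ≤
      4 * E * (kap B r v * ((1 + L * |v|) ^ q * (2 + |v|) ^ 1)) := by
    intro v
    unfold kk2 grow
    have h1 := kap_nn B hr v
    obtain ⟨h2, h3⟩ := hJ v
    have h4 : 1 + |v| ≤ 2 + |v| := by linarith
    have h5 : 0 ≤ (1 + L * |v|) ^ q := by positivity
    calc 4 * (1 + |v|) * (kap B r v * gev r J v ^ p) *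
          ((1 + L * |v|) ^ q * Real.exp (C₁ * Real.sqrt (L * min 1 |v|))) =
        4 * (1 + |v|) * kap B r v * (1 + L * |v|) ^ q *
          (gev r J v ^ p * Real.exp (C₁ * Real.sqrt (L * min 1 |v|))) := by ring
      _ ≤ 4 * (2 + |v|) * kap B r v * (1 + L * |v|) ^ q * E := by gcongr
      _ = _ := by rw [pow_one]; ring
  have hg1 := fun v => grow_one (L := L) (ε := C₁) (by linarith) hC₁ q v
  have i3 : Integrable (fun v => kk2 B r J p v * grow L C₁ q v) := by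
    refine (i1.const_mul (4 * E)).mono' (hkc.mul (grow_cont L C₁ q)).aestronglyMeasurable
      (Eventually.of_forall fun v => ?_)
    rw [Real.norm_of_nonneg (mul_nonneg (hk0 v) (zero_le_one.trans (hg1 v)))]
    exact hpt v
  have h6 : ∫ v, kk2 B r J p v * grow L C₁ q v ≤ 4 * E * ((1 + 2 * κ) ^ q * cB B (q + 1)) := by
    refine (integral_mono i3 (i1.const_mul (4 * E)) hpt).trans ?_
    rw [integral_const_mul]
    gcongr
  have hle : ∀ v, kk2 B r J p v ≤ kk2 B r J p v * grow L C₁ q v := fun v =>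
    le_mul_of_one_le_right (hk0 v) (hg1 v)
  have i4 : Integrable (kk2 B r J p) := by
    refine i3.mono' hkc.aestronglyMeasurable (Eventually.of_forall fun v => ?_)
    rw [Real.norm_of_nonneg (hk0 v)]
    exact hle v
  exact ⟨hkc, hk0, i4, (integral_mono i4 i3 hle).trans h6, i3, h6⟩

/-- the functional equation for the squares -/
lemma fe_sq2 {χ : ℕ → ℂ} {F : ℂ → ℂ} {A : ℝ} (hF : TwF χ F A) (hA : 1 ≤ A)
    {T L κ d u v : ℝ} (hT : 10 ≤ T) (hL : L = Real.log T) (hLd : L * d = κ) (hd0 : 0 < d)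
    (hd4 : d ≤ 1 / 4) (hv : |v| ≤ T) (hu : |u| ≤ 5 / 2 * T + |v|) :
    ‖F (pt (1 / 2 - d) u)‖ ^ 2 ≤
      4 * A ^ 2 * Real.exp (2 * κ) * ‖F (pt (1 / 2 + d) u)‖ ^ 2 := by
  have hT0 : 0 < T := by linarith
  have h2 := hF.refl d u hd0.le hd4
  have h4 : (1 + |u|) ^ d ≤ 2 * Real.exp κ := by
    have h5 : 1 + |u| ≤ 5 * T := by linarith
    calc (1 + |u|) ^ d ≤ (5 * T) ^ d := Real.rpow_le_rpow (by positivity) h5 hd0.le
      _ = 5 ^ d * T ^ d := Real.mul_rpow (by norm_num) hT0.le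
      _ ≤ 2 * Real.exp κ := by
          have h6 : (5 : ℝ) ^ d ≤ 2 := by
            calc (5 : ℝ) ^ d ≤ 5 ^ (1 / 4 : ℝ) :=
                  Real.rpow_le_rpow_of_exponent_le (by norm_num) hd4
              _ ≤ 16 ^ (1 / 4 : ℝ) :=
                  Real.rpow_le_rpow (by norm_num) (by norm_num) (by norm_num)
              _ = 2 := by
                  rw [show (16 : ℝ) = 2 ^ (4 : ℝ) by norm_num, ← Real.rpow_mul (by norm_num)]
                  norm_num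
          have h7 : T ^ d = Real.exp κ := by
            rw [Real.rpow_def_of_pos hT0, ← hL, hLd]
          rw [h7]
          gcongr
  have h8 : ‖F (pt (1 / 2 - d) u)‖ ≤
      A * (2 * Real.exp κ) * ‖F (pt (1 / 2 + d) u)‖ := by
    refine h2.trans ?_
    gcongr
  have h9 := pow_le_pow_left₀ (norm_nonneg _) h8 2
  refine h9.trans (le_of_eq ?_)
  rw [two_mul κ, Real.exp_add]
  ring

end Pool.Agent.N802.WD.Boot2N

namespace Pool.Agent.N802.WD

open MeasureTheory Set Filter Topology Complex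
open TC (om om_pos om_cont om_integrable om_le_one om_mul_integrable)
open Pool.Agent.N802 Pool.Agent.N802.U
open Pool.Agent.N786.D (kap kap_nn kap_cont kap_poly cB cB_nn)
open Pool.Agent.R399.TW (pt pt_re pt_im pt_cont)
open BootN Boot2N

/-! ### the theorem -/

theorem boot2 (hcut : S_cut2) (hmsd : S_msd2) (hker : S_ker2) : S_mz2 := by
  intro χ F A₀ hF₀ e hε0 hε4
  obtain ⟨A, hAd⟩ : ∃ A : ℝ, A = max A₀ 1 := ⟨_, rfl⟩
  have hA1 : 1 ≤ A := by rw [hAd]; exact le_max_right _ _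
  have hF : TwF χ F A := TwF_mono hF₀ (by rw [hAd]; exact le_max_left _ _)
  have hA0 : 0 ≤ A := by linarith
  obtain ⟨q, Cg, hCg, hmsd⟩ := hmsd
  obtain ⟨Ck, hCk, hgev⟩ := hker.2
  -- the constants
  obtain ⟨q', hq'⟩ : ∃ q' : ℕ, q' = q + 14 := ⟨_, rfl⟩
  obtain ⟨B, hB⟩ : ∃ B : ℕ, B = q' + 3 := ⟨_, rfl⟩
  obtain ⟨cb, hcb⟩ : ∃ cb : ℝ, cb = cB B (q' + 1) := ⟨_, rfl⟩
  have hcb0 : 0 ≤ cb := by rw [hcb]; exact cB_nn _ _
  obtain ⟨κ, hκ2, hκ⟩ := kappa3 (256 * A ^ 2 * cb ^ 2 * Real.exp (2 * Ck)) (e / 2)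
    (2 * (Ck * Cg)) (2 * q') (by positivity) (by linarith)
  obtain ⟨p, hgev⟩ := hgev (2 * κ) Cg (by linarith) hCg
  obtain ⟨E, hE⟩ : ∃ E : ℝ, E = Real.exp (Ck * (1 + Cg * Real.sqrt (2 * κ))) := ⟨_, rfl⟩
  have hE0 : 0 < E := by rw [hE]; exact Real.exp_pos _
  rw [← hE] at hgev
  obtain ⟨C₁, hC₁, hcut1⟩ := hcut (1 / 2 + e / 4) (1 / 2 + 3 * e / 8) (2 * κ + 1) (q + 4) Cg
    (by linarith) (by linarith) (by linarith) hCg
  obtain ⟨C₂, hC₂, hcut2⟩ := hcut (e / 8) (e / 4) (2 * κ + 1) (q + 4) Cg (by linarith)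
    (by linarith) (by linarith) hCg
  obtain ⟨a, T₀, ha, hT₀, hmsd⟩ := hmsd (1 / 2 + e / 4) (1 / 2 + 3 * e / 8) (e / 8) (e / 4) κ
    (max C₁ C₂) (e / 4) (by linarith) (by linarith) (by linarith) (by linarith)
    (by linarith) (lt_max_of_lt_left hC₁) (by linarith)
  obtain ⟨K0, hK0⟩ : ∃ K0 : ℝ, K0 = 4 * E * ((1 + 2 * κ) ^ q' * cb) := ⟨_, rfl⟩
  have hK00 : 0 ≤ K0 := by rw [hK0]; positivity
  obtain ⟨c1, hc1⟩ : ∃ c1 : ℝ, c1 = 4 * A ^ 2 * Real.exp (2 * κ) := ⟨_, rfl⟩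
  have hc11 : 1 ≤ c1 := by
    rw [hc1]
    exact el4 hA1 hκ2
  obtain ⟨G, hG⟩ : ∃ G : ℝ, G = 16 * A ^ 2 * (9 / 2) ^ 12 := ⟨_, rfl⟩
  have hG0 : 0 ≤ G := by rw [hG]; positivity
  obtain ⟨Fc, hFc⟩ : ∃ Fc : ℝ, Fc = 2 * a + 2 * (c1 * (5 * a + G + 1)) + 2 * G := ⟨_, rfl⟩
  have hF0 : 0 ≤ Fc := by rw [hFc]; positivity
  refine ⟨e / 8, e / 4, 2 * a + 2 * K0 * K0 * Fc, max T₀ (Real.exp (4 * κ)), by linarith,
    by linarith, by linarith, by positivity, hT₀.trans (le_max_left _ _), ?_⟩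
  intro T hT
  have hTT₀ : T₀ ≤ T := (le_max_left _ _).trans hT
  have hT10 : 10 ≤ T := hT₀.trans hTT₀
  have hT0 : 0 < T := by linarith
  obtain ⟨L, hL⟩ : ∃ L : ℝ, L = Real.log T := ⟨_, rfl⟩
  have hLκ : 4 * κ ≤ L := by
    rw [hL, Real.le_log_iff_exp_le hT0]
    exact (le_max_right _ _).trans hT
  have hL1 : 1 ≤ L := by linarith
  have hL0 : 0 < L := by linarith
  have hexpL : Real.exp L = T := by rw [hL, Real.exp_log hT0]
  obtain ⟨V₁, K₁, hV₁⟩ := hcut1 L hL1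
  obtain ⟨V₂, K₂, hV₂⟩ := hcut2 L hL1
  have hV₁' := cutf_mono hV₁ le_rfl (le_max_left C₁ C₂) hC₁.le
  have hV₂' := cutf_mono hV₂ le_rfl (le_max_right C₁ C₂) hC₂.le
  have hb1 : ∀ x, 0 ≤ V₁ x ∧ V₁ x ≤ 1 := fun x => ⟨hV₁.nn x, hV₁.le x⟩
  have hb2 : ∀ x, 0 ≤ V₂ x ∧ V₂ x ≤ 1 := fun x => ⟨hV₂.nn x, hV₂.le x⟩
  rw [← hL]
  refine ⟨V₂, hb2, hV₂.one, hV₂.zero, ?_⟩
  intro N H hN1 hNT hNH S hS r τ x hx
  -- the parameters
  have hTpow : ∀ s : ℝ, 0 ≤ s → 1 ≤ T ^ s := fun s hs => Real.one_le_rpow (by linarith) hs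
  have hNH' : N * T ^ (1 / 2 + 3 * e / 8 + e / 4 + e / 4) ≤ H := by
    refine le_trans ?_ hNH
    have : T ^ (1 / 2 + 3 * e / 8 + e / 4 + e / 4) ≤ T ^ (1 / 2 + e) :=
      Real.rpow_le_rpow_of_exponent_le (by linarith) (by linarith)
    gcongr
  have hNH1 : N ≤ H := by
    refine le_trans ?_ hNH
    exact le_mul_of_one_le_right (by linarith) (hTpow _ (by linarith))
  have hH0 : 0 < H := by linarith
  obtain ⟨M, hM⟩ : ∃ M : ℕ, M = ⌊T ^ (1 / 2 + 3 * e / 8)⌋₊ := ⟨_, rfl⟩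
  obtain ⟨M₂, hM₂⟩ : ∃ M₂ : ℕ, M₂ = ⌊T ^ (e / 4)⌋₊ := ⟨_, rfl⟩
  rw [← hM₂]
  obtain ⟨m, hm⟩ : ∃ m : ℝ, m = mr H S r := ⟨_, rfl⟩
  have hw0 := w1_nonneg S r
  have hsq2 : 1 ≤ Real.sqrt (2 * Real.pi) := by
    rw [Real.one_le_sqrt]
    have := Real.pi_gt_three
    linarith
  have hm1 : N * w1 S r ≤ m := by
    rw [hm]
    unfold mr
    have h1 : N ≤ Real.sqrt (2 * Real.pi) * H := by
      have : 1 * N ≤ Real.sqrt (2 * Real.pi) * H := by gcongr
      linarith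
    gcongr
  have hm0 : 0 ≤ m := le_trans (by positivity) hm1
  rw [← hm]
  obtain ⟨d, hd⟩ : ∃ d : ℝ, d = κ / L := ⟨_, rfl⟩
  have hd0 : 0 < d := by rw [hd]; positivity
  have hd4 : d ≤ 1 / 4 := by rw [hd, div_le_iff₀ hL0]; linarith
  have hLd : L * d = κ := by rw [hd]; field_simp
  have hMlog : ∀ n : ℕ, M < n → (1 / 2 + e / 4) * L ≤ Real.log n := by
    intro n hn
    rw [hM] at hn
    have h1 : T ^ (1 / 2 + 3 * e / 8) < n := Nat.lt_of_floor_lt hn
    have h2 := Real.log_lt_log (by positivity) h1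
    rw [Real.log_rpow hT0, ← hL] at h2
    have h3 : (1 / 2 + e / 4) * L ≤ (1 / 2 + 3 * e / 8) * L := by
      apply mul_le_mul_of_nonneg_right _ hL0.le
      linarith
    linarith
  -- the weight
  set ψ : ℝ → ℝ := fun t => ‖Mx χ V₂ M₂ (pt (1 / 2 - 1 / L) (t + x))‖ with hψ
  have hψc : Continuous ψ := ((Mx_diff χ V₂ M₂).continuous.comp
    ((pt_cont _).comp (by fun_prop))).norm
  have hLinv : 1 / L ≤ 1 / 8 := by
    rw [div_le_div_iff₀ hL0 (by norm_num)]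
    linarith
  have hLinv0 : 0 < 1 / L := by positivity
  have hψb : ∀ t, 0 ≤ ψ t ∧ ψ t ≤ M₂ := fun t => ⟨norm_nonneg _, Mx_norm hF.le hb2 M₂ (by
    rw [pt_re]; linarith)⟩
  set W : ℝ → ℝ := fun t => rh τ H S r t * ψ t ^ 2 with hW
  have hWc : Continuous W := (rh_cont τ H S r).mul (hψc.pow 2)
  have hW0 : ∀ t, 0 ≤ W t := fun t => mul_nonneg (rh_nn _ _ _ _ _) (sq_nonneg _)
  have hWm : ∀ t, W t ≤ N * w1 S r * T := by
    intro t
    have h1 := rh_le (τ := τ) (H := H) hS hN1 r t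
    have h2 : ψ t ^ 2 ≤ T := by
      have h3 : (M₂ : ℝ) ≤ T ^ (e / 4) := by
        rw [hM₂]
        exact Nat.floor_le (by positivity)
      calc ψ t ^ 2 ≤ (T ^ (e / 4)) ^ 2 :=
            pow_le_pow_left₀ (hψb t).1 ((hψb t).2.trans h3) 2
        _ = T ^ (e / 4 * 2) := by
            rw [← Real.rpow_natCast, ← Real.rpow_mul hT0.le]
            norm_num
        _ ≤ T ^ (1 : ℝ) := Real.rpow_le_rpow_of_exponent_le (by linarith) (by linarith)
        _ = T := Real.rpow_one T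
    have h4 := rh_nn τ H S r t
    exact mul_le_mul h1 h2 (sq_nonneg _) (h4.trans h1)
  have hTW : T * (N * w1 S r * T) ≤ T ^ 2 * m := by
    calc T * (N * w1 S r * T) = T ^ 2 * (N * w1 S r) := by ring
      _ ≤ _ := by gcongr
  -- the growth
  set gr : ℝ → ℝ := grow L Cg q' with hgr
  have hgr1 : ∀ v, 1 ≤ gr v := fun v => grow_one hL0.le hCg.le q' v
  have hgrm : ∀ v w, gr (v + w) ≤ gr v * gr w := fun v w => grow_mul hL0.le hCg.le q' v w
  have hgrp : ∀ (v : ℝ) (j : ℕ), j ≤ q' → (1 + |v|) ^ j ≤ gr v := by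
    intro v j hj
    rw [hgr]
    unfold grow
    have h1 : 1 ≤ Real.exp (Cg * Real.sqrt (L * min 1 |v|)) := Real.one_le_exp (by positivity)
    have h2 : 1 + |v| ≤ 1 + L * |v| := el1 hL1 v
    have h3 : 1 ≤ 1 + |v| := le_add_of_nonneg_right (abs_nonneg v)
    calc (1 + |v|) ^ j ≤ (1 + |v|) ^ q' := pow_le_pow_right₀ h3 hj
      _ ≤ (1 + L * |v|) ^ q' := by gcongr
      _ ≤ _ := le_mul_of_one_le_right (by positivity) h1
  -- the functions
  have hzc : ∀ c : ℝ, c ≤ 3 / 4 → Continuous fun w => ‖F (pt c w)‖ := fun c hc =>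
    (F_cont hF hc).norm
  have hDc : ∀ c : ℝ, Continuous fun w => ‖Dx χ V₁ M (pt c w)‖ := fun c =>
    ((Dx_diff χ V₁ M).continuous.comp (pt_cont c)).norm
  -- the mean squares of the Dirichlet polynomials
  have hDb : ∀ k : ℝ, |k| ≤ κ → 0 ≤ 1 / 2 + k / L → ∀ v : ℝ,
      NNw W T (2 * T) (fun t => ‖Dx χ V₁ M (pt (1 / 2 + k / L) (t + (x + v)))‖) ≤
        ENNReal.ofReal (a * gr v * m) := by
    intro k hk hk0 v
    have h1 := hmsd T hTT₀ V₁ V₂ K₁ K₂ (by rw [← hL]; exact hV₁') (by rw [← hL]; exact hV₂')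
      χ hF.mul hF.le N H hN1 hNT hNH' S hS r τ k (-1) hk
      (by rw [abs_neg, abs_one]; linarith) x v
    rw [← hL, ← hM, ← hM₂, ← hm] at h1
    have e1 : (1 / 2 + -1 / L : ℝ) = 1 / 2 - 1 / L := by ring
    rw [e1] at h1
    have h2 : a * grow L Cg q v * m ≤ a * gr v * m := by
      have := grow_mono (ε := Cg) hL0.le (show q ≤ q' by omega) v
      gcongr
    have h3 := h1.trans h2
    refine msd_NN (A := M) (B := M₂) hH0 ((hDc _).comp (by fun_prop)) hψc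
      (fun t => ⟨norm_nonneg _, Dx_norm hF.le hb1 M (by rw [pt_re]; exact hk0)⟩) hψb ?_
    refine le_trans (le_of_eq ?_) h3
    refine integral_congr_ae (Eventually.of_forall fun t => ?_)
    simp only [add_assoc]
    rfl
  have eκ1 : (1 / 2 + κ / L : ℝ) = 1 / 2 + d := by rw [hd]
  have eκ2 : (1 / 2 + -κ / L : ℝ) = 1 / 2 - d := by rw [hd]; ring
  have eκ3 : (1 / 2 + -1 / L : ℝ) = 1 / 2 - 1 / L := by ring
  have hDp1 := hDb κ (by rw [abs_of_pos (by linarith)]) (by rw [eκ1]; linarith)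
  have hDm1 := hDb (-κ) (by rw [abs_neg, abs_of_pos (by linarith)]) (by rw [eκ2]; linarith)
  have hD11 := hDb (-1) (by rw [abs_neg, abs_one]; linarith) (by rw [eκ3]; linarith)
  rw [eκ1] at hDp1
  rw [eκ2] at hDm1
  rw [eκ3] at hD11
  -- kernels
  set a₀ : ℝ := 1 / 2 - d with ha₀
  set b₀ : ℝ := 1 / 2 + d with hb₀
  set b₁ : ℝ := 1 / 2 - 1 / L with hb₁
  have hr1 : b₀ - a₀ = 2 * d := by rw [ha₀, hb₀]; ring
  have hr2 : b₁ - a₀ = d - 1 / L := by rw [ha₀, hb₁]; ring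
  have hd1L : 1 / L < d := by
    rw [hd]
    gcongr
    linarith
  have hr2L : L * (d - 1 / L) = κ - 1 := by
    rw [mul_sub, hLd]
    field_simp
  obtain ⟨J, hJc, hJ⟩ := hgev L (b₀ - a₀) hL1 (by rw [hr1]; linarith) (by
    rw [hr1, hd, ← mul_div_assoc])
  obtain ⟨J', hJ'c, hJ'⟩ := hgev L (b₁ - a₀) hL1 (by rw [hr2]; linarith) (by
    rw [hr2, le_div_iff₀ hL0, mul_comm, hr2L]; linarith)
  obtain ⟨k1, k2, k3, k4, k5, k6⟩ := kk2_facts (κ := κ) (B := B) (q := q') (by omega)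
    (by rw [hr1]; linarith : 0 < b₀ - a₀) (by rw [hr1]; linarith) hL1
    (by rw [hr1]; linarith) hCg.le hJc hJ
  obtain ⟨l1, l2, l3, l4, l5, l6⟩ := kk2_facts (κ := κ) (B := B) (q := q') (by omega)
    (by rw [hr2]; linarith : 0 < b₁ - a₀) (by rw [hr2]; linarith) hL1
    (by rw [hr2, hr2L]; linarith) hCg.le hJ'c hJ'
  rw [← hcb, ← hK0] at k4 k6 l4 l6
  have hmu0 : 0 ≤ (1 / 2 + e / 8) * L := by positivity
  have hmuY : (1 / 2 + e / 8) * L < (1 / 2 + e / 4) * L := by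
    apply mul_lt_mul_of_pos_right _ hL0
    linarith
  have hkz := fun u => kerz2 hker hF hA0 hb1 hmu0 hmuY hV₁.one hMlog (a := a₀) (b := b₀)
    (by linarith) (by linarith) (by linarith) (by linarith) (B := B) (J := J) (p := p)
    (by omega) hJc (fun v => (hJ v).1) u
  have hlz := fun u => kerz2 hker hF hA0 hb1 hmu0 hmuY hV₁.one hMlog (a := a₀) (b := b₁)
    (by linarith) (by linarith) (by linarith) (by linarith) (B := B) (J := J') (p := p)
    (by omega) hJ'c (fun v => (hJ' v).1) u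
  -- the supremum argument
  set f : ℝ → ℝ := fun w => ‖Dx χ V₁ M (pt a₀ w) - F (pt a₀ w)‖ with hf
  have hfc : Continuous f :=
    (((Dx_diff χ V₁ M).continuous.comp (pt_cont a₀)).sub (F_cont hF (by linarith))).norm
  have hff : ∀ u, f u ^ 2 ≤ 2 * ‖Dx χ V₁ M (pt a₀ u)‖ ^ 2 + 2 * ‖F (pt a₀ u)‖ ^ 2 := by
    intro u
    exact el2 (norm_nonneg _) (norm_sub_le (Dx χ V₁ M (pt a₀ u)) (F (pt a₀ u)))
  have hσ2 : Real.exp (-((1 / 2 + e / 8) * L * (b₀ - a₀))) ^ 2 =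
      Real.exp (-((2 + e / 2) * κ)) := by
    rw [← Real.exp_nat_mul, hr1, ← hLd]
    congr 1
    push_cast
    ring
  have habs := el5 hT10 hx
  have hmain := iterA (t₁ := T) (t₂ := 2 * T) hWc hW0 (Lp := fun w => ‖F (pt b₀ w)‖)
    (Lm := fun w => ‖F (pt a₀ w)‖) (Dq := fun w => ‖Dx χ V₁ M (pt b₀ w)‖)
    (Dm := fun w => ‖Dx χ V₁ M (pt a₀ w)‖) (f := f) (k1 := kk2 B (b₀ - a₀) J p) (gr := gr)
    (fun _ => norm_nonneg _) (hzc _ (by linarith)) (hzc _ (by linarith)) (hDc _)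
    (fun _ => norm_nonneg _) (hDc _) hfc (fun _ => norm_nonneg _) k1 k2 k3
    (σ := Real.exp (-((1 / 2 + e / 8) * L * (b₀ - a₀)))) (K0 := K0) (K1 := K0)
    (Real.exp_pos _).le k4
    hkz hgr1 hgrm k5 k6 (a := a) (c1 := c1) (G := G) (S0 := 16 * A ^ 2 * 4 ^ 12 * T ^ 14)
    (m := m) (x := x) ha.le hc11 hG0 (by positivity) hm0 hDp1 hDm1 hff
    (by
      intro v
      rcases le_or_gt |v| T with hv | hv
      · have h1 := NNw_add (t₁ := T) (t₂ := 2 * T) hWc hW0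
          (f := fun t => ‖F (pt a₀ (t + (x + v)))‖)
          (g := fun t => ‖F (pt b₀ (t + (x + v)))‖) (h := fun _ => 0) (p := c1) (q := 0)
          (by linarith) le_rfl ((hzc _ (by linarith)).comp (by fun_prop)) continuous_const (by
            intro t ht
            have h2 := fe_sq2 hF hA1 hT10 hL hLd hd0 hd4 hv (habs t ht v)
            rw [← hc1] at h2
            simp only [zero_mul, add_zero]
            exact h2)
        rw [ENNReal.ofReal_zero, zero_mul, add_zero] at h1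
        exact h1.trans le_self_add
      · refine le_trans ?_ le_add_self
        have hv0 : T ≤ |v| := hv.le
        refine (triv_NN (T := T) (P := 4 * A * (9 / 2 * |v|) ^ 6) hW0 hWm (by
          intro t ht
          refine ⟨norm_nonneg _, ?_⟩
          refine (F_norm hF (by linarith) (by linarith) (t + (x + v))).trans ?_
          have h3 := habs t ht v
          gcongr
          linarith)).trans (ENNReal.ofReal_le_ofReal ?_)
        have h4 : |v| ^ 14 ≤ gr v := by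
          refine le_trans ?_ (hgrp v 14 (by omega))
          gcongr
          linarith
        have h5 : T ^ 2 ≤ |v| ^ 2 := pow_le_pow_left₀ hT0.le hv0 2
        calc T * (N * w1 S r * T) * (4 * A * (9 / 2 * |v|) ^ 6) ^ 2 ≤
            T ^ 2 * m * (4 * A * (9 / 2 * |v|) ^ 6) ^ 2 := by gcongr
          _ ≤ |v| ^ 2 * m * (4 * A * (9 / 2 * |v|) ^ 6) ^ 2 := by gcongr
          _ = 16 * A ^ 2 * (9 / 2) ^ 12 * |v| ^ 14 * m := by ring
          _ ≤ 16 * A ^ 2 * (9 / 2) ^ 12 * gr v * m := by gcongr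
          _ = G * gr v * m := by rw [hG])
    (by
      intro v
      refine (triv_NN (T := T) (P := 4 * A * (4 * T * (1 + |v|)) ^ 6) hW0 hWm (by
        intro t ht
        refine ⟨norm_nonneg _, ?_⟩
        refine (F_norm hF (by linarith) (by linarith) (t + (x + v))).trans ?_
        have h3 := el3 hT10 (habs t ht v)
        gcongr)).trans (ENNReal.ofReal_le_ofReal ?_)
      have h4 := hgrp v 12 (by omega)
      calc T * (N * w1 S r * T) * (4 * A * (4 * T * (1 + |v|)) ^ 6) ^ 2 ≤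
          T ^ 2 * m * (4 * A * (4 * T * (1 + |v|)) ^ 6) ^ 2 := by gcongr
        _ = 16 * A ^ 2 * 4 ^ 12 * T ^ 14 * (1 + |v|) ^ 12 * m := by ring
        _ ≤ 16 * A ^ 2 * 4 ^ 12 * T ^ 14 * gr v * m := by gcongr)
    (by
      rw [hσ2, hK0, hc1]
      have e0 : E * E = Real.exp (2 * Ck) * Real.exp (2 * (Ck * Cg) * Real.sqrt (2 * κ)) := by
        rw [hE, ← Real.exp_add, ← Real.exp_add]
        congr 1
        ring
      have e1 : 4 * Real.exp (-((2 + e / 2) * κ)) * (4 * E * ((1 + 2 * κ) ^ q' * cb)) *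
          (4 * E * ((1 + 2 * κ) ^ q' * cb)) * (4 * A ^ 2 * Real.exp (2 * κ)) =
          256 * A ^ 2 * cb ^ 2 * ((1 + 2 * κ) ^ (2 * q') * (E * E) *
            (Real.exp (-((2 + e / 2) * κ)) * Real.exp (2 * κ))) := by
        rw [two_mul q', pow_add]
        ring
      rw [e1, ← Real.exp_add, e0]
      have e2 : -((2 + e / 2) * κ) + 2 * κ = -(e / 2 * κ) := by ring
      rw [e2]
      refine le_trans (le_of_eq ?_) hκ
      ring)
  obtain ⟨-, hfb⟩ := hmain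
  rw [← hFc] at hfb
  -- the final estimate
  have hfin := stepB (t₁ := T) (t₂ := 2 * T) hWc hW0 (Lp := fun w => ‖F (pt b₁ w)‖)
    (Dq := fun w => ‖Dx χ V₁ M (pt b₁ w)‖) (f := f) (k1 := kk2 B (b₁ - a₀) J' p) (gr := gr)
    (fun _ => norm_nonneg _) (hDc _) (fun _ => norm_nonneg _) hfc (fun _ => norm_nonneg _) l1 l2 l3
    (σ := Real.exp (-((1 / 2 + e / 8) * L * (b₁ - a₀)))) (K0 := K0) (K1 := K0)
    (Real.exp_pos _).le l4
    hlz hgr1 hgrm l5 l6 (a := a) (F := Fc) (m := m) (x := x) ha.le hF0 hm0 0 (hD11 0) hfb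
  have hσ1 : Real.exp (-((1 / 2 + e / 8) * L * (b₁ - a₀))) ^ 2 ≤ 1 := by
    apply pow_le_one₀ (Real.exp_pos _).le
    rw [Real.exp_le_one_iff, neg_nonpos, hr2]
    have : 0 < d - 1 / L := by linarith
    positivity
  have hg0 : gr 0 = 1 := grow_zero q'
  rw [hg0, mul_one, add_zero] at hfin
  have hlast : ENNReal.ofReal (∫ t in Icc T (2 * T), W t * ‖F (pt b₁ (t + x))‖ ^ 2) ≤
      ENNReal.ofReal ((2 * a + 2 * K0 * K0 * Fc) * m) := by
    have hc : Continuous fun t => W t * ‖F (pt b₁ (t + x))‖ ^ 2 :=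
      hWc.mul (((hzc b₁ (by linarith)).comp (by fun_prop : Continuous fun t : ℝ => t + x)).pow 2)
    rw [ofReal_integral_eq_lintegral_ofReal hc.integrableOn_Icc
      (Eventually.of_forall fun t => mul_nonneg (hW0 t) (sq_nonneg _))]
    refine hfin.trans (ENNReal.ofReal_le_ofReal ?_)
    have h1 : 2 * Real.exp (-((1 / 2 + e / 8) * L * (b₁ - a₀))) ^ 2 * K0 * K0 * Fc ≤
        2 * 1 * K0 * K0 * Fc := by
      gcongr
    have h2 : 2 * a + 2 * Real.exp (-((1 / 2 + e / 8) * L * (b₁ - a₀))) ^ 2 * K0 * K0 * Fc ≤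
        2 * a + 2 * K0 * K0 * Fc := by linarith
    gcongr
  rw [ENNReal.ofReal_le_ofReal_iff (by positivity)] at hlast
  rw [intervalIntegral.integral_of_le (by linarith), ← integral_Icc_eq_integral_Ioc]
  refine le_trans (le_of_eq ?_) hlast
  refine integral_congr_ae (Eventually.of_forall fun t => ?_)
  show rh τ H S r t * ‖F (pt b₁ (t + x)) * Mx χ V₂ M₂ (pt b₁ (t + x))‖ ^ 2 =
    rh τ H S r t * ‖Mx χ V₂ M₂ (pt b₁ (t + x))‖ ^ 2 * ‖F (pt b₁ (t + x))‖ ^ 2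
  rw [norm_mul, mul_pow]
  ring

end Pool.Agent.N802.WD
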