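import Pool.Agent.N802.WD.Stm3
import Pool.Agent.N802.WD.BootB

/-!
# Project WD2 (helper802), BOOT2, part A (helper427, after helper247): the twisted series near the
critical line and the kernel
-/

set_option autoImplicit false

namespace Pool.Agent.N802.WD.Boot2N

open MeasureTheory Set Filter Topology Complex
open Pool.Agent.N786.D (kap kap_nn kap_cont kap_poly cB cB_nn)
open Pool.Agent.R399.TW (pt pt_re pt_im pt_cont)
open Pool.Agent.N802.WD.BootN (norm_npow_le)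

theorem Dx_diff (χ : ℕ → ℂ) (V : ℝ → ℝ) (M : ℕ) : Differentiable ℂ (Dx χ V M) := by
  unfold Dx
  refine Differentiable.fun_sum fun n hn => ?_
  have hn0 : (n : ℂ) ≠ 0 := by
    rw [Finset.mem_Icc] at hn
    exact_mod_cast (by omega : n ≠ 0)
  exact (differentiable_const _).mul
    ((differentiable_const _).mul ((differentiable_id.neg).const_cpow (Or.inl hn0)))

theorem Mx_diff (χ : ℕ → ℂ) (V : ℝ → ℝ) (M : ℕ) : Differentiable ℂ (Mx χ V M) := by
  unfold Mx
  refine Differentiable.fun_sum fun n hn => ?_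
  have hn0 : (n : ℂ) ≠ 0 := by
    rw [Finset.mem_Icc] at hn
    exact_mod_cast (by omega : n ≠ 0)
  exact (differentiable_const _).mul ((differentiable_const _).mul
    ((differentiable_const _).mul ((differentiable_id.neg).const_cpow (Or.inl hn0))))

theorem Dx_norm {χ : ℕ → ℂ} (hχ : ∀ n, ‖χ n‖ ≤ 1) {V : ℝ → ℝ} (hV : ∀ x, 0 ≤ V x ∧ V x ≤ 1)
    (M : ℕ) {z : ℂ} (hz : 0 ≤ z.re) : ‖Dx χ V M z‖ ≤ M := by
  unfold Dx
  refine (norm_sum_le _ _).trans ?_
  have h : ∀ n ∈ Finset.Icc 1 M, ‖χ n * ((V (Real.log n) : ℂ) * (n : ℂ) ^ (-z))‖ ≤ 1 := by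
    intro n hn
    rw [Finset.mem_Icc] at hn
    rw [norm_mul, norm_mul, Complex.norm_real, Real.norm_of_nonneg (hV _).1]
    exact mul_le_one₀ (hχ n) (by have := (hV (Real.log n)).1; positivity)
      (mul_le_one₀ (hV _).2 (norm_nonneg _) (norm_npow_le hn.1 hz))
  refine (Finset.sum_le_sum h).trans (le_of_eq ?_)
  rw [Finset.sum_const, Nat.card_Icc, nsmul_eq_mul, mul_one, Nat.add_sub_cancel]

theorem Mx_norm {χ : ℕ → ℂ} (hχ : ∀ n, ‖χ n‖ ≤ 1) {V : ℝ → ℝ} (hV : ∀ x, 0 ≤ V x ∧ V x ≤ 1)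
    (M : ℕ) {z : ℂ} (hz : 0 ≤ z.re) : ‖Mx χ V M z‖ ≤ M := by
  unfold Mx
  refine (norm_sum_le _ _).trans ?_
  have h : ∀ n ∈ Finset.Icc 1 M, ‖((ArithmeticFunction.moebius n : ℤ) : ℂ) *
      (χ n * ((V (Real.log n) : ℂ) * (n : ℂ) ^ (-z)))‖ ≤ 1 := by
    intro n hn
    rw [Finset.mem_Icc] at hn
    rw [norm_mul, norm_mul, norm_mul, Complex.norm_real, Real.norm_of_nonneg (hV _).1]
    have h1 : ‖((ArithmeticFunction.moebius n : ℤ) : ℂ)‖ ≤ 1 := by
      rw [Complex.norm_intCast]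
      exact_mod_cast ArithmeticFunction.abs_moebius_le_one (n := n)
    have h2 := (hV (Real.log n)).1
    exact mul_le_one₀ h1 (by positivity) (mul_le_one₀ (hχ n) (by positivity)
      (mul_le_one₀ (hV _).2 (norm_nonneg _) (norm_npow_le hn.1 hz)))
  refine (Finset.sum_le_sum h).trans (le_of_eq ?_)
  rw [Finset.sum_const, Nat.card_Icc, nsmul_eq_mul, mul_one, Nat.add_sub_cancel]

/-- a larger constant -/
theorem TwF_mono {χ : ℕ → ℂ} {F : ℂ → ℂ} {A A' : ℝ} (hF : TwF χ F A) (hA : A ≤ A') :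
    TwF χ F A' := by
  refine ⟨hF.mul, hF.one, hF.le, hF.ent, hF.ser, fun s h1 h2 => (hF.gr s h1 h2).trans ?_,
    fun d u h1 h2 => (hF.refl d u h1 h2).trans ?_⟩
  · have := abs_nonneg s.im
    gcongr
  · have := abs_nonneg u
    gcongr

/-- points on a line -/
theorem pt_ne {c : ℝ} (hc : c ≤ 3 / 4) (w : ℝ) : pt c w ≠ 1 := by
  intro h
  have := congrArg Complex.re h
  rw [pt_re, Complex.one_re] at this
  linarith

theorem pt_sub_norm {c : ℝ} (hc : c ≤ 3 / 4) (w : ℝ) : 1 / 4 ≤ ‖pt c w - 1‖ := by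
  have h := Complex.abs_re_le_norm (pt c w - 1)
  rw [Complex.sub_re, pt_re, Complex.one_re] at h
  have h2 : -(c - 1) ≤ |c - 1| := neg_le_abs _
  linarith

theorem F_cont {χ : ℕ → ℂ} {F : ℂ → ℂ} {A : ℝ} (hF : TwF χ F A) {c : ℝ} (hc : c ≤ 3 / 4) :
    Continuous fun w => F (pt c w) := by
  obtain ⟨G, hGd, hG⟩ := hF.ent
  have e : (fun w => F (pt c w)) = fun w => G (pt c w) / (pt c w - 1) := by
    funext w
    rw [hG _ (pt_ne hc w), mul_div_cancel_left₀ _ (sub_ne_zero.2 (pt_ne hc w))]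
  rw [e]
  exact (hGd.continuous.comp (pt_cont c)).div ((pt_cont c).sub continuous_const)
    fun w => sub_ne_zero.2 (pt_ne hc w)

theorem F_norm {χ : ℕ → ℂ} {F : ℂ → ℂ} {A : ℝ} (hF : TwF χ F A) {c : ℝ} (hc1 : 1 / 4 ≤ c)
    (hc : c ≤ 3 / 4) (u : ℝ) : ‖F (pt c u)‖ ≤ 4 * A * (1 + |u|) ^ 6 := by
  have h1 := hF.gr (pt c u) (by rw [pt_re]; exact hc1) (by rw [pt_re]; linarith)
  rw [norm_mul, pt_im] at h1
  have h2 := pt_sub_norm hc u
  have h3 : 1 / 4 * ‖F (pt c u)‖ ≤ ‖pt c u - 1‖ * ‖F (pt c u)‖ := by gcongr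
  linarith

/-- to the right of `2` -/
theorem tail_bd2 {χ : ℕ → ℂ} {F : ℂ → ℂ} {A : ℝ} (hF : TwF χ F A) {V : ℝ → ℝ}
    (hV : ∀ x, 0 ≤ V x ∧ V x ≤ 1) {M : ℕ} {Y : ℝ}
    (hV1 : ∀ x, x ≤ Y → V x = 1) (hM : ∀ n : ℕ, M < n → Y ≤ Real.log n) {z : ℂ} (hz : 2 ≤ z.re) :
    ‖Dx χ V M z - F z‖ ≤ (∑' n : ℕ, 1 / (n : ℝ) ^ 2) * Real.exp (-(Y * (z.re - 2))) := by
  have h1 : HasSum (fun n : ℕ => if n ∈ Finset.Icc 1 M then
      χ n * ((V (Real.log n) : ℂ) * (n : ℂ) ^ (-z)) else 0) (Dx χ V M z) := by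
    have h2 : HasSum (fun n : ℕ => if n ∈ Finset.Icc 1 M then
        χ n * ((V (Real.log n) : ℂ) * (n : ℂ) ^ (-z)) else 0)
        (∑ n ∈ Finset.Icc 1 M, (if n ∈ Finset.Icc 1 M then
          χ n * ((V (Real.log n) : ℂ) * (n : ℂ) ^ (-z)) else 0)) :=
      hasSum_sum_of_ne_finset_zero fun n hn => if_neg hn
    have e : ∑ n ∈ Finset.Icc 1 M, (if n ∈ Finset.Icc 1 M then
        χ n * ((V (Real.log n) : ℂ) * (n : ℂ) ^ (-z)) else 0) = Dx χ V M z := by
      unfold Dx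
      exact Finset.sum_congr rfl fun n hn => if_pos hn
    rwa [e] at h2
  have h3 := h1.sub (hF.ser z (by linarith))
  have h4 : HasSum (fun n : ℕ => 1 / (n : ℝ) ^ 2 * Real.exp (-(Y * (z.re - 2))))
      ((∑' n : ℕ, 1 / (n : ℝ) ^ 2) * Real.exp (-(Y * (z.re - 2)))) :=
    (Real.summable_one_div_nat_pow.2 one_lt_two).hasSum.mul_right _
  rw [← h3.tsum_eq]
  refine tsum_of_norm_bounded h4 fun n => ?_
  rcases Nat.eq_zero_or_pos n with rfl | hn
  · have hz0 : -z ≠ 0 := by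
      intro h
      have := congrArg Complex.re h
      rw [Complex.neg_re, Complex.zero_re] at this
      linarith
    simp only [Finset.mem_Icc, Nat.le_zero, Nat.cast_zero, zero_le, and_true]
    rw [Complex.zero_cpow hz0]
    simp
  · have hn1 : (0 : ℝ) < n := by exact_mod_cast hn
    obtain ⟨c, hc⟩ : ∃ c : ℝ, c = if n ∈ Finset.Icc 1 M then V (Real.log n) else 0 := ⟨_, rfl⟩
    have hc0 : 0 ≤ c ∧ c ≤ 1 := by
      rw [hc]
      split_ifs
      · exact hV _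
      · norm_num
    have hc1 : c ≠ 1 → Y ≤ Real.log n := by
      intro hcn
      by_contra hcon
      push Not at hcon
      apply hcn
      have h5 : n ≤ M := by
        by_contra h
        push Not at h
        exact absurd (hM n h) (not_le.2 hcon)
      rw [hc, if_pos (Finset.mem_Icc.2 ⟨hn, h5⟩), hV1 _ hcon.le]
    have e : (if n ∈ Finset.Icc 1 M then χ n * ((V (Real.log n) : ℂ) * (n : ℂ) ^ (-z)) else 0) -
        χ n * (n : ℂ) ^ (-z) = χ n * (((c - 1 : ℝ) : ℂ) * (n : ℂ) ^ (-z)) := by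
      rw [hc]
      split_ifs
      · push_cast; ring
      · push_cast; ring
    rw [e, norm_mul, norm_mul, Complex.norm_real, Complex.norm_natCast_cpow_of_pos hn,
      Complex.neg_re]
    by_cases h5 : c = 1
    · rw [h5, sub_self, norm_zero, zero_mul, mul_zero]
      positivity
    · have h6 := hc1 h5
      have h7 : ‖c - 1‖ ≤ 1 := by
        rw [Real.norm_eq_abs, abs_le]
        constructor <;> linarith [hc0.1, hc0.2]
      have h8 : (n : ℝ) ^ (-z.re) = 1 / (n : ℝ) ^ 2 *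
          Real.exp (-(Real.log n * (z.re - 2))) := by
        have e4 : -z.re = -2 + -(z.re - 2) := by ring
        rw [e4, Real.rpow_add hn1, Real.rpow_def_of_pos hn1 (-(z.re - 2))]
        have e5 : (n : ℝ) ^ (-2 : ℝ) = 1 / (n : ℝ) ^ 2 := by
          rw [Real.rpow_neg hn1.le, one_div]
          norm_cast
        rw [e5]
        congr 2
        ring
      rw [h8]
      calc ‖χ n‖ * (‖c - 1‖ * (1 / (n : ℝ) ^ 2 * Real.exp (-(Real.log n * (z.re - 2))))) ≤
          1 * (1 * (1 / (n : ℝ) ^ 2 * Real.exp (-(Y * (z.re - 2))))) := by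
            have h9 : 0 ≤ z.re - 2 := by linarith
            have h10 := hF.le n
            gcongr
        _ = _ := by rw [one_mul, one_mul]

/-- the growth of `(z - 1) (D(z) - F(z))` -/
theorem growth2 {χ : ℕ → ℂ} {F : ℂ → ℂ} {A : ℝ} (hF : TwF χ F A) {G : ℂ → ℂ}
    (hG : ∀ s : ℂ, s ≠ 1 → G s = (s - 1) * F s) (hA : 0 ≤ A) {V : ℝ → ℝ}
    (hV : ∀ x, 0 ≤ V x ∧ V x ≤ 1) {M : ℕ} {Y lam : ℝ} (hlam : 0 ≤ lam) (hY : lam < Y)
    (hV1 : ∀ x, x ≤ Y → V x = 1) (hM : ∀ n : ℕ, M < n → Y ≤ Real.log n) :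
    ∃ K : ℝ, ∀ z : ℂ, 1 / 4 ≤ z.re → ‖(z - 1) * Dx χ V M z - G z‖ ≤
      K * (1 + |z.im|) ^ 6 * Real.exp (-(lam * z.re)) := by
  obtain ⟨C2, hC2⟩ : ∃ C2 : ℝ, C2 = ∑' n : ℕ, 1 / (n : ℝ) ^ 2 := ⟨_, rfl⟩
  have hC20 : 0 ≤ C2 := by rw [hC2]; exact tsum_nonneg fun n => by positivity
  have hd : 0 < Y - lam := by linarith
  refine ⟨(M + (A + ‖G 1‖)) * Real.exp (2 * lam) +
    (1 + 1 / (Y - lam)) * C2 * Real.exp (2 * Y), ?_⟩
  intro z hz
  have ht := abs_nonneg z.im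
  have hpow : (1 + |z.im|) ≤ (1 + |z.im|) ^ 6 := le_self_pow₀ (by linarith) (by norm_num)
  rcases le_or_gt z.re 2 with h2 | h2
  · have h1 : ‖z - 1‖ ≤ 1 + |z.im| := by
      have h3 := Complex.norm_le_abs_re_add_abs_im (z - 1)
      rw [Complex.sub_re, Complex.one_re, Complex.sub_im, Complex.one_im, sub_zero] at h3
      have h4 : |z.re - 1| ≤ 1 := by rw [abs_le]; constructor <;> linarith
      linarith
    have hD := Dx_norm hF.le hV M (z := z) (by linarith)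
    have hZ : ‖G z‖ ≤ (A + ‖G 1‖) * (1 + |z.im|) ^ 6 := by
      by_cases hz1 : z = 1
      · rw [hz1]
        have h5 : 1 ≤ (1 + |(1 : ℂ).im|) ^ 6 := by simp
        have h6 := norm_nonneg (G 1)
        calc ‖G 1‖ ≤ (A + ‖G 1‖) * 1 := by linarith
          _ ≤ _ := by gcongr
      · rw [hG z hz1]
        refine (hF.gr z hz (by linarith)).trans ?_
        have h6 := norm_nonneg (G 1)
        gcongr
        linarith
    have h8 : ‖(z - 1) * Dx χ V M z - G z‖ ≤ (M + (A + ‖G 1‖)) * (1 + |z.im|) ^ 6 := by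
      refine (norm_sub_le _ _).trans ?_
      rw [norm_mul]
      have hM0 : (0 : ℝ) ≤ M := Nat.cast_nonneg M
      have h9 : ‖z - 1‖ * ‖Dx χ V M z‖ ≤ (1 + |z.im|) ^ 6 * M := by
        refine mul_le_mul (h1.trans hpow) hD (norm_nonneg _) (by positivity)
      linarith
    have h11 : 1 ≤ Real.exp (2 * lam) * Real.exp (-(lam * z.re)) := by
      rw [← Real.exp_add]
      apply Real.one_le_exp
      nlinarith
    have h12 : 0 ≤ ((M : ℝ) + (A + ‖G 1‖)) * (1 + |z.im|) ^ 6 := by positivity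
    have h13 : 0 ≤ (1 + 1 / (Y - lam)) * C2 * Real.exp (2 * Y) * (1 + |z.im|) ^ 6 *
        Real.exp (-(lam * z.re)) := by positivity
    calc ‖(z - 1) * Dx χ V M z - G z‖ ≤ (M + (A + ‖G 1‖)) * (1 + |z.im|) ^ 6 := h8
      _ ≤ (M + (A + ‖G 1‖)) * (1 + |z.im|) ^ 6 *
          (Real.exp (2 * lam) * Real.exp (-(lam * z.re))) :=
          le_mul_of_one_le_right h12 h11
      _ ≤ (M + (A + ‖G 1‖)) * (1 + |z.im|) ^ 6 *
          (Real.exp (2 * lam) * Real.exp (-(lam * z.re))) +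
          (1 + 1 / (Y - lam)) * C2 * Real.exp (2 * Y) * (1 + |z.im|) ^ 6 *
            Real.exp (-(lam * z.re)) := by linarith
      _ = _ := by ring
  · have hz1 : z ≠ 1 := by
      rintro rfl
      norm_num at h2
    have e : (z - 1) * Dx χ V M z - G z = (z - 1) * (Dx χ V M z - F z) := by
      rw [hG z hz1]; ring
    rw [e, norm_mul]
    have h1 := tail_bd2 hF hV hV1 hM h2.le
    rw [← hC2] at h1
    have h3 : ‖z - 1‖ ≤ (1 + z.re) * (1 + |z.im|) := by
      have h3 := Complex.norm_le_abs_re_add_abs_im (z - 1)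
      rw [Complex.sub_re, Complex.one_re, Complex.sub_im, Complex.one_im, sub_zero,
        abs_of_nonneg (by linarith : 0 ≤ z.re - 1)] at h3
      nlinarith
    have h4 : 1 + z.re ≤ (1 + 1 / (Y - lam)) * Real.exp ((Y - lam) * z.re) := by
      have h5 := Real.add_one_le_exp ((Y - lam) * z.re)
      have h6 : 1 + z.re ≤ (1 + 1 / (Y - lam)) * ((Y - lam) * z.re + 1) := by
        have e6 : (1 + 1 / (Y - lam)) * ((Y - lam) * z.re + 1) =
            (Y - lam) * z.re + 1 + z.re + 1 / (Y - lam) := by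
          field_simp
          ring
        rw [e6]
        have h7 : 0 ≤ 1 / (Y - lam) := by positivity
        nlinarith
      refine h6.trans ?_
      gcongr
    have h5 : Real.exp (-(Y * (z.re - 2))) = Real.exp (2 * Y) * Real.exp (-(Y * z.re)) := by
      rw [← Real.exp_add]; congr 1; ring
    have h6 : Real.exp ((Y - lam) * z.re) * Real.exp (-(Y * z.re)) =
        Real.exp (-(lam * z.re)) := by
      rw [← Real.exp_add]; congr 1; ring
    rw [h5] at h1
    calc ‖z - 1‖ * ‖Dx χ V M z - F z‖ ≤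
        (((1 + 1 / (Y - lam)) * Real.exp ((Y - lam) * z.re)) * (1 + |z.im|) ^ 6) *
          (C2 * (Real.exp (2 * Y) * Real.exp (-(Y * z.re)))) := by
          refine mul_le_mul (h3.trans ?_) h1 (norm_nonneg _) (by positivity)
          gcongr
      _ = (1 + 1 / (Y - lam)) * C2 * Real.exp (2 * Y) * (1 + |z.im|) ^ 6 *
          (Real.exp ((Y - lam) * z.re) * Real.exp (-(Y * z.re))) := by ring
      _ = (1 + 1 / (Y - lam)) * C2 * Real.exp (2 * Y) * (1 + |z.im|) ^ 6 *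
          Real.exp (-(lam * z.re)) := by rw [h6]
      _ ≤ _ := by
          have : 0 ≤ ((M : ℝ) + (A + ‖G 1‖)) * Real.exp (2 * lam) * (1 + |z.im|) ^ 6 *
            Real.exp (-(lam * z.re)) := by positivity
          linarith

/-- the kernel -/
noncomputable def kk2 (B : ℕ) (r : ℝ) (J p : ℕ) (v : ℝ) : ℝ :=
  4 * (1 + |v|) * (kap B r v * gev r J v ^ p)

/-- the kernel inequality -/
theorem kerz2 (hker : S_ker2) {χ : ℕ → ℂ} {F : ℂ → ℂ} {A : ℝ} (hF : TwF χ F A) (hA : 0 ≤ A)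
    {V : ℝ → ℝ} (hV : ∀ x, 0 ≤ V x ∧ V x ≤ 1) {M : ℕ} {Y mu : ℝ} (hmu : 0 ≤ mu) (hmY : mu < Y)
    (hV1 : ∀ x, x ≤ Y → V x = 1)
    (hM : ∀ n : ℕ, M < n → Y ≤ Real.log n) {a b : ℝ} (ha : 1 / 4 ≤ a) (ha2 : a ≤ 1 / 2)
    (hab : a < b) (hb : b ≤ 3 / 4) {B J p : ℕ} (hB : 5 ≤ B) (hJc : Continuous (gev (b - a) J))
    (hJ0 : ∀ v, 0 ≤ gev (b - a) J v) (u : ℝ) :
    Integrable (fun v => ‖Dx χ V M (pt a (u + v)) - F (pt a (u + v))‖ *
      kk2 B (b - a) J p v) ∧
    ‖F (pt b u)‖ ≤ ‖Dx χ V M (pt b u)‖ + Real.exp (-(mu * (b - a))) *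
      ∫ v, ‖Dx χ V M (pt a (u + v)) - F (pt a (u + v))‖ * kk2 B (b - a) J p v := by
  obtain ⟨G, hGd, hGe⟩ := hF.ent
  obtain ⟨K, hK⟩ := growth2 hF hGe hA hV (M := M) (Y := Y) (lam := (mu + Y) / 2) (by linarith)
    (by linarith) hV1 hM
  have hr : 0 < b - a := by linarith
  have hdiff : Differentiable ℂ fun z => (z - 1) * Dx χ V M z - G z :=
    ((differentiable_id.sub_const 1).mul (Dx_diff χ V M)).sub hGd
  obtain ⟨hker1, -⟩ := hker
  obtain ⟨i1, i2⟩ := hker1 hdiff (a := a) (μ := mu) (lam := (mu + Y) / 2) (G := K)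
    (m := 6) (B := B) J p (by omega) (by linarith) (fun z hz => hK z (by linarith)) (s := pt b u)
    (by rw [pt_re]; exact hab)
  rw [pt_re, pt_im] at i1 i2
  have hg : ∀ c w : ℝ, c ≤ 3 / 4 → ‖(pt c w - 1) * Dx χ V M (pt c w) - G (pt c w)‖ =
      ‖pt c w - 1‖ * ‖Dx χ V M (pt c w) - F (pt c w)‖ := by
    intro c w hc
    rw [hGe _ (pt_ne hc w), ← mul_sub, norm_mul]
  have hb1 : 1 / 4 ≤ ‖pt b u - 1‖ := pt_sub_norm hb u
  have hup : ∀ v : ℝ, ‖pt a (u + v) - 1‖ ≤ 4 * (1 + |v|) * ‖pt b u - 1‖ := by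
    intro v
    have e : pt a (u + v) - 1 = (pt b u - 1) + (((a - b : ℝ) : ℂ) + (v : ℂ) * I) := by
      unfold pt; push_cast; ring
    have h1 : ‖((a - b : ℝ) : ℂ) + (v : ℂ) * I‖ ≤ (b - a) + |v| := by
      refine (norm_add_le _ _).trans ?_
      rw [norm_mul, Complex.norm_I, mul_one, Complex.norm_real, Complex.norm_real,
        Real.norm_eq_abs, Real.norm_eq_abs, abs_sub_comm, abs_of_pos hr]
    rw [e]
    refine (norm_add_le _ _).trans ?_
    have := abs_nonneg v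
    nlinarith
  have hlow : ∀ v : ℝ, 4 * (1 + |v|) ≤ 12 * (1 + |u|) * ‖pt a (u + v) - 1‖ := by
    intro v
    have h1 : 1 / 2 ≤ ‖pt a (u + v) - 1‖ := by
      have h := Complex.abs_re_le_norm (pt a (u + v) - 1)
      rw [Complex.sub_re, pt_re, Complex.one_re] at h
      have h2 : -(a - 1) ≤ |a - 1| := neg_le_abs _
      linarith
    have h2 : |u + v| ≤ ‖pt a (u + v) - 1‖ := by
      have h := Complex.abs_im_le_norm (pt a (u + v) - 1)
      rwa [Complex.sub_im, pt_im, Complex.one_im, sub_zero] at h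
    have h3 : |v| ≤ |u| + |u + v| := by
      have := abs_sub (u + v) u
      rw [add_sub_cancel_left] at this
      linarith
    have h4 := abs_nonneg u
    have h5 := abs_nonneg (u + v)
    nlinarith
  set f : ℝ → ℝ := fun w => ‖Dx χ V M (pt a w) - F (pt a w)‖ with hf
  have hfc : Continuous f :=
    (((Dx_diff χ V M).continuous.comp (pt_cont a)).sub (F_cont hF (by linarith))).norm
  have hkc : Continuous (kk2 B (b - a) J p) := by
    unfold kk2
    exact (by fun_prop : Continuous fun v : ℝ => 4 * (1 + |v|)).mul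
      ((kap_cont B hr).mul (hJc.pow p))
  have hk0 : ∀ v, 0 ≤ kap B (b - a) v * gev (b - a) J v ^ p := fun v =>
    mul_nonneg (kap_nn B hr v) (pow_nonneg (hJ0 v) p)
  have hint : Integrable (fun v => f (u + v) * kk2 B (b - a) J p v) := by
    refine (i1.const_mul (12 * (1 + |u|))).mono'
      ((hfc.comp (by fun_prop)).mul hkc).aestronglyMeasurable (Eventually.of_forall fun v => ?_)
    rw [hg a (u + v) (by linarith)]
    have hfv : 0 ≤ f (u + v) := norm_nonneg _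
    have h1 := hk0 v
    have h2 := hlow v
    unfold kk2
    rw [Real.norm_of_nonneg (by positivity)]
    calc f (u + v) * (4 * (1 + |v|) * (kap B (b - a) v * gev (b - a) J v ^ p)) ≤
        f (u + v) * (12 * (1 + |u|) * ‖pt a (u + v) - 1‖ *
          (kap B (b - a) v * gev (b - a) J v ^ p)) := by gcongr
      _ = _ := by rw [hf]; ring
  refine ⟨hint, ?_⟩
  have h1 : ‖F (pt b u)‖ ≤ ‖Dx χ V M (pt b u)‖ +
      ‖Dx χ V M (pt b u) - F (pt b u)‖ := by
    have := norm_sub_norm_le (F (pt b u)) (Dx χ V M (pt b u))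
    rw [norm_sub_rev] at this
    linarith
  refine h1.trans (add_le_add le_rfl ?_)
  rw [hg b u hb] at i2
  have hpos : 0 < ‖pt b u - 1‖ := by linarith
  have h2 : ∫ v, ‖(pt a (u + v) - 1) * Dx χ V M (pt a (u + v)) - G (pt a (u + v))‖ *
      (kap B (b - a) v * gev (b - a) J v ^ p) ≤
      ‖pt b u - 1‖ * ∫ v, f (u + v) * kk2 B (b - a) J p v := by
    rw [← integral_const_mul]
    refine integral_mono i1 (hint.const_mul _) fun v => ?_
    simp only
    rw [hg a (u + v) (by linarith)]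
    have hfv : 0 ≤ f (u + v) := norm_nonneg _
    have h3 := hk0 v
    have h4 := hup v
    unfold kk2
    calc ‖pt a (u + v) - 1‖ * ‖Dx χ V M (pt a (u + v)) - F (pt a (u + v))‖ *
          (kap B (b - a) v * gev (b - a) J v ^ p) ≤
        (4 * (1 + |v|) * ‖pt b u - 1‖) * ‖Dx χ V M (pt a (u + v)) - F (pt a (u + v))‖ *
          (kap B (b - a) v * gev (b - a) J v ^ p) := by gcongr
      _ = _ := by rw [hf]; ring
  have h5 := i2.trans (mul_le_mul_of_nonneg_left h2 (Real.exp_pos _).le)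
  refine le_of_mul_le_mul_left ?_ hpos
  calc ‖pt b u - 1‖ * ‖Dx χ V M (pt b u) - F (pt b u)‖ ≤
      Real.exp (-(mu * (b - a))) *
        (‖pt b u - 1‖ * ∫ v, f (u + v) * kk2 B (b - a) J p v) := h5
    _ = _ := by ring

end Pool.Agent.N802.WD.Boot2N
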