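import Pool.Agent.N786.D.Sup

/-!
# Project WD (helper802), BOOT, part A (helper247): the abstract supremum argument with a weight
(after helper786)
-/

set_option autoImplicit false

namespace Pool.Agent.N802.WD.BootN

open MeasureTheory Set Filter Topology
open Pool.Agent.N786.D (csE)

/-- the weighted mean square over `[t₁, t₂]` -/
noncomputable def NNw (W : ℝ → ℝ) (t₁ t₂ : ℝ) (g : ℝ → ℝ) : ENNReal :=
  ∫⁻ t in Icc t₁ t₂, ENNReal.ofReal (W t * g t ^ 2)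

section

variable {W : ℝ → ℝ} {t₁ t₂ : ℝ}

theorem NNw_add (hWc : Continuous W) (hW0 : ∀ t, 0 ≤ W t) {f g h : ℝ → ℝ} {p q : ℝ}
    (hp : 0 ≤ p) (hq : 0 ≤ q) (hg : Continuous g) (hh : Continuous h)
    (hf : ∀ t ∈ Icc t₁ t₂, f t ^ 2 ≤ p * g t ^ 2 + q * h t ^ 2) :
    NNw W t₁ t₂ f ≤ ENNReal.ofReal p * NNw W t₁ t₂ g + ENNReal.ofReal q * NNw W t₁ t₂ h := by
  unfold NNw
  have m1 : Measurable fun t : ℝ => ENNReal.ofReal (W t * g t ^ 2) :=
    (hWc.mul (hg.pow 2)).measurable.ennreal_ofReal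
  have m2 : Measurable fun t : ℝ => ENNReal.ofReal (W t * h t ^ 2) :=
    (hWc.mul (hh.pow 2)).measurable.ennreal_ofReal
  have e : ∀ t ∈ Icc t₁ t₂, ENNReal.ofReal (W t * f t ^ 2) ≤
      ENNReal.ofReal p * ENNReal.ofReal (W t * g t ^ 2) +
        ENNReal.ofReal q * ENNReal.ofReal (W t * h t ^ 2) := by
    intro t ht
    have := hW0 t
    rw [← ENNReal.ofReal_mul hp, ← ENNReal.ofReal_mul hq,
      ← ENNReal.ofReal_add (by positivity) (by positivity)]
    refine ENNReal.ofReal_le_ofReal ?_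
    have h1 := mul_le_mul_of_nonneg_left (hf t ht) this
    linarith
  refine (setLIntegral_mono' measurableSet_Icc e).trans (le_of_eq ?_)
  rw [lintegral_add_left (m1.const_mul _), lintegral_const_mul _ m1, lintegral_const_mul _ m2]

/-- one step of the iteration: Cauchy-Schwarz and Tonelli -/
theorem stepA (hWc : Continuous W) (hW0 : ∀ t, 0 ≤ W t) {Lp Dq f k1 : ℝ → ℝ}
    (hL0 : ∀ u, 0 ≤ Lp u) (hDc : Continuous Dq) (hD0 : ∀ u, 0 ≤ Dq u) (hfc : Continuous f)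
    (hf0 : ∀ u, 0 ≤ f u) (hkc : Continuous k1) (hk0 : ∀ v, 0 ≤ k1 v) (hki : Integrable k1)
    {σ K0 : ℝ} (hσ : 0 ≤ σ) (hK0 : ∫ v, k1 v ≤ K0)
    (h : ∀ u, Integrable (fun v => f (u + v) * k1 v) ∧ Lp u ≤ Dq u + σ * ∫ v, f (u + v) * k1 v)
    (y : ℝ) :
    NNw W t₁ t₂ (fun t => Lp (t + y)) ≤ ENNReal.ofReal 2 * NNw W t₁ t₂ (fun t => Dq (t + y)) +
      ENNReal.ofReal (2 * σ ^ 2 * K0) *
        ∫⁻ v, ENNReal.ofReal (k1 v) * NNw W t₁ t₂ (fun t => f (t + (y + v))) := by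
  have hK00 : 0 ≤ K0 := (integral_nonneg hk0).trans hK0
  -- the pointwise bound
  have hpt : ∀ t : ℝ, ENNReal.ofReal (W t * Lp (t + y) ^ 2) ≤
      ENNReal.ofReal 2 * ENNReal.ofReal (W t * Dq (t + y) ^ 2) +
      ENNReal.ofReal (2 * σ ^ 2 * K0) *
        ∫⁻ v, ENNReal.ofReal (k1 v * (W t * f (t + (y + v)) ^ 2)) := by
    intro t
    have hWt := hW0 t
    obtain ⟨i1, i2⟩ := h (t + y)
    obtain ⟨Z, hZ⟩ : ∃ Z : ℝ, Z = ∫ v : ℝ, f (t + y + v) * k1 v := ⟨_, rfl⟩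
    have hcs := csE (f := fun v => f (t + y + v)) (w := k1) (hfc.comp (by fun_prop))
      (fun v => hf0 _) hk0 hki hkc i1
    rw [← hZ] at hcs i2
    have hZ0 : 0 ≤ Z := by
      rw [hZ]; exact integral_nonneg fun v => mul_nonneg (hf0 _) (hk0 v)
    have e1 : W t * Lp (t + y) ^ 2 ≤ 2 * (W t * Dq (t + y) ^ 2) + 2 * σ ^ 2 * (W t * Z ^ 2) := by
      have e2 : Lp (t + y) ^ 2 ≤ (Dq (t + y) + σ * Z) ^ 2 := pow_le_pow_left₀ (hL0 _) i2 2
      have e3 : (Dq (t + y) + σ * Z) ^ 2 ≤ 2 * Dq (t + y) ^ 2 + 2 * σ ^ 2 * Z ^ 2 := by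
        nlinarith [sq_nonneg (Dq (t + y) - σ * Z)]
      have e4 := mul_le_mul_of_nonneg_left (e2.trans e3) hWt
      linarith
    refine (ENNReal.ofReal_le_ofReal e1).trans ?_
    rw [ENNReal.ofReal_add (by positivity) (by positivity), ENNReal.ofReal_mul (by norm_num)]
    refine add_le_add le_rfl ?_
    have e5 : ∫⁻ v, ENNReal.ofReal (k1 v * (W t * f (t + (y + v)) ^ 2)) =
        (∫⁻ v, ENNReal.ofReal (f (t + y + v) ^ 2 * k1 v)) * ENNReal.ofReal (W t) := by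
      rw [← lintegral_mul_const _ (by
        refine Measurable.ennreal_ofReal ?_
        exact (((hfc.comp (by fun_prop : Continuous fun v : ℝ => t + y + v)).pow 2).mul
          hkc).measurable)]
      refine lintegral_congr fun v => ?_
      rw [← ENNReal.ofReal_mul (mul_nonneg (sq_nonneg _) (hk0 v))]
      congr 1
      rw [← add_assoc]
      ring
    rw [e5]
    have e6 : ENNReal.ofReal (∫ v, k1 v) ≤ ENNReal.ofReal K0 := ENNReal.ofReal_le_ofReal hK0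
    calc ENNReal.ofReal (2 * σ ^ 2 * (W t * Z ^ 2)) =
        ENNReal.ofReal (2 * σ ^ 2) * (ENNReal.ofReal (Z ^ 2) * ENNReal.ofReal (W t)) := by
          rw [← ENNReal.ofReal_mul (sq_nonneg _), ← ENNReal.ofReal_mul (by positivity)]
          congr 1
          ring
      _ ≤ ENNReal.ofReal (2 * σ ^ 2) * ((ENNReal.ofReal K0 *
          ∫⁻ v, ENNReal.ofReal (f (t + y + v) ^ 2 * k1 v)) * ENNReal.ofReal (W t)) := by
          gcongr
          exact hcs.trans (by gcongr)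
      _ = _ := by
          rw [ENNReal.ofReal_mul (show 0 ≤ 2 * σ ^ 2 by positivity)]
          ring
  -- measurability
  have hmeas : Measurable (Function.uncurry fun t v : ℝ =>
      ENNReal.ofReal (k1 v * (W t * f (t + (y + v)) ^ 2))) := by
    refine Measurable.ennreal_ofReal (Continuous.measurable ?_)
    have c1 : Continuous fun q : ℝ × ℝ => f (q.1 + (y + q.2)) := hfc.comp (by fun_prop)
    have c2 : Continuous fun q : ℝ × ℝ => W q.1 := hWc.comp (by fun_prop)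
    have c3 : Continuous fun q : ℝ × ℝ => k1 q.2 := hkc.comp (by fun_prop)
    exact c3.mul (c2.mul (c1.pow 2))
  have hswap : ∫⁻ t in Icc t₁ t₂, ∫⁻ v, ENNReal.ofReal (k1 v * (W t * f (t + (y + v)) ^ 2)) =
      ∫⁻ v, ENNReal.ofReal (k1 v) * NNw W t₁ t₂ (fun t => f (t + (y + v))) := by
    rw [lintegral_lintegral_swap hmeas.aemeasurable]
    refine lintegral_congr fun v => ?_
    unfold NNw
    rw [← lintegral_const_mul _ (by
      refine Measurable.ennreal_ofReal (Continuous.measurable ?_)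
      have c1 : Continuous fun t : ℝ => f (t + (y + v)) := hfc.comp (by fun_prop)
      exact hWc.mul (c1.pow 2))]
    refine lintegral_congr fun t => ?_
    rw [← ENNReal.ofReal_mul (hk0 v)]
  have m1 : Measurable fun t : ℝ => ENNReal.ofReal (W t * Dq (t + y) ^ 2) := by
    have c1 : Continuous fun t : ℝ => Dq (t + y) := hDc.comp (by fun_prop)
    exact (hWc.mul (c1.pow 2)).measurable.ennreal_ofReal
  have m3 : Measurable fun t : ℝ => ∫⁻ v,
      ENNReal.ofReal (k1 v * (W t * f (t + (y + v)) ^ 2)) := hmeas.lintegral_prod_right'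
  refine (lintegral_mono hpt).trans (le_of_eq ?_)
  rw [lintegral_add_left (m1.const_mul _), lintegral_const_mul _ m1, lintegral_const_mul _ m3,
    hswap]
  rfl

/-- one step of the iteration with bounds -/
theorem stepB (hWc : Continuous W) (hW0 : ∀ t, 0 ≤ W t) {Lp Dq f k1 gr : ℝ → ℝ}
    (hL0 : ∀ u, 0 ≤ Lp u) (hDc : Continuous Dq) (hD0 : ∀ u, 0 ≤ Dq u) (hfc : Continuous f)
    (hf0 : ∀ u, 0 ≤ f u) (hkc : Continuous k1) (hk0 : ∀ v, 0 ≤ k1 v) (hki : Integrable k1)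
    {σ K0 K1 : ℝ} (hσ : 0 ≤ σ) (hK0 : ∫ v, k1 v ≤ K0)
    (h : ∀ u, Integrable (fun v => f (u + v) * k1 v) ∧ Lp u ≤ Dq u + σ * ∫ v, f (u + v) * k1 v)
    (hgr1 : ∀ v, 1 ≤ gr v) (hgrm : ∀ v w, gr (v + w) ≤ gr v * gr w)
    (hk1 : Integrable (fun v => k1 v * gr v)) (hK1 : ∫ v, k1 v * gr v ≤ K1)
    {a F m x : ℝ} (ha : 0 ≤ a) (hF : 0 ≤ F) (hm : 0 ≤ m) (v : ℝ)
    (hDb : NNw W t₁ t₂ (fun t => Dq (t + (x + v))) ≤ ENNReal.ofReal (a * gr v * m))
    (hfb : ∀ w, NNw W t₁ t₂ (fun t => f (t + (x + w))) ≤ ENNReal.ofReal (F * gr w * m)) :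
    NNw W t₁ t₂ (fun t => Lp (t + (x + v))) ≤
      ENNReal.ofReal ((2 * a + 2 * σ ^ 2 * K0 * K1 * F) * gr v * m) := by
  have hK00 : 0 ≤ K0 := (integral_nonneg hk0).trans hK0
  have hgv : 0 ≤ gr v := zero_le_one.trans (hgr1 v)
  have h1 := stepA (t₁ := t₁) (t₂ := t₂) hWc hW0 hL0 hDc hD0 hfc hf0 hkc hk0 hki hσ hK0 h (x + v)
  refine h1.trans ?_
  have h2 : ∫⁻ w, ENNReal.ofReal (k1 w) * NNw W t₁ t₂ (fun t => f (t + (x + v + w))) ≤
      ENNReal.ofReal (F * gr v * m * K1) := by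
    have e1 : ∀ w, ENNReal.ofReal (k1 w) * NNw W t₁ t₂ (fun t => f (t + (x + v + w))) ≤
        ENNReal.ofReal (F * gr v * m * (k1 w * gr w)) := by
      intro w
      have hgw : 0 ≤ gr w := zero_le_one.trans (hgr1 w)
      have e2 := hfb (v + w)
      rw [← add_assoc] at e2
      refine (mul_le_mul_right e2 _).trans ?_
      rw [← ENNReal.ofReal_mul (hk0 w)]
      refine ENNReal.ofReal_le_ofReal ?_
      have hk := hk0 w
      calc k1 w * (F * gr (v + w) * m) ≤ k1 w * (F * (gr v * gr w) * m) := by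
            have := hgrm v w
            gcongr
        _ = _ := by ring
    refine (lintegral_mono e1).trans ?_
    have hn : ∀ w : ℝ, 0 ≤ F * gr v * m * (k1 w * gr w) := fun w => by
      have := hk0 w
      have := zero_le_one.trans (hgr1 w)
      positivity
    rw [← ofReal_integral_eq_lintegral_ofReal (hk1.const_mul _) (Eventually.of_forall hn),
      integral_const_mul]
    exact ENNReal.ofReal_le_ofReal (mul_le_mul_of_nonneg_left hK1 (by positivity))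
  have hK10 : 0 ≤ K1 := (integral_nonneg fun w => mul_nonneg (hk0 w)
    (zero_le_one.trans (hgr1 w))).trans hK1
  refine (add_le_add (mul_le_mul_right hDb _) (mul_le_mul_right h2 _)).trans ?_
  rw [← ENNReal.ofReal_mul (by norm_num), ← ENNReal.ofReal_mul (by positivity),
    ← ENNReal.ofReal_add (by positivity) (by positivity)]
  refine ENNReal.ofReal_le_ofReal (le_of_eq ?_)
  ring

/-- the iteration -/
theorem iterA (hWc : Continuous W) (hW0 : ∀ t, 0 ≤ W t) {Lp Lm Dq Dm f k1 gr : ℝ → ℝ}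
    (hL0 : ∀ u, 0 ≤ Lp u) (hLc : Continuous Lp) (hLmc : Continuous Lm) (hDc : Continuous Dq)
    (hD0 : ∀ u, 0 ≤ Dq u) (hDmc : Continuous Dm) (hfc : Continuous f)
    (hf0 : ∀ u, 0 ≤ f u) (hkc : Continuous k1) (hk0 : ∀ v, 0 ≤ k1 v) (hki : Integrable k1)
    {σ K0 K1 : ℝ} (hσ : 0 ≤ σ) (hK0 : ∫ v, k1 v ≤ K0)
    (h : ∀ u, Integrable (fun v => f (u + v) * k1 v) ∧ Lp u ≤ Dq u + σ * ∫ v, f (u + v) * k1 v)
    (hgr1 : ∀ v, 1 ≤ gr v) (hgrm : ∀ v w, gr (v + w) ≤ gr v * gr w)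
    (hk1 : Integrable (fun v => k1 v * gr v)) (hK1 : ∫ v, k1 v * gr v ≤ K1)
    {a c1 G S0 m x : ℝ} (ha : 0 ≤ a) (hc1 : 1 ≤ c1) (hG : 0 ≤ G) (hS0 : 0 ≤ S0) (hm : 0 ≤ m)
    (hDb : ∀ v, NNw W t₁ t₂ (fun t => Dq (t + (x + v))) ≤ ENNReal.ofReal (a * gr v * m))
    (hDmb : ∀ v, NNw W t₁ t₂ (fun t => Dm (t + (x + v))) ≤ ENNReal.ofReal (a * gr v * m))
    (hff : ∀ u, f u ^ 2 ≤ 2 * Dm u ^ 2 + 2 * Lm u ^ 2)
    (hLm : ∀ v, NNw W t₁ t₂ (fun t => Lm (t + (x + v))) ≤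
      ENNReal.ofReal c1 * NNw W t₁ t₂ (fun t => Lp (t + (x + v))) +
        ENNReal.ofReal (G * gr v * m))
    (triv : ∀ v, NNw W t₁ t₂ (fun t => Lp (t + (x + v))) ≤ ENNReal.ofReal (S0 * gr v * m))
    (small : 4 * σ ^ 2 * K0 * K1 * c1 ≤ 1 / 2) :
    (∀ v, NNw W t₁ t₂ (fun t => Lp (t + (x + v))) ≤
      ENNReal.ofReal ((5 * a + G + 1) * gr v * m)) ∧
    ∀ v, NNw W t₁ t₂ (fun t => f (t + (x + v))) ≤
      ENNReal.ofReal ((2 * a + 2 * (c1 * (5 * a + G + 1)) + 2 * G) * gr v * m) := by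
  have hK00 : 0 ≤ K0 := (integral_nonneg hk0).trans hK0
  have hK10 : 0 ≤ K1 := (integral_nonneg fun w => mul_nonneg (hk0 w)
    (zero_le_one.trans (hgr1 w))).trans hK1
  have inner : ∀ S : ℝ, 0 ≤ S →
      (∀ v, NNw W t₁ t₂ (fun t => Lp (t + (x + v))) ≤ ENNReal.ofReal (S * gr v * m)) →
      ∀ v, NNw W t₁ t₂ (fun t => f (t + (x + v))) ≤
        ENNReal.ofReal ((2 * a + 2 * (c1 * S) + 2 * G) * gr v * m) := by
    intro S hS hSb v
    have hgv : 0 ≤ gr v := zero_le_one.trans (hgr1 v)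
    have h1 := NNw_add (t₁ := t₁) (t₂ := t₂) hWc hW0 (f := fun t => f (t + (x + v)))
      (g := fun t => Dm (t + (x + v))) (h := fun t => Lm (t + (x + v))) (p := 2) (q := 2)
      (by norm_num) (by norm_num) (hDmc.comp (by fun_prop)) (hLmc.comp (by fun_prop))
      (fun t _ => hff _)
    refine h1.trans ?_
    have h2 : NNw W t₁ t₂ (fun t => Lm (t + (x + v))) ≤
        ENNReal.ofReal ((c1 * S + G) * gr v * m) := by
      refine (hLm v).trans ?_
      refine (add_le_add (mul_le_mul_right (hSb v) _) le_rfl).trans ?_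
      rw [← ENNReal.ofReal_mul (by linarith), ← ENNReal.ofReal_add (by positivity) (by positivity)]
      refine ENNReal.ofReal_le_ofReal (le_of_eq ?_)
      ring
    refine (add_le_add (mul_le_mul_right (hDmb v) _) (mul_le_mul_right h2 _)).trans ?_
    rw [← ENNReal.ofReal_mul (by norm_num), ← ENNReal.ofReal_mul (by norm_num),
      ← ENNReal.ofReal_add (by positivity) (by positivity)]
    refine ENNReal.ofReal_le_ofReal (le_of_eq ?_)
    ring
  have hΓ1 : 4 * σ ^ 2 * K0 * K1 ≤ 1 / 2 := by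
    have h0 : 0 ≤ 4 * σ ^ 2 * K0 * K1 := by positivity
    exact le_trans (le_mul_of_one_le_right h0 hc1) small
  have key : ∀ j : ℕ, ∀ v, NNw W t₁ t₂ (fun t => Lp (t + (x + v))) ≤
      ENNReal.ofReal ((5 * a + G + S0 / 2 ^ j) * gr v * m) := by
    intro j
    induction j with
    | zero =>
      intro v
      have hgv : 0 ≤ gr v := zero_le_one.trans (hgr1 v)
      refine (triv v).trans (ENNReal.ofReal_le_ofReal ?_)
      rw [pow_zero, div_one]
      have : S0 ≤ 5 * a + G + S0 := by linarith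
      gcongr
    | succ j ih =>
      intro v
      have hgv : 0 ≤ gr v := zero_le_one.trans (hgr1 v)
      have hSj : 0 ≤ S0 / 2 ^ j := by positivity
      have hs : S0 / 2 ^ (j + 1) = (S0 / 2 ^ j) / 2 := by rw [pow_succ, div_div]
      have h1 := inner (5 * a + G + S0 / 2 ^ j) (by positivity) ih
      have h2 := stepB (t₁ := t₁) (t₂ := t₂) hWc hW0 hL0 hDc hD0 hfc hf0 hkc hk0 hki hσ hK0 h hgr1
        hgrm hk1 hK1 ha (F := 2 * a + 2 * (c1 * (5 * a + G + S0 / 2 ^ j)) + 2 * G)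
        (by positivity) hm v (hDb v) h1
      refine h2.trans (ENNReal.ofReal_le_ofReal ?_)
      have h3 : 2 * a + 2 * σ ^ 2 * K0 * K1 * (2 * a + 2 * (c1 * (5 * a + G + S0 / 2 ^ j)) + 2 * G)
          ≤ 5 * a + G + S0 / 2 ^ (j + 1) := by
        have h5 : 4 * σ ^ 2 * K0 * K1 * a ≤ 1 / 2 * a := mul_le_mul_of_nonneg_right hΓ1 ha
        have h6 : 4 * σ ^ 2 * K0 * K1 * G ≤ 1 / 2 * G := mul_le_mul_of_nonneg_right hΓ1 hG
        have h7 : (4 * σ ^ 2 * K0 * K1 * c1) * (5 * a + G + S0 / 2 ^ j) ≤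
            1 / 2 * (5 * a + G + S0 / 2 ^ j) := mul_le_mul_of_nonneg_right small (by positivity)
        rw [hs]
        linarith
      gcongr
  obtain ⟨j, hj⟩ : ∃ j : ℕ, S0 / 2 ^ j ≤ 1 := by
    obtain ⟨j, hj⟩ := pow_unbounded_of_one_lt S0 (one_lt_two)
    exact ⟨j, by rw [div_le_one (by positivity)]; exact hj.le⟩
  have hfin : ∀ v, NNw W t₁ t₂ (fun t => Lp (t + (x + v))) ≤
      ENNReal.ofReal ((5 * a + G + 1) * gr v * m) := by
    intro v
    have hgv : 0 ≤ gr v := zero_le_one.trans (hgr1 v)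
    refine (key j v).trans (ENNReal.ofReal_le_ofReal ?_)
    gcongr
  exact ⟨hfin, inner _ (by positivity) hfin⟩

end

end Pool.Agent.N802.WD.BootN
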