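import Pool.Agent.N802.WD.One6

/-! # The theorem about all Dirichlet polynomials of length `T ^ δ`, Gaussian weights -/

open Complex Filter Topology Set MeasureTheory
open scoped BigOperators ComplexConjugate

namespace Pool.Agent.N802.WD

open H370 hiding pt
open TC Pool.Agent.N802.U Pool.Agent.N802
open Pool.Agent.N845.U2 (cnt cnt_int)
open Pool.Agent.N802.X (cd x2_cnt)

/-- the weights of the simple zeros on the critical line -/
noncomputable def cs (F : ℂ → ℂ) (s : ℂ) : ℝ := if s.re = 1 / 2 ∧ mult F s = 1 then 1 else 0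

lemma x1_cnt (F : ℂ → ℂ) (U1 U2 h t : ℝ) : x1 F U1 U2 h t = cnt (Zf F U1 U2) (cs F) h t := by
  classical
  unfold x1 cnt cs
  rw [Finset.card_filter]
  push_cast
  refine Finset.sum_congr rfl fun s _ => ?_
  by_cases h1 : |s.im - t| ≤ h
  · by_cases h2 : s.re = 1 / 2 ∧ mult F s = 1
    · rw [if_pos ⟨h1, h2.1, h2.2⟩, if_pos h2, if_pos h1]; norm_num
    · rw [if_neg (fun hc => h2 hc.2), if_neg h2]; norm_num
  · rw [if_neg (fun hc => h1 hc.1), if_neg h1]; norm_num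

lemma RP_sq_le {S : Finset ℕ} {T δ : ℝ} (hT : 1 ≤ T) (hδ : 0 < δ) (hS : Len S (T ^ δ))
    (r : ℕ → ℂ) (t : ℝ) : ‖RP S r t‖ ^ 2 ≤ Real.exp (δ * Real.log T) * w1 S r := by
  have h0 : 0 < T := by linarith
  have h1 : (1 : ℝ) ≤ T ^ δ := Real.one_le_rpow hT hδ.le
  have h2 := n1_sq_le S r hS h1
  have h3 : ‖RP S r t‖ ≤ n1 S r := RP_norm S r t
  have h4 : T ^ δ = Real.exp (δ * Real.log T) := by
    rw [Real.rpow_def_of_pos h0, mul_comm]
  rw [← h4]
  exact (pow_le_pow_left₀ (norm_nonneg _) h3 2).trans h2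

/-- the four bounds -/
def Four (F : ℂ → ℂ) : Prop := ∀ ε : ℝ, 0 < ε → ε < 1 →
  ∃ δ H0 T0 : ℝ, 0 < δ ∧ 0 < H0 ∧ 10 ≤ T0 ∧ ∀ T : ℝ, T0 ≤ T →
  ∃ U1 U2 : ℝ, T ≤ U1 ∧ U1 ≤ T + 1 ∧ 2 * T - 1 ≤ U2 ∧ U2 ≤ 2 * T ∧
  ∀ h : ℝ, H0 / Real.log T ≤ h → h ≤ δ →
  ∀ S : Finset ℕ, Len S (T ^ δ) → ∀ (r : ℕ → ℂ) (τ H : ℝ), T ^ (1 - δ) ≤ H →
    T + Real.log T * (H + 1) ≤ τ → τ ≤ 2 * T - Real.log T * (H + 1) →
  ((2.6725 - 2 - ε) * (mr H S r * (h * Real.log T / Real.pi)) ≤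
    (∫ t in (T + Real.log T)..(2 * T - Real.log T), rh τ H S r t * x1 F U1 U2 h t)) ∧
  ((2.6725 - 1 - ε) * (mr H S r * (h * Real.log T / Real.pi)) ≤
    (∫ t in (T + Real.log T)..(2 * T - Real.log T), rh τ H S r t * (2 * x2 F U1 U2 h t))) ∧
  (∫ t in (T + Real.log T)..(2 * T - Real.log T), rh τ H S r t * na F U1 U2 h t) ≤
    (1 + ε) * (mr H S r * (h * Real.log T / Real.pi)) ∧
  (1 - ε) * (mr H S r * (h * Real.log T / Real.pi)) ≤
    (∫ t in (T + Real.log T)..(2 * T - Real.log T), rh τ H S r t * na F U1 U2 h t)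

/-- the parameters -/
lemma pars {ε θ Ce : ℝ} (hε : 0 < ε) (hCe : 0 < Ce) {η C : ℝ} (hη0 : 0 < η)
    (hηθ : η ≤ θ / 2) (hC : 1 ≤ C) : ∃ ε' A κ : ℝ, 0 < ε' ∧ ε' ≤ 1 / 10 ∧ ε' ≤ ε / 400 ∧
      2 * Real.pi * ε' * Ce ≤ ε / 400 ∧ 0 < A ∧
      (2 * C ^ 2 + 1) * Real.exp (-((θ - η) * A)) ≤ ε' ∧ 0 < κ ∧ κ ≤ 1 ∧
      4 * C * Real.exp (-(1 / (3 * κ))) ≤ ε' ^ 2 := by
  have hπ := Real.pi_pos
  obtain ⟨ε', hε'0, hε'1, hε'2, hε'3⟩ : ∃ ε' : ℝ, 0 < ε' ∧ ε' ≤ 1 / 10 ∧ ε' ≤ ε / 400 ∧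
      ε' ≤ ε / (800 * Real.pi * Ce) :=
    ⟨min (1 / 10) (min (ε / 400) (ε / (800 * Real.pi * Ce))),
      lt_min (by norm_num) (lt_min (by positivity) (by positivity)), min_le_left _ _,
      (min_le_right _ _).trans (min_le_left _ _), (min_le_right _ _).trans (min_le_right _ _)⟩
  have hθη : 0 < θ - η := by linarith
  have hC0 : 0 < C := by linarith
  obtain ⟨B, hB⟩ : ∃ B : ℝ, B = max 1 (Real.log ((2 * C ^ 2 + 1) / ε')) := ⟨_, rfl⟩
  obtain ⟨D, hD⟩ : ∃ D : ℝ, D = max 1 (Real.log (4 * C / ε' ^ 2)) := ⟨_, rfl⟩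
  have hB1 : 1 ≤ B := by rw [hB]; exact le_max_left _ _
  have hD1 : 1 ≤ D := by rw [hD]; exact le_max_left _ _
  refine ⟨ε', B / (θ - η), 1 / (3 * D), hε'0, hε'1, hε'2, ?_, by positivity, ?_, by positivity,
    ?_, ?_⟩
  · rw [le_div_iff₀ (by positivity)] at hε'3
    linarith
  · have h1 : (θ - η) * (B / (θ - η)) = B := by field_simp
    rw [h1]
    have h2 : Real.exp (-B) ≤ ((2 * C ^ 2 + 1) / ε')⁻¹ := by
      rw [Real.exp_neg]
      apply inv_anti₀ (by positivity)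
      rw [← Real.log_le_iff_le_exp (by positivity), hB]
      exact le_max_right _ _
    calc (2 * C ^ 2 + 1) * Real.exp (-B) ≤ (2 * C ^ 2 + 1) * ((2 * C ^ 2 + 1) / ε')⁻¹ := by
          gcongr
      _ = ε' := by rw [inv_div]; field_simp
  · rw [div_le_one (by positivity)]
    linarith
  · have h1 : 1 / (3 * (1 / (3 * D))) = D := by field_simp
    rw [h1]
    have h2 : Real.exp (-D) ≤ (4 * C / ε' ^ 2)⁻¹ := by
      rw [Real.exp_neg]
      apply inv_anti₀ (by positivity)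
      rw [← Real.log_le_iff_le_exp (by positivity), hD]
      exact le_max_right _ _
    calc 4 * C * Real.exp (-D) ≤ 4 * C * (4 * C / ε' ^ 2)⁻¹ := by gcongr
      _ = ε' ^ 2 := by rw [inv_div]; field_simp

theorem four (hwin : S_win2) (hsq : S_sq) (hpl : S_pl) (hgs : S_gs) (hms : S_ms2) (hfm : S_fm2)
    (hct : S_count3) {F : ℂ → ℂ} (hF : GoodL F) (hef : S_ef F) (hew : S_ew F) : Four F := by
  intro ε hε hε1
  have hπ := Real.pi_pos
  have hπ3 := Real.pi_gt_three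
  obtain ⟨θ, Ce, δe, Te, hθ0, hθ1, hCe, hδe, hTe, hew⟩ := hew
  obtain ⟨a, CE, ha, hCE, hef⟩ := hef
  obtain ⟨η1, hη10, hη11, hms⟩ := hms (ε / 10) (by positivity)
  obtain ⟨η, hη, hηη1, hη10', hηθ, hηε⟩ : ∃ η : ℝ, 0 < η ∧ η ≤ η1 ∧ η ≤ 1 / 10 ∧ η ≤ θ / 2 ∧
      η ≤ ε / 100 := by
    refine ⟨min (min η1 (1 / 10)) (min (θ / 2) (ε / 100)), ?_, ?_, ?_, ?_, ?_⟩
    · exact lt_min (lt_min hη10 (by norm_num)) (lt_min (by positivity) (by positivity))
    · exact (min_le_left _ _).trans (min_le_left _ _)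
    · exact (min_le_left _ _).trans (min_le_right _ _)
    · exact (min_le_right _ _).trans (min_le_left _ _)
    · exact (min_le_right _ _).trans (min_le_right _ _)
  obtain ⟨δ1, T1, hδ1, hT1, hms⟩ := hms η hη hηη1
  obtain ⟨δ2, T2, Cf, hδ2, hT2, hCf, hfm⟩ := hfm η hη (by linarith)
  obtain ⟨T3, hT3, hef⟩ := hef η hη (by linarith)
  obtain ⟨T4, hT4, hmass⟩ := rh_mass
  -- the exponent of the window
  obtain ⟨n, hn1, hnθ⟩ : ∃ n : ℕ, 1 ≤ n ∧ 2 ≤ ((2 * n - 1 : ℕ) : ℝ) * θ := by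
    refine ⟨⌈1 / θ⌉₊ + 1, by omega, ?_⟩
    have h1 : (2 * (⌈1 / θ⌉₊ + 1) - 1 : ℕ) = 2 * ⌈1 / θ⌉₊ + 1 := by omega
    rw [h1]
    have h2 := Nat.le_ceil (1 / θ)
    push_cast
    have h3 : 1 ≤ (⌈1 / θ⌉₊ : ℝ) * θ := by rwa [div_le_iff₀ hθ0] at h2
    linarith
  obtain ⟨C, hC, htw⟩ := twd hwin hsq hpl hgs n hn1
  obtain ⟨ε', A, κ, hε'0, hε'1, hε'2, hε'3, hA, hfar, hκ, hκ1, hph⟩ := pars hε hCe hη hηθ hC
  obtain ⟨X1, H1, δw, hX1, hXH, hδw, htw⟩ := htw η ε' A κ hη hη10' hε'0 hε'1 hA hκ hκ1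
  obtain ⟨CM, hCM⟩ : ∃ CM : ℝ, CM = CE + 1 + 200 * Real.pi * Cf ^ 2 / ε := ⟨_, rfl⟩
  have hCM0 : 0 < CM := by rw [hCM]; positivity
  have hX10 : 0 < X1 := by linarith
  have hC0 : 0 < C := by linarith
  obtain ⟨H0, hH0⟩ : ∃ H0 : ℝ, H0 = H1 + 800 * Real.pi * CM / ε +
      16800 * Real.pi * C ^ 2 * Ce * X1 / ε := ⟨_, rfl⟩
  have hH0a : 0 < 800 * Real.pi * CM / ε := by positivity
  have hH0b : 0 < 16800 * Real.pi * C ^ 2 * Ce * X1 / ε := by positivity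
  have hH00 : 0 < H0 := by rw [hH0]; linarith
  obtain ⟨δ, hδ0, hδ1', hδ2', hδe', hδw', hδ8⟩ : ∃ δ : ℝ, 0 < δ ∧ δ ≤ δ1 ∧ δ ≤ δ2 ∧ δ ≤ δe ∧
      δ ≤ δw ∧ δ ≤ 1 / 8 := by
    refine ⟨min (min (min δ1 δ2) (min δe δw)) (1 / 8), ?_, ?_, ?_, ?_, ?_, ?_⟩
    · exact lt_min (lt_min (lt_min hδ1 hδ2) (lt_min hδe hδw)) (by norm_num)
    · exact (min_le_left _ _).trans ((min_le_left _ _).trans (min_le_left _ _))
    · exact (min_le_left _ _).trans ((min_le_left _ _).trans (min_le_right _ _))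
    · exact (min_le_left _ _).trans ((min_le_right _ _).trans (min_le_left _ _))
    · exact (min_le_left _ _).trans ((min_le_right _ _).trans (min_le_right _ _))
    · exact min_le_right _ _
  have hR0 : 0 ≤ Rf 0 := Rf_nonneg 0
  have ev : ∀ᶠ T : ℝ in atTop, max (max 100 X1) (max (4 * C * X1 / ε') (max (A / ε')
      ((1 + 1 / η) * (4 * Rf 0 * CM ^ 2) / (ε / 4 / 100)))) ≤ Real.log T ∧ Real.log T ≤ T / 4 ∧
      50 * Real.exp (δ * Real.log T + Real.log T - Real.log T ^ 2 / 4) ≤ 1 := by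
    have e1 := Real.tendsto_log_atTop.eventually_ge_atTop (max (max 100 X1)
      (max (4 * C * X1 / ε') (max (A / ε') ((1 + 1 / η) * (4 * Rf 0 * CM ^ 2) / (ε / 4 / 100)))))
    have e3 : ∀ᶠ T : ℝ in atTop, Real.log T ≤ T / 4 := by
      have h := Real.isLittleO_log_id_atTop.bound (show (0 : ℝ) < 1 / 4 by norm_num)
      filter_upwards [h, eventually_ge_atTop 1] with T hT hT1
      simp only [id] at hT
      rw [Real.norm_of_nonneg (Real.log_nonneg hT1), Real.norm_of_nonneg (by linarith)] at hT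
      linarith
    have e4 := Real.tendsto_log_atTop.eventually (ev_f δ)
    exact e1.and (e3.and e4)
  obtain ⟨T5, hT5⟩ := eventually_atTop.1 ev
  refine ⟨δ, H0, max (max (max T1 T2) (max T3 T4)) (max Te T5), hδ0, hH00,
    hT1.trans ((le_max_left _ _).trans ((le_max_left _ _).trans (le_max_left _ _))), fun T hT => ?_⟩
  have gT1 : T1 ≤ T := ((le_max_left _ _).trans ((le_max_left _ _).trans (le_max_left _ _))).trans hT
  have gT2 : T2 ≤ T := ((le_max_right _ _).trans ((le_max_left _ _).trans (le_max_left _ _))).trans hT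
  have gT3 : T3 ≤ T := ((le_max_left _ _).trans ((le_max_right _ _).trans (le_max_left _ _))).trans hT
  have gT4 : T4 ≤ T := ((le_max_right _ _).trans ((le_max_right _ _).trans (le_max_left _ _))).trans hT
  have gTe : Te ≤ T := ((le_max_left _ _).trans (le_max_right _ _)).trans hT
  have gT5 : T5 ≤ T := ((le_max_right _ _).trans (le_max_right _ _)).trans hT
  obtain ⟨hLL, hLT, s5⟩ := hT5 T gT5
  have hT10 : 10 ≤ T := hT1.trans gT1
  have hT0 : 0 < T := by linarith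
  have hL100 : 100 ≤ Real.log T := ((le_max_left _ _).trans (le_max_left _ _)).trans hLL
  have hLX : X1 ≤ Real.log T := ((le_max_right _ _).trans (le_max_left _ _)).trans hLL
  have hLa : 4 * C * X1 / ε' ≤ Real.log T :=
    ((le_max_left _ _).trans (le_max_right _ _)).trans hLL
  have hLb : A / ε' ≤ Real.log T :=
    ((le_max_left _ _).trans ((le_max_right _ _).trans (le_max_right _ _))).trans hLL
  have hLc : (1 + 1 / η) * (4 * Rf 0 * CM ^ 2) / (ε / 4 / 100) ≤ Real.log T :=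
    ((le_max_right _ _).trans ((le_max_right _ _).trans (le_max_right _ _))).trans hLL
  have s2 : (1 + 1 / η) * (4 * Rf 0 * CM ^ 2) ≤ ε / 4 / 100 * Real.log T := by
    rw [div_le_iff₀ (by positivity)] at hLc
    linarith
  obtain ⟨U1, U2, hU1, hU1', hU2, hU2', hef⟩ := hef T gT3
  refine ⟨U1, U2, hU1, hU1', hU2, hU2', fun h hh1 hh2 S hS r τ H hH hτ1 hτ2 => ?_⟩
  obtain ⟨L, hL⟩ : ∃ L : ℝ, L = Real.log T := ⟨_, rfl⟩
  rw [← hL] at hL100 hLX hLa hLb s2 hLT s5 hef hh1 hτ1 hτ2 ⊢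
  have hLpos : 0 < L := by linarith
  have hhL : H0 ≤ h * L := by rwa [div_le_iff₀ hLpos] at hh1
  have hh0 : 0 < h := lt_of_lt_of_le (by positivity) hh1
  have hh8 : h ≤ 1 / 8 := hh2.trans hδ8
  have hh1b : h ≤ 1 := by linarith
  obtain ⟨G, w, Gp, gp, hTw⟩ := htw L hL100 h (by
    refine le_trans ?_ hh1
    have : H1 ≤ H0 := by rw [hH0]; linarith
    gcongr) (hh2.trans hδw')
  have s1 : 2 * CM ≤ ε / 4 / 100 * (h * L / Real.pi) := by
    have h1 : 800 * Real.pi * CM / ε ≤ h * L := by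
      refine le_trans ?_ hhL
      rw [hH0]; linarith
    rw [div_le_iff₀ hε] at h1
    rw [mul_div_assoc', le_div_iff₀ hπ]
    linarith
  have hN : NumD η ε' L h A X1 κ C θ n := by
    refine ⟨hL100, hη, hηθ, hθ0, hθ1, hε'0, hε'1, hh0, by linarith, hC, hX1, hn1, hnθ, hfar, hph,
      ?_, ?_⟩
    · rw [div_le_iff₀ hε'0] at hLa
      linarith
    · rw [div_le_iff₀ hε'0] at hLb
      linarith
  have hK : Kn Ce ε ε' L h X1 C := by
    refine ⟨hCe, hε, hε1, hε'2, hε'3, ?_, ?_⟩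
    · have h1 : 16800 * Real.pi * C ^ 2 * Ce * X1 / ε ≤ h * L := by
        refine le_trans ?_ hhL
        rw [hH0]; linarith
      rw [div_le_iff₀ hε] at h1
      rw [mul_div_assoc', le_div_iff₀ hπ]
      linarith
    · refine le_trans ?_ hhL
      rw [hH0]; linarith
  have hT1' : (1 : ℝ) ≤ T := by linarith
  have hwd : ∀ d : ℝ, δ ≤ d → T ^ (1 - d) ≤ H := fun d hd =>
    (Real.rpow_le_rpow_of_exponent_le hT1' (by linarith)).trans hH
  have hw1 := w1_nonneg S r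
  have hR' : ∀ t, ‖RP S r t‖ ^ 2 ≤ Real.exp (δ * L) * w1 S r := by
    intro t
    rw [hL]
    exact RP_sq_le hT1' hδ0 hS r t
  have hS1 : Len S (T ^ δ1) := Len_mono hS (Real.rpow_le_rpow_of_exponent_le hT1' hδ1')
  have hS2 : Len S (T ^ δ2) := Len_mono hS (Real.rpow_le_rpow_of_exponent_le hT1' hδ2')
  have hSe : Len S (T ^ δe) := Len_mono hS (Real.rpow_le_rpow_of_exponent_le hT1' hδe')
  have hS3 : Len S (T ^ (1 / 8 : ℝ)) := Len_mono hS (Real.rpow_le_rpow_of_exponent_le hT1' hδ8)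
  have hM := hmass T gT4 S hS3 r τ H (by
    have := hwd (1 / 8) hδ8
    norm_num at this ⊢
    exact this)
  have hW0 : ∀ x : ℝ, ((fun z => G z ^ 2) (x : ℂ)).im = 0 := by
    intro x
    simp only
    rw [sq_re hTw.cj x, Complex.ofReal_im]
  have hηL : 0 < η * L := by positivity
  have hηL1 : η * L ≤ (1 - 2 * η) * L := by
    apply mul_le_mul_of_nonneg_right _ hLpos.le
    linarith
  have hηL2 : η * L ≤ L := by
    calc η * L ≤ 1 * L := by
          apply mul_le_mul_of_nonneg_right _ hLpos.le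
          linarith
      _ = _ := one_mul _
  have hq0 : 0 ≤ q2 w := integral_nonneg fun v => sq_nonneg _
  have hqh : q2 w ≤ h := by
    refine hTw.q.trans ?_
    exact div_le_self hh0.le (by linarith)
  have hab : T + L ≤ 2 * T - L := by linarith
  have hH0' : 0 < H := lt_of_lt_of_le (by positivity) hH
  have hm0 : 0 ≤ mr H S r := by unfold mr; positivity
  have hfm' := fun (b : ℝ) (W : ℂ → ℂ) (v : ℝ → ℂ) (hW : BW b W v) (hb : 0 < b) (hb' : b ≤ L) =>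
    hfm T gT2 a ha S hS2 r b W v hW hb (by rw [← hL]; exact hb') τ H (hwd δ2 hδ2')
  rw [← hL] at hfm'
  have P1 := first6 (U1 := U1) (U2 := U2) (τ := τ) (S := S) (r := r) hε hCf hCE hCM s1 hh0 hh1b
    hL hL100 hLT s5 hη (by linarith) hδ0 hH0' hτ1 hτ2 hR' ha hTw.bw hqh
    (fun t ht1 ht2 => hef _ _ _ hTw.bw 0 t (by rw [abs_zero, zero_add]; exact hηL1) ht1 ht2)
    (hfm' _ _ _ hTw.bw hηL hηL2) hM
  have P2 := first6 (U1 := U1) (U2 := U2) (τ := τ) (S := S) (r := r) hε hCf hCE hCM s1 hh0 hh1b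
    hL hL100 hLT s5 hη (by linarith) hδ0 hH0' hτ1 hτ2 hR' ha hTw.bwp hTw.qp
    (fun t ht1 ht2 => hef _ _ _ hTw.bwp 0 t (by rw [abs_zero, zero_add]; linarith) ht1 ht2)
    (hfm' _ _ _ hTw.bwp (by positivity) (by linarith)) hM
  have P3 := en_use2 (F := F) (U1 := U1) (U2 := U2) (rh_cont τ H S r) (rh_nonneg τ H S r)
    (rh_intg (τ := τ) hH0' S r) hab hTw.bw (a := a)
    (X := ⌊T ^ (1 - η)⌋₊) (C := CE) (η := η) (Λ := (1 - 4 * η) * L) hη
    (fun α hα t ht1 ht2 => hef _ _ _ hTw.bw ((1 - 4 * η) * L * α) t (by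
      have h4 : 0 ≤ 1 - 4 * η := by linarith
      rw [abs_of_nonneg (by have := hα.1; positivity)]
      have h1 : (1 - 4 * η) * L * α ≤ (1 - 4 * η) * L * 1 := by
        apply mul_le_mul_of_nonneg_left hα.2
        positivity
      nlinarith) ht1 ht2) hM
  have P3' := hms T gT1 a ha S hS1 r (η * L) _ _ hTw.bw hηL (by rw [hL]) hW0 τ H (hwd δ1 hδ1')
  rw [← hL] at P3'
  have A3 := P3.trans (enb hη hCE hε hLpos hm0 hh0 hq0 hTw.q rfl hCM s2 P3')
  have hρc := rh_cont τ H S r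
  have hρ0 := rh_nonneg τ H S r
  set m := mr H S r with hmd
  set U := m * (h * L / Real.pi) with hUd
  have hunit : m * L * (h / Real.pi) = U := by rw [hUd]; ring
  rw [abs_le] at P1 P2
  have A1 : (1 - η - ε / 50) * U ≤
      ∫ t in (T + L)..(2 * T - L), rh τ H S r t * (SS F U1 U2 (fun z => G z ^ 2) 0 t).re := by
    have h2 : (1 - η) * U ≤ m * L * (gs w 0).re := by
      rw [← hunit]
      calc (1 - η) * (m * L * (h / Real.pi)) =
          m * L * ((1 - η) * (h / Real.pi)) := by ring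
        _ ≤ _ := mul_le_mul_of_nonneg_left hTw.lo (by positivity)
    linarith [P1.1]
  have A2 : ∫ t in (T + L)..(2 * T - L), rh τ H S r t * (SS F U1 U2 Gp 0 t).re ≤
      (1 + η + ε / 50) * U := by
    have h2 : m * L * (gs gp 0).re ≤ (1 + η) * U := by
      rw [← hunit]
      calc m * L * (gs gp 0).re ≤ m * L * ((1 + η) * (h / Real.pi)) :=
            mul_le_mul_of_nonneg_left hTw.hi (by positivity)
        _ = _ := by ring
    linarith [P2.2]
  -- the error terms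
  have hew' := hew T gTe S hSe r τ H (hwd δe hδe') U1 U2 hU1 hU1' hU2 hU2' X1 h hX1
    (by rw [← hL]; exact hLX) hh0.le hh1b
  rw [← hL, ← hmd] at hew'
  obtain ⟨hEA, hEO⟩ := hew'
  have hX0 := hN.X0
  have hEA' : ∫ t in (T + L)..(2 * T - L), rh τ H S r t * EA F U1 U2 θ L (X1 / L) h t ≤
      Ce * (h * L + X1) * m := by
    refine le_trans ?_ hEA
    apply intervalIntegral.integral_mono_interval (by linarith) hab (by linarith)
    · exact Eventually.of_forall fun t => mul_nonneg (hρ0 t) (EA_nonneg F U1 U2 hX0 θ L h t)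
    · exact EA_int F U1 U2 hρc hX0 θ L h _ _
  have hEO' : ∫ t in (T + L)..(2 * T - L), rh τ H S r t * EO F U1 U2 θ L (X1 / L) h t ≤
      Ce * X1 * m := by
    refine le_trans ?_ hEO
    apply intervalIntegral.integral_mono_interval (by linarith) hab (by linarith)
    · exact Eventually.of_forall fun t => mul_nonneg (hρ0 t) (EO_nonneg F U1 U2 hX0 θ L h t)
    · exact EO_int F U1 U2 hρc hX0 θ L h _ _
  have hU11 : (1 : ℝ) ≤ U1 := by linarith
  have hΛ0 : 0 ≤ (1 - 4 * η) * L := mul_nonneg (by linarith) hLpos.le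
  have hΛL : (1 - 4 * η) * L ≤ L := by nlinarith
  have hpt := fun t => hct hF (U1 := U1) (U2 := U2) hU11 (G := G) hTw.cj hTw.le1
    (Λ := (1 - 4 * η) * L) (ℓ := L) (h := h) t hΛ0 hΛL hh0.le
  have hεU : 0 ≤ ε * U := by positivity
  refine ⟨?_, ?_, ?_, ?_⟩
  · exact xb6 hF hU11 hTw hN hK hηε hρc hρ0 hab hm0 hEA' hEO' A2 (by norm_num) le_rfl A1 A3
      (x1_int hρc h _ _) (fun t => (hpt t).1)
  · refine xb6 hF hU11 hTw hN hK hηε hρc hρ0 hab hm0 hEA' hEO' A2 (by norm_num) (by norm_num) A1 A3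
      ?_ (fun t => ?_)
    · have := (cnt_int (rh_cont τ H S r) (Zf F U1 U2) cd h (T + L) (2 * T - L)).const_mul 2
      refine this.congr ?_
      intro t _
      simp only [x2_cnt]
      ring
    · rw [one_mul]
      exact (hpt t).2
  · have := upb6 hF hU11 hTw hN hK hηε hρc hρ0 hab hm0 hEA' A2
    linarith
  · exact lob6 hF hU11 hTw hN hK hηε hρc hρ0 hab hm0 hEA' hEO' A1

/-- simple zeros on the critical line -/
theorem core6s {F : ℂ → ℂ} (h4 : Four F) : S_coreD F 0.6725 (cs F) := by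
  intro ε hε hε1
  obtain ⟨δ, H0, T0, hδ, hH0, hT0, h4⟩ := h4 ε hε hε1
  refine ⟨δ, H0, T0, hδ, hH0, hT0, fun T hT => ?_⟩
  obtain ⟨U1, U2, a1, a2, a3, a4, h4⟩ := h4 T hT
  refine ⟨U1, U2, a1, a2, a3, a4, fun h b1 b2 S hS r τ H hH c1 c2 => ?_⟩
  obtain ⟨d1, -, d3, d4⟩ := h4 h b1 b2 S hS r τ H hH c1 c2
  refine ⟨?_, d3, d4⟩
  simp_rw [x1_cnt] at d1
  refine le_trans (le_of_eq ?_) d1
  norm_num

/-- distinct zeros -/
theorem core6d {F : ℂ → ℂ} (h4 : Four F) : S_coreD F 0.83625 cd := by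
  intro ε hε hε1
  obtain ⟨δ, H0, T0, hδ, hH0, hT0, h4⟩ := h4 ε hε hε1
  refine ⟨δ, H0, T0, hδ, hH0, hT0, fun T hT => ?_⟩
  obtain ⟨U1, U2, a1, a2, a3, a4, h4⟩ := h4 T hT
  refine ⟨U1, U2, a1, a2, a3, a4, fun h b1 b2 S hS r τ H hH c1 c2 => ?_⟩
  obtain ⟨-, d1, d3, d4⟩ := h4 h b1 b2 S hS r τ H hH c1 c2
  refine ⟨?_, d3, d4⟩
  have e1 : (∫ t in (T + Real.log T)..(2 * T - Real.log T), rh τ H S r t * (2 * x2 F U1 U2 h t)) =
      2 * ∫ t in (T + Real.log T)..(2 * T - Real.log T),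
        rh τ H S r t * cnt (Zf F U1 U2) cd h t := by
    rw [← intervalIntegral.integral_const_mul]
    refine intervalIntegral.integral_congr fun t _ => ?_
    simp only [x2_cnt]
    ring
  rw [e1] at d1
  have hw1 := w1_nonneg S r
  have hπ := Real.pi_pos
  have hT1 : 1 < T := by linarith
  have hL : 0 < Real.log T := Real.log_pos hT1
  have hH' : 0 < H := lt_of_lt_of_le (by positivity) hH
  have hh : 0 < h := lt_of_lt_of_le (by positivity) b1
  have hU0 : 0 ≤ mr H S r * (h * Real.log T / Real.pi) := by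
    unfold mr
    positivity
  have hεU : 0 ≤ ε * (mr H S r * (h * Real.log T / Real.pi)) := mul_nonneg hε.le hU0
  linarith

end Pool.Agent.N802.WD
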