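import Pool.Agent.N802.WD.Stm2

/-! # The counting inequality in a window around `t`, with a better cost (helper383) -/

open Complex Filter Topology Set MeasureTheory
open scoped BigOperators ComplexConjugate

namespace Pool.Agent.N802.WD

open H370 TH803UC Pool.Agent.N802.U

open Classical in
/-- **COUNT3** -/
theorem count3 : S_count3 := by
  intro F hF U1 U2 hU G hG hG1 Λ ℓ h t hΛ hΛℓ hh
  obtain ⟨E, iE1, iE2, k, hk⟩ := gram0 Λ
  set om : ℂ → ℂ := fun z => G (z - t) * cexp (-(z - t) ^ 2 / 4) with hom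
  have homc : ∀ z, om ((starRingEnd ℂ) z) = (starRingEnd ℂ) (om z) := by
    intro z
    simp only [hom]
    rw [map_mul, ← Complex.exp_conj, ← hG]
    have e1 : (starRingEnd ℂ) (z - t) = (starRingEnd ℂ) z - t := by
      rw [map_sub, Complex.conj_ofReal]
    have e2 : (starRingEnd ℂ) (-(z - t) ^ 2 / 4) = -((starRingEnd ℂ) z - t) ^ 2 / 4 := by
      rw [map_div₀, map_neg, map_pow, e1, Complex.conj_ofNat]
    rw [e1, e2]
  have hom2 : ∀ z, om z ^ 2 = G (z - t) ^ 2 * cexp (-(z - t) ^ 2 / 2) := by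
    intro z
    simp only [hom]
    rw [mul_pow, ← Complex.exp_nat_mul]
    congr 2
    push_cast
    ring
  set W := Zf F U1 U2 with hW
  set Z : Finset ℂ := W.image zz with hZ
  set m : ℂ → ℕ := fun z => mult F (1 / 2 + I * z) with hm
  have hback : ∀ s : ℂ, (1 / 2 + I * zz s) = s := by
    intro s
    have := zz_spec s
    linear_combination -this
  have hmz : ∀ s : ℂ, m (zz s) = mult F s := by
    intro s; simp only [hm]; rw [hback]
  have hWm : ∀ s ∈ W, s ∈ zset F U1 U2 := fun s hs => (mem_Zf hF hU).mp hs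
  have hWpos : ∀ s ∈ W, 1 ≤ mult F s := by
    intro s hs
    have := hWm s hs
    exact Loc.mult_pos' hF (by linarith [this.2.2.1]) this.2.2.2.2
  have hZc : ∀ z ∈ Z, (starRingEnd ℂ) z ∈ Z := by
    intro z hz
    rw [hZ, Finset.mem_image] at hz
    obtain ⟨s, hs, rfl⟩ := hz
    rw [← zz_refl]
    exact Finset.mem_image_of_mem _ ((mem_Zf hF hU).mpr (zset_refl hF hU (hWm s hs)))
  have hmp : ∀ z ∈ Z, 1 ≤ m z := by
    intro z hz
    rw [hZ, Finset.mem_image] at hz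
    obtain ⟨s, hs, rfl⟩ := hz
    rw [hmz]
    exact hWpos s hs
  have hmc : ∀ z ∈ Z, m ((starRingEnd ℂ) z) = m z := by
    intro z hz
    rw [hZ, Finset.mem_image] at hz
    obtain ⟨s, hs, rfl⟩ := hz
    have := hWm s hs
    rw [← zz_refl, hmz, hmz, mult_refl hF this.1 this.2.1 (by linarith [this.2.2.1])]
  have hsumF : ∀ (P : ℂ → Prop) [DecidablePred P] (f : ℂ → ℝ), ∑ z ∈ Z.filter P, f z =
      ∑ s ∈ W.filter (fun s => P (zz s)), f (zz s) := by
    intro P _ f
    rw [hZ, Finset.filter_image, Finset.sum_image (fun s _ s' _ h => zz_inj h)]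
  have hcardF : ∀ (P : ℂ → Prop) [DecidablePred P],
      (Z.filter P).card = (W.filter (fun s => P (zz s))).card := by
    intro P _
    rw [hZ, Finset.filter_image, Finset.card_image_of_injective _ (fun s s' h => zz_inj h)]
  obtain ⟨a, ha⟩ : ∃ a : ℂ → Prop, ∀ z, a z ↔ |z.re - t| ≤ h := ⟨_, fun _ => Iff.rfl⟩
  obtain ⟨far, hfar⟩ : ∃ far : ℂ → Prop, ∀ z, far z ↔
      (z.im ≠ 0 ∧ 1 < Real.exp (|z.im| * ℓ) * ‖om z‖ ^ 2) :=
    ⟨_, fun _ => Iff.rfl⟩
  have hac : ∀ z, a ((starRingEnd ℂ) z) ↔ a z := by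
    intro z; simp only [ha, Complex.conj_re]
  have hfar0 : ∀ z, far z → z.im ≠ 0 := by
    intro z hz
    rw [hfar] at hz
    exact hz.1
  have hcount := count_ineq Z hZc m hmp hmc (fun z => kap (Λ * z)) k hk
    (fun z => by rw [mul_neg, kap_even]) (by rw [mul_zero, kap_zero])
    om homc a hac far hfar0
  obtain ⟨hc1, hc2⟩ := count_le Z hZc m hmp hmc a hac
  set X1 : ℝ := ((simp1 Z m a).card : ℝ) with hx1
  set y1 : ℝ := ((rest1 Z m a).card : ℝ) with hy1
  have hX1 : X1 = x1 F U1 U2 h t := by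
    rw [hx1]
    unfold simp1 x1
    rw [hcardF]
    congr 2
    ext s
    simp only [Finset.mem_filter, ha, hmz, zz_re, zz_im]
    constructor
    · rintro ⟨h1, h2, h3, h4⟩; exact ⟨h1, h2, by linarith, h4⟩
    · rintro ⟨h1, h2, h3, h4⟩; exact ⟨h1, h2, by rw [h3]; ring, h4⟩
  have hNa : ∑ z ∈ Z.filter a, (m z : ℝ) = na F U1 U2 h t := by
    rw [hsumF]
    unfold na
    simp only [ha, zz_re, hmz]
    rfl
  -- the pair sum
  have hQ : (∑ z ∈ Z, ∑ w ∈ Z, (m z : ℂ) * (m w : ℂ) *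
      (om z * om w * kap (Λ * (z - w))) ^ 2).re =
      2 * ∫ α in (0 : ℝ)..1, Rf α * ‖SS F U1 U2 (fun z => G z ^ 2) (Λ * α) t‖ ^ 2 := by
    have h1 := pair_eq hF (U2 := U2) hU (W := fun z => G z ^ 2)
      (fun z => by rw [hG, map_pow]) Λ t
    have h2 : ∑ z ∈ Z, ∑ w ∈ Z, (m z : ℂ) * (m w : ℂ) * (om z * om w * kap (Λ * (z - w))) ^ 2 =
        ((2 * ∫ α in (0 : ℝ)..1, Rf α * ‖SS F U1 U2 (fun z => G z ^ 2) (Λ * α) t‖ ^ 2 : ℝ) : ℂ) := by
      rw [← h1, hZ, Finset.sum_image (fun s _ s' _ h => zz_inj h)]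
      refine Finset.sum_congr rfl fun s _ => ?_
      rw [Finset.sum_image (fun s _ s' _ h => zz_inj h)]
      refine Finset.sum_congr rfl fun s' _ => ?_
      rw [hmz, hmz, mul_pow, mul_pow, hom2, hom2]
    rw [h2, Complex.ofReal_re]
  -- the first moment
  have hS : (SS F U1 U2 (fun z => G z ^ 2) 0 t).re =
      ∑ s ∈ W, (mult F s : ℝ) * (om (zz s) ^ 2).re := by
    unfold SS
    rw [Complex.re_sum]
    refine Finset.sum_congr rfl fun s _ => ?_
    rw [hom2]
    simp only [Complex.ofReal_zero, mul_zero, zero_mul, Complex.exp_zero, one_mul]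
    rw [← Complex.ofReal_natCast, Complex.re_ofReal_mul]
  have hnorm : ∀ z, ‖om z‖ ^ 2 = ‖G (z - t) ^ 2 * cexp (-(z - t) ^ 2 / 2)‖ := by
    intro z; rw [← hom2, norm_pow]
  -- simple zeros
  have hS1 : ∑ z ∈ simp1 Z m a, (om z ^ 2).re ≤ X1 := by
    rw [hx1]
    have h1 : ∑ z ∈ simp1 Z m a, (om z ^ 2).re ≤ ((simp1 Z m a).card) • (1 : ℝ) := by
      refine Finset.sum_le_card_nsmul _ _ _ fun z hz => ?_
      unfold simp1 at hz
      rw [Finset.mem_filter] at hz
      have e1 : z - t = ((z.re - t : ℝ) : ℂ) := by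
        apply Complex.ext
        · simp
        · simp [hz.2.2.1]
      refine (Complex.re_le_norm _).trans ?_
      rw [hom2, e1, norm_mul, norm_pow]
      have h2 := hG1 (z.re - t)
      have h3 : ‖cexp (-((z.re - t : ℝ) : ℂ) ^ 2 / 2)‖ ≤ 1 := by
        rw [show (-((z.re - t : ℝ) : ℂ) ^ 2 / 2) = ((-(z.re - t) ^ 2 / 2 : ℝ) : ℂ) by push_cast; ring,
          ← Complex.ofReal_exp, Complex.norm_real, Real.norm_of_nonneg (Real.exp_pos _).le]
        exact Real.exp_le_one_iff.2 (by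
          have := sq_nonneg (z.re - t)
          linarith)
      exact mul_le_one₀ (pow_le_one₀ (norm_nonneg _) h2) (norm_nonneg _) h3
    simpa using h1
  -- the costs
  have hA1 : ∑ s ∈ W, (mult F s : ℝ) * (om (zz s) ^ 2).re -
      ∑ z ∈ Z.filter a, (m z : ℝ) * (om z ^ 2).re ≤
      ∑ s ∈ W, (mult F s : ℝ) * (if h < |s.im - t| then ‖om (zz s)‖ ^ 2 else 0) := by
    rw [hsumF, Finset.sum_filter, ← Finset.sum_sub_distrib]
    refine Finset.sum_le_sum fun s _ => ?_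
    have hm0 : (0 : ℝ) ≤ mult F s := Nat.cast_nonneg _
    simp only [ha, zz_re, hmz]
    by_cases h1 : |s.im - t| ≤ h
    · rw [if_pos h1, if_neg (not_lt.2 h1)]
      simp
    · rw [if_neg h1, if_pos (not_le.1 h1), sub_zero]
      apply mul_le_mul_of_nonneg_left _ hm0
      rw [← norm_pow]
      exact Complex.re_le_norm _
  have hA2 : ∑ z ∈ Z.filter (fun z => ¬ a z ∧ ¬ far z),
      4 * (m z : ℝ) * (‖om z‖ ^ 2 * (‖kap (Λ * (z - (starRingEnd ℂ) z))‖ + 1)) ≤
      ∑ s ∈ W, (mult F s : ℝ) * (if h < |s.im - t| ∧ ¬ far (zz s) then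
        4 * (‖om (zz s)‖ ^ 2 * (Real.exp (|(zz s).im| * ℓ) + 1)) else 0) := by
    rw [hsumF, Finset.sum_filter]
    refine Finset.sum_le_sum fun s _ => ?_
    have hm0 : (0 : ℝ) ≤ mult F s := Nat.cast_nonneg _
    have hg := kap_growth hΛ hΛℓ (zz s)
    simp only [ha, zz_re, hmz, not_le]
    split_ifs with h1
    · have h2 : ‖om (zz s)‖ ^ 2 * (‖kap (Λ * (zz s - (starRingEnd ℂ) (zz s)))‖ + 1) ≤
          ‖om (zz s)‖ ^ 2 * (Real.exp (|(zz s).im| * ℓ) + 1) :=
        mul_le_mul_of_nonneg_left (by linarith) (sq_nonneg _)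
      nlinarith
    · simp
  have hA3 : ∑ z ∈ Z.filter (fun z => ¬ a z ∧ far z), (m z : ℝ) * (8 * ‖om z‖ ^ 2 + 4) ≤
      ∑ s ∈ W, (mult F s : ℝ) * (if h < |s.im - t| ∧ far (zz s) then
        (8 * ‖om (zz s)‖ ^ 2 + 4) else 0) := by
    rw [hsumF, Finset.sum_filter]
    refine Finset.sum_le_sum fun s _ => ?_
    simp only [ha, zz_re, hmz, not_le]
    split_ifs with h1
    · exact le_rfl
    · simp
  have hcost : 4 * (∑ s ∈ W, (mult F s : ℝ) * (if h < |s.im - t| then ‖om (zz s)‖ ^ 2 else 0)) +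
      (∑ s ∈ W, (mult F s : ℝ) * (if h < |s.im - t| ∧ ¬ far (zz s) then
        4 * (‖om (zz s)‖ ^ 2 * (Real.exp (|(zz s).im| * ℓ) + 1)) else 0)) +
      (∑ s ∈ W, (mult F s : ℝ) * (if h < |s.im - t| ∧ far (zz s) then
        (8 * ‖om (zz s)‖ ^ 2 + 4) else 0)) ≤
      ∑ s ∈ W, (mult F s : ℝ) * cost3 G ℓ h t s := by
    rw [Finset.mul_sum, ← Finset.sum_add_distrib, ← Finset.sum_add_distrib]
    refine Finset.sum_le_sum fun s _ => ?_
    have hm0 : (0 : ℝ) ≤ mult F s := Nat.cast_nonneg _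
    have hℓ : 0 ≤ ℓ := hΛ.trans hΛℓ
    unfold cost3
    rw [← hnorm]
    have hn := sq_nonneg ‖om (zz s)‖
    have he : 1 ≤ Real.exp (|(zz s).im| * ℓ) := Real.one_le_exp (by positivity)
    by_cases h1 : h < |s.im - t|
    · rw [if_pos h1, if_pos h1]
      by_cases h2 : far (zz s)
      · rw [if_neg (by tauto), if_pos ⟨h1, h2⟩]
        rw [hfar] at h2
        rw [min_eq_left h2.2.le]
        nlinarith
      · rw [if_pos ⟨h1, h2⟩, if_neg (by tauto)]
        have h3 : 4 * ‖om (zz s)‖ ^ 2 +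
            4 * (‖om (zz s)‖ ^ 2 * (Real.exp (|(zz s).im| * ℓ) + 1)) ≤
            12 * ‖om (zz s)‖ ^ 2 +
            8 * min 1 (Real.exp (|(zz s).im| * ℓ) * ‖om (zz s)‖ ^ 2) := by
          by_cases h4 : (zz s).im = 0
          · have h5 : 0 ≤ min 1 (Real.exp (|(zz s).im| * ℓ) * ‖om (zz s)‖ ^ 2) :=
              le_min zero_le_one (mul_nonneg (Real.exp_pos _).le hn)
            have h6 : Real.exp (|(zz s).im| * ℓ) = 1 := by
              rw [h4, abs_zero, zero_mul, Real.exp_zero]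
            rw [h6] at h5 ⊢
            linarith
          · have h5 : Real.exp (|(zz s).im| * ℓ) * ‖om (zz s)‖ ^ 2 ≤ 1 := by
              by_contra h6
              exact h2 ((hfar _).2 ⟨h4, not_le.1 h6⟩)
            rw [min_eq_right h5]
            nlinarith
        nlinarith
    · rw [if_neg h1, if_neg (by tauto), if_neg (by tauto), if_neg h1]
      simp
  have hX2 : X1 + y1 = x2 F U1 U2 h t := by
    rw [hc2, hcardF]
    unfold x2
    congr 2
    ext s
    simp only [Finset.mem_filter, ha, zz_re, zz_im]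
    constructor
    · rintro ⟨h1, h2, h3⟩; exact ⟨h1, h2, by linarith⟩
    · rintro ⟨h1, h2, h3⟩; exact ⟨h1, h2, by linarith⟩
  rw [hQ] at hcount
  constructor
  · rw [← hX1, ← hNa, hS]
    linarith
  · rw [← hX2, ← hNa, hS]
    linarith

end Pool.Agent.N802.WD

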