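import Pool.Agent.N802.WD.Stm
import Pool.Agent.H448R2.GC.K1
import Pool.Agent.H448R2.GC.K2
import Pool.Agent.H448R2.GC.K3

/-!
# Smooth cutoffs with Gevrey Mellin kernels
-/

open Complex Filter Topology Set MeasureTheory

namespace Pool.Agent.N802.WD

namespace CutA

open Pool.Agent.H448R2.GC (cu ker)
open Pool.Agent.H448R2.GC.K2 (J)

/-- cutoffs at scale one -/
structure St (D E a₀ : ℝ) (V : ℝ → ℝ) (K : ℝ → ℝ → ℂ) : Prop where
  nn : ∀ x, 0 ≤ V x
  le : ∀ x, V x ≤ 1
  one : ∀ x, x ≤ D → V x = 1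
  zero : ∀ x, E < x → V x = 0
  vc : Continuous V
  kc : ∀ a, 1 ≤ a → a ≤ a₀ → Continuous (K a)
  ki : ∀ a, 1 ≤ a → a ≤ a₀ → Integrable (K a)
  rep : ∀ a, 1 ≤ a → a ≤ a₀ → ∀ x : ℝ, ((V x : ℝ) : ℂ) =
    ∫ y : ℝ, K a y * cexp (-(((a : ℂ) + (y : ℂ) * I) * x))

/-- averages -/
noncomputable def av (c : ℝ) (V : ℝ → ℝ) (x : ℝ) : ℝ := (1 / c) * ∫ v in (0 : ℝ)..c, V (x - v)

theorem av_cont {c : ℝ} {V : ℝ → ℝ} (hV : Continuous V) : Continuous (av c V) := by
  have h : av c V = fun x => (1 / c) * ((∫ u in (0 : ℝ)..x, V u) - ∫ u in (0 : ℝ)..(x - c), V u) := by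
    funext x
    unfold av
    have h1 : ∫ v in (0 : ℝ)..c, V (x - v) = ∫ u in (x - c)..(x - 0), V u :=
      intervalIntegral.integral_comp_sub_left (fun u => V u) x
    rw [intervalIntegral.integral_interval_sub_left (hV.intervalIntegrable _ _)
      (hV.intervalIntegrable _ _), h1, sub_zero]
  rw [h]
  have hp : Continuous (fun r : ℝ => ∫ u in (0 : ℝ)..r, V u) :=
    intervalIntegral.continuous_primitive (fun a b => hV.intervalIntegrable a b) 0
  exact continuous_const.mul (hp.sub (hp.comp (continuous_id.sub continuous_const)))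

theorem av_const {c : ℝ} (hc : 0 < c) {V : ℝ → ℝ} {x b : ℝ}
    (h : ∀ v, 0 ≤ v → v ≤ c → V (x - v) = b) : av c V x = b := by
  unfold av
  have : ∫ v in (0 : ℝ)..c, V (x - v) = ∫ _v in (0 : ℝ)..c, b := by
    apply intervalIntegral.integral_congr
    intro v hv
    rw [Set.uIcc_of_le hc.le] at hv
    exact h v hv.1 hv.2
  rw [this, intervalIntegral.integral_const, smul_eq_mul, sub_zero]
  field_simp

theorem st_step {D E a₀ c : ℝ} (hc : 0 < c) {V : ℝ → ℝ} {K : ℝ → ℝ → ℂ} (h : St D E a₀ V K) :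
    St D (E + c) a₀ (av c V) (fun a y => K a y * J c ((a : ℂ) + (y : ℂ) * I)) := by
  have hc' : (c : ℂ) ≠ 0 := by exact_mod_cast hc.ne'
  have hcp : 0 < 1 / c := by positivity
  have hint : ∀ x, IntervalIntegrable (fun v => V (x - v)) volume 0 c := fun x =>
    (h.vc.comp (continuous_const.sub continuous_id)).intervalIntegrable _ _
  have hJc : ∀ a : ℝ, 1 ≤ a → Continuous (fun y : ℝ => J c ((a : ℂ) + (y : ℂ) * I)) := fun a ha =>
    Pool.Agent.H448R2.GC.K3.G_cont c a hc (by linarith)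
  have hJb : ∀ a : ℝ, 1 ≤ a → ∀ y : ℝ, ‖J c ((a : ℂ) + (y : ℂ) * I)‖ ≤ Real.exp (c * a) :=
    fun a ha y => Pool.Agent.H448R2.GC.K3.G_bound c a y hc (by linarith)
  refine ⟨?_, ?_, ?_, ?_, av_cont h.vc, ?_, ?_, ?_⟩
  · intro x
    refine mul_nonneg hcp.le ?_
    exact intervalIntegral.integral_nonneg hc.le fun v _ => h.nn _
  · intro x
    have h1 : ∫ v in (0 : ℝ)..c, V (x - v) ≤ ∫ _v in (0 : ℝ)..c, (1 : ℝ) :=
      intervalIntegral.integral_mono_on hc.le (hint x) (by simp) fun v _ => h.le _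
    rw [intervalIntegral.integral_const, smul_eq_mul, mul_one, sub_zero] at h1
    unfold av
    calc 1 / c * ∫ v in (0 : ℝ)..c, V (x - v) ≤ 1 / c * c := mul_le_mul_of_nonneg_left h1 hcp.le
      _ = 1 := by field_simp
  · intro x hx
    exact av_const hc fun v hv _ => h.one _ (by linarith)
  · intro x hx
    exact av_const hc fun v _ hv => h.zero _ (by linarith)
  · intro a ha ha'
    exact (h.kc a ha ha').mul (hJc a ha)
  · intro a ha ha'
    have h1 := (h.ki a ha ha').bdd_mul (c := Real.exp (c * a)) (hJc a ha).aestronglyMeasurable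
      (Eventually.of_forall fun y => hJb a ha y)
    refine h1.congr (Eventually.of_forall fun y => ?_)
    simp only
    ring
  · intro a ha ha' x
    have ha0 : 0 < a := by linarith
    set Gx : ℝ → ℂ := fun y => K a y * cexp (-(((a : ℂ) + (y : ℂ) * I) * x)) with hGx
    have hGi : Integrable Gx := by
      have h1 := (h.ki a ha ha').bdd_mul (c := Real.exp (-(a * x)))
        (f := fun y : ℝ => cexp (-(((a : ℂ) + (y : ℂ) * I) * x)))
        (Continuous.aestronglyMeasurable (by fun_prop))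
        (Eventually.of_forall fun y => by
          rw [Complex.norm_exp]
          apply le_of_eq
          congr 1
          simp)
      refine h1.congr (Eventually.of_forall fun y => ?_)
      simp only [hGx]
      ring
    unfold av
    rw [Complex.ofReal_mul, ← intervalIntegral.integral_ofReal]
    have h2 : ∫ τ in (0 : ℝ)..c, ((V (x - τ) : ℝ) : ℂ) =
        ∫ τ in (0 : ℝ)..c, ∫ y : ℝ, cexp (((a : ℂ) + (y : ℂ) * I) * τ) * Gx y := by
      refine intervalIntegral.integral_congr fun τ _ => ?_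
      show ((V (x - τ) : ℝ) : ℂ) = ∫ y : ℝ, cexp (((a : ℂ) + (y : ℂ) * I) * τ) * Gx y
      rw [h.rep a ha ha' (x - τ)]
      congr 1
      funext y
      rw [hGx]
      simp only
      rw [mul_left_comm, ← Complex.exp_add]
      congr 2
      push_cast
      ring
    have hI : Integrable (Function.uncurry fun (τ y : ℝ) =>
        cexp (((a : ℂ) + (y : ℂ) * I) * τ) * Gx y)
        ((volume.restrict (Set.Ioc 0 c)).prod volume) := by
      have hb : Integrable (fun p : ℝ × ℝ => (1 : ℂ) * Gx p.2)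
          ((volume.restrict (Set.Ioc 0 c)).prod volume) :=
        Integrable.mul_prod (f := fun _ : ℝ => (1 : ℂ)) (g := Gx) (integrable_const _) hGi
      simp only [one_mul] at hb
      refine hb.bdd_mul (c := Real.exp (a * c)) (f := fun p : ℝ × ℝ =>
        cexp (((a : ℂ) + (p.2 : ℂ) * I) * p.1)) ?_ ?_
      · exact Continuous.aestronglyMeasurable (by fun_prop)
      · have hm : ((volume : Measure ℝ).restrict (Set.Ioc 0 c)).prod (volume : Measure ℝ) =
            ((volume : Measure ℝ).prod (volume : Measure ℝ)).restrict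
              (Set.Ioc 0 c ×ˢ Set.univ) := by
          rw [← Measure.prod_restrict, Measure.restrict_univ]
        rw [hm]
        refine (ae_restrict_mem (measurableSet_Ioc.prod MeasurableSet.univ)).mono fun p hp => ?_
        have hp1 := (Set.mem_prod.1 hp).1
        rw [Complex.norm_exp]
        apply Real.exp_le_exp.2
        have : (((a : ℂ) + (p.2 : ℂ) * I) * (p.1 : ℂ)).re = a * p.1 := by simp
        rw [this]
        exact mul_le_mul_of_nonneg_left hp1.2 ha0.le
    rw [h2, intervalIntegral.integral_of_le hc.le, integral_integral_swap hI,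
      ← integral_const_mul]
    congr 1
    funext y
    rw [integral_mul_const, ← intervalIntegral.integral_of_le hc.le,
      Pool.Agent.H448R2.GC.K3.Ps_int c hc _ (Pool.Agent.H448R2.GC.K3.line_ne a y ha0)]
    unfold J
    rw [hGx]
    push_cast
    field_simp

/-- the start -/
theorem st_zero {D l a₀ : ℝ} (hl : 0 < l) (k : ℕ) :
    St D (D + (k + 1 : ℕ) * l) a₀ (fun x => cu (k + 1) l (x - D))
      (fun a y => (1 / (2 * Real.pi)) * ker (k + 1) l D a y) := by
  refine ⟨?_, ?_, ?_, ?_, ?_, ?_, ?_, ?_⟩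
  · exact fun x => Pool.Agent.H448R2.GC.cu_nonneg _ _ _ hl
  · exact fun x => Pool.Agent.H448R2.GC.cu_le_one _ _ _ hl
  · exact fun x hx => Pool.Agent.H448R2.GC.cu_one _ _ _ hl (by linarith)
  · exact fun x hx => Pool.Agent.H448R2.GC.cu_zero _ _ _ hl (by linarith)
  · exact (Pool.Agent.H448R2.GC.cu_cont k l hl).comp (continuous_id.sub continuous_const)
  · intro a ha _
    exact continuous_const.mul (Pool.Agent.H448R2.GC.K3.ker_cont' _ l D a hl (by linarith))
  · intro a ha _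
    exact (Pool.Agent.H448R2.GC.K3.ker_int' k l D a hl (by linarith)).const_mul _
  · intro a ha _ x
    rw [Pool.Agent.H448R2.GC.cu_mellin (k + 1) (by omega) l hl a (by linarith) (x - D),
      ← integral_const_mul]
    congr 1
    funext y
    rw [show -(x - D) = (-x) + D by ring, Pool.Agent.H448R2.GC.K3.ker_shift]
    rw [mul_assoc, mul_comm (cexp _)]
    congr 3
    push_cast
    ring

/-- the kernels -/
noncomputable def KJ (D l : ℝ) (k : ℕ) (κ : ℕ → ℝ) (N : ℕ) (a y : ℝ) : ℂ :=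
  (1 / (2 * Real.pi)) * ker (k + 1) l D a y *
    ∏ j ∈ Finset.range N, J (κ j) ((a : ℂ) + (y : ℂ) * I)

theorem st_all {D l a₀ : ℝ} (hl : 0 < l) (k : ℕ) {κ : ℕ → ℝ} (hκ : ∀ j, 0 < κ j) (N : ℕ) :
    ∃ V : ℝ → ℝ, St D (D + (k + 1 : ℕ) * l + ∑ j ∈ Finset.range N, κ j) a₀ V (KJ D l k κ N) := by
  induction N with
  | zero =>
    refine ⟨fun x => cu (k + 1) l (x - D), ?_⟩
    have h := st_zero (D := D) (a₀ := a₀) hl k
    rw [Finset.sum_range_zero, add_zero]
    convert h using 2 with a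
    funext y
    simp [KJ]
  | succ N ih =>
    obtain ⟨V, hV⟩ := ih
    refine ⟨av (κ N) V, ?_⟩
    have h := st_step (hκ N) hV
    rw [Finset.sum_range_succ, ← add_assoc]
    convert h using 2 with a
    funext y
    simp only [KJ]
    rw [Finset.prod_range_succ, ← mul_assoc]

/-! ### bounds -/

theorem ker0_bound {D l a₀ : ℝ} (hD : 0 < D) (hl : 0 < l) (k : ℕ) : ∃ C : ℝ, 0 < C ∧ ∀ a, 1 ≤ a →
    a ≤ a₀ → ∀ y : ℝ, ‖(1 / (2 * Real.pi) : ℂ) * ker (k + 1) l D a y‖ ≤ C * ((1 + |y|) ^ k)⁻¹ := by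
  refine ⟨Real.exp (D * a₀ + (k + 1 : ℕ) * l * a₀) * (6 / l) ^ (k + 1), by positivity, ?_⟩
  intro a ha ha' y
  have hy : 0 ≤ |y| := abs_nonneg y
  rw [norm_mul]
  have h1 : ‖(1 / (2 * Real.pi) : ℂ)‖ ≤ 1 := by
    have : (1 / (2 * Real.pi) : ℂ) = ((1 / (2 * Real.pi) : ℝ) : ℂ) := by push_cast; rfl
    rw [this, Complex.norm_real, Real.norm_of_nonneg (by positivity), div_le_one (by positivity)]
    nlinarith [Real.pi_gt_three]
  have h2 := Pool.Agent.H448R2.GC.ker_bound (k + 1) l D a y hl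
  set r := ‖(a : ℂ) + (y : ℂ) * I‖ with hr
  have hr1 : (1 + |y|) / 2 ≤ r := by
    have := Pool.Agent.H448R2.GC.K2.z_norm_ge a y
    rw [abs_of_pos (by linarith : 0 < a)] at this
    linarith
  have hr2 : 1 ≤ r := by
    have h3 : |a| ≤ r := by
      have := Complex.abs_re_le_norm ((a : ℂ) + (y : ℂ) * I)
      simpa using this
    have := le_abs_self a
    linarith
  have h3 : 3 / (1 + l * r) ≤ (6 / l) * (1 + |y|)⁻¹ := by
    have e : (6 / l) * (1 + |y|)⁻¹ = 6 / (l * (1 + |y|)) := by field_simp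
    rw [e, div_le_div_iff₀ (by positivity) (by positivity)]
    nlinarith [mul_le_mul_of_nonneg_left hr1 hl.le]
  have h4 : (3 / (1 + l * r)) ^ (k + 1) ≤ (6 / l) ^ (k + 1) * ((1 + |y|) ^ k)⁻¹ := by
    calc (3 / (1 + l * r)) ^ (k + 1) ≤ ((6 / l) * (1 + |y|)⁻¹) ^ (k + 1) :=
          pow_le_pow_left₀ (by positivity) h3 _
      _ = (6 / l) ^ (k + 1) * (((1 + |y|) ^ k)⁻¹ * (1 + |y|)⁻¹) := by
          rw [mul_pow, pow_succ ((1 + |y|)⁻¹) k, inv_pow]
      _ ≤ (6 / l) ^ (k + 1) * (((1 + |y|) ^ k)⁻¹ * 1) := by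
          have : (1 + |y|)⁻¹ ≤ 1 := inv_le_one_of_one_le₀ (by linarith)
          gcongr
      _ = _ := by rw [mul_one]
  have h5 : Real.exp (D * a + ((k + 1 : ℕ) : ℝ) * l * max a 0) ≤
      Real.exp (D * a₀ + ((k + 1 : ℕ) : ℝ) * l * a₀) := by
    apply Real.exp_le_exp.2
    rw [max_eq_left (by linarith)]
    gcongr
  calc ‖(1 / (2 * Real.pi) : ℂ)‖ * ‖ker (k + 1) l D a y‖
      ≤ 1 * (Real.exp (D * a + ((k + 1 : ℕ) : ℝ) * l * max a 0) * (3 / (1 + l * r)) ^ (k + 1) / r) :=
        mul_le_mul h1 h2 (norm_nonneg _) zero_le_one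
    _ = Real.exp (D * a + ((k + 1 : ℕ) : ℝ) * l * max a 0) * (3 / (1 + l * r)) ^ (k + 1) / r := by
        rw [one_mul]
    _ ≤ Real.exp (D * a + ((k + 1 : ℕ) : ℝ) * l * max a 0) * (3 / (1 + l * r)) ^ (k + 1) :=
        div_le_self (by positivity) hr2
    _ ≤ Real.exp (D * a₀ + ((k + 1 : ℕ) : ℝ) * l * a₀) *
          ((6 / l) ^ (k + 1) * ((1 + |y|) ^ k)⁻¹) := by
        gcongr
    _ = _ := by ring

theorem prod_bound {κ : ℕ → ℝ} (hκ : ∀ j, 0 < κ j) {a y : ℝ} (ha : 1 ≤ a) {N n : ℕ} (hn : n ≤ N)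
    (h : ∀ j, j < n → 4 ≤ κ j * |y|) :
    ‖∏ j ∈ Finset.range N, J (κ j) ((a : ℂ) + (y : ℂ) * I)‖ ≤
      Real.exp (a * ∑ j ∈ Finset.range N, κ j) * (1 / 2) ^ n := by
  have hz : (a : ℂ) + (y : ℂ) * I ≠ 0 := Pool.Agent.H448R2.GC.K3.line_ne a y (by linarith)
  have hre : ((a : ℂ) + (y : ℂ) * I).re = a := by simp
  have hny : |y| ≤ ‖(a : ℂ) + (y : ℂ) * I‖ := by
    have := Complex.abs_im_le_norm ((a : ℂ) + (y : ℂ) * I)
    simpa using this
  rw [norm_prod]
  calc ∏ j ∈ Finset.range N, ‖J (κ j) ((a : ℂ) + (y : ℂ) * I)‖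
      ≤ ∏ j ∈ Finset.range N, (Real.exp (a * κ j) * if j < n then (1 / 2 : ℝ) else 1) := by
        refine Finset.prod_le_prod (fun j _ => norm_nonneg _) fun j _ => ?_
        have e : κ j * max ((a : ℂ) + (y : ℂ) * I).re 0 = a * κ j := by
          rw [hre, max_eq_left (by linarith), mul_comm]
        split_ifs with hj
        · have h1 := Pool.Agent.H448R2.GC.K2.J_far (κ j) (hκ j) _ hz
          rw [e] at h1
          refine h1.trans (mul_le_mul_of_nonneg_left ?_ (Real.exp_pos _).le)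
          have h2 := h j hj
          have h3 : 4 ≤ κ j * ‖(a : ℂ) + (y : ℂ) * I‖ :=
            h2.trans (mul_le_mul_of_nonneg_left hny (hκ j).le)
          rw [div_le_div_iff₀ (by linarith) (by norm_num)]
          linarith
        · have h1 := Pool.Agent.H448R2.GC.K2.J_triv (κ j) (hκ j) ((a : ℂ) + (y : ℂ) * I)
          rw [e] at h1
          rw [mul_one]
          exact h1
    _ = Real.exp (a * ∑ j ∈ Finset.range N, κ j) * (1 / 2) ^ n := by
        rw [Finset.prod_mul_distrib, ← Real.exp_sum, ← Finset.mul_sum]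
        congr 1
        rw [Finset.prod_ite, Finset.prod_const_one, mul_one, Finset.prod_const]
        congr 1
        have : (Finset.range N).filter (fun j => j < n) = Finset.range n := by
          ext j
          rw [Finset.mem_filter, Finset.mem_range, Finset.mem_range]
          constructor
          · exact fun h => h.2
          · exact fun h => ⟨by omega, h⟩
        rw [this, Finset.card_range]

theorem sum_sq_le (N : ℕ) : ∑ j ∈ Finset.range N, 1 / ((j : ℝ) + 1) ^ 2 ≤ 2 := by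
  have key : ∀ N : ℕ, ∑ j ∈ Finset.range (N + 1), 1 / ((j : ℝ) + 1) ^ 2 ≤ 2 - 1 / ((N : ℝ) + 1) := by
    intro N
    induction N with
    | zero => norm_num
    | succ N ih =>
      rw [Finset.sum_range_succ]
      push_cast
      have h1 : 1 / ((N : ℝ) + 1 + 1) ^ 2 ≤ 1 / ((N : ℝ) + 1) - 1 / ((N : ℝ) + 1 + 1) := by
        rw [div_sub_div _ _ (by positivity) (by positivity), div_le_div_iff₀ (by positivity)
          (by positivity)]
        nlinarith [(Nat.cast_nonneg N : (0 : ℝ) ≤ N)]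
      linarith
  cases N with
  | zero => norm_num
  | succ N =>
    have := key N
    have h2 : 0 < 1 / ((N : ℝ) + 1) := by positivity
    linarith

/-- the number of factors -/
theorem count {δ : ℝ} (hδ : 0 < δ) (L y : ℝ) :
    ∃ n : ℕ, n ≤ ⌈Real.sqrt L⌉₊ ∧
      (∀ j, j < n → 4 ≤ δ / (4 * ((j : ℝ) + 1) ^ 2) * |y|) ∧
      ((1 : ℝ) / 2) ^ n ≤ 2 * Real.exp (-(Real.log 2 * min 1 (Real.sqrt δ / 4) *
        Real.sqrt (min |y| L))) := by
  have hy : 0 ≤ |y| := abs_nonneg y
  set q : ℝ := Real.sqrt δ / 4 * Real.sqrt |y| with hq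
  have hq0 : 0 ≤ q := by positivity
  refine ⟨min ⌈Real.sqrt L⌉₊ ⌊q⌋₊, min_le_left _ _, ?_, ?_⟩
  · intro j hj
    have h1 : (j : ℝ) + 1 ≤ q := by
      have h2 : j + 1 ≤ ⌊q⌋₊ := by
        have := lt_of_lt_of_le hj (min_le_right _ _)
        omega
      have h3 : ((j + 1 : ℕ) : ℝ) ≤ q := (Nat.le_floor_iff hq0).1 h2
      push_cast at h3
      exact h3
    have h2 : ((j : ℝ) + 1) ^ 2 ≤ δ / 16 * |y| := by
      calc ((j : ℝ) + 1) ^ 2 ≤ q ^ 2 := pow_le_pow_left₀ (by positivity) h1 2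
        _ = δ / 16 * |y| := by
            rw [hq, mul_pow, div_pow, Real.sq_sqrt hδ.le, Real.sq_sqrt hy]
            norm_num
    rw [div_mul_eq_mul_div, le_div_iff₀ (by positivity)]
    nlinarith
  · set m : ℝ := min 1 (Real.sqrt δ / 4) with hm
    set n : ℕ := min ⌈Real.sqrt L⌉₊ ⌊q⌋₊ with hn
    have hm0 : 0 ≤ m := le_min zero_le_one (by positivity)
    have h1 : m * Real.sqrt (min |y| L) ≤ n + 1 := by
      have h2 : m * Real.sqrt (min |y| L) ≤ Real.sqrt L := by
        calc m * Real.sqrt (min |y| L) ≤ 1 * Real.sqrt L :=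
              mul_le_mul (min_le_left _ _) (Real.sqrt_le_sqrt (min_le_right _ _))
                (Real.sqrt_nonneg _) zero_le_one
          _ = Real.sqrt L := one_mul _
      have h3 : m * Real.sqrt (min |y| L) ≤ q :=
        mul_le_mul (min_le_right _ _) (Real.sqrt_le_sqrt (min_le_left _ _))
          (Real.sqrt_nonneg _) (by positivity)
      rcases min_choice ⌈Real.sqrt L⌉₊ ⌊q⌋₊ with h4 | h4
      · rw [hn, h4]
        have := Nat.le_ceil (Real.sqrt L)
        linarith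
      · rw [hn, h4]
        have := Nat.lt_floor_add_one q
        linarith
    have hlog : 0 < Real.log 2 := Real.log_pos (by norm_num)
    have h2 : ((1 : ℝ) / 2) ^ n = Real.exp (-(Real.log 2 * n)) := by
      rw [Real.exp_neg, mul_comm, Real.exp_nat_mul, Real.exp_log (by norm_num), one_div, inv_pow]
    have h3 : (2 : ℝ) = Real.exp (Real.log 2) := (Real.exp_log (by norm_num)).symm
    rw [h2]
    calc Real.exp (-(Real.log 2 * n)) ≤
          Real.exp (Real.log 2 + -(Real.log 2 * m * Real.sqrt (min |y| L))) := by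
          apply Real.exp_le_exp.2
          have := mul_le_mul_of_nonneg_left h1 hlog.le
          nlinarith
      _ = 2 * Real.exp (-(Real.log 2 * m * Real.sqrt (min |y| L))) := by
          rw [Real.exp_add, ← h3]

end CutA

open CutA in
/-- **CUT** -/
theorem cut : S_cut := by
  intro β₁ β₂ a₀ B hβ₁ hβ ha₀
  set δ : ℝ := β₂ - β₁ with hδd
  have hδ : 0 < δ := by rw [hδd]; linarith
  set l : ℝ := δ / (4 * (B + 1)) with hl
  have hl0 : 0 < l := by positivity
  set κ : ℕ → ℝ := fun j => δ / (4 * ((j : ℝ) + 1) ^ 2) with hκd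
  have hκ : ∀ j, 0 < κ j := fun j => by rw [hκd]; positivity
  have hsum : ∀ N, ∑ j ∈ Finset.range N, κ j ≤ δ / 2 := by
    intro N
    have h1 := sum_sq_le N
    have e : ∑ j ∈ Finset.range N, κ j = δ / 4 * ∑ j ∈ Finset.range N, 1 / ((j : ℝ) + 1) ^ 2 := by
      rw [Finset.mul_sum]
      refine Finset.sum_congr rfl fun j _ => ?_
      rw [hκd]
      field_simp
    rw [e]
    nlinarith
  obtain ⟨C₀, hC₀, hker⟩ := ker0_bound (a₀ := a₀) hβ₁ hl0 B
  have hlog : 0 < Real.log 2 := Real.log_pos (by norm_num)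
  refine ⟨Real.log 2 * min 1 (Real.sqrt δ / 4), C₀ * (Real.exp (a₀ * (δ / 2)) * 2),
    mul_pos hlog (lt_min one_pos (by positivity)), by positivity, ?_⟩
  intro L hL
  have hL0 : 0 < L := by linarith
  obtain ⟨V, hV⟩ := st_all (D := β₁) (a₀ := a₀) hl0 B hκ ⌈Real.sqrt L⌉₊
  refine ⟨fun x => V (x / L), KJ β₁ l B κ ⌈Real.sqrt L⌉₊, ?_, ?_, ?_, ?_, ?_, ?_, ?_⟩
  · exact fun x => hV.nn _
  · exact fun x => hV.le _
  · intro x hx
    apply hV.one
    rw [div_le_iff₀ hL0]
    exact hx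
  · intro x hx
    apply hV.zero
    have h1 : β₂ ≤ x / L := by rwa [le_div_iff₀ hL0]
    have h2 := hsum ⌈Real.sqrt L⌉₊
    have h3 : ((B + 1 : ℕ) : ℝ) * l = δ / 4 := by
      rw [hl]; push_cast; field_simp
    rw [h3]
    linarith
  · exact fun a ha ha' => hV.kc a ha ha'
  · intro a ha ha' y
    obtain ⟨n, hn1, hn2, hn3⟩ := count hδ L y
    have h1 := hker a ha ha' y
    have h2 := prod_bound hκ (y := y) ha hn1 hn2
    have h3 : Real.exp (a * ∑ j ∈ Finset.range ⌈Real.sqrt L⌉₊, κ j) ≤ Real.exp (a₀ * (δ / 2)) := by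
      apply Real.exp_le_exp.2
      have h4 := hsum ⌈Real.sqrt L⌉₊
      have h5 : 0 ≤ ∑ j ∈ Finset.range ⌈Real.sqrt L⌉₊, κ j :=
        Finset.sum_nonneg fun j _ => (hκ j).le
      exact mul_le_mul ha' h4 h5 (by linarith)
    unfold KJ
    rw [norm_mul]
    calc ‖(1 / (2 * Real.pi) : ℂ) * Pool.Agent.H448R2.GC.ker (B + 1) l β₁ a y‖ *
          ‖∏ j ∈ Finset.range ⌈Real.sqrt L⌉₊, Pool.Agent.H448R2.GC.K2.J (κ j)
            ((a : ℂ) + (y : ℂ) * I)‖
        ≤ (C₀ * ((1 + |y|) ^ B)⁻¹) * (Real.exp (a₀ * (δ / 2)) *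
          (2 * Real.exp (-(Real.log 2 * min 1 (Real.sqrt δ / 4) * Real.sqrt (min |y| L))))) := by
          refine mul_le_mul h1 (h2.trans ?_) (norm_nonneg _) (by positivity)
          exact mul_le_mul h3 hn3 (by positivity) (by positivity)
      _ = _ := by ring
  · intro a ha ha' x
    have h1 := hV.rep a ha ha' (x / L)
    rw [h1]
    congr 1
    funext y
    congr 2
    push_cast
    ring

end Pool.Agent.N802.WD
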