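import Pool.Agent.N802.WD.Stm3
import Pool.Agent.N802.WD.Cut

/-!
# Smooth cutoffs with Gevrey Mellin kernels: arbitrary rate

As in `Cut.lean`; every scale is used `p` times.
-/

set_option autoImplicit false

open Complex Filter Topology Set MeasureTheory

namespace Pool.Agent.N802.WD

namespace CutB

open CutA
open Pool.Agent.H448R2.GC (cu ker)
open Pool.Agent.H448R2.GC.K2 (J)

/-- the scales: every scale `p` times -/
noncomputable def kp (δ : ℝ) (p : ℕ) (m : ℕ) : ℝ := δ / p / (4 * (((m / p : ℕ) : ℝ) + 1) ^ 2)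

theorem kp_pos {δ : ℝ} (hδ : 0 < δ) {p : ℕ} (hp : 0 < p) (m : ℕ) : 0 < kp δ p m := by
  have : (0 : ℝ) < p := by exact_mod_cast hp
  unfold kp
  positivity

theorem kp_sum {δ : ℝ} (hδ : 0 < δ) {p : ℕ} (hp : 0 < p) (N : ℕ) :
    ∑ m ∈ Finset.range (p * N), kp δ p m ≤ δ / 2 := by
  have hp' : (0 : ℝ) < p := by exact_mod_cast hp
  have e : ∑ m ∈ Finset.range (p * N), kp δ p m =
      δ / 4 * ∑ j ∈ Finset.range N, 1 / ((j : ℝ) + 1) ^ 2 := by
    induction N with
    | zero => simp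
    | succ N ih =>
      rw [Finset.sum_range_succ, mul_add, mul_one, Finset.sum_range_add, ih, mul_add]
      congr 1
      have h1 : ∀ i ∈ Finset.range p, kp δ p (p * N + i) = δ / p / (4 * ((N : ℝ) + 1) ^ 2) := by
        intro i hi
        have hi' := Finset.mem_range.1 hi
        unfold kp
        rw [Nat.mul_add_div hp, Nat.div_eq_of_lt hi', add_zero]
      rw [Finset.sum_congr rfl h1, Finset.sum_const, Finset.card_range, nsmul_eq_mul]
      field_simp
  rw [e]
  have h1 := sum_sq_le N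
  nlinarith

/-- the number of factors -/
theorem count2 {δ : ℝ} (hδ : 0 < δ) {p : ℕ} (hp : 0 < p) (L y : ℝ) :
    ∃ n : ℕ, n ≤ p * ⌈Real.sqrt L⌉₊ ∧
      (∀ m, m < n → 4 ≤ kp δ p m * |y|) ∧
      ((1 : ℝ) / 2) ^ n ≤ 2 ^ p * Real.exp (-(Real.log 2 * Real.sqrt p *
        min 1 (Real.sqrt δ / 4) * Real.sqrt (min |y| L))) := by
  have hp' : (1 : ℝ) ≤ p := by exact_mod_cast hp
  obtain ⟨n, h1, h2, h3⟩ := count (δ := δ / p) (by positivity) L y
  refine ⟨p * n, Nat.mul_le_mul_left p h1, ?_, ?_⟩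
  · intro m hm
    have h4 : m / p < n := by
      rw [Nat.div_lt_iff_lt_mul hp]
      rwa [mul_comm] at hm
    exact h2 (m / p) h4
  · have h4 : ((1 : ℝ) / 2) ^ (p * n) ≤ (2 * Real.exp (-(Real.log 2 *
        min 1 (Real.sqrt (δ / p) / 4) * Real.sqrt (min |y| L)))) ^ p := by
      rw [mul_comm p n, pow_mul]
      exact pow_le_pow_left₀ (by positivity) h3 p
    refine h4.trans ?_
    rw [mul_pow, ← Real.exp_nat_mul]
    refine mul_le_mul_of_nonneg_left (Real.exp_le_exp.2 ?_) (by positivity)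
    have hs : 0 ≤ Real.sqrt (min |y| L) := Real.sqrt_nonneg _
    have hlog : 0 < Real.log 2 := Real.log_pos (by norm_num)
    have hsp : Real.sqrt p * Real.sqrt p = p := Real.mul_self_sqrt (by linarith)
    have hsp1 : 1 ≤ Real.sqrt p := by
      rw [show (1 : ℝ) = Real.sqrt 1 by simp]
      exact Real.sqrt_le_sqrt hp'
    have h5 : Real.sqrt p * min 1 (Real.sqrt δ / 4) ≤ p * min 1 (Real.sqrt (δ / p) / 4) := by
      rw [Real.sqrt_div hδ.le]
      rcases min_choice 1 (Real.sqrt δ / Real.sqrt p / 4) with h6 | h6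
      · rw [h6, mul_one]
        calc Real.sqrt p * min 1 (Real.sqrt δ / 4) ≤ Real.sqrt p * 1 :=
              mul_le_mul_of_nonneg_left (min_le_left _ _) (by linarith)
          _ ≤ Real.sqrt p * Real.sqrt p := mul_le_mul_of_nonneg_left hsp1 (by linarith)
          _ = p := hsp
      · rw [h6]
        calc Real.sqrt p * min 1 (Real.sqrt δ / 4) ≤ Real.sqrt p * (Real.sqrt δ / 4) :=
              mul_le_mul_of_nonneg_left (min_le_right _ _) (by linarith)
          _ = (Real.sqrt p * Real.sqrt p) * (Real.sqrt δ / Real.sqrt p / 4) := by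
              field_simp
          _ = p * (Real.sqrt δ / Real.sqrt p / 4) := by rw [hsp]
    have h6 := mul_le_mul_of_nonneg_left (mul_le_mul_of_nonneg_right h5 hs) hlog.le
    nlinarith

end CutB

open CutA CutB in
/-- **CUT2** -/
theorem cut2 : S_cut2 := by
  intro β₁ β₂ a₀ B c hβ₁ hβ ha₀ hc
  set δ : ℝ := β₂ - β₁ with hδd
  have hδ : 0 < δ := by rw [hδd]; linarith
  set l : ℝ := δ / (4 * (B + 1)) with hl
  have hl0 : 0 < l := by positivity
  have hlog : 0 < Real.log 2 := Real.log_pos (by norm_num)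
  have hmin : 0 < min 1 (Real.sqrt δ / 4) := lt_min one_pos (by positivity)
  -- the number of copies
  obtain ⟨p, hp, hpc⟩ : ∃ p : ℕ, 0 < p ∧
      c ≤ Real.log 2 * Real.sqrt p * min 1 (Real.sqrt δ / 4) := by
    obtain ⟨p, hp⟩ := exists_nat_ge ((c / (Real.log 2 * min 1 (Real.sqrt δ / 4))) ^ 2)
    refine ⟨p + 1, Nat.succ_pos p, ?_⟩
    have h1 : c / (Real.log 2 * min 1 (Real.sqrt δ / 4)) ≤ Real.sqrt ((p + 1 : ℕ) : ℝ) := by
      apply Real.le_sqrt_of_sq_le
      push_cast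
      linarith
    rw [div_le_iff₀ (by positivity)] at h1
    linarith
  have hκ : ∀ j, 0 < kp δ p j := kp_pos hδ hp
  have hsum : ∀ N, ∑ j ∈ Finset.range (p * N), kp δ p j ≤ δ / 2 := kp_sum hδ hp
  obtain ⟨C₀, hC₀, hker⟩ := ker0_bound (a₀ := a₀) hβ₁ hl0 B
  refine ⟨C₀ * (Real.exp (a₀ * (δ / 2)) * 2 ^ p), by positivity, ?_⟩
  intro L hL
  have hL0 : 0 < L := by linarith
  obtain ⟨V, hV⟩ := st_all (D := β₁) (a₀ := a₀) hl0 B hκ (p * ⌈Real.sqrt L⌉₊)
  refine ⟨fun x => V (x / L), KJ β₁ l B (kp δ p) (p * ⌈Real.sqrt L⌉₊), ?_, ?_, ?_, ?_, ?_, ?_, ?_⟩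
  · exact fun x => hV.nn _
  · exact fun x => hV.le _
  · intro x hx
    apply hV.one
    rw [div_le_iff₀ hL0]
    exact hx
  · intro x hx
    apply hV.zero
    have h1 : β₂ ≤ x / L := by rwa [le_div_iff₀ hL0]
    have h2 := hsum ⌈Real.sqrt L⌉₊
    have h3 : ((B + 1 : ℕ) : ℝ) * l = δ / 4 := by
      rw [hl]; push_cast; field_simp
    rw [h3]
    linarith
  · exact fun a ha ha' => hV.kc a ha ha'
  · intro a ha ha' y
    obtain ⟨n, hn1, hn2, hn3⟩ := count2 hδ hp L y
    have h1 := hker a ha ha' y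
    have h2 := prod_bound hκ (y := y) ha hn1 hn2
    have h3 : Real.exp (a * ∑ j ∈ Finset.range (p * ⌈Real.sqrt L⌉₊), kp δ p j) ≤
        Real.exp (a₀ * (δ / 2)) := by
      apply Real.exp_le_exp.2
      have h4 := hsum ⌈Real.sqrt L⌉₊
      have h5 : 0 ≤ ∑ j ∈ Finset.range (p * ⌈Real.sqrt L⌉₊), kp δ p j :=
        Finset.sum_nonneg fun j _ => (hκ j).le
      exact mul_le_mul ha' h4 h5 (by linarith)
    have h6 : ((1 : ℝ) / 2) ^ n ≤ 2 ^ p * Real.exp (-(c * Real.sqrt (min |y| L))) := by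
      refine hn3.trans (mul_le_mul_of_nonneg_left (Real.exp_le_exp.2 ?_) (by positivity))
      have := mul_le_mul_of_nonneg_right hpc (Real.sqrt_nonneg (min |y| L))
      linarith
    unfold KJ
    rw [norm_mul]
    calc ‖(1 / (2 * Real.pi) : ℂ) * Pool.Agent.H448R2.GC.ker (B + 1) l β₁ a y‖ *
          ‖∏ j ∈ Finset.range (p * ⌈Real.sqrt L⌉₊), Pool.Agent.H448R2.GC.K2.J (kp δ p j)
            ((a : ℂ) + (y : ℂ) * I)‖
        ≤ (C₀ * ((1 + |y|) ^ B)⁻¹) * (Real.exp (a₀ * (δ / 2)) *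
          (2 ^ p * Real.exp (-(c * Real.sqrt (min |y| L))))) := by
          refine mul_le_mul h1 (h2.trans ?_) (norm_nonneg _) (by positivity)
          exact mul_le_mul h3 h6 (by positivity) (by positivity)
      _ = _ := by ring
  · intro a ha ha' x
    have h1 := hV.rep a ha ha' (x / L)
    rw [h1]
    congr 1
    funext y
    congr 2
    push_cast
    ring

end Pool.Agent.N802.WD
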