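import Pool.Agent.N802.WD.Stm2
import Pool.Agent.N802.U.Direct

/-!
# Short Dirichlet polynomials at the zeros themselves: from windows of width `H₀ / log T`

Project WD, leaf DIRECT6 (helper141), adapted from `Pool/Agent/N802/U/Direct.lean` and
`Pool/Agent/N802/X/Low.lean`.
-/

open Complex Filter Topology Set MeasureTheory
open scoped BigOperators ComplexConjugate

namespace Pool.Agent.N802.WD

open H370 hiding pt
open TC Pool.Agent.N802.U Pool.Agent.N802.U.Directaux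

/-- **DIRECT6** -/
theorem directD {F : ℂ → ℂ} (hF : GoodL F) {q : ℝ} {c : ℂ → ℝ} (hc0 : ∀ s, 0 ≤ c s)
    (hcm : ∀ s, 0 < s.re → s.re < 1 → 1 < s.im → F s = 0 → c s ≤ mult F s)
    (hsharp : S_sharpD F q c) : S_directD F q c := by
  classical
  intro ε hε hε1
  obtain ⟨δs, H0, Ts, hδs, hH0, hTs, HS⟩ := hsharp (ε / 4) (by linarith) (by linarith)
  obtain ⟨δ, hδ0, hδ1, hδ2⟩ : ∃ δ : ℝ, 0 < δ ∧ δ ≤ δs ∧ H0 * δ ≤ ε / 64 := by
    refine ⟨min δs (ε / 64 / H0), lt_min hδs (by positivity), min_le_left _ _, ?_⟩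
    calc H0 * min δs (ε / 64 / H0) ≤ H0 * (ε / 64 / H0) :=
          mul_le_mul_of_nonneg_left (min_le_right _ _) hH0.le
      _ = ε / 64 := by field_simp
  have ev : ∀ᶠ T : ℝ in atTop, 1 ≤ Real.log T ∧ H0 / δs ≤ Real.log T :=
    (Real.tendsto_log_atTop.eventually_ge_atTop _).and
      (Real.tendsto_log_atTop.eventually_ge_atTop _)
  obtain ⟨T1, hT1⟩ := eventually_atTop.1 ev
  refine ⟨δ, max Ts T1, hδ0, hTs.trans (le_max_left _ _), ?_⟩
  intro T hT K hK1 hK2 S hS r
  obtain ⟨hL1, hLH⟩ := hT1 T ((le_max_right _ _).trans hT)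
  have hTT : Ts ≤ T := (le_max_left _ _).trans hT
  have hT0 : 0 < T := by linarith
  have hT1' : 1 ≤ T := by linarith
  set L := Real.log T with hL
  have hL0 : 0 < L := by linarith
  set Y := δ * L with hY
  have hY0 : 0 < Y := by positivity
  have hSN : Len S (Real.exp Y) := by
    intro k hk
    refine ⟨(hS k hk).1, (hS k hk).2.trans ?_⟩
    rw [Real.rpow_def_of_pos hT0, hY, mul_comm δ L]
  set h := H0 / L with hh
  have hh0 : 0 < h := by positivity
  have hhY : h * Y ≤ ε / 64 := by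
    have : h * Y = H0 * δ := by rw [hh, hY]; field_simp
    rw [this]
    exact hδ2
  have c2 : h ≤ δs := by
    rw [hh, div_le_iff₀ hL0]
    rw [div_le_iff₀ hδs] at hLH
    linarith
  have c4 : T ^ (1 - δs) ≤ K :=
    (Real.rpow_le_rpow_of_exponent_le hT1' (by linarith)).trans hK1
  have c5 : Len S (T ^ δs) := fun k hk => ⟨(hS k hk).1, (hS k hk).2.trans
    (Real.rpow_le_rpow_of_exponent_le hT1' hδ1)⟩
  have M1 := HS T hTT h le_rfl c2 K c4 hK2 S c5 r
  have M2 := (HS T hTT h le_rfl c2 K c4 hK2 S c5 (dr r)).2.1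
  set w := w1 S r with hw
  have hw0 : 0 ≤ w := Pool.Agent.N802.w1_nonneg S r
  have hK0 : 0 < K := lt_of_lt_of_le (Real.rpow_pos_of_pos hT0 _) hK1
  set Q := K / (2 * Real.pi) * Real.log T with hQ
  have hQ0 : 0 < Q := by
    rw [hQ, ← hL]
    positivity
  set Z := Zf F T (T + K) with hZ
  -- the sum of the errors
  set er : ℂ → ℝ := fun s => 2 * h * (Y * Mh S r h s.im + Mh S (dr r) h s.im / Y) with her
  have er0 : ∀ s, 0 ≤ er s := fun s => by
    have a1 := Mh_nonneg (S := S) (r := r) (g := s.im) hh0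
    have a2 := Mh_nonneg (S := S) (r := dr r) (g := s.im) hh0
    simp only [her]
    positivity
  have hpt : ∀ s : ℂ, |‖RP S r s.im‖ ^ 2 - Mh S r h s.im| ≤ er s := fun s =>
    Directaux.point S r hh0 hY0 s.im
  have e4 : 0 ≤ Q * w := by positivity
  have hsum : ∑ s ∈ Z, (mult F s : ℝ) * er s ≤ ε / 8 * (Q * w) := by
    have e1 : ∑ s ∈ Z, (mult F s : ℝ) * er s =
        2 * h * (Y * (∑ s ∈ Z, (mult F s : ℝ) * Mh S r h s.im) +
          (∑ s ∈ Z, (mult F s : ℝ) * Mh S (dr r) h s.im) / Y) := by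
      rw [Finset.mul_sum, Finset.sum_div, ← Finset.sum_add_distrib, Finset.mul_sum]
      refine Finset.sum_congr rfl fun s _ => ?_
      simp only [her]
      ring
    rw [e1]
    have e2 : (∑ s ∈ Z, (mult F s : ℝ) * Mh S (dr r) h s.im) / Y ≤
        Y * ((1 + ε / 4) * (Q * w)) := by
      rw [div_le_iff₀ hY0]
      have e3 := w1_dr (r := r) hSN
      have e4 : (1 + ε / 4) * (Q * w1 S (dr r)) ≤ (1 + ε / 4) * (Q * (Y ^ 2 * w)) :=
        mul_le_mul_of_nonneg_left (mul_le_mul_of_nonneg_left e3 hQ0.le) (by positivity)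
      refine (M2.trans e4).trans (le_of_eq ?_)
      ring
    have e5 : Y * (∑ s ∈ Z, (mult F s : ℝ) * Mh S r h s.im) ≤
        Y * ((1 + ε / 4) * (Q * w)) := mul_le_mul_of_nonneg_left M1.2.1 hY0.le
    have e6 := mul_le_mul_of_nonneg_left (add_le_add e5 e2) (show 0 ≤ 2 * h by positivity)
    refine e6.trans ?_
    have e7 : 2 * h * (Y * ((1 + ε / 4) * (Q * w)) + Y * ((1 + ε / 4) * (Q * w))) =
        4 * (h * Y) * (1 + ε / 4) * (Q * w) := by ring
    rw [e7]
    refine mul_le_mul_of_nonneg_right ?_ e4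
    have e8 : 4 * (h * Y) * (1 + ε / 4) ≤ 4 * (ε / 64) * (1 + ε / 4) := by
      have : 0 ≤ 1 + ε / 4 := by linarith
      gcongr
    nlinarith
  refine ⟨?_, ?_, ?_⟩
  · have e1 : ∑ s ∈ Z, c s * er s ≤ ∑ s ∈ Z, (mult F s : ℝ) * er s := by
      refine Finset.sum_le_sum fun s hs => mul_le_mul_of_nonneg_right ?_ (er0 s)
      have hsz := (mem_Zf hF hT1').1 hs
      exact hcm s hsz.1 hsz.2.1 (by linarith [hsz.2.2.1]) hsz.2.2.2.2
    have e2 : ∑ s ∈ Z, c s * Mh S r h s.im - ∑ s ∈ Z, c s * er s ≤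
        ∑ s ∈ Z, c s * ‖RP S r s.im‖ ^ 2 := by
      rw [← Finset.sum_sub_distrib]
      refine Finset.sum_le_sum fun s _ => ?_
      rw [← mul_sub]
      refine mul_le_mul_of_nonneg_left ?_ (hc0 s)
      have := (abs_le.1 (hpt s)).1
      linarith
    have e3 := M1.1
    have e5 : (q - ε) * (Q * w) ≤ (q - ε / 4) * (Q * w) - ε / 8 * (Q * w) := by
      have e6 := mul_le_mul_of_nonneg_right (show (q - ε) ≤ (q - ε / 4) - ε / 8 by
        linarith) e4
      linarith
    refine e5.trans (le_trans ?_ e2)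
    linarith [e1.trans hsum]
  · have e2 : ∑ s ∈ Z, (mult F s : ℝ) * ‖RP S r s.im‖ ^ 2 ≤
        ∑ s ∈ Z, (mult F s : ℝ) * Mh S r h s.im + ∑ s ∈ Z, (mult F s : ℝ) * er s := by
      rw [← Finset.sum_add_distrib]
      refine Finset.sum_le_sum fun s _ => ?_
      rw [← mul_add]
      refine mul_le_mul_of_nonneg_left ?_ (Nat.cast_nonneg _)
      have := (abs_le.1 (hpt s)).2
      linarith
    have e3 := M1.2.1
    have e5 : (1 + ε / 4) * (Q * w) + ε / 8 * (Q * w) ≤ (1 + ε) * (Q * w) := by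
      have e6 := mul_le_mul_of_nonneg_right (show (1 + ε / 4) + ε / 8 ≤ 1 + ε by
        linarith) e4
      linarith
    refine e2.trans (le_trans ?_ e5)
    linarith
  · have e2 : ∑ s ∈ Z, (mult F s : ℝ) * Mh S r h s.im - ∑ s ∈ Z, (mult F s : ℝ) * er s ≤
        ∑ s ∈ Z, (mult F s : ℝ) * ‖RP S r s.im‖ ^ 2 := by
      rw [← Finset.sum_sub_distrib]
      refine Finset.sum_le_sum fun s _ => ?_
      rw [← mul_sub]
      refine mul_le_mul_of_nonneg_left ?_ (Nat.cast_nonneg _)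
      have := (abs_le.1 (hpt s)).1
      linarith
    have e3 := M1.2.2
    have e5 : (1 - ε) * (Q * w) ≤ (1 - ε / 4) * (Q * w) - ε / 8 * (Q * w) := by
      have e6 := mul_le_mul_of_nonneg_right (show (1 - ε) ≤ (1 - ε / 4) - ε / 8 by
        linarith) e4
      linarith
    refine e5.trans (le_trans ?_ e2)
    linarith

end Pool.Agent.N802.WD
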