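import Pool.Agent.N802.WD.Jen3a

/-!
# From the decay of the mean square to the number of zeros, without loss in the exponent
-/

set_option linter.unusedSectionVars false

namespace Pool.Agent.N802.WD.J3

open MeasureTheory Set Filter Topology Complex Metric
open Pool.Agent.R399.TW (pt pt_re pt_im pt_cont)
open Pool.Agent.N935.WD

variable {c₁ C₁ L : ℝ} {f : ℂ → ℂ} {a b x M : ℝ} {w : ℝ → ℝ}

lemma geo3 {L e P h : ℝ} (hL : 0 < L) (hh0 : 0 < h) (hh1 : h ≤ 1 / 2) (hLe : 8 / h ≤ L * e)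
    (hP : 1 ≤ P) :
    (4 * (P * (2 * e)) - e) ^ 2 + (1 / L) ^ 2 ≤
      (4 * (P * (2 * e)) - (1 - h) * e) ^ 2 * (1 - 2 * (P⁻¹ / (32 / h))) := by
  obtain ⟨u, hu⟩ : ∃ u : ℝ, u = 1 / L := ⟨_, rfl⟩
  obtain ⟨Q, hQ⟩ : ∃ Q : ℝ, Q = P⁻¹ := ⟨_, rfl⟩
  have hu0 : 0 < u := by rw [hu]; positivity
  have hP0 : 0 < P := by linarith
  have hQ0 : 0 < Q := by rw [hQ]; positivity
  have hPQ : P * Q = 1 := by rw [hQ]; field_simp
  have hue : 8 * u ≤ h * e := by
    rw [hu, mul_one_div, div_le_iff₀ hL]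
    rw [div_le_iff₀ hh0] at hLe
    linarith
  have he0 : 0 < e := by
    by_contra hcon
    rw [not_lt] at hcon
    nlinarith
  rw [← hu, ← hQ]
  have e1 : Q / (32 / h) = h * Q / 32 := by field_simp
  rw [e1]
  have h1 : u ^ 2 ≤ h ^ 2 * e ^ 2 / 64 := by
    have := pow_le_pow_left₀ (by positivity) hue 2
    nlinarith
  have h2 : (4 * (P * (2 * e)) - (1 - h) * e) ^ 2 ≤ (8 * (P * e)) ^ 2 := by
    have h3 : e ≤ P * e := by nlinarith
    have h4 : 0 ≤ (1 - h) * e := mul_nonneg (by linarith) he0.le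
    have h5 : (1 - h) * e ≤ e := by nlinarith
    exact pow_le_pow_left₀ (by linarith) (by linarith) 2
  have h3 : (4 * (P * (2 * e)) - (1 - h) * e) ^ 2 * (h * Q / 16) ≤ 4 * (h * (P * e ^ 2)) := by
    calc (4 * (P * (2 * e)) - (1 - h) * e) ^ 2 * (h * Q / 16) ≤ (8 * (P * e)) ^ 2 * (h * Q / 16) :=
          mul_le_mul_of_nonneg_right h2 (by positivity)
      _ = 4 * (h * (P * e ^ 2)) * (P * Q) := by ring
      _ = _ := by rw [hPQ, mul_one]
  have h4 : e ^ 2 ≤ P * e ^ 2 := by nlinarith [sq_nonneg e]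
  have h5 : h * e ^ 2 ≤ h * (P * e ^ 2) := mul_le_mul_of_nonneg_left h4 hh0.le
  have h6 : h ^ 2 * e ^ 2 ≤ h * e ^ 2 := by
    have : h ^ 2 ≤ h := by nlinarith
    exact mul_le_mul_of_nonneg_right this (sq_nonneg e)
  have h7 : (4 * (P * (2 * e)) - (1 - h) * e) ^ 2 - (4 * (P * (2 * e)) - e) ^ 2 =
      16 * (h * (P * e ^ 2)) - 2 * (h * e ^ 2) + h ^ 2 * e ^ 2 := by ring
  have h8 : 0 ≤ h ^ 2 * e ^ 2 := by positivity
  nlinarith

open Classical in
/-- the pointwise decomposition into blocks -/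
lemma split3 (hL : 0 < L) {A : ℝ} (hA : 1 ≤ A) (Z : Finset ℂ)
    (m : ℂ → ℕ) (hZ : ∀ s ∈ Z, s.re ≤ 1) {J : ℕ} (hJ : L ≤ J) (τ : ℝ) :
    ∑ s ∈ Z.filter (fun s => 1 / 2 + A / L ≤ s.re ∧ |s.im - τ| ≤ 1 / L), (m s : ℝ) ≤
      ∑ j ∈ Finset.range J, ∑ s ∈ Z.filter (fun s => (1 / 2 + 2 ^ j * (A / L) ≤ s.re ∧
        s.re ≤ 1 / 2 + 2 * (2 * (2 ^ j * (A / L)))) ∧ |s.im - τ| ≤ 1 / L), (m s : ℝ) := by
  simp_rw [Finset.sum_filter]
  rw [Finset.sum_comm]
  refine Finset.sum_le_sum fun s hs => ?_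
  have hms : (0 : ℝ) ≤ m s := Nat.cast_nonneg _
  have hA0 : 0 < A := by linarith
  have h2 : ∀ j ∈ Finset.range J, (0 : ℝ) ≤ (if (1 / 2 + 2 ^ j * (A / L) ≤ s.re ∧
        s.re ≤ 1 / 2 + 2 * (2 * (2 ^ j * (A / L)))) ∧ |s.im - τ| ≤ 1 / L then (m s : ℝ) else 0) := by
    intro j _
    split_ifs <;> simp
  by_cases hb : 1 / 2 + A / L ≤ s.re ∧ |s.im - τ| ≤ 1 / L
  · rw [if_pos hb]
    have hs1 := hZ s hs
    have hy : 1 ≤ (s.re - 1 / 2) / (A / L) := by
      rw [le_div_iff₀ (by positivity)]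
      linarith [hb.1]
    obtain ⟨j, hj1, hj2⟩ := exists_nat_pow_near hy (by norm_num : (1 : ℝ) < 2)
    rw [le_div_iff₀ (by positivity)] at hj1
    rw [div_lt_iff₀ (by positivity), pow_succ] at hj2
    have hjJ : j < J := by
      have h3 : (j : ℝ) < 2 ^ j := by exact_mod_cast Nat.lt_two_pow_self
      have h4 : (2 : ℝ) ^ j * A ≤ 1 / 2 * L := by
        have h5 : (2 : ℝ) ^ j * (A / L) * L = 2 ^ j * A := by field_simp
        rw [← h5]
        exact mul_le_mul_of_nonneg_right (by linarith) hL.le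
      have h6 : (0 : ℝ) < 2 ^ j := by positivity
      have h7 : (j : ℝ) < J := by nlinarith
      exact_mod_cast h7
    have h5 := Finset.single_le_sum h2 (Finset.mem_range.mpr hjJ)
    have h6 : 0 < 2 ^ j * (A / L) := by positivity
    rw [if_pos ⟨⟨by linarith, by linarith⟩, hb.2⟩] at h5
    exact h5
  · rw [if_neg hb]
    exact Finset.sum_nonneg h2

open Classical in
/-- **the total count**, far from the line -/
lemma total3 (h : Hyp c₁ C₁ L f a b x M w) (Z : Finset ℂ) (m : ℂ → ℕ)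
    (hZ : ∀ s ∈ Z, s.re ≤ 1 ∧ m s ≤ analyticOrderNatAt (fun z => 1 + f z) s) {A h' : ℝ}
    (hh0 : 0 < h') (hh1 : h' ≤ 1 / 2) (hA : 8 / h' ≤ A) :
    ∫ t in a..b, w t * ∑ s ∈ Z.filter (fun s => 1 / 2 + A / L ≤ s.re ∧
      |s.im - (t + x)| ≤ 1 / L), (m s : ℝ) ≤
      32 / h' * C₁ * (3 + Real.exp c₁ / c₁ ^ 2) * (Real.exp (4 * c₁) / (2 * c₁)) *
        Real.exp (-(c₁ * (1 - h') * A)) * M := by
  have hL : 0 < L := by linarith [h.L0]
  have hc0 := h.c0
  have hC0 := h.C0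
  have hM := h.M0
  have hexp := Real.exp_pos c₁
  have hexp4 := Real.exp_pos (4 * c₁)
  have hA16 : 16 ≤ A := by
    have : 16 ≤ 8 / h' := by
      rw [le_div_iff₀ hh0]
      linarith
    linarith
  obtain ⟨K₀, hK₀⟩ : ∃ K₀ : ℝ, K₀ = 32 / h' * C₁ * (3 + Real.exp c₁ / c₁ ^ 2) := ⟨_, rfl⟩
  have hK0 : 0 < K₀ := by rw [hK₀]; positivity
  have hB : 1 ≤ 32 / h' := by
    rw [le_div_iff₀ hh0]
    linarith
  have hm : ∀ s ∈ Z, m s ≤ analyticOrderNatAt (fun z => 1 + f z) s := fun s hs => (hZ s hs).2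
  obtain ⟨J, hJ⟩ : ∃ J : ℕ, L ≤ J := exists_nat_ge L
  have hblk : ∀ j : ℕ, ∫ t in a..b, w t * ∑ s ∈ Z.filter (fun s =>
      (1 / 2 + 2 ^ j * (A / L) ≤ s.re ∧ s.re ≤ 1 / 2 + 2 * (2 * (2 ^ j * (A / L)))) ∧
        |s.im - (t + x)| ≤ 1 / L), (m s : ℝ) ≤
      K₀ * M * (Real.exp (-(c₁ * (1 - h') * A)) *
        (Real.exp (4 * c₁) / (2 * c₁) * ((2 : ℝ) ^ (j + 1))⁻¹)) := by
    intro j
    by_cases hr : 2 ^ j * (A / L) ≤ 1 / 2
    · have h2j : (1 : ℝ) ≤ 2 ^ j := one_le_pow₀ (by norm_num)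
      have e1 : L * (2 ^ j * (A / L)) = 2 ^ j * A := by field_simp
      have h8 : 8 / h' ≤ L * (2 ^ j * (A / L)) := by rw [e1]; nlinarith
      have h0 : 0 < 2 ^ j * (A / L) := by positivity
      have h9 : 0 < 1 / (4 * L) := by positivity
      have h1 := hblock h hB (r := 2 * (2 ^ j * (A / L))) (d := (1 - h') * (2 ^ j * (A / L)))
        (e := 2 ^ j * (A / L)) (by positivity) (by linarith)
        (by
          have h10 : L * (2 * (2 ^ j * (A / L))) = 2 * (L * (2 ^ j * (A / L))) := by ring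
          rw [h10, e1]
          nlinarith)
        (by
          have h11 : 0 ≤ (1 - h') * (2 ^ j * (A / L)) := mul_nonneg (by linarith) h0.le
          linarith)
        (by nlinarith) (fun P hP => geo3 hL hh0 hh1 h8 hP) Z m hm
      rw [← hK₀] at h1
      refine h1.trans ?_
      refine mul_le_mul_of_nonneg_left ?_ (by positivity)
      have h3 : Real.exp (-(c₁ * L * ((1 - h') * (2 ^ j * (A / L))))) ≤
          Real.exp (-(c₁ * (1 - h') * A)) * (Real.exp (4 * c₁) * Real.exp (-(4 * c₁ * 2 ^ j))) := by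
        rw [← Real.exp_add, ← Real.exp_add]
        apply Real.exp_le_exp.mpr
        have e2 : c₁ * L * ((1 - h') * (2 ^ j * (A / L))) = c₁ * (1 - h') * (2 ^ j * A) := by
          rw [← e1]; ring
        rw [e2]
        have h4 : A + (2 ^ j - 1) * 16 ≤ 2 ^ j * A := by nlinarith
        have h5 : 0 < c₁ * (1 - h') := mul_pos hc0 (by linarith)
        have h6 := mul_le_mul_of_nonneg_left h4 h5.le
        have h7 : c₁ * (1 / 2) * ((2 ^ j - 1) * 16) ≤ c₁ * (1 - h') * ((2 ^ j - 1) * 16) :=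
          mul_le_mul_of_nonneg_right (mul_le_mul_of_nonneg_left (by linarith) hc0.le)
            (mul_nonneg (by linarith) (by norm_num))
        have h8' : 0 ≤ c₁ * (2 ^ j - 1) := mul_nonneg hc0.le (by linarith)
        nlinarith
      refine h3.trans (mul_le_mul_of_nonneg_left ?_ (Real.exp_pos _).le)
      have h5 : (0 : ℝ) < 4 * c₁ * 2 ^ j := by positivity
      have e3 : Real.exp (4 * c₁) / (2 * c₁) * ((2 : ℝ) ^ (j + 1))⁻¹ =
          Real.exp (4 * c₁) * (4 * c₁ * 2 ^ j)⁻¹ := by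
        rw [pow_succ]
        field_simp
        norm_num
      rw [Real.exp_neg, e3]
      have h6 := Real.add_one_le_exp (4 * c₁ * 2 ^ j)
      exact mul_le_mul_of_nonneg_left (inv_anti₀ h5 (by linarith)) hexp4.le
    · have hF : ∀ t : ℝ, Z.filter (fun s =>
          (1 / 2 + 2 ^ j * (A / L) ≤ s.re ∧ s.re ≤ 1 / 2 + 2 * (2 * (2 ^ j * (A / L)))) ∧
          |s.im - (t + x)| ≤ 1 / L) = ∅ := by
        intro t
        refine Finset.filter_eq_empty_iff.mpr fun s hs hh => ?_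
        have := (hZ s hs).1
        linarith [hh.1.1]
      simp_rw [hF, Finset.sum_empty, mul_zero, intervalIntegral.integral_zero]
      positivity
  -- integration
  have hi0 := cnt_int h.wc Z m (fun s => 1 / 2 + A / L ≤ s.re) (1 / L) x a b
    (fun t => Z.filter (fun s => 1 / 2 + A / L ≤ s.re ∧ |s.im - (t + x)| ≤ 1 / L))
    (fun t s => Finset.mem_filter)
  have hi2 : ∀ j ∈ Finset.range J, IntervalIntegrable (fun t => w t * ∑ s ∈ Z.filter (fun s =>
      (1 / 2 + 2 ^ j * (A / L) ≤ s.re ∧ s.re ≤ 1 / 2 + 2 * (2 * (2 ^ j * (A / L)))) ∧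
        |s.im - (t + x)| ≤ 1 / L), (m s : ℝ)) volume a b := fun j _ =>
    cnt_int h.wc Z m (fun s => 1 / 2 + 2 ^ j * (A / L) ≤ s.re ∧
      s.re ≤ 1 / 2 + 2 * (2 * (2 ^ j * (A / L)))) (1 / L) x a b _ (fun t s => Finset.mem_filter)
  have hi3 := IntervalIntegrable.sum (μ := volume) (a := a) (b := b) (Finset.range J) hi2
  rw [Finset.sum_fn] at hi3
  have h1 := intervalIntegral.integral_mono_on h.ab hi0 hi3 (fun t _ => by
    have h2 := mul_le_mul_of_nonneg_left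
      (split3 (A := A) hL (by linarith) Z m (fun s hs => (hZ s hs).1) hJ (t + x)) (h.w0 t)
    refine h2.trans (le_of_eq ?_)
    rw [Finset.mul_sum (Finset.range J)])
  refine h1.trans ?_
  rw [intervalIntegral.integral_finsetSum hi2]
  have h4 := Finset.sum_le_sum (fun j (_ : j ∈ Finset.range J) => hblk j)
  rw [← Finset.mul_sum, ← Finset.mul_sum, ← Finset.mul_sum] at h4
  have h5 : K₀ * M * (Real.exp (-(c₁ * (1 - h') * A)) *
      (Real.exp (4 * c₁) / (2 * c₁) * ∑ j ∈ Finset.range J, ((2 : ℝ) ^ (j + 1))⁻¹)) ≤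
      K₀ * M * (Real.exp (-(c₁ * (1 - h') * A)) * (Real.exp (4 * c₁) / (2 * c₁) * 1)) := by
    refine mul_le_mul_of_nonneg_left (mul_le_mul_of_nonneg_left
      (mul_le_mul_of_nonneg_left (geom_le J) (by positivity)) (Real.exp_pos _).le) (by positivity)
  refine (h4.trans h5).trans (le_of_eq ?_)
  rw [← hK₀]
  ring

end Pool.Agent.N802.WD.J3

namespace Pool.Agent.N802.WD

open MeasureTheory Set Filter Topology Complex Metric
open Pool.Agent.R399.TW (pt pt_re pt_im pt_cont)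
open Pool.Agent.N935.WD

/-- **JEN3** -/
theorem jen3 : S_jen3 := by
  intro c₁ C₁ η hc hC hη
  obtain ⟨h', hh'⟩ : ∃ h' : ℝ, h' = min (η / c₁) (1 / 2) := ⟨_, rfl⟩
  have hh0 : 0 < h' := by rw [hh']; exact lt_min (by positivity) (by norm_num)
  have hh1 : h' ≤ 1 / 2 := by rw [hh']; exact min_le_right _ _
  have hh2 : c₁ * h' ≤ η := by
    have : h' ≤ η / c₁ := by rw [hh']; exact min_le_left _ _
    rw [le_div_iff₀ hc] at this
    linarith
  obtain ⟨C2, hC2⟩ : ∃ C2 : ℝ, C2 = 32 / h' * C₁ * (3 + Real.exp c₁ / c₁ ^ 2) *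
    (Real.exp (4 * c₁) / (2 * c₁)) := ⟨_, rfl⟩
  obtain ⟨C3, hC3⟩ : ∃ C3 : ℝ, C3 = 200 * C₁ * (3 + Real.exp c₁ / c₁ ^ 2) *
    (Real.exp (9 * c₁ / 4) + 1 / c₁) := ⟨_, rfl⟩
  have hC2' : 0 < C2 := by rw [hC2]; positivity
  have hC3' : 0 < C3 := by rw [hC3]; positivity
  refine ⟨C2 + C3 * Real.exp (c₁ * (8 / h')), 16, by positivity, by norm_num, ?_⟩
  intro L hL f df bd a b x M w hab hax hw hw0 hM hint Z m hZ A hA
  have h : Hyp c₁ C₁ L f a b x M w := ⟨hc, hC, hL, df, bd, hab, hax, hw, hw0, hM, hint⟩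
  have hexp := Real.exp_pos (-((c₁ - η) * A))
  rcases le_or_gt (8 / h') A with hA8 | hA8
  · have h1 := J3.total3 h Z m (fun s hs => (hZ s hs).2) hh0 hh1 hA8
    refine h1.trans ?_
    rw [← hC2]
    refine mul_le_mul_of_nonneg_right ?_ hM
    have h2 : Real.exp (-(c₁ * (1 - h') * A)) ≤ Real.exp (-((c₁ - η) * A)) := by
      apply Real.exp_le_exp.mpr
      have := mul_le_mul_of_nonneg_right hh2 hA
      nlinarith
    have h3 := mul_le_mul_of_nonneg_left h2 hC2'.le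
    have h4 : 0 ≤ C3 * Real.exp (c₁ * (8 / h')) * Real.exp (-((c₁ - η) * A)) := by positivity
    linarith
  · have h1 := h.total Z m (fun s hs => (hZ s hs).2) hA
    refine h1.trans ?_
    rw [← hC3]
    refine mul_le_mul_of_nonneg_right ?_ hM
    have h2 : Real.exp (-(c₁ / 4 * A)) ≤
        Real.exp (c₁ * (8 / h')) * Real.exp (-((c₁ - η) * A)) := by
      rw [← Real.exp_add]
      apply Real.exp_le_exp.mpr
      have h5 : c₁ * A ≤ c₁ * (8 / h') := mul_le_mul_of_nonneg_left hA8.le hc.le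
      have h6 : 0 ≤ c₁ / 4 * A := by positivity
      have h7 : 0 ≤ η * A := by positivity
      linarith
    have h3 := mul_le_mul_of_nonneg_left h2 hC3'.le
    have h4 : 0 ≤ C2 * Real.exp (-((c₁ - η) * A)) := by positivity
    linarith

end Pool.Agent.N802.WD
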