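import Pool.Agent.N802.WD.Right2
import Pool.Agent.N802.WD.Stm4

/-!
# Decay to the right of the mollified function, with the full rate (after helpers 693, 433)
-/

open Complex Filter Topology Set MeasureTheory
open scoped BigOperators ComplexConjugate

namespace Pool.Agent.N802.WD

open H370 hiding pt
open TC Pool.Agent.N802.U
open Pool.Agent.R399.TW (pt pt_re pt_im pt_cont)
open Pool.Agent.N786.D (kap kap_cont kap_nn kap_scale cB cB_int cB_nn csE cauchy_le)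

namespace R2

variable {χ : ℕ → ℂ} {F E : ℂ → ℂ} {Q : ℝ}

/-- growth to the right -/
lemma gx_growth3 (hD : Dat χ F E Q) {L β₁ β₂ : ℝ} {V : ℝ → ℝ} (hV : ∀ x, 0 ≤ V x ∧ V x ≤ 1)
    (h1 : ∀ x, x ≤ β₁ * L → V x = 1) (h0 : ∀ x, β₂ * L ≤ x → V x = 0) {T : ℝ} (hT : 1 ≤ T)
    (hβ : 0 ≤ β₂) (hL : L = Real.log T) (hL4 : 4 ≤ β₁ * L) {a : ℝ} (ha : 1 / 4 ≤ a) :
    ∃ G : ℝ, ∀ z : ℂ, a ≤ z.re → ‖gx E χ V ⌊T ^ β₂⌋₊ z‖ ≤
      G * (1 + |z.im|) ^ 6 * Real.exp (-((β₁ * L - 1) * z.re)) := by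
  obtain ⟨M, hM⟩ : ∃ M : ℕ, M = ⌊T ^ β₂⌋₊ := ⟨_, rfl⟩
  have hM1 : 1 ≤ M := by
    rw [hM]
    exact Nat.le_floor (by simpa using Real.one_le_rpow hT hβ)
  have hMr : (1 : ℝ) ≤ M := by exact_mod_cast hM1
  obtain ⟨b, hb⟩ : ∃ b : ℝ, b = β₁ * L := ⟨_, rfl⟩
  rw [← hb] at hL4
  rw [← hM, ← hb]
  have hZ := Zc_nn
  have hQ := hD.Q0
  obtain ⟨G1, hG1⟩ : ∃ G1 : ℝ, G1 = (Q + 1) * M * Real.exp ((b - 1) * (3 / 2)) := ⟨_, rfl⟩
  obtain ⟨G2, hG2⟩ : ∃ G2 : ℝ, G2 = 2 * Real.exp (b * (3 / 2)) * (Zc * Zc) := ⟨_, rfl⟩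
  have hG10 : 0 ≤ G1 := by rw [hG1]; positivity
  have hG20 : 0 ≤ G2 := by rw [hG2]; positivity
  refine ⟨G1 + G2, fun z hz => ?_⟩
  have hE := Real.exp_pos (-((b - 1) * z.re))
  have him := abs_nonneg z.im
  have hre : 0 < z.re := by linarith
  have hzn : ‖z‖ ≤ z.re + |z.im| := by
    have := Complex.norm_le_abs_re_add_abs_im z
    rwa [abs_of_pos hre] at this
  rcases le_total z.re (3 / 2) with h | h
  · have h2 := gx_triv hD hV hM1 (z := z) (by linarith) h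
    have h4 : 1 ≤ Real.exp ((b - 1) * (3 / 2)) * Real.exp (-((b - 1) * z.re)) := by
      rw [← Real.exp_add]
      refine Real.one_le_exp ?_
      nlinarith
    calc ‖gx E χ V M z‖ ≤ (Q + 1) * M * (1 + |z.im|) ^ 6 := h2
      _ = (Q + 1) * M * (1 + |z.im|) ^ 6 * 1 := by ring
      _ ≤ (Q + 1) * M * (1 + |z.im|) ^ 6 *
          (Real.exp ((b - 1) * (3 / 2)) * Real.exp (-((b - 1) * z.re))) := by gcongr
      _ = G1 * (1 + |z.im|) ^ 6 * Real.exp (-((b - 1) * z.re)) := by rw [hG1]; ring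
      _ ≤ _ := by gcongr; linarith
  · have hz1 : z ≠ 1 := by
      intro h'
      rw [h'] at h
      norm_num at h
    have h2 := zM_sub_one hD hV h1 h0 (by linarith) hL h
    rw [← hM, ← hb] at h2
    have h3 : ‖z - 1‖ ≤ ‖z‖ + 1 := by
      have := norm_sub_le z 1
      simpa using this
    have h4 : ‖z‖ + 1 ≤ 2 * (1 + |z.im|) ^ 6 * Real.exp (z.re) := by
      have h5 := Real.add_one_le_exp z.re
      have h6 : ‖z‖ + 1 ≤ (1 + |z.im|) * (1 + z.re) := by nlinarith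
      have h7 : (1 + |z.im|) * (1 + z.re) ≤ (1 + |z.im|) ^ 6 * Real.exp z.re := by
        have h8 : 1 + |z.im| ≤ (1 + |z.im|) ^ 6 := le_self_pow₀ (by linarith) (by norm_num)
        calc (1 + |z.im|) * (1 + z.re) ≤ (1 + |z.im|) ^ 6 * (1 + z.re) := by gcongr
          _ ≤ _ := by gcongr; linarith
      have h9 : 0 ≤ (1 + |z.im|) ^ 6 * Real.exp z.re := by positivity
      linarith
    have h5 : Real.exp z.re * Real.exp (-(b * (z.re - 3 / 2))) ≤
        Real.exp (b * (3 / 2)) * Real.exp (-((b - 1) * z.re)) := by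
      rw [← Real.exp_add, ← Real.exp_add]
      apply Real.exp_le_exp.2
      nlinarith
    rw [gx_eq hD V M hz1, norm_mul]
    calc ‖z - 1‖ * ‖F z * Mx χ V M z - 1‖ ≤
        (2 * (1 + |z.im|) ^ 6 * Real.exp (z.re)) * (Real.exp (-(b * (z.re - 3 / 2))) * (Zc * Zc)) :=
          mul_le_mul (h3.trans h4) h2 (norm_nonneg _) (by positivity)
      _ = 2 * (1 + |z.im|) ^ 6 * (Zc * Zc) * (Real.exp z.re * Real.exp (-(b * (z.re - 3 / 2)))) := by
          ring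
      _ ≤ 2 * (1 + |z.im|) ^ 6 * (Zc * Zc) *
          (Real.exp (b * (3 / 2)) * Real.exp (-((b - 1) * z.re))) := by gcongr
      _ = G2 * (1 + |z.im|) ^ 6 * Real.exp (-((b - 1) * z.re)) := by rw [hG2]; ring
      _ ≤ _ := by gcongr; linarith

theorem right_core3 (hD : Dat χ F E Q) {T L a ρ x C m β₁ β₂ : ℝ} {V w0 : ℝ → ℝ} (hV : ∀ x, 0 ≤ V x ∧ V x ≤ 1)
    (h1 : ∀ x, x ≤ β₁ * L → V x = 1) (h0 : ∀ x, β₂ * L ≤ x → V x = 0) (hT : 10 ≤ T)
    (hL : L = Real.log T) (hL4 : 4 ≤ β₁ * L)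
    (hβ0 : 0 ≤ β₂) (hβ1 : β₂ ≤ 1)
    (ha : 1 / 4 ≤ a) (ha' : a ≤ 1 / 2) (hr0 : 0 < 1 / 2 + ρ - a) (hr : 1 / 2 + ρ - a ≤ 31)
    (hx : |x| ≤ T / 4) (hw : Continuous w0) (hw0 : ∀ t, 0 ≤ w0 t) (hm : 0 ≤ m) (hC : 0 ≤ C)
    (hmass : ∫ t in T..(2 * T), w0 t ≤ 2 * m)
    (hms : ∀ y : ℝ, |y| ≤ T / 2 → ∫ t in T..(2 * T), w0 t *
      ‖F (pt a (t + y)) * Mx χ V ⌊T ^ β₂⌋₊ (pt a (t + y))‖ ^ 2 ≤ C * m) :
    ∫ t in T..(2 * T), w0 t *
      ‖F (pt (1 / 2 + ρ) (t + x)) * Mx χ V ⌊T ^ β₂⌋₊ (pt (1 / 2 + ρ) (t + x)) - 1‖ ^ 2 ≤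
      31 ^ 0 * cB 8 0 * (31 ^ 14 * cB 8 14) * KK2 C Q *
        Real.exp (-(2 * (β₁ * L - 2) * (1 / 2 + ρ - a))) * m := by
  have hin := inner (ρ := ρ) hD hV hT hβ0 hβ1 ha ha' hr0.le hr hx hw hw0 hm hC hmass hms
  obtain ⟨G, hG⟩ := gx_growth3 hD hV h1 h0 (by linarith) hβ0 hL hL4 ha
  obtain ⟨M, hM⟩ : ∃ M : ℕ, M = ⌊T ^ β₂⌋₊ := ⟨_, rfl⟩
  rw [← hM] at hin hG ⊢
  obtain ⟨r, hrr⟩ : ∃ r : ℝ, r = 1 / 2 + ρ - a := ⟨_, rfl⟩
  rw [← hrr] at hr0 hr ⊢
  have hTT : T ≤ 2 * T := by linarith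
  set κ := kap 8 r with hκ
  have hκc : Continuous κ := kap_cont 8 hr0
  have hκ0 : ∀ v, 0 ≤ κ v := kap_nn 8 hr0
  obtain ⟨k1, k2⟩ := kap_polyR (B := 8) (p := 0) (by omega) hr0 hr (by norm_num)
  simp only [pow_zero, mul_one] at k1
  have k2' : ∫ v, κ v ≤ 31 ^ 0 * cB 8 0 := by
    refine le_trans (le_of_eq ?_) k2
    simp only [pow_zero, mul_one]
    rfl
  obtain ⟨k3, k4⟩ := kap_polyR (B := 8) (p := 14) (by omega) hr0 hr (by norm_num)
  rw [← hκ] at k1 k3 k4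
  obtain ⟨C0, hC0⟩ : ∃ C0 : ℝ, C0 = 31 ^ 0 * cB 8 0 := ⟨_, rfl⟩
  obtain ⟨C1, hC1⟩ : ∃ C1 : ℝ, C1 = 31 ^ 14 * cB 8 14 := ⟨_, rfl⟩
  have hC00 : 0 ≤ C0 := by rw [hC0]; have := cB_nn 8 0; positivity
  have hC10 : 0 ≤ C1 := by rw [hC1]; have := cB_nn 8 14; positivity
  rw [← hC0] at k2' ⊢
  rw [← hC1] at k4 ⊢
  have hQ := hD.Q0
  have hKK : 0 ≤ KK2 C Q := by unfold KK2; positivity
  set g := gx E χ V M with hg
  have hgd : Differentiable ℂ g := gx_diff hD V M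
  have hgc : Continuous fun t : ℝ => ‖g (pt a t)‖ := (hgd.continuous.comp (pt_cont _)).norm
  obtain ⟨s₀, hs₀⟩ : ∃ s₀ : ℝ, s₀ = Real.exp (-((β₁ * L - 2) * r)) := ⟨_, rfl⟩
  have hs0 : 0 < s₀ := by rw [hs₀]; exact Real.exp_pos _
  have hs2 : s₀ ^ 2 = Real.exp (-(2 * (β₁ * L - 2) * r)) := by
    rw [hs₀, ← Real.exp_nat_mul]; congr 1; push_cast; ring
  set w : ℝ → ℝ := fun t => w0 t / ‖pt (1 / 2 + ρ) (t + x) - 1‖ ^ 2 with hwdef
  have hwm : Measurable w := by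
    refine hw.measurable.div (Continuous.measurable ?_)
    have : Continuous fun t : ℝ => pt (1 / 2 + ρ) (t + x) - 1 :=
      ((pt_cont _).comp (by fun_prop : Continuous fun t : ℝ => t + x)).sub continuous_const
    exact this.norm.pow 2
  have hne : ∀ t ∈ Icc T (2 * T), pt (1 / 2 + ρ) (t + x) ≠ 1 := by
    intro t ht h
    have := congrArg Complex.im h
    rw [pt_im, Complex.one_im] at this
    have h3 := (abs_le.1 hx).1
    linarith [ht.1]
  -- pointwise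
  have hpt : ∀ t ∈ Icc T (2 * T), ENNReal.ofReal (w0 t *
      ‖F (pt (1 / 2 + ρ) (t + x)) * Mx χ V M (pt (1 / 2 + ρ) (t + x)) - 1‖ ^ 2) ≤
      ENNReal.ofReal (s₀ ^ 2 * C0) *
        ∫⁻ v, ENNReal.ofReal (κ v) * (ENNReal.ofReal (w t) *
          ENNReal.ofReal (‖g (pt a (t + x + v))‖ ^ 2)) := by
    intro t ht
    obtain ⟨i1, i2⟩ := cauchy_le hgd (a := a) (μ := β₁ * L - 2) (lam := β₁ * L - 1) (G := G)
      (m := 6) (B := 8) (by norm_num) (by linarith) hG (s := pt (1 / 2 + ρ) (t + x))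
      (by rw [pt_re]; linarith)
    have e0 : (pt (1 / 2 + ρ) (t + x)).re - a = r := by rw [pt_re, hrr]
    rw [e0, pt_im] at i1 i2
    rw [← hκ, ← hs₀] at i2
    rw [← hκ] at i1
    have hcs := csE (f := fun v => ‖g (pt a (t + x + v))‖) (w := κ)
      (hgc.comp (by fun_prop : Continuous fun v : ℝ => t + x + v))
      (fun v => norm_nonneg _) hκ0 k1 hκc i1
    obtain ⟨Z, hZ⟩ : ∃ Z : ℝ, Z = ∫ v : ℝ, ‖g (pt a (t + x + v))‖ * κ v := ⟨_, rfl⟩
    rw [← hZ] at hcs i2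
    have hsne : ‖pt (1 / 2 + ρ) (t + x) - 1‖ ≠ 0 := by
      rw [norm_ne_zero_iff, sub_ne_zero]
      exact hne t ht
    have hwt := hw0 t
    have hwt' : 0 ≤ w t := by rw [hwdef]; positivity
    have e1 : w0 t * ‖F (pt (1 / 2 + ρ) (t + x)) *
        Mx χ V M (pt (1 / 2 + ρ) (t + x)) - 1‖ ^ 2 ≤ s₀ ^ 2 * (w t * Z ^ 2) := by
      have e2 : w0 t * ‖F (pt (1 / 2 + ρ) (t + x)) *
          Mx χ V M (pt (1 / 2 + ρ) (t + x)) - 1‖ ^ 2 = w t * ‖g (pt (1 / 2 + ρ) (t + x))‖ ^ 2 := by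
        rw [hg, gx_eq hD V M (hne t ht), norm_mul, mul_pow, hwdef]
        simp only
        obtain ⟨X, hX⟩ : ∃ X : ℝ, X = ‖pt (1 / 2 + ρ) (t + x) - 1‖ := ⟨_, rfl⟩
        obtain ⟨Y, hY⟩ : ∃ Y : ℝ, Y = ‖F (pt (1 / 2 + ρ) (t + x)) *
          Mx χ V M (pt (1 / 2 + ρ) (t + x)) - 1‖ := ⟨_, rfl⟩
        rw [← hX] at hsne
        rw [← hX, ← hY, ← mul_assoc, div_mul_cancel₀ _ (pow_ne_zero 2 hsne)]
      rw [e2]
      calc w t * ‖g (pt (1 / 2 + ρ) (t + x))‖ ^ 2 ≤ w t * (s₀ * Z) ^ 2 := by gcongr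
        _ = _ := by ring
    refine (ENNReal.ofReal_le_ofReal e1).trans ?_
    rw [ENNReal.ofReal_mul (sq_nonneg s₀), ENNReal.ofReal_mul (sq_nonneg s₀), mul_assoc,
      ENNReal.ofReal_mul hwt']
    refine mul_le_mul' le_rfl ?_
    have hm1 : Measurable fun v : ℝ => ENNReal.ofReal (‖g (pt a (t + x + v))‖ ^ 2 * κ v) := by
      refine Measurable.ennreal_ofReal (Continuous.measurable ?_)
      exact ((hgc.comp (by fun_prop : Continuous fun v : ℝ => t + x + v)).pow 2).mul hκc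
    calc ENNReal.ofReal (w t) * ENNReal.ofReal (Z ^ 2) ≤
        ENNReal.ofReal (w t) * (ENNReal.ofReal (∫ v, κ v) *
          ∫⁻ v, ENNReal.ofReal (‖g (pt a (t + x + v))‖ ^ 2 * κ v)) := by gcongr
      _ ≤ ENNReal.ofReal (w t) * (ENNReal.ofReal C0 *
          ∫⁻ v, ENNReal.ofReal (‖g (pt a (t + x + v))‖ ^ 2 * κ v)) := by gcongr
      _ = ENNReal.ofReal C0 * (ENNReal.ofReal (w t) *
          ∫⁻ v, ENNReal.ofReal (‖g (pt a (t + x + v))‖ ^ 2 * κ v)) := by ring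
      _ = _ := by
          congr 1
          rw [← lintegral_const_mul _ hm1]
          refine lintegral_congr fun v => ?_
          rw [ENNReal.ofReal_mul (sq_nonneg _)]
          ring
  -- the exchange
  have hmeas : Measurable (Function.uncurry fun t v : ℝ =>
      ENNReal.ofReal (κ v) * (ENNReal.ofReal (w t) *
          ENNReal.ofReal (‖g (pt a (t + x + v))‖ ^ 2))) := by
    have m1 : Measurable fun q : ℝ × ℝ => ENNReal.ofReal (κ q.2) :=
      (hκc.measurable.comp measurable_snd).ennreal_ofReal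
    have m2 : Measurable fun q : ℝ × ℝ => ENNReal.ofReal (w q.1) :=
      (hwm.comp measurable_fst).ennreal_ofReal
    have m3 : Measurable fun q : ℝ × ℝ => ENNReal.ofReal (‖g (pt a (q.1 + x + q.2))‖ ^ 2) := by
      refine Measurable.ennreal_ofReal (Continuous.measurable ?_)
      have c1 : Continuous fun q : ℝ × ℝ => ‖g (pt a (q.1 + x + q.2))‖ := hgc.comp (by fun_prop)
      exact c1.pow 2
    exact m1.mul (m2.mul m3)
  have hswap : ∫⁻ t in Icc T (2 * T), ∫⁻ v, ENNReal.ofReal (κ v) * (ENNReal.ofReal (w t) *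
          ENNReal.ofReal (‖g (pt a (t + x + v))‖ ^ 2)) ≤
      ENNReal.ofReal (KK2 C Q * m * C1) := by
    rw [lintegral_lintegral_swap hmeas.aemeasurable]
    have e2 : ∀ v : ℝ, ∫⁻ t in Icc T (2 * T), ENNReal.ofReal (κ v) * (ENNReal.ofReal (w t) *
          ENNReal.ofReal (‖g (pt a (t + x + v))‖ ^ 2)) ≤
        ENNReal.ofReal (KK2 C Q * m * (κ v * (2 + |v|) ^ 14)) := by
      intro v
      have hm2 : Measurable fun t : ℝ => ENNReal.ofReal (w t) *
          ENNReal.ofReal (‖g (pt a (t + x + v))‖ ^ 2) := by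
        refine hwm.ennreal_ofReal.mul (Measurable.ennreal_ofReal (Continuous.measurable ?_))
        exact (hgc.comp (by fun_prop : Continuous fun t : ℝ => t + x + v)).pow 2
      rw [lintegral_const_mul _ hm2]
      calc ENNReal.ofReal (κ v) * ∫⁻ t in Icc T (2 * T), ENNReal.ofReal (w t) *
          ENNReal.ofReal (‖g (pt a (t + x + v))‖ ^ 2) ≤
          ENNReal.ofReal (κ v) * ENNReal.ofReal (KK2 C Q * (2 + |v|) ^ 14 * m) := by
            gcongr
            exact hin v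
        _ = _ := by
            rw [← ENNReal.ofReal_mul (hκ0 v)]
            congr 1
            ring
    refine (lintegral_mono e2).trans ?_
    have hn : ∀ v : ℝ, 0 ≤ KK2 C Q * m * (κ v * (2 + |v|) ^ 14) := fun v => by
      have := hκ0 v
      positivity
    rw [← ofReal_integral_eq_lintegral_ofReal (k3.const_mul _) (Eventually.of_forall hn),
      integral_const_mul]
    exact ENNReal.ofReal_le_ofReal (mul_le_mul_of_nonneg_left k4 (by positivity))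
  have htot : ∫⁻ t in Icc T (2 * T), ENNReal.ofReal (w0 t *
      ‖F (pt (1 / 2 + ρ) (t + x)) * Mx χ V M (pt (1 / 2 + ρ) (t + x)) - 1‖ ^ 2) ≤
      ENNReal.ofReal (C0 * C1 * KK2 C Q * Real.exp (-(2 * (β₁ * L - 2) * r)) * m) := by
    refine (setLIntegral_mono' measurableSet_Icc hpt).trans ?_
    have m3 : Measurable fun t : ℝ => ∫⁻ v, ENNReal.ofReal (κ v) * (ENNReal.ofReal (w t) *
          ENNReal.ofReal (‖g (pt a (t + x + v))‖ ^ 2)) := hmeas.lintegral_prod_right'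
    rw [lintegral_const_mul _ m3]
    calc ENNReal.ofReal (s₀ ^ 2 * C0) * _ ≤
        ENNReal.ofReal (s₀ ^ 2 * C0) * ENNReal.ofReal (KK2 C Q * m * C1) := by
          gcongr
      _ = _ := by
          rw [← ENNReal.ofReal_mul (by positivity), hs2]
          congr 1
          ring
  -- back to the interval integral
  have hcont : ContinuousOn (fun t : ℝ => w0 t *
      ‖F (pt (1 / 2 + ρ) (t + x)) * Mx χ V M (pt (1 / 2 + ρ) (t + x)) - 1‖ ^ 2)
      (Icc T (2 * T)) := by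
    refine hw.continuousOn.mul (ContinuousOn.pow (ContinuousOn.norm ?_) 2)
    have hpc : Continuous fun t : ℝ => pt (1 / 2 + ρ) (t + x) :=
      (pt_cont _).comp (by fun_prop : Continuous fun t : ℝ => t + x)
    refine ContinuousOn.sub (ContinuousOn.mul ?_ ?_) continuousOn_const
    · intro t ht
      refine ContinuousAt.continuousWithinAt ?_
      exact ContinuousAt.comp (f := fun t : ℝ => pt (1 / 2 + ρ) (t + x))
        (g := F) (F_cont hD (hne t ht)) hpc.continuousAt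
    · exact ((Mx_diff χ V M).continuous.comp hpc).continuousOn
  have hfi := hcont.integrableOn_Icc (μ := volume)
  rw [← ofReal_integral_eq_lintegral_ofReal hfi (Eventually.of_forall fun t => by
      have hwt := hw0 t
      positivity)] at htot
  rw [intervalIntegral.integral_of_le hTT, ← integral_Icc_eq_integral_Ioc]
  refine (ENNReal.ofReal_le_ofReal_iff ?_).1 htot
  positivity

end R2

open R2 in
/-- **RIGHT3** -/
theorem right3 (hmz : S_mz3) : S_rt3 := by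
  intro χ F A hF β β₁ β₂ hb1 hb12 hb2 hbh
  obtain ⟨E, Q, hD⟩ := dat_of hF
  obtain ⟨C, T0, hC, hT0, H⟩ := hmz χ F A hF β β₁ β₂ hb1 hb12 hb2 hbh
  obtain ⟨T1, hT1, Hm⟩ := rh_mass2
  obtain ⟨D, hDD⟩ : ∃ D : ℝ, D = 31 ^ 0 * cB 8 0 * (31 ^ 14 * cB 8 14) * KK2 C Q := ⟨_, rfl⟩
  have hQ := hD.Q0
  have hKK : 0 ≤ KK2 C Q := by unfold KK2; positivity
  have hD0 : 0 ≤ D := by
    rw [hDD]
    have h1 := cB_nn 8 0
    have h2 := cB_nn 8 14
    positivity
  refine ⟨D * Real.exp 124 + 1, max (max T0 T1) (Real.exp (max 10 (4 / β₁))), by positivity,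
    hT0.trans ((le_max_left _ _).trans (le_max_left _ _)), fun T hT => ?_⟩
  have hTT0 : T0 ≤ T := ((le_max_left _ _).trans (le_max_left _ _)).trans hT
  have hTT1 : T1 ≤ T := ((le_max_right _ _).trans (le_max_left _ _)).trans hT
  have hT10 : 10 ≤ T := hT0.trans hTT0
  have hTpos : 0 < T := by linarith
  have hLb : max 10 (4 / β₁) ≤ Real.log T := by
    rw [Real.le_log_iff_exp_le hTpos]
    exact (le_max_right _ _).trans hT
  have hL10 : 10 ≤ Real.log T := (le_max_left _ _).trans hLb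
  have hL4 : 4 ≤ β₁ * Real.log T := by
    have := (le_max_right _ _).trans hLb
    rw [div_le_iff₀ hb1] at this
    linarith
  obtain ⟨V, hV, hV1, hV0, hms⟩ := H T hTT0
  refine ⟨V, hV, hV1, hV0, fun N Hh hN hNT hH S hS r τ x hx ρ hρ1 hρ2 => ?_⟩
  have hHpos : 0 < Hh := lt_of_lt_of_le (by positivity) hH
  have hmr : 0 ≤ mr Hh S r := by
    unfold mr
    have := w1_nonneg S r
    positivity
  have hmass : ∫ t in T..(2 * T), rh τ Hh S r t ≤ 2 * mr Hh S r := by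
    rw [intervalIntegral.integral_of_le (by linarith)]
    refine (setIntegral_le_integral (rh_intg hHpos S r)
      (Eventually.of_forall fun t => rh_nonneg _ _ _ _ t)).trans ?_
    exact Hm T hTT1 N Hh β (by linarith) hN hNT hH S hS r τ
  have hLi : 1 / Real.log T ≤ 1 / 10 := one_div_le_one_div_of_le (by norm_num) hL10
  have hLi0 : 0 < 1 / Real.log T := by positivity
  have hhalf : 1 / (2 * Real.log T) = 1 / Real.log T / 2 := by
    rw [div_div, mul_comm]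
  rw [hhalf] at hρ1
  have key := R2.right_core3 (a := 1 / 2 - 1 / Real.log T) (ρ := ρ) (x := x) (C := C)
    (m := mr Hh S r) (w0 := rh τ Hh S r) hD hV hV1 hV0 hT10 rfl hL4 (by linarith) (by linarith)
    (by linarith) (by linarith) (by linarith) (by linarith) hx (rh_cont _ _ _ _)
    (rh_nonneg _ _ _ _) hmr hC.le hmass (fun y hy => hms N Hh hN hNT hH S hS r τ y hy)
  refine key.trans ?_
  rw [← hDD]
  have hE : Real.exp (-(2 * (β₁ * Real.log T - 2) * (1 / 2 + ρ - (1 / 2 - 1 / Real.log T)))) ≤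
      Real.exp 124 * Real.exp (-(2 * β₁ * Real.log T * ρ)) := by
    rw [← Real.exp_add]
    apply Real.exp_le_exp.2
    have : 0 ≤ β₁ * Real.log T * (1 / Real.log T) := by positivity
    nlinarith
  have hE0 := Real.exp_pos (-(2 * β₁ * Real.log T * ρ))
  calc D * Real.exp (-(2 * (β₁ * Real.log T - 2) * (1 / 2 + ρ - (1 / 2 - 1 / Real.log T)))) *
        mr Hh S r ≤
      D * (Real.exp 124 * Real.exp (-(2 * β₁ * Real.log T * ρ))) * mr Hh S r := by
        gcongr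
    _ = D * Real.exp 124 * Real.exp (-(2 * β₁ * Real.log T * ρ)) * mr Hh S r := by ring
    _ ≤ (D * Real.exp 124 + 1) * Real.exp (-(2 * β₁ * Real.log T * ρ)) * mr Hh S r := by
        gcongr
        linarith
    _ = _ := by ring

end Pool.Agent.N802.WD
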