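import Pool.Agent.N802.WD.Stm2

/-!
# WDZ: from the weighted density theorem to the values at the zeros

Author: helper697 (project WD of helper802).
-/

set_option linter.all false

open Complex Filter Topology Set MeasureTheory
open scoped BigOperators ComplexConjugate

namespace Pool.Agent.N802.WD

open H370 hiding pt
open TC Pool.Agent.N802.U

lemma wdz_sob {f f' : ℝ → ℂ} (hf : ∀ t, HasDerivAt f (f' t) t) (hc : Continuous f') {L : ℝ} (x : ℝ)
    (hL : 0 < L) : ‖f x‖ ^ 2 ≤
      ∫ t in (x - 1 / L)..(x + 1 / L), (2 * L * ‖f t‖ ^ 2 + ‖f' t‖ ^ 2 / L) := by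
  have hfc : Continuous f := continuous_iff_continuousAt.2 fun t => (hf t).continuousAt
  set a : ℝ := 1 / L with ha
  have ha0 : 0 < a := by rw [ha]; positivity
  have hle : x - a ≤ x + a := by linarith
  let g : ℝ → ℝ := fun t => ‖f t‖ ^ 2
  let g' : ℝ → ℝ := fun t => 2 * inner ℝ (f t) (f' t)
  let h : ℝ → ℝ := fun t => L * ‖f t‖ ^ 2 + ‖f' t‖ ^ 2 / L
  have hg : ∀ t, HasDerivAt g (g' t) t := fun t => (hf t).norm_sq
  have hgc : Continuous g := by fun_prop
  have hg'c : Continuous g' := by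
    show Continuous fun t => 2 * inner ℝ (f t) (f' t)
    exact continuous_const.mul (hfc.inner hc)
  have hhc : Continuous h := by
    show Continuous fun t => L * ‖f t‖ ^ 2 + ‖f' t‖ ^ 2 / L
    fun_prop
  have hgh : ∀ t, |g' t| ≤ h t := by
    intro t
    have h1 : |inner ℝ (f t) (f' t)| ≤ ‖f t‖ * ‖f' t‖ := abs_real_inner_le_norm _ _
    have h2 : |g' t| ≤ 2 * (‖f t‖ * ‖f' t‖) := by
      show |2 * inner ℝ (f t) (f' t)| ≤ _
      rw [abs_mul, abs_two]
      linarith
    refine h2.trans ?_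
    show _ ≤ L * ‖f t‖ ^ 2 + ‖f' t‖ ^ 2 / L
    have h3 : 0 ≤ (L * ‖f t‖ - ‖f' t‖) ^ 2 / L := by positivity
    have h4 : (L * ‖f t‖ - ‖f' t‖) ^ 2 / L =
        L * ‖f t‖ ^ 2 + ‖f' t‖ ^ 2 / L - 2 * (‖f t‖ * ‖f' t‖) := by
      field_simp
      ring
    linarith
  have hh0 : ∀ t, 0 ≤ h t := fun t => (abs_nonneg _).trans (hgh t)
  set J : ℝ := ∫ t in (x - a)..(x + a), h t with hJ
  have h1 : ∀ t ∈ Icc (x - a) (x + a), g x ≤ g t + J := by
    intro t ht
    have e1 : ∫ s in t..x, g' s = g x - g t :=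
      intervalIntegral.integral_eq_sub_of_hasDerivAt (fun s _ => hg s)
        (hg'c.intervalIntegrable _ _)
    have e2 : |∫ s in t..x, g' s| ≤ J := by
      calc |∫ s in t..x, g' s| ≤ |∫ s in t..x, h s| := by
            rw [← Real.norm_eq_abs]
            exact intervalIntegral.norm_integral_le_abs_of_norm_le
              (Filter.Eventually.of_forall fun s => by rw [Real.norm_eq_abs]; exact hgh s)
              (hhc.intervalIntegrable _ _)
        _ ≤ J := by
            rcases le_total t x with htx | htx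
            · rw [abs_of_nonneg (intervalIntegral.integral_nonneg htx fun s _ => hh0 s)]
              exact intervalIntegral.integral_mono_interval ht.1 htx (by linarith)
                (Filter.Eventually.of_forall fun s => hh0 s) (hhc.intervalIntegrable _ _)
            · rw [intervalIntegral.integral_symm, abs_neg,
                abs_of_nonneg (intervalIntegral.integral_nonneg htx fun s _ => hh0 s)]
              exact intervalIntegral.integral_mono_interval (by linarith) htx ht.2
                (Filter.Eventually.of_forall fun s => hh0 s) (hhc.intervalIntegrable _ _)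
    rw [e1] at e2
    linarith [le_abs_self (g x - g t)]
  have h2 : ∫ t in (x - a)..(x + a), g x ≤ ∫ t in (x - a)..(x + a), (g t + J) :=
    intervalIntegral.integral_mono_on hle (continuous_const.intervalIntegrable _ _)
      ((hgc.add continuous_const).intervalIntegrable _ _) h1
  rw [intervalIntegral.integral_add (hgc.intervalIntegrable _ _)
    (continuous_const.intervalIntegrable _ _), intervalIntegral.integral_const,
    intervalIntegral.integral_const, smul_eq_mul, smul_eq_mul] at h2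
  have h3 : ∫ t in (x - a)..(x + a), (L / 2 * g t + h t) ≤
      ∫ t in (x - a)..(x + a), (2 * L * ‖f t‖ ^ 2 + ‖f' t‖ ^ 2 / L) := by
    refine intervalIntegral.integral_mono_on hle
      (((continuous_const.mul hgc).add hhc).intervalIntegrable _ _)
      (Continuous.intervalIntegrable (by fun_prop) _ _) ?_
    intro t _
    show L / 2 * ‖f t‖ ^ 2 + (L * ‖f t‖ ^ 2 + ‖f' t‖ ^ 2 / L) ≤ _
    have : 0 ≤ L * ‖f t‖ ^ 2 := by positivity
    linarith
  refine le_trans ?_ h3
  have h7 : ∫ t in (x - a)..(x + a), (L / 2 * g t + h t) =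
      L / 2 * (∫ t in (x - a)..(x + a), g t) + J := by
    rw [intervalIntegral.integral_add (f := fun t => L / 2 * g t)
      ((continuous_const.mul hgc).intervalIntegrable _ _)
      (hhc.intervalIntegrable _ _), intervalIntegral.integral_const_mul]
  rw [h7]
  show g x ≤ _
  have h4 : x + a - (x - a) = 2 * a := by ring
  rw [h4] at h2
  have h5 : L * a = 1 := by rw [ha]; field_simp
  have h6 : g x = L / 2 * (2 * a * g x) := by
    rw [show L / 2 * (2 * a * g x) = (L * a) * g x by ring, h5, one_mul]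
  rw [h6]
  calc L / 2 * (2 * a * g x) ≤ L / 2 * ((∫ t in (x - a)..(x + a), g t) + 2 * a * J) :=
        mul_le_mul_of_nonneg_left h2 (by positivity)
    _ = L / 2 * (∫ t in (x - a)..(x + a), g t) + (L * a) * J := by ring
    _ = _ := by rw [h5, one_mul]

lemma wdz_cell {g : ℝ → ℝ} (hg : Continuous g) (hg0 : ∀ t, 0 ≤ g t) {a b u v A : ℝ} (y : ℝ)
    (huv : u ≤ v)
    (h1 : a ≤ u) (h2 : v ≤ b) (h3 : ∀ t ∈ Icc u v, |y - t| ≤ A) :
    ∫ t in u..v, g t ≤ ∫ t in a..b, g t * (if |y - (t + 0)| ≤ A then 1 else 0) := by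
  have hab : a ≤ b := h1.trans (huv.trans h2)
  rw [intervalIntegral.integral_of_le huv, intervalIntegral.integral_of_le hab]
  have e1 : (fun t : ℝ => g t * (if |y - (t + 0)| ≤ A then (1 : ℝ) else 0)) =
      {t : ℝ | |y - (t + 0)| ≤ A}.indicator g := by
    funext t
    by_cases h : |y - (t + 0)| ≤ A
    · rw [Set.indicator_of_mem (by exact h), if_pos h, mul_one]
    · rw [Set.indicator_of_notMem (by exact h), if_neg h, mul_zero]
  rw [e1]
  have hE : MeasurableSet {t : ℝ | |y - (t + 0)| ≤ A} :=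
    (isClosed_le (by fun_prop) continuous_const).measurableSet
  rw [MeasureTheory.setIntegral_indicator hE]
  refine MeasureTheory.setIntegral_mono_set ?_ ?_ ?_
  · exact ((hg.integrableOn_Icc (a := a) (b := b)).mono_set
      (Set.inter_subset_left.trans Set.Ioc_subset_Icc_self))
  · exact Filter.Eventually.of_forall hg0
  · refine Filter.Eventually.of_forall ?_
    intro t ht
    refine ⟨⟨lt_of_le_of_lt h1 ht.1, ht.2.trans h2⟩, ?_⟩
    show |y - (t + 0)| ≤ A
    rw [add_zero]
    exact h3 t ⟨ht.1.le, ht.2⟩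

lemma wdz_cell_int {g : ℝ → ℝ} (hg : Continuous g) (a b y A : ℝ) :
    IntervalIntegrable (fun t => g t * (if |y - (t + 0)| ≤ A then (1 : ℝ) else 0)) volume a b := by
  have e1 : (fun t : ℝ => g t * (if |y - (t + 0)| ≤ A then (1 : ℝ) else 0)) =
      {t : ℝ | |y - (t + 0)| ≤ A}.indicator g := by
    funext t
    by_cases h : |y - (t + 0)| ≤ A
    · rw [Set.indicator_of_mem (by exact h), if_pos h, mul_one]
    · rw [Set.indicator_of_notMem (by exact h), if_neg h, mul_zero]
  rw [e1]
  have hE : MeasurableSet {t : ℝ | |y - (t + 0)| ≤ A} :=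
    (isClosed_le (by fun_prop) continuous_const).measurableSet
  rw [intervalIntegrable_iff]
  exact (intervalIntegrable_iff.1 (hg.intervalIntegrable a b)).indicator hE

/-- sum over points of the integrals around them -/
lemma wdz_swap {ι : Type*} (Z : Finset ι) (m y : ι → ℝ) {g : ℝ → ℝ} (hg : Continuous g)
    (a b A : ℝ) :
    ∑ s ∈ Z, m s * ∫ t in a..b, g t * (if |y s - (t + 0)| ≤ A then (1 : ℝ) else 0) =
    ∫ t in a..b, g t * ∑ s ∈ Z, if |y s - (t + 0)| ≤ A then m s else 0 := by
  simp only [← intervalIntegral.integral_const_mul]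
  rw [← intervalIntegral.integral_finsetSum]
  · congr 1
    funext t
    rw [Finset.mul_sum]
    refine Finset.sum_congr rfl fun s _ => ?_
    split_ifs <;> ring
  · intro s _
    exact (wdz_cell_int hg a b (y s) A).const_mul _

/-- the coefficients of the derivative -/
noncomputable def rd (r : ℕ → ℂ) (k : ℕ) : ℂ :=
  r k * (((Real.log ((1 : ℕ) : ℝ) - Real.log k : ℝ) : ℂ) * I)

lemma RP_hasDeriv (S : Finset ℕ) (r : ℕ → ℂ) (t : ℝ) :
    HasDerivAt (RP S r) (RP S (rd r) t) t := by
  have h1 : ∀ k ∈ S, HasDerivAt (fun t : ℝ => r k * mn k 1 t) (rd r k * mn k 1 t) t := by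
    intro k _
    have h2 : HasDerivAt (fun t : ℝ => ((t * (Real.log ((1 : ℕ) : ℝ) - Real.log k) : ℝ) : ℂ) * I)
        (((Real.log ((1 : ℕ) : ℝ) - Real.log k : ℝ) : ℂ) * I) t := by
      have h3 := (((hasDerivAt_id t).mul_const
        (Real.log ((1 : ℕ) : ℝ) - Real.log k)).ofReal_comp).mul_const I
      rw [one_mul] at h3
      exact h3
    have h4 := (h2.cexp).const_mul (r k)
    refine h4.congr_deriv ?_
    unfold rd mn
    ring
  exact HasDerivAt.fun_sum h1

lemma w1_rd {S : Finset ℕ} {r : ℕ → ℂ} {M : ℝ} (h : ∀ k ∈ S, 1 ≤ k ∧ Real.log k ≤ M) :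
    w1 S (rd r) ≤ M ^ 2 * w1 S r := by
  unfold w1
  rw [Finset.mul_sum]
  refine Finset.sum_le_sum fun k hk => ?_
  obtain ⟨h1, h2⟩ := h k hk
  have h3 : 0 ≤ Real.log k := Real.log_nonneg (by exact_mod_cast h1)
  have h4 : ‖rd r k‖ = ‖r k‖ * Real.log k := by
    unfold rd
    rw [norm_mul, norm_mul, Complex.norm_I, mul_one, Complex.norm_real, Nat.cast_one,
      Real.log_one, zero_sub, norm_neg, Real.norm_of_nonneg h3]
  rw [h4, mul_pow, mul_comm]
  exact mul_le_mul_of_nonneg_right (pow_le_pow_left₀ h3 h2 2) (sq_nonneg _)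

lemma RP_cont (S : Finset ℕ) (r : ℕ → ℂ) : Continuous (RP S r) := TP_cont _ _ _ _

lemma rh_cont (τ H : ℝ) (S : Finset ℕ) (r : ℕ → ℂ) : Continuous (rh τ H S r) := by
  have h := RP_cont S r
  unfold rh om
  fun_prop

lemma rh_nonneg (τ H : ℝ) (S : Finset ℕ) (r : ℕ → ℂ) (t : ℝ) : 0 ≤ rh τ H S r t := by
  unfold rh om
  positivity

lemma wdz_cover {u v H : ℝ} (hH : 0 < H) (huv : u ≤ v) {t : ℝ} (h1 : u ≤ t) (h2 : t ≤ v) :
    1 ≤ Real.exp (1 / 2) * ∑ j ∈ Finset.range (⌊(v - u) / H⌋₊ + 1), om (u + j * H) H t := by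
  set j := ⌊(t - u) / H⌋₊ with hj
  have h0 : 0 ≤ (t - u) / H := div_nonneg (by linarith) hH.le
  have h3 : (j : ℝ) ≤ (t - u) / H := Nat.floor_le h0
  have h4 : (t - u) / H < j + 1 := Nat.lt_floor_add_one _
  have h5 : j ∈ Finset.range (⌊(v - u) / H⌋₊ + 1) := by
    rw [Finset.mem_range, Nat.lt_succ_iff]
    apply Nat.floor_le_floor
    gcongr
  have h6 : om (u + j * H) H t ≤
      ∑ j ∈ Finset.range (⌊(v - u) / H⌋₊ + 1), om (u + j * H) H t :=
    Finset.single_le_sum (f := fun j : ℕ => om (u + j * H) H t)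
      (fun i _ => (Real.exp_pos _).le) h5
  have h7 : Real.exp (-(1 / 2)) ≤ om (u + j * H) H t := by
    unfold om
    apply Real.exp_le_exp.2
    rw [le_div_iff₀ (by positivity)]
    have e1 : (j : ℝ) * H ≤ t - u := (le_div_iff₀ hH).1 h3
    have e2 : t - u < (j + 1) * H := (div_lt_iff₀ hH).1 h4
    have e3 : 0 ≤ t - (u + j * H) := by linarith
    have e4 : t - (u + j * H) ≤ H := by linarith
    nlinarith [mul_le_mul e4 e4 e3 hH.le]
  calc (1 : ℝ) = Real.exp (1 / 2) * Real.exp (-(1 / 2)) := by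
        rw [← Real.exp_add]; simp
    _ ≤ _ := mul_le_mul_of_nonneg_left (h7.trans h6) (Real.exp_pos _).le

/-- **WDZ** -/
theorem wdz {F : ℂ → ℂ} (hF : GoodL F) (hwd : S_wd F) : S_wdz F := by
  classical
  obtain ⟨c, C, δ', T0, hc, hC, hδ', hT0, H⟩ := hwd
  set δ1 := min δ' (1 / 2) with hδ1
  have hδ10 : 0 < δ1 := lt_min hδ' (by norm_num)
  have hδ11 : δ1 ≤ δ' := min_le_left _ _
  have hδ12 : δ1 ≤ 1 / 2 := min_le_right _ _
  refine ⟨c / 2, Real.exp (1 / 2) * 4 * C * Real.sqrt (2 * Real.pi) * 3, δ1 / 4, 2 * T0,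
    by positivity, by positivity, by positivity, by linarith, ?_⟩
  intro T hT K hK1 hK2 S hS r A hA
  set T1 : ℝ := 9 / 10 * T with hT1
  have hTT : T0 ≤ T1 := by rw [hT1]; linarith
  have hT20 : 20 ≤ T := by linarith
  have hT1p : 1 ≤ T1 := by linarith
  have hT1T : T1 ≤ T := by rw [hT1]; linarith
  have hsq : T ≤ T1 ^ 2 := by
    rw [hT1]
    nlinarith
  set L := Real.log T with hL
  set L1 := Real.log T1 with hL1
  have hLL : L1 ≤ L := Real.log_le_log (by linarith) hT1T
  have hLL2 : L ≤ 2 * L1 := by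
    have := Real.log_le_log (by linarith) hsq
    rw [Real.log_pow] at this
    exact_mod_cast this
  have hL1' : 1 ≤ L := by
    rw [hL, Real.le_log_iff_exp_le (by linarith)]
    have := Real.exp_one_lt_d9
    linarith
  have hL1p : 0 < L1 := by linarith
  set HH : ℝ := T1 ^ (1 - δ1) with hHH
  have hH1 : 1 ≤ HH := Real.one_le_rpow hT1p (by linarith)
  have hH0 : 0 < HH := by linarith
  have hHK : HH ≤ K := by
    refine le_trans ?_ hK1
    calc HH ≤ T ^ (1 - δ1) := Real.rpow_le_rpow (by linarith) hT1T (by linarith)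
      _ ≤ T ^ (1 - δ1 / 4) := Real.rpow_le_rpow_of_exponent_le (by linarith) (by linarith)
  have hHge : T1 ^ (1 - δ') ≤ HH := Real.rpow_le_rpow_of_exponent_le hT1p (by linarith)
  have hSlen : Len S (T1 ^ δ') := by
    intro k hk
    refine ⟨(hS k hk).1, (hS k hk).2.trans ?_⟩
    calc T ^ (δ1 / 4) ≤ (T1 ^ 2) ^ (δ1 / 4) :=
          Real.rpow_le_rpow (by linarith) hsq (by positivity)
      _ = T1 ^ (δ1 / 2) := by
          rw [← Real.rpow_natCast, ← Real.rpow_mul (by linarith)]
          congr 1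
          push_cast
          ring
      _ ≤ T1 ^ δ' := Real.rpow_le_rpow_of_exponent_le hT1p (by linarith)
  have hSlog : ∀ k ∈ S, 1 ≤ k ∧ Real.log k ≤ L := by
    intro k hk
    refine ⟨(hS k hk).1, ?_⟩
    have hk1 : (1 : ℝ) ≤ k := by exact_mod_cast (hS k hk).1
    have h1 : Real.log k ≤ Real.log (T ^ (δ1 / 4)) := Real.log_le_log (by linarith) (hS k hk).2
    rw [Real.log_rpow (by linarith)] at h1
    refine h1.trans ?_
    rw [← hL]
    nlinarith
  set Z := (Zf F T (T + K)).filter (fun s => A ≤ |(zz s).im| * Real.log T) with hZ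
  set Z' := (Zf F T (T + K)).filter (fun s => A / 2 ≤ |(zz s).im| * L1) with hZ'
  have hsub : Z ⊆ Z' := by
    intro s hs
    rw [hZ, Finset.mem_filter] at hs
    rw [hZ', Finset.mem_filter]
    refine ⟨hs.1, ?_⟩
    have h1 := hs.2
    have h2 : |(zz s).im| * Real.log T ≤ |(zz s).im| * (2 * L1) :=
      mul_le_mul_of_nonneg_left hLL2 (abs_nonneg _)
    linarith
  have claim : ∀ (r' : ℕ → ℂ) (τ : ℝ), ∑ s ∈ Z, (mult F s : ℝ) *
      ∫ t in T1..(2 * T1), rh τ HH S r' t * (if |s.im - (t + 0)| ≤ 1 / L1 then (1 : ℝ) else 0) ≤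
      C * Real.exp (-(c * (A / 2))) * mr HH S r' := by
    intro r' τ
    have h := H T1 hTT S hSlen r' τ HH hHge T (T + K) 0 (A / 2) (by linarith)
      (by rw [abs_zero]; linarith) (by positivity)
    refine le_trans ?_ h
    have e : ∀ t : ℝ, ∑ s ∈ (Zf F T (T + K)).filter (fun s => A / 2 ≤ |(zz s).im| * Real.log T1 ∧
        |s.im - (t + 0)| ≤ 1 / Real.log T1), (mult F s : ℝ) =
        ∑ s ∈ Z', if |s.im - (t + 0)| ≤ 1 / L1 then (mult F s : ℝ) else 0 := by
      intro t
      rw [hZ', Finset.sum_filter, Finset.sum_filter]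
      refine Finset.sum_congr rfl fun s _ => ?_
      by_cases h1 : A / 2 ≤ |(zz s).im| * Real.log T1 <;>
        by_cases h2 : |s.im - (t + 0)| ≤ 1 / Real.log T1
      · rw [if_pos ⟨h1, h2⟩, if_pos h1, if_pos h2]
      · rw [if_neg (fun h => h2 h.2), if_pos h1, if_neg h2]
      · rw [if_neg (fun h => h1 h.1), if_neg h1]
      · rw [if_neg (fun h => h1 h.1), if_neg h1]
    have e2 := wdz_swap Z' (fun s => (mult F s : ℝ)) (fun s => s.im) (rh_cont τ HH S r') T1
      (2 * T1) (1 / L1)
    have e3 : ∫ t in T1..(2 * T1), rh τ HH S r' t *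
        ∑ s ∈ (Zf F T (T + K)).filter (fun s => A / 2 ≤ |(zz s).im| * Real.log T1 ∧
        |s.im - (t + 0)| ≤ 1 / Real.log T1), (mult F s : ℝ) =
        ∫ t in T1..(2 * T1), rh τ HH S r' t *
        ∑ s ∈ Z', if |s.im - (t + 0)| ≤ 1 / L1 then (mult F s : ℝ) else 0 := by
      congr 1
      funext t
      rw [e t]
    refine le_trans ?_ (le_of_eq (e2.trans e3.symm))
    refine Finset.sum_le_sum_of_subset_of_nonneg hsub fun s _ _ => ?_
    refine mul_nonneg (Nat.cast_nonneg _) ?_
    refine intervalIntegral.integral_nonneg (by linarith) fun t _ => ?_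
    refine mul_nonneg (rh_nonneg _ _ _ _ _) ?_
    split_ifs <;> norm_num
  -- the function
  set g : ℝ → ℝ := fun t => 2 * L * ‖RP S r t‖ ^ 2 + ‖RP S (rd r) t‖ ^ 2 / L with hg
  have hR := RP_cont S r
  have hR' := RP_cont S (rd r)
  have hgc : Continuous g := by
    rw [hg]
    fun_prop
  have hg0 : ∀ t, 0 ≤ g t := by
    intro t
    rw [hg]
    positivity
  set n := ⌊((T + K + 1) - (T - 1)) / HH⌋₊ + 1 with hn
  set τ : ℕ → ℝ := fun j => (T - 1) + j * HH with hτ
  have homc : ∀ j, Continuous (fun t => om (τ j) HH t * g t) := by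
    intro j
    unfold om
    fun_prop
  have hL1le : 1 / L ≤ 1 := by
    rw [div_le_one (by linarith)]
    exact hL1'
  have key : ∀ s ∈ Z, ‖RP S r s.im‖ ^ 2 ≤ Real.exp (1 / 2) * ∑ j ∈ Finset.range n,
      (2 * L * (∫ t in T1..(2 * T1), rh (τ j) HH S r t *
        (if |s.im - (t + 0)| ≤ 1 / L1 then (1 : ℝ) else 0)) +
      1 / L * (∫ t in T1..(2 * T1), rh (τ j) HH S (rd r) t *
        (if |s.im - (t + 0)| ≤ 1 / L1 then (1 : ℝ) else 0))) := by
    intro s hs
    have hs1 : s ∈ Zf F T (T + K) := (Finset.mem_filter.1 hs).1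
    rw [mem_Zf hF (by linarith)] at hs1
    obtain ⟨-, -, hs3, hs4, -⟩ := hs1
    have h1 := wdz_sob (f := RP S r) (f' := RP S (rd r)) (RP_hasDeriv S r) hR' (L := L) s.im
      (by linarith)
    refine h1.trans ?_
    have hpos : 0 < 1 / L := by positivity
    have h2 : ∫ t in (s.im - 1 / L)..(s.im + 1 / L), g t ≤
        ∫ t in (s.im - 1 / L)..(s.im + 1 / L),
          ∑ j ∈ Finset.range n, Real.exp (1 / 2) * (om (τ j) HH t * g t) := by
      refine intervalIntegral.integral_mono_on (by linarith) (hgc.intervalIntegrable _ _)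
        ((continuous_finsetSum _ fun j _ =>
          continuous_const.mul (homc j)).intervalIntegrable _ _) ?_
      intro t ht
      have h3 := wdz_cover (u := T - 1) (v := T + K + 1) hH0 (by linarith) (t := t)
        (by linarith [ht.1]) (by linarith [ht.2])
      have h4 := mul_le_mul_of_nonneg_right h3 (hg0 t)
      rw [one_mul] at h4
      refine h4.trans (le_of_eq ?_)
      rw [mul_assoc, Finset.sum_mul, Finset.mul_sum]
    refine h2.trans ?_
    rw [intervalIntegral.integral_finsetSum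
      (f := fun (j : ℕ) (t : ℝ) => Real.exp (1 / 2) * (om (τ j) HH t * g t)) (fun j _ =>
      (continuous_const.mul (homc j)).intervalIntegrable _ _), Finset.mul_sum]
    refine Finset.sum_le_sum fun j _ => ?_
    rw [intervalIntegral.integral_const_mul]
    refine mul_le_mul_of_nonneg_left ?_ (Real.exp_pos _).le
    have h5 := wdz_cell (homc j) (fun t => mul_nonneg (Real.exp_pos _).le (hg0 t))
      (a := T1) (b := 2 * T1) (u := s.im - 1 / L) (v := s.im + 1 / L) (A := 1 / L1) s.im
      (by linarith) (by linarith) (by rw [hT1] at *; linarith) (by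
        intro t ht
        have e1 : 1 / L ≤ 1 / L1 := one_div_le_one_div_of_le hL1p hLL
        rw [abs_le]
        constructor <;> linarith [ht.1, ht.2])
    refine h5.trans (le_of_eq ?_)
    rw [← intervalIntegral.integral_const_mul, ← intervalIntegral.integral_const_mul,
      ← intervalIntegral.integral_add ((wdz_cell_int (rh_cont _ _ _ _) _ _ _ _).const_mul _)
        ((wdz_cell_int (rh_cont _ _ _ _) _ _ _ _).const_mul _)]
    congr 1
    funext t
    simp only [rh, hg]
    ring
  have hw : 0 ≤ w1 S r := w1_nonneg S r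
  set E := C * Real.exp (-(c * (A / 2))) with hE
  have hE0 : 0 < E := by positivity
  calc ∑ s ∈ Z, (mult F s : ℝ) * ‖RP S r s.im‖ ^ 2
      ≤ ∑ s ∈ Z, (mult F s : ℝ) * (Real.exp (1 / 2) * ∑ j ∈ Finset.range n,
      (2 * L * (∫ t in T1..(2 * T1), rh (τ j) HH S r t *
        (if |s.im - (t + 0)| ≤ 1 / L1 then (1 : ℝ) else 0)) +
      1 / L * (∫ t in T1..(2 * T1), rh (τ j) HH S (rd r) t *
        (if |s.im - (t + 0)| ≤ 1 / L1 then (1 : ℝ) else 0)))) :=
        Finset.sum_le_sum fun s hs => mul_le_mul_of_nonneg_left (key s hs) (Nat.cast_nonneg _)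
    _ = Real.exp (1 / 2) * ∑ j ∈ Finset.range n, (2 * L * (∑ s ∈ Z, (mult F s : ℝ) *
        ∫ t in T1..(2 * T1), rh (τ j) HH S r t *
        (if |s.im - (t + 0)| ≤ 1 / L1 then (1 : ℝ) else 0)) +
        1 / L * (∑ s ∈ Z, (mult F s : ℝ) * ∫ t in T1..(2 * T1), rh (τ j) HH S (rd r) t *
        (if |s.im - (t + 0)| ≤ 1 / L1 then (1 : ℝ) else 0))) := by
        simp only [Finset.mul_sum]
        rw [Finset.sum_comm]
        refine Finset.sum_congr rfl fun j _ => ?_
        rw [← Finset.sum_add_distrib, Finset.mul_sum]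
        refine Finset.sum_congr rfl fun s _ => ?_
        ring
    _ ≤ Real.exp (1 / 2) * ∑ j ∈ Finset.range n, (2 * L * (E * mr HH S r) +
        1 / L * (E * mr HH S (rd r))) := by
        refine mul_le_mul_of_nonneg_left (Finset.sum_le_sum fun j _ => ?_) (Real.exp_pos _).le
        exact add_le_add (mul_le_mul_of_nonneg_left (claim r (τ j)) (by positivity))
          (mul_le_mul_of_nonneg_left (claim (rd r) (τ j)) (by positivity))
    _ ≤ Real.exp (1 / 2) * ((n : ℝ) * (E * (Real.sqrt (2 * Real.pi) * HH) * (3 * L * w1 S r))) := by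
        rw [Finset.sum_const, Finset.card_range, nsmul_eq_mul]
        refine mul_le_mul_of_nonneg_left (mul_le_mul_of_nonneg_left ?_ (Nat.cast_nonneg _))
          (Real.exp_pos _).le
        have h1 := w1_rd (r := r) hSlog
        unfold mr
        have h2 : 1 / L * (E * (Real.sqrt (2 * Real.pi) * HH * w1 S (rd r))) ≤
            1 / L * (E * (Real.sqrt (2 * Real.pi) * HH * (L ^ 2 * w1 S r))) := by
          gcongr
        have h3 : 1 / L * (E * (Real.sqrt (2 * Real.pi) * HH * (L ^ 2 * w1 S r))) =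
            E * (Real.sqrt (2 * Real.pi) * HH) * (L * w1 S r) := by
          field_simp
        rw [h3] at h2
        refine (add_le_add_right h2 _).trans (le_of_eq ?_)
        ring
    _ = Real.exp (1 / 2) * (E * Real.sqrt (2 * Real.pi) * (3 * L * w1 S r)) * (n * HH) := by ring
    _ ≤ Real.exp (1 / 2) * (E * Real.sqrt (2 * Real.pi) * (3 * L * w1 S r)) * (4 * K) := by
        refine mul_le_mul_of_nonneg_left ?_ (by positivity)
        have h1 : (⌊((T + K + 1) - (T - 1)) / HH⌋₊ : ℝ) ≤ ((T + K + 1) - (T - 1)) / HH :=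
          Nat.floor_le (by apply div_nonneg <;> linarith)
        have h2 : (n : ℝ) = (⌊((T + K + 1) - (T - 1)) / HH⌋₊ : ℝ) + 1 := by
          rw [hn]; push_cast; ring
        rw [h2]
        have h3 : (⌊((T + K + 1) - (T - 1)) / HH⌋₊ : ℝ) * HH ≤ (T + K + 1) - (T - 1) :=
          (le_div_iff₀ hH0).1 h1
        nlinarith
    _ = Real.exp (1 / 2) * 4 * C * Real.sqrt (2 * Real.pi) * 3 * Real.exp (-(c / 2 * A)) *
        (K * L * w1 S r) := by
        rw [hE, show -(c * (A / 2)) = -(c / 2 * A) by ring]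
        ring

end Pool.Agent.N802.WD
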