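import Pool.Agent.N802.WD.Stm4
import Pool.Agent.N802.WD.Wdz

/-!
# WDZ3: as WDZ2, without loss in the exponent

Authors: helper697, helper896 (project WD2 of helper802).
-/

set_option linter.all false

open Complex Filter Topology Set MeasureTheory
open scoped BigOperators ComplexConjugate

namespace Pool.Agent.N802.WD

open H370 hiding pt
open TC Pool.Agent.N802.U

/-- **WDZ3** -/
theorem wdz3 {F : ℂ → ℂ} (hF : GoodL F) (hwd : S_wd3 F) : S_wdz3 F := by
  classical
  intro β ε₀ hε hβ4 hε₀
  obtain ⟨C, T0, hC, hT0, H⟩ := hwd β ε₀ hε hβ4 hε₀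
  refine ⟨Real.exp (1 / 2) * 4 * C * Real.sqrt (2 * Real.pi) * 3 * Real.exp 1, 2 * T0,
    by positivity, by linarith, ?_⟩
  intro T hT N K hN1 hK1 hK2 S hS r A hA
  set T1 : ℝ := 9 / 10 * T with hT1
  have hTT : T0 ≤ T1 := by rw [hT1]; linarith
  have hT20 : 20 ≤ T := by linarith
  have hT1p : 1 ≤ T1 := by linarith
  have hT1T : T1 ≤ T := by rw [hT1]; linarith
  have hsq : T ≤ T1 ^ 2 := by
    rw [hT1]
    nlinarith
  set L := Real.log T with hL
  set L1 := Real.log T1 with hL1
  have hLL : L1 ≤ L := Real.log_le_log (by linarith) hT1T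
  have hLL2 : L ≤ 2 * L1 := by
    have := Real.log_le_log (by linarith) hsq
    rw [Real.log_pow] at this
    exact_mod_cast this
  have hL1' : 1 ≤ L := by
    rw [hL, Real.le_log_iff_exp_le (by linarith)]
    have := Real.exp_one_lt_d9
    linarith
  have hL1p : 0 < L1 := by linarith
  set HH : ℝ := K with hHH
  have hNK : N ≤ K := by
    refine le_trans ?_ hK1
    exact le_mul_of_one_le_right (by linarith) (Real.one_le_rpow (by linarith) (by linarith))
  have hH1 : 1 ≤ HH := hN1.trans hNK
  have hH0 : 0 < HH := by linarith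
  have hHK : HH ≤ K := le_rfl
  have hHge : N * T1 ^ (1 / 2 + β) ≤ HH := by
    refine le_trans ?_ hK1
    exact mul_le_mul_of_nonneg_left (Real.rpow_le_rpow (by linarith) hT1T (by linarith))
      (by linarith)
  have hNT1 : N ≤ T1 := by rw [hT1]; linarith
  have hSlog : ∀ k ∈ S, 1 ≤ k ∧ Real.log k ≤ L := by
    intro k hk
    refine ⟨(hS k hk).1, ?_⟩
    have hk1 : (1 : ℝ) ≤ k := by exact_mod_cast (hS k hk).1
    exact Real.log_le_log (by linarith) ((hS k hk).2.trans (hNT1.trans hT1T))
  set Z := (Zf F T (T + K)).filter (fun s => A ≤ |(zz s).im| * Real.log T) with hZ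
  obtain ⟨A', hA'⟩ : ∃ A' : ℝ, A' = A * (L1 / L) := ⟨_, rfl⟩
  have hA'0 : 0 ≤ A' := by rw [hA']; positivity
  rcases Finset.eq_empty_or_nonempty Z with hZe | ⟨s₀, hs₀⟩
  · rw [hZe, Finset.sum_empty]
    have := w1_nonneg S r
    positivity
  have hAL : A ≤ L := by
    rw [hZ, Finset.mem_filter, mem_Zf hF (by linarith)] at hs₀
    have h1 := hs₀.2
    have h2 : |(zz s₀).im| ≤ 1 := by
      rw [zz_im, abs_neg, abs_le]
      constructor <;> linarith [hs₀.1.1, hs₀.1.2.1]
    have h3 : |(zz s₀).im| * Real.log T ≤ 1 * Real.log T :=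
      mul_le_mul_of_nonneg_right h2 (by rw [← hL]; linarith)
    linarith
  have hLd : L - L1 ≤ 1 / 2 := by
    have h1 : L - L1 = Real.log (T / T1) := by
      rw [Real.log_div (by linarith) (by linarith)]
    have h2 : T / T1 ≤ 3 / 2 := by
      rw [div_le_iff₀ (by linarith), hT1]
      linarith
    have h3 := Real.log_le_sub_one_of_pos (x := T / T1) (by positivity)
    linarith
  have hAA : A - A' ≤ 1 / 2 := by
    have h1 : A - A' = A / L * (L - L1) := by
      rw [hA']
      field_simp
    have h2 : A / L ≤ 1 := by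
      rw [div_le_one (by linarith)]
      exact hAL
    have h3 : A / L * (L - L1) ≤ 1 * (L - L1) :=
      mul_le_mul_of_nonneg_right h2 (by linarith)
    linarith
  have hAA0 : A' ≤ A := by
    rw [hA']
    refine mul_le_of_le_one_right hA ?_
    rw [div_le_one (by linarith)]
    exact hLL
  set Z' := (Zf F T (T + K)).filter (fun s => A' ≤ |(zz s).im| * L1) with hZ'
  have hsub : Z ⊆ Z' := by
    intro s hs
    rw [hZ, Finset.mem_filter] at hs
    rw [hZ', Finset.mem_filter]
    refine ⟨hs.1, ?_⟩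
    have h1 := hs.2
    have h2 : A * (L1 / L) ≤ |(zz s).im| * Real.log T * (L1 / L) :=
      mul_le_mul_of_nonneg_right h1 (by positivity)
    rw [hA']
    refine h2.trans (le_of_eq ?_)
    rw [← hL]
    field_simp
  have claim : ∀ (r' : ℕ → ℂ) (τ : ℝ), ∑ s ∈ Z, (mult F s : ℝ) *
      ∫ t in T1..(2 * T1), rh τ HH S r' t * (if |s.im - (t + 0)| ≤ 1 / L1 then (1 : ℝ) else 0) ≤
      C * Real.exp (-((2 * β - ε₀) * A')) * mr HH S r' := by
    intro r' τ
    have h := H T1 hTT N HH hN1 hNT1 hHge S hS r' τ T (T + K) 0 A' (by linarith)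
      (by rw [abs_zero]; linarith) hA'0
    refine le_trans ?_ h
    have e : ∀ t : ℝ, ∑ s ∈ (Zf F T (T + K)).filter (fun s => A' ≤ |(zz s).im| * Real.log T1 ∧
        |s.im - (t + 0)| ≤ 1 / Real.log T1), (mult F s : ℝ) =
        ∑ s ∈ Z', if |s.im - (t + 0)| ≤ 1 / L1 then (mult F s : ℝ) else 0 := by
      intro t
      rw [hZ', Finset.sum_filter, Finset.sum_filter]
      refine Finset.sum_congr rfl fun s _ => ?_
      by_cases h1 : A' ≤ |(zz s).im| * Real.log T1 <;>
        by_cases h2 : |s.im - (t + 0)| ≤ 1 / Real.log T1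
      · rw [if_pos ⟨h1, h2⟩, if_pos h1, if_pos h2]
      · rw [if_neg (fun h => h2 h.2), if_pos h1, if_neg h2]
      · rw [if_neg (fun h => h1 h.1), if_neg h1]
      · rw [if_neg (fun h => h1 h.1), if_neg h1]
    have e2 := wdz_swap Z' (fun s => (mult F s : ℝ)) (fun s => s.im) (rh_cont τ HH S r') T1
      (2 * T1) (1 / L1)
    have e3 : ∫ t in T1..(2 * T1), rh τ HH S r' t *
        ∑ s ∈ (Zf F T (T + K)).filter (fun s => A' ≤ |(zz s).im| * Real.log T1 ∧
        |s.im - (t + 0)| ≤ 1 / Real.log T1), (mult F s : ℝ) =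
        ∫ t in T1..(2 * T1), rh τ HH S r' t *
        ∑ s ∈ Z', if |s.im - (t + 0)| ≤ 1 / L1 then (mult F s : ℝ) else 0 := by
      congr 1
      funext t
      rw [e t]
    refine le_trans ?_ (le_of_eq (e2.trans e3.symm))
    refine Finset.sum_le_sum_of_subset_of_nonneg hsub fun s _ _ => ?_
    refine mul_nonneg (Nat.cast_nonneg _) ?_
    refine intervalIntegral.integral_nonneg (by linarith) fun t _ => ?_
    refine mul_nonneg (rh_nonneg _ _ _ _ _) ?_
    split_ifs <;> norm_num
  -- the function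
  set g : ℝ → ℝ := fun t => 2 * L * ‖RP S r t‖ ^ 2 + ‖RP S (rd r) t‖ ^ 2 / L with hg
  have hR := RP_cont S r
  have hR' := RP_cont S (rd r)
  have hgc : Continuous g := by
    rw [hg]
    fun_prop
  have hg0 : ∀ t, 0 ≤ g t := by
    intro t
    rw [hg]
    positivity
  set n := ⌊((T + K + 1) - (T - 1)) / HH⌋₊ + 1 with hn
  set τ : ℕ → ℝ := fun j => (T - 1) + j * HH with hτ
  have homc : ∀ j, Continuous (fun t => om (τ j) HH t * g t) := by
    intro j
    unfold om
    fun_prop
  have hL1le : 1 / L ≤ 1 := by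
    rw [div_le_one (by linarith)]
    exact hL1'
  have key : ∀ s ∈ Z, ‖RP S r s.im‖ ^ 2 ≤ Real.exp (1 / 2) * ∑ j ∈ Finset.range n,
      (2 * L * (∫ t in T1..(2 * T1), rh (τ j) HH S r t *
        (if |s.im - (t + 0)| ≤ 1 / L1 then (1 : ℝ) else 0)) +
      1 / L * (∫ t in T1..(2 * T1), rh (τ j) HH S (rd r) t *
        (if |s.im - (t + 0)| ≤ 1 / L1 then (1 : ℝ) else 0))) := by
    intro s hs
    have hs1 : s ∈ Zf F T (T + K) := (Finset.mem_filter.1 hs).1
    rw [mem_Zf hF (by linarith)] at hs1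
    obtain ⟨-, -, hs3, hs4, -⟩ := hs1
    have h1 := wdz_sob (f := RP S r) (f' := RP S (rd r)) (RP_hasDeriv S r) hR' (L := L) s.im
      (by linarith)
    refine h1.trans ?_
    have hpos : 0 < 1 / L := by positivity
    have h2 : ∫ t in (s.im - 1 / L)..(s.im + 1 / L), g t ≤
        ∫ t in (s.im - 1 / L)..(s.im + 1 / L),
          ∑ j ∈ Finset.range n, Real.exp (1 / 2) * (om (τ j) HH t * g t) := by
      refine intervalIntegral.integral_mono_on (by linarith) (hgc.intervalIntegrable _ _)
        ((continuous_finsetSum _ fun j _ =>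
          continuous_const.mul (homc j)).intervalIntegrable _ _) ?_
      intro t ht
      have h3 := wdz_cover (u := T - 1) (v := T + K + 1) hH0 (by linarith) (t := t)
        (by linarith [ht.1]) (by linarith [ht.2])
      have h4 := mul_le_mul_of_nonneg_right h3 (hg0 t)
      rw [one_mul] at h4
      refine h4.trans (le_of_eq ?_)
      rw [mul_assoc, Finset.sum_mul, Finset.mul_sum]
    refine h2.trans ?_
    rw [intervalIntegral.integral_finsetSum
      (f := fun (j : ℕ) (t : ℝ) => Real.exp (1 / 2) * (om (τ j) HH t * g t)) (fun j _ =>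
      (continuous_const.mul (homc j)).intervalIntegrable _ _), Finset.mul_sum]
    refine Finset.sum_le_sum fun j _ => ?_
    rw [intervalIntegral.integral_const_mul]
    refine mul_le_mul_of_nonneg_left ?_ (Real.exp_pos _).le
    have h5 := wdz_cell (homc j) (fun t => mul_nonneg (Real.exp_pos _).le (hg0 t))
      (a := T1) (b := 2 * T1) (u := s.im - 1 / L) (v := s.im + 1 / L) (A := 1 / L1) s.im
      (by linarith) (by linarith) (by rw [hT1] at *; linarith) (by
        intro t ht
        have e1 : 1 / L ≤ 1 / L1 := one_div_le_one_div_of_le hL1p hLL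
        rw [abs_le]
        constructor <;> linarith [ht.1, ht.2])
    refine h5.trans (le_of_eq ?_)
    rw [← intervalIntegral.integral_const_mul, ← intervalIntegral.integral_const_mul,
      ← intervalIntegral.integral_add ((wdz_cell_int (rh_cont _ _ _ _) _ _ _ _).const_mul _)
        ((wdz_cell_int (rh_cont _ _ _ _) _ _ _ _).const_mul _)]
    congr 1
    funext t
    simp only [rh, hg]
    ring
  have hw : 0 ≤ w1 S r := w1_nonneg S r
  set E := C * Real.exp (-((2 * β - ε₀) * A')) with hE
  have hE0 : 0 < E := by positivity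
  calc ∑ s ∈ Z, (mult F s : ℝ) * ‖RP S r s.im‖ ^ 2
      ≤ ∑ s ∈ Z, (mult F s : ℝ) * (Real.exp (1 / 2) * ∑ j ∈ Finset.range n,
      (2 * L * (∫ t in T1..(2 * T1), rh (τ j) HH S r t *
        (if |s.im - (t + 0)| ≤ 1 / L1 then (1 : ℝ) else 0)) +
      1 / L * (∫ t in T1..(2 * T1), rh (τ j) HH S (rd r) t *
        (if |s.im - (t + 0)| ≤ 1 / L1 then (1 : ℝ) else 0)))) :=
        Finset.sum_le_sum fun s hs => mul_le_mul_of_nonneg_left (key s hs) (Nat.cast_nonneg _)
    _ = Real.exp (1 / 2) * ∑ j ∈ Finset.range n, (2 * L * (∑ s ∈ Z, (mult F s : ℝ) *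
        ∫ t in T1..(2 * T1), rh (τ j) HH S r t *
        (if |s.im - (t + 0)| ≤ 1 / L1 then (1 : ℝ) else 0)) +
        1 / L * (∑ s ∈ Z, (mult F s : ℝ) * ∫ t in T1..(2 * T1), rh (τ j) HH S (rd r) t *
        (if |s.im - (t + 0)| ≤ 1 / L1 then (1 : ℝ) else 0))) := by
        simp only [Finset.mul_sum]
        rw [Finset.sum_comm]
        refine Finset.sum_congr rfl fun j _ => ?_
        rw [← Finset.sum_add_distrib, Finset.mul_sum]
        refine Finset.sum_congr rfl fun s _ => ?_
        ring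
    _ ≤ Real.exp (1 / 2) * ∑ j ∈ Finset.range n, (2 * L * (E * mr HH S r) +
        1 / L * (E * mr HH S (rd r))) := by
        refine mul_le_mul_of_nonneg_left (Finset.sum_le_sum fun j _ => ?_) (Real.exp_pos _).le
        exact add_le_add (mul_le_mul_of_nonneg_left (claim r (τ j)) (by positivity))
          (mul_le_mul_of_nonneg_left (claim (rd r) (τ j)) (by positivity))
    _ ≤ Real.exp (1 / 2) * ((n : ℝ) * (E * (Real.sqrt (2 * Real.pi) * HH) * (3 * L * w1 S r))) := by
        rw [Finset.sum_const, Finset.card_range, nsmul_eq_mul]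
        refine mul_le_mul_of_nonneg_left (mul_le_mul_of_nonneg_left ?_ (Nat.cast_nonneg _))
          (Real.exp_pos _).le
        have h1 := w1_rd (r := r) hSlog
        unfold mr
        have h2 : 1 / L * (E * (Real.sqrt (2 * Real.pi) * HH * w1 S (rd r))) ≤
            1 / L * (E * (Real.sqrt (2 * Real.pi) * HH * (L ^ 2 * w1 S r))) := by
          gcongr
        have h3 : 1 / L * (E * (Real.sqrt (2 * Real.pi) * HH * (L ^ 2 * w1 S r))) =
            E * (Real.sqrt (2 * Real.pi) * HH) * (L * w1 S r) := by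
          field_simp
        rw [h3] at h2
        refine (add_le_add_right h2 _).trans (le_of_eq ?_)
        ring
    _ = Real.exp (1 / 2) * (E * Real.sqrt (2 * Real.pi) * (3 * L * w1 S r)) * (n * HH) := by ring
    _ ≤ Real.exp (1 / 2) * (E * Real.sqrt (2 * Real.pi) * (3 * L * w1 S r)) * (4 * K) := by
        refine mul_le_mul_of_nonneg_left ?_ (by positivity)
        have h1 : (⌊((T + K + 1) - (T - 1)) / HH⌋₊ : ℝ) ≤ ((T + K + 1) - (T - 1)) / HH :=
          Nat.floor_le (by apply div_nonneg <;> linarith)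
        have h2 : (n : ℝ) = (⌊((T + K + 1) - (T - 1)) / HH⌋₊ : ℝ) + 1 := by
          rw [hn]; push_cast; ring
        rw [h2]
        have h3 : (⌊((T + K + 1) - (T - 1)) / HH⌋₊ : ℝ) * HH ≤ (T + K + 1) - (T - 1) :=
          (le_div_iff₀ hH0).1 h1
        nlinarith
    _ ≤ Real.exp (1 / 2) * ((C * (Real.exp 1 * Real.exp (-((2 * β - ε₀) * A)))) *
        Real.sqrt (2 * Real.pi) * (3 * L * w1 S r)) * (4 * K) := by
        have h1 : Real.exp (-((2 * β - ε₀) * A')) ≤
            Real.exp 1 * Real.exp (-((2 * β - ε₀) * A)) := by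
          rw [← Real.exp_add]
          apply Real.exp_le_exp.mpr
          rcases le_or_gt 0 (2 * β - ε₀) with h2 | h2
          · have h3 := mul_le_mul_of_nonneg_left hAA h2
            have h4 : 2 * β - ε₀ ≤ 1 := by linarith
            linarith
          · have h3 : 0 ≤ (-(2 * β - ε₀)) * (A - A') := mul_nonneg (by linarith) (by linarith)
            linarith
        have h2 := mul_le_mul_of_nonneg_left h1 hC.le
        rw [hE]
        gcongr
    _ = _ := by ring

end Pool.Agent.N802.WD
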