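import Pool.Agent.N802.WD.Fin3
import Pool.Agent.N802.WD.Boot3
import Pool.Agent.N802.WD.Right3
import Pool.Agent.N802.WD.Jen3
import Pool.Agent.N802.WD.Asm3
import Pool.Agent.N802.WD.Wdz3

/-! # The density theorem with long weights and the exponent `2 β - ε`, for zeta and `L(s, χ)` -/

open Complex Filter Topology Set MeasureTheory
open scoped BigOperators ComplexConjugate

namespace Pool.Agent.N802.WD

open H370 hiding pt
open TC Pool.Agent.N802.U Pool.Agent.N802

/-- the decay to the right -/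
theorem rt3 : S_rt3 := right3 (boot3 cut2 (msd2 op) ker2)

/-- **the density theorem with long weights** -/
theorem wd3_tw {χ : ℕ → ℂ} {F : ℂ → ℂ} {A : ℝ} (h : TwF χ F A) (hF : GoodL F) : S_wd3 F :=
  asm3 rt3 jen3 χ F A h hF

theorem wd3_zeta : S_wd3 riemannZeta := by
  obtain ⟨A, hA⟩ := tw_zeta
  exact wd3_tw hA H370.good_zeta

theorem wdz3_zeta : S_wdz3 riemannZeta := wdz3 H370.good_zeta wd3_zeta

theorem wd3_chi {q : ℕ} [NeZero q] (χ : DirichletCharacter ℂ q) (hχ : χ.IsPrimitive) :
    S_wd3 (DirichletCharacter.LFunction χ) := by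
  rcases Nat.lt_or_ge 1 q with hq | hq
  · obtain ⟨A, hA⟩ := tw_chi hq hχ
    exact wd3_tw hA (H370.good_dirichlet χ hχ)
  · obtain rfl : q = 1 := le_antisymm hq (Nat.pos_of_ne_zero (NeZero.ne q))
    rw [show DirichletCharacter.LFunction χ = riemannZeta from
      DirichletCharacter.LFunction_modOne_eq]
    exact wd3_zeta

theorem wdz3_chi {q : ℕ} [NeZero q] (χ : DirichletCharacter ℂ q) (hχ : χ.IsPrimitive) :
    S_wdz3 (DirichletCharacter.LFunction χ) := wdz3 (H370.good_dirichlet χ hχ) (wd3_chi χ hχ)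

end Pool.Agent.N802.WD
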