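import Pool.Agent.N802.WD.JenX2
import Pool.Agent.N802.WD.Fin4

/-!
# Stretched exponential moments of the number of zeros in a window, in the weight of a long
Dirichlet polynomial
-/

open Complex Filter Topology Set MeasureTheory
open scoped BigOperators ComplexConjugate

set_option autoImplicit false

namespace Pool.Agent.N802.WD

open H370 hiding pt
open TC Pool.Agent.N802.U
open Pool.Agent.R399.TW (pt)
open JX (gg nn gg_mono gg_nonneg nn_nonneg)

/-- **EC**: windows -/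
def S_ec (F : ℂ → ℂ) : Prop := ∀ β : ℝ, 0 < β → β < 1 / 2 → ∃ c C T0 : ℝ, 0 < c ∧ 0 < C ∧
  10 ≤ T0 ∧ ∀ T : ℝ, T0 ≤ T → ∀ N H : ℝ, 1 ≤ N → N ≤ T → N * T ^ (1 / 2 + β) ≤ H →
  ∀ S : Finset ℕ, Len S N → ∀ (r : ℕ → ℂ) (τ U1 U2 x : ℝ), 1 ≤ U1 → |x| ≤ T / 5 →
  ∫ t in T..(2 * T), rh τ H S r t * gg c (na F U1 U2 (1 / Real.log T) (t + x)) ≤ C * mr H S r

lemma na_nonneg (F : ℂ → ℂ) (U1 U2 h t : ℝ) : 0 ≤ na F U1 U2 h t :=
  Finset.sum_nonneg fun _ _ => Nat.cast_nonneg _

lemma na_meas (F : ℂ → ℂ) (U1 U2 h x : ℝ) : Measurable fun t : ℝ => na F U1 U2 h (t + x) := by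
  classical
  have e : ∀ t : ℝ, na F U1 U2 h (t + x) =
      ∑ s ∈ Zf F U1 U2, if |s.im - (t + x)| ≤ h then (mult F s : ℝ) else 0 := by
    intro t
    unfold na
    rw [Finset.sum_filter]
  simp_rw [e]
  refine Finset.measurable_fun_sum _ fun s _ => ?_
  apply Measurable.ite _ measurable_const measurable_const
  have hc : Continuous (fun t : ℝ => |s.im - (t + x)|) := by fun_prop
  exact (isClosed_le hc continuous_const).measurableSet

lemma na_le (F : ℂ → ℂ) (U1 U2 h t : ℝ) : na F U1 U2 h t ≤ ∑ s ∈ Zf F U1 U2, (mult F s : ℝ) := by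
  classical
  unfold na
  exact Finset.sum_le_sum_of_subset_of_nonneg (Finset.filter_subset _ _)
    fun _ _ _ => Nat.cast_nonneg _

lemma gg_cont (c : ℝ) : Continuous (gg c) := by
  unfold gg
  fun_prop

lemma gna_int {w : ℝ → ℝ} (hw : Continuous w) {c : ℝ} (hc : 0 ≤ c) (F : ℂ → ℂ)
    (U1 U2 h x a b : ℝ) :
    IntervalIntegrable (fun t => w t * gg c (na F U1 U2 h (t + x))) volume a b := by
  classical
  have h2 : IntervalIntegrable (fun t => |w t| * gg c (∑ s ∈ Zf F U1 U2, (mult F s : ℝ)))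
      volume a b := (hw.abs.mul continuous_const).intervalIntegrable _ _
  apply h2.mono_fun'
  · apply AEStronglyMeasurable.restrict
    apply Measurable.aestronglyMeasurable
    exact hw.measurable.mul ((gg_cont c).measurable.comp (na_meas F U1 U2 h x))
  · refine Eventually.of_forall fun t => ?_
    simp only
    rw [Real.norm_eq_abs, abs_mul, abs_of_nonneg (gg_nonneg (na_nonneg F U1 U2 h (t + x)))]
    exact mul_le_mul_of_nonneg_left (gg_mono hc (na_nonneg _ _ _ _ _) (na_le _ _ _ _ _))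
      (abs_nonneg _)

/-- doubling -/
lemma gg_two {c n : ℝ} (hc : 0 ≤ c) (hn : 0 ≤ n) : gg (c / 2) (2 * n) ≤ 2 * gg c n := by
  unfold gg
  have h1 : c / 2 * Real.sqrt (2 * n) ≤ c * Real.sqrt n := by
    rw [Real.sqrt_mul (by norm_num)]
    have h2 : Real.sqrt 2 ≤ 2 := by
      rw [Real.sqrt_le_left (by norm_num)]
      norm_num
    have h3 : 0 ≤ c * Real.sqrt n := by positivity
    have h4 : c / 2 * (Real.sqrt 2 * Real.sqrt n) = Real.sqrt 2 * (c * Real.sqrt n) / 2 := by ring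
    rw [h4]
    nlinarith
  have h2 := Real.exp_le_exp.mpr h1
  nlinarith

open Asm2
open Asm (cube_le norm_pow_le rh_cont' rh_nonneg' cnt_int refl_le)

/-- **EC** -/
theorem ec_tw {χ : ℕ → ℂ} {F : ℂ → ℂ} {Q : ℝ} (hF : TwF χ F Q) (hgz : GoodL F) : S_ec F := by
  classical
  intro β hβ0 hβ4
  obtain ⟨β₁, hβ₁d⟩ : ∃ β₁ : ℝ, β₁ = β / 3 := ⟨_, rfl⟩
  obtain ⟨β₂, hβ₂d⟩ : ∃ β₂ : ℝ, β₂ = β / 2 := ⟨_, rfl⟩
  have hβ₁ : 0 < β₁ := by rw [hβ₁d]; positivity
  have hβ : β₁ < β₂ := by rw [hβ₁d, hβ₂d]; linarith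
  have hβ₂ : β₂ < β := by rw [hβ₂d]; linarith
  obtain ⟨C₁, T0, hC₁, hT0, hmain⟩ := rt3 χ F Q hF β β₁ β₂ hβ₁ hβ hβ₂ hβ4
  obtain ⟨T1, hT1, Hm⟩ := R2.rh_mass2
  obtain ⟨c, C, L₀, hc, hC, hL₀, hj⟩ := JX.jenx_core (2 * β₁) (max C₁ 2) (by positivity)
    (by positivity)
  refine ⟨c / 2, 2 * C, max (max (max T0 T1) 600) (Real.exp L₀), by positivity, by positivity,
    le_max_of_le_left (le_max_of_le_left (le_max_of_le_left hT0)), ?_⟩
  intro T hT N H hN hNT hH S hS r τ U1 U2 x hU1 hx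
  have hTT0 : T0 ≤ T := ((le_max_left _ _).trans ((le_max_left _ _).trans (le_max_left _ _))).trans hT
  have hTT1 : T1 ≤ T := ((le_max_right _ _).trans ((le_max_left _ _).trans (le_max_left _ _))).trans hT
  have hT2 : 600 ≤ T := (le_max_right _ _).trans ((le_max_left _ _).trans hT)
  have hT3 : Real.exp L₀ ≤ T := (le_max_right _ _).trans hT
  have hTpos : 0 < T := by linarith
  set L := Real.log T with hL
  have hLL : L₀ ≤ L := by
    rw [hL, Real.le_log_iff_exp_le hTpos]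
    exact hT3
  have hL1 : 1 ≤ L := hL₀.trans hLL
  have hL0 : 0 < L := by linarith
  obtain ⟨V, hV, hV1, _, hms⟩ := hmain T hTT0
  have hV0 : V 0 = 1 := hV1 0 (by positivity)
  set M := ⌊T ^ β₂⌋₊ with hM
  have hM1 : 1 ≤ M := by
    rw [hM]
    refine Nat.le_floor ?_
    push_cast
    exact Real.one_le_rpow (by linarith) (by linarith)
  set f : ℂ → ℂ := fun z => F z * Mx χ V M z - 1 with hf
  have hHpos : 0 < H := lt_of_lt_of_le (by positivity) hH
  have hmr : 0 ≤ mr H S r := by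
    unfold mr
    have := w1_nonneg S r
    positivity
  have hmass : ∫ t in T..(2 * T), rh τ H S r t ≤ max C₁ 2 * mr H S r := by
    have h1 : ∫ t in T..(2 * T), rh τ H S r t ≤ 2 * mr H S r := by
      rw [intervalIntegral.integral_of_le (by linarith)]
      refine (setIntegral_le_integral (rh_intg hHpos S r)
        (Eventually.of_forall fun t => rh_nonneg _ _ _ _ t)).trans ?_
      exact Hm T hTT1 N H β hβ0 hN hNT hH S hS r τ
    exact h1.trans (mul_le_mul_of_nonneg_right (le_max_right _ _) hmr)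
  have hfd : ∀ z : ℂ, 1 < z.im → DifferentiableAt ℂ f z := by
    intro z hz
    have h1 : z ≠ 1 := by
      rintro rfl
      simp at hz
      linarith
    exact ((F_diff hF h1).mul (Mx_diff χ V M z)).sub_const 1
  have hf3 : ∀ z : ℂ, 1 < z.im → 3 ≤ z.re → ‖f z‖ ≤ 1 / 2 :=
    fun z _ hz => f_le hF hV hV0 hM1 hz
  have hxa := abs_le.1 hx
  have key := hj L hLL f hfd hf3 T (2 * T) x (mr H S r) (rh τ H S r) (by linarith)
    (by linarith) (rh_cont' _ _ _ _) (rh_nonneg' _ _ _ _) hmr hmass (by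
      intro ρ y h1 h2 h3
      have hy := abs_le.1 h3
      have h4 := hms N H hN hNT hH S hS r τ (x + y) (by
        rw [abs_le]
        constructor <;> linarith) ρ h1 h2
      have h5 : C₁ * Real.exp (-(2 * β₁ * L * ρ)) * mr H S r ≤
          max C₁ 2 * Real.exp (-(2 * β₁ * L * ρ)) * mr H S r := by
        have := le_max_left C₁ 2
        gcongr
      refine le_trans (le_of_eq ?_) (h4.trans h5)
      refine intervalIntegral.integral_congr fun t _ => ?_
      simp only [hf, add_assoc]) (Zf F U1 U2) (mult F) (by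
      intro s hs
      obtain ⟨h1, h2, h3, _, _⟩ := (mem_Zf hgz hU1).1 hs
      refine ⟨by linarith, h2.le, Asm2.order_le hF hV hV0 hM1 ?_⟩
      rintro rfl
      simp at h3
      linarith)
  have hnn : ∀ t, na F U1 U2 (1 / L) (t + x) ≤ 2 * nn (Zf F U1 U2) (mult F) L x t := by
    intro t
    have h1 := refl_le hgz hU1 (U2 := U2) hL0 0 (t + x) (1 / L)
    have e1 : (Zf F U1 U2).filter (fun s => 0 ≤ |(zz s).im| * L ∧ |s.im - (t + x)| ≤ 1 / L) =
        (Zf F U1 U2).filter (fun s => |s.im - (t + x)| ≤ 1 / L) := by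
      refine Finset.filter_congr fun s _ => ?_
      constructor
      · exact fun h => h.2
      · exact fun h => ⟨by positivity, h⟩
    have e2 : (Zf F U1 U2).filter (fun s => 1 / 2 + 0 / L ≤ s.re ∧ |s.im - (t + x)| ≤ 1 / L) =
        (Zf F U1 U2).filter (fun s => 1 / 2 ≤ s.re ∧ |s.im - (t + x)| ≤ 1 / L) := by
      rw [zero_div, add_zero]
    rw [e1, e2] at h1
    exact h1
  have hmono : ∫ t in T..(2 * T), rh τ H S r t * gg (c / 2) (na F U1 U2 (1 / L) (t + x)) ≤
      ∫ t in T..(2 * T), 2 * (rh τ H S r t * gg c (nn (Zf F U1 U2) (mult F) L x t)) := by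
    refine intervalIntegral.integral_mono_on (by linarith)
      (gna_int (rh_cont' _ _ _ _) (by positivity) F U1 U2 _ x _ _)
      ((JX.gg_int (rh_cont' _ _ _ _) _ _ hc.le L x _ _).const_mul 2) ?_
    intro t _
    have h2 := rh_nonneg' τ H S r t
    have h3 := gg_mono (c := c / 2) (by positivity) (na_nonneg F U1 U2 (1 / L) (t + x)) (hnn t)
    have h4 := h3.trans (gg_two hc.le (nn_nonneg (Zf F U1 U2) (mult F) L x t))
    calc _ ≤ rh τ H S r t * (2 * gg c (nn (Zf F U1 U2) (mult F) L x t)) :=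
          mul_le_mul_of_nonneg_left h4 h2
      _ = _ := by ring
  rw [intervalIntegral.integral_const_mul] at hmono
  refine hmono.trans ?_
  linarith

theorem ec_zeta : S_ec riemannZeta := by
  obtain ⟨A, hA⟩ := tw_zeta
  exact ec_tw hA H370.good_zeta

theorem ec_chi {q : ℕ} [NeZero q] (χ : DirichletCharacter ℂ q) (hχ : χ.IsPrimitive) :
    S_ec (DirichletCharacter.LFunction χ) := by
  rcases Nat.lt_or_ge 1 q with hq | hq
  · obtain ⟨A, hA⟩ := tw_chi hq hχ
    exact ec_tw hA (H370.good_dirichlet χ hχ)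
  · obtain rfl : q = 1 := le_antisymm hq (Nat.pos_of_ne_zero (NeZero.ne q))
    rw [show DirichletCharacter.LFunction χ = riemannZeta from
      DirichletCharacter.LFunction_modOne_eq]
    exact ec_zeta

end Pool.Agent.N802.WD
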