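import Pool.Agent.N802.WD.Ec

/-!
# Stretched exponential moments of the number of zeros near a zero, in the weight of a long
Dirichlet polynomial
-/

set_option linter.all false

open Complex Filter Topology Set MeasureTheory
open scoped BigOperators ComplexConjugate

set_option autoImplicit false

namespace Pool.Agent.N802.WD

open H370 hiding pt
open TC Pool.Agent.N802.U
open JX (gg gg_mono gg_nonneg)

/-- **ECZ**: at the zeros -/
def S_ecz (F : ℂ → ℂ) : Prop := ∀ β : ℝ, 0 < β → β < 1 / 2 → ∃ c C T0 : ℝ, 0 < c ∧ 0 < C ∧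
  10 ≤ T0 ∧ ∀ T : ℝ, T0 ≤ T → ∀ N K : ℝ, 1 ≤ N → N * T ^ (1 / 2 + β) ≤ K → K ≤ T / 2 →
  ∀ S : Finset ℕ, Len S N → ∀ r : ℕ → ℂ,
  (∑ s ∈ Zf F T (T + K), ((mult F s : ℝ) *
    Real.exp (c * Real.sqrt (na F (T - 1) (T + K + 1) (1 / Real.log T) s.im))) *
    ‖RP S r s.im‖ ^ 2) ≤ C * (K * Real.log T * w1 S r)

/-- the number of zeros around a point near `t` -/
lemma na_split {F : ℂ → ℂ} (hF : GoodL F) {U1 U2 h h' t y : ℝ} (hh : h' ≤ h)
    (hy : |y - t| ≤ h) : na F U1 U2 h' y ≤ na F U1 U2 h (t + -h) + na F U1 U2 h (t + h) := by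
  classical
  unfold na
  simp only [Finset.sum_filter]
  rw [← Finset.sum_add_distrib]
  refine Finset.sum_le_sum fun s _ => ?_
  have hm : (0 : ℝ) ≤ (mult F s : ℝ) := Nat.cast_nonneg _
  have hy' := abs_le.1 hy
  by_cases h1 : |s.im - y| ≤ h'
  · have h1' := abs_le.1 h1
    rw [if_pos h1]
    rcases le_total s.im t with h2 | h2
    · have h3 : |s.im - (t + -h)| ≤ h := by
        rw [abs_le]
        constructor <;> linarith [h1'.1, h1'.2, hy'.1, hy'.2]
      rw [if_pos h3]
      have h4 : (0 : ℝ) ≤ if |s.im - (t + h)| ≤ h then (mult F s : ℝ) else 0 := by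
        split_ifs
        · exact hm
        · exact le_rfl
      linarith
    · have h3 : |s.im - (t + h)| ≤ h := by
        rw [abs_le]
        constructor <;> linarith [h1'.1, h1'.2, hy'.1, hy'.2]
      rw [if_pos h3]
      have h4 : (0 : ℝ) ≤ if |s.im - (t + -h)| ≤ h then (mult F s : ℝ) else 0 := by
        split_ifs
        · exact hm
        · exact le_rfl
      linarith
  · rw [if_neg h1]
    have h4 : (0 : ℝ) ≤ if |s.im - (t + h)| ≤ h then (mult F s : ℝ) else 0 := by
      split_ifs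
      · exact hm
      · exact le_rfl
    have h5 : (0 : ℝ) ≤ if |s.im - (t + -h)| ≤ h then (mult F s : ℝ) else 0 := by
      split_ifs
      · exact hm
      · exact le_rfl
    linarith

/-- the zeros near `t` -/
lemma near_split {F : ℂ → ℂ} {Z W : Finset ℂ} (hZW : Z ⊆ W) {h t : ℝ} (hh : 0 ≤ h) :
    (∑ s ∈ Z, if |s.im - (t + 0)| ≤ h then (mult F s : ℝ) else 0) ≤
      (∑ s ∈ W, if |s.im - (t + -h)| ≤ h then (mult F s : ℝ) else 0) +
      ∑ s ∈ W, if |s.im - (t + h)| ≤ h then (mult F s : ℝ) else 0 := by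
  classical
  rw [← Finset.sum_add_distrib]
  have hm : ∀ s, (0 : ℝ) ≤ (mult F s : ℝ) := fun s => Nat.cast_nonneg _
  refine le_trans (Finset.sum_le_sum_of_subset_of_nonneg hZW fun s _ _ => ?_)
    (Finset.sum_le_sum fun s _ => ?_)
  · split_ifs
    · exact hm s
    · exact le_rfl
  · have h4 : (0 : ℝ) ≤ if |s.im - (t + h)| ≤ h then (mult F s : ℝ) else 0 := by
      split_ifs
      · exact hm s
      · exact le_rfl
    have h5 : (0 : ℝ) ≤ if |s.im - (t + -h)| ≤ h then (mult F s : ℝ) else 0 := by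
      split_ifs
      · exact hm s
      · exact le_rfl
    by_cases h1 : |s.im - (t + 0)| ≤ h
    · have h1' := abs_le.1 h1
      rw [if_pos h1]
      rcases le_total s.im t with h2 | h2
      · have h3 : |s.im - (t + -h)| ≤ h := by
          rw [abs_le]
          constructor <;> linarith [h1'.1, h1'.2]
        rw [if_pos h3]
        linarith
      · have h3 : |s.im - (t + h)| ≤ h := by
          rw [abs_le]
          constructor <;> linarith [h1'.1, h1'.2]
        rw [if_pos h3]
        linarith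
    · rw [if_neg h1]
      linarith

/-- the pointwise bound -/
lemma gg_split {c a b : ℝ} (hc : 0 ≤ c) (ha : 0 ≤ a) (hb : 0 ≤ b) :
    gg (c / 2) (a + b) ≤ 2 * (gg c a + gg c b) := by
  rcases le_total a b with h | h
  · have h1 := gg_mono (c := c / 2) (by positivity) (add_nonneg ha hb)
      (show a + b ≤ 2 * b by linarith)
    have h2 := gg_two hc hb
    have h3 := gg_nonneg (c := c) ha
    linarith
  · have h1 := gg_mono (c := c / 2) (by positivity) (add_nonneg ha hb)
      (show a + b ≤ 2 * a by linarith)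
    have h2 := gg_two hc ha
    have h3 := gg_nonneg (c := c) hb
    linarith

/-- **ECZ** -/
theorem ecz {F : ℂ → ℂ} (hF : GoodL F) (hec : S_ec F) : S_ecz F := by
  classical
  intro β hε hβ4
  obtain ⟨c, C, T0, hc, hC, hT0, H⟩ := hec β hε hβ4
  refine ⟨c / 2, Real.exp (1 / 2) * 16 * C * Real.sqrt (2 * Real.pi) * 3, 2 * T0,
    by positivity, by positivity, by linarith, ?_⟩
  intro T hT N K hN1 hK1 hK2 S hS r
  set T1 : ℝ := 9 / 10 * T with hT1
  have hTT : T0 ≤ T1 := by rw [hT1]; linarith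
  have hT20 : 20 ≤ T := by linarith
  have hT1p : 1 ≤ T1 := by linarith
  have hT1T : T1 ≤ T := by rw [hT1]; linarith
  have hsq : T ≤ T1 ^ 2 := by
    rw [hT1]
    nlinarith
  set L := Real.log T with hL
  set L1 := Real.log T1 with hL1
  have hLL : L1 ≤ L := Real.log_le_log (by linarith) hT1T
  have hLL2 : L ≤ 2 * L1 := by
    have := Real.log_le_log (by linarith) hsq
    rw [Real.log_pow] at this
    exact_mod_cast this
  have hL1' : 1 ≤ L := by
    rw [hL, Real.le_log_iff_exp_le (by linarith)]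
    have := Real.exp_one_lt_d9
    linarith
  have hL1p : 0 < L1 := by linarith
  set HH : ℝ := K with hHH
  have hNK : N ≤ K := by
    refine le_trans ?_ hK1
    exact le_mul_of_one_le_right (by linarith) (Real.one_le_rpow (by linarith) (by linarith))
  have hH1 : 1 ≤ HH := hN1.trans hNK
  have hH0 : 0 < HH := by linarith
  have hHK : HH ≤ K := le_rfl
  have hHge : N * T1 ^ (1 / 2 + β) ≤ HH := by
    refine le_trans ?_ hK1
    exact mul_le_mul_of_nonneg_left (Real.rpow_le_rpow (by linarith) hT1T (by linarith))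
      (by linarith)
  have hNT1 : N ≤ T1 := by rw [hT1]; linarith
  have hSlog : ∀ k ∈ S, 1 ≤ k ∧ Real.log k ≤ L := by
    intro k hk
    refine ⟨(hS k hk).1, ?_⟩
    have hk1 : (1 : ℝ) ≤ k := by exact_mod_cast (hS k hk).1
    exact Real.log_le_log (by linarith) ((hS k hk).2.trans (hNT1.trans hT1T))
  set Z := Zf F T (T + K) with hZ
  set W := Zf F (T - 1) (T + K + 1) with hW
  have hZW : Z ⊆ W := by
    intro s hs
    rw [hZ, mem_Zf hF (by linarith)] at hs
    rw [hW, mem_Zf hF (by linarith)]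
    obtain ⟨h1, h2, h3, h4, h5⟩ := hs
    exact ⟨h1, h2, by linarith, by linarith, h5⟩
  have hL1h : 1 / 2 ≤ L1 := by linarith
  have hh0 : 0 < 1 / L1 := by positivity
  have hh2 : 1 / L1 ≤ 2 := by
    rw [div_le_iff₀ hL1p]
    linarith
  have hhh : 1 / L ≤ 1 / L1 := one_div_le_one_div_of_le hL1p hLL
  set ωs : ℂ → ℝ := fun s => (mult F s : ℝ) *
    Real.exp (c / 2 * Real.sqrt (na F (T - 1) (T + K + 1) (1 / L) s.im)) with hωs
  have hω0 : ∀ s, 0 ≤ ωs s := fun s => mul_nonneg (Nat.cast_nonneg _) (Real.exp_pos _).le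
  have hpt : ∀ t : ℝ, (∑ s ∈ Z, if |s.im - (t + 0)| ≤ 1 / L1 then ωs s else 0) ≤
      2 * (gg c (na F (T - 1) (T + K + 1) (1 / L1) (t + -(1 / L1))) +
        gg c (na F (T - 1) (T + K + 1) (1 / L1) (t + 1 / L1))) := by
    intro t
    set a := na F (T - 1) (T + K + 1) (1 / L1) (t + -(1 / L1)) with ha
    set b := na F (T - 1) (T + K + 1) (1 / L1) (t + 1 / L1) with hb
    have ha0 : 0 ≤ a := na_nonneg _ _ _ _ _
    have hb0 : 0 ≤ b := na_nonneg _ _ _ _ _
    have h1 : (∑ s ∈ Z, if |s.im - (t + 0)| ≤ 1 / L1 then ωs s else 0) ≤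
        ∑ s ∈ Z, (if |s.im - (t + 0)| ≤ 1 / L1 then (mult F s : ℝ) else 0) *
          Real.exp (c / 2 * Real.sqrt (a + b)) := by
      refine Finset.sum_le_sum fun s _ => ?_
      by_cases h2 : |s.im - (t + 0)| ≤ 1 / L1
      · rw [if_pos h2, if_pos h2]
        simp only [hωs]
        refine mul_le_mul_of_nonneg_left (Real.exp_le_exp.2 ?_) (Nat.cast_nonneg _)
        refine mul_le_mul_of_nonneg_left (Real.sqrt_le_sqrt ?_) (by positivity)
        rw [add_zero] at h2
        exact na_split hF hhh h2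
      · rw [if_neg h2, if_neg h2, zero_mul]
    rw [← Finset.sum_mul] at h1
    have h3 := near_split (F := F) (t := t) hZW hh0.le
    have h4 : (∑ s ∈ W, if |s.im - (t + -(1 / L1))| ≤ 1 / L1 then (mult F s : ℝ) else 0) = a := by
      rw [ha]
      unfold na
      rw [Finset.sum_filter]
    have h5 : (∑ s ∈ W, if |s.im - (t + 1 / L1)| ≤ 1 / L1 then (mult F s : ℝ) else 0) = b := by
      rw [hb]
      unfold na
      rw [Finset.sum_filter]
    rw [h4, h5] at h3
    refine h1.trans ((mul_le_mul_of_nonneg_right h3 (Real.exp_pos _).le).trans ?_)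
    exact gg_split hc.le ha0 hb0
  have claim : ∀ (r' : ℕ → ℂ) (τ : ℝ), ∑ s ∈ Z, ωs s *
      ∫ t in T1..(2 * T1), rh τ HH S r' t * (if |s.im - (t + 0)| ≤ 1 / L1 then (1 : ℝ) else 0) ≤
      4 * C * mr HH S r' := by
    intro r' τ
    have ha := H T1 hTT N HH hN1 hNT1 hHge S hS r' τ (T - 1) (T + K + 1) (-(1 / L1))
      (by linarith) (by rw [abs_neg, abs_of_pos hh0]; linarith)
    have hb := H T1 hTT N HH hN1 hNT1 hHge S hS r' τ (T - 1) (T + K + 1) (1 / L1)
      (by linarith) (by rw [abs_of_pos hh0]; linarith)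
    rw [← hL1] at ha hb
    rw [wdz_swap Z ωs (fun s => s.im) (rh_cont τ HH S r') T1 (2 * T1) (1 / L1)]
    have ia := gna_int (rh_cont τ HH S r') hc.le F (T - 1) (T + K + 1) (1 / L1) (-(1 / L1)) T1
      (2 * T1)
    have ib := gna_int (rh_cont τ HH S r') hc.le F (T - 1) (T + K + 1) (1 / L1) (1 / L1) T1
      (2 * T1)
    have i0 : IntervalIntegrable (fun t => rh τ HH S r' t *
        ∑ s ∈ Z, if |s.im - (t + 0)| ≤ 1 / L1 then ωs s else 0) volume T1 (2 * T1) := by
      have h1 : IntervalIntegrable (∑ s ∈ Z, fun t => ωs s * (rh τ HH S r' t *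
        (if |s.im - (t + 0)| ≤ 1 / L1 then (1 : ℝ) else 0))) volume T1 (2 * T1) :=
        IntervalIntegrable.sum _ fun s _ => (wdz_cell_int (rh_cont _ _ _ _) _ _ _ _).const_mul _
      refine h1.congr ?_
      intro t _
      simp only [Finset.sum_apply]
      rw [Finset.mul_sum]
      refine Finset.sum_congr rfl fun s _ => ?_
      split_ifs <;> ring
    have h2 : ∫ t in T1..(2 * T1), rh τ HH S r' t *
        (∑ s ∈ Z, if |s.im - (t + 0)| ≤ 1 / L1 then ωs s else 0) ≤
        ∫ t in T1..(2 * T1), (2 * (rh τ HH S r' t *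
          gg c (na F (T - 1) (T + K + 1) (1 / L1) (t + -(1 / L1)))) +
        2 * (rh τ HH S r' t * gg c (na F (T - 1) (T + K + 1) (1 / L1) (t + 1 / L1)))) := by
      refine intervalIntegral.integral_mono_on (by linarith) i0
        ((ia.const_mul 2).add (ib.const_mul 2)) ?_
      intro t _
      refine (mul_le_mul_of_nonneg_left (hpt t) (rh_nonneg _ _ _ _ _)).trans (le_of_eq ?_)
      ring
    refine h2.trans ?_
    rw [intervalIntegral.integral_add (ia.const_mul 2) (ib.const_mul 2),
      intervalIntegral.integral_const_mul, intervalIntegral.integral_const_mul]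
    linarith
  -- the function
  set g : ℝ → ℝ := fun t => 2 * L * ‖RP S r t‖ ^ 2 + ‖RP S (rd r) t‖ ^ 2 / L with hg
  have hR := RP_cont S r
  have hR' := RP_cont S (rd r)
  have hgc : Continuous g := by
    rw [hg]
    fun_prop
  have hg0 : ∀ t, 0 ≤ g t := by
    intro t
    rw [hg]
    positivity
  set n := ⌊((T + K + 1) - (T - 1)) / HH⌋₊ + 1 with hn
  set τ : ℕ → ℝ := fun j => (T - 1) + j * HH with hτ
  have homc : ∀ j, Continuous (fun t => om (τ j) HH t * g t) := by
    intro j
    unfold om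
    fun_prop
  have hL1le : 1 / L ≤ 1 := by
    rw [div_le_one (by linarith)]
    exact hL1'
  have key : ∀ s ∈ Z, ‖RP S r s.im‖ ^ 2 ≤ Real.exp (1 / 2) * ∑ j ∈ Finset.range n,
      (2 * L * (∫ t in T1..(2 * T1), rh (τ j) HH S r t *
        (if |s.im - (t + 0)| ≤ 1 / L1 then (1 : ℝ) else 0)) +
      1 / L * (∫ t in T1..(2 * T1), rh (τ j) HH S (rd r) t *
        (if |s.im - (t + 0)| ≤ 1 / L1 then (1 : ℝ) else 0))) := by
    intro s hs
    have hs1 : s ∈ Zf F T (T + K) := hs
    rw [mem_Zf hF (by linarith)] at hs1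
    obtain ⟨-, -, hs3, hs4, -⟩ := hs1
    have h1 := wdz_sob (f := RP S r) (f' := RP S (rd r)) (RP_hasDeriv S r) hR' (L := L) s.im
      (by linarith)
    refine h1.trans ?_
    have hpos : 0 < 1 / L := by positivity
    have h2 : ∫ t in (s.im - 1 / L)..(s.im + 1 / L), g t ≤
        ∫ t in (s.im - 1 / L)..(s.im + 1 / L),
          ∑ j ∈ Finset.range n, Real.exp (1 / 2) * (om (τ j) HH t * g t) := by
      refine intervalIntegral.integral_mono_on (by linarith) (hgc.intervalIntegrable _ _)
        ((continuous_finsetSum _ fun j _ =>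
          continuous_const.mul (homc j)).intervalIntegrable _ _) ?_
      intro t ht
      have h3 := wdz_cover (u := T - 1) (v := T + K + 1) hH0 (by linarith) (t := t)
        (by linarith [ht.1]) (by linarith [ht.2])
      have h4 := mul_le_mul_of_nonneg_right h3 (hg0 t)
      rw [one_mul] at h4
      refine h4.trans (le_of_eq ?_)
      rw [mul_assoc, Finset.sum_mul, Finset.mul_sum]
    refine h2.trans ?_
    rw [intervalIntegral.integral_finsetSum
      (f := fun (j : ℕ) (t : ℝ) => Real.exp (1 / 2) * (om (τ j) HH t * g t)) (fun j _ =>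
      (continuous_const.mul (homc j)).intervalIntegrable _ _), Finset.mul_sum]
    refine Finset.sum_le_sum fun j _ => ?_
    rw [intervalIntegral.integral_const_mul]
    refine mul_le_mul_of_nonneg_left ?_ (Real.exp_pos _).le
    have h5 := wdz_cell (homc j) (fun t => mul_nonneg (Real.exp_pos _).le (hg0 t))
      (a := T1) (b := 2 * T1) (u := s.im - 1 / L) (v := s.im + 1 / L) (A := 1 / L1) s.im
      (by linarith) (by linarith) (by rw [hT1] at *; linarith) (by
        intro t ht
        have e1 : 1 / L ≤ 1 / L1 := one_div_le_one_div_of_le hL1p hLL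
        rw [abs_le]
        constructor <;> linarith [ht.1, ht.2])
    refine h5.trans (le_of_eq ?_)
    rw [← intervalIntegral.integral_const_mul, ← intervalIntegral.integral_const_mul,
      ← intervalIntegral.integral_add ((wdz_cell_int (rh_cont _ _ _ _) _ _ _ _).const_mul _)
        ((wdz_cell_int (rh_cont _ _ _ _) _ _ _ _).const_mul _)]
    congr 1
    funext t
    simp only [rh, hg]
    ring
  have hw : 0 ≤ w1 S r := w1_nonneg S r
  set E := 4 * C with hE
  have hE0 : 0 < E := by positivity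
  calc ∑ s ∈ Z, ωs s * ‖RP S r s.im‖ ^ 2
      ≤ ∑ s ∈ Z, ωs s * (Real.exp (1 / 2) * ∑ j ∈ Finset.range n,
      (2 * L * (∫ t in T1..(2 * T1), rh (τ j) HH S r t *
        (if |s.im - (t + 0)| ≤ 1 / L1 then (1 : ℝ) else 0)) +
      1 / L * (∫ t in T1..(2 * T1), rh (τ j) HH S (rd r) t *
        (if |s.im - (t + 0)| ≤ 1 / L1 then (1 : ℝ) else 0)))) :=
        Finset.sum_le_sum fun s hs => mul_le_mul_of_nonneg_left (key s hs) (hω0 s)
    _ = Real.exp (1 / 2) * ∑ j ∈ Finset.range n, (2 * L * (∑ s ∈ Z, ωs s *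
        ∫ t in T1..(2 * T1), rh (τ j) HH S r t *
        (if |s.im - (t + 0)| ≤ 1 / L1 then (1 : ℝ) else 0)) +
        1 / L * (∑ s ∈ Z, ωs s * ∫ t in T1..(2 * T1), rh (τ j) HH S (rd r) t *
        (if |s.im - (t + 0)| ≤ 1 / L1 then (1 : ℝ) else 0))) := by
        simp only [Finset.mul_sum]
        rw [Finset.sum_comm]
        refine Finset.sum_congr rfl fun j _ => ?_
        rw [← Finset.sum_add_distrib, Finset.mul_sum]
        refine Finset.sum_congr rfl fun s _ => ?_
        ring
    _ ≤ Real.exp (1 / 2) * ∑ j ∈ Finset.range n, (2 * L * (E * mr HH S r) +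
        1 / L * (E * mr HH S (rd r))) := by
        refine mul_le_mul_of_nonneg_left (Finset.sum_le_sum fun j _ => ?_) (Real.exp_pos _).le
        exact add_le_add (mul_le_mul_of_nonneg_left (claim r (τ j)) (by positivity))
          (mul_le_mul_of_nonneg_left (claim (rd r) (τ j)) (by positivity))
    _ ≤ Real.exp (1 / 2) * ((n : ℝ) * (E * (Real.sqrt (2 * Real.pi) * HH) * (3 * L * w1 S r))) := by
        rw [Finset.sum_const, Finset.card_range, nsmul_eq_mul]
        refine mul_le_mul_of_nonneg_left (mul_le_mul_of_nonneg_left ?_ (Nat.cast_nonneg _))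
          (Real.exp_pos _).le
        have h1 := w1_rd (r := r) hSlog
        unfold mr
        have h2 : 1 / L * (E * (Real.sqrt (2 * Real.pi) * HH * w1 S (rd r))) ≤
            1 / L * (E * (Real.sqrt (2 * Real.pi) * HH * (L ^ 2 * w1 S r))) := by
          gcongr
        have h3 : 1 / L * (E * (Real.sqrt (2 * Real.pi) * HH * (L ^ 2 * w1 S r))) =
            E * (Real.sqrt (2 * Real.pi) * HH) * (L * w1 S r) := by
          field_simp
        rw [h3] at h2
        refine (add_le_add_right h2 _).trans (le_of_eq ?_)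
        ring
    _ = Real.exp (1 / 2) * (E * Real.sqrt (2 * Real.pi) * (3 * L * w1 S r)) * (n * HH) := by ring
    _ ≤ Real.exp (1 / 2) * (E * Real.sqrt (2 * Real.pi) * (3 * L * w1 S r)) * (4 * K) := by
        refine mul_le_mul_of_nonneg_left ?_ (by positivity)
        have h1 : (⌊((T + K + 1) - (T - 1)) / HH⌋₊ : ℝ) ≤ ((T + K + 1) - (T - 1)) / HH :=
          Nat.floor_le (by apply div_nonneg <;> linarith)
        have h2 : (n : ℝ) = (⌊((T + K + 1) - (T - 1)) / HH⌋₊ : ℝ) + 1 := by
          rw [hn]; push_cast; ring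
        rw [h2]
        have h3 : (⌊((T + K + 1) - (T - 1)) / HH⌋₊ : ℝ) * HH ≤ (T + K + 1) - (T - 1) :=
          (le_div_iff₀ hH0).1 h1
        nlinarith
    _ = _ := by
        rw [hE]
        ring

theorem ecz_zeta : S_ecz riemannZeta := ecz H370.good_zeta ec_zeta

theorem ecz_chi {q : ℕ} [NeZero q] (χ : DirichletCharacter ℂ q) (hχ : χ.IsPrimitive) :
    S_ecz (DirichletCharacter.LFunction χ) := ecz (H370.good_dirichlet χ hχ) (ec_chi χ hχ)

end Pool.Agent.N802.WD
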