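import Pool.Agent.N802.WD.Stm2
import Pool.Agent.N802.U.Rh
import Pool.Agent.N802.U.Point

/-!
# The error sums over the zeros from the weighted density theorem
-/

open Complex Filter Topology Set MeasureTheory
open scoped BigOperators ComplexConjugate

namespace Pool.Agent.N802.WD

open H370 hiding pt
open TC Pool.Agent.N802.U
open Pool.Agent.N845.U2 (cnt)

namespace Ew

open Classical in
/-- the number of points in one cell -/
noncomputable def N1 (Z : Finset ℂ) (m k : ℂ → ℝ) (ℓ A x t : ℝ) : ℝ :=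
  ∑ s ∈ Z.filter (fun s => A ≤ k s ∧ |s.im - (t + x)| ≤ ℓ), m s

lemma N1_eq (Z : Finset ℂ) (m k : ℂ → ℝ) (ℓ A x t : ℝ) : N1 Z m k ℓ A x t =
    ∑ s ∈ Z, (if A ≤ k s ∧ |s.im - (t + x)| ≤ ℓ then m s else 0) := by
  classical
  unfold N1
  rw [Finset.sum_filter]

lemma N1_int {ρ : ℝ → ℝ} (hρ : Continuous ρ) (Z : Finset ℂ) (m k : ℂ → ℝ) (ℓ A x a b : ℝ) :
    IntervalIntegrable (fun t => ρ t * N1 Z m k ℓ A x t) volume a b := by
  classical
  have h1 := IntervalIntegrable.sum (μ := volume) (a := a) (b := b) Z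
    (f := fun s t => ρ t * ((if A ≤ k s then m s else 0) *
      (if |(s.im - x) - t| ≤ ℓ then 1 else 0)))
    (fun s _ => Pool.Agent.N845.U2.ind_int hρ (s.im - x) ℓ _ a b)
  have e : (fun t => ρ t * N1 Z m k ℓ A x t) = ∑ s ∈ Z,
      fun t => ρ t * ((if A ≤ k s then m s else 0) *
      (if |(s.im - x) - t| ≤ ℓ then 1 else 0)) := by
    funext t
    rw [N1_eq, Finset.mul_sum, Finset.sum_apply]
    refine Finset.sum_congr rfl fun s _ => ?_
    congr 1
    rw [show s.im - (t + x) = s.im - x - t by ring]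
    by_cases h1 : A ≤ k s <;> by_cases h2 : |s.im - x - t| ≤ ℓ <;> simp [h1, h2]
  rw [e]
  exact h1

/-- summation over the cells -/
lemma cells {ι : Type*} {Z : Finset ℂ} {m : ℂ → ℝ} {ρ : ℝ → ℝ} (hρ : Continuous ρ)
    (hρ0 : ∀ t, 0 ≤ ρ t) {a b : ℝ} (hab : a ≤ b) (J : Finset ι) (I : Finset ℕ) (x D : ι → ℝ)
    (w : ℕ → ℝ) (hD : ∀ j, 0 ≤ D j) (hw : ∀ i, 0 ≤ w i) (k : ℂ → ℝ) {ℓ : ℝ} {B : ℕ → ℝ}
    (hB : ∀ j ∈ J, ∀ i ∈ I, ∫ t in a..b, ρ t * N1 Z m k ℓ i (x j) t ≤ B i)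
    {E : ℝ → ℝ} {g : ℂ → ℝ → ℝ} (hg0 : ∀ s t, 0 ≤ g s t) (hE : ∀ t, E t = ∑ s ∈ Z, g s t)
    {Fr : ℝ}
    (hg : ∀ s ∈ Z, ∀ t, g s t ≤ (∑ j ∈ J, ∑ i ∈ I, D j * w i *
      (if (i : ℝ) ≤ k s ∧ |s.im - (t + x j)| ≤ ℓ then m s else 0)) + m s * Fr) :
    ∫ t in a..b, ρ t * E t ≤
      (∑ j ∈ J, D j) * (∑ i ∈ I, w i * B i) + Fr * (∑ s ∈ Z, m s) * ∫ t in a..b, ρ t := by
  have hpt : ∀ t, E t ≤ (∑ j ∈ J, ∑ i ∈ I, D j * w i * N1 Z m k ℓ i (x j) t) +
      Fr * ∑ s ∈ Z, m s := by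
    intro t
    rw [hE]
    refine (Finset.sum_le_sum fun s hs => hg s hs t).trans (le_of_eq ?_)
    rw [Finset.sum_add_distrib]
    congr 1
    · rw [Finset.sum_comm]
      refine Finset.sum_congr rfl fun j _ => ?_
      rw [Finset.sum_comm]
      refine Finset.sum_congr rfl fun i _ => ?_
      rw [N1_eq, Finset.mul_sum]
    · rw [Finset.mul_sum]
      exact Finset.sum_congr rfl fun s _ => mul_comm _ _
  have hi : ∀ j i, IntervalIntegrable (fun t => D j * w i * (ρ t * N1 Z m k ℓ i (x j) t))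
      volume a b := fun j i => (N1_int hρ Z m k ℓ i (x j) a b).const_mul _
  have hi2 : ∀ j, IntervalIntegrable (fun t => ∑ i ∈ I, D j * w i * (ρ t * N1 Z m k ℓ i (x j) t))
      volume a b := fun j => by
    have := IntervalIntegrable.sum (μ := volume) (a := a) (b := b) I
      (f := fun i t => D j * w i * (ρ t * N1 Z m k ℓ (i : ℝ) (x j) t)) (fun i _ => hi j i)
    have e : (fun t => ∑ i ∈ I, D j * w i * (ρ t * N1 Z m k ℓ i (x j) t)) =
        ∑ i ∈ I, fun t => D j * w i * (ρ t * N1 Z m k ℓ (i : ℝ) (x j) t) := by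
      funext t
      rw [Finset.sum_apply]
    rw [e]
    exact this
  have hi3 : IntervalIntegrable (fun t => ∑ j ∈ J, ∑ i ∈ I, D j * w i *
      (ρ t * N1 Z m k ℓ i (x j) t)) volume a b := by
    have := IntervalIntegrable.sum (μ := volume) (a := a) (b := b) J
      (f := fun j t => ∑ i ∈ I, D j * w i * (ρ t * N1 Z m k ℓ (i : ℝ) (x j) t))
      (fun j _ => hi2 j)
    have e : (fun t => ∑ j ∈ J, ∑ i ∈ I, D j * w i * (ρ t * N1 Z m k ℓ i (x j) t)) =
        ∑ j ∈ J, fun t => ∑ i ∈ I, D j * w i * (ρ t * N1 Z m k ℓ (i : ℝ) (x j) t) := by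
      funext t
      rw [Finset.sum_apply]
    rw [e]
    exact this
  have hi4 : IntervalIntegrable (fun t => (Fr * ∑ s ∈ Z, m s) * ρ t) volume a b :=
    (hρ.intervalIntegrable _ _).const_mul _
  have h1 : ∫ t in a..b, ρ t * E t ≤ ∫ t in a..b, ((∑ j ∈ J, ∑ i ∈ I, D j * w i *
      (ρ t * N1 Z m k ℓ i (x j) t)) + (Fr * ∑ s ∈ Z, m s) * ρ t) := by
    rw [intervalIntegral.integral_of_le hab, intervalIntegral.integral_of_le hab]
    apply integral_mono_of_nonneg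
    · refine Eventually.of_forall fun t => mul_nonneg (hρ0 t) ?_
      rw [hE]
      exact Finset.sum_nonneg fun s _ => hg0 s t
    · exact (intervalIntegrable_iff_integrableOn_Ioc_of_le hab).1 (hi3.add hi4)
    · refine Eventually.of_forall fun t => ?_
      show ρ t * E t ≤ _
      have h2 := mul_le_mul_of_nonneg_left (hpt t) (hρ0 t)
      refine h2.trans (le_of_eq ?_)
      rw [mul_add, Finset.mul_sum]
      congr 1
      · refine Finset.sum_congr rfl fun j _ => ?_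
        rw [Finset.mul_sum]
        exact Finset.sum_congr rfl fun i _ => by ring
      · ring
  refine h1.trans ?_
  rw [intervalIntegral.integral_add hi3 hi4, intervalIntegral.integral_const_mul]
  refine add_le_add ?_ le_rfl
  rw [intervalIntegral.integral_finsetSum (fun j _ => hi2 j), Finset.sum_mul]
  refine Finset.sum_le_sum fun j hj => ?_
  rw [intervalIntegral.integral_finsetSum (fun i _ => hi j i), Finset.mul_sum]
  refine Finset.sum_le_sum fun i hii => ?_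
  rw [intervalIntegral.integral_const_mul, mul_assoc]
  exact mul_le_mul_of_nonneg_left (mul_le_mul_of_nonneg_left (hB j hj i hii) (hw i)) (hD j)

/-- the decaying weight at the integers -/
noncomputable def fX (X : ℝ) (i : ℕ) : ℝ := ((1 + (i : ℝ) / X) ^ 2)⁻¹

lemma fX_nonneg (X : ℝ) (i : ℕ) : 0 ≤ fX X i := inv_nonneg.2 (sq_nonneg _)

lemma fX_le {X : ℝ} (hX : 0 < X) (i : ℕ) : fX X i ≤ 1 := by
  unfold fX
  apply inv_le_one_of_one_le₀
  have : 0 ≤ (i : ℝ) / X := by positivity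
  nlinarith

lemma fX_sum {X : ℝ} (hX : 1 ≤ X) (n : ℕ) : ∑ i ∈ Finset.range (n + 1), fX X i ≤
    1 + X - X ^ 2 / (X + n) := by
  have hX0 : 0 < X := by linarith
  induction n with
  | zero =>
    rw [Finset.sum_range_succ, Finset.sum_range_zero]
    unfold fX
    have : X ^ 2 / (X + ((0 : ℕ) : ℝ)) = X := by
      push_cast
      field_simp
      ring
    rw [this]
    norm_num
  | succ n ih =>
    rw [Finset.sum_range_succ]
    have h1 : fX X (n + 1) ≤ X ^ 2 / (X + n) - X ^ 2 / (X + ((n + 1 : ℕ) : ℝ)) := by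
      unfold fX
      push_cast
      have hn : (0 : ℝ) ≤ n := Nat.cast_nonneg n
      have e1 : ((1 + ((n : ℝ) + 1) / X) ^ 2)⁻¹ = X ^ 2 / (X + (n + 1)) ^ 2 := by
        rw [← inv_pow, ← div_pow]
        congr 1
        field_simp
      have e2 : X ^ 2 / (X + n) - X ^ 2 / (X + (n + 1)) = X ^ 2 / ((X + n) * (X + (n + 1))) := by
        have h3 : X + (n : ℝ) ≠ 0 := by positivity
        have h4 : X + ((n : ℝ) + 1) ≠ 0 := by positivity
        field_simp
        ring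
      rw [e1, e2]
      apply div_le_div_of_nonneg_left (by positivity) (by positivity)
      nlinarith
    linarith

lemma fX_sum' {X : ℝ} (hX : 1 ≤ X) (n : ℕ) : ∑ i ∈ Finset.range n, fX X i ≤ 1 + X := by
  have h1 : ∑ i ∈ Finset.range n, fX X i ≤ ∑ i ∈ Finset.range (n + 1), fX X i := by
    rw [Finset.sum_range_succ]
    linarith [fX_nonneg X n]
  have h2 := fX_sum hX n
  have h3 : 0 ≤ X ^ 2 / (X + n) := by positivity
  linarith

lemma fX_Ico {X : ℝ} (hX : 1 ≤ X) (P N n : ℕ) (hPN : P ≤ N) :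
    ∑ k ∈ Finset.Ico P n, fX X (k - N) ≤ ((N - P : ℕ) : ℝ) + (1 + X) := by
  have hX0 : 0 < X := by linarith
  have h1 : ∑ k ∈ Finset.Ico P n, fX X (k - N) ≤ ∑ k ∈ Finset.Ico P (N + n), fX X (k - N) := by
    apply Finset.sum_le_sum_of_subset_of_nonneg
    · intro k hk
      rw [Finset.mem_Ico] at hk ⊢
      omega
    · intro k _ _
      exact fX_nonneg _ _
  rw [← Finset.sum_Ico_consecutive _ hPN (Nat.le_add_right N n)] at h1
  have h2 : ∑ k ∈ Finset.Ico P N, fX X (k - N) ≤ ((N - P : ℕ) : ℝ) := by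
    calc ∑ k ∈ Finset.Ico P N, fX X (k - N) ≤ ∑ k ∈ Finset.Ico P N, (1 : ℝ) :=
          Finset.sum_le_sum fun k _ => fX_le hX0 _
      _ = _ := by simp
  have h3 : ∑ k ∈ Finset.Ico N (N + n), fX X (k - N) = ∑ i ∈ Finset.range n, fX X i := by
    rw [Finset.sum_Ico_eq_sum_range]
    have : N + n - N = n := by omega
    rw [this]
    refine Finset.sum_congr rfl fun i _ => ?_
    congr 1
    omega
  have h4 := fX_sum' hX n
  linarith

/-- the decaying weight in terms of the cell -/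
lemma dk_le {L X1 h y : ℝ} (hL : 0 < L) (hX : 1 ≤ X1) {k : ℕ} (hk : (k : ℝ) ≤ |y| * L) :
    dk (X1 / L) h y ≤ fX X1 (k - ⌈h * L⌉₊) := by
  unfold dk fX
  have hX0 : 0 < X1 := by linarith
  apply inv_anti₀ (by positivity)
  apply pow_le_pow_left₀ (by positivity)
  refine add_le_add le_rfl ?_
  rw [div_div_eq_mul_div]
  apply div_le_div_of_nonneg_right _ hX0.le
  rcases le_or_gt k ⌈h * L⌉₊ with h1 | h1
  · have : k - ⌈h * L⌉₊ = 0 := by omega
    rw [this]
    simp only [Nat.cast_zero]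
    positivity
  · rw [Nat.cast_sub h1.le]
    have h2 := Nat.le_ceil (h * L)
    calc (k : ℝ) - (⌈h * L⌉₊ : ℝ) ≤ |y| * L - h * L := by linarith
      _ = (|y| - h) * L := by ring
      _ ≤ max 0 (|y| - h) * L := by
        apply mul_le_mul_of_nonneg_right (le_max_right _ _) hL.le

lemma dk_nonneg (X0 h y : ℝ) : 0 ≤ dk X0 h y := inv_nonneg.2 (sq_nonneg _)

lemma dk_far {L X1 h y T : ℝ} (hL : 0 < L) (hX : 1 ≤ X1) (hXL : X1 ≤ L) (hh : h ≤ 1)
    (hT : 12 ≤ T) (hy : T / 6 < |y|) : dk (X1 / L) h y ≤ 144 / T ^ 2 := by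
  unfold dk
  have hX0 : 0 < X1 := by linarith
  have hT0 : 0 < T := by linarith
  have e : 144 / T ^ 2 = ((T / 12) ^ 2)⁻¹ := by
    field_simp
    norm_num
  rw [e]
  apply inv_anti₀ (by positivity)
  apply pow_le_pow_left₀ (by positivity)
  have h1 : T / 12 ≤ max 0 (|y| - h) := le_trans (by linarith) (le_max_right _ _)
  have h2 : X1 / L ≤ 1 := by rw [div_le_one hL]; exact hXL
  have h3 : max 0 (|y| - h) ≤ max 0 (|y| - h) / (X1 / L) := by
    rw [le_div_iff₀ (by positivity)]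
    have : 0 ≤ max 0 (|y| - h) := le_max_left _ _
    nlinarith
  linarith

/-- the shift of a cell -/
noncomputable def xc (L : ℝ) (j : ℕ × Bool) : ℝ := if j.2 = true then (j.1 : ℝ) / L else -((j.1 : ℝ) / L)

lemma xc_abs {L : ℝ} (hL : 0 < L) (j : ℕ × Bool) : |xc L j| = (j.1 : ℝ) / L := by
  unfold xc
  have h0 : 0 ≤ (j.1 : ℝ) / L := by positivity
  split_ifs
  · exact abs_of_nonneg h0
  · rw [abs_neg]
    exact abs_of_nonneg h0

lemma xc_near {L y : ℝ} (hL : 0 < L) : |y - xc L (⌊|y| * L⌋₊, decide (0 ≤ y))| ≤ 1 / L := by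
  have h0 : 0 ≤ |y| * L := by positivity
  have h1 := Nat.floor_le h0
  have h2 := Nat.lt_floor_add_one (|y| * L)
  have h3 : (⌊|y| * L⌋₊ : ℝ) / L ≤ |y| := by
    rw [div_le_iff₀ hL]
    exact h1
  have h4 : |y| ≤ (⌊|y| * L⌋₊ : ℝ) / L + 1 / L := by
    rw [← add_div, le_div_iff₀ hL]
    exact h2.le
  unfold xc
  simp only
  by_cases hy : 0 ≤ y
  · have e : decide (0 ≤ y) = true := by simpa using hy
    rw [if_pos e]
    rw [abs_of_nonneg hy] at h3 h4 ⊢
    rw [abs_le]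
    constructor
    · have : 0 ≤ 1 / L := by positivity
      linarith
    · linarith
  · have e : ¬ (decide (0 ≤ y) = true) := by simpa using hy
    rw [if_neg e]
    push Not at hy
    rw [abs_of_neg hy] at h3 h4 ⊢
    rw [abs_le]
    constructor
    · linarith
    · have : 0 ≤ 1 / L := by positivity
      linarith

/-- the bound for one zero -/
lemma ptw {g mu κ y t L T X1 h θ Fr im : ℝ} {P n0 : ℕ} (hmu : 0 ≤ mu)
    (him : y = im - t) (hκ0 : 0 ≤ κ)
    (hg : g ≤ mu * (Real.exp (θ * κ) * dk (X1 / L) h y)) (hL : 0 < L) (hX : 1 ≤ X1)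
    (hXL : X1 ≤ L) (hh : h ≤ 1) (hT : 12 ≤ T) (hθ : 0 < θ) (hθ4 : θ ≤ 1 / 4) (hκ : κ ≤ L / 2)
    (hn0 : T * L / 6 < n0) (hP : g ≠ 0 → P ≤ ⌊|y| * L⌋₊)
    (hFr : Real.exp (L / 8) * (144 / T ^ 2) ≤ Fr) :
    g ≤ (∑ j ∈ (Finset.Ico P n0) ×ˢ (Finset.univ : Finset Bool),
      ∑ i ∈ Finset.range (⌊L⌋₊ + 1), fX X1 (j.1 - ⌈h * L⌉₊) * Real.exp (θ * ((i : ℝ) + 1)) *
      (if (i : ℝ) ≤ κ ∧ |im - (t + xc L j)| ≤ 1 / L then mu else 0)) + mu * Fr := by
  have hX0 : 0 < X1 := by linarith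
  have hT0 : 0 < T := by linarith
  have hFr0 : 0 ≤ Fr := le_trans (by positivity) hFr
  have ha : ∀ (j : ℕ × Bool) (i : ℕ), 0 ≤ fX X1 (j.1 - ⌈h * L⌉₊) *
      Real.exp (θ * ((i : ℝ) + 1)) *
      (if (i : ℝ) ≤ κ ∧ |im - (t + xc L j)| ≤ 1 / L then mu else 0) := by
    intro j i
    apply mul_nonneg (mul_nonneg (fX_nonneg _ _) (Real.exp_pos _).le)
    split_ifs
    · exact hmu
    · exact le_rfl
  have hS : 0 ≤ ∑ j ∈ (Finset.Ico P n0) ×ˢ (Finset.univ : Finset Bool),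
      ∑ i ∈ Finset.range (⌊L⌋₊ + 1), fX X1 (j.1 - ⌈h * L⌉₊) * Real.exp (θ * ((i : ℝ) + 1)) *
      (if (i : ℝ) ≤ κ ∧ |im - (t + xc L j)| ≤ 1 / L then mu else 0) :=
    Finset.sum_nonneg fun j _ => Finset.sum_nonneg fun i _ => ha j i
  by_cases hgz : g = 0
  · rw [hgz]
    positivity
  rcases le_or_gt |y| (T / 6) with hy | hy
  · have hk0 : (⌊|y| * L⌋₊ : ℝ) ≤ |y| * L := Nat.floor_le (by positivity)
    have hi0 : (⌊κ⌋₊ : ℝ) ≤ κ := Nat.floor_le hκ0
    have hj0 : ((⌊|y| * L⌋₊, decide (0 ≤ y)) : ℕ × Bool) ∈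
        (Finset.Ico P n0) ×ˢ (Finset.univ : Finset Bool) := by
      rw [Finset.mem_product]
      refine ⟨?_, Finset.mem_univ _⟩
      rw [Finset.mem_Ico]
      refine ⟨hP hgz, ?_⟩
      have h1 : (⌊|y| * L⌋₊ : ℝ) < n0 := by
        calc (⌊|y| * L⌋₊ : ℝ) ≤ |y| * L := hk0
          _ ≤ T / 6 * L := by gcongr
          _ = T * L / 6 := by ring
          _ < n0 := hn0
      exact_mod_cast h1
    have hi1 : ⌊κ⌋₊ ∈ Finset.range (⌊L⌋₊ + 1) := by
      rw [Finset.mem_range, Nat.lt_succ_iff]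
      exact Nat.floor_le_floor (by linarith)
    have hcond : ((⌊κ⌋₊ : ℕ) : ℝ) ≤ κ ∧
        |im - (t + xc L (⌊|y| * L⌋₊, decide (0 ≤ y)))| ≤ 1 / L := by
      refine ⟨hi0, ?_⟩
      have := xc_near (y := y) hL
      rw [show im - (t + xc L (⌊|y| * L⌋₊, decide (0 ≤ y))) =
        y - xc L (⌊|y| * L⌋₊, decide (0 ≤ y)) by rw [him]; ring]
      exact this
    have h1 : g ≤ fX X1 (⌊|y| * L⌋₊ - ⌈h * L⌉₊) * Real.exp (θ * ((⌊κ⌋₊ : ℝ) + 1)) *
        (if ((⌊κ⌋₊ : ℕ) : ℝ) ≤ κ ∧ |im - (t + xc L (⌊|y| * L⌋₊, decide (0 ≤ y)))| ≤ 1 / L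
          then mu else 0) := by
      rw [if_pos hcond]
      have h2 := dk_le (h := h) hL hX hk0
      have h3 : Real.exp (θ * κ) ≤ Real.exp (θ * ((⌊κ⌋₊ : ℝ) + 1)) := by
        apply Real.exp_le_exp.2
        have := Nat.lt_floor_add_one κ
        nlinarith
      calc g ≤ mu * (Real.exp (θ * κ) * dk (X1 / L) h y) := hg
        _ ≤ mu * (Real.exp (θ * ((⌊κ⌋₊ : ℝ) + 1)) * fX X1 (⌊|y| * L⌋₊ - ⌈h * L⌉₊)) := by
          apply mul_le_mul_of_nonneg_left _ hmu
          exact mul_le_mul h3 h2 (dk_nonneg _ _ _) (Real.exp_pos _).le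
        _ = _ := by ring
    have h2 := Finset.single_le_sum (f := fun i : ℕ => fX X1 (⌊|y| * L⌋₊ - ⌈h * L⌉₊) *
      Real.exp (θ * ((i : ℝ) + 1)) *
      (if (i : ℝ) ≤ κ ∧ |im - (t + xc L (⌊|y| * L⌋₊, decide (0 ≤ y)))| ≤ 1 / L then mu else 0))
      (fun i _ => ha (⌊|y| * L⌋₊, decide (0 ≤ y)) i) hi1
    have h3 := Finset.single_le_sum (f := fun j : ℕ × Bool => ∑ i ∈ Finset.range (⌊L⌋₊ + 1),
      fX X1 (j.1 - ⌈h * L⌉₊) * Real.exp (θ * ((i : ℝ) + 1)) *
      (if (i : ℝ) ≤ κ ∧ |im - (t + xc L j)| ≤ 1 / L then mu else 0))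
      (fun j _ => Finset.sum_nonneg fun i _ => ha j i) hj0
    have h4 : 0 ≤ mu * Fr := mul_nonneg hmu hFr0
    exact (h1.trans (h2.trans h3)).trans (le_add_of_nonneg_right h4)
  · have h1 := dk_far hL hX hXL hh hT hy
    have h2 : Real.exp (θ * κ) ≤ Real.exp (L / 8) := by
      apply Real.exp_le_exp.2
      nlinarith
    have h3 : g ≤ mu * Fr := by
      calc g ≤ mu * (Real.exp (θ * κ) * dk (X1 / L) h y) := hg
        _ ≤ mu * (Real.exp (L / 8) * (144 / T ^ 2)) := by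
          apply mul_le_mul_of_nonneg_left _ hmu
          exact mul_le_mul h2 h1 (dk_nonneg _ _ _) (Real.exp_pos _).le
        _ ≤ mu * Fr := mul_le_mul_of_nonneg_left hFr hmu
    linarith

/-- the sum over the heights -/
lemma sum_w {c C M θ : ℝ} (hc : 0 < c) (hC : 0 < C) (hM : 0 ≤ M) (hθ : 0 < θ) (hθ4 : θ ≤ 1 / 4)
    (hθc : θ ≤ c / 2) (I : Finset ℕ) :
    ∑ i ∈ I, Real.exp (θ * ((i : ℝ) + 1)) * (C * Real.exp (-(c * i)) * M) ≤
      C * (Real.exp 1 * (1 - Real.exp (-(c / 2)))⁻¹) * M := by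
  have hq0 : 0 ≤ Real.exp (-(c / 2)) := (Real.exp_pos _).le
  have hq1 : Real.exp (-(c / 2)) < 1 := Real.exp_lt_one_iff.2 (by linarith)
  have h1 : ∀ i ∈ I, Real.exp (θ * ((i : ℝ) + 1)) * (C * Real.exp (-(c * i)) * M) ≤
      C * Real.exp 1 * M * Real.exp (-(c / 2)) ^ i := by
    intro i _
    have hi : (0 : ℝ) ≤ i := Nat.cast_nonneg i
    have h2 : Real.exp (θ * ((i : ℝ) + 1)) * Real.exp (-(c * i)) ≤
        Real.exp 1 * Real.exp (-(c / 2)) ^ i := by
      rw [← Real.exp_nat_mul, ← Real.exp_add, ← Real.exp_add]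
      apply Real.exp_le_exp.2
      nlinarith
    calc Real.exp (θ * ((i : ℝ) + 1)) * (C * Real.exp (-(c * i)) * M) =
        C * M * (Real.exp (θ * ((i : ℝ) + 1)) * Real.exp (-(c * i))) := by ring
      _ ≤ C * M * (Real.exp 1 * Real.exp (-(c / 2)) ^ i) := by gcongr
      _ = _ := by ring
  have h2 : ∑ i ∈ I, Real.exp (-(c / 2)) ^ i ≤ (1 - Real.exp (-(c / 2)))⁻¹ := by
    rw [← tsum_geometric_of_lt_one hq0 hq1]
    exact (summable_geometric_of_lt_one hq0 hq1).sum_le_tsum _ (fun i _ => by positivity)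
  calc ∑ i ∈ I, Real.exp (θ * ((i : ℝ) + 1)) * (C * Real.exp (-(c * i)) * M) ≤
      ∑ i ∈ I, C * Real.exp 1 * M * Real.exp (-(c / 2)) ^ i := Finset.sum_le_sum h1
    _ = C * Real.exp 1 * M * ∑ i ∈ I, Real.exp (-(c / 2)) ^ i := by rw [Finset.mul_sum]
    _ ≤ C * Real.exp 1 * M * (1 - Real.exp (-(c / 2)))⁻¹ := by gcongr
    _ = _ := by ring

/-- the far zeros are negligible for large `T` -/
lemma ev_far (CN : ℝ) : ∀ᶠ T : ℝ in atTop, 288 * CN * Real.log T ≤ T ^ (7 / 8 : ℝ) := by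
  have h := (isLittleO_log_rpow_atTop (show (0 : ℝ) < 7 / 8 by norm_num)).bound
    (show (0 : ℝ) < (288 * |CN| + 1)⁻¹ by positivity)
  filter_upwards [h, eventually_ge_atTop 1] with T hT hT1
  have hlog : 0 ≤ Real.log T := Real.log_nonneg hT1
  rw [Real.norm_of_nonneg hlog, Real.norm_of_nonneg (by positivity)] at hT
  have h2 : (288 * |CN| + 1) * Real.log T ≤ T ^ (7 / 8 : ℝ) := by
    rw [inv_mul_eq_div, le_div_iff₀ (by positivity)] at hT
    linarith
  have h3 : 288 * CN * Real.log T ≤ 288 * |CN| * Real.log T := by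
    gcongr
    exact le_abs_self _
  nlinarith

lemma ev_far2 {CN T : ℝ} (hT : 1 ≤ T) (h : 288 * CN * Real.log T ≤ T ^ (7 / 8 : ℝ)) :
    Real.exp (Real.log T / 8) * (144 / T ^ 2) * (CN * (T * Real.log T)) * 2 ≤ 1 := by
  have hT0 : 0 < T := by linarith
  have e1 : Real.exp (Real.log T / 8) = T ^ (1 / 8 : ℝ) := by
    rw [Real.rpow_def_of_pos hT0]
    congr 1
    ring
  rw [e1]
  have e2 : T ^ (1 / 8 : ℝ) * (144 / T ^ 2) * (CN * (T * Real.log T)) * 2 =
      T ^ (1 / 8 : ℝ) * (288 * CN * Real.log T) / T := by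
    field_simp
    ring
  rw [e2, div_le_one hT0]
  calc T ^ (1 / 8 : ℝ) * (288 * CN * Real.log T) ≤ T ^ (1 / 8 : ℝ) * T ^ (7 / 8 : ℝ) := by
        gcongr
    _ = T := by
      rw [← Real.rpow_add hT0]
      norm_num

end Ew

open Ew

/-- **EW** -/
theorem ew {F : ℂ → ℂ} (hF : GoodL F) (hwd : S_wd F) : S_ew F := by
  classical
  obtain ⟨c, C, δ, T0, hc, hC, hδ, hT0, hwd⟩ := hwd
  obtain ⟨CN, hCN, hN⟩ := NN_crude hF
  obtain ⟨T4, hT4, hmass⟩ := rh_mass
  obtain ⟨T5, hT5⟩ := eventually_atTop.1 (ev_far CN)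
  set θ := min (c / 2) (1 / 4) with hθd
  have hθ : 0 < θ := lt_min (by linarith) (by norm_num)
  have hθ4 : θ ≤ 1 / 4 := min_le_right _ _
  have hθc : θ ≤ c / 2 := min_le_left _ _
  set G := C * (Real.exp 1 * (1 - Real.exp (-(c / 2)))⁻¹) with hGd
  have hq1 : Real.exp (-(c / 2)) < 1 := Real.exp_lt_one_iff.2 (by linarith)
  have hG : 0 < G := by
    have : 0 < 1 - Real.exp (-(c / 2)) := by linarith
    positivity
  refine ⟨θ, 6 * G + 1, min δ (1 / 8), max (max T0 T4) (max T5 100), hθ, hθ4, by positivity,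
    lt_min hδ (by norm_num), ?_, ?_⟩
  · exact le_trans (by norm_num) ((le_max_right _ _).trans (le_max_right _ _))
  intro T hT S hS r τ H hH U1 U2 hU1 hU1' hU2' hU2 X1 h hX hXL hh0 hh
  have hT0' : T0 ≤ T := ((le_max_left _ _).trans (le_max_left _ _)).trans hT
  have hT4' : T4 ≤ T := ((le_max_right _ _).trans (le_max_left _ _)).trans hT
  have hT5' : T5 ≤ T := ((le_max_left _ _).trans (le_max_right _ _)).trans hT
  have hT100 : 100 ≤ T := ((le_max_right _ _).trans (le_max_right _ _)).trans hT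
  have hTp : 0 < T := by linarith
  have hT1 : 1 ≤ T := by linarith
  have hδ1 : min δ (1 / 8) ≤ δ := min_le_left _ _
  have hδ2 : min δ (1 / 8) ≤ 1 / 8 := min_le_right _ _
  have hS1 : Len S (T ^ δ) := Len_mono hS (Real.rpow_le_rpow_of_exponent_le hT1 hδ1)
  have hS2 : Len S (T ^ (1 / 8 : ℝ)) := Len_mono hS (Real.rpow_le_rpow_of_exponent_le hT1 hδ2)
  have hH1 : T ^ (1 - δ) ≤ H :=
    (Real.rpow_le_rpow_of_exponent_le hT1 (by linarith)).trans hH
  have hH2 : T ^ (7 / 8 : ℝ) ≤ H :=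
    (Real.rpow_le_rpow_of_exponent_le hT1 (by linarith)).trans hH
  have hH0 : 0 < H := lt_of_lt_of_le (by positivity) hH2
  have hU : 1 ≤ U1 := by linarith
  set L := Real.log T with hLd
  have hL1 : 1 ≤ L := hX.trans hXL
  have hL : 0 < L := by linarith
  have hX0 : 0 < X1 := by linarith
  set M := mr H S r with hMd
  have hM : 0 ≤ M := by
    rw [hMd]
    unfold mr
    have := w1_nonneg S r
    positivity
  have hmass1 : ∫ t in T..(2 * T), rh τ H S r t ≤ 2 * M := by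
    refine le_trans ?_ (hmass T hT4' S hS2 r τ H hH2)
    rw [intervalIntegral.integral_of_le (by linarith)]
    exact setIntegral_le_integral (rh_intg hH0 S r)
      (Eventually.of_forall fun t => rh_nonneg τ H S r t)
  have hmass0 : 0 ≤ ∫ t in T..(2 * T), rh τ H S r t :=
    intervalIntegral.integral_nonneg (by linarith) fun t _ => rh_nonneg τ H S r t
  set Fr := Real.exp (L / 8) * (144 / T ^ 2) with hFr
  have hFr0 : 0 ≤ Fr := by positivity
  have hsm : ∑ s ∈ Zf F U1 U2, (mult F s : ℝ) ≤ CN * (T * L) := by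
    have := hN T (by linarith) U1 U2 hU1 hU2
    rw [NN_eq hF hU, Nat.cast_sum] at this
    exact this
  have hfar : Fr * (∑ s ∈ Zf F U1 U2, (mult F s : ℝ)) * ∫ t in T..(2 * T), rh τ H S r t ≤ M := by
    have h1 := ev_far2 hT1 (hT5 T hT5')
    have h2 : Fr * (∑ s ∈ Zf F U1 U2, (mult F s : ℝ)) ≤ Fr * (CN * (T * L)) :=
      mul_le_mul_of_nonneg_left hsm hFr0
    calc Fr * (∑ s ∈ Zf F U1 U2, (mult F s : ℝ)) * ∫ t in T..(2 * T), rh τ H S r t ≤
        Fr * (CN * (T * L)) * (2 * M) := by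
          apply mul_le_mul h2 hmass1 hmass0
          positivity
      _ = (Fr * (CN * (T * L)) * 2) * M := by ring
      _ ≤ 1 * M := mul_le_mul_of_nonneg_right h1 hM
      _ = M := one_mul M
  set n0 := ⌊T * L / 6⌋₊ + 1 with hn0d
  have hn0 : T * L / 6 < n0 := by
    rw [hn0d]
    push_cast
    exact Nat.lt_floor_add_one _
  have key : ∀ P : ℕ, P ≤ ⌈h * L⌉₊ → ∀ (E : ℝ → ℝ) (g : ℂ → ℝ → ℝ), (∀ s t, 0 ≤ g s t) →
      (∀ t, E t = ∑ s ∈ Zf F U1 U2, g s t) →
      (∀ s t, g s t ≤ (mult F s : ℝ) * (Real.exp (θ * (|(zz s).im| * L)) *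
        dk (X1 / L) h (s.im - t))) →
      (∀ s t, g s t ≠ 0 → P ≤ ⌊|s.im - t| * L⌋₊) →
      ∫ t in T..(2 * T), rh τ H S r t * E t ≤
        (2 * (((⌈h * L⌉₊ - P : ℕ) : ℝ) + (1 + X1))) * (G * M) + M := by
    intro P hP E g hg0 hE hg hgP
    have h1 := cells (Z := Zf F U1 U2) (m := fun s => (mult F s : ℝ)) (rh_cont τ H S r)
      (rh_nonneg τ H S r) (show T ≤ 2 * T by linarith)
      ((Finset.Ico P n0) ×ˢ (Finset.univ : Finset Bool)) (Finset.range (⌊L⌋₊ + 1)) (xc L)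
      (fun j => fX X1 (j.1 - ⌈h * L⌉₊)) (fun i => Real.exp (θ * ((i : ℝ) + 1)))
      (fun j => fX_nonneg _ _) (fun i => (Real.exp_pos _).le) (fun s => |(zz s).im| * L)
      (ℓ := 1 / L) (B := fun i => C * Real.exp (-(c * i)) * M) ?_ hg0 hE (Fr := Fr) ?_
    · refine h1.trans (add_le_add ?_ hfar)
      have h2 := sum_w hc hC hM hθ hθ4 hθc (Finset.range (⌊L⌋₊ + 1))
      have h3 : ∑ j ∈ (Finset.Ico P n0) ×ˢ (Finset.univ : Finset Bool),
          fX X1 (j.1 - ⌈h * L⌉₊) ≤ 2 * (((⌈h * L⌉₊ - P : ℕ) : ℝ) + (1 + X1)) := by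
        rw [Finset.sum_product]
        simp only [Finset.sum_const, Finset.card_univ, Fintype.card_bool, nsmul_eq_mul]
        rw [← Finset.mul_sum]
        have := fX_Ico hX P ⌈h * L⌉₊ n0 hP
        push_cast
        linarith
      refine mul_le_mul h3 h2 ?_ (by positivity)
      exact Finset.sum_nonneg fun i _ => by positivity
    · intro j hj i _
      rw [Finset.mem_product, Finset.mem_Ico] at hj
      have h2 : |xc L j| ≤ T / 5 := by
        rw [xc_abs hL, div_le_iff₀ hL]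
        have h3 : (j.1 : ℝ) ≤ ⌊T * L / 6⌋₊ := by
          have : j.1 ≤ ⌊T * L / 6⌋₊ := by omega
          exact_mod_cast this
        have h4 := Nat.floor_le (show 0 ≤ T * L / 6 by positivity)
        have h5 : 0 < T * L := by positivity
        linarith
      have h3 := hwd T hT0' S hS1 r τ H hH1 U1 U2 (xc L j) i hU h2 (Nat.cast_nonneg i)
      simp only [N1]
      exact h3
    · intro s hs t
      have h2 := zim hF hU hs
      have h3 : |(zz s).im| * L ≤ L / 2 := by nlinarith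
      exact ptw (Nat.cast_nonneg _) rfl (by positivity) (hg s t) hL hX hXL hh
        (by linarith) hθ hθ4 h3 hn0 (hgP s t) le_rfl
  constructor
  · have h1 := key 0 (Nat.zero_le _) (fun t => EA F U1 U2 θ L (X1 / L) h t)
      (fun s t => (mult F s : ℝ) * (Real.exp (θ * (|(zz s).im| * L)) *
        dk (X1 / L) h (s.im - t)))
      (fun s t => mul_nonneg (Nat.cast_nonneg _)
        (mul_nonneg (Real.exp_pos _).le (dk_nonneg _ _ _)))
      (fun t => rfl) (fun s t => le_rfl) (fun s t _ => Nat.zero_le _)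
    refine h1.trans ?_
    have h2 : ((⌈h * L⌉₊ - 0 : ℕ) : ℝ) ≤ h * L + 1 := by
      rw [Nat.sub_zero]
      exact (Nat.ceil_lt_add_one (by positivity)).le
    have h3 : 0 ≤ G * M := by positivity
    have h4 : 0 ≤ h * L := by positivity
    have h5 : (2 * (((⌈h * L⌉₊ - 0 : ℕ) : ℝ) + (1 + X1))) ≤ 6 * (h * L + X1) := by linarith
    have h6 := mul_le_mul_of_nonneg_right h5 h3
    have h7 : M ≤ (h * L + X1) * M := by
      have : 1 ≤ h * L + X1 := by linarith
      nlinarith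
    calc _ ≤ 6 * (h * L + X1) * (G * M) + (h * L + X1) * M := by linarith
      _ = _ := by ring
  · have h1 := key (⌈h * L⌉₊ - 1) (Nat.sub_le _ _) (fun t => EO F U1 U2 θ L (X1 / L) h t)
      (fun s t => if h < |s.im - t| then (mult F s : ℝ) * (Real.exp (θ * (|(zz s).im| * L)) *
        dk (X1 / L) h (s.im - t)) else 0) ?_ ?_ ?_ ?_
    · refine h1.trans ?_
      have h2 : ((⌈h * L⌉₊ - (⌈h * L⌉₊ - 1) : ℕ) : ℝ) ≤ 1 := by
        have : ⌈h * L⌉₊ - (⌈h * L⌉₊ - 1) ≤ 1 := by omega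
        exact_mod_cast this
      have h3 : 0 ≤ G * M := by positivity
      have h5 : (2 * (((⌈h * L⌉₊ - (⌈h * L⌉₊ - 1) : ℕ) : ℝ) + (1 + X1))) ≤ 6 * X1 := by
        linarith
      have h6 := mul_le_mul_of_nonneg_right h5 h3
      have h7 : M ≤ X1 * M := by nlinarith
      calc _ ≤ 6 * X1 * (G * M) + X1 * M := by linarith
        _ = _ := by ring
    · intro s t
      split_ifs
      · exact mul_nonneg (Nat.cast_nonneg _)
          (mul_nonneg (Real.exp_pos _).le (dk_nonneg _ _ _))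
      · exact le_rfl
    · intro t
      simp only [EO]
      rw [Finset.sum_filter]
    · intro s t
      split_ifs
      · exact le_rfl
      · exact mul_nonneg (Nat.cast_nonneg _)
          (mul_nonneg (Real.exp_pos _).le (dk_nonneg _ _ _))
    · intro s t hne
      have h2 : h < |s.im - t| := by
        by_contra hcon
        exact hne (if_neg hcon)
      apply Nat.le_floor
      have h3 : h * L < |s.im - t| * L := mul_lt_mul_of_pos_right h2 hL
      rcases Nat.eq_zero_or_pos ⌈h * L⌉₊ with h4 | h4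
      · rw [h4]
        simp only [Nat.zero_sub, Nat.cast_zero]
        positivity
      · rw [Nat.cast_sub h4]
        have h5 := Nat.ceil_lt_add_one (show 0 ≤ h * L by positivity)
        push_cast
        linarith

end Pool.Agent.N802.WD
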