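import Pool.Agent.N802.WD.Stm
import Pool.Agent.N935.WD.JenE

/-!
# From the decay of the mean square to the number of zeros
-/

namespace Pool.Agent.N802.WD

theorem jen : S_jen := fun c₁ C₁ hc hC => Pool.Agent.N935.WD.jen_core c₁ C₁ hc hC

end Pool.Agent.N802.WD
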