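import Pool.Agent.N786.D.Shf

/-!
# A function at a point from its values on a line to the left, with a Gevrey kernel

The proof of the first part is adapted from `Pool.Agent.N786.D.cauchy_le` (owner helper786).
-/

set_option autoImplicit false

namespace Pool.Agent.N802.WD.K

open MeasureTheory Set Filter Topology Complex
open Pool.Agent.R399.TW (pt pt_re pt_im pt_cont kernel_id Ph gd gd_half gd_even gd_nn gd_int strip)
open Pool.Agent.N786.D

/-- the Gevrey factor -/
noncomputable def gev0 (r : ℝ) (J : ℕ) (v : ℝ) : ℝ :=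
  ∏ j ∈ Finset.range J, (2 * r * ((j : ℝ) + 1) ^ 2 / ‖pt (2 * r * ((j : ℝ) + 1) ^ 2 - r) v‖)

/-- the kernel -/
noncomputable def gk (r : ℝ) (J : ℕ) (w : ℂ) : ℂ :=
  ∏ j ∈ Finset.range J,
    (((2 * r * ((j : ℝ) + 1) ^ 2 : ℝ) : ℂ) / (w + ((2 * r * ((j : ℝ) + 1) ^ 2 : ℝ) : ℂ)))

lemma rho_ge {r : ℝ} (hr : 0 < r) (j : ℕ) : 2 * r ≤ 2 * r * ((j : ℝ) + 1) ^ 2 := by
  have h : (0 : ℝ) ≤ j := Nat.cast_nonneg j
  have h1 : (1 : ℝ) ≤ ((j : ℝ) + 1) ^ 2 := by nlinarith
  nlinarith

lemma gk_zero {r : ℝ} (hr : 0 < r) {J : ℕ} : gk r J 0 = 1 := by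
  unfold gk
  refine Finset.prod_eq_one fun j _ => ?_
  have h := rho_ge hr j
  have h1 : (((2 * r * ((j : ℝ) + 1) ^ 2 : ℝ)) : ℂ) ≠ 0 := by
    rw [Ne, Complex.ofReal_eq_zero]
    linarith
  rw [zero_add, div_self h1]

lemma gk_norm_le {r : ℝ} (hr : 0 < r) (J : ℕ) {w : ℂ} (hw : -r ≤ w.re) : ‖gk r J w‖ ≤ 2 ^ J := by
  unfold gk
  rw [norm_prod]
  have h1 : ∀ j ∈ Finset.range J, ‖(((2 * r * ((j : ℝ) + 1) ^ 2 : ℝ) : ℂ) /
      (w + ((2 * r * ((j : ℝ) + 1) ^ 2 : ℝ) : ℂ)))‖ ≤ 2 := by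
    intro j _
    have h := rho_ge hr j
    rw [norm_div, Complex.norm_real, Real.norm_of_nonneg (by linarith)]
    have h2 := Complex.abs_re_le_norm (w + ((2 * r * ((j : ℝ) + 1) ^ 2 : ℝ) : ℂ))
    rw [Complex.add_re, Complex.ofReal_re, abs_of_pos (by linarith)] at h2
    rw [div_le_iff₀ (by linarith)]
    linarith
  calc ∏ j ∈ Finset.range J, ‖(((2 * r * ((j : ℝ) + 1) ^ 2 : ℝ) : ℂ) /
      (w + ((2 * r * ((j : ℝ) + 1) ^ 2 : ℝ) : ℂ)))‖ ≤ ∏ _j ∈ Finset.range J, (2 : ℝ) :=
        Finset.prod_le_prod (fun j _ => norm_nonneg _) h1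
    _ = 2 ^ J := by simp

lemma gk_line {r : ℝ} (hr : 0 < r) (J : ℕ) (v : ℝ) : ‖gk r J ⟨-r, v⟩‖ = gev0 r J v := by
  unfold gk gev0
  rw [norm_prod]
  refine Finset.prod_congr rfl fun j _ => ?_
  have h := rho_ge hr j
  rw [norm_div, Complex.norm_real, Real.norm_of_nonneg (by linarith)]
  congr 2
  apply Complex.ext
  · simp only [Complex.add_re, Complex.ofReal_re, pt_re]; ring
  · simp only [Complex.add_im, Complex.ofReal_im, pt_im]; ring

lemma gk_diff {r : ℝ} (hr : 0 < r) (J : ℕ) {w : ℂ} (hw : -(2 * r) < w.re) :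
    DifferentiableAt ℂ (gk r J) w := by
  unfold gk
  refine DifferentiableAt.fun_finsetProd fun j _ => ?_
  refine DifferentiableAt.div (by fun_prop) (by fun_prop) ?_
  have h := rho_ge hr j
  intro h0
  have h1 := congrArg Complex.re h0
  rw [Complex.add_re, Complex.ofReal_re, Complex.zero_re] at h1
  linarith

/-- **A function at a point from its values on a line to the left, with a Gevrey kernel** -/
theorem cauchy_gev {g : ℂ → ℂ} (hg : Differentiable ℂ g) {a μ lam G : ℝ} {m B : ℕ} (J : ℕ)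
    (hB : m + 3 ≤ 2 * B - 1) (hml : μ < lam)
    (hgr : ∀ z : ℂ, a ≤ z.re → ‖g z‖ ≤ G * (1 + |z.im|) ^ m * Real.exp (-(lam * z.re)))
    {s : ℂ} (hs : a < s.re) :
    Integrable (fun v : ℝ => ‖g (pt a (s.im + v))‖ * (kap B (s.re - a) v * gev0 (s.re - a) J v)) ∧
    ‖g s‖ ≤ Real.exp (-(μ * (s.re - a))) *
      ∫ v : ℝ, ‖g (pt a (s.im + v))‖ * (kap B (s.re - a) v * gev0 (s.re - a) J v) := by
  obtain ⟨τ, hτ⟩ : ∃ τ : ℝ, τ = s.im := ⟨_, rfl⟩
  obtain ⟨r, hr⟩ : ∃ r : ℝ, r = s.re - a := ⟨_, rfl⟩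
  obtain ⟨A, hA⟩ : ∃ A : ℕ, A = 2 * B - 1 := ⟨_, rfl⟩
  have hr0 : 0 < r := by rw [hr]; linarith
  rw [← hτ, ← hr]
  rw [← hA] at hB
  have hAB : A + 1 = 2 * B := by omega
  have hG : 0 ≤ G := by
    have h1 := (norm_nonneg _).trans (hgr (pt a 0) (by simp))
    simp only [pt_im, pt_re, abs_zero, add_zero, one_pow, mul_one] at h1
    exact nonneg_of_mul_nonneg_left h1 (Real.exp_pos _)
  set k : ℂ → ℂ := fun w => cexp ((μ : ℂ) * w) * ((2 * r : ℂ) / (w + 2 * r)) ^ A * gk r J w with hk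
  set F : ℂ → ℂ := fun z => g z * k (z - s) with hF
  have hnk : ∀ w : ℂ, ‖k w‖ = Real.exp (μ * w.re) * ((2 * r) / ‖w + 2 * r‖) ^ A * ‖gk r J w‖ := by
    intro w
    rw [hk]
    simp only
    rw [norm_mul, norm_mul, Complex.norm_exp, norm_pow, norm_div]
    congr 3
    · simp
    · congr 1
      have : (2 * r : ℂ) = ((2 * r : ℝ) : ℂ) := by push_cast; ring
      rw [this, Complex.norm_real, Real.norm_of_nonneg (by positivity)]
  obtain ⟨c, hc⟩ : ∃ c : ℝ, c = min r 1 / 2 := ⟨_, rfl⟩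
  have hc0 : 0 < c := by rw [hc]; have := lt_min hr0 one_pos; linarith
  have hlow : ∀ w : ℂ, -r ≤ w.re → c * (1 + |w.im|) ≤ ‖w + 2 * r‖ := by
    intro w hw
    have h1 := Complex.abs_re_le_norm (w + 2 * r)
    have h2 := Complex.abs_im_le_norm (w + 2 * r)
    have h3 : (w + 2 * r).re = w.re + 2 * r := by simp
    have h4 : (w + 2 * r).im = w.im := by simp
    rw [h3, abs_of_pos (by linarith)] at h1
    rw [h4] at h2
    have h5 : min r 1 ≤ r := min_le_left _ _
    have h6 : min r 1 ≤ 1 := min_le_right _ _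
    have h7 : 0 < min r 1 := lt_min hr0 one_pos
    rw [hc]
    nlinarith [abs_nonneg w.im]
  obtain ⟨D, hD⟩ : ∃ D : ℝ, D = G * (1 + |τ|) ^ m * Real.exp (-(μ * s.re)) * ((2 * r) / c) ^ A *
    2 ^ J := ⟨_, rfl⟩
  have hD0 : 0 ≤ D := by rw [hD]; positivity
  have hFb : ∀ z : ℂ, a ≤ z.re → ‖F z‖ ≤ D * Real.exp (-((lam - μ) * z.re)) * q2 (z.im - τ) := by
    intro z hz
    have h1 := hgr z hz
    have h2 : (z - s).re = z.re - s.re := by simp
    have h3 : (z - s).im = z.im - τ := by rw [hτ]; simp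
    have h4 := hlow (z - s) (by rw [h2, hr]; linarith)
    have h4' : ‖gk r J (z - s)‖ ≤ 2 ^ J := gk_norm_le hr0 J (by rw [h2, hr]; linarith)
    rw [h3] at h4
    have h5 : (1 + |z.im|) ^ m ≤ (1 + |τ|) ^ m * (1 + |z.im - τ|) ^ m := by
      rw [← mul_pow]
      refine pow_le_pow_left₀ (by positivity) ?_ m
      have h6 : |z.im| ≤ |z.im - τ| + |τ| := by
        have := abs_add_le (z.im - τ) τ
        simpa using this
      nlinarith [abs_nonneg τ, abs_nonneg (z.im - τ)]
    have h6 : ((2 * r) / ‖z - s + 2 * r‖) ^ A ≤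
        ((2 * r) / c) ^ A * ((1 + |z.im - τ|) ^ A)⁻¹ := by
      rw [← inv_pow, ← mul_pow]
      refine pow_le_pow_left₀ (by positivity) ?_ A
      rw [← div_eq_mul_inv, div_div]
      exact div_le_div_of_nonneg_left (by positivity) (by positivity) h4
    have h7 : (1 + |z.im - τ|) ^ m * ((1 + |z.im - τ|) ^ A)⁻¹ ≤ q2 (z.im - τ) := by
      unfold q2
      rw [mul_inv_le_iff₀ (by positivity), ← div_eq_inv_mul, le_div_iff₀ (by positivity),
        ← pow_add]
      exact pow_le_pow_right₀ (by linarith [abs_nonneg (z.im - τ)]) (by omega)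
    rw [hF]
    simp only
    rw [norm_mul, hnk, h2]
    calc ‖g z‖ * (Real.exp (μ * (z.re - s.re)) * ((2 * r) / ‖z - s + 2 * r‖) ^ A *
          ‖gk r J (z - s)‖) ≤
        (G * ((1 + |τ|) ^ m * (1 + |z.im - τ|) ^ m) * Real.exp (-(lam * z.re))) *
        (Real.exp (μ * (z.re - s.re)) *
          (((2 * r) / c) ^ A * ((1 + |z.im - τ|) ^ A)⁻¹) * 2 ^ J) := by
          gcongr
          exact h1.trans (by gcongr)
      _ = D * Real.exp (-((lam - μ) * z.re)) *
          ((1 + |z.im - τ|) ^ m * ((1 + |z.im - τ|) ^ A)⁻¹) := by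
          have e : Real.exp (-(lam * z.re)) * Real.exp (μ * (z.re - s.re)) =
              Real.exp (-(μ * s.re)) * Real.exp (-((lam - μ) * z.re)) := by
            rw [← Real.exp_add, ← Real.exp_add]
            congr 1
            ring
          rw [hD]
          linear_combination (G * (1 + |τ|) ^ m * (1 + |z.im - τ|) ^ m * ((2 * r) / c) ^ A *
            ((1 + |z.im - τ|) ^ A)⁻¹ * 2 ^ J) * e
      _ ≤ _ := mul_le_mul_of_nonneg_left h7 (by positivity)
  -- the value at the point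
  have hk0 : k 0 = 1 := by
    rw [hk]
    simp only
    have : (2 * r : ℂ) ≠ 0 := by
      have : (r : ℂ) ≠ 0 := by exact_mod_cast hr0.ne'
      simp [this]
    rw [mul_zero, Complex.exp_zero, zero_add, div_self this, one_pow, one_mul, one_mul, gk_zero hr0]
  have hFs : F s = g s := by
    rw [hF]
    simp only
    rw [sub_self, hk0, mul_one]
  set Φ : ℂ → ℂ := fun z => F z - F s * cexp ((z - s) ^ 2) with hΦ
  have hΦs : Φ s = 0 := by
    rw [hΦ]
    simp
  set U : Set ℂ := {z | a - r < z.re} with hU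
  have hUo : IsOpen U := isOpen_lt continuous_const Complex.continuous_re
  have hsU : s ∈ U := by
    rw [hU, mem_setOf_eq]
    linarith
  have hFd : DifferentiableOn ℂ F U := by
    intro z hz
    have hz' : a - r < z.re := hz
    refine DifferentiableAt.differentiableWithinAt ?_
    refine (hg z).mul ?_
    have h1 : z - s + 2 * r ≠ 0 := by
      intro h
      have := congrArg Complex.re h
      simp at this
      rw [hr] at hz' this
      linarith
    rw [hk]
    refine DifferentiableAt.mul (DifferentiableAt.mul (by fun_prop) ?_) ?_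
    · refine DifferentiableAt.pow ?_ A
      exact DifferentiableAt.div (by fun_prop) (by fun_prop) h1
    · refine DifferentiableAt.comp z (g := gk r J) (f := fun z : ℂ => z - s)
        (gk_diff hr0 J ?_) (by fun_prop)
      rw [Complex.sub_re]
      rw [hr] at hz' ⊢
      linarith
  have hΦd : DifferentiableOn ℂ Φ U := by
    refine hFd.sub ?_
    exact (by fun_prop : Differentiable ℂ fun z : ℂ => F s * cexp ((z - s) ^ 2)).differentiableOn
  have hfd : DifferentiableOn ℂ (dslope Φ s) U :=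
    (Complex.differentiableOn_dslope (hUo.mem_nhds hsU)).mpr hΦd
  have hgauss : ∀ z : ℂ, ‖cexp ((z - s) ^ 2)‖ =
      Real.exp ((z.re - s.re) ^ 2) * Real.exp (-(z.im - τ) ^ 2) := by
    intro z
    rw [Complex.norm_exp, ← Real.exp_add]
    congr 1
    rw [hτ]
    simp [pow_two]
    ring
  have hfne : ∀ z : ℂ, z ≠ s → dslope Φ s z = F z / (z - s) - F s * (cexp ((z - s) ^ 2) / (z - s)) := by
    intro z hz
    rw [dslope_of_ne _ hz, slope_def_field, hΦs, hΦ]
    simp only
    ring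
  -- the integrals
  have hIF : ∀ x : ℝ, a ≤ x → x ≠ s.re →
      Integrable (fun t : ℝ => F (pt x t) / (pt x t - s)) ∧
      Integrable (fun t : ℝ => cexp ((pt x t - s) ^ 2) / (pt x t - s)) := by
    intro x hx hxs
    have hne : ∀ t : ℝ, pt x t - s ≠ 0 := fun t h => by
      have := congrArg Complex.re h
      simp at this
      exact hxs (by linarith)
    have hcp := pt_cont x
    have hlow2 : ∀ t : ℝ, |x - s.re| ≤ ‖pt x t - s‖ := fun t => by
      have := Complex.abs_re_le_norm (pt x t - s)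
      simpa using this
    have hx0 : 0 < |x - s.re| := abs_pos.mpr (sub_ne_zero.mpr hxs)
    constructor
    · refine ((q2_int.comp_sub_right τ).const_mul
        (D * Real.exp (-((lam - μ) * x)) / |x - s.re|)).mono' ?_ (Eventually.of_forall fun t => ?_)
      · refine Continuous.aestronglyMeasurable ?_
        refine Continuous.div₀ ?_ (by fun_prop) hne
        exact hFd.continuousOn.comp_continuous hcp fun t => by
          rw [hU, mem_setOf_eq, pt_re]
          linarith
      · rw [norm_div]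
        have h1 := hFb (pt x t) (by rw [pt_re]; exact hx)
        rw [pt_re, pt_im] at h1
        rw [div_le_iff₀ (norm_pos_iff.mpr (hne t))]
        refine h1.trans ?_
        rw [div_mul_eq_mul_div, div_mul_eq_mul_div, le_div_iff₀ hx0]
        exact mul_le_mul_of_nonneg_left (hlow2 t) (by have := q2_pos (t - τ); positivity)
    · refine ((q2_int.comp_sub_right τ).const_mul
        (2 * Real.exp ((x - s.re) ^ 2) / |x - s.re|)).mono' ?_ (Eventually.of_forall fun t => ?_)
      · refine Continuous.aestronglyMeasurable ?_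
        exact Continuous.div₀ (by fun_prop) (by fun_prop) hne
      · rw [norm_div, hgauss, pt_re, pt_im]
        have h1 := exp_le_q2 (t - τ)
        rw [div_le_iff₀ (norm_pos_iff.mpr (hne t)), div_mul_eq_mul_div, div_mul_eq_mul_div,
          le_div_iff₀ hx0]
        calc Real.exp ((x - s.re) ^ 2) * Real.exp (-(t - τ) ^ 2) * |x - s.re| ≤
            Real.exp ((x - s.re) ^ 2) * (2 * q2 (t - τ)) * ‖pt x t - s‖ := by
              have := q2_pos (t - τ)
              gcongr
              exact hlow2 t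
          _ = _ := by ring
  have hE : ∀ x : ℝ, ∫ t : ℝ, cexp ((pt x t - s) ^ 2) / (pt x t - s) =
      ∫ t : ℝ, cexp (pt (x - s.re) t ^ 2) / pt (x - s.re) t := by
    intro x
    rw [← integral_sub_right_eq_self (fun t : ℝ => cexp (pt (x - s.re) t ^ 2) /
      pt (x - s.re) t) τ]
    refine integral_congr_ae (Eventually.of_forall fun t => ?_)
    simp only
    have e : pt x t - s = pt (x - s.re) (t - τ) := by
      apply Complex.ext
      · simp
      · rw [hτ]; simp
    rw [e]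
  have hmain : ∀ b : ℝ, s.re < b → 2 * Real.pi * F s =
      (∫ t : ℝ, F (pt b t) / (pt b t - s)) - ∫ t : ℝ, F (pt a t) / (pt a t - s) := by
    intro b hb
    have hsub : strip a b ⊆ U := fun z hz => by
      rw [hU, mem_setOf_eq]
      have := hz.1
      linarith
    obtain ⟨C', hC'⟩ := bd2_of_eventually (f := dslope Φ s) (a := a) (b := b)
      (hfd.continuousOn.mono hsub)
      (C := (D * Real.exp (-((lam - μ) * a)) + ‖F s‖ * (Real.exp ((b - a) ^ 2) * 2)) *
        (1 + |τ|) ^ 2) (T₀ := |τ| + 1) (by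
        intro z hz hT
        have h1 : 1 ≤ |z.im - τ| := by
          have := abs_add_le (z.im - τ) τ
          simp only [sub_add_cancel] at this
          linarith
        have hzs : z ≠ s := fun h => by
          rw [h, hτ, sub_self, abs_zero] at h1
          linarith
        rw [hfne z hzs]
        have h2 : 1 ≤ ‖z - s‖ := by
          have := Complex.abs_im_le_norm (z - s)
          have e : (z - s).im = z.im - τ := by rw [hτ]; simp
          rw [e] at this
          linarith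
        have h3 := hFb z hz.1
        have h4 : ‖F z / (z - s)‖ ≤ D * Real.exp (-((lam - μ) * a)) * q2 (z.im - τ) := by
          rw [norm_div]
          refine (div_le_self (norm_nonneg _) h2).trans (h3.trans ?_)
          have h5 : Real.exp (-((lam - μ) * z.re)) ≤ Real.exp (-((lam - μ) * a)) := by
            refine Real.exp_le_exp.mpr ?_
            have := mul_le_mul_of_nonneg_left hz.1 (sub_pos.mpr hml).le
            linarith
          have := q2_pos (z.im - τ)
          gcongr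
        have h5 : ‖F s * (cexp ((z - s) ^ 2) / (z - s))‖ ≤
            ‖F s‖ * (Real.exp ((b - a) ^ 2) * 2) * q2 (z.im - τ) := by
          rw [norm_mul, norm_div, hgauss]
          have h6 := exp_le_q2 (z.im - τ)
          have h7 : Real.exp ((z.re - s.re) ^ 2) ≤ Real.exp ((b - a) ^ 2) := by
            refine Real.exp_le_exp.mpr ?_
            have h8 := hz.1
            have h9 := hz.2
            nlinarith
          calc ‖F s‖ * (Real.exp ((z.re - s.re) ^ 2) * Real.exp (-(z.im - τ) ^ 2) / ‖z - s‖) ≤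
              ‖F s‖ * (Real.exp ((z.re - s.re) ^ 2) * Real.exp (-(z.im - τ) ^ 2)) := by
                gcongr
                exact div_le_self (by positivity) h2
            _ ≤ ‖F s‖ * (Real.exp ((b - a) ^ 2) * (2 * q2 (z.im - τ))) := by gcongr
            _ = _ := by ring
        have h6 := q2_le τ z.im
        calc ‖F z / (z - s) - F s * (cexp ((z - s) ^ 2) / (z - s))‖ ≤
            D * Real.exp (-((lam - μ) * a)) * q2 (z.im - τ) +
            ‖F s‖ * (Real.exp ((b - a) ^ 2) * 2) * q2 (z.im - τ) :=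
              (norm_sub_le _ _).trans (add_le_add h4 h5)
          _ = (D * Real.exp (-((lam - μ) * a)) + ‖F s‖ * (Real.exp ((b - a) ^ 2) * 2)) *
              q2 (z.im - τ) := by ring
          _ ≤ (D * Real.exp (-((lam - μ) * a)) + ‖F s‖ * (Real.exp ((b - a) ^ 2) * 2)) *
              ((1 + |τ|) ^ 2 * (1 + z.im ^ 2)⁻¹) :=
                mul_le_mul_of_nonneg_left h6 (by positivity)
          _ = _ := by ring)
    have hsh := vshift2 (f := dslope Φ s) (hs.trans hb).le (hfd.continuousOn.mono hsub)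
      (hfd.mono fun z hz => by
        rw [hU, mem_setOf_eq]
        have := hz.1
        linarith) hC'
    have hne : ∀ x : ℝ, x ≠ s.re → ∀ t : ℝ, pt x t ≠ s := fun x hx t h => hx (by
      rw [← h, pt_re])
    have hval : ∀ x : ℝ, a ≤ x → x ≠ s.re → ∫ t : ℝ, dslope Φ s (pt x t) =
        (∫ t : ℝ, F (pt x t) / (pt x t - s)) -
          F s * ∫ t : ℝ, cexp ((pt x t - s) ^ 2) / (pt x t - s) := by
      intro x hx hxs
      obtain ⟨i1, i2⟩ := hIF x hx hxs
      have e1 : ∀ t : ℝ, dslope Φ s (pt x t) = F (pt x t) / (pt x t - s) -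
          F s * (cexp ((pt x t - s) ^ 2) / (pt x t - s)) := fun t => hfne _ (hne x hxs t)
      simp_rw [e1]
      rw [integral_sub i1 (i2.const_mul _), integral_const_mul]
    rw [hval a le_rfl hs.ne, hval b (hs.trans hb).le hb.ne', hE a, hE b,
      gk_left (by linarith), gk_right (by linarith)] at hsh
    linear_combination hsh
  -- the limit
  obtain ⟨Q, hQ⟩ : ∃ Q : ℝ, Q = ∫ t : ℝ, q2 (t - τ) := ⟨_, rfl⟩
  have hI : 2 * Real.pi * ‖F s‖ ≤ ‖∫ t : ℝ, F (pt a t) / (pt a t - s)‖ := by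
    have h1 : ∀ b : ℝ, s.re + 1 ≤ b → 2 * Real.pi * ‖F s‖ ≤
        D * Q * Real.exp (-((lam - μ) * b)) + ‖∫ t : ℝ, F (pt a t) / (pt a t - s)‖ := by
      intro b hb
      have h2 := congrArg norm (hmain b (by linarith))
      rw [norm_mul] at h2
      have h3 : ‖(2 * Real.pi : ℂ)‖ = 2 * Real.pi := by
        have : (2 * Real.pi : ℂ) = ((2 * Real.pi : ℝ) : ℂ) := by push_cast; ring
        rw [this, Complex.norm_real, Real.norm_of_nonneg (by positivity)]
      rw [h3] at h2
      rw [h2]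
      refine (norm_sub_le _ _).trans (add_le_add ?_ le_rfl)
      have h4 : ‖∫ t : ℝ, F (pt b t) / (pt b t - s)‖ ≤
          ∫ t : ℝ, D * Real.exp (-((lam - μ) * b)) * q2 (t - τ) := by
        refine norm_integral_le_of_norm_le ((q2_int.comp_sub_right τ).const_mul _)
          (Eventually.of_forall fun t => ?_)
        rw [norm_div]
        have h5 : 1 ≤ ‖pt b t - s‖ := by
          have := Complex.abs_re_le_norm (pt b t - s)
          have e : (pt b t - s).re = b - s.re := by simp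
          rw [e, abs_of_pos (by linarith)] at this
          linarith
        refine (div_le_self (norm_nonneg _) h5).trans ?_
        have h6 := hFb (pt b t) (by rw [pt_re]; linarith)
        rw [pt_re, pt_im] at h6
        exact h6
      rw [integral_const_mul, ← hQ] at h4
      linarith
    have h2 : Tendsto (fun b : ℝ => D * Q * Real.exp (-((lam - μ) * b)) +
        ‖∫ t : ℝ, F (pt a t) / (pt a t - s)‖) atTop
        (𝓝 (D * Q * 0 + ‖∫ t : ℝ, F (pt a t) / (pt a t - s)‖)) := by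
      refine Tendsto.add_const _ (Tendsto.const_mul _ ?_)
      refine Real.tendsto_exp_neg_atTop_nhds_zero.comp ?_
      exact Tendsto.const_mul_atTop (sub_pos.mpr hml) tendsto_id
    rw [mul_zero, zero_add] at h2
    refine ge_of_tendsto h2 ?_
    filter_upwards [eventually_ge_atTop (s.re + 1)] with b hb
    exact h1 b hb
  -- the norm of the integrand
  have hnorm : ∀ v : ℝ, ‖F (pt a (τ + v)) / (pt a (τ + v) - s)‖ =
      Real.exp (-(μ * r)) * (‖g (pt a (τ + v))‖ * (kap B r v * gev0 r J v)) := by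
    intro v
    rw [norm_div, hF]
    simp only
    rw [norm_mul, hnk]
    have e1 : pt a (τ + v) - s = ⟨-r, v⟩ := by
      apply Complex.ext
      · rw [hr]; simp
      · rw [hτ]; simp
    have e2 : (⟨-r, v⟩ : ℂ) + 2 * r = ⟨r, v⟩ := by
      apply Complex.ext
      · simp; ring
      · simp
    rw [e1, e2, gk_line hr0]
    have n1 : ‖(⟨-r, v⟩ : ℂ)‖ = Real.sqrt (r ^ 2 + v ^ 2) := by
      rw [Complex.norm_def, Complex.normSq_mk]
      congr 1
      ring
    have n2 : ‖(⟨r, v⟩ : ℂ)‖ = Real.sqrt (r ^ 2 + v ^ 2) := by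
      rw [Complex.norm_def, Complex.normSq_mk]
      congr 1
      ring
    rw [n1, n2]
    unfold kap
    rw [← hA]
    have hX : 0 < r ^ 2 + v ^ 2 := by positivity
    have hX1 : 0 < Real.sqrt (r ^ 2 + v ^ 2) := Real.sqrt_pos.mpr hX
    have e3 : (r ^ 2 + v ^ 2) ^ B = Real.sqrt (r ^ 2 + v ^ 2) ^ A * Real.sqrt (r ^ 2 + v ^ 2) := by
      rw [← pow_succ, hAB, pow_mul, Real.sq_sqrt hX.le]
    rw [e3, div_pow]
    have e4 : μ * (⟨-r, v⟩ : ℂ).re = -(μ * r) := by simp
    rw [e4]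
    field_simp
  have hint : Integrable (fun v : ℝ => ‖F (pt a (τ + v)) / (pt a (τ + v) - s)‖) := by
    have h1 := ((hIF a le_rfl hs.ne).1.norm).comp_add_left τ
    exact h1
  have hex : Real.exp (-(μ * r)) ≠ 0 := (Real.exp_pos _).ne'
  constructor
  · have h1 := hint.const_mul (Real.exp (-(μ * r)))⁻¹
    refine h1.congr (Eventually.of_forall fun v => ?_)
    simp only
    rw [hnorm v, ← mul_assoc, inv_mul_cancel₀ hex, one_mul]
  · rw [← hFs]
    have h1 : ‖∫ t : ℝ, F (pt a t) / (pt a t - s)‖ ≤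
        Real.exp (-(μ * r)) * ∫ v : ℝ, ‖g (pt a (τ + v))‖ * (kap B r v * gev0 r J v) := by
      refine (norm_integral_le_integral_norm _).trans (le_of_eq ?_)
      rw [← integral_add_left_eq_self (fun t : ℝ => ‖F (pt a t) / (pt a t - s)‖) τ,
        ← integral_const_mul]
      exact integral_congr_ae (Eventually.of_forall fun v => hnorm v)
    have h2 : ‖F s‖ ≤ 2 * Real.pi * ‖F s‖ := by
      have := Real.pi_gt_three
      have := norm_nonneg (F s)
      nlinarith
    exact h2.trans (hI.trans h1)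


/-! ### the decay of the Gevrey factor -/

lemma pt_norm_ge_re (x v : ℝ) : x ≤ ‖pt x v‖ := by
  have h := Complex.abs_re_le_norm (pt x v)
  rw [pt_re] at h
  exact (le_abs_self x).trans h

lemma pt_norm_ge_im (x v : ℝ) : |v| ≤ ‖pt x v‖ := by
  have h := Complex.abs_im_le_norm (pt x v)
  rw [pt_im] at h
  exact h

lemma den_pos {r : ℝ} (hr : 0 < r) (j : ℕ) (v : ℝ) :
    0 < ‖pt (2 * r * ((j : ℝ) + 1) ^ 2 - r) v‖ := by
  have h := rho_ge hr j
  have h1 := pt_norm_ge_re (2 * r * ((j : ℝ) + 1) ^ 2 - r) v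
  linarith

lemma gev0_nn {r : ℝ} (hr : 0 < r) (J : ℕ) (v : ℝ) : 0 ≤ gev0 r J v := by
  unfold gev0
  refine Finset.prod_nonneg fun j _ => ?_
  have h := rho_ge hr j
  have h1 := den_pos hr j v
  exact div_nonneg (by linarith) h1.le

lemma gev0_cont {r : ℝ} (hr : 0 < r) (J : ℕ) : Continuous (gev0 r J) := by
  unfold gev0
  refine continuous_finset_prod _ fun j _ => ?_
  refine Continuous.div₀ continuous_const (pt_cont _).norm fun v => ?_
  exact (den_pos hr j v).ne'

lemma fac_le {r : ℝ} (hr : 0 < r) (j : ℕ) (v : ℝ) :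
    2 * r * ((j : ℝ) + 1) ^ 2 / ‖pt (2 * r * ((j : ℝ) + 1) ^ 2 - r) v‖ ≤
      Real.exp (1 / ((j : ℝ) + 1) ^ 2) := by
  have h1 := pt_norm_ge_re (2 * r * ((j : ℝ) + 1) ^ 2 - r) v
  have h2 := den_pos hr j v
  rw [div_le_iff₀ h2]
  have hj : (1 : ℝ) ≤ (j : ℝ) + 1 := by
    have : (0 : ℝ) ≤ j := Nat.cast_nonneg j
    linarith
  have hj2 : (1 : ℝ) ≤ ((j : ℝ) + 1) ^ 2 := by nlinarith
  obtain ⟨q, hq⟩ : ∃ q : ℝ, q = ((j : ℝ) + 1) ^ 2 := ⟨_, rfl⟩
  rw [← hq] at hj2 h1 h2 ⊢
  have h3 : 1 / q + 1 ≤ Real.exp (1 / q) := Real.add_one_le_exp _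
  have h4 : 0 ≤ 2 * r * q - r := by nlinarith
  calc 2 * r * q ≤ (1 / q + 1) * (2 * r * q - r) := by
        have : (1 / q + 1) * (2 * r * q - r) - 2 * r * q = r * (1 - 1 / q) := by
          field_simp
          ring
        have h5 : 1 / q ≤ 1 := by
          rw [div_le_one (by linarith)]
          exact hj2
        nlinarith
    _ ≤ Real.exp (1 / q) * ‖pt (2 * r * q - r) v‖ := by gcongr

lemma fac_le_half {r : ℝ} (hr : 0 < r) (j : ℕ) {v : ℝ} (h : 4 * r * ((j : ℝ) + 1) ^ 2 ≤ |v|) :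
    2 * r * ((j : ℝ) + 1) ^ 2 / ‖pt (2 * r * ((j : ℝ) + 1) ^ 2 - r) v‖ ≤ 1 / 2 := by
  have h1 := pt_norm_ge_im (2 * r * ((j : ℝ) + 1) ^ 2 - r) v
  have h2 := den_pos hr j v
  rw [div_le_iff₀ h2]
  linarith

lemma sum_sq_le (J : ℕ) : ∑ j ∈ Finset.range J, 1 / ((j : ℝ) + 1) ^ 2 ≤ 2 := by
  have h : ∀ J : ℕ, ∑ j ∈ Finset.range (J + 1), 1 / ((j : ℝ) + 1) ^ 2 ≤ 2 - 1 / ((J : ℝ) + 1) := by
    intro J
    induction J with
    | zero => norm_num
    | succ n ih =>
      rw [Finset.sum_range_succ]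
      have h0 : (0 : ℝ) ≤ n := Nat.cast_nonneg n
      have h1 : 1 / (((n + 1 : ℕ) : ℝ) + 1) ^ 2 ≤ 1 / ((n : ℝ) + 1) - 1 / (((n + 1 : ℕ) : ℝ) + 1) := by
        push_cast
        rw [div_sub_div _ _ (by positivity) (by positivity), div_le_div_iff₀ (by positivity)
          (by positivity)]
        nlinarith
      linarith
  have h1 := h J
  rw [Finset.sum_range_succ] at h1
  have h2 : (0 : ℝ) ≤ 1 / ((J : ℝ) + 1) ^ 2 := by positivity
  have h3 : (0 : ℝ) ≤ 1 / ((J : ℝ) + 1) := by positivity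
  linarith

lemma gev0_le {r : ℝ} (hr : 0 < r) (M K : ℕ) {v : ℝ}
    (h : ∀ j : ℕ, j < M → 4 * r * ((j : ℝ) + 1) ^ 2 ≤ |v|) :
    gev0 r (M + K) v ≤ Real.exp 2 * (1 / 2) ^ M := by
  unfold gev0
  calc ∏ j ∈ Finset.range (M + K),
        (2 * r * ((j : ℝ) + 1) ^ 2 / ‖pt (2 * r * ((j : ℝ) + 1) ^ 2 - r) v‖) ≤
      ∏ j ∈ Finset.range (M + K),
        (Real.exp (1 / ((j : ℝ) + 1) ^ 2) * (if j < M then 1 / 2 else 1)) := by
        refine Finset.prod_le_prod (fun j _ => ?_) fun j _ => ?_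
        · have h1 := rho_ge hr j
          exact div_nonneg (by linarith) (den_pos hr j v).le
        · split_ifs with hj
          · refine (fac_le_half hr j (h j hj)).trans ?_
            have : 1 ≤ Real.exp (1 / ((j : ℝ) + 1) ^ 2) := Real.one_le_exp (by positivity)
            linarith
          · rw [mul_one]
            exact fac_le hr j v
    _ = Real.exp (∑ j ∈ Finset.range (M + K), 1 / ((j : ℝ) + 1) ^ 2) * (1 / 2) ^ M := by
        rw [Finset.prod_mul_distrib, ← Real.exp_sum]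
        congr 1
        rw [Finset.prod_range_add]
        have e1 : ∏ j ∈ Finset.range M, (if j < M then (1 / 2 : ℝ) else 1) = (1 / 2) ^ M := by
          rw [Finset.prod_congr rfl (g := fun _ => (1 / 2 : ℝ)) fun j hj => by
            rw [if_pos (Finset.mem_range.mp hj)]]
          simp
        have e2 : ∏ j ∈ Finset.range K, (if M + j < M then (1 / 2 : ℝ) else 1) = 1 :=
          Finset.prod_eq_one fun j _ => by rw [if_neg (by omega)]
        rw [e1, e2, mul_one]
    _ ≤ _ := by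
        gcongr
        exact sum_sq_le _

theorem gev_decay : ∀ κ : ℝ, 0 < κ → ∃ ε : ℝ, 0 < ε ∧ ∀ L r : ℝ, 1 ≤ L → 0 < r → r ≤ κ / L →
    ∃ J : ℕ, Continuous (gev0 r J) ∧ ∀ v : ℝ, 0 ≤ gev0 r J v ∧
      gev0 r J v * Real.exp (ε * Real.sqrt (L * min 1 |v|)) ≤ 20 := by
  intro κ hκ
  have hκ1 : 0 < Real.sqrt κ := Real.sqrt_pos.mpr hκ
  have hlog : 0 < Real.log 2 := Real.log_pos one_lt_two
  refine ⟨Real.log 2 / (2 * Real.sqrt κ), by positivity, fun L r hL hr hrL => ?_⟩
  refine ⟨⌊Real.sqrt (1 / (4 * r))⌋₊, gev0_cont hr _, fun v => ⟨gev0_nn hr _ v, ?_⟩⟩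
  obtain ⟨m, hm⟩ : ∃ m : ℝ, m = min 1 |v| := ⟨_, rfl⟩
  have hm0 : 0 ≤ m := by rw [hm]; exact le_min zero_le_one (abs_nonneg v)
  have hm1 : m ≤ 1 := by rw [hm]; exact min_le_left _ _
  have hmv : m ≤ |v| := by rw [hm]; exact min_le_right _ _
  rw [← hm]
  obtain ⟨y, hy⟩ : ∃ y : ℝ, y = Real.sqrt (m / (4 * r)) := ⟨_, rfl⟩
  have hy0 : 0 ≤ y := by rw [hy]; positivity
  have hyJ : ⌊y⌋₊ ≤ ⌊Real.sqrt (1 / (4 * r))⌋₊ := by
    refine Nat.floor_le_floor ?_
    rw [hy]
    gcongr
  obtain ⟨K, hK⟩ := Nat.exists_eq_add_of_le hyJ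
  rw [hK]
  have hysq : y ^ 2 = m / (4 * r) := by rw [hy, Real.sq_sqrt (by positivity)]
  have h1 : gev0 r (⌊y⌋₊ + K) v ≤ Real.exp 2 * (1 / 2) ^ ⌊y⌋₊ := by
    refine gev0_le hr _ _ fun j hj => ?_
    have h2 : (j : ℝ) + 1 ≤ y := by
      have h3 : ((j + 1 : ℕ) : ℝ) ≤ ⌊y⌋₊ := by exact_mod_cast hj
      have h4 := Nat.floor_le hy0
      push_cast at h3
      linarith
    have h5 : ((j : ℝ) + 1) ^ 2 ≤ m / (4 * r) := by
      rw [← hysq]
      exact pow_le_pow_left₀ (by positivity) h2 2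
    rw [le_div_iff₀ (by positivity)] at h5
    linarith
  -- the exponent
  have h2 : Real.sqrt (L * m) ≤ 2 * Real.sqrt κ * y := by
    rw [hy]
    have e : 2 * Real.sqrt κ * Real.sqrt (m / (4 * r)) = Real.sqrt (4 * κ * (m / (4 * r))) := by
      rw [mul_assoc, ← Real.sqrt_mul hκ.le, show (4 : ℝ) * κ * (m / (4 * r)) =
        2 ^ 2 * (κ * (m / (4 * r))) by ring,
        Real.sqrt_mul (by positivity : (0 : ℝ) ≤ 2 ^ 2) (κ * (m / (4 * r))),
        Real.sqrt_sq (by norm_num)]
    rw [e]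
    refine Real.sqrt_le_sqrt ?_
    have h3 : L ≤ κ / r := by
      rw [le_div_iff₀ (by linarith)] at hrL
      rw [le_div_iff₀ hr]
      linarith
    calc L * m ≤ κ / r * m := by gcongr
      _ = _ := by field_simp
  have h3 : Real.log 2 / (2 * Real.sqrt κ) * Real.sqrt (L * m) ≤ Real.log 2 * ((⌊y⌋₊ : ℝ) + 1) := by
    calc Real.log 2 / (2 * Real.sqrt κ) * Real.sqrt (L * m) ≤
        Real.log 2 / (2 * Real.sqrt κ) * (2 * Real.sqrt κ * y) := by gcongr
      _ = Real.log 2 * y := by field_simp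
      _ ≤ _ := by
        have := (Nat.lt_floor_add_one y).le
        gcongr
  have h4 : Real.exp (Real.log 2 / (2 * Real.sqrt κ) * Real.sqrt (L * m)) ≤ 2 ^ (⌊y⌋₊ + 1) := by
    refine (Real.exp_le_exp.mpr h3).trans (le_of_eq ?_)
    have e : Real.log 2 * ((⌊y⌋₊ : ℝ) + 1) = ((⌊y⌋₊ + 1 : ℕ) : ℝ) * Real.log 2 := by
      push_cast
      ring
    rw [e, Real.exp_nat_mul, Real.exp_log two_pos]
  have h5 : Real.exp 2 ≤ 10 := by
    have h6 := Real.exp_one_lt_d9
    have h7 : Real.exp 2 = Real.exp 1 ^ 2 := by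
      rw [← Real.exp_nat_mul]
      norm_num
    rw [h7]
    have h8 := Real.exp_pos 1
    nlinarith
  calc gev0 r (⌊y⌋₊ + K) v * Real.exp (Real.log 2 / (2 * Real.sqrt κ) * Real.sqrt (L * m)) ≤
      (Real.exp 2 * (1 / 2) ^ ⌊y⌋₊) * 2 ^ (⌊y⌋₊ + 1) := by gcongr
    _ = Real.exp 2 * 2 := by
        rw [pow_succ, mul_assoc, ← mul_assoc ((1 / 2 : ℝ) ^ ⌊y⌋₊), ← mul_pow]
        norm_num
    _ ≤ 20 := by linarith

end Pool.Agent.N802.WD.K
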