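import Pool.Agent.N802.WD.Stm
import Pool.Agent.N802.WD.Ker0

/-!
# KER: a function at a point from its values on a line to the left, with a Gevrey kernel
-/

set_option autoImplicit false

namespace Pool.Agent.N802.WD

lemma gev_eq (r : ℝ) (J : ℕ) : gev r J = K.gev0 r J := rfl

/-- **KER** -/
theorem ker : S_ker := by
  constructor
  · intro g hg a μ lam G m B J hB hml hgr s hs
    simp only [gev_eq]
    exact K.cauchy_gev hg J hB hml hgr hs
  · intro κ hκ
    simp only [gev_eq]
    exact K.gev_decay κ hκ

end Pool.Agent.N802.WD
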