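import Pool.Agent.N802.WD.Stm

/-!
# The mean square of smooth partial sums times the mollifier, weighted
-/

set_option autoImplicit false

open Complex Filter Topology Set MeasureTheory
open scoped BigOperators ComplexConjugate

namespace Pool.Agent.N802.WD

namespace Msd

open TC Pool.Agent.N802.U
open Pool.Agent.R399.TW (pt)

/-! ### the mean value -/

lemma ms (S : Finset ℕ) (r : ℕ → ℂ) (τ H K0 : ℝ) (hH : 0 < H) (hK : 1 ≤ K0)
    (hS : ∀ k ∈ S, 1 ≤ k ∧ (k : ℝ) ≤ K0) (hE : K0 * Real.exp (-(H ^ 2) / (8 * K0 ^ 2)) ≤ 1) :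
    ∫ t : ℝ, om τ H t * ‖RP S r t‖ ^ 2 ≤ 2 * (Real.sqrt (2 * Real.pi) * H * w1 S r) := by
  have h1 := om_TP (S ×ˢ S) (uc r) (fun x => x.1) (fun x => x.2) τ H K0 hH
    (fun x hx => (hS x.1 (Finset.mem_product.mp hx).1).1)
    (fun x hx => (hS x.2 (Finset.mem_product.mp hx).2).1)
    (fun x hx => by
      have h2 := (hS x.1 (Finset.mem_product.mp hx).1).2
      have h3 : ((min x.1 x.2 : ℕ) : ℝ) ≤ (x.1 : ℝ) := by exact_mod_cast min_le_left _ _
      linarith)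
  rw [diag0, n1_uc] at h1
  have e : ∫ t : ℝ, (om τ H t : ℂ) * TP (S ×ˢ S) (uc r) (fun x => x.1) (fun x => x.2) t =
      ((∫ t, om τ H t * ‖RP S r t‖ ^ 2 : ℝ) : ℂ) := by
    rw [← integral_complex_ofReal]
    congr 1
    funext t
    rw [← U_eq S r (fun k hk => (hS k hk).1) t]
    push_cast
    ring
  rw [e, ← ofReal_mul, ← ofReal_sub, Complex.norm_real, Real.norm_eq_abs] at h1
  have h4 := n1_sq_le S r hS hK
  have h5 := Real.exp_pos (-(H ^ 2) / (8 * K0 ^ 2))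
  have h6 : Real.sqrt (2 * Real.pi) * H * (n1 S r ^ 2 * Real.exp (-(H ^ 2) / (8 * K0 ^ 2))) ≤
      Real.sqrt (2 * Real.pi) * H * w1 S r := by
    refine mul_le_mul_of_nonneg_left ?_ (by positivity)
    calc n1 S r ^ 2 * Real.exp (-(H ^ 2) / (8 * K0 ^ 2)) ≤
        (K0 * w1 S r) * Real.exp (-(H ^ 2) / (8 * K0 ^ 2)) :=
          mul_le_mul_of_nonneg_right h4 h5.le
      _ = (K0 * Real.exp (-(H ^ 2) / (8 * K0 ^ 2))) * w1 S r := by ring
      _ ≤ 1 * w1 S r := mul_le_mul_of_nonneg_right hE (w1_nonneg S r)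
      _ = w1 S r := one_mul _
  have h7 := (abs_le.1 h1).2
  linarith

/-! ### products of Dirichlet polynomials -/

/-- the coefficients of the product -/
noncomputable def cv (P S : Finset ℕ) (c r : ℕ → ℂ) (k : ℕ) : ℂ :=
  ∑ z ∈ (P ×ˢ S).filter (fun z => z.1 * z.2 = k), c z.1 * r z.2

lemma RP_mul (P S : Finset ℕ) (c r : ℕ → ℂ) (hP : ∀ k ∈ P, 0 < k) (hS : ∀ k ∈ S, 0 < k)
    (Q : Finset ℕ) (hQ : ∀ m ∈ P, ∀ n ∈ S, m * n ∈ Q) (t : ℝ) :
    RP P c t * RP S r t = RP Q (cv P S c r) t := by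
  unfold RP
  rw [TP_mul _ _ _ _ _ _ _ _ (fun x hx => hP x hx) (fun _ _ => one_pos)
    (fun x hx => hS x hx) (fun _ _ => one_pos)]
  unfold TP cv
  have h := Finset.sum_fiberwise_of_maps_to (s := P ×ˢ S) (t := Q) (g := fun z => z.1 * z.2)
    (fun z hz => hQ _ (Finset.mem_product.1 hz).1 _ (Finset.mem_product.1 hz).2)
    (fun z => c z.1 * r z.2 * mn (z.1 * z.2) (1 * 1) t)
  rw [← h]
  refine Finset.sum_congr rfl fun k _ => ?_
  rw [Finset.sum_mul]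
  refine Finset.sum_congr rfl fun z hz => ?_
  rw [(Finset.mem_filter.1 hz).2, one_mul]

lemma cpow_pt (n : ℕ) (hn : 1 ≤ n) (σ y t : ℝ) :
    (n : ℂ) ^ (-(pt σ (t + y))) =
      cexp (-((σ : ℂ) * Real.log n) - I * (y * Real.log n)) * mn n 1 t := by
  have hn0 : (n : ℂ) ≠ 0 := by exact_mod_cast (by omega : n ≠ 0)
  rw [Complex.cpow_def_of_ne_zero hn0]
  unfold mn
  rw [← Complex.exp_add]
  congr 1
  have h1 : Complex.log (n : ℂ) = ((Real.log n : ℝ) : ℂ) := by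
    rw [← Complex.ofReal_natCast, Complex.ofReal_log (by positivity)]
  have h2 : Real.log ((1 : ℕ) : ℝ) = 0 := by simp
  rw [h1, h2]
  unfold pt
  push_cast
  ring

/-- the coefficients of the partial sum -/
noncomputable def dn (V : ℝ → ℝ) (σ y : ℝ) (n : ℕ) : ℂ :=
  (V (Real.log n) : ℂ) * cexp (-((σ : ℂ) * Real.log n) - I * (y * Real.log n))

/-- the coefficients of the mollifier -/
noncomputable def bn (V : ℝ → ℝ) (σ y : ℝ) (n : ℕ) : ℂ :=
  ((ArithmeticFunction.moebius n : ℤ) : ℂ) * dn V σ y n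

lemma Dp_eq (V : ℝ → ℝ) (M : ℕ) (σ y t : ℝ) :
    Dp V M (pt σ (t + y)) = RP (Finset.Icc 1 M) (dn V σ y) t := by
  unfold Dp RP TP dn
  refine Finset.sum_congr rfl fun n hn => ?_
  rw [cpow_pt n (Finset.mem_Icc.1 hn).1]
  ring

lemma Mp_eq (V : ℝ → ℝ) (M : ℕ) (σ y t : ℝ) :
    Mp V M (pt σ (t + y)) = RP (Finset.Icc 1 M) (bn V σ y) t := by
  unfold Mp RP TP bn dn
  refine Finset.sum_congr rfl fun n hn => ?_
  rw [cpow_pt n (Finset.mem_Icc.1 hn).1]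
  ring

/-! ### the Moebius sum -/

lemma moebius_sum (u : ℝ) (m : ℕ) (hm : 1 ≤ m) :
    ∑ b ∈ m.divisors, ((ArithmeticFunction.moebius b : ℤ) : ℂ) * cexp (I * u * Real.log b) =
      ∏ p ∈ m.primeFactors, (1 - cexp (I * u * Real.log p)) := by
  obtain ⟨f, hf⟩ : ∃ f : ArithmeticFunction ℂ, ∀ n : ℕ, 1 ≤ n → f n = cexp (I * u * Real.log n) :=
    ⟨⟨fun n => if n = 0 then 0 else cexp (I * u * Real.log n), by simp⟩, fun n hn => by
      simp only [ArithmeticFunction.coe_mk]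
      rw [if_neg (by omega)]⟩
  have hfm : f.IsMultiplicative := by
    constructor
    · rw [hf 1 le_rfl]; simp
    · intro a b _
      rcases Nat.eq_zero_or_pos a with ha | ha
      · subst ha; simp
      rcases Nat.eq_zero_or_pos b with hb | hb
      · subst hb; simp
      rw [hf a ha, hf b hb, hf (a * b) (Nat.mul_pos ha hb), ← Complex.exp_add]
      congr 1
      push_cast
      rw [Real.log_mul (by positivity) (by positivity)]
      push_cast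
      ring
  obtain ⟨R, hR⟩ : ∃ R : ℕ, R = ∏ p ∈ m.primeFactors, p := ⟨_, rfl⟩
  have hR0 : R ≠ 0 := by
    rw [hR]
    exact Finset.prod_ne_zero_iff.2 fun p hp => (Nat.prime_of_mem_primeFactors hp).ne_zero
  have hRs : Squarefree R := by
    rw [hR]
    exact Finset.squarefree_prod_of_pairwise_isCoprime
      (fun p hp q hq hpq => by
        have h1 := Nat.prime_of_mem_primeFactors hp
        have h2 := Nat.prime_of_mem_primeFactors hq
        exact Nat.coprime_iff_isRelPrime.1 ((Nat.coprime_primes h1 h2).2 hpq))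
      (fun p hp => (Nat.prime_of_mem_primeFactors hp).squarefree)
  have hRm : R ∣ m := by rw [hR]; exact Nat.prod_primeFactors_dvd m
  have hpf : R.primeFactors = m.primeFactors := by
    rw [hR]
    exact Nat.primeFactors_prod fun p hp => Nat.prime_of_mem_primeFactors hp
  have h := ArithmeticFunction.IsMultiplicative.prodPrimeFactors_one_sub_of_squarefree f hfm hRs
  rw [hpf] at h
  have h2 : ∏ p ∈ m.primeFactors, (1 - f p) =
      ∏ p ∈ m.primeFactors, (1 - cexp (I * u * Real.log p)) :=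
    Finset.prod_congr rfl fun p hp => by
      rw [hf p (Nat.prime_of_mem_primeFactors hp).one_lt.le]
  rw [← h2, h]
  have hsub : R.divisors ⊆ m.divisors := Nat.divisors_subset_of_dvd (by omega) hRm
  rw [← Finset.sum_subset hsub]
  · refine Finset.sum_congr rfl fun b hb => ?_
    rw [hf b (Nat.pos_of_mem_divisors hb)]
  · intro b hb hb2
    have hnsq : ¬ Squarefree b := by
      intro hsq
      apply hb2
      rw [Nat.mem_divisors]
      refine ⟨?_, hR0⟩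
      rw [← Nat.prod_primeFactors_of_squarefree hsq, hR]
      exact Finset.prod_dvd_prod_of_subset _ _ _
        (Nat.primeFactors_mono (Nat.dvd_of_mem_divisors hb) (by omega))
    rw [ArithmeticFunction.moebius_eq_zero_of_not_squarefree hnsq]
    simp

/-! ### the Mellin representation -/

lemma re_of (a b : ℝ) : ((a : ℂ) + (b : ℂ) * I).re = a := by simp

/-- the integrand for a pair -/
noncomputable def Gy (L s x v : ℝ) (y : ℝ × ℝ) (n b : ℕ) : ℂ :=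
  ((ArithmeticFunction.moebius b : ℤ) : ℂ) *
    cexp (-((s : ℂ) * (Real.log n + Real.log b)) -
      I * (x * (Real.log n + Real.log b) + (v + y.1 / L) * Real.log n + (y.2 / L) * Real.log b))

lemma dn_int (V : ℝ → ℝ) (K : ℝ → ℂ) (a σ L s w : ℝ) (hs : σ + a / L = s)
    (hrep : ∀ x : ℝ, ((V x : ℝ) : ℂ) = ∫ y : ℝ, K y * cexp (-(((a : ℂ) + I * y) / L * x)))
    (n : ℕ) : dn V σ w n =
      ∫ y : ℝ, K y * cexp (-((s : ℂ) * Real.log n) - I * ((w + y / L) * Real.log n)) := by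
  unfold dn
  rw [hrep (Real.log n), ← integral_mul_const]
  congr 1
  funext y
  rw [mul_assoc, ← Complex.exp_add]
  congr 2
  rw [← hs]
  push_cast
  ring

lemma pair_int (V₁ V₂ : ℝ → ℝ) (K₁ K₂ : ℝ → ℂ) (a₁ a₂ σ₁ σ₂ L s x v : ℝ) (hs₁ : σ₁ + a₁ / L = s)
    (hs₂ : σ₂ + a₂ / L = s)
    (hrep₁ : ∀ x : ℝ, ((V₁ x : ℝ) : ℂ) = ∫ y : ℝ, K₁ y * cexp (-(((a₁ : ℂ) + I * y) / L * x)))
    (hrep₂ : ∀ x : ℝ, ((V₂ x : ℝ) : ℂ) = ∫ y : ℝ, K₂ y * cexp (-(((a₂ : ℂ) + I * y) / L * x)))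
    (n b : ℕ) : dn V₁ σ₁ (x + v) n * bn V₂ σ₂ x b =
      ∫ y : ℝ × ℝ, (K₁ y.1 * K₂ y.2) * Gy L s x v y n b := by
  unfold bn
  rw [dn_int V₁ K₁ a₁ σ₁ L s (x + v) hs₁ hrep₁, dn_int V₂ K₂ a₂ σ₂ L s x hs₂ hrep₂,
    ← integral_const_mul, ← integral_prod_mul]
  rw [← Measure.volume_eq_prod]
  congr 1
  funext y
  have e : Gy L s x v y n b = cexp (-((s : ℂ) * Real.log n) - I * (((x + v : ℝ) + y.1 / L) *
      Real.log n)) * (((ArithmeticFunction.moebius b : ℤ) : ℂ) *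
        cexp (-((s : ℂ) * Real.log b) - I * ((x + y.2 / L) * Real.log b))) := by
    unfold Gy
    have : ∀ (μ p q r : ℂ), r = p + q → μ * cexp r = cexp p * (μ * cexp q) := by
      intro μ p q r h
      rw [h, Complex.exp_add]
      ring
    apply this
    push_cast
    ring
  rw [e]
  ring

lemma Gy_norm (L s x v : ℝ) (y : ℝ × ℝ) (n b : ℕ) :
    ‖Gy L s x v y n b‖ ≤ Real.exp (-(s * (Real.log n + Real.log b))) := by
  unfold Gy
  rw [norm_mul, Complex.norm_exp]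
  have h1 : ‖((ArithmeticFunction.moebius b : ℤ) : ℂ)‖ ≤ 1 := by
    rw [Complex.norm_intCast]
    exact_mod_cast ArithmeticFunction.abs_moebius_le_one
  have h2 : (-((s : ℂ) * (Real.log n + Real.log b)) - I * (x * (Real.log n + Real.log b) +
      (v + y.1 / L) * Real.log n + (y.2 / L) * Real.log b)).re =
      -(s * (Real.log n + Real.log b)) := by
    have : (-((s : ℂ) * (Real.log n + Real.log b)) - I * (x * (Real.log n + Real.log b) +
      (v + y.1 / L) * Real.log n + (y.2 / L) * Real.log b)) =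
      ((-(s * (Real.log n + Real.log b)) : ℝ) : ℂ) + ((-(x * (Real.log n + Real.log b) +
      (v + y.1 / L) * Real.log n + (y.2 / L) * Real.log b) : ℝ) : ℂ) * I := by
      push_cast
      ring
    rw [this]
    exact re_of _ _
  rw [h2]
  calc _ ≤ 1 * Real.exp (-(s * (Real.log n + Real.log b))) :=
        mul_le_mul_of_nonneg_right h1 (Real.exp_pos _).le
    _ = _ := one_mul _

lemma Gy_cont (L s x v : ℝ) (n b : ℕ) : Continuous (fun y : ℝ × ℝ => Gy L s x v y n b) := by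
  unfold Gy
  fun_prop

/-- the coefficients of the kernel -/
noncomputable def ey (L s x v : ℝ) (y : ℝ × ℝ) (m : ℕ) : ℂ :=
  ∑ z ∈ m.divisorsAntidiagonal, Gy L s x v y z.1 z.2

lemma ey_cont (L s x v : ℝ) (m : ℕ) : Continuous (fun y : ℝ × ℝ => ey L s x v y m) := by
  unfold ey
  exact continuous_finsetSum _ fun z _ => Gy_cont L s x v z.1 z.2

lemma ey_norm (L s x v : ℝ) (y : ℝ × ℝ) (m : ℕ) (hm : 1 ≤ m) :
    ‖ey L s x v y m‖ = (m : ℝ) ^ (-s) * gc (v + (y.1 - y.2) / L) m := by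
  have hm0 : (0 : ℝ) < m := by exact_mod_cast hm
  have h1 : ∀ z ∈ m.divisorsAntidiagonal, Gy L s x v y z.1 z.2 =
      cexp (-((s : ℂ) * Real.log m) - I * ((x + v + y.1 / L) * Real.log m)) *
        (((ArithmeticFunction.moebius z.2 : ℤ) : ℂ) *
          cexp (I * (v + (y.1 - y.2) / L : ℝ) * Real.log z.2)) := by
    intro z hz
    have h2 := (Nat.mem_divisorsAntidiagonal.1 hz).1
    have h3 : z.1 ≠ 0 := by
      intro h
      rw [h, zero_mul] at h2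
      omega
    have h4 : z.2 ≠ 0 := by
      intro h
      rw [h, mul_zero] at h2
      omega
    have h5 : Real.log m = Real.log z.1 + Real.log z.2 := by
      rw [← h2]
      push_cast
      exact Real.log_mul (by exact_mod_cast h3) (by exact_mod_cast h4)
    have h6 : Real.log z.1 = Real.log m - Real.log z.2 := by linarith
    unfold Gy
    rw [h6]
    have : ∀ (μ p q r : ℂ), r = p + q → μ * cexp r = cexp p * (μ * cexp q) := by
      intro μ p q r h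
      rw [h, Complex.exp_add]
      ring
    apply this
    push_cast
    ring
  unfold ey
  rw [Finset.sum_congr rfl h1, ← Finset.mul_sum, norm_mul]
  have h2 := Nat.sum_divisorsAntidiagonal' (n := m) (f := fun _ b =>
    (((ArithmeticFunction.moebius b : ℤ) : ℂ) * cexp (I * (v + (y.1 - y.2) / L : ℝ) * Real.log b)))
  rw [h2, moebius_sum _ m hm, norm_prod]
  unfold gc
  congr 1
  rw [Complex.norm_exp]
  have h3 : (-((s : ℂ) * Real.log m) - I * ((x + v + y.1 / L) * Real.log m)).re =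
      Real.log m * (-s) := by
    have : (-((s : ℂ) * Real.log m) - I * ((x + v + y.1 / L) * Real.log m)) =
      ((Real.log m * (-s) : ℝ) : ℂ) + ((-((x + v + y.1 / L) * Real.log m) : ℝ) : ℂ) * I := by
      push_cast
      ring
    rw [this]
    exact re_of _ _
  rw [h3, Real.rpow_def_of_pos hm0]

/-! ### the coefficients of the product -/

lemma cv_div (V₁ V₂ : ℝ → ℝ) (σ₁ σ₂ y₁ y₂ : ℝ) (N₁ N₂ : ℕ) (h₁ : ∀ n : ℕ, N₁ < n → V₁ (Real.log n) = 0)
    (h₂ : ∀ n : ℕ, N₂ < n → V₂ (Real.log n) = 0) (m : ℕ) (hm : 1 ≤ m) :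
    cv (Finset.Icc 1 N₁) (Finset.Icc 1 N₂) (dn V₁ σ₁ y₁) (bn V₂ σ₂ y₂) m =
      ∑ z ∈ m.divisorsAntidiagonal, dn V₁ σ₁ y₁ z.1 * bn V₂ σ₂ y₂ z.2 := by
  unfold cv
  apply Finset.sum_subset
  · intro z hz
    rw [Finset.mem_filter] at hz
    rw [Nat.mem_divisorsAntidiagonal]
    exact ⟨hz.2, by omega⟩
  · intro z hz hz2
    rw [Nat.mem_divisorsAntidiagonal] at hz
    have h3 : z.1 ≠ 0 := by
      intro h
      rw [h, zero_mul] at hz
      omega
    have h4 : z.2 ≠ 0 := by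
      intro h
      rw [h, mul_zero] at hz
      omega
    have h5 : N₁ < z.1 ∨ N₂ < z.2 := by
      by_contra hc
      push Not at hc
      apply hz2
      rw [Finset.mem_filter, Finset.mem_product, Finset.mem_Icc, Finset.mem_Icc]
      exact ⟨⟨⟨by omega, hc.1⟩, ⟨by omega, hc.2⟩⟩, hz.1⟩
    rcases h5 with h5 | h5
    · unfold dn
      rw [h₁ _ h5]
      simp
    · unfold bn dn
      rw [h₂ _ h5]
      simp

lemma kk_int {K₁ K₂ : ℝ → ℂ} (h₁ : Integrable K₁) (h₂ : Integrable K₂) :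
    Integrable (fun y : ℝ × ℝ => K₁ y.1 * K₂ y.2) := by
  rw [Measure.volume_eq_prod]
  exact h₁.mul_prod h₂

lemma kG_int {K₁ K₂ : ℝ → ℂ} (h₁ : Integrable K₁) (h₂ : Integrable K₂) (L s x v : ℝ) (n b : ℕ) :
    Integrable (fun y : ℝ × ℝ => (K₁ y.1 * K₂ y.2) * Gy L s x v y n b) := by
  have h := (kk_int h₁ h₂).bdd_mul (f := fun y : ℝ × ℝ => Gy L s x v y n b)
    (c := Real.exp (-(s * (Real.log n + Real.log b))))
    (Gy_cont L s x v n b).aestronglyMeasurable (Eventually.of_forall fun y => Gy_norm L s x v y n b)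
  refine h.congr (Eventually.of_forall fun y => ?_)
  simp only
  ring

lemma cm_int (V₁ V₂ : ℝ → ℝ) (K₁ K₂ : ℝ → ℂ) (a₁ a₂ σ₁ σ₂ L s x v : ℝ) (hs₁ : σ₁ + a₁ / L = s)
    (hs₂ : σ₂ + a₂ / L = s)
    (hrep₁ : ∀ x : ℝ, ((V₁ x : ℝ) : ℂ) = ∫ y : ℝ, K₁ y * cexp (-(((a₁ : ℂ) + I * y) / L * x)))
    (hrep₂ : ∀ x : ℝ, ((V₂ x : ℝ) : ℂ) = ∫ y : ℝ, K₂ y * cexp (-(((a₂ : ℂ) + I * y) / L * x)))
    (hi₁ : Integrable K₁) (hi₂ : Integrable K₂) (N₁ N₂ : ℕ)
    (h₁ : ∀ n : ℕ, N₁ < n → V₁ (Real.log n) = 0)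
    (h₂ : ∀ n : ℕ, N₂ < n → V₂ (Real.log n) = 0) (m : ℕ) (hm : 1 ≤ m) :
    cv (Finset.Icc 1 N₁) (Finset.Icc 1 N₂) (dn V₁ σ₁ (x + v)) (bn V₂ σ₂ x) m =
      ∫ y : ℝ × ℝ, (K₁ y.1 * K₂ y.2) * ey L s x v y m := by
  rw [cv_div V₁ V₂ σ₁ σ₂ (x + v) x N₁ N₂ h₁ h₂ m hm]
  unfold ey
  simp only [Finset.mul_sum]
  rw [integral_finsetSum _ fun z _ => kG_int hi₁ hi₂ L s x v z.1 z.2]
  exact Finset.sum_congr rfl fun z _ => pair_int V₁ V₂ K₁ K₂ a₁ a₂ σ₁ σ₂ L s x v hs₁ hs₂ hrep₁ hrep₂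
    z.1 z.2

lemma ke_int {K₁ K₂ : ℝ → ℂ} (h₁ : Integrable K₁) (h₂ : Integrable K₂) (L s x v : ℝ) (m : ℕ) :
    Integrable (fun y : ℝ × ℝ => (K₁ y.1 * K₂ y.2) * ey L s x v y m) := by
  unfold ey
  simp only [Finset.mul_sum]
  exact integrable_finsetSum _ fun z _ => kG_int h₁ h₂ L s x v z.1 z.2

/-- the coefficients of the product with `R` -/
lemma Ak_int {K₁ K₂ : ℝ → ℂ} (h₁ : Integrable K₁) (h₂ : Integrable K₂) (L s x v : ℝ)
    (P S : Finset ℕ) (c r : ℕ → ℂ)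
    (hc : ∀ m ∈ P, c m = ∫ y : ℝ × ℝ, (K₁ y.1 * K₂ y.2) * ey L s x v y m) (k : ℕ) :
    cv P S c r k = ∫ y : ℝ × ℝ, (K₁ y.1 * K₂ y.2) * cv P S (ey L s x v y) r k := by
  unfold cv
  simp only [Finset.mul_sum]
  rw [integral_finsetSum]
  · refine Finset.sum_congr rfl fun z hz => ?_
    rw [hc _ (Finset.mem_product.1 (Finset.mem_filter.1 hz).1).1, ← integral_mul_const]
    congr 1
    funext y
    ring
  · intro z _
    have h := (ke_int h₁ h₂ L s x v z.1).mul_const (r z.2)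
    refine h.congr (Eventually.of_forall fun y => ?_)
    simp only
    ring

/-- Cauchy-Schwarz -/
lemma cs_int {α : Type*} [MeasurableSpace α] (μ : Measure α) (k g : α → ℝ)
    (hk : Integrable k μ) (hk0 : ∀ y, 0 ≤ k y) (hg : Integrable (fun y => k y * g y) μ)
    (hg2 : Integrable (fun y => k y * g y ^ 2) μ) :
    (∫ y, k y * g y ∂μ) ^ 2 ≤ (∫ y, k y ∂μ) * ∫ y, k y * g y ^ 2 ∂μ := by
  have h := discrim_le_zero (a := ∫ y, k y ∂μ) (b := -(2 * ∫ y, k y * g y ∂μ))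
    (c := ∫ y, k y * g y ^ 2 ∂μ) (fun t => by
      have h1 : (∫ y, k y ∂μ) * (t * t) + -(2 * ∫ y, k y * g y ∂μ) * t + ∫ y, k y * g y ^ 2 ∂μ =
          ∫ y, k y * (g y - t) ^ 2 ∂μ := by
        have h2 : (fun y => k y * (g y - t) ^ 2) =
            fun y => k y * g y ^ 2 - (2 * t) * (k y * g y) + t ^ 2 * k y := by
          funext y; ring
        have i1 : Integrable (fun y => k y * g y ^ 2 - (2 * t) * (k y * g y)) μ :=
          hg2.sub (hg.const_mul _)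
        have i2 : Integrable (fun y => t ^ 2 * k y) μ := hk.const_mul _
        rw [h2, integral_add i1 i2,
          integral_sub hg2 (hg.const_mul _), integral_const_mul, integral_const_mul]
        ring
      rw [h1]
      exact integral_nonneg fun y => mul_nonneg (hk0 y) (sq_nonneg _))
  unfold discrim at h
  nlinarith

/-! ### growth -/

lemma sqrt_add3 (a b c : ℝ) (ha : 0 ≤ a) (hb : 0 ≤ b) (hc : 0 ≤ c) :
    Real.sqrt (a + b + c) ≤ Real.sqrt a + Real.sqrt b + Real.sqrt c := by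
  rw [Real.sqrt_le_left (by positivity)]
  have h1 := Real.sq_sqrt ha
  have h2 := Real.sq_sqrt hb
  have h3 := Real.sq_sqrt hc
  have h4 := mul_nonneg (Real.sqrt_nonneg a) (Real.sqrt_nonneg b)
  have h5 := mul_nonneg (Real.sqrt_nonneg a) (Real.sqrt_nonneg c)
  have h6 := mul_nonneg (Real.sqrt_nonneg b) (Real.sqrt_nonneg c)
  nlinarith

lemma min_add3 (a b c : ℝ) (ha : 0 ≤ a) (hb : 0 ≤ b) (hc : 0 ≤ c) :
    min 1 (a + b + c) ≤ min 1 a + min 1 b + min 1 c := by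
  have h1 : 0 ≤ min 1 a := le_min zero_le_one ha
  have h2 : 0 ≤ min 1 b := le_min zero_le_one hb
  have h3 : 0 ≤ min 1 c := le_min zero_le_one hc
  rcases le_total 1 a with h | h
  · rw [min_eq_left h]; linarith [min_le_left 1 (a + b + c)]
  rcases le_total 1 b with h' | h'
  · rw [min_eq_left h']; linarith [min_le_left 1 (a + b + c)]
  rcases le_total 1 c with h'' | h''
  · rw [min_eq_left h'']; linarith [min_le_left 1 (a + b + c)]
  rw [min_eq_right h, min_eq_right h', min_eq_right h'']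
  exact min_le_right _ _

lemma growth (C0 c ε L δ v y₁ y₂ : ℝ) (q : ℕ) (hC : 0 < C0) (hL : 1 ≤ L) (hδ : 0 ≤ δ)
    (h1 : C0 * Real.sqrt δ ≤ ε) (h2 : C0 * Real.sqrt δ ≤ c) :
    grow L 0 q (v + (y₁ - y₂) / L) *
      Real.exp (C0 * Real.sqrt (δ * L * min 1 |v + (y₁ - y₂) / L|)) ≤
    grow L ε q v * (((1 + |y₁|) ^ q * Real.exp (c * Real.sqrt (min |y₁| L))) *
      ((1 + |y₂|) ^ q * Real.exp (c * Real.sqrt (min |y₂| L)))) := by
  have hL0 : 0 < L := by linarith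
  have hu : |v + (y₁ - y₂) / L| ≤ |v| + |y₁| / L + |y₂| / L := by
    have e : v + (y₁ - y₂) / L = v + y₁ / L + -(y₂ / L) := by ring
    rw [e]
    refine (abs_add_le _ _).trans ?_
    rw [abs_neg, abs_div, abs_of_pos hL0]
    refine add_le_add ((abs_add_le _ _).trans ?_) le_rfl
    rw [abs_div, abs_of_pos hL0]
  have hv0 := abs_nonneg v
  have hy1 := abs_nonneg y₁
  have hy2 := abs_nonneg y₂
  have g1 : 1 + L * |v + (y₁ - y₂) / L| ≤ (1 + L * |v|) * (1 + |y₁|) * (1 + |y₂|) := by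
    have h3 : L * |v + (y₁ - y₂) / L| ≤ L * |v| + |y₁| + |y₂| := by
      refine (mul_le_mul_of_nonneg_left hu hL0.le).trans (le_of_eq ?_)
      field_simp
    have h4 : 0 ≤ L * |v| := by positivity
    have h5 : 0 ≤ L * |v| * |y₁| := by positivity
    have h6 : 0 ≤ L * |v| * |y₂| := by positivity
    have h7 : 0 ≤ |y₁| * |y₂| := by positivity
    have h8 : 0 ≤ L * |v| * |y₁| * |y₂| := by positivity
    nlinarith
  have g2 : C0 * Real.sqrt (δ * L * min 1 |v + (y₁ - y₂) / L|) ≤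
      ε * Real.sqrt (L * min 1 |v|) + c * Real.sqrt (min |y₁| L) + c * Real.sqrt (min |y₂| L) := by
    have h3 : L * min 1 |v + (y₁ - y₂) / L| ≤ L * min 1 |v| + min |y₁| L + min |y₂| L := by
      have h4 : min 1 |v + (y₁ - y₂) / L| ≤ min 1 |v| + min 1 (|y₁| / L) + min 1 (|y₂| / L) :=
        (min_le_min le_rfl hu).trans (min_add3 _ _ _ hv0 (by positivity) (by positivity))
      have h5 : ∀ y : ℝ, L * min 1 (y / L) = min y L := by
        intro y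
        rw [mul_min_of_nonneg _ _ hL0.le, mul_one, mul_div_cancel₀ _ hL0.ne', min_comm]
      have h6 := mul_le_mul_of_nonneg_left h4 hL0.le
      rw [mul_add, mul_add, h5, h5] at h6
      exact h6
    have m0 : 0 ≤ L * min 1 |v| := mul_nonneg hL0.le (le_min zero_le_one hv0)
    have m1 : 0 ≤ min |y₁| L := le_min hy1 hL0.le
    have m2 : 0 ≤ min |y₂| L := le_min hy2 hL0.le
    have h4 : Real.sqrt (L * min 1 |v + (y₁ - y₂) / L|) ≤ Real.sqrt (L * min 1 |v|) +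
        Real.sqrt (min |y₁| L) + Real.sqrt (min |y₂| L) :=
      (Real.sqrt_le_sqrt h3).trans (sqrt_add3 _ _ _ m0 m1 m2)
    rw [mul_assoc, Real.sqrt_mul hδ, ← mul_assoc]
    have h5 : 0 ≤ C0 * Real.sqrt δ := by positivity
    calc C0 * Real.sqrt δ * Real.sqrt (L * min 1 |v + (y₁ - y₂) / L|) ≤
        C0 * Real.sqrt δ * (Real.sqrt (L * min 1 |v|) +
        Real.sqrt (min |y₁| L) + Real.sqrt (min |y₂| L)) := mul_le_mul_of_nonneg_left h4 h5
      _ = C0 * Real.sqrt δ * Real.sqrt (L * min 1 |v|) + C0 * Real.sqrt δ *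
        Real.sqrt (min |y₁| L) + C0 * Real.sqrt δ * Real.sqrt (min |y₂| L) := by ring
      _ ≤ _ := add_le_add (add_le_add (mul_le_mul_of_nonneg_right h1 (Real.sqrt_nonneg _))
        (mul_le_mul_of_nonneg_right h2 (Real.sqrt_nonneg _)))
        (mul_le_mul_of_nonneg_right h2 (Real.sqrt_nonneg _))
  unfold grow
  rw [zero_mul, Real.exp_zero, mul_one]
  have g3 := pow_le_pow_left₀ (by positivity) g1 q
  have g4 := Real.exp_le_exp.2 g2
  refine (mul_le_mul g3 g4 (Real.exp_pos _).le (by positivity)).trans (le_of_eq ?_)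
  rw [Real.exp_add, Real.exp_add, mul_pow, mul_pow]
  ring

lemma cv_bdd (L s x v : ℝ) (P S : Finset ℕ) (r : ℕ → ℂ) (k : ℕ) :
    ∃ B : ℝ, 0 ≤ B ∧ ∀ y : ℝ × ℝ, ‖cv P S (ey L s x v y) r k‖ ≤ B := by
  refine ⟨∑ z ∈ (P ×ˢ S).filter (fun z => z.1 * z.2 = k),
    (∑ w ∈ z.1.divisorsAntidiagonal, Real.exp (-(s * (Real.log w.1 + Real.log w.2)))) * ‖r z.2‖,
    Finset.sum_nonneg fun z _ => mul_nonneg (Finset.sum_nonneg fun w _ => (Real.exp_pos _).le)
      (norm_nonneg _), fun y => ?_⟩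
  unfold cv
  refine (norm_sum_le _ _).trans (Finset.sum_le_sum fun z _ => ?_)
  rw [norm_mul]
  refine mul_le_mul_of_nonneg_right ?_ (norm_nonneg _)
  unfold ey
  exact (norm_sum_le _ _).trans (Finset.sum_le_sum fun w _ => Gy_norm L s x v y w.1 w.2)

lemma cv_cont (L s x v : ℝ) (P S : Finset ℕ) (r : ℕ → ℂ) (k : ℕ) :
    Continuous (fun y : ℝ × ℝ => cv P S (ey L s x v y) r k) := by
  unfold cv
  exact continuous_finsetSum _ fun z _ => (ey_cont L s x v z.1).mul_const _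

/-- Minkowski's inequality for the coefficients -/
lemma w1_le {K₁ K₂ : ℝ → ℂ} (h₁ : Integrable K₁) (h₂ : Integrable K₂) (L s x v : ℝ)
    (P S Q : Finset ℕ) (c r : ℕ → ℂ)
    (hc : ∀ m ∈ P, c m = ∫ y : ℝ × ℝ, (K₁ y.1 * K₂ y.2) * ey L s x v y m)
    (bd : ℝ × ℝ → ℝ) (hbd : Integrable bd)
    (hb : ∀ y : ℝ × ℝ, ‖K₁ y.1‖ * ‖K₂ y.2‖ * ∑ k ∈ Q, ‖cv P S (ey L s x v y) r k‖ ^ 2 ≤ bd y) :
    w1 Q (cv P S c r) ≤ ((∫ y, ‖K₁ y‖) * ∫ y, ‖K₂ y‖) * ∫ y, bd y := by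
  have hkn : Integrable (fun y : ℝ × ℝ => ‖K₁ y.1‖ * ‖K₂ y.2‖) := by
    rw [Measure.volume_eq_prod]
    exact h₁.norm.mul_prod h₂.norm
  have hmass : ∫ y : ℝ × ℝ, ‖K₁ y.1‖ * ‖K₂ y.2‖ = (∫ y, ‖K₁ y‖) * ∫ y, ‖K₂ y‖ := by
    rw [Measure.volume_eq_prod]
    exact integral_prod_mul (fun y => ‖K₁ y‖) (fun y => ‖K₂ y‖)
  have hk2 : ∀ k, Integrable (fun y : ℝ × ℝ =>
      ‖K₁ y.1‖ * ‖K₂ y.2‖ * ‖cv P S (ey L s x v y) r k‖ ^ 2) := by
    intro k
    obtain ⟨B, hB0, hB⟩ := cv_bdd L s x v P S r k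
    have h := hkn.bdd_mul (f := fun y : ℝ × ℝ => ‖cv P S (ey L s x v y) r k‖ ^ 2) (c := B ^ 2)
      (((cv_cont L s x v P S r k).norm.pow 2).aestronglyMeasurable)
      (Eventually.of_forall fun y => by
        rw [Real.norm_of_nonneg (by positivity)]
        exact pow_le_pow_left₀ (norm_nonneg _) (hB y) 2)
    refine h.congr (Eventually.of_forall fun y => ?_)
    simp only
    ring
  have hk1 : ∀ k, Integrable (fun y : ℝ × ℝ =>
      ‖K₁ y.1‖ * ‖K₂ y.2‖ * ‖cv P S (ey L s x v y) r k‖) := by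
    intro k
    obtain ⟨B, hB0, hB⟩ := cv_bdd L s x v P S r k
    have h := hkn.bdd_mul (f := fun y : ℝ × ℝ => ‖cv P S (ey L s x v y) r k‖) (c := B)
      ((cv_cont L s x v P S r k).norm.aestronglyMeasurable)
      (Eventually.of_forall fun y => by
        rw [Real.norm_of_nonneg (by positivity)]
        exact hB y)
    refine h.congr (Eventually.of_forall fun y => ?_)
    simp only
    ring
  have h1 : ∀ k ∈ Q, ‖cv P S c r k‖ ^ 2 ≤ ((∫ y, ‖K₁ y‖) * ∫ y, ‖K₂ y‖) *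
      ∫ y : ℝ × ℝ, ‖K₁ y.1‖ * ‖K₂ y.2‖ * ‖cv P S (ey L s x v y) r k‖ ^ 2 := by
    intro k _
    have h2 : ‖cv P S c r k‖ ≤ ∫ y : ℝ × ℝ, ‖K₁ y.1‖ * ‖K₂ y.2‖ *
        ‖cv P S (ey L s x v y) r k‖ := by
      rw [Ak_int h₁ h₂ L s x v P S c r hc k]
      refine (norm_integral_le_integral_norm _).trans (le_of_eq ?_)
      congr 1
      funext y
      rw [norm_mul, norm_mul]
    refine (pow_le_pow_left₀ (norm_nonneg _) h2 2).trans ?_
    rw [← hmass]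
    exact cs_int volume _ _ hkn (fun y => by positivity) (hk1 k) (hk2 k)
  unfold w1
  refine (Finset.sum_le_sum h1).trans ?_
  rw [← Finset.mul_sum]
  refine mul_le_mul_of_nonneg_left ?_ (by positivity)
  rw [← integral_finsetSum _ fun k _ => hk2 k]
  refine integral_mono (integrable_finsetSum _ fun k _ => hk2 k) hbd fun y => ?_
  simp only
  rw [← Finset.mul_sum]
  exact hb y

lemma K_bound {L c C : ℝ} {q : ℕ} (hC : 0 < C) (K : ℝ → ℂ) (y : ℝ)
    (h : ‖K y‖ ≤ C * ((1 + |y|) ^ (q + 4))⁻¹ * Real.exp (-(c * Real.sqrt (min |y| L)))) :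
    ‖K y‖ * ((1 + |y|) ^ q * Real.exp (c * Real.sqrt (min |y| L))) ≤ C * (1 + y ^ 2)⁻¹ := by
  have hy := abs_nonneg y
  have h1 : 0 < 1 + |y| := by linarith
  have h2 := mul_le_mul_of_nonneg_right h
    (show 0 ≤ (1 + |y|) ^ q * Real.exp (c * Real.sqrt (min |y| L)) by positivity)
  refine h2.trans ?_
  have e1 : C * ((1 + |y|) ^ (q + 4))⁻¹ * Real.exp (-(c * Real.sqrt (min |y| L))) *
      ((1 + |y|) ^ q * Real.exp (c * Real.sqrt (min |y| L))) =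
      C * (((1 + |y|) ^ (q + 4))⁻¹ * (1 + |y|) ^ q) *
        (Real.exp (-(c * Real.sqrt (min |y| L))) * Real.exp (c * Real.sqrt (min |y| L))) := by ring
  rw [e1, ← Real.exp_add, neg_add_cancel, Real.exp_zero, mul_one, pow_add, mul_inv, mul_right_comm,
    inv_mul_cancel₀ (by positivity), one_mul]
  refine mul_le_mul_of_nonneg_left ?_ hC.le
  apply inv_anti₀ (by positivity)
  have h3 : y ^ 2 = |y| ^ 2 := (sq_abs y).symm
  rw [h3]
  have h4 : 0 ≤ |y| ^ 3 := by positivity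
  have h5 : 0 ≤ |y| ^ 4 := by positivity
  nlinarith [sq_nonneg |y|]

lemma K_int {L c C : ℝ} {q : ℕ} (hC : 0 < C) (hc : 0 < c) (K : ℝ → ℂ) (hcont : Continuous K)
    (h : ∀ y, ‖K y‖ ≤ C * ((1 + |y|) ^ (q + 4))⁻¹ * Real.exp (-(c * Real.sqrt (min |y| L)))) :
    Integrable K ∧ ∫ y, ‖K y‖ ≤ C * Real.pi := by
  have h1 : ∀ y, ‖K y‖ ≤ C * (1 + y ^ 2)⁻¹ := by
    intro y
    have h2 := K_bound hC K y (h y)
    refine le_trans ?_ h2
    have h3 : 1 ≤ (1 + |y|) ^ q * Real.exp (c * Real.sqrt (min |y| L)) := by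
      have h4 : 1 ≤ (1 + |y|) ^ q := one_le_pow₀ (by linarith [abs_nonneg y])
      have h5 : 1 ≤ Real.exp (c * Real.sqrt (min |y| L)) := Real.one_le_exp (by positivity)
      nlinarith
    exact le_mul_of_one_le_right (norm_nonneg _) h3
  have h2 : Integrable (fun y : ℝ => C * (1 + y ^ 2)⁻¹) := integrable_inv_one_add_sq.const_mul C
  have h3 : Integrable K := h2.mono' hcont.aestronglyMeasurable (Eventually.of_forall h1)
  refine ⟨h3, ?_⟩
  refine (integral_mono h3.norm h2 h1).trans (le_of_eq ?_)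
  rw [integral_const_mul, integral_univ_inv_one_add_sq]

/-- the eventual inequality -/
lemma ev_T (γ η : ℝ) (hη : 0 < η) : ∃ T1 : ℝ, ∀ T : ℝ, T1 ≤ T →
    T ^ γ * Real.exp (-(T ^ η / 8)) ≤ 1 := by
  have h1 := tendsto_rpow_mul_exp_neg_mul_atTop_nhds_zero (γ / η) (1 / 8) (by norm_num)
  have h2 := h1.comp (tendsto_rpow_atTop hη)
  have h3 := (h2.eventually_lt_const (show (0 : ℝ) < 1 by norm_num)).and (eventually_gt_atTop 0)
  obtain ⟨T1, hT1⟩ := h3.exists_forall_of_atTop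
  refine ⟨T1, fun T hT => ?_⟩
  obtain ⟨h4, h5⟩ := hT1 T hT
  simp only [Function.comp] at h4
  rw [← Real.rpow_mul h5.le, mul_div_cancel₀ _ hη.ne'] at h4
  have e : -(T ^ η / 8) = -(1 / 8) * T ^ η := by ring
  rw [e]
  exact h4.le

end Msd

open Msd TC Pool.Agent.N802.U in
open Pool.Agent.R399.TW (pt) in
/-- **MSD** -/
theorem msd (hop : S_op) : S_msd := by
  obtain ⟨C0, q, hC0, hop⟩ := hop
  refine ⟨q, fun α₁ α₂ β₁ β₂ κ c C ε hα₁ hα₂ hβ₁ hβ₂ hαβ hκ hc hC hε => ?_⟩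
  obtain ⟨δ, hδd⟩ : ∃ δ : ℝ, δ = min ((1 - α₂ - β₂) / 8) ((min ε c / C0) ^ 2) := ⟨_, rfl⟩
  have hm0 : 0 < min ε c := lt_min hε hc
  have hδ0 : 0 < δ := by
    rw [hδd]
    exact lt_min (by linarith) (by positivity)
  have hδ1 : δ ≤ (1 - α₂ - β₂) / 8 := by rw [hδd]; exact min_le_left _ _
  have hδ2 : C0 * Real.sqrt δ ≤ min ε c := by
    have h1 : Real.sqrt δ ≤ min ε c / C0 := by
      rw [Real.sqrt_le_left (by positivity), hδd]
      exact min_le_right _ _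
    rw [le_div_iff₀ hC0] at h1
    linarith
  obtain ⟨γ, hγ⟩ : ∃ γ : ℝ, γ = α₂ + β₂ + δ := ⟨_, rfl⟩
  obtain ⟨T1, hT1⟩ := ev_T γ (2 * (1 - δ - γ)) (by rw [hγ]; linarith)
  refine ⟨2 * C0 * (C * Real.pi) ^ 4, δ, max 10 T1, by positivity, hδ0, le_max_left _ _, ?_⟩
  intro T hT V₁ V₂ K₁ K₂ hV₁ hV₂ S hS r τ H hH k₁ k₂ hk₁ hk₂ x v
  have hT10 : 10 ≤ T := (le_max_left _ _).trans hT
  have hT0 : 0 < T := by linarith
  have hTe := hT1 T ((le_max_right _ _).trans hT)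
  obtain ⟨L, hL⟩ : ∃ L : ℝ, L = Real.log T := ⟨_, rfl⟩
  rw [← hL] at hV₁ hV₂ ⊢
  have hL1 : 1 ≤ L := by
    rw [hL, Real.le_log_iff_exp_le hT0]
    have := Real.exp_one_lt_d9
    linarith
  have hL0 : 0 < L := by linarith
  obtain ⟨kk, hkk⟩ : ∃ kk : ℝ, kk = max (max k₁ k₂) 0 + 1 := ⟨_, rfl⟩
  have b1 : k₁ ≤ max (max k₁ k₂) 0 := (le_max_left _ _).trans (le_max_left _ _)
  have b2 : k₂ ≤ max (max k₁ k₂) 0 := (le_max_right _ _).trans (le_max_left _ _)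
  have b3 : 0 ≤ max (max k₁ k₂) 0 := le_max_right _ _
  have b4 : max (max k₁ k₂) 0 ≤ κ := by
    refine max_le (max_le ?_ ?_) (by linarith)
    · exact (le_abs_self _).trans hk₁
    · exact (le_abs_self _).trans hk₂
  have b5 := (abs_le.1 hk₁).1
  have b6 := (abs_le.1 hk₂).1
  have hkk1 : 1 ≤ kk := by rw [hkk]; linarith
  obtain ⟨a₁, ha₁⟩ : ∃ a₁ : ℝ, a₁ = kk - k₁ := ⟨_, rfl⟩
  obtain ⟨a₂, ha₂⟩ : ∃ a₂ : ℝ, a₂ = kk - k₂ := ⟨_, rfl⟩
  have c1 : 1 ≤ a₁ := by rw [ha₁, hkk]; linarith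
  have c2 : a₁ ≤ 2 * κ + 1 := by rw [ha₁, hkk]; linarith
  have c3 : 1 ≤ a₂ := by rw [ha₂, hkk]; linarith
  have c4 : a₂ ≤ 2 * κ + 1 := by rw [ha₂, hkk]; linarith
  obtain ⟨s, hs⟩ : ∃ s : ℝ, s = 1 / 2 + kk / L := ⟨_, rfl⟩
  have hs₁ : (1 / 2 + k₁ / L) + a₁ / L = s := by rw [hs, ha₁]; ring
  have hs₂ : (1 / 2 + k₂ / L) + a₂ / L = s := by rw [hs, ha₂]; ring
  obtain ⟨hi₁, hm₁⟩ := K_int hC hc (K₁ a₁) (hV₁.cont a₁ c1 c2) (hV₁.bd a₁ c1 c2)
  obtain ⟨hi₂, hm₂⟩ := K_int hC hc (K₂ a₂) (hV₂.cont a₂ c3 c4) (hV₂.bd a₂ c3 c4)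
  obtain ⟨N₁, hN₁⟩ : ∃ N₁ : ℕ, N₁ = ⌊T ^ α₂⌋₊ := ⟨_, rfl⟩
  obtain ⟨N₂, hN₂⟩ : ∃ N₂ : ℕ, N₂ = ⌊T ^ β₂⌋₊ := ⟨_, rfl⟩
  rw [← hN₁, ← hN₂]
  have z₁ : ∀ n : ℕ, N₁ < n → V₁ (Real.log n) = 0 := by
    intro n hn
    apply hV₁.zero
    rw [hN₁] at hn
    have h1 := Nat.lt_of_floor_lt hn
    rw [hL, ← Real.log_rpow hT0]
    exact Real.log_le_log (by positivity) h1.le
  have z₂ : ∀ n : ℕ, N₂ < n → V₂ (Real.log n) = 0 := by
    intro n hn
    apply hV₂.zero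
    rw [hN₂] at hn
    have h1 := Nat.lt_of_floor_lt hn
    rw [hL, ← Real.log_rpow hT0]
    exact Real.log_le_log (by positivity) h1.le
  obtain ⟨P, hP⟩ : ∃ P : Finset ℕ, P = (Finset.Icc 1 N₁ ×ˢ Finset.Icc 1 N₂).image
    (fun z => z.1 * z.2) := ⟨_, rfl⟩
  obtain ⟨Q, hQ⟩ : ∃ Q : Finset ℕ, Q = (P ×ˢ S).image (fun z => z.1 * z.2) := ⟨_, rfl⟩
  have hP1 : ∀ m ∈ P, 1 ≤ m ∧ (m : ℝ) ≤ T ^ (α₂ + β₂) := by
    intro m hm
    rw [hP, Finset.mem_image] at hm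
    obtain ⟨z, hz, rfl⟩ := hm
    rw [Finset.mem_product, Finset.mem_Icc, Finset.mem_Icc] at hz
    refine ⟨Nat.mul_pos (by omega) (by omega), ?_⟩
    rw [Real.rpow_add hT0]
    push_cast
    have h1 : (z.1 : ℝ) ≤ T ^ α₂ := by
      have h2 : (z.1 : ℝ) ≤ (N₁ : ℝ) := by exact_mod_cast hz.1.2
      rw [hN₁] at h2
      exact h2.trans (Nat.floor_le (by positivity))
    have h3 : (z.2 : ℝ) ≤ T ^ β₂ := by
      have h2 : (z.2 : ℝ) ≤ (N₂ : ℝ) := by exact_mod_cast hz.2.2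
      rw [hN₂] at h2
      exact h2.trans (Nat.floor_le (by positivity))
    exact mul_le_mul h1 h3 (by positivity) (by positivity)
  have hQ1 : ∀ m ∈ Q, 1 ≤ m ∧ (m : ℝ) ≤ T ^ γ := by
    intro m hm
    rw [hQ, Finset.mem_image] at hm
    obtain ⟨z, hz, rfl⟩ := hm
    rw [Finset.mem_product] at hz
    have h1 := hP1 _ hz.1
    have h2 := hS _ hz.2
    refine ⟨Nat.mul_pos (by omega) (by omega), ?_⟩
    rw [hγ, Real.rpow_add hT0]
    push_cast
    exact mul_le_mul h1.2 h2.2 (by positivity) (by positivity)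
  obtain ⟨cc, hcc⟩ : ∃ cc : ℕ → ℂ, cc = cv (Finset.Icc 1 N₁) (Finset.Icc 1 N₂)
    (dn V₁ (1 / 2 + k₁ / L) (x + v)) (bn V₂ (1 / 2 + k₂ / L) x) := ⟨_, rfl⟩
  -- the integrand
  have hint : ∀ t : ℝ, rh τ H S r t *
      (‖Dp V₁ N₁ (pt (1 / 2 + k₁ / L) (t + x + v))‖ ^ 2 *
        ‖Mp V₂ N₂ (pt (1 / 2 + k₂ / L) (t + x))‖ ^ 2) =
      om τ H t * ‖RP Q (cv P S cc r) t‖ ^ 2 := by
    intro t
    have e1 : t + x + v = t + (x + v) := by ring
    rw [e1, Dp_eq, Mp_eq]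
    have e2 := RP_mul (Finset.Icc 1 N₁) (Finset.Icc 1 N₂) (dn V₁ (1 / 2 + k₁ / L) (x + v))
      (bn V₂ (1 / 2 + k₂ / L) x) (fun k hk => (Finset.mem_Icc.1 hk).1)
      (fun k hk => (Finset.mem_Icc.1 hk).1) P (fun m hm n hn => by
        rw [hP, Finset.mem_image]
        exact ⟨(m, n), Finset.mem_product.2 ⟨hm, hn⟩, rfl⟩) t
    have e3 := RP_mul P S cc r (fun k hk => (hP1 k hk).1) (fun k hk => (hS k hk).1) Q
      (fun m hm n hn => by
        rw [hQ, Finset.mem_image]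
        exact ⟨(m, n), Finset.mem_product.2 ⟨hm, hn⟩, rfl⟩) t
    rw [← hcc] at e2
    rw [← e3, ← e2, norm_mul, norm_mul]
    unfold rh
    ring
  simp only [hint]
  -- the mean value
  have hH0 : 0 < H := lt_of_lt_of_le (by positivity) hH
  have hγ1 : 1 ≤ T ^ γ := Real.one_le_rpow (by linarith) (by rw [hγ]; linarith)
  have hms := ms Q (cv P S cc r) τ H (T ^ γ) hH0 hγ1 hQ1 (by
    refine le_trans ?_ hTe
    refine mul_le_mul_of_nonneg_left (Real.exp_le_exp.2 ?_) (by positivity)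
    have h1 : (T ^ (1 - δ)) ^ 2 ≤ H ^ 2 := pow_le_pow_left₀ (by positivity) hH 2
    have h2 : T ^ (2 * (1 - δ - γ)) / 8 = (T ^ (1 - δ)) ^ 2 / (8 * (T ^ γ) ^ 2) := by
      rw [← Real.rpow_natCast, ← Real.rpow_natCast, ← Real.rpow_mul hT0.le, ← Real.rpow_mul hT0.le]
      have e : 2 * (1 - δ - γ) = (1 - δ) * ((2 : ℕ) : ℝ) - γ * ((2 : ℕ) : ℝ) := by
        push_cast; ring
      rw [e, Real.rpow_sub hT0]
      field_simp
    rw [h2, neg_div]
    apply neg_le_neg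
    exact div_le_div_of_nonneg_right h1 (by positivity))
  refine hms.trans ?_
  -- the coefficients
  have hcm : ∀ m ∈ P, cc m = ∫ y : ℝ × ℝ, (K₁ a₁ y.1 * K₂ a₂ y.2) * ey L s x v y m := by
    intro m hm
    rw [hcc]
    exact cm_int V₁ V₂ (K₁ a₁) (K₂ a₂) a₁ a₂ _ _ L s x v hs₁ hs₂ (hV₁.rep a₁ c1 c2)
      (hV₂.rep a₂ c3 c4) hi₁ hi₂ N₁ N₂ z₁ z₂ m (hP1 m hm).1
  obtain ⟨bd, hbd⟩ : ∃ bd : ℝ × ℝ → ℝ, bd = fun y => (C0 * w1 S r * grow L ε q v) *
    ((C * (1 + y.1 ^ 2)⁻¹) * (C * (1 + y.2 ^ 2)⁻¹)) := ⟨_, rfl⟩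
  have hI2 : Integrable (fun y : ℝ => C * (1 + y ^ 2)⁻¹) := integrable_inv_one_add_sq.const_mul C
  have hbi : Integrable bd := by
    rw [hbd, Measure.volume_eq_prod]
    exact (hI2.mul_prod hI2).const_mul _
  have hbv : ∫ y, bd y = (C0 * w1 S r * grow L ε q v) * (C * Real.pi) ^ 2 := by
    rw [hbd, Measure.volume_eq_prod, integral_const_mul,
      integral_prod_mul (fun y => C * (1 + y ^ 2)⁻¹) (fun y => C * (1 + y ^ 2)⁻¹),
      integral_const_mul, integral_univ_inv_one_add_sq]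
    ring
  have hTδ : 1 ≤ T ^ δ := Real.one_le_rpow (by linarith) hδ0.le
  have hlogN : Real.log (T ^ δ) = δ * L := by rw [Real.log_rpow hT0, hL]
  have hw0 : 0 ≤ w1 S r := w1_nonneg S r
  have hpt : ∀ y : ℝ × ℝ, ‖K₁ a₁ y.1‖ * ‖K₂ a₂ y.2‖ *
      ∑ k ∈ Q, ‖cv P S (ey L s x v y) r k‖ ^ 2 ≤ bd y := by
    intro y
    have h1 := hop L (T ^ δ) kk (v + (y.1 - y.2) / L) hL1 hTδ hkk1 P (ey L s x v y)
      (fun m hm => ⟨(hP1 m hm).1, by rw [ey_norm L s x v y m (hP1 m hm).1, hs]⟩) S hS r Q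
    rw [hlogN] at h1
    have h2 := growth C0 c ε L δ v y.1 y.2 q hC0 hL1 hδ0.le (hδ2.trans (min_le_left _ _))
      (hδ2.trans (min_le_right _ _))
    have h3 : ∑ k ∈ Q, ‖cv P S (ey L s x v y) r k‖ ^ 2 ≤ C0 * w1 S r *
        (grow L ε q v * (((1 + |y.1|) ^ q * Real.exp (c * Real.sqrt (min |y.1| L))) *
          ((1 + |y.2|) ^ q * Real.exp (c * Real.sqrt (min |y.2| L))))) := by
      refine h1.trans (le_trans (le_of_eq ?_)
        (mul_le_mul_of_nonneg_left h2 (mul_nonneg hC0.le hw0)))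
      ring
    have g1 := K_bound hC (K₁ a₁) y.1 (hV₁.bd a₁ c1 c2 y.1)
    have g2 := K_bound hC (K₂ a₂) y.2 (hV₂.bd a₂ c3 c4 y.2)
    have hgr : 0 ≤ grow L ε q v := by
      unfold grow
      have := abs_nonneg v
      positivity
    have h4 := mul_le_mul_of_nonneg_left h3
      (show 0 ≤ ‖K₁ a₁ y.1‖ * ‖K₂ a₂ y.2‖ by positivity)
    refine h4.trans ?_
    have h5 : ‖K₁ a₁ y.1‖ * ‖K₂ a₂ y.2‖ * (C0 * w1 S r *
        (grow L ε q v * (((1 + |y.1|) ^ q * Real.exp (c * Real.sqrt (min |y.1| L))) *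
          ((1 + |y.2|) ^ q * Real.exp (c * Real.sqrt (min |y.2| L)))))) =
        (C0 * w1 S r * grow L ε q v) *
        ((‖K₁ a₁ y.1‖ * ((1 + |y.1|) ^ q * Real.exp (c * Real.sqrt (min |y.1| L)))) *
         (‖K₂ a₂ y.2‖ * ((1 + |y.2|) ^ q * Real.exp (c * Real.sqrt (min |y.2| L))))) := by ring
    rw [h5, hbd]
    refine mul_le_mul_of_nonneg_left ?_ (mul_nonneg (mul_nonneg hC0.le hw0) hgr)
    exact mul_le_mul g1 g2 (by positivity) (by positivity)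
  have hw := w1_le hi₁ hi₂ L s x v P S Q cc r hcm bd hbi hpt
  rw [hbv] at hw
  have hgr : 0 ≤ grow L ε q v := by
    unfold grow
    have := abs_nonneg v
    positivity
  have hmass : (∫ y, ‖K₁ a₁ y‖) * (∫ y, ‖K₂ a₂ y‖) ≤ (C * Real.pi) ^ 2 := by
    rw [sq]
    exact mul_le_mul hm₁ hm₂ (integral_nonneg fun _ => norm_nonneg _) (by positivity)
  have hw2 : w1 Q (cv P S cc r) ≤ (C * Real.pi) ^ 2 *
      ((C0 * w1 S r * grow L ε q v) * (C * Real.pi) ^ 2) := by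
    refine hw.trans (mul_le_mul_of_nonneg_right hmass ?_)
    exact mul_nonneg (mul_nonneg (mul_nonneg hC0.le hw0) hgr) (by positivity)
  have h9 : Real.sqrt (2 * Real.pi) * H * w1 Q (cv P S cc r) ≤ Real.sqrt (2 * Real.pi) * H *
      ((C * Real.pi) ^ 2 * ((C0 * w1 S r * grow L ε q v) * (C * Real.pi) ^ 2)) :=
    mul_le_mul_of_nonneg_left hw2 (by positivity)
  unfold mr
  refine (mul_le_mul_of_nonneg_left h9 (by norm_num)).trans (le_of_eq ?_)
  ring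

end Pool.Agent.N802.WD
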