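import Pool.Agent.N802.WD.Stm
import Pool.Agent.H448R2.GC.P
import Pool.Agent.N786.D.Euv

/-!
# The norm of the multiplication by a quotient of two shifted zeta functions (OP, helper364)

A Schur test: in `(∑_{m n = k} e(m) r(n))²` the Cauchy-Schwarz inequality is applied with the weights
`∏_{p ∣ m} b p`, `b p = K log p / Λ`, whose divisor sum is at most the completely multiplicative
function `G` with the values `1 + b p`.
-/

set_option autoImplicit false

open Complex Filter Topology Set MeasureTheory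
open scoped BigOperators ComplexConjugate

namespace Pool.Agent.N802.WD.Op

section Primes

/-- (F1) sums of `log p / p` -/
theorem f1 : ∃ C : ℝ, 0 < C ∧ ∀ y : ℝ, 0 ≤ y → ∀ T : Finset ℕ, (∀ p ∈ T, p.Prime) →
    ∑ p ∈ T.filter (fun p : ℕ => Real.log p ≤ y), Real.log p / (p : ℝ) ≤ C * y := by
  obtain ⟨C, hC0, hC⟩ := Pool.Agent.H448R2.GC.prime_log
  refine ⟨3 * C, by positivity, fun y hy T hT => ?_⟩
  have hl2 : (1 / 2 : ℝ) < Real.log 2 := by
    have := Real.log_two_gt_d9
    linarith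
  rcases lt_or_ge y (Real.log 2) with h | h
  · have : T.filter (fun p : ℕ => Real.log p ≤ y) = ∅ := by
      rw [Finset.filter_eq_empty_iff]
      intro p hp h1
      have h2 : Real.log 2 ≤ Real.log p :=
        Real.log_le_log (by norm_num) (by exact_mod_cast (hT p hp).two_le)
      linarith
    rw [this, Finset.sum_empty]
    positivity
  · have h1 := hC (Real.exp y) (Real.one_le_exp hy)
    rw [Real.log_exp] at h1
    have h2 : ∑ p ∈ T.filter (fun p : ℕ => Real.log p ≤ y), Real.log p / (p : ℝ) ≤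
        ∑ p ∈ (Finset.Icc 1 ⌊Real.exp y⌋₊).filter (fun p : ℕ => p.Prime),
          (Real.log p / (p : ℝ)) := by
      refine Finset.sum_le_sum_of_subset_of_nonneg ?_ fun p _ _ => ?_
      · intro p hp
        rw [Finset.mem_filter] at hp ⊢
        have hp1 := hT p hp.1
        have hp0 : (0 : ℝ) < p := by exact_mod_cast hp1.pos
        refine ⟨Finset.mem_Icc.2 ⟨hp1.one_le, Nat.le_floor ?_⟩, hp1⟩
        rw [← Real.exp_log hp0]
        exact Real.exp_le_exp.2 hp.2
      · have : 0 ≤ Real.log p := Real.log_natCast_nonneg p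
        positivity
    calc _ ≤ C * (1 + y) := h2.trans h1
      _ ≤ 3 * C * y := by nlinarith

/-- (F2) windows -/
theorem f2 : ∃ C : ℝ, 0 < C ∧ ∀ y : ℝ, 0 ≤ y → ∀ T : Finset ℕ, (∀ p ∈ T, p.Prime) →
    ∑ p ∈ T.filter (fun p : ℕ => y < Real.log p ∧ Real.log p ≤ 2 * y), 1 / (p : ℝ) ≤ C := by
  obtain ⟨C, hC0, hC⟩ := Pool.Agent.H448R2.GC.prime_window
  refine ⟨C, hC0, fun y hy T hT => ?_⟩
  refine le_trans (Finset.sum_le_sum_of_subset_of_nonneg ?_ fun p _ _ => by positivity)
    (hC (Real.exp y) (Real.one_le_exp hy))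
  intro p hp
  rw [Finset.mem_filter] at hp ⊢
  have hp1 := hT p hp.1
  have hp0 : (0 : ℝ) < p := by exact_mod_cast hp1.pos
  refine ⟨Finset.mem_Icc.2 ⟨hp1.one_le, Nat.le_floor ?_⟩, hp1, ?_⟩
  · rw [← Real.exp_log hp0, ← Real.exp_nat_mul]
    exact Real.exp_le_exp.2 (by push_cast; exact hp.2.2)
  · rw [← Real.exp_log hp0]
    exact Real.exp_lt_exp.2 hp.2.1

/-- many windows: sums of `1 / (p log p)` -/
theorem f3 : ∃ C : ℝ, 0 < C ∧ ∀ y : ℝ, 0 < y → ∀ T : Finset ℕ, (∀ p ∈ T, p.Prime) →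
    ∑ p ∈ T.filter (fun p : ℕ => y < Real.log p), 1 / ((p : ℝ) * Real.log p) ≤ C / y := by
  obtain ⟨C, hC0, hC⟩ := f2
  refine ⟨2 * C, by positivity, fun y hy T hT => ?_⟩
  have hstep : ∀ n : ℕ, ∑ p ∈ T.filter (fun p : ℕ => y < Real.log p ∧ Real.log p ≤ 2 ^ n * y),
      1 / ((p : ℝ) * Real.log p) ≤ C / y * (2 - 2 * (1 / 2) ^ n) := by
    intro n
    induction n with
    | zero =>
      have : T.filter (fun p : ℕ => y < Real.log p ∧ Real.log p ≤ 2 ^ 0 * y) = ∅ := by
        rw [Finset.filter_eq_empty_iff]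
        rintro p _ ⟨h1, h2⟩
        rw [pow_zero, one_mul] at h2
        linarith
      rw [this, Finset.sum_empty]
      norm_num
    | succ n ih =>
      have hy2 : 0 < 2 ^ n * y := by positivity
      have h1 : ∑ p ∈ T.filter (fun p : ℕ => y < Real.log p ∧ Real.log p ≤ 2 ^ (n + 1) * y),
          1 / ((p : ℝ) * Real.log p) ≤
          ∑ p ∈ T.filter (fun p : ℕ => y < Real.log p ∧ Real.log p ≤ 2 ^ n * y),
            1 / ((p : ℝ) * Real.log p) +
          ∑ p ∈ T.filter (fun p : ℕ => 2 ^ n * y < Real.log p ∧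
            Real.log p ≤ 2 * (2 ^ n * y)), 1 / ((p : ℝ) * Real.log p) := by
        have h2 : T.filter (fun p : ℕ => y < Real.log p ∧ Real.log p ≤ 2 ^ (n + 1) * y) ⊆
            T.filter (fun p : ℕ => y < Real.log p ∧ Real.log p ≤ 2 ^ n * y) ∪
            T.filter (fun p : ℕ => 2 ^ n * y < Real.log p ∧ Real.log p ≤ 2 * (2 ^ n * y)) := by
          intro p hp
          rw [Finset.mem_filter] at hp
          rw [Finset.mem_union, Finset.mem_filter, Finset.mem_filter]
          rcases le_or_gt (Real.log p) (2 ^ n * y) with h | h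
          · exact Or.inl ⟨hp.1, hp.2.1, h⟩
          · refine Or.inr ⟨hp.1, h, ?_⟩
            have := hp.2.2
            rw [pow_succ] at this
            linarith
        have hnn : ∀ p : ℕ, 0 ≤ 1 / ((p : ℝ) * Real.log p) := fun p => by
          have := Real.log_natCast_nonneg p
          positivity
        refine (Finset.sum_le_sum_of_subset_of_nonneg h2 fun p _ _ => hnn p).trans ?_
        refine le_trans (le_of_eq ?_) (le_of_eq rfl)
        refine Finset.sum_union ?_
        rw [Finset.disjoint_left]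
        intro p hp hq
        rw [Finset.mem_filter] at hp hq
        linarith [hp.2.2, hq.2.1]
      have h3 : ∑ p ∈ T.filter (fun p : ℕ => 2 ^ n * y < Real.log p ∧
            Real.log p ≤ 2 * (2 ^ n * y)), 1 / ((p : ℝ) * Real.log p) ≤ C / y * (1 / 2) ^ n := by
        calc _ ≤ ∑ p ∈ T.filter (fun p : ℕ => 2 ^ n * y < Real.log p ∧
              Real.log p ≤ 2 * (2 ^ n * y)), 1 / (p : ℝ) * (1 / (2 ^ n * y)) := by
              refine Finset.sum_le_sum fun p hp => ?_
              rw [Finset.mem_filter] at hp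
              have hp0 : (0 : ℝ) < p := by exact_mod_cast (hT p hp.1).pos
              rw [one_div_mul_one_div]
              exact one_div_le_one_div_of_le (by positivity)
                (mul_le_mul_of_nonneg_left hp.2.1.le hp0.le)
          _ ≤ C * (1 / (2 ^ n * y)) := by
              rw [← Finset.sum_mul]
              exact mul_le_mul_of_nonneg_right (hC _ hy2.le T hT) (by positivity)
          _ = C / y * (1 / 2) ^ n := by
              rw [one_div_pow]
              field_simp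
      calc _ ≤ C / y * (2 - 2 * (1 / 2) ^ n) + C / y * (1 / 2) ^ n := h1.trans (add_le_add ih h3)
        _ = C / y * (2 - 2 * (1 / 2) ^ (n + 1)) := by ring
  -- all the primes of `T` are in finitely many windows
  obtain ⟨B, hB⟩ : ∃ B : ℝ, ∀ p ∈ T, Real.log p ≤ B := by
    obtain ⟨B, hB⟩ := (T.image fun p : ℕ => Real.log p).bddAbove
    exact ⟨B, fun p hp => hB (Finset.mem_coe.2 (Finset.mem_image_of_mem _ hp))⟩
  obtain ⟨n, hn⟩ := pow_unbounded_of_one_lt (B / y) (one_lt_two)
  have h1 : T.filter (fun p : ℕ => y < Real.log p) =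
      T.filter (fun p : ℕ => y < Real.log p ∧ Real.log p ≤ 2 ^ n * y) := by
    refine Finset.filter_congr fun p hp => ⟨fun h => ⟨h, (hB p hp).trans ?_⟩, fun h => h.1⟩
    rw [div_lt_iff₀ hy] at hn
    exact hn.le
  rw [h1]
  refine (hstep n).trans ?_
  have h2 : 0 ≤ C / y := by positivity
  have h3 : (0 : ℝ) ≤ (1 / 2) ^ n := by positivity
  calc C / y * (2 - 2 * (1 / 2) ^ n) ≤ C / y * 2 := by
        refine mul_le_mul_of_nonneg_left ?_ h2
        linarith
    _ = 2 * C / y := by ring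

/-- many windows: sums of `1 / p` -/
theorem f4 : ∃ C : ℝ, 0 < C ∧ ∀ y : ℝ, 0 < y → ∀ T : Finset ℕ, (∀ p ∈ T, p.Prime) → ∀ n : ℕ,
    ∑ p ∈ T.filter (fun p : ℕ => y < Real.log p ∧ Real.log p ≤ 2 ^ n * y), 1 / (p : ℝ) ≤
      n * C := by
  obtain ⟨C, hC0, hC⟩ := f2
  refine ⟨C, hC0, fun y hy T hT n => ?_⟩
  induction n with
  | zero =>
    have : T.filter (fun p : ℕ => y < Real.log p ∧ Real.log p ≤ 2 ^ 0 * y) = ∅ := by
      rw [Finset.filter_eq_empty_iff]
      rintro p _ ⟨h1, h2⟩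
      rw [pow_zero, one_mul] at h2
      linarith
    rw [this, Finset.sum_empty]
    norm_num
  | succ n ih =>
    have hy2 : 0 < 2 ^ n * y := by positivity
    have h2 : T.filter (fun p : ℕ => y < Real.log p ∧ Real.log p ≤ 2 ^ (n + 1) * y) ⊆
        T.filter (fun p : ℕ => y < Real.log p ∧ Real.log p ≤ 2 ^ n * y) ∪
        T.filter (fun p : ℕ => 2 ^ n * y < Real.log p ∧ Real.log p ≤ 2 * (2 ^ n * y)) := by
      intro p hp
      rw [Finset.mem_filter] at hp
      rw [Finset.mem_union, Finset.mem_filter, Finset.mem_filter]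
      rcases le_or_gt (Real.log p) (2 ^ n * y) with h | h
      · exact Or.inl ⟨hp.1, hp.2.1, h⟩
      · refine Or.inr ⟨hp.1, h, ?_⟩
        have := hp.2.2
        rw [pow_succ] at this
        linarith
    have hnn : ∀ p : ℕ, 0 ≤ 1 / (p : ℝ) := fun p => by positivity
    refine (Finset.sum_le_sum_of_subset_of_nonneg h2 fun p _ _ => hnn p).trans ?_
    rw [Finset.sum_union (by
      rw [Finset.disjoint_left]
      intro p hp hq
      rw [Finset.mem_filter] at hp hq
      linarith [hp.2.2, hq.2.1])]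
    have h3 := hC _ hy2.le T hT
    push_cast
    linarith

/-- the factors -/
noncomputable def ga (u : ℝ) (p : ℕ) : ℝ := ‖1 - cexp (I * u * Real.log p)‖

theorem ga_nonneg (u : ℝ) (p : ℕ) : 0 ≤ ga u p := norm_nonneg _

theorem ga_le_two (u : ℝ) (p : ℕ) : ga u p ≤ 2 := by
  unfold ga
  have h1 : I * u * Real.log p = ((u * Real.log p : ℝ) : ℂ) * I := by push_cast; ring
  rw [h1]
  calc ‖1 - cexp (((u * Real.log p : ℝ) : ℂ) * I)‖ ≤ ‖(1 : ℂ)‖ + ‖cexp (((u * Real.log p : ℝ) : ℂ) * I)‖ :=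
        norm_sub_le _ _
    _ = 2 := by rw [norm_exp_ofReal_mul_I, norm_one]; norm_num

theorem ga_le (u : ℝ) (p : ℕ) : ga u p ≤ |u| * Real.log p := by
  unfold ga
  have h1 : I * u * Real.log p = I * ((u * Real.log p : ℝ) : ℂ) := by push_cast; ring
  rw [h1, norm_sub_rev]
  refine (Real.norm_exp_I_mul_ofReal_sub_one_le (x := u * Real.log p)).trans ?_
  rw [Real.norm_eq_abs, abs_mul, abs_of_nonneg (Real.log_natCast_nonneg p)]

theorem ga_sq_le_four (u : ℝ) (p : ℕ) : ga u p ^ 2 ≤ 4 := by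
  have h1 := ga_nonneg u p
  have h2 := ga_le_two u p
  nlinarith

theorem ga_sq_le (u : ℝ) (p : ℕ) : ga u p ^ 2 ≤ u ^ 2 * Real.log p ^ 2 := by
  have h1 := ga_nonneg u p
  have h2 := ga_le u p
  calc ga u p ^ 2 ≤ (|u| * Real.log p) ^ 2 := pow_le_pow_left₀ h1 h2 2
    _ = u ^ 2 * Real.log p ^ 2 := by rw [mul_pow, sq_abs]

theorem log_prime_gt {p : ℕ} (hp : p.Prime) : 1 / 2 < Real.log p := by
  have := Real.log_two_gt_d9
  have h2 : Real.log 2 ≤ Real.log p :=
    Real.log_le_log (by norm_num) (by exact_mod_cast hp.two_le)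
  linarith

/-- (i) -/
theorem s1 : ∃ C : ℝ, 0 < C ∧ ∀ u : ℝ, ∀ T : Finset ℕ, (∀ p ∈ T, p.Prime) →
    ∑ p ∈ T, ga u p ^ 2 / ((p : ℝ) * Real.log p) ≤ C * min 1 |u| := by
  obtain ⟨C1, hC10, hC1⟩ := f1
  obtain ⟨C3, hC30, hC3⟩ := f3
  refine ⟨C1 + 8 * C3, by positivity, fun u T hT => ?_⟩
  rcases le_or_gt 1 |u| with hu | hu
  · rw [min_eq_left hu, mul_one]
    have h1 := hC3 (1 / 2) (by norm_num) T hT
    have h2 : T.filter (fun p : ℕ => 1 / 2 < Real.log p) = T :=
      Finset.filter_true_of_mem fun p hp => log_prime_gt (hT p hp)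
    rw [h2] at h1
    have h3 : ∑ p ∈ T, ga u p ^ 2 / ((p : ℝ) * Real.log p) ≤
        4 * ∑ p ∈ T, 1 / ((p : ℝ) * Real.log p) := by
      rw [Finset.mul_sum]
      refine Finset.sum_le_sum fun p hp => ?_
      have h4 := log_prime_gt (hT p hp)
      rw [mul_one_div]
      exact div_le_div_of_nonneg_right (ga_sq_le_four u p) (by positivity)
    have : C3 / (1 / 2) = 2 * C3 := by ring
    rw [this] at h1
    linarith
  · rw [min_eq_right hu.le]
    rcases eq_or_ne u 0 with rfl | hu0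
    · have : ∀ p ∈ T, ga 0 p ^ 2 / ((p : ℝ) * Real.log p) = 0 := by
        intro p _
        have h1 := ga_nonneg 0 p
        have h2 := ga_le 0 p
        rw [abs_zero, zero_mul] at h2
        rw [le_antisymm h2 h1]
        simp
      rw [Finset.sum_eq_zero this, abs_zero, mul_zero]
    have hup : 0 < |u| := abs_pos.2 hu0
    set y : ℝ := 1 / |u| with hy
    have hy0 : 0 < y := by positivity
    have h1 := hC1 y hy0.le T hT
    have h2 := hC3 y hy0 T hT
    rw [← Finset.sum_filter_add_sum_filter_not T (fun p : ℕ => Real.log p ≤ y)]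
    have h3 : ∑ p ∈ T.filter (fun p : ℕ => Real.log p ≤ y), ga u p ^ 2 / ((p : ℝ) * Real.log p) ≤
        u ^ 2 * (C1 * y) := by
      refine le_trans ?_ (mul_le_mul_of_nonneg_left h1 (sq_nonneg u))
      rw [Finset.mul_sum]
      refine Finset.sum_le_sum fun p hp => ?_
      rw [Finset.mem_filter] at hp
      have h4 := log_prime_gt (hT p hp.1)
      have hp0 : (0 : ℝ) < p := by exact_mod_cast (hT p hp.1).pos
      rw [div_le_iff₀ (by positivity)]
      refine (ga_sq_le u p).trans (le_of_eq ?_)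
      field_simp
    have h4 : ∑ p ∈ T.filter (fun p : ℕ => ¬ Real.log p ≤ y), ga u p ^ 2 / ((p : ℝ) * Real.log p) ≤
        4 * (C3 / y) := by
      have e : T.filter (fun p : ℕ => ¬ Real.log p ≤ y) = T.filter (fun p : ℕ => y < Real.log p) :=
        Finset.filter_congr fun p _ => not_le
      rw [e]
      refine le_trans ?_ (mul_le_mul_of_nonneg_left h2 (by norm_num : (0 : ℝ) ≤ 4))
      rw [Finset.mul_sum]
      refine Finset.sum_le_sum fun p hp => ?_
      rw [Finset.mem_filter] at hp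
      have h4 := log_prime_gt (hT p hp.1)
      rw [mul_one_div]
      exact div_le_div_of_nonneg_right (ga_sq_le_four u p) (by positivity)
    have e1 : u ^ 2 * (C1 * y) = C1 * |u| := by
      rw [hy, ← sq_abs]
      field_simp
    have e2 : 4 * (C3 / y) = 4 * C3 * |u| := by
      rw [hy]
      field_simp
    rw [e1] at h3
    rw [e2] at h4
    nlinarith

end Primes
section Primes2

/-- (ii) -/
theorem s2 : ∃ C : ℝ, 0 < C ∧ ∀ L u : ℝ, 1 ≤ L → ∀ T : Finset ℕ, (∀ p ∈ T, p.Prime) →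
    ∑ p ∈ T, ga u p ^ 2 * (p : ℝ) ^ (-(1 + 2 / L)) ≤ C * (1 + Real.log (1 + L * |u|)) := by
  obtain ⟨C1, hC10, hC1⟩ := f1
  obtain ⟨C3, hC30, hC3⟩ := f3
  obtain ⟨C4, hC40, hC4⟩ := f4
  refine ⟨C1 + 2 * C3 + 8 * C4, by positivity, fun L u hL T hT => ?_⟩
  have hL0 : 0 < L := by linarith
  have hlog0 : 0 ≤ Real.log (1 + L * |u|) := Real.log_nonneg (by
    have : 0 ≤ L * |u| := by positivity
    linarith)
  rcases eq_or_ne u 0 with rfl | hu0
  · have : ∀ p ∈ T, ga 0 p ^ 2 * (p : ℝ) ^ (-(1 + 2 / L)) = 0 := by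
      intro p _
      have h1 := ga_nonneg 0 p
      have h2 := ga_le 0 p
      rw [abs_zero, zero_mul] at h2
      rw [le_antisymm h2 h1]
      simp
    rw [Finset.sum_eq_zero this]
    positivity
  have hup : 0 < |u| := abs_pos.2 hu0
  have hw : ∀ p : ℕ, p.Prime → (p : ℝ) ^ (-(1 + 2 / L)) = 1 / p * Real.exp (-(2 * Real.log p / L)) := by
    intro p hp
    have hp0 : (0 : ℝ) < p := by exact_mod_cast hp.pos
    rw [Real.rpow_def_of_pos hp0]
    have : Real.log p * (-(1 + 2 / L)) = -Real.log p + -(2 * Real.log p / L) := by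
      field_simp
      ring
    rw [this, Real.exp_add, Real.exp_neg, Real.exp_log hp0, one_div]
  have hw1 : ∀ p : ℕ, p.Prime → (p : ℝ) ^ (-(1 + 2 / L)) ≤ 1 / p := by
    intro p hp
    have hlp := log_prime_gt hp
    rw [hw p hp]
    refine mul_le_of_le_one_right (by positivity) ?_
    rw [Real.exp_le_one_iff]
    have : 0 ≤ 2 * Real.log p / L := by positivity
    linarith
  have hw2 : ∀ p : ℕ, p.Prime → (p : ℝ) ^ (-(1 + 2 / L)) ≤ L / 2 * (1 / (p * Real.log p)) := by
    intro p hp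
    have hlp := log_prime_gt hp
    have hp0 : (0 : ℝ) < p := by exact_mod_cast hp.pos
    rw [hw p hp]
    have h1 : Real.exp (-(2 * Real.log p / L)) ≤ L / (2 * Real.log p) := by
      have h2 : 0 < 2 * Real.log p / L := by positivity
      rw [Real.exp_neg, ← one_div, div_le_div_iff₀ (Real.exp_pos _) (by positivity)]
      have h3 := Real.add_one_le_exp (2 * Real.log p / L)
      have h4 : 2 * Real.log p / L ≤ Real.exp (2 * Real.log p / L) := by linarith
      rw [div_le_iff₀ hL0] at h4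
      linarith
    calc 1 / (p : ℝ) * Real.exp (-(2 * Real.log p / L)) ≤ 1 / (p : ℝ) * (L / (2 * Real.log p)) :=
          mul_le_mul_of_nonneg_left h1 (by positivity)
      _ = L / 2 * (1 / (p * Real.log p)) := by field_simp
  set y : ℝ := max (1 / |u|) (1 / 2) with hy
  have hy1 : 1 / |u| ≤ y := le_max_left _ _
  have hy0 : 0 < y := lt_of_lt_of_le (by positivity) hy1
  set n : ℕ := ⌈Real.log (1 + L * |u|) / Real.log 2⌉₊ with hn
  have hl2 := Real.log_two_gt_d9
  have hn1 : (n : ℝ) < 2 * Real.log (1 + L * |u|) + 1 := by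
    have h1 := Nat.ceil_lt_add_one (show 0 ≤ Real.log (1 + L * |u|) / Real.log 2 by positivity)
    have h2 : Real.log (1 + L * |u|) / Real.log 2 ≤ 2 * Real.log (1 + L * |u|) := by
      rw [div_le_iff₀ (by linarith)]
      nlinarith
    linarith
  have hn2 : L ≤ 2 ^ n * y := by
    have h1 : Real.log (1 + L * |u|) ≤ n * Real.log 2 := by
      have := Nat.le_ceil (Real.log (1 + L * |u|) / Real.log 2)
      rw [div_le_iff₀ (by linarith)] at this
      exact this
    have h2 : 1 + L * |u| ≤ 2 ^ n := by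
      rw [← Real.log_pow] at h1
      exact (Real.log_le_log_iff (by positivity) (by positivity)).1 h1
    have h3 : L * |u| * (1 / |u|) ≤ 2 ^ n * y :=
      mul_le_mul (by linarith) hy1 (by positivity) (by positivity)
    have h4 : L * |u| * (1 / |u|) = L := by field_simp
    linarith
  -- split
  rw [← Finset.sum_filter_add_sum_filter_not T (fun p : ℕ => Real.log p ≤ y)]
  have hA : ∑ p ∈ T.filter (fun p : ℕ => Real.log p ≤ y), ga u p ^ 2 * (p : ℝ) ^ (-(1 + 2 / L)) ≤
      C1 := by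
    rcases le_or_gt (1 / |u|) (1 / 2) with h | h
    · have hy2 : y = 1 / 2 := max_eq_right h
      have : T.filter (fun p : ℕ => Real.log p ≤ y) = ∅ := by
        rw [Finset.filter_eq_empty_iff]
        intro p hp h1
        have := log_prime_gt (hT p hp)
        linarith
      rw [this, Finset.sum_empty]
      exact hC10.le
    · have hy2 : y = 1 / |u| := max_eq_left h.le
      have h1 := hC1 y hy0.le T hT
      calc _ ≤ ∑ p ∈ T.filter (fun p : ℕ => Real.log p ≤ y), u ^ 2 * y * (Real.log p / p) := by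
            refine Finset.sum_le_sum fun p hp => ?_
            rw [Finset.mem_filter] at hp
            have hpp := hT p hp.1
            have hlp := log_prime_gt hpp
            have hp0 : (0 : ℝ) < p := by exact_mod_cast hpp.pos
            calc ga u p ^ 2 * (p : ℝ) ^ (-(1 + 2 / L)) ≤ (u ^ 2 * Real.log p ^ 2) * (1 / p) :=
                  mul_le_mul (ga_sq_le u p) (hw1 p hpp) (by positivity) (by positivity)
              _ ≤ (u ^ 2 * (y * Real.log p)) * (1 / p) := by
                  refine mul_le_mul_of_nonneg_right ?_ (by positivity)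
                  refine mul_le_mul_of_nonneg_left ?_ (sq_nonneg u)
                  rw [sq]
                  exact mul_le_mul_of_nonneg_right hp.2 (by linarith)
              _ = u ^ 2 * y * (Real.log p / p) := by ring
        _ = u ^ 2 * y * ∑ p ∈ T.filter (fun p : ℕ => Real.log p ≤ y), Real.log p / (p : ℝ) := by
            rw [Finset.mul_sum]
        _ ≤ u ^ 2 * y * (C1 * y) := mul_le_mul_of_nonneg_left h1 (by positivity)
        _ = C1 := by
            rw [hy2, ← sq_abs]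
            field_simp
  have hB : ∑ p ∈ T.filter (fun p : ℕ => ¬ Real.log p ≤ y), ga u p ^ 2 * (p : ℝ) ^ (-(1 + 2 / L)) ≤
      4 * (n * C4) + 2 * C3 := by
    have h1 := hC4 y hy0 T hT n
    have h2 := hC3 (2 ^ n * y) (by positivity) T hT
    rw [← Finset.sum_filter_add_sum_filter_not (T.filter (fun p : ℕ => ¬ Real.log p ≤ y))
      (fun p : ℕ => Real.log p ≤ 2 ^ n * y)]
    rw [Finset.filter_filter, Finset.filter_filter]
    refine add_le_add ?_ ?_
    · have e : T.filter (fun p : ℕ => ¬ Real.log p ≤ y ∧ Real.log p ≤ 2 ^ n * y) =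
          T.filter (fun p : ℕ => y < Real.log p ∧ Real.log p ≤ 2 ^ n * y) :=
        Finset.filter_congr fun p _ => by rw [not_le]
      rw [e]
      refine le_trans ?_ (mul_le_mul_of_nonneg_left h1 (by norm_num : (0 : ℝ) ≤ 4))
      rw [Finset.mul_sum]
      refine Finset.sum_le_sum fun p hp => ?_
      rw [Finset.mem_filter] at hp
      exact mul_le_mul (ga_sq_le_four u p) (hw1 p (hT p hp.1)) (by positivity) (by norm_num)
    · calc _ ≤ ∑ p ∈ T.filter (fun p : ℕ => 2 ^ n * y < Real.log p),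
            ga u p ^ 2 * (p : ℝ) ^ (-(1 + 2 / L)) := by
            refine Finset.sum_le_sum_of_subset_of_nonneg ?_ fun p _ _ => by positivity
            intro p hp
            rw [Finset.mem_filter] at hp ⊢
            exact ⟨hp.1, not_le.1 hp.2.2⟩
        _ ≤ ∑ p ∈ T.filter (fun p : ℕ => 2 ^ n * y < Real.log p),
            2 * L * (1 / ((p : ℝ) * Real.log p)) := by
            refine Finset.sum_le_sum fun p hp => ?_
            rw [Finset.mem_filter] at hp
            have hpp := hT p hp.1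
            have hlp := log_prime_gt hpp
            calc ga u p ^ 2 * (p : ℝ) ^ (-(1 + 2 / L)) ≤ 4 * (L / 2 * (1 / (p * Real.log p))) :=
                  mul_le_mul (ga_sq_le_four u p) (hw2 p hpp) (by positivity) (by norm_num)
              _ = 2 * L * (1 / ((p : ℝ) * Real.log p)) := by ring
        _ = 2 * L * ∑ p ∈ T.filter (fun p : ℕ => 2 ^ n * y < Real.log p),
            1 / ((p : ℝ) * Real.log p) := by rw [Finset.mul_sum]
        _ ≤ 2 * L * (C3 / (2 ^ n * y)) := mul_le_mul_of_nonneg_left h2 (by positivity)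
        _ ≤ 2 * L * (C3 / L) := by
            refine mul_le_mul_of_nonneg_left ?_ (by positivity)
            exact div_le_div_of_nonneg_left hC30.le hL0 hn2
        _ = 2 * C3 := by field_simp
  have h5 : 4 * (n * C4) ≤ 4 * ((2 * Real.log (1 + L * |u|) + 1) * C4) := by
    refine mul_le_mul_of_nonneg_left ?_ (by norm_num)
    exact mul_le_mul_of_nonneg_right hn1.le hC40.le
  nlinarith [mul_nonneg hC10.le hlog0, mul_nonneg hC30.le hlog0, mul_nonneg hC40.le hlog0]

end Primes2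

section Mult

variable {b : ℕ → ℝ}

/-- the completely multiplicative function with the values `1 + b p` -/
noncomputable def G (b : ℕ → ℝ) (n : ℕ) : ℝ := n.factorization.prod fun p k => (1 + b p) ^ k

theorem G_mul {m n : ℕ} (hm : m ≠ 0) (hn : n ≠ 0) : G b (m * n) = G b m * G b n := by
  unfold G
  rw [Nat.factorization_mul hm hn]
  exact Finsupp.prod_add_index' (fun a => pow_zero _) (fun a k l => pow_add _ _ _)

theorem G_one : G b 1 = 1 := by
  unfold G
  rw [Nat.factorization_one, Finsupp.prod_zero_index]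

theorem G_prime {p : ℕ} (hp : p.Prime) : G b p = 1 + b p := by
  unfold G
  rw [hp.factorization, Finsupp.prod_single_index (h := fun p k => (1 + b p) ^ k) (pow_zero _),
    pow_one]

theorem G_pos (hb : ∀ p, 0 ≤ b p) (n : ℕ) : 0 < G b n := by
  unfold G Finsupp.prod
  refine Finset.prod_pos fun p _ => ?_
  have := hb p
  positivity

theorem G_le {κ : ℝ} (hb : ∀ p, 0 ≤ b p) (hbk : ∀ p, p.Prime → b p ≤ κ * Real.log p) (n : ℕ) :
    n ≠ 0 → G b n ≤ Real.exp (κ * Real.log n) := by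
  induction n using induction_on_primes with
  | zero => intro h; exact absurd rfl h
  | one => intro _; rw [G_one, Nat.cast_one, Real.log_one, mul_zero, Real.exp_zero]
  | prime_mul p a hp ih =>
    intro h
    have ha : a ≠ 0 := fun h' => h (by rw [h', mul_zero])
    have hp0 : (p : ℝ) ≠ 0 := by exact_mod_cast hp.ne_zero
    have ha0 : (a : ℝ) ≠ 0 := by exact_mod_cast ha
    rw [G_mul hp.ne_zero ha, G_prime hp, Nat.cast_mul, Real.log_mul hp0 ha0, mul_add, Real.exp_add]
    refine mul_le_mul ?_ (ih ha) (G_pos hb a).le (Real.exp_pos _).le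
    have h1 := Real.add_one_le_exp (κ * Real.log p)
    linarith [hbk p hp]

open ArithmeticFunction in
/-- the divisor sum of `∏ b p` -/
theorem divisor_sum_le (hb : ∀ p, 0 ≤ b p) {n : ℕ} (hn : n ≠ 0) :
    ∑ d ∈ n.divisors, ∏ p ∈ d.primeFactors, b p ≤ G b n := by
  have h1 : ∑ d ∈ n.divisors, ∏ p ∈ d.primeFactors, b p =
      (prodPrimeFactors b * ((zeta : ArithmeticFunction ℕ) : ArithmeticFunction ℝ)) n := by
    rw [coe_mul_zeta_apply]
    refine Finset.sum_congr rfl fun d hd => ?_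
    rw [prodPrimeFactors_apply (Nat.pos_of_mem_divisors hd).ne']
  have hm : (prodPrimeFactors b * ((zeta : ArithmeticFunction ℕ) : ArithmeticFunction ℝ)).IsMultiplicative :=
    (IsMultiplicative.prodPrimeFactors b).mul isMultiplicative_zeta.natCast
  rw [h1, hm.multiplicative_factorization _ hn]
  unfold G Finsupp.prod
  refine Finset.prod_le_prod (fun p _ => ?_) fun p hp => ?_
  · dsimp only
    rw [coe_mul_zeta_apply]
    refine Finset.sum_nonneg fun d hd => ?_
    rw [prodPrimeFactors_apply (Nat.pos_of_mem_divisors hd).ne']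
    exact Finset.prod_nonneg fun q _ => hb q
  · have hpp : p.Prime := Nat.prime_of_mem_primeFactors (by simpa using hp)
    dsimp only
    rw [coe_mul_zeta_apply, Nat.sum_divisors_prime_pow hpp, Finset.sum_range_succ']
    have h2 : ∀ k ∈ Finset.range (n.factorization p), prodPrimeFactors b (p ^ (k + 1)) = b p := by
      intro k _
      rw [prodPrimeFactors_apply (pow_ne_zero _ hpp.ne_zero),
        Nat.primeFactors_prime_pow (Nat.succ_ne_zero k) hpp, Finset.prod_singleton]
    rw [Finset.sum_congr rfl h2, Finset.sum_const, Finset.card_range, pow_zero,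
      prodPrimeFactors_apply one_ne_zero, Nat.primeFactors_one, Finset.prod_empty, nsmul_eq_mul]
    have h3 := one_add_mul_le_pow (show (-2 : ℝ) ≤ b p by linarith [hb p]) (n.factorization p)
    linarith

end Mult
section Main

theorem log_le_aux {p : ℝ} (hp : 2 ≤ p) : (1 + Real.log p) / p ≤ 6 / 7 := by
  have hp0 : 0 < p := by linarith
  rw [div_le_iff₀ hp0]
  have h1 : Real.log p = Real.log 2 + Real.log (p / 2) := by
    rw [← Real.log_mul (by norm_num) (by positivity)]
    congr 1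
    ring
  have h2 := Real.log_le_sub_one_of_pos (show 0 < p / 2 by positivity)
  have h3 := Real.log_two_lt_d9
  linarith

theorem gc_split {u : ℝ} {b : ℕ → ℝ} (m : ℕ) :
    (∏ p ∈ m.primeFactors, ga u p) ^ 2 / ∏ p ∈ m.primeFactors, b p =
      ∏ p ∈ m.primeFactors, (ga u p ^ 2 / b p) := by
  rw [← Finset.prod_pow, Finset.prod_div_distrib]

/-- Cauchy-Schwarz on a fibre -/
theorem fibre {b : ℕ → ℝ} (hb0 : ∀ p, 0 ≤ b p) (hb : ∀ p, p.Prime → 0 < b p) (P S : Finset ℕ)
    (hP : ∀ m ∈ P, 1 ≤ m) (hS : ∀ n ∈ S, 1 ≤ n) (e r : ℕ → ℂ) (k : ℕ) :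
    ‖∑ z ∈ (P ×ˢ S).filter (fun z => z.1 * z.2 = k), e z.1 * r z.2‖ ^ 2 ≤
      ∑ z ∈ (P ×ˢ S).filter (fun z => z.1 * z.2 = k),
        (G b z.1 * (‖e z.1‖ ^ 2 / ∏ p ∈ z.1.primeFactors, b p)) * (G b z.2 * ‖r z.2‖ ^ 2) := by
  have hβ : ∀ m : ℕ, 0 < ∏ p ∈ m.primeFactors, b p := fun m =>
    Finset.prod_pos fun p hp => hb p (Nat.prime_of_mem_primeFactors hp)
  have hmem : ∀ z ∈ (P ×ˢ S).filter (fun z => z.1 * z.2 = k), 1 ≤ z.1 ∧ 1 ≤ z.2 ∧ z.1 * z.2 = k := by
    intro z hz
    rw [Finset.mem_filter, Finset.mem_product] at hz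
    exact ⟨hP _ hz.1.1, hS _ hz.1.2, hz.2⟩
  calc ‖∑ z ∈ (P ×ˢ S).filter (fun z => z.1 * z.2 = k), e z.1 * r z.2‖ ^ 2
      ≤ (∑ z ∈ (P ×ˢ S).filter (fun z => z.1 * z.2 = k), ‖e z.1‖ * ‖r z.2‖) ^ 2 := by
        refine pow_le_pow_left₀ (norm_nonneg _) ?_ 2
        refine (norm_sum_le _ _).trans (le_of_eq ?_)
        exact Finset.sum_congr rfl fun z _ => norm_mul _ _
    _ ≤ (∑ z ∈ (P ×ˢ S).filter (fun z => z.1 * z.2 = k), ∏ p ∈ z.1.primeFactors, b p) *
        ∑ z ∈ (P ×ˢ S).filter (fun z => z.1 * z.2 = k),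
          (‖e z.1‖ ^ 2 / ∏ p ∈ z.1.primeFactors, b p) * ‖r z.2‖ ^ 2 := by
        refine Finset.sum_sq_le_sum_mul_sum_of_sq_le_mul _ (fun z _ => (hβ _).le)
          (fun z _ => mul_nonneg (div_nonneg (sq_nonneg _) (hβ _).le) (sq_nonneg _))
          fun z _ => le_of_eq ?_
        have := (hβ z.1).ne'
        field_simp
    _ ≤ G b k * ∑ z ∈ (P ×ˢ S).filter (fun z => z.1 * z.2 = k),
          (‖e z.1‖ ^ 2 / ∏ p ∈ z.1.primeFactors, b p) * ‖r z.2‖ ^ 2 := by
        rcases ((P ×ˢ S).filter (fun z => z.1 * z.2 = k)).eq_empty_or_nonempty with h0 | ⟨z₀, hz₀⟩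
        · rw [h0, Finset.sum_empty, Finset.sum_empty, mul_zero, mul_zero]
        have hk : k ≠ 0 := by
          obtain ⟨h1, h2, h3⟩ := hmem z₀ hz₀
          rw [← h3]
          exact Nat.mul_ne_zero (by omega) (by omega)
        refine mul_le_mul_of_nonneg_right ?_ (Finset.sum_nonneg fun z _ =>
          mul_nonneg (div_nonneg (sq_nonneg _) (hβ _).le) (sq_nonneg _))
        refine le_trans ?_ (divisor_sum_le hb0 hk)
        have hinj : Set.InjOn Prod.fst
            (((P ×ˢ S).filter (fun z => z.1 * z.2 = k) : Finset (ℕ × ℕ)) : Set (ℕ × ℕ)) := by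
          intro z hz w hw h
          obtain ⟨h1, h2, h3⟩ := hmem z (Finset.mem_coe.1 hz)
          obtain ⟨h4, h5, h6⟩ := hmem w (Finset.mem_coe.1 hw)
          refine Prod.ext h ?_
          rw [← h6, h] at h3
          exact Nat.eq_of_mul_eq_mul_left (by omega) h3
        rw [← Finset.sum_image (f := fun m : ℕ => ∏ p ∈ m.primeFactors, b p) hinj]
        refine Finset.sum_le_sum_of_subset_of_nonneg ?_ fun m _ _ => (hβ m).le
        intro m hm
        obtain ⟨z, hz, rfl⟩ := Finset.mem_image.1 hm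
        exact Nat.mem_divisors.2 ⟨⟨z.2, (hmem z hz).2.2.symm⟩, hk⟩
    _ = _ := by
        rw [Finset.mul_sum]
        refine Finset.sum_congr rfl fun z hz => ?_
        obtain ⟨h1, h2, h3⟩ := hmem z hz
        rw [← h3, G_mul (by omega) (by omega)]
        ring

theorem key : ∃ (C : ℝ) (q : ℕ), 0 < C ∧ ∀ L N a u : ℝ, 1 ≤ L → 1 ≤ N → 1 ≤ a →
    ∀ (P : Finset ℕ) (e : ℕ → ℂ),
    (∀ m ∈ P, 1 ≤ m ∧ ‖e m‖ ≤ (m : ℝ) ^ (-(1 / 2 + a / L)) * ∏ p ∈ m.primeFactors, ga u p) →
    ∀ S : Finset ℕ, (∀ k ∈ S, 1 ≤ k ∧ (k : ℝ) ≤ N) → ∀ r : ℕ → ℂ, ∀ Q : Finset ℕ,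
    ∑ k ∈ Q, ‖∑ z ∈ (P ×ˢ S).filter (fun z => z.1 * z.2 = k), e z.1 * r z.2‖ ^ 2 ≤
      C * (1 + L * |u|) ^ q * Real.exp (C * Real.sqrt (Real.log N * min 1 |u|)) *
        ∑ n ∈ S, ‖r n‖ ^ 2 := by
  obtain ⟨C1, hC10, hC1⟩ := s1
  obtain ⟨C2, hC20, hC2⟩ := s2
  refine ⟨Real.exp (14 * C1 + 2 + 7 * C2), ⌈7 * C2⌉₊, Real.exp_pos _, ?_⟩
  intro L N a u hL hN ha P e he S hS r Q
  have hL0 : 0 < L := by linarith
  have hlN : 0 ≤ Real.log N := Real.log_nonneg hN
  set Λ : ℝ := Real.log N + 1 with hΛ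
  have hΛ1 : 1 ≤ Λ := by linarith
  have hΛ0 : 0 < Λ := by linarith
  set μ : ℝ := min 1 |u| with hμ
  have hμ0 : 0 ≤ μ := le_min zero_le_one (abs_nonneg u)
  have hμ1 : μ ≤ 1 := min_le_left _ _
  set s : ℝ := Real.sqrt (Λ * μ) with hs
  have hs0 : 0 ≤ s := Real.sqrt_nonneg _
  have hs2 : s ^ 2 = Λ * μ := Real.sq_sqrt (by positivity)
  set K : ℝ := (s + 1) / 2 with hK
  have hK0 : 0 < K := by positivity
  have hsΛ : s ≤ Λ := by
    rw [hs]
    refine Real.sqrt_le_iff.2 ⟨hΛ0.le, ?_⟩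
    nlinarith
  have hKΛ : K / Λ ≤ 1 := by
    rw [div_le_one hΛ0, hK]
    linarith
  set b : ℕ → ℝ := fun p => K / Λ * Real.log p with hb
  have hb0 : ∀ p, 0 ≤ b p := fun p => mul_nonneg (by positivity) (Real.log_natCast_nonneg p)
  have hbp : ∀ p : ℕ, p.Prime → 0 < b p := fun p hp => by
    have := log_prime_gt hp
    have : 0 < Real.log p := by linarith
    rw [hb]
    positivity
  have hbl : ∀ p : ℕ, b p ≤ Real.log p := fun p => by
    rw [hb]
    exact mul_le_of_le_one_left (Real.log_natCast_nonneg p) hKΛ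
  have hβ : ∀ m : ℕ, 0 < ∏ p ∈ m.primeFactors, b p := fun m =>
    Finset.prod_pos fun p hp => hbp p (Nat.prime_of_mem_primeFactors hp)
  set c : ℕ → ℝ := fun p => ga u p ^ 2 / b p with hc
  have hc0 : ∀ p, 0 ≤ c p := fun p => div_nonneg (sq_nonneg _) (hb0 p)
  set x : ℕ → ℝ := fun m => (m : ℝ) ^ (-(1 + 2 / L)) * G b m with hx
  have hx0 : ∀ m, 0 ≤ x m := fun m => mul_nonneg (by positivity) (G_pos hb0 m).le
  have hexp : -(1 + 2 / L) ≠ 0 := by
    have : 0 < 1 + 2 / L := by positivity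
    linarith [this]
  -- (A), (B), (C)
  have hABC : ∑ k ∈ Q, ‖∑ z ∈ (P ×ˢ S).filter (fun z => z.1 * z.2 = k), e z.1 * r z.2‖ ^ 2 ≤
      (∑ m ∈ P, G b m * (‖e m‖ ^ 2 / ∏ p ∈ m.primeFactors, b p)) *
        ∑ n ∈ S, G b n * ‖r n‖ ^ 2 := by
    refine (Finset.sum_le_sum fun k _ => fibre hb0 hbp P S (fun m hm => (he m hm).1)
      (fun n hn => (hS n hn).1) e r k).trans ?_
    have hnn : ∀ z : ℕ × ℕ, 0 ≤ (G b z.1 * (‖e z.1‖ ^ 2 / ∏ p ∈ z.1.primeFactors, b p)) *
        (G b z.2 * ‖r z.2‖ ^ 2) := fun z =>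
      mul_nonneg (mul_nonneg (G_pos hb0 _).le (div_nonneg (sq_nonneg _) (hβ _).le))
        (mul_nonneg (G_pos hb0 _).le (sq_nonneg _))
    refine (Finset.sum_fiberwise_le_sum_of_sum_fiber_nonneg (s := P ×ˢ S) (t := Q)
      (g := fun z : ℕ × ℕ => z.1 * z.2)
      (f := fun z : ℕ × ℕ => (G b z.1 * (‖e z.1‖ ^ 2 / ∏ p ∈ z.1.primeFactors, b p)) *
        (G b z.2 * ‖r z.2‖ ^ 2)) fun k _ => Finset.sum_nonneg fun z _ => hnn z).trans ?_
    rw [Finset.sum_product, Finset.sum_mul_sum]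
  -- (D)
  have hD : ∑ n ∈ S, G b n * ‖r n‖ ^ 2 ≤ Real.exp K * ∑ n ∈ S, ‖r n‖ ^ 2 := by
    rw [Finset.mul_sum]
    refine Finset.sum_le_sum fun n hn => mul_le_mul_of_nonneg_right ?_ (sq_nonneg _)
    obtain ⟨h1, h2⟩ := hS n hn
    refine (G_le (κ := K / Λ) hb0 (fun p _ => le_rfl) n (by omega)).trans ?_
    refine Real.exp_le_exp.2 ?_
    have h3 : Real.log n ≤ Λ := by
      have : Real.log n ≤ Real.log N := Real.log_le_log (by exact_mod_cast h1) h2
      linarith
    calc K / Λ * Real.log n ≤ K / Λ * Λ := mul_le_mul_of_nonneg_left h3 (by positivity)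
      _ = K := by field_simp
  -- (E)
  have hE : ∀ m ∈ P, G b m * (‖e m‖ ^ 2 / ∏ p ∈ m.primeFactors, b p) ≤
      (∏ p ∈ m.primeFactors, c p) * x m := by
    intro m hm
    obtain ⟨h1, h2⟩ := he m hm
    have hm0 : (0 : ℝ) ≤ m := Nat.cast_nonneg m
    have hm1 : (1 : ℝ) ≤ m := by exact_mod_cast h1
    have hg0 : 0 ≤ ∏ p ∈ m.primeFactors, ga u p := Finset.prod_nonneg fun p _ => ga_nonneg u p
    have h3 : ‖e m‖ ^ 2 ≤ (m : ℝ) ^ (-(1 + 2 / L)) * (∏ p ∈ m.primeFactors, ga u p) ^ 2 := by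
      refine (pow_le_pow_left₀ (norm_nonneg _) h2 2).trans ?_
      rw [mul_pow]
      refine mul_le_mul_of_nonneg_right ?_ (sq_nonneg _)
      rw [← Real.rpow_natCast, ← Real.rpow_mul hm0]
      refine Real.rpow_le_rpow_of_exponent_le hm1 ?_
      have h4 : 1 / L ≤ a / L := div_le_div_of_nonneg_right ha hL0.le
      have h5 : 2 / L = 2 * (1 / L) := by ring
      push_cast
      rw [h5]
      linarith
    have h4 : (∏ p ∈ m.primeFactors, c p) =
        (∏ p ∈ m.primeFactors, ga u p) ^ 2 / ∏ p ∈ m.primeFactors, b p :=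
      (gc_split m).symm
    rw [h4]
    calc G b m * (‖e m‖ ^ 2 / ∏ p ∈ m.primeFactors, b p)
        ≤ G b m * ((m : ℝ) ^ (-(1 + 2 / L)) * (∏ p ∈ m.primeFactors, ga u p) ^ 2 /
          ∏ p ∈ m.primeFactors, b p) :=
          mul_le_mul_of_nonneg_left (div_le_div_of_nonneg_right h3 (hβ m).le) (G_pos hb0 m).le
      _ = _ := by
          rw [hx]
          ring
  -- the values at the primes
  have hxp : ∀ p : ℕ, p.Prime → x p = (p : ℝ) ^ (-(1 + 2 / L)) * (1 + b p) := fun p hp => by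
    rw [hx]
    show (p : ℝ) ^ (-(1 + 2 / L)) * G b p = _
    rw [G_prime hp]
  have hw1 : ∀ p : ℕ, p.Prime → (p : ℝ) ^ (-(1 + 2 / L)) ≤ 1 / p := by
    intro p hp
    have hp1 : (1 : ℝ) ≤ p := by exact_mod_cast hp.one_le
    rw [one_div, ← Real.rpow_neg_one]
    refine Real.rpow_le_rpow_of_exponent_le hp1 ?_
    have : 0 ≤ 2 / L := by positivity
    linarith
  have hxle : ∀ p : ℕ, p.Prime → x p ≤ 6 / 7 := by
    intro p hp
    have hp0 : (0 : ℝ) < p := by exact_mod_cast hp.pos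
    rw [hxp p hp]
    calc (p : ℝ) ^ (-(1 + 2 / L)) * (1 + b p) ≤ 1 / p * (1 + Real.log p) :=
          mul_le_mul (hw1 p hp) (by linarith [hbl p]) (by linarith [hb0 p]) (by positivity)
      _ = (1 + Real.log p) / p := by ring
      _ ≤ 6 / 7 := log_le_aux (by exact_mod_cast hp.two_le)
  -- (F)
  set T : Finset ℕ := P.biUnion Nat.primeFactors with hT
  have hTp : ∀ p ∈ T, p.Prime := by
    intro p hp
    obtain ⟨m, _, h⟩ := Finset.mem_biUnion.1 hp
    exact Nat.prime_of_mem_primeFactors h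
  have hF : ∑ m ∈ P, (∏ p ∈ m.primeFactors, c p) * x m ≤
      ∏ p ∈ T, (1 + c p * (x p / (1 - x p))) := by
    have h1 := Pool.Agent.N786.D.euler_le (M := ℕ) x c
      (by rw [hx]; simp [G_one])
      (by
        intro a' b'
        rw [hx]
        show ((a' * b' : ℕ) : ℝ) ^ (-(1 + 2 / L)) * G b (a' * b') =
          (a' : ℝ) ^ (-(1 + 2 / L)) * G b a' * ((b' : ℝ) ^ (-(1 + 2 / L)) * G b b')
        rcases eq_or_ne a' 0 with rfl | ha'
        · rw [zero_mul, Nat.cast_zero, Real.zero_rpow hexp]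
          ring
        rcases eq_or_ne b' 0 with rfl | hb'
        · rw [mul_zero, Nat.cast_zero, Real.zero_rpow hexp]
          ring
        rw [G_mul ha' hb', Nat.cast_mul, Real.mul_rpow (Nat.cast_nonneg _) (Nat.cast_nonneg _)]
        ring)
      hx0 hc0 T (fun p hp => (hTp p hp).prime)
      (fun p hp => lt_of_le_of_lt (hxle p (hTp p hp)) (by norm_num)) P
      (fun m hm => ⟨by have := (he m hm).1; omega, by
        rw [UniqueFactorizationMonoid.primeFactors_eq_natPrimeFactors]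
        exact Finset.subset_biUnion_of_mem Nat.primeFactors hm⟩)
    rw [UniqueFactorizationMonoid.primeFactors_eq_natPrimeFactors] at h1
    exact h1
  -- (G)
  have hG : ∏ p ∈ T, (1 + c p * (x p / (1 - x p))) ≤
      Real.exp (7 * (Λ / K) * (C1 * μ) + 7 * (C2 * (1 + Real.log (1 + L * |u|)))) := by
    have h1 : ∀ p ∈ T, 1 + c p * (x p / (1 - x p)) ≤
        Real.exp (7 * (Λ / K) * (ga u p ^ 2 / ((p : ℝ) * Real.log p)) +
          7 * (ga u p ^ 2 * (p : ℝ) ^ (-(1 + 2 / L)))) := by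
      intro p hp
      have hpp := hTp p hp
      have hp0 : (0 : ℝ) < p := by exact_mod_cast hpp.pos
      have hlp : 0 < Real.log p := by linarith [log_prime_gt hpp]
      have hxl := hxle p hpp
      have h2 : x p / (1 - x p) ≤ 7 * x p := by
        rw [div_le_iff₀ (by linarith)]
        nlinarith [hx0 p]
      have h3 : c p * (x p / (1 - x p)) ≤ 7 * (Λ / K) * (ga u p ^ 2 / ((p : ℝ) * Real.log p)) +
          7 * (ga u p ^ 2 * (p : ℝ) ^ (-(1 + 2 / L))) := by
        calc c p * (x p / (1 - x p)) ≤ c p * (7 * x p) := mul_le_mul_of_nonneg_left h2 (hc0 p)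
          _ = 7 * (c p * (p : ℝ) ^ (-(1 + 2 / L))) +
              7 * (ga u p ^ 2 * (p : ℝ) ^ (-(1 + 2 / L))) := by
              rw [hxp p hpp, hc]
              have := (hbp p hpp).ne'
              field_simp
          _ ≤ _ := by
              have h4 : c p * (p : ℝ) ^ (-(1 + 2 / L)) ≤
                  Λ / K * (ga u p ^ 2 / ((p : ℝ) * Real.log p)) := by
                calc c p * (p : ℝ) ^ (-(1 + 2 / L)) ≤ c p * (1 / p) :=
                      mul_le_mul_of_nonneg_left (hw1 p hpp) (hc0 p)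
                  _ = Λ / K * (ga u p ^ 2 / ((p : ℝ) * Real.log p)) := by
                      rw [hc, hb]
                      field_simp
              linarith
      calc 1 + c p * (x p / (1 - x p)) ≤ 1 + (7 * (Λ / K) * (ga u p ^ 2 / ((p : ℝ) * Real.log p)) +
            7 * (ga u p ^ 2 * (p : ℝ) ^ (-(1 + 2 / L)))) := by linarith
        _ ≤ _ := by
            have := Real.add_one_le_exp (7 * (Λ / K) * (ga u p ^ 2 / ((p : ℝ) * Real.log p)) +
              7 * (ga u p ^ 2 * (p : ℝ) ^ (-(1 + 2 / L))))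
            linarith
    have h2 : ∀ p ∈ T, 0 ≤ 1 + c p * (x p / (1 - x p)) := by
      intro p hp
      have hxl := hxle p (hTp p hp)
      have : 0 ≤ x p / (1 - x p) := div_nonneg (hx0 p) (by linarith)
      have := mul_nonneg (hc0 p) this
      linarith
    refine (Finset.prod_le_prod h2 h1).trans ?_
    rw [← Real.exp_sum]
    refine Real.exp_le_exp.2 ?_
    rw [Finset.sum_add_distrib, ← Finset.mul_sum, ← Finset.mul_sum]
    refine add_le_add ?_ ?_
    · exact mul_le_mul_of_nonneg_left (hC1 u T hTp) (by positivity)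
    · exact mul_le_mul_of_nonneg_left (hC2 L u hL T hTp) (by norm_num)
  -- final estimate
  have hsum0 : 0 ≤ ∑ n ∈ S, ‖r n‖ ^ 2 := Finset.sum_nonneg fun n _ => sq_nonneg _
  have hfin : (∑ m ∈ P, G b m * (‖e m‖ ^ 2 / ∏ p ∈ m.primeFactors, b p)) *
        ∑ n ∈ S, G b n * ‖r n‖ ^ 2 ≤
      Real.exp (7 * (Λ / K) * (C1 * μ) + 7 * (C2 * (1 + Real.log (1 + L * |u|)))) *
        (Real.exp K * ∑ n ∈ S, ‖r n‖ ^ 2) := by
    refine mul_le_mul (((Finset.sum_le_sum hE).trans hF).trans hG) hD ?_ (Real.exp_pos _).le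
    exact Finset.sum_nonneg fun n _ => mul_nonneg (G_pos hb0 n).le (sq_nonneg _)
  refine (hABC.trans hfin).trans ?_
  rw [← mul_assoc]
  refine mul_le_mul_of_nonneg_right ?_ hsum0
  set t : ℝ := Real.sqrt (Real.log N * μ) with ht
  have ht0 : 0 ≤ t := Real.sqrt_nonneg _
  have hst : s ≤ t + 1 := by
    rw [hs]
    refine Real.sqrt_le_iff.2 ⟨by linarith, ?_⟩
    have h1 : t ^ 2 = Real.log N * μ := Real.sq_sqrt (by positivity)
    rw [hΛ]
    nlinarith
  have hbase : 1 ≤ 1 + L * |u| := by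
    have : 0 ≤ L * |u| := by positivity
    linarith
  have hl0 : 0 ≤ Real.log (1 + L * |u|) := Real.log_nonneg hbase
  have h1 : 7 * (Λ / K) * (C1 * μ) ≤ 14 * C1 * s := by
    have h2 : Λ * μ / K ≤ 2 * s := by
      rw [div_le_iff₀ hK0, ← hs2, hK]
      nlinarith
    calc 7 * (Λ / K) * (C1 * μ) = 7 * C1 * (Λ * μ / K) := by ring
      _ ≤ 7 * C1 * (2 * s) := mul_le_mul_of_nonneg_left h2 (by positivity)
      _ = 14 * C1 * s := by ring
  have h2 : Real.exp (7 * (C2 * Real.log (1 + L * |u|))) ≤ (1 + L * |u|) ^ ⌈7 * C2⌉₊ := by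
    have h3 : 7 * (C2 * Real.log (1 + L * |u|)) ≤ ⌈7 * C2⌉₊ * Real.log (1 + L * |u|) := by
      rw [← mul_assoc]
      exact mul_le_mul_of_nonneg_right (Nat.le_ceil _) hl0
    calc Real.exp (7 * (C2 * Real.log (1 + L * |u|)))
        ≤ Real.exp (⌈7 * C2⌉₊ * Real.log (1 + L * |u|)) := Real.exp_le_exp.2 h3
      _ = (1 + L * |u|) ^ ⌈7 * C2⌉₊ := by
          rw [Real.exp_nat_mul, Real.exp_log (by linarith)]
  have h3 : 14 * C1 + 1 ≤ Real.exp (14 * C1 + 2 + 7 * C2) := by
    have := Real.add_one_le_exp (14 * C1 + 2 + 7 * C2)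
    linarith
  calc Real.exp (7 * (Λ / K) * (C1 * μ) + 7 * (C2 * (1 + Real.log (1 + L * |u|)))) * Real.exp K
      = Real.exp (7 * (Λ / K) * (C1 * μ) + 7 * C2 + K) *
        Real.exp (7 * (C2 * Real.log (1 + L * |u|))) := by
        rw [← Real.exp_add, ← Real.exp_add]
        congr 1
        ring
    _ ≤ Real.exp (14 * C1 + 2 + 7 * C2 + (14 * C1 + 1) * t) * (1 + L * |u|) ^ ⌈7 * C2⌉₊ := by
        refine mul_le_mul (Real.exp_le_exp.2 ?_) h2 (Real.exp_pos _).le (Real.exp_pos _).le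
        have h4 : 14 * C1 * s ≤ 14 * C1 * (t + 1) := mul_le_mul_of_nonneg_left hst (by positivity)
        have h5 : K ≤ t + 2 := by
          rw [hK]
          linarith
        linarith
    _ ≤ Real.exp (14 * C1 + 2 + 7 * C2 + Real.exp (14 * C1 + 2 + 7 * C2) * t) *
        (1 + L * |u|) ^ ⌈7 * C2⌉₊ := by
        refine mul_le_mul_of_nonneg_right (Real.exp_le_exp.2 ?_) (by positivity)
        have := mul_le_mul_of_nonneg_right h3 ht0
        linarith
    _ = _ := by
        rw [Real.exp_add]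
        ring

end Main

end Pool.Agent.N802.WD.Op

namespace Pool.Agent.N802.WD

open Pool.Agent.N802.U in
/-- **OP** -/
theorem op : S_op := by
  obtain ⟨C, q, hC, h⟩ := Op.key
  refine ⟨C, q, hC, fun L N a u hL hN ha P e he S hS r Q => ?_⟩
  have h1 := h L N a u hL hN ha P e (fun m hm => he m hm) S (fun k hk => hS k hk) r Q
  have hg : grow L 0 q u = (1 + L * |u|) ^ q := by
    unfold grow
    rw [zero_mul, Real.exp_zero, mul_one]
  rw [hg]
  unfold w1
  convert h1 using 5

end Pool.Agent.N802.WD
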