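import Pool.Agent.N802.WD.Stm
import Pool.Agent.N802.U.Rh
import Pool.Agent.N786.D.Sup
import Pool.Agent.H382R2.Zeta2

/-!
# Decay to the right of the mollified zeta function (owner helper433)

`S_mz -> S_rt`.
-/

open Complex Filter Topology Set MeasureTheory
open scoped BigOperators ComplexConjugate

namespace Pool.Agent.N802.WD

open H370 hiding pt
open TC Pool.Agent.N802.U
open Pool.Agent.R399.TW (pt pt_re pt_im pt_cont)
open Pool.Agent.N786.D (kap kap_cont kap_nn kap_scale cB cB_int cB_nn csE cauchy_le)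

lemma moeb_le (n : ℕ) : ‖((ArithmeticFunction.moebius n : ℤ) : ℂ)‖ ≤ 1 := by
  rw [Complex.norm_intCast]
  exact_mod_cast ArithmeticFunction.abs_moebius_le_one

lemma Mp_diff (V : ℝ → ℝ) (M : ℕ) : Differentiable ℂ (Mp V M) := by
  unfold Mp
  refine Differentiable.fun_sum fun n hn => ?_
  have hn1 : (n : ℂ) ≠ 0 := by
    have := (Finset.mem_Icc.1 hn).1
    exact_mod_cast (by omega : n ≠ 0)
  refine (differentiable_const _).mul ((differentiable_const _).mul ?_)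
  exact fun z => (differentiableAt_id.neg).const_cpow (Or.inl hn1)

lemma Mp_le {V : ℝ → ℝ} (hV : ∀ x, 0 ≤ V x ∧ V x ≤ 1) (M : ℕ) {s : ℂ} (hs : 0 ≤ s.re) :
    ‖Mp V M s‖ ≤ M := by
  unfold Mp
  refine (norm_sum_le _ _).trans ?_
  have h : ∀ n ∈ Finset.Icc 1 M, ‖((ArithmeticFunction.moebius n : ℤ) : ℂ) * ((V (Real.log n) : ℂ) *
      (n : ℂ) ^ (-s))‖ ≤ 1 := by
    intro n hn
    have hn1 : 1 ≤ n := (Finset.mem_Icc.1 hn).1
    rw [norm_mul, norm_mul, Complex.norm_real, Real.norm_of_nonneg (hV _).1,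
      Complex.norm_natCast_cpow_of_pos hn1]
    have h1 := moeb_le n
    have h2 : (n : ℝ) ^ (-s).re ≤ 1 := by
      apply Real.rpow_le_one_of_one_le_of_nonpos (by exact_mod_cast hn1)
      simp [hs]
    have h3 : 0 ≤ (n : ℝ) ^ (-s).re := by positivity
    refine mul_le_one₀ h1 (mul_nonneg (hV _).1 h3) (mul_le_one₀ (hV _).2 h3 h2)
  refine (Finset.sum_le_sum h).trans ?_
  simp

/-- the constant -/
noncomputable def Zc : ℝ := ∑' n : ℕ, ((n : ℝ) ^ (3 / 2 : ℝ))⁻¹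

lemma Zc_sum : Summable fun n : ℕ => ((n : ℝ) ^ (3 / 2 : ℝ))⁻¹ :=
  Real.summable_nat_rpow_inv.2 (by norm_num)

lemma Zc_nn : 0 ≤ Zc := tsum_nonneg fun n => by positivity

lemma term_bd {f : ℕ → ℂ} {y : ℝ} (h1 : ∀ n, ‖f n‖ ≤ 1) (h2 : ∀ n : ℕ, 1 ≤ n → Real.log n ≤ y → f n = 0)
    {s : ℂ} (hs : 3 / 2 ≤ s.re) (n : ℕ) :
    ‖LSeries.term f s n‖ ≤ Real.exp (-(y * (s.re - 3 / 2))) * ((n : ℝ) ^ (3 / 2 : ℝ))⁻¹ := by
  have hE : 0 ≤ Real.exp (-(y * (s.re - 3 / 2))) := (Real.exp_pos _).le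
  by_cases hn : n = 0
  · rw [hn, LSeries.term_zero, norm_zero]
    positivity
  have hn1 : 1 ≤ n := by omega
  have hn0 : (0 : ℝ) < n := by exact_mod_cast hn1
  by_cases hy : Real.log n ≤ y
  · rw [LSeries.term_of_ne_zero hn, h2 n hn1 hy, zero_div, norm_zero]
    positivity
  push Not at hy
  rw [LSeries.term_of_ne_zero hn, norm_div, Complex.norm_natCast_cpow_of_pos hn1]
  have e1 : ((n : ℝ) ^ s.re)⁻¹ = Real.exp (-(Real.log n * (s.re - 3 / 2))) *
      ((n : ℝ) ^ (3 / 2 : ℝ))⁻¹ := by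
    rw [← Real.rpow_neg hn0.le, ← Real.rpow_neg hn0.le, Real.rpow_def_of_pos hn0,
      Real.rpow_def_of_pos hn0, ← Real.exp_add]
    congr 1
    ring
  rw [div_eq_mul_inv, e1]
  have h3 : Real.exp (-(Real.log n * (s.re - 3 / 2))) ≤ Real.exp (-(y * (s.re - 3 / 2))) := by
    refine Real.exp_le_exp.mpr (neg_le_neg ?_)
    exact mul_le_mul_of_nonneg_right hy.le (by linarith)
  calc ‖f n‖ * (Real.exp (-(Real.log n * (s.re - 3 / 2))) * ((n : ℝ) ^ (3 / 2 : ℝ))⁻¹) ≤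
      1 * (Real.exp (-(y * (s.re - 3 / 2))) * ((n : ℝ) ^ (3 / 2 : ℝ))⁻¹) := by
        refine mul_le_mul (h1 n) ?_ (by positivity) zero_le_one
        exact mul_le_mul_of_nonneg_right h3 (by positivity)
    _ = _ := one_mul _

lemma tail_le {f : ℕ → ℂ} {y : ℝ} (h1 : ∀ n, ‖f n‖ ≤ 1)
    (h2 : ∀ n : ℕ, 1 ≤ n → Real.log n ≤ y → f n = 0)
    {s : ℂ} (hs : 3 / 2 ≤ s.re) :
    ‖LSeries f s‖ ≤ Real.exp (-(y * (s.re - 3 / 2))) * Zc := by
  unfold LSeries Zc
  rw [← tsum_mul_left]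
  exact tsum_of_norm_bounded (Zc_sum.mul_left _).hasSum fun n => term_bd h1 h2 hs n

lemma zeta_le {s : ℂ} (hs : 3 / 2 ≤ s.re) : ‖riemannZeta s‖ ≤ Zc := by
  rw [← LSeries_one_eq_riemannZeta (by linarith)]
  unfold LSeries Zc
  refine tsum_of_norm_bounded Zc_sum.hasSum fun n => ?_
  by_cases hn : n = 0
  · rw [hn, LSeries.term_zero, norm_zero]
    positivity
  have hn1 : 1 ≤ n := by omega
  have hn0 : (1 : ℝ) ≤ n := by exact_mod_cast hn1
  rw [LSeries.term_of_ne_zero hn, norm_div, Complex.norm_natCast_cpow_of_pos hn1, Pi.one_apply,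
    norm_one, one_div]
  exact inv_anti₀ (by positivity) (Real.rpow_le_rpow_of_exponent_le hn0 hs)

/-- the mollified zeta function is close to one on the right -/
theorem zM_sub_one {L β₁ β₂ : ℝ} {V : ℝ → ℝ} (hV : ∀ x, 0 ≤ V x ∧ V x ≤ 1)
    (h1 : ∀ x, x ≤ β₁ * L → V x = 1) (h0 : ∀ x, β₂ * L ≤ x → V x = 0) {T : ℝ} (hT : 0 < T)
    (hL : L = Real.log T) {s : ℂ} (hs : 3 / 2 ≤ s.re) :
    ‖riemannZeta s * Mp V ⌊T ^ β₂⌋₊ s - 1‖ ≤
      Real.exp (-(β₁ * L * (s.re - 3 / 2))) * (Zc * Zc) := by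
  have hs1 : 1 < s.re := by linarith
  set f : ℕ → ℂ := fun n => ((ArithmeticFunction.moebius n : ℤ) : ℂ) * (V (Real.log n) : ℂ) with hf
  have e1 : Mp V ⌊T ^ β₂⌋₊ s = LSeries f s := by
    unfold Mp LSeries
    rw [tsum_eq_sum (s := Finset.Icc 1 ⌊T ^ β₂⌋₊)]
    · refine Finset.sum_congr rfl fun n hn => ?_
      have hn1 : 1 ≤ n := (Finset.mem_Icc.1 hn).1
      rw [LSeries.term_of_ne_zero (by omega), hf, Complex.cpow_neg, div_eq_mul_inv, mul_assoc]
    · intro n hn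
      by_cases hn0 : n = 0
      · rw [hn0, LSeries.term_zero]
      have h3 : ⌊T ^ β₂⌋₊ < n := by
        rw [Finset.mem_Icc, not_and_or] at hn
        omega
      have h4 : T ^ β₂ < n := Nat.lt_of_floor_lt h3
      have h5 : β₂ * L ≤ Real.log n := by
        have := Real.log_le_log (Real.rpow_pos_of_pos hT _) h4.le
        rwa [Real.log_rpow hT, ← hL] at this
      rw [LSeries.term_of_ne_zero hn0, hf]
      simp only
      rw [h0 _ h5, Complex.ofReal_zero, mul_zero, zero_div]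
  have hfb : ∀ n, ‖f n‖ ≤ 1 := by
    intro n
    rw [hf]
    simp only
    rw [norm_mul, Complex.norm_real, Real.norm_of_nonneg (hV _).1]
    exact mul_le_one₀ (moeb_le n) (hV _).1 (hV _).2
  have hm1 : ∀ n, ‖(fun n : ℕ => ((ArithmeticFunction.moebius n : ℤ) : ℂ)) n‖ ≤ 1 := moeb_le
  have e2 : riemannZeta s * LSeries (fun n : ℕ => ((ArithmeticFunction.moebius n : ℤ) : ℂ)) s = 1 := by
    have := ArithmeticFunction.LSeries_zeta_mul_Lseries_moebius hs1
    rwa [ArithmeticFunction.LSeries_zeta_eq_riemannZeta hs1] at this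
  have s1 : LSeriesSummable f s := LSeriesSummable_of_bounded_of_one_lt_re (fun n _ => hfb n) hs1
  have s2 : LSeriesSummable (fun n : ℕ => ((ArithmeticFunction.moebius n : ℤ) : ℂ)) s :=
    LSeriesSummable_of_bounded_of_one_lt_re (fun n _ => hm1 n) hs1
  have e3 : riemannZeta s * Mp V ⌊T ^ β₂⌋₊ s - 1 = riemannZeta s *
      LSeries (f - fun n : ℕ => ((ArithmeticFunction.moebius n : ℤ) : ℂ)) s := by
    rw [LSeries_sub s1 s2, mul_sub, e2, e1]
  rw [e3, norm_mul]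
  have h3 := zeta_le hs
  have h4 := tail_le (f := f - fun n : ℕ => ((ArithmeticFunction.moebius n : ℤ) : ℂ))
    (y := β₁ * L) (fun n => by
      have e : (f - fun n : ℕ => ((ArithmeticFunction.moebius n : ℤ) : ℂ)) n =
          ((ArithmeticFunction.moebius n : ℤ) : ℂ) * ((V (Real.log n) - 1 : ℝ) : ℂ) := by
        simp only [Pi.sub_apply, hf]
        push_cast
        ring
      rw [e, norm_mul, Complex.norm_real]
      refine mul_le_one₀ (moeb_le n) (norm_nonneg _) ?_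
      rw [Real.norm_eq_abs, abs_le]
      have := hV (Real.log n)
      exact ⟨by linarith, by linarith⟩) (fun n hn hy => by
      simp only [Pi.sub_apply, hf]
      rw [h1 _ hy]
      simp) hs
  calc ‖riemannZeta s‖ * _ ≤ Zc * (Real.exp (-(β₁ * L * (s.re - 3 / 2))) * Zc) :=
        mul_le_mul h3 h4 (norm_nonneg _) Zc_nn
    _ = _ := by ring


/-- integrals against the kernel, `r ≤ R` -/
lemma kap_polyR {B p : ℕ} (hB : p + 2 ≤ 2 * B) {r R : ℝ} (hr : 0 < r) (hrR : r ≤ R) (hR : 1 ≤ R) :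
    Integrable (fun v : ℝ => kap B r v * (2 + |v|) ^ p) ∧
    ∫ v : ℝ, kap B r v * (2 + |v|) ^ p ≤ R ^ p * cB B p := by
  have hB1 : 1 ≤ B := by omega
  have hpt : ∀ u : ℝ, r * (kap B r (r * u) * (2 + |r * u|) ^ p) ≤
      R ^ p * (2 ^ (2 * B - 1) * ((1 + u ^ 2) ^ B)⁻¹ * (2 + |u|) ^ p) := by
    intro u
    have h2 : 2 + |r * u| ≤ R * (2 + |u|) := by
      rw [abs_mul, abs_of_pos hr]
      have := abs_nonneg u
      nlinarith
    rw [← mul_assoc r, kap_scale B hB1 hr]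
    calc 2 ^ (2 * B - 1) * ((1 + u ^ 2) ^ B)⁻¹ * (2 + |r * u|) ^ p ≤
        2 ^ (2 * B - 1) * ((1 + u ^ 2) ^ B)⁻¹ * (R * (2 + |u|)) ^ p := by gcongr
      _ = _ := by rw [mul_pow]; ring
  have hcont : Continuous fun v : ℝ => kap B r v * (2 + |v|) ^ p :=
    (kap_cont B hr).mul (by fun_prop)
  have hnn : ∀ v : ℝ, 0 ≤ kap B r v * (2 + |v|) ^ p := fun v => by
    have := kap_nn B hr v
    positivity
  have hi1 : Integrable (fun u : ℝ => r * (kap B r (r * u) * (2 + |r * u|) ^ p)) := by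
    refine ((cB_int hB).const_mul (R ^ p)).mono' ?_ (Eventually.of_forall fun u => ?_)
    · exact (continuous_const.mul (hcont.comp (by fun_prop))).aestronglyMeasurable
    · rw [Real.norm_of_nonneg (mul_nonneg hr.le (hnn _))]
      exact hpt u
  have hi2 : Integrable (fun v : ℝ => kap B r v * (2 + |v|) ^ p) := by
    have h1 : Integrable (fun u : ℝ => (fun v : ℝ => kap B r v * (2 + |v|) ^ p) (r * u)) := by
      refine (hi1.const_mul r⁻¹).congr (Eventually.of_forall fun u => ?_)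
      simp only
      rw [← mul_assoc, inv_mul_cancel₀ hr.ne', one_mul]
    exact (integrable_comp_mul_left_iff _ hr.ne').mp h1
  refine ⟨hi2, ?_⟩
  have h1 : ∫ v : ℝ, kap B r v * (2 + |v|) ^ p =
      ∫ u : ℝ, r * (kap B r (r * u) * (2 + |r * u|) ^ p) := by
    have h2 := Measure.integral_comp_mul_left (fun v : ℝ => kap B r v * (2 + |v|) ^ p) r
    rw [integral_const_mul, h2, abs_of_pos (inv_pos.mpr hr), smul_eq_mul, ← mul_assoc,
      mul_inv_cancel₀ hr.ne', one_mul]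
  rw [h1]
  refine (integral_mono hi1 ((cB_int hB).const_mul _) hpt).trans (le_of_eq ?_)
  rw [integral_const_mul]
  rfl

/-! ### the entire function -/

/-- `(z - 1) (ζ M - 1)` -/
noncomputable def gz (V : ℝ → ℝ) (M : ℕ) (z : ℂ) : ℂ := riemannZeta₁ z * Mp V M z - (z - 1)

lemma gz_diff (V : ℝ → ℝ) (M : ℕ) : Differentiable ℂ (gz V M) :=
  (differentiable_riemannZeta₁.mul (Mp_diff V M)).sub (differentiable_id.sub_const _)

lemma gz_eq (V : ℝ → ℝ) (M : ℕ) {z : ℂ} (hz : z ≠ 1) :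
    gz V M z = (z - 1) * (riemannZeta z * Mp V M z - 1) := by
  have h1 : z - 1 ≠ 0 := sub_ne_zero.2 hz
  have h2 : riemannZeta₁ z = (z - 1) * riemannZeta z := by
    rw [riemannZeta_eq_inv_sub_mul hz, ← mul_assoc, mul_inv_cancel₀ h1, one_mul]
  unfold gz
  rw [h2]
  ring

lemma gz_triv {V : ℝ → ℝ} (hV : ∀ x, 0 ≤ V x ∧ V x ≤ 1) {M : ℕ} (hM : 1 ≤ M) {z : ℂ}
    (hz : 1 / 10 ≤ z.re) : ‖gz V M z‖ ≤ 12 * M * (1 + ‖z‖) ^ 2 := by
  have h1 := SG.z1_growth hz
  have h2 := Mp_le hV M (s := z) (by linarith)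
  have h3 : ‖z - 1‖ ≤ ‖z‖ + 1 := by
    have := norm_sub_le z 1
    simpa using this
  have hM1 : (1 : ℝ) ≤ M := by exact_mod_cast hM
  have h0 := norm_nonneg z
  unfold gz
  calc ‖riemannZeta₁ z * Mp V M z - (z - 1)‖ ≤ ‖riemannZeta₁ z * Mp V M z‖ + ‖z - 1‖ :=
        norm_sub_le _ _
    _ ≤ 11 * (‖z‖ + 1) ^ 2 * M + (‖z‖ + 1) := by
        rw [norm_mul]
        gcongr
    _ ≤ 11 * (‖z‖ + 1) ^ 2 * M + (‖z‖ + 1) ^ 2 * M := by
        have h4 : ‖z‖ + 1 ≤ (‖z‖ + 1) ^ 2 * M := by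
          have h5 : ‖z‖ + 1 ≤ (‖z‖ + 1) ^ 2 := by nlinarith
          calc ‖z‖ + 1 ≤ (‖z‖ + 1) ^ 2 * 1 := by linarith
            _ ≤ _ := by gcongr
        linarith
    _ = _ := by ring

/-- growth to the right -/
lemma gz_growth {L β₁ β₂ : ℝ} {V : ℝ → ℝ} (hV : ∀ x, 0 ≤ V x ∧ V x ≤ 1)
    (h1 : ∀ x, x ≤ β₁ * L → V x = 1) (h0 : ∀ x, β₂ * L ≤ x → V x = 0) {T : ℝ} (hT : 1 ≤ T)
    (hβ : 0 ≤ β₂) (hL : L = Real.log T) (hL4 : 4 ≤ β₁ * L) {a : ℝ} (ha : 1 / 10 ≤ a) :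
    ∃ G : ℝ, ∀ z : ℂ, a ≤ z.re → ‖gz V ⌊T ^ β₂⌋₊ z‖ ≤
      G * (1 + |z.im|) ^ 2 * Real.exp (-(3 / 4 * (β₁ * L) * z.re)) := by
  obtain ⟨M, hM⟩ : ∃ M : ℕ, M = ⌊T ^ β₂⌋₊ := ⟨_, rfl⟩
  have hM1 : 1 ≤ M := by
    rw [hM]
    exact Nat.le_floor (by simpa using Real.one_le_rpow hT hβ)
  have hMr : (1 : ℝ) ≤ M := by exact_mod_cast hM1
  obtain ⟨b, hb⟩ : ∃ b : ℝ, b = β₁ * L := ⟨_, rfl⟩
  rw [← hb] at hL4
  rw [← hM, ← hb]
  have hZ := Zc_nn
  obtain ⟨G1, hG1⟩ : ∃ G1 : ℝ, G1 = 12 * M * 9 * Real.exp (3 / 4 * b * (3 / 2)) := ⟨_, rfl⟩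
  obtain ⟨G2, hG2⟩ : ∃ G2 : ℝ, G2 = 2 * Real.exp (b * (3 / 2)) * (Zc * Zc) := ⟨_, rfl⟩
  have hG10 : 0 ≤ G1 := by rw [hG1]; positivity
  have hG20 : 0 ≤ G2 := by rw [hG2]; positivity
  refine ⟨G1 + G2, fun z hz => ?_⟩
  have hE := Real.exp_pos (-(3 / 4 * b * z.re))
  have him := abs_nonneg z.im
  have hre : 0 < z.re := by linarith
  have hzn : ‖z‖ ≤ z.re + |z.im| := by
    have := Complex.norm_le_abs_re_add_abs_im z
    rwa [abs_of_pos hre] at this
  rcases le_total z.re (3 / 2) with h | h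
  · have h2 := gz_triv hV hM1 (z := z) (by linarith)
    have h3 : (1 + ‖z‖) ^ 2 ≤ 9 * (1 + |z.im|) ^ 2 := by
      calc (1 + ‖z‖) ^ 2 ≤ (3 * (1 + |z.im|)) ^ 2 := by
            have := norm_nonneg z
            exact pow_le_pow_left₀ (by linarith) (by linarith) 2
        _ = _ := by ring
    have h4 : 1 ≤ Real.exp (3 / 4 * b * (3 / 2)) * Real.exp (-(3 / 4 * b * z.re)) := by
      rw [← Real.exp_add]
      refine Real.one_le_exp ?_
      nlinarith
    calc ‖gz V M z‖ ≤ 12 * M * (1 + ‖z‖) ^ 2 := h2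
      _ ≤ 12 * M * (9 * (1 + |z.im|) ^ 2) := by gcongr
      _ = 12 * M * (9 * (1 + |z.im|) ^ 2) * 1 := by ring
      _ ≤ 12 * M * (9 * (1 + |z.im|) ^ 2) *
          (Real.exp (3 / 4 * b * (3 / 2)) * Real.exp (-(3 / 4 * b * z.re))) := by gcongr
      _ = G1 * (1 + |z.im|) ^ 2 * Real.exp (-(3 / 4 * b * z.re)) := by rw [hG1]; ring
      _ ≤ _ := by gcongr; linarith
  · have hz1 : z ≠ 1 := by
      intro h'
      rw [h'] at h
      norm_num at h
    have h2 := zM_sub_one hV h1 h0 (by linarith) hL h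
    rw [← hM, ← hb] at h2
    have h3 : ‖z - 1‖ ≤ ‖z‖ + 1 := by
      have := norm_sub_le z 1
      simpa using this
    have h4 : ‖z‖ + 1 ≤ 2 * (1 + |z.im|) ^ 2 * Real.exp (z.re) := by
      have h5 := Real.add_one_le_exp z.re
      have h6 : ‖z‖ + 1 ≤ (1 + |z.im|) * (1 + z.re) := by nlinarith
      have h7 : (1 + |z.im|) * (1 + z.re) ≤ (1 + |z.im|) ^ 2 * Real.exp z.re := by
        have h8 : 1 + |z.im| ≤ (1 + |z.im|) ^ 2 := by nlinarith
        calc (1 + |z.im|) * (1 + z.re) ≤ (1 + |z.im|) ^ 2 * (1 + z.re) := by gcongr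
          _ ≤ _ := by gcongr; linarith
      have h9 : 0 ≤ (1 + |z.im|) ^ 2 * Real.exp z.re := by positivity
      linarith
    have h5 : Real.exp z.re * Real.exp (-(b * (z.re - 3 / 2))) ≤
        Real.exp (b * (3 / 2)) * Real.exp (-(3 / 4 * b * z.re)) := by
      rw [← Real.exp_add, ← Real.exp_add]
      apply Real.exp_le_exp.2
      nlinarith
    rw [gz_eq V M hz1, norm_mul]
    calc ‖z - 1‖ * ‖riemannZeta z * Mp V M z - 1‖ ≤
        (2 * (1 + |z.im|) ^ 2 * Real.exp (z.re)) * (Real.exp (-(b * (z.re - 3 / 2))) * (Zc * Zc)) :=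
          mul_le_mul (h3.trans h4) h2 (norm_nonneg _) (by positivity)
      _ = 2 * (1 + |z.im|) ^ 2 * (Zc * Zc) * (Real.exp z.re * Real.exp (-(b * (z.re - 3 / 2)))) := by
          ring
      _ ≤ 2 * (1 + |z.im|) ^ 2 * (Zc * Zc) *
          (Real.exp (b * (3 / 2)) * Real.exp (-(3 / 4 * b * z.re))) := by gcongr
      _ = G2 * (1 + |z.im|) ^ 2 * Real.exp (-(3 / 4 * b * z.re)) := by rw [hG2]; ring
      _ ≤ _ := by gcongr; linarith

/-- the growth constant -/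
noncomputable def KK (C : ℝ) : ℝ := 512 * (C + 2) + 2 * 4800 ^ 2

/-- the mean square on the line to the left, all shifts -/
lemma inner {T a ρ x C m β₂ : ℝ} {V w0 : ℝ → ℝ} (hV : ∀ x, 0 ≤ V x ∧ V x ≤ 1) (hT : 10 ≤ T)
    (hβ0 : 0 ≤ β₂) (hβ1 : β₂ ≤ 1)
    (ha : 1 / 10 ≤ a) (ha' : a ≤ 1 / 2) (hr0 : 0 ≤ 1 / 2 + ρ - a) (hr : 1 / 2 + ρ - a ≤ 31)
    (hx : |x| ≤ T / 4) (hw : Continuous w0) (hw0 : ∀ t, 0 ≤ w0 t) (hm : 0 ≤ m) (hC : 0 ≤ C)
    (hmass : ∫ t in T..(2 * T), w0 t ≤ 2 * m)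
    (hms : ∀ y : ℝ, |y| ≤ T / 2 → ∫ t in T..(2 * T), w0 t *
      ‖riemannZeta (pt a (t + y)) * Mp V ⌊T ^ β₂⌋₊ (pt a (t + y))‖ ^ 2 ≤ C * m) (v : ℝ) :
    ∫⁻ t in Icc T (2 * T), ENNReal.ofReal (w0 t / ‖pt (1 / 2 + ρ) (t + x) - 1‖ ^ 2) *
      ENNReal.ofReal (‖gz V ⌊T ^ β₂⌋₊ (pt a (t + x + v))‖ ^ 2) ≤
      ENNReal.ofReal (KK C * (2 + |v|) ^ 6 * m) := by
  obtain ⟨M, hM⟩ : ∃ M : ℕ, M = ⌊T ^ β₂⌋₊ := ⟨_, rfl⟩
  rw [← hM] at hms ⊢
  have hM1 : 1 ≤ M := by
    rw [hM]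
    exact Nat.le_floor (by simpa using Real.one_le_rpow (by linarith : (1 : ℝ) ≤ T) hβ0)
  have hMT : (M : ℝ) ≤ T := by
    rw [hM]
    refine (Nat.floor_le (by positivity)).trans ?_
    calc T ^ β₂ ≤ T ^ (1 : ℝ) := Real.rpow_le_rpow_of_exponent_le (by linarith) hβ1
      _ = T := Real.rpow_one T
  have hv0 := abs_nonneg v
  have hTT : T ≤ 2 * T := by linarith
  have hs1 : ∀ t ∈ Icc T (2 * T), 1 ≤ ‖pt (1 / 2 + ρ) (t + x) - 1‖ := by
    intro t ht
    have h1 := Complex.abs_im_le_norm (pt (1 / 2 + ρ) (t + x) - 1)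
    have h2 : (pt (1 / 2 + ρ) (t + x) - 1).im = t + x := by simp
    rw [h2] at h1
    have h3 := (abs_le.1 hx).1
    have h4 := le_abs_self (t + x)
    linarith [ht.1]
  by_cases hv : |v| ≤ T / 4
  · -- the main range
    have hy : |x + v| ≤ T / 2 := (abs_add_le x v).trans (by linarith)
    have h1 := hms (x + v) hy
    have hne : ∀ t : ℝ, pt a (t + (x + v)) ≠ 1 := fun t h => by
      have := congrArg Complex.re h
      rw [pt_re, Complex.one_re] at this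
      linarith
    have hzc : Continuous fun t : ℝ => riemannZeta (pt a (t + (x + v))) := by
      refine continuous_iff_continuousAt.2 fun t => ?_
      have h2 : ContinuousAt (fun t : ℝ => pt a (t + (x + v))) t :=
        ((pt_cont a).comp (by fun_prop : Continuous fun t : ℝ => t + (x + v))).continuousAt
      exact ContinuousAt.comp (f := fun t : ℝ => pt a (t + (x + v)))
        (g := riemannZeta) (differentiableAt_riemannZeta (hne t)).continuousAt h2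
    have hMc : Continuous fun t : ℝ => Mp V M (pt a (t + (x + v))) :=
      (Mp_diff V M).continuous.comp
        ((pt_cont a).comp (by fun_prop : Continuous fun t : ℝ => t + (x + v)))
    have hfc : Continuous fun t : ℝ => w0 t *
        ‖riemannZeta (pt a (t + (x + v))) * Mp V M (pt a (t + (x + v)))‖ ^ 2 :=
      hw.mul ((hzc.mul hMc).norm.pow 2)
    have hpt : ∀ t ∈ Icc T (2 * T), ENNReal.ofReal (w0 t / ‖pt (1 / 2 + ρ) (t + x) - 1‖ ^ 2) *
        ENNReal.ofReal (‖gz V M (pt a (t + x + v))‖ ^ 2) ≤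
        ENNReal.ofReal (512 * (2 + |v|) ^ 2 * (w0 t *
        ‖riemannZeta (pt a (t + (x + v))) * Mp V M (pt a (t + (x + v)))‖ ^ 2 + w0 t)) := by
      intro t ht
      have hwt := hw0 t
      rw [← ENNReal.ofReal_mul (by positivity)]
      refine ENNReal.ofReal_le_ofReal ?_
      have e1 : t + x + v = t + (x + v) := by ring
      rw [e1, gz_eq V M (hne t)]
      obtain ⟨z, hz⟩ : ∃ z : ℂ, z = pt a (t + (x + v)) := ⟨_, rfl⟩
      obtain ⟨s, hs⟩ : ∃ s : ℂ, s = pt (1 / 2 + ρ) (t + x) := ⟨_, rfl⟩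
      have hsn := hs1 t ht
      rw [← hs] at hsn
      rw [← hz, ← hs]
      obtain ⟨X, hX⟩ : ∃ X : ℂ, X = riemannZeta z * Mp V M z := ⟨_, rfl⟩
      rw [← hX]
      have h3 : ‖z - 1‖ ≤ 16 * (2 + |v|) * ‖s - 1‖ := by
        have h4 : ‖z - s‖ ≤ 31 + |v| := by
          have h5 := Complex.norm_le_abs_re_add_abs_im (z - s)
          have h6 : (z - s).re = -(1 / 2 + ρ - a) := by rw [hz, hs]; simp
          have h7 : (z - s).im = v := by rw [hz, hs]; simp
          rw [h6, h7, abs_neg, abs_of_nonneg hr0] at h5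
          linarith
        have h5 : ‖z - 1‖ ≤ ‖z - s‖ + ‖s - 1‖ := by
          have := norm_add_le (z - s) (s - 1)
          simpa using this
        have h6 : 31 + |v| ≤ (31 + |v|) * ‖s - 1‖ := by
          nlinarith
        nlinarith
      have h4 : ‖X - 1‖ ^ 2 ≤ 2 * (‖X‖ ^ 2 + 1) := by
        have h5 : ‖X - 1‖ ≤ ‖X‖ + 1 := by
          have := norm_sub_le X 1
          simpa using this
        have h6 := norm_nonneg (X - 1)
        have h7 := norm_nonneg X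
        nlinarith [sq_nonneg (‖X‖ - 1)]
      have hsp : 0 < ‖s - 1‖ := by linarith
      rw [norm_mul, mul_pow]
      calc w0 t / ‖s - 1‖ ^ 2 * (‖z - 1‖ ^ 2 * ‖X - 1‖ ^ 2) ≤
          w0 t / ‖s - 1‖ ^ 2 * ((16 * (2 + |v|) * ‖s - 1‖) ^ 2 * (2 * (‖X‖ ^ 2 + 1))) := by
            gcongr
        _ = _ := by
            field_simp
            ring
    refine (setLIntegral_mono' measurableSet_Icc hpt).trans ?_
    have hfi : IntegrableOn (fun t : ℝ => 512 * (2 + |v|) ^ 2 * (w0 t *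
        ‖riemannZeta (pt a (t + (x + v))) * Mp V M (pt a (t + (x + v)))‖ ^ 2 + w0 t))
        (Icc T (2 * T)) := (continuous_const.mul (hfc.add hw)).continuousOn.integrableOn_Icc
    rw [← ofReal_integral_eq_lintegral_ofReal hfi (Eventually.of_forall fun t => by
      have hwt := hw0 t
      positivity)]
    refine ENNReal.ofReal_le_ofReal ?_
    rw [integral_Icc_eq_integral_Ioc, ← intervalIntegral.integral_of_le hTT,
      intervalIntegral.integral_const_mul, intervalIntegral.integral_add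
        (hfc.intervalIntegrable _ _) (hw.intervalIntegrable _ _)]
    have h5 : (2 + |v|) ^ 2 ≤ (2 + |v|) ^ 6 := pow_le_pow_right₀ (by linarith) (by norm_num)
    calc 512 * (2 + |v|) ^ 2 * ((∫ t in T..(2 * T), w0 t *
        ‖riemannZeta (pt a (t + (x + v))) * Mp V M (pt a (t + (x + v)))‖ ^ 2) +
        ∫ t in T..(2 * T), w0 t) ≤ 512 * (2 + |v|) ^ 2 * (C * m + 2 * m) := by gcongr
      _ ≤ 512 * (2 + |v|) ^ 6 * (C * m + 2 * m) := by gcongr
      _ ≤ KK C * (2 + |v|) ^ 6 * m := by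
          unfold KK
          have : 0 ≤ 2 * 4800 ^ 2 * (2 + |v|) ^ 6 * m := by positivity
          nlinarith
  · -- the trivial range
    push Not at hv
    have hpt : ∀ t ∈ Icc T (2 * T), ENNReal.ofReal (w0 t / ‖pt (1 / 2 + ρ) (t + x) - 1‖ ^ 2) *
        ENNReal.ofReal (‖gz V M (pt a (t + x + v))‖ ^ 2) ≤
        ENNReal.ofReal (4800 ^ 2 * (2 + |v|) ^ 6 * w0 t) := by
      intro t ht
      have hwt := hw0 t
      rw [← ENNReal.ofReal_mul (by positivity)]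
      refine ENNReal.ofReal_le_ofReal ?_
      have hsn := hs1 t ht
      have h1 : w0 t / ‖pt (1 / 2 + ρ) (t + x) - 1‖ ^ 2 ≤ w0 t :=
        div_le_self hwt (by nlinarith)
      have h2 := gz_triv hV hM1 (z := pt a (t + x + v)) (by rw [pt_re]; exact ha)
      have h3 : ‖pt a (t + x + v)‖ ≤ 1 + 10 * |v| := by
        have h4 := Complex.norm_le_abs_re_add_abs_im (pt a (t + x + v))
        rw [pt_re, pt_im, abs_of_nonneg (by linarith)] at h4
        have h5 : |t + x + v| ≤ |t| + |x| + |v| :=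
          (abs_add_le _ _).trans (add_le_add (abs_add_le _ _) le_rfl)
        have h6 : |t| = t := abs_of_nonneg (by linarith [ht.1])
        rw [h6] at h5
        linarith [ht.2]
      have h4 : ‖gz V M (pt a (t + x + v))‖ ≤ 4800 * (2 + |v|) ^ 3 := by
        refine h2.trans ?_
        have h5 : (1 + ‖pt a (t + x + v)‖) ^ 2 ≤ (10 * (2 + |v|)) ^ 2 := by
          have := norm_nonneg (pt a (t + x + v))
          exact pow_le_pow_left₀ (by linarith) (by linarith) 2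
        calc 12 * (M : ℝ) * (1 + ‖pt a (t + x + v)‖) ^ 2 ≤
            12 * (4 * (2 + |v|)) * (10 * (2 + |v|)) ^ 2 := by
              have : (M : ℝ) ≤ 4 * (2 + |v|) := by linarith
              gcongr
          _ = _ := by ring
      calc w0 t / ‖pt (1 / 2 + ρ) (t + x) - 1‖ ^ 2 * ‖gz V M (pt a (t + x + v))‖ ^ 2 ≤
          w0 t * (4800 * (2 + |v|) ^ 3) ^ 2 := by gcongr
        _ = _ := by ring
    refine (setLIntegral_mono' measurableSet_Icc hpt).trans ?_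
    have hfi : IntegrableOn (fun t : ℝ => 4800 ^ 2 * (2 + |v|) ^ 6 * w0 t)
        (Icc T (2 * T)) := (continuous_const.mul hw).continuousOn.integrableOn_Icc
    rw [← ofReal_integral_eq_lintegral_ofReal hfi (Eventually.of_forall fun t => by
      have hwt := hw0 t
      positivity)]
    refine ENNReal.ofReal_le_ofReal ?_
    rw [integral_Icc_eq_integral_Ioc, ← intervalIntegral.integral_of_le hTT,
      intervalIntegral.integral_const_mul]
    calc 4800 ^ 2 * (2 + |v|) ^ 6 * (∫ t in T..(2 * T), w0 t) ≤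
        4800 ^ 2 * (2 + |v|) ^ 6 * (2 * m) := by gcongr
      _ ≤ KK C * (2 + |v|) ^ 6 * m := by
          unfold KK
          have : 0 ≤ 512 * (C + 2) * (2 + |v|) ^ 6 * m := by positivity
          nlinarith

/-- **the mean square to the right of a line** -/
theorem right_core {T L a ρ x C m β₁ β₂ : ℝ} {V w0 : ℝ → ℝ} (hV : ∀ x, 0 ≤ V x ∧ V x ≤ 1)
    (h1 : ∀ x, x ≤ β₁ * L → V x = 1) (h0 : ∀ x, β₂ * L ≤ x → V x = 0) (hT : 10 ≤ T)
    (hL : L = Real.log T) (hL4 : 4 ≤ β₁ * L)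
    (hβ0 : 0 ≤ β₂) (hβ1 : β₂ ≤ 1)
    (ha : 1 / 10 ≤ a) (ha' : a ≤ 1 / 2) (hr0 : 0 < 1 / 2 + ρ - a) (hr : 1 / 2 + ρ - a ≤ 31)
    (hx : |x| ≤ T / 4) (hw : Continuous w0) (hw0 : ∀ t, 0 ≤ w0 t) (hm : 0 ≤ m) (hC : 0 ≤ C)
    (hmass : ∫ t in T..(2 * T), w0 t ≤ 2 * m)
    (hms : ∀ y : ℝ, |y| ≤ T / 2 → ∫ t in T..(2 * T), w0 t *
      ‖riemannZeta (pt a (t + y)) * Mp V ⌊T ^ β₂⌋₊ (pt a (t + y))‖ ^ 2 ≤ C * m) :
    ∫ t in T..(2 * T), w0 t *
      ‖riemannZeta (pt (1 / 2 + ρ) (t + x)) * Mp V ⌊T ^ β₂⌋₊ (pt (1 / 2 + ρ) (t + x)) - 1‖ ^ 2 ≤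
      31 ^ 0 * cB 4 0 * (31 ^ 6 * cB 4 6) * KK C *
        Real.exp (-(β₁ * L * (1 / 2 + ρ - a))) * m := by
  have hin := inner (ρ := ρ) hV hT hβ0 hβ1 ha ha' hr0.le hr hx hw hw0 hm hC hmass hms
  obtain ⟨G, hG⟩ := gz_growth hV h1 h0 (by linarith) hβ0 hL hL4 ha
  obtain ⟨M, hM⟩ : ∃ M : ℕ, M = ⌊T ^ β₂⌋₊ := ⟨_, rfl⟩
  rw [← hM] at hin hG ⊢
  obtain ⟨r, hrr⟩ : ∃ r : ℝ, r = 1 / 2 + ρ - a := ⟨_, rfl⟩
  rw [← hrr] at hr0 hr ⊢
  have hTT : T ≤ 2 * T := by linarith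
  set κ := kap 4 r with hκ
  have hκc : Continuous κ := kap_cont 4 hr0
  have hκ0 : ∀ v, 0 ≤ κ v := kap_nn 4 hr0
  obtain ⟨k1, k2⟩ := kap_polyR (B := 4) (p := 0) (by omega) hr0 hr (by norm_num)
  simp only [pow_zero, mul_one] at k1
  have k2' : ∫ v, κ v ≤ 31 ^ 0 * cB 4 0 := by
    refine le_trans (le_of_eq ?_) k2
    simp only [pow_zero, mul_one]
    rfl
  obtain ⟨k3, k4⟩ := kap_polyR (B := 4) (p := 6) (by omega) hr0 hr (by norm_num)
  rw [← hκ] at k1 k3 k4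
  obtain ⟨C0, hC0⟩ : ∃ C0 : ℝ, C0 = 31 ^ 0 * cB 4 0 := ⟨_, rfl⟩
  obtain ⟨C1, hC1⟩ : ∃ C1 : ℝ, C1 = 31 ^ 6 * cB 4 6 := ⟨_, rfl⟩
  have hC00 : 0 ≤ C0 := by rw [hC0]; have := cB_nn 4 0; positivity
  have hC10 : 0 ≤ C1 := by rw [hC1]; have := cB_nn 4 6; positivity
  rw [← hC0] at k2' ⊢
  rw [← hC1] at k4 ⊢
  have hKK : 0 ≤ KK C := by unfold KK; positivity
  set g := gz V M with hg
  have hgd : Differentiable ℂ g := gz_diff V M
  have hgc : Continuous fun t : ℝ => ‖g (pt a t)‖ := (hgd.continuous.comp (pt_cont _)).norm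
  obtain ⟨s₀, hs₀⟩ : ∃ s₀ : ℝ, s₀ = Real.exp (-(β₁ * L / 2 * r)) := ⟨_, rfl⟩
  have hs0 : 0 < s₀ := by rw [hs₀]; exact Real.exp_pos _
  have hs2 : s₀ ^ 2 = Real.exp (-(β₁ * L * r)) := by
    rw [hs₀, ← Real.exp_nat_mul]; congr 1; push_cast; ring
  set w : ℝ → ℝ := fun t => w0 t / ‖pt (1 / 2 + ρ) (t + x) - 1‖ ^ 2 with hwdef
  have hwm : Measurable w := by
    refine hw.measurable.div (Continuous.measurable ?_)
    have : Continuous fun t : ℝ => pt (1 / 2 + ρ) (t + x) - 1 :=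
      ((pt_cont _).comp (by fun_prop : Continuous fun t : ℝ => t + x)).sub continuous_const
    exact this.norm.pow 2
  have hne : ∀ t ∈ Icc T (2 * T), pt (1 / 2 + ρ) (t + x) ≠ 1 := by
    intro t ht h
    have := congrArg Complex.im h
    rw [pt_im, Complex.one_im] at this
    have h3 := (abs_le.1 hx).1
    linarith [ht.1]
  -- pointwise
  have hpt : ∀ t ∈ Icc T (2 * T), ENNReal.ofReal (w0 t *
      ‖riemannZeta (pt (1 / 2 + ρ) (t + x)) * Mp V M (pt (1 / 2 + ρ) (t + x)) - 1‖ ^ 2) ≤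
      ENNReal.ofReal (s₀ ^ 2 * C0) *
        ∫⁻ v, ENNReal.ofReal (κ v) * (ENNReal.ofReal (w t) *
          ENNReal.ofReal (‖g (pt a (t + x + v))‖ ^ 2)) := by
    intro t ht
    obtain ⟨i1, i2⟩ := cauchy_le hgd (a := a) (μ := β₁ * L / 2) (lam := 3 / 4 * (β₁ * L)) (G := G)
      (m := 2) (B := 4) (by norm_num) (by linarith) hG (s := pt (1 / 2 + ρ) (t + x))
      (by rw [pt_re]; linarith)
    have e0 : (pt (1 / 2 + ρ) (t + x)).re - a = r := by rw [pt_re, hrr]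
    rw [e0, pt_im] at i1 i2
    rw [← hκ, ← hs₀] at i2
    rw [← hκ] at i1
    have hcs := csE (f := fun v => ‖g (pt a (t + x + v))‖) (w := κ)
      (hgc.comp (by fun_prop : Continuous fun v : ℝ => t + x + v))
      (fun v => norm_nonneg _) hκ0 k1 hκc i1
    obtain ⟨Z, hZ⟩ : ∃ Z : ℝ, Z = ∫ v : ℝ, ‖g (pt a (t + x + v))‖ * κ v := ⟨_, rfl⟩
    rw [← hZ] at hcs i2
    have hsne : ‖pt (1 / 2 + ρ) (t + x) - 1‖ ≠ 0 := by
      rw [norm_ne_zero_iff, sub_ne_zero]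
      exact hne t ht
    have hwt := hw0 t
    have hwt' : 0 ≤ w t := by rw [hwdef]; positivity
    have e1 : w0 t * ‖riemannZeta (pt (1 / 2 + ρ) (t + x)) *
        Mp V M (pt (1 / 2 + ρ) (t + x)) - 1‖ ^ 2 ≤ s₀ ^ 2 * (w t * Z ^ 2) := by
      have e2 : w0 t * ‖riemannZeta (pt (1 / 2 + ρ) (t + x)) *
          Mp V M (pt (1 / 2 + ρ) (t + x)) - 1‖ ^ 2 = w t * ‖g (pt (1 / 2 + ρ) (t + x))‖ ^ 2 := by
        rw [hg, gz_eq V M (hne t ht), norm_mul, mul_pow, hwdef]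
        simp only
        obtain ⟨X, hX⟩ : ∃ X : ℝ, X = ‖pt (1 / 2 + ρ) (t + x) - 1‖ := ⟨_, rfl⟩
        obtain ⟨Y, hY⟩ : ∃ Y : ℝ, Y = ‖riemannZeta (pt (1 / 2 + ρ) (t + x)) *
          Mp V M (pt (1 / 2 + ρ) (t + x)) - 1‖ := ⟨_, rfl⟩
        rw [← hX] at hsne
        rw [← hX, ← hY, ← mul_assoc, div_mul_cancel₀ _ (pow_ne_zero 2 hsne)]
      rw [e2]
      calc w t * ‖g (pt (1 / 2 + ρ) (t + x))‖ ^ 2 ≤ w t * (s₀ * Z) ^ 2 := by gcongr
        _ = _ := by ring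
    refine (ENNReal.ofReal_le_ofReal e1).trans ?_
    rw [ENNReal.ofReal_mul (sq_nonneg s₀), ENNReal.ofReal_mul (sq_nonneg s₀), mul_assoc,
      ENNReal.ofReal_mul hwt']
    refine mul_le_mul' le_rfl ?_
    have hm1 : Measurable fun v : ℝ => ENNReal.ofReal (‖g (pt a (t + x + v))‖ ^ 2 * κ v) := by
      refine Measurable.ennreal_ofReal (Continuous.measurable ?_)
      exact ((hgc.comp (by fun_prop : Continuous fun v : ℝ => t + x + v)).pow 2).mul hκc
    calc ENNReal.ofReal (w t) * ENNReal.ofReal (Z ^ 2) ≤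
        ENNReal.ofReal (w t) * (ENNReal.ofReal (∫ v, κ v) *
          ∫⁻ v, ENNReal.ofReal (‖g (pt a (t + x + v))‖ ^ 2 * κ v)) := by gcongr
      _ ≤ ENNReal.ofReal (w t) * (ENNReal.ofReal C0 *
          ∫⁻ v, ENNReal.ofReal (‖g (pt a (t + x + v))‖ ^ 2 * κ v)) := by gcongr
      _ = ENNReal.ofReal C0 * (ENNReal.ofReal (w t) *
          ∫⁻ v, ENNReal.ofReal (‖g (pt a (t + x + v))‖ ^ 2 * κ v)) := by ring
      _ = _ := by
          congr 1
          rw [← lintegral_const_mul _ hm1]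
          refine lintegral_congr fun v => ?_
          rw [ENNReal.ofReal_mul (sq_nonneg _)]
          ring
  -- the exchange
  have hmeas : Measurable (Function.uncurry fun t v : ℝ =>
      ENNReal.ofReal (κ v) * (ENNReal.ofReal (w t) *
          ENNReal.ofReal (‖g (pt a (t + x + v))‖ ^ 2))) := by
    have m1 : Measurable fun q : ℝ × ℝ => ENNReal.ofReal (κ q.2) :=
      (hκc.measurable.comp measurable_snd).ennreal_ofReal
    have m2 : Measurable fun q : ℝ × ℝ => ENNReal.ofReal (w q.1) :=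
      (hwm.comp measurable_fst).ennreal_ofReal
    have m3 : Measurable fun q : ℝ × ℝ => ENNReal.ofReal (‖g (pt a (q.1 + x + q.2))‖ ^ 2) := by
      refine Measurable.ennreal_ofReal (Continuous.measurable ?_)
      have c1 : Continuous fun q : ℝ × ℝ => ‖g (pt a (q.1 + x + q.2))‖ := hgc.comp (by fun_prop)
      exact c1.pow 2
    exact m1.mul (m2.mul m3)
  have hswap : ∫⁻ t in Icc T (2 * T), ∫⁻ v, ENNReal.ofReal (κ v) * (ENNReal.ofReal (w t) *
          ENNReal.ofReal (‖g (pt a (t + x + v))‖ ^ 2)) ≤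
      ENNReal.ofReal (KK C * m * C1) := by
    rw [lintegral_lintegral_swap hmeas.aemeasurable]
    have e2 : ∀ v : ℝ, ∫⁻ t in Icc T (2 * T), ENNReal.ofReal (κ v) * (ENNReal.ofReal (w t) *
          ENNReal.ofReal (‖g (pt a (t + x + v))‖ ^ 2)) ≤
        ENNReal.ofReal (KK C * m * (κ v * (2 + |v|) ^ 6)) := by
      intro v
      have hm2 : Measurable fun t : ℝ => ENNReal.ofReal (w t) *
          ENNReal.ofReal (‖g (pt a (t + x + v))‖ ^ 2) := by
        refine hwm.ennreal_ofReal.mul (Measurable.ennreal_ofReal (Continuous.measurable ?_))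
        exact (hgc.comp (by fun_prop : Continuous fun t : ℝ => t + x + v)).pow 2
      rw [lintegral_const_mul _ hm2]
      calc ENNReal.ofReal (κ v) * ∫⁻ t in Icc T (2 * T), ENNReal.ofReal (w t) *
          ENNReal.ofReal (‖g (pt a (t + x + v))‖ ^ 2) ≤
          ENNReal.ofReal (κ v) * ENNReal.ofReal (KK C * (2 + |v|) ^ 6 * m) := by
            gcongr
            exact hin v
        _ = _ := by
            rw [← ENNReal.ofReal_mul (hκ0 v)]
            congr 1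
            ring
    refine (lintegral_mono e2).trans ?_
    have hn : ∀ v : ℝ, 0 ≤ KK C * m * (κ v * (2 + |v|) ^ 6) := fun v => by
      have := hκ0 v
      positivity
    rw [← ofReal_integral_eq_lintegral_ofReal (k3.const_mul _) (Eventually.of_forall hn),
      integral_const_mul]
    exact ENNReal.ofReal_le_ofReal (mul_le_mul_of_nonneg_left k4 (by positivity))
  have htot : ∫⁻ t in Icc T (2 * T), ENNReal.ofReal (w0 t *
      ‖riemannZeta (pt (1 / 2 + ρ) (t + x)) * Mp V M (pt (1 / 2 + ρ) (t + x)) - 1‖ ^ 2) ≤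
      ENNReal.ofReal (C0 * C1 * KK C * Real.exp (-(β₁ * L * r)) * m) := by
    refine (setLIntegral_mono' measurableSet_Icc hpt).trans ?_
    have m3 : Measurable fun t : ℝ => ∫⁻ v, ENNReal.ofReal (κ v) * (ENNReal.ofReal (w t) *
          ENNReal.ofReal (‖g (pt a (t + x + v))‖ ^ 2)) := hmeas.lintegral_prod_right'
    rw [lintegral_const_mul _ m3]
    calc ENNReal.ofReal (s₀ ^ 2 * C0) * _ ≤
        ENNReal.ofReal (s₀ ^ 2 * C0) * ENNReal.ofReal (KK C * m * C1) := by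
          gcongr
      _ = _ := by
          rw [← ENNReal.ofReal_mul (by positivity), hs2]
          congr 1
          ring
  -- back to the interval integral
  have hcont : ContinuousOn (fun t : ℝ => w0 t *
      ‖riemannZeta (pt (1 / 2 + ρ) (t + x)) * Mp V M (pt (1 / 2 + ρ) (t + x)) - 1‖ ^ 2)
      (Icc T (2 * T)) := by
    refine hw.continuousOn.mul (ContinuousOn.pow (ContinuousOn.norm ?_) 2)
    have hpc : Continuous fun t : ℝ => pt (1 / 2 + ρ) (t + x) :=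
      (pt_cont _).comp (by fun_prop : Continuous fun t : ℝ => t + x)
    refine ContinuousOn.sub (ContinuousOn.mul ?_ ?_) continuousOn_const
    · intro t ht
      refine ContinuousAt.continuousWithinAt ?_
      exact ContinuousAt.comp (f := fun t : ℝ => pt (1 / 2 + ρ) (t + x))
        (g := riemannZeta) (differentiableAt_riemannZeta (hne t ht)).continuousAt hpc.continuousAt
    · exact ((Mp_diff V M).continuous.comp hpc).continuousOn
  have hfi := hcont.integrableOn_Icc (μ := volume)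
  rw [← ofReal_integral_eq_lintegral_ofReal hfi (Eventually.of_forall fun t => by
      have hwt := hw0 t
      positivity)] at htot
  rw [intervalIntegral.integral_of_le hTT, ← integral_Icc_eq_integral_Ioc]
  refine (ENNReal.ofReal_le_ofReal_iff ?_).1 htot
  positivity

/-- **RIGHT** -/
theorem right (hmz : S_mz) : S_rt := by
  obtain ⟨β₁, β₂, C, δ, T0, hb1, hb12, hb2, hC, hδ, hT0, H⟩ := hmz
  obtain ⟨T1, hT1, Hm⟩ := rh_mass
  obtain ⟨D, hD⟩ : ∃ D : ℝ, D = 31 ^ 0 * cB 4 0 * (31 ^ 6 * cB 4 6) * KK C := ⟨_, rfl⟩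
  have hKK : 0 ≤ KK C := by unfold KK; positivity
  have hD0 : 0 ≤ D := by
    rw [hD]
    have h1 := cB_nn 4 0
    have h2 := cB_nn 4 6
    positivity
  refine ⟨β₁, β₂, β₁, D + 1, min δ (1 / 8), max (max T0 T1) (Real.exp (max 10 (4 / β₁))), hb1,
    hb12, hb2, hb1, by linarith, lt_min hδ (by norm_num),
    hT0.trans ((le_max_left _ _).trans (le_max_left _ _)), fun T hT => ?_⟩
  have hTT0 : T0 ≤ T := ((le_max_left _ _).trans (le_max_left _ _)).trans hT
  have hTT1 : T1 ≤ T := ((le_max_right _ _).trans (le_max_left _ _)).trans hT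
  have hT10 : 10 ≤ T := hT0.trans hTT0
  have hTpos : 0 < T := by linarith
  have hLb : max 10 (4 / β₁) ≤ Real.log T := by
    rw [Real.le_log_iff_exp_le hTpos]
    exact (le_max_right _ _).trans hT
  have hL10 : 10 ≤ Real.log T := (le_max_left _ _).trans hLb
  have hL4 : 4 ≤ β₁ * Real.log T := by
    have := (le_max_right _ _).trans hLb
    rw [div_le_iff₀ hb1] at this
    linarith
  obtain ⟨V, hV, hV1, hV0, hms⟩ := H T hTT0
  refine ⟨V, hV, hV1, hV0, fun S hS r τ Hh hH x hx ρ hρ1 hρ2 => ?_⟩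
  have hT1' : 1 ≤ T := by linarith
  have hmn : min δ (1 / 8) ≤ δ := min_le_left _ _
  have hmn' : min δ (1 / 8 : ℝ) ≤ 1 / 8 := min_le_right _ _
  have hS1 : Len S (T ^ δ) := Len_mono hS (Real.rpow_le_rpow_of_exponent_le hT1' hmn)
  have hS2 : Len S (T ^ (1 / 8 : ℝ)) := Len_mono hS (Real.rpow_le_rpow_of_exponent_le hT1' hmn')
  have hH1 : T ^ (1 - δ) ≤ Hh :=
    (Real.rpow_le_rpow_of_exponent_le hT1' (by linarith)).trans hH
  have hH2 : T ^ (7 / 8 : ℝ) ≤ Hh :=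
    (Real.rpow_le_rpow_of_exponent_le hT1' (by linarith)).trans hH
  have hHpos : 0 < Hh := lt_of_lt_of_le (Real.rpow_pos_of_pos hTpos _) hH1
  have hmr : 0 ≤ mr Hh S r := by
    unfold mr
    have := w1_nonneg S r
    positivity
  have hmass : ∫ t in T..(2 * T), rh τ Hh S r t ≤ 2 * mr Hh S r := by
    rw [intervalIntegral.integral_of_le (by linarith)]
    refine (setIntegral_le_integral (rh_intg hHpos S r)
      (Eventually.of_forall fun t => rh_nonneg _ _ _ _ t)).trans ?_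
    exact Hm T hTT1 S hS2 r τ Hh hH2
  have hLi : 1 / Real.log T ≤ 1 / 10 := one_div_le_one_div_of_le (by norm_num) hL10
  have hLi0 : 0 < 1 / Real.log T := by positivity
  have hhalf : 1 / (2 * Real.log T) = 1 / Real.log T / 2 := by
    rw [div_div, mul_comm]
  rw [hhalf] at hρ1
  have key := right_core (a := 1 / 2 - 1 / Real.log T) (ρ := ρ) (x := x) (C := C)
    (m := mr Hh S r) (w0 := rh τ Hh S r) hV hV1 hV0 hT10 rfl hL4 (by linarith) (by linarith)
    (by linarith) (by linarith) (by linarith) (by linarith) hx (rh_cont _ _ _ _)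
    (rh_nonneg _ _ _ _) hmr hC.le hmass (fun y hy => hms S hS1 r τ Hh hH1 y hy)
  refine key.trans ?_
  rw [← hD]
  have hE : Real.exp (-(β₁ * Real.log T * (1 / 2 + ρ - (1 / 2 - 1 / Real.log T)))) ≤
      Real.exp (-(β₁ * Real.log T * ρ)) := by
    apply Real.exp_le_exp.2
    have : 0 ≤ β₁ * Real.log T * (1 / Real.log T) := by positivity
    nlinarith
  have hE0 := Real.exp_pos (-(β₁ * Real.log T * ρ))
  calc D * Real.exp (-(β₁ * Real.log T * (1 / 2 + ρ - (1 / 2 - 1 / Real.log T)))) * mr Hh S r ≤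
      (D + 1) * Real.exp (-(β₁ * Real.log T * ρ)) * mr Hh S r := by
        gcongr
        linarith
    _ = _ := by ring

end Pool.Agent.N802.WD
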