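import Pool.Agent.N802.WD.Stm2
import Pool.Agent.N802.U.Sharp4
import Pool.Agent.N845.U2.Sh1

/-!
# From Gaussian weights to the zeros with ordinates in `(T, T + K]`: windows of width `H₀ / log T`

Adaptation (helper455) of `Pool.Agent.N802.U.sharp4` and `Pool.Agent.N802.X.sharpC`.
-/

open Complex Filter Topology Set MeasureTheory
open scoped BigOperators ComplexConjugate

namespace Pool.Agent.N802.WD

open H370 hiding pt
open TC Pool.Agent.N802.U
open Pool.Agent.N845.U2 (cnt cnt_nonneg ev lower upper pts_lower pts_upper)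

open Pool.Agent.N802.U.Sharpaux

theorem RP_card' (S : Finset ℕ) (r : ℕ → ℂ) (t : ℝ) :
    ‖RP S r t‖ ^ 2 ≤ (S.card : ℝ) * w1 S r := by
  have h1 : ‖RP S r t‖ ≤ ∑ k ∈ S, ‖r k‖ := by
    unfold RP TP
    refine (norm_sum_le _ _).trans (Finset.sum_le_sum fun k _ => ?_)
    rw [norm_mul, mn_norm, mul_one]
  have h2 : (∑ k ∈ S, ‖r k‖) ^ 2 ≤ (S.card : ℝ) * ∑ k ∈ S, ‖r k‖ ^ 2 := sq_sum_le_card_mul_sum_sq
  exact (pow_le_pow_left₀ (norm_nonneg _) h1 2).trans h2

theorem card_Len {S : Finset ℕ} {N : ℝ} (hN : 0 ≤ N) (hS : Len S N) : (S.card : ℝ) ≤ N := by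
  have h1 : S ⊆ Finset.Icc 1 ⌊N⌋₊ := by
    intro k hk
    obtain ⟨h1, h2⟩ := hS k hk
    rw [Finset.mem_Icc]
    exact ⟨by omega, Nat.le_floor h2⟩
  have h2 := Finset.card_le_card h1
  rw [Nat.card_Icc, Nat.add_sub_cancel] at h2
  exact le_trans (by exact_mod_cast h2) (Nat.floor_le hN)

/-- from Gaussian weights to the zeros in `(T, T + K]` -/
theorem sharpD {F : ℂ → ℂ} (hF : GoodL F) {q : ℝ} {c : ℂ → ℝ} (hq : 1 / 2 ≤ q) (hq1 : q ≤ 1)
    (hc0 : ∀ s, 0 ≤ c s) (hcm : ∀ s, 0 < s.re → s.re < 1 → 1 < s.im → F s = 0 → c s ≤ mult F s)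
    (hcore : S_coreD F q c) : S_sharpD F q c := by
  classical
  intro ε hε hε1
  obtain ⟨CN, hCN, hN⟩ := NN_crude hF
  obtain ⟨κ, hκ⟩ : ∃ κ : ℝ, κ = ε / 100 := ⟨_, rfl⟩
  have hκ0 : 0 < κ := by rw [hκ]; positivity
  have hκ1 : κ ≤ 1 / 100 := by rw [hκ]; linarith
  have hεκ : ε = 100 * κ := by rw [hκ]; ring
  obtain ⟨δ1, Hc, T1, hδ1, hHc, hT1, core⟩ := hcore κ hκ0 (by linarith)
  obtain ⟨δm, hδm⟩ : ∃ δm : ℝ, δm = min δ1 (1 / 2) := ⟨_, rfl⟩
  have hδm0 : 0 < δm := by rw [hδm]; positivity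
  have hδm1 : δm ≤ δ1 := by rw [hδm]; exact min_le_left _ _
  have hδm3 : δm ≤ 1 / 2 := by rw [hδm]; exact min_le_right _ _
  obtain ⟨δ, hδ⟩ : ∃ δ : ℝ, δ = δm / 4 := ⟨_, rfl⟩
  have hδ0 : 0 < δ := by rw [hδ]; positivity
  have hδb : 4 * δ ≤ δ1 := by rw [hδ]; linarith
  have hδd : δ ≤ 1 / 8 := by rw [hδ]; linarith
  have hev := (ev (δ := δm) (κ := κ) (c := 1) (C := CN) (T1 := T1) hδm0 hδm3 hκ0 one_pos hCN)
  obtain ⟨T0, hT0⟩ := eventually_atTop.1 hev
  refine ⟨δ, 2 * Hc + 1, max T0 10, hδ0, by positivity, le_max_right _ _, ?_⟩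
  intro T hT h hha hhb K hK1 hK2 S hS r
  obtain ⟨⟨g1, g2⟩, ⟨g3, g3'⟩, ⟨g4, g5, g5'⟩, g6, g7, g8, g9, g10, g11⟩ :=
    hT0 T ((le_max_left _ _).trans hT)
  obtain ⟨T', hT'⟩ : ∃ T' : ℝ, T' = 9 / 10 * T := ⟨_, rfl⟩
  rw [← hT'] at g2 g3 g3' g4 g5 g5' g6 g7 g8 g9 g10
  have hT'9 : 9 ≤ T' := by rw [hT']; linarith
  obtain ⟨U1, U2, u1, u2, u3, u4, core⟩ := core T' g2
  obtain ⟨L, hL⟩ : ∃ L : ℝ, L = Real.log T := ⟨_, rfl⟩
  obtain ⟨L', hL'⟩ : ∃ L' : ℝ, L' = Real.log T' := ⟨_, rfl⟩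
  rw [← hL'] at g3 g3' g4 g5 g5' g7 g8 g9 g10 core
  rw [← hL] at g3 g3' g5 g5' hha ⊢
  have hT0' : 0 < T := by linarith
  have hT'0 : 0 < T' := by linarith
  have hL'p : 0 < L' := by
    rw [hL']
    exact Real.log_pos (by linarith)
  have hLp : 0 < L := by linarith
  have hL2 : L ≤ 2 * L' := by
    have : κ * L ≤ 1 / 100 * L := mul_le_mul_of_nonneg_right hκ1 hLp.le
    linarith only [g3, this, hLp]
  -- the window
  have hh0 : 0 < h := lt_of_lt_of_le (by positivity) hha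
  have hhL : 2 * Hc + 1 ≤ h * L := by
    rw [div_le_iff₀ hLp] at hha
    exact hha
  have hhc : h ≤ 1 := by linarith
  have hha' : Hc / L' ≤ h := by
    rw [div_le_iff₀ hL'p]
    have : h * L ≤ h * (2 * L') := mul_le_mul_of_nonneg_left hL2 hh0.le
    linarith
  have hhb' : h ≤ δ1 := by linarith
  have hTKm : T ^ (1 - δm / 4) ≤ K := by
    rw [← hδ]
    exact hK1
  have hTK : T ^ (1 - (1 / 2 : ℝ) / 4) ≤ K := by
    refine le_trans ?_ hK1
    exact Real.rpow_le_rpow_of_exponent_le (by linarith) (by linarith)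
  have hK0 : 0 < K := lt_of_lt_of_le (by positivity) hTK
  -- the width
  obtain ⟨D, hD⟩ : ∃ D : ℝ, D = κ * K := ⟨_, rfl⟩
  have hD0 : 0 < D := by rw [hD]; positivity
  obtain ⟨H, hH⟩ : ∃ H : ℝ, H = D / L' := ⟨_, rfl⟩
  have hH0 : 0 < H := by rw [hH]; positivity
  have hLH : L' * H = D := by rw [hH]; field_simp
  have hHm : T' ^ (1 - δm) ≤ H := by
    rw [hH, le_div_iff₀ hL'p]
    refine g7.trans ?_
    rw [hD]
    exact mul_le_mul_of_nonneg_left hTKm hκ0.le
  have hH1 : 1 ≤ H := le_trans (Real.one_le_rpow (by linarith) (by linarith)) hHm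
  have hHa : T' ^ (1 - δ1) ≤ H :=
    le_trans (Real.rpow_le_rpow_of_exponent_le (by linarith) (by linarith)) hHm
  have hD2 : 2 < D := by
    rw [hD]
    refine lt_of_lt_of_le g11 (mul_le_mul_of_nonneg_left ?_ hκ0.le)
    refine le_trans ?_ hTK
    exact Real.rpow_le_rpow_of_exponent_le (by linarith) (by norm_num)
  have hDT : D ≤ T / 200 := by
    rw [hD]
    calc κ * K ≤ 1 / 100 * (T / 2) := mul_le_mul hκ1 hK2 hK0.le (by norm_num)
      _ = T / 200 := by ring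
  have hDK : D ≤ K / 100 := by
    rw [hD]
    calc κ * K ≤ 1 / 100 * K := mul_le_mul_of_nonneg_right hκ1 hK0.le
      _ = K / 100 := by ring
  -- lengths
  have hSa : Len S (T' ^ δ1) := fun k hk => by
    obtain ⟨h1, h2⟩ := hS k hk
    refine ⟨h1, h2.trans ?_⟩
    calc T ^ δ = T ^ (δm / 4) := by rw [hδ]
      _ ≤ T' ^ δm := g6
      _ ≤ T' ^ δ1 := Real.rpow_le_rpow_of_exponent_le (by linarith) hδm1
  -- the crude bound
  have hw0 : 0 ≤ w1 S r := Pool.Agent.N802.w1_nonneg S r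
  have hM : ∀ t, ‖RP S r t‖ ^ 2 ≤ T * w1 S r := fun t => by
    refine (RP_card' S r t).trans (mul_le_mul_of_nonneg_right ?_ hw0)
    refine (card_Len (by positivity) hS).trans ?_
    calc T ^ δ ≤ T ^ (1 : ℝ) := Real.rpow_le_rpow_of_exponent_le (by linarith) (by linarith)
      _ = T := Real.rpow_one T
  have hf : Continuous (fun t => ‖RP S r t‖ ^ 2) := by
    have : Continuous (RP S r) := Pool.Agent.N802.TP_cont _ _ _ _
    exact this.norm.pow 2
  have hf0 : ∀ t, 0 ≤ ‖RP S r t‖ ^ 2 := fun t => by positivity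
  have hsqrt : 1 ≤ Real.sqrt (2 * Real.pi) := by
    rw [Real.one_le_sqrt]
    linarith only [Real.pi_gt_three]
  obtain ⟨P, hP⟩ : ∃ P : ℝ, P = Real.sqrt (2 * Real.pi) * H := ⟨_, rfl⟩
  have hP1 : 1 ≤ P := by
    rw [hP]
    exact one_le_mul_of_one_le_of_one_le hsqrt hH1
  have hmr : mr H S r = P * w1 S r := by
    unfold mr
    rw [hP]
  replace core := core h
  have hhπ : 1 / 4 ≤ h * L / Real.pi := by
    have hpi4 := Real.pi_le_four
    have hpi := Real.pi_pos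
    rw [div_le_div_iff₀ (by norm_num) hpi]
    linarith
  have hLT : L' ≤ T := by linarith only [g8, hT0']
  have hcardN : ∑ s ∈ Zf F U1 U2, (mult F s : ℝ) ≤ CN * (T' * L') := by
    have e2 := hN T' (by linarith only [hT'9]) U1 U2 u1 u4
    rw [NN_eq hF (by linarith only [u1, hT'9] : 1 ≤ U1), ← hL'] at e2
    push_cast at e2
    exact e2
  -- the small error term
  have hsmall : ∀ {Z : Finset ℂ} {m : ℂ → ℝ}, (∀ s, 0 ≤ m s) → (∑ s ∈ Z, m s) ≤ CN * (T' * L') →
      Real.exp (-(D ^ 2) / (2 * H ^ 2)) * ((2 * T' - L' - (T' + L')) *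
        (T * w1 S r * ∑ s ∈ Z, m s)) ≤ w1 S r * (κ * (1 / 4)) := by
    intro Z m hm1 hcard
    have e0 : -(D ^ 2) / (2 * H ^ 2) = -L' ^ 2 / 2 := by
      rw [← hLH]
      field_simp
    rw [e0]
    have e1 : 2 * T' - L' - (T' + L') ≤ T := by rw [hT']; linarith only [hL'p, hT0']
    have e2 : 0 ≤ 2 * T' - L' - (T' + L') := by rw [hT']; linarith only [g8, hT0']
    have e3 : T' * L' ≤ T ^ 2 := by
      have : T' ≤ T := by rw [hT']; linarith only [hT0']
      rw [sq]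
      exact mul_le_mul this hLT hL'p.le hT0'.le
    have e4 : 0 ≤ ∑ s ∈ Z, m s := Finset.sum_nonneg fun s _ => hm1 s
    calc Real.exp (-L' ^ 2 / 2) * ((2 * T' - L' - (T' + L')) *
          (T * w1 S r * ∑ s ∈ Z, m s)) ≤
        Real.exp (-L' ^ 2 / 2) * (T * (T * w1 S r * (CN * T ^ 2))) := by
          apply mul_le_mul_of_nonneg_left _ (Real.exp_pos _).le
          apply mul_le_mul e1 _ (mul_nonneg (mul_nonneg hT0'.le hw0) e4) hT0'.le
          apply mul_le_mul_of_nonneg_left _ (mul_nonneg hT0'.le hw0)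
          exact hcard.trans (mul_le_mul_of_nonneg_left e3 hCN.le)
      _ = w1 S r * (CN * T ^ 4 * Real.exp (-L' ^ 2 / 2)) := by ring
      _ ≤ w1 S r * (CN * T ^ 5 * Real.exp (-L' ^ 2 / 2)) := by
          have h4 : T ^ 4 ≤ T ^ 5 := pow_le_pow_right₀ (by linarith only [g1]) (by norm_num)
          gcongr
      _ ≤ w1 S r * (κ * (1 / 4)) := mul_le_mul_of_nonneg_left g10 hw0
  have hcore := fun τ (hτ1 : T' + L' * (H + 1) ≤ τ) (hτ2 : τ ≤ 2 * T' - L' * (H + 1)) =>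
    core hha' hhb' S hSa r τ H hHa hτ1 hτ2
  -- a lower bound
  have hlowgen : ∀ {q : ℝ} {Z Z' : Finset ℂ} {m : ℂ → ℝ}, 1 / 2 ≤ q → q ≤ 1 → (∀ s, 0 ≤ m s) →
      (∑ s ∈ Z, m s) ≤ CN * (T' * L') →
      (∀ s ∈ Z, (T + 2 * D - D) - h ≤ s.im → s.im ≤ (T + K - 2 * D + D) + h → s ∈ Z') →
      (∀ τ ∈ Set.Icc (T + 2 * D) (T + K - 2 * D),
        (q - κ) * (P * w1 S r * (h * L' / Real.pi)) ≤
          ∫ t in (T' + L')..(2 * T' - L'), om τ H t * (‖RP S r t‖ ^ 2 * cnt Z m h t)) →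
      (q - ε) * (K / (2 * Real.pi) * L * w1 S r) ≤ ∑ s ∈ Z', m s * Mh S r h s.im := by
    intro q Z Z' m hq hq1 hm1 hcard hZZ hB
    have hlow := lower (f := fun t => ‖RP S r t‖ ^ 2) hf hf0 hM (Z := Z) (m := m) hm1
      (h := h) (H := H) (D := D) (a := T + 2 * D) (b := T + K - 2 * D) (c := T' + L')
      (d := 2 * T' - L') (B := (q - κ) * (P * w1 S r * (h * L' / Real.pi))) hH0 hD0.le
      (by linarith only [hDK, hK0]) (by rw [hT']; linarith only [hD0, g8, hT0'])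
      (by rw [hT']; linarith only [hDK, hK0, hK2, g8, hT0', hD0]) hB
    have hpts := pts_lower (f := fun t => ‖RP S r t‖ ^ 2) hf hf0 (Z := Z) (Z' := Z')
      (m := m) hm1 (h := h) (h1 := h) (a := T + 2 * D - D) (b := T + K - 2 * D + D)
      (by linarith only [hDK, hK0]) le_rfl hh0.le hZZ
    rw [← Mh_sum S r hh0 Z' m] at hpts
    rw [hεκ]
    refine num_low (q := q) (K := K) (w := w1 S r) (κ := κ) (h := h)
      (L := L) (L' := L') (P := P) (Q := ∫ t in (T + 2 * D - D)..(T + K - 2 * D + D),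
        ‖RP S r t‖ ^ 2 * cnt Z m h t)
      (A := Real.exp (-(D ^ 2) / (2 * H ^ 2)) * ((2 * T' - L' - (T' + L')) *
        (T * w1 S r * ∑ s ∈ Z, m s))) hq hq1 hκ0 hκ1 hK0.le hw0 hh0 hP1 hLp hhπ
        g3 ?_ (hsmall hm1 hcard) hpts
    have e : T + K - 2 * D - (T + 2 * D) = K * (1 - 4 * κ) := by rw [hD]; ring
    rw [e, ← hP] at hlow
    exact hlow
  have hτlow : ∀ τ ∈ Set.Icc (T + 2 * D) (T + K - 2 * D), T' + L' * (H + 1) ≤ τ ∧
      τ ≤ 2 * T' - L' * (H + 1) := by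
    intro τ hτ
    constructor
    · rw [mul_add, mul_one, hLH, hT']
      have := hτ.1
      linarith only [this, g8, hDT, hT0', hD0]
    · rw [mul_add, mul_one, hLH, hT']
      have := hτ.2
      linarith only [this, g8, hDT, hT0', hD0, hK2]
  have hZmem : ∀ s ∈ Zf F U1 U2, (T + 2 * D - D) - h ≤ s.im → s.im ≤ (T + K - 2 * D + D) + h →
      s ∈ Zf F T (T + K) := by
    intro s hs hs1 hs2
    have hsz := (mem_Zf hF (by linarith only [u1, hT'9] : 1 ≤ U1)).1 hs
    exact (mem_Zf hF (by linarith only [g1] : 1 ≤ T)).2 ⟨hsz.1, hsz.2.1,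
      by linarith only [hs1, hhc, hD2], by linarith only [hs2, hhc, hD2],
      hsz.2.2.2.2⟩
  refine ⟨?_, ?_, ?_⟩
  · -- lower bound with the weights `c`
    have hcard : (∑ s ∈ Zf F U1 U2, c s) ≤ CN * (T' * L') := by
      refine le_trans (Finset.sum_le_sum fun s hs => ?_) hcardN
      have hsz := (mem_Zf hF (by linarith only [u1, hT'9] : 1 ≤ U1)).1 hs
      exact hcm s hsz.1 hsz.2.1 (by linarith only [hsz.2.2.1, u1, hT'9]) hsz.2.2.2.2
    exact hlowgen (q := q) (Z := Zf F U1 U2) (Z' := Zf F T (T + K))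
        (m := c) hq hq1 hc0 hcard hZmem
        (fun τ hτ => by
          have h2 := (hcore τ (hτlow τ hτ).1 (hτlow τ hτ).2).1
          rw [hmr] at h2
          refine h2.trans (le_of_eq ?_)
          refine intervalIntegral.integral_congr fun t _ => ?_
          unfold rh
          ring)
  · -- upper bound
    have hm1 : ∀ s : ℂ, (0 : ℝ) ≤ (fun s : ℂ => (mult F s : ℝ)) s := fun s => Nat.cast_nonneg _
    have hup := upper (f := fun t => ‖RP S r t‖ ^ 2) hf hf0 (Z := Zf F U1 U2)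
      (m := fun s => (mult F s : ℝ)) hm1
      (h := h) (H := H) (D := D) (a := T - 2 * D) (b := T + K + 2 * D) (c := T' + L')
      (d := 2 * T' - L') (B := (1 + κ) * (P * w1 S r * (h * L' / Real.pi))) hH0 hD0.le
      (by linarith only [hD0, hK0]) (by rw [hT']; linarith only [hDT, g8, hT0'])
      (by rw [hT']; linarith only [hDT, g8, hT0', hK2])
      (fun τ hτ => by
        have h3 := (hcore τ (by
          rw [mul_add, mul_one, hLH, hT']
          have := hτ.1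
          linarith only [this, g8, hDT, hT0', hD0]) (by
          rw [mul_add, mul_one, hLH, hT']
          have := hτ.2
          linarith only [this, g8, hDT, hT0', hD0, hK2])).2.1
        rw [hmr] at h3
        refine le_trans (le_of_eq ?_) h3
        refine intervalIntegral.integral_congr fun t _ => ?_
        rw [na_cnt]
        unfold rh
        ring)
    have hpts := pts_upper (f := fun t => ‖RP S r t‖ ^ 2) hf hf0 (Z := Zf F U1 U2)
      (Z' := Zf F T (T + K)) (m := fun s => (mult F s : ℝ)) hm1 (h := h) (h2 := h)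
      (a := T - 2 * D + D) (b := T + K + 2 * D - D)
      (by linarith only [hD0, hK0]) le_rfl hh0.le (fun s hs => by
        have hsz := (mem_Zf hF (by linarith only [g1] : 1 ≤ T)).1 hs
        refine (mem_Zf hF (by linarith only [u1, hT'9] : 1 ≤ U1)).2
          ⟨hsz.1, hsz.2.1, ?_, ?_, hsz.2.2.2.2⟩
        · refine lt_of_le_of_lt ?_ hsz.2.2.1
          rw [hT'] at u2
          linarith only [u2, g1]
        · refine hsz.2.2.2.1.trans ?_
          rw [hT'] at u3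
          linarith only [u3, g1, hK2]) (fun s hs => by
        have hsz := (mem_Zf hF (by linarith only [g1] : 1 ≤ T)).1 hs
        exact ⟨by linarith only [hsz.2.2.1, hhc, hD2], by linarith only [hsz.2.2.2.1, hhc, hD2]⟩)
    rw [← Mh_sum S r hh0 (Zf F T (T + K)) (fun s => (mult F s : ℝ))] at hpts
    rw [hεκ]
    have e0 : -(D ^ 2) / (4 * H ^ 2) = -L' ^ 2 / 4 := by
      rw [← hLH]
      field_simp
    rw [e0, ← hP] at hup
    have e : T + K + 2 * D - (T - 2 * D) = K * (1 + 4 * κ) := by rw [hD]; ring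
    rw [e] at hup
    refine num_up (K := K) (w := w1 S r) (κ := κ) (h := h)
      (L := L) (L' := L') (P := P) (θ := 2 * Real.exp (-L' ^ 2 / 4))
      (I := ∫ t in (T - 2 * D + D)..(T + K + 2 * D - D),
        ‖RP S r t‖ ^ 2 * cnt (Zf F U1 U2) (fun s => (mult F s : ℝ)) h t) hκ0 hκ1 hK0.le hw0 hh0
      (by linarith only [hP1]) hL'p.le g9 ?_ g3' hup hpts
    exact intervalIntegral.integral_nonneg (by linarith only [hD0, hK0]) fun t _ =>
      mul_nonneg (hf0 t) (cnt_nonneg hm1 h t)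
  · -- lower bound for all zeros
    have hm1 : ∀ s : ℂ, (0 : ℝ) ≤ (fun s : ℂ => (mult F s : ℝ)) s := fun s => Nat.cast_nonneg _
    exact hlowgen (q := 1) (Z := Zf F U1 U2) (Z' := Zf F T (T + K))
      (m := fun s => (mult F s : ℝ)) (by norm_num) le_rfl hm1 hcardN hZmem
      (fun τ hτ => by
        have h2 := (hcore τ (hτlow τ hτ).1 (hτlow τ hτ).2).2.2
        rw [hmr] at h2
        refine h2.trans (le_of_eq ?_)
        refine intervalIntegral.integral_congr fun t _ => ?_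
        rw [na_cnt]
        unfold rh
        ring)

end Pool.Agent.N802.WD
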