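import Pool.Agent.N802.WD.Core6
import Pool.Agent.N802.WD.Asm
import Pool.Agent.N802.WD.Boot
import Pool.Agent.N802.WD.Right
import Pool.Agent.N802.WD.Jen
import Pool.Agent.N802.WD.Op
import Pool.Agent.N802.WD.Msd
import Pool.Agent.N802.WD.Cut
import Pool.Agent.N802.WD.Ker
import Pool.Agent.N802.WD.Ew
import Pool.Agent.N802.WD.Sharp6
import Pool.Agent.N802.WD.Wdz
import Pool.Agent.N802.WD.Win2
import Pool.Agent.N802.WD.Count3

/-! # The weighted density theorem for zeta and its consequences -/

open Complex Filter Topology Set MeasureTheory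
open scoped BigOperators ComplexConjugate

namespace Pool.Agent.N802.WD

open H370 hiding pt
open TC Pool.Agent.N802.U Pool.Agent.N802

/-- the weighted density theorem for zeta -/
theorem wd_zeta : S_wd riemannZeta := asm (right (boot cut (msd op) ker)) jen

/-- the same for the values at the zeros -/
theorem wdz_zeta : S_wdz riemannZeta := wdz H370.good_zeta wd_zeta

/-- from the weighted density theorem to the four bounds -/
theorem four_of {F : ℂ → ℂ} (hF : GoodL F) (hwd : S_wd F) : Four F :=
  four win2 sq pl gsq (ms2 ch gsq) (fm2 ch) count3 hF (ef hF) (ew hF hwd)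

theorem four_zeta : Four riemannZeta := four_of H370.good_zeta wd_zeta

end Pool.Agent.N802.WD
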