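import Pool.Agent.N802.WD.Fin
import Pool.Agent.N802.WD.Direct6

/-! # The values of Dirichlet polynomials at the zeros -/

open Complex Filter Topology Set MeasureTheory
open scoped BigOperators ComplexConjugate

namespace Pool.Agent.N802.WD

open H370 hiding pt
open TC Pool.Agent.N802.U Pool.Agent.N802
open Pool.Agent.N802.X (cd cd_nonneg cd_le)

lemma cs_nonneg (F : ℂ → ℂ) (s : ℂ) : 0 ≤ cs F s := by
  unfold cs
  split_ifs <;> norm_num

lemma cs_le {F : ℂ → ℂ} (hF : GoodL F) (s : ℂ) (_h0 : 0 < s.re) (_h1 : s.re < 1) (h2 : 1 < s.im)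
    (h3 : F s = 0) : cs F s ≤ mult F s := by
  have h4 : 1 ≤ mult F s := Loc.mult_pos' hF (by linarith) h3
  have h5 : (1 : ℝ) ≤ mult F s := by exact_mod_cast h4
  unfold cs
  split_ifs
  · exact h5
  · linarith

/-- simple zeros on the critical line -/
theorem simple_of {F : ℂ → ℂ} (hF : GoodL F) (hwd : S_wd F) : S_directD F 0.6725 (cs F) :=
  directD hF (cs_nonneg F) (cs_le hF) (sharpD hF (by norm_num) (by norm_num) (cs_nonneg F)
    (cs_le hF) (core6s (four_of hF hwd)))

/-- distinct zeros -/
theorem distinct_of {F : ℂ → ℂ} (hF : GoodL F) (hwd : S_wd F) : S_directD F 0.83625 cd :=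
  directD hF cd_nonneg (cd_le hF) (sharpD hF (by norm_num) (by norm_num) cd_nonneg
    (cd_le hF) (core6d (four_of hF hwd)))

theorem simple_zeta : S_directD riemannZeta 0.6725 (cs riemannZeta) :=
  simple_of H370.good_zeta wd_zeta

theorem distinct_zeta : S_directD riemannZeta 0.83625 cd :=
  distinct_of H370.good_zeta wd_zeta

end Pool.Agent.N802.WD
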