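import Pool.Agent.N802.WD.Stm3
import Pool.Agent.H370R2.DirGood

/-!
# WD2, INSTX: Dirichlet `L`-functions satisfy `TwF` (helper297)
-/

set_option autoImplicit false

open Complex Filter Topology Set MeasureTheory

namespace Pool.Agent.N802.WD.IX

open H370.DL
open Pool.Agent.R399.TW (pt)

/-- Gronwall on a horizontal segment (after `Pool.Agent.N967.horiz`). -/
lemma horiz {H : ℂ → ℂ} {p q K t : ℝ} (hK : 0 ≤ K)
    (hd : ∀ u : ℝ, p ≤ u → u ≤ q → DifferentiableAt ℂ H (u + t * I))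
    (hb : ∀ u : ℝ, p ≤ u → u ≤ q → ‖deriv H (u + t * I)‖ ≤ K * ‖H (u + t * I)‖)
    {a b : ℝ} (ha : p ≤ a) (ha' : a ≤ q) (hb' : p ≤ b) (hb'' : b ≤ q) :
    ‖H (a + t * I)‖ ≤ Real.exp (K * |a - b|) * ‖H (b + t * I)‖ := by
  set h : ℝ → ℂ := fun u => H ((b + u * (a - b) : ℝ) + t * I) with hh
  have hin : ∀ u : ℝ, 0 ≤ u → u ≤ 1 → p ≤ b + u * (a - b) ∧ b + u * (a - b) ≤ q := by
    intro u h0 h1
    constructor <;> nlinarith
  have hder : ∀ u : ℝ, 0 ≤ u → u ≤ 1 →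
      HasDerivAt h (deriv H ((b + u * (a - b) : ℝ) + t * I) * ((a - b : ℝ) : ℂ)) u := by
    intro u h0 h1
    obtain ⟨h2, h3⟩ := hin u h0 h1
    have h4 : HasDerivAt (fun u : ℝ => (((b + u * (a - b) : ℝ) : ℂ) + t * I)) ((a - b : ℝ) : ℂ) u := by
      have h5 : HasDerivAt (fun u : ℝ => b + u * (a - b)) (a - b) u := by
        simpa using ((hasDerivAt_id u).mul_const (a - b)).const_add b
      exact h5.ofReal_comp.add_const _
    exact HasDerivAt.comp u ((hd _ h2 h3).hasDerivAt) h4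
  have hbd : ∀ u : ℝ, 0 ≤ u → u ≤ 1 →
      ‖deriv H ((b + u * (a - b) : ℝ) + t * I) * ((a - b : ℝ) : ℂ)‖ ≤ K * |a - b| * ‖h u‖ := by
    intro u h0 h1
    obtain ⟨h2, h3⟩ := hin u h0 h1
    rw [norm_mul, Complex.norm_real, Real.norm_eq_abs]
    have := hb _ h2 h3
    have h5 := abs_nonneg (a - b)
    simp only [hh]
    calc _ ≤ K * ‖H ((b + u * (a - b) : ℝ) + t * I)‖ * |a - b| := by gcongr
      _ = _ := by ring
  have h00 : h 0 = H (b + t * I) := by simp [hh]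
  have h11 : h 1 = H (a + t * I) := by simp [hh]
  have hg : ∀ u : ℝ, 0 ≤ u → u ≤ 1 → ‖h u‖ ≤ Real.exp (K * |a - b|) * ‖h 0‖ := by
    intro u h0 h1
    have hc : ContinuousOn h (Set.Icc 0 1) := fun x hx =>
      (hder x hx.1 hx.2).continuousAt.continuousWithinAt
    have := norm_le_gronwallBound_of_norm_deriv_right_le (f := h)
      (f' := fun u => deriv H ((b + u * (a - b) : ℝ) + t * I) * ((a - b : ℝ) : ℂ)) (δ := ‖h 0‖)
      (K := K * |a - b|) (ε := 0) (a := 0) (b := 1) hc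
      (fun x hx => (hder x hx.1 hx.2.le).hasDerivWithinAt) le_rfl
      (fun x hx => by rw [add_zero]; exact hbd x hx.1 hx.2.le) u ⟨h0, h1⟩
    refine this.trans ?_
    rw [gronwallBound_ε0, mul_comm]
    refine mul_le_mul_of_nonneg_right ?_ (norm_nonneg _)
    apply Real.exp_le_exp.2
    have h5 : 0 ≤ K * |a - b| := by positivity
    rw [sub_zero]
    nlinarith
  have := hg 1 zero_le_one le_rfl
  rwa [h00, h11] at this

variable {q : ℕ} [NeZero q] {χ : DirichletCharacter ℂ q}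

lemma aa_re : (aa χ).re = 0 ∨ (aa χ).re = 1 := by
  unfold aa
  split_ifs <;> simp

lemma aa_conj : (starRingEnd ℂ) (aa χ) = aa χ := by
  unfold aa
  split_ifs <;> simp

lemma norm_Gr_conj (s : ℂ) : ‖Gammaℝ ((starRingEnd ℂ) s)‖ = ‖Gammaℝ s‖ := by
  have h1 : ∀ z : ℂ, ‖Gammaℝ z‖ = Real.pi ^ (-z / 2).re * ‖Gamma (z / 2)‖ := by
    intro z
    rw [Gammaℝ_def, norm_mul, norm_cpow_eq_rpow_re_of_pos Real.pi_pos]
  rw [h1, h1]
  have h0 : (starRingEnd ℂ) (2 : ℂ) = 2 := map_ofNat _ 2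
  have h2 : (starRingEnd ℂ) s / 2 = (starRingEnd ℂ) (s / 2) := by rw [map_div₀, h0]
  have h3 : -(starRingEnd ℂ) s / 2 = (starRingEnd ℂ) (-s / 2) := by
    rw [map_div₀, map_neg, h0]
  rw [h2, h3, Gamma_conj, conj_re, RCLike.norm_conj]

lemma norm_XX_half (u : ℝ) (hu : u ≠ 0) : ‖XX χ ((1 / 2 : ℝ) + u * I)‖ =
    ‖DirichletCharacter.rootNumber χ‖ := by
  unfold XX
  have h1 : 1 - (((1 / 2 : ℝ) : ℂ) + u * I) + aa χ =
      (starRingEnd ℂ) ((((1 / 2 : ℝ) : ℂ) + u * I) + aa χ) := by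
    rw [map_add, aa_conj, map_add, map_mul, conj_I, conj_ofReal, conj_ofReal]
    push_cast
    ring
  have h2 : ‖((q : ℂ) ^ (1 / 2 - (((1 / 2 : ℝ) : ℂ) + u * I)) : ℂ)‖ = 1 := by
    rw [norm_natCast_cpow_of_pos (NeZero.pos q)]
    have : (1 / 2 - (((1 / 2 : ℝ) : ℂ) + u * I) : ℂ).re = 0 := by simp
    rw [this, Real.rpow_zero]
  rw [h1, norm_div, norm_mul, norm_mul, h2, norm_Gr_conj, one_mul, mul_div_assoc, div_self, mul_one]
  rw [norm_ne_zero_iff]
  apply Gammaℝ_ne_zero_of_im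
  rw [add_im, aa_im]
  simpa using hu

lemma XX_large (hχ : χ.IsPrimitive) : ∃ A : ℝ, 0 ≤ A ∧ ∀ d u : ℝ, 0 ≤ d → d ≤ 1 / 4 → 1 ≤ |u| →
    ‖XX χ ((1 / 2 - d : ℝ) + u * I)‖ ≤ A * (1 + |u|) ^ d := by
  obtain ⟨C, hC0, hC⟩ := logDeriv_Gammaℝ_bound
  obtain ⟨K, hK⟩ : ∃ K : ℝ, K = |Real.log q| + C + C := ⟨_, rfl⟩
  have hK0 : 0 ≤ K := by rw [hK]; positivity
  refine ⟨Real.exp K * ‖DirichletCharacter.rootNumber χ‖, by positivity, ?_⟩
  intro d u hd0 hd1 hu
  have hu0 : u ≠ 0 := by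
    rintro rfl
    rw [abs_zero] at hu
    linarith
  have hre : ∀ x : ℝ, ((x : ℂ) + u * I).re = x := by intro x; simp
  have him : ∀ x : ℝ, ((x : ℂ) + u * I).im = u := by intro x; simp
  set L := Real.log |u| with hL
  have hXd : ∀ x : ℝ, DifferentiableAt ℂ (XX χ) ((x : ℂ) + u * I) := fun x =>
    (analyticAt_XX (by rw [him]; exact hu0)).differentiableAt
  have hE : ∀ z : ℂ, HasDerivAt (fun z : ℂ => exp (z * L)) (exp (z * L) * L) z := by
    intro z
    have : HasDerivAt (fun z : ℂ => z * (L : ℂ)) L z := by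
      simpa using (hasDerivAt_id z).mul_const (L : ℂ)
    exact this.cexp
  have hHd : ∀ x : ℝ, HasDerivAt (fun z => XX χ z * exp (z * L))
      ((logDeriv (XX χ) ((x : ℂ) + u * I) + L) * (XX χ ((x : ℂ) + u * I) *
        exp (((x : ℂ) + u * I) * L))) ((x : ℂ) + u * I) := by
    intro x
    have h1 := ((hXd x).hasDerivAt).mul (hE ((x : ℂ) + u * I))
    have hne : XX χ ((x : ℂ) + u * I) ≠ 0 := XX_ne_zero hχ (by rw [him]; exact hu0)
    refine HasDerivAt.congr_deriv h1 ?_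
    rw [logDeriv_apply]
    field_simp
  have ha := aa_re (χ := χ)
  have hlog : ∀ x : ℝ, 1 / 4 ≤ x → x ≤ 1 / 2 →
      ‖logDeriv (XX χ) ((x : ℂ) + u * I) + L‖ ≤ K := by
    intro x hx1 hx2
    have hs : ((x : ℂ) + u * I).im ≠ 0 := by rw [him]; exact hu0
    rw [logDeriv_XX hχ hs]
    have r1 : (1 - ((x : ℂ) + u * I) + aa χ).re = 1 - x + (aa χ).re := by simp
    have r2 : (((x : ℂ) + u * I) + aa χ).re = x + (aa χ).re := by simp
    have i1 : (1 - ((x : ℂ) + u * I) + aa χ).im = -u := by simp [aa_im]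
    have i2 : (((x : ℂ) + u * I) + aa χ).im = u := by simp [aa_im]
    have b1 := hC (1 - ((x : ℂ) + u * I) + aa χ) (by rw [r1]; rcases ha with h | h <;> rw [h] <;> linarith)
      (by rw [r1]; rcases ha with h | h <;> rw [h] <;> linarith) (by rw [i1, abs_neg]; exact hu)
    have b2 := hC (((x : ℂ) + u * I) + aa χ) (by rw [r2]; rcases ha with h | h <;> rw [h] <;> linarith)
      (by rw [r2]; rcases ha with h | h <;> rw [h] <;> linarith) (by rw [i2]; exact hu)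
    rw [i1, abs_neg, ← hL] at b1
    rw [i2, ← hL] at b2
    have e3 : -(Real.log q : ℂ) - logDeriv Gammaℝ (1 - ((x : ℂ) + u * I) + aa χ) -
        logDeriv Gammaℝ (((x : ℂ) + u * I) + aa χ) + L =
        -(Real.log q : ℂ) - (logDeriv Gammaℝ (1 - ((x : ℂ) + u * I) + aa χ) - 1 / 2 * L) -
        (logDeriv Gammaℝ (((x : ℂ) + u * I) + aa χ) - 1 / 2 * L) := by ring
    rw [e3, hK]
    refine (norm_sub_le _ _).trans (add_le_add ((norm_sub_le _ _).trans (add_le_add ?_ b1)) b2)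
    rw [norm_neg, Complex.norm_real, Real.norm_eq_abs]
  have hmain := horiz (H := fun z => XX χ z * exp (z * L)) (p := 1 / 4) (q := 1 / 2) (K := K)
    (t := u) hK0 (fun x _ _ => (hHd x).differentiableAt)
    (fun x hx1 hx2 => by
      rw [(hHd x).deriv, norm_mul]
      exact mul_le_mul_of_nonneg_right (hlog x hx1 hx2) (norm_nonneg _))
    (a := 1 / 2 - d) (b := 1 / 2) (by linarith) (by linarith) (by norm_num) le_rfl
  simp only [norm_mul] at hmain
  rw [norm_XX_half u hu0] at hmain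
  have hn : ∀ x : ℝ, ‖exp (((x : ℂ) + u * I) * L)‖ = Real.exp (x * L) := by
    intro x
    rw [Complex.norm_exp]
    congr 1
    simp
  rw [hn, hn] at hmain
  have hu1 : 0 < |u| := by linarith
  have h5 : Real.exp ((1 / 2) * L) = Real.exp ((1 / 2 - d) * L) * |u| ^ d := by
    rw [Real.rpow_def_of_pos hu1, ← hL, ← Real.exp_add]
    congr 1
    ring
  rw [h5] at hmain
  have h6 : Real.exp (K * |1 / 2 - d - 1 / 2|) ≤ Real.exp K := by
    apply Real.exp_le_exp.2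
    have : |1 / 2 - d - 1 / 2| ≤ 1 := by
      rw [abs_le]
      constructor <;> linarith
    nlinarith
  have h7 : |u| ^ d ≤ (1 + |u|) ^ d := Real.rpow_le_rpow hu1.le (by linarith) hd0
  have h8 : 0 < Real.exp ((1 / 2 - d) * L) := Real.exp_pos _
  have h9 : 0 ≤ |u| ^ d := by positivity
  have h10 : ‖XX χ ((1 / 2 - d : ℝ) + u * I)‖ * Real.exp ((1 / 2 - d) * L) ≤
      (Real.exp K * ‖DirichletCharacter.rootNumber χ‖ * (1 + |u|) ^ d) *
        Real.exp ((1 / 2 - d) * L) := by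
    calc _ ≤ Real.exp (K * |1 / 2 - d - 1 / 2|) * (‖DirichletCharacter.rootNumber χ‖ *
          (Real.exp ((1 / 2 - d) * L) * |u| ^ d)) := hmain
      _ ≤ Real.exp K * (‖DirichletCharacter.rootNumber χ‖ *
          (Real.exp ((1 / 2 - d) * L) * (1 + |u|) ^ d)) := by gcongr
      _ = _ := by ring
  exact le_of_mul_le_mul_right h10 h8

lemma XX_small : ∃ A : ℝ, 0 ≤ A ∧ ∀ d u : ℝ, 0 ≤ d → d ≤ 1 / 4 → |u| ≤ 1 →
    ‖XX χ ((1 / 2 - d : ℝ) + u * I)‖ ≤ A := by
  have ha := aa_re (χ := χ)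
  have hGd : ∀ z : ℂ, 0 < z.re → ContinuousAt Gammaℝ z := by
    intro z hz
    have h := (differentiable_Gammaℝ_inv z).inv (inv_ne_zero (Gammaℝ_ne_zero_of_re_pos hz))
    have e : Gammaℝ = fun s => ((Gammaℝ s)⁻¹)⁻¹ := by funext s; rw [inv_inv]
    rw [e]
    exact h.continuousAt
  have hc : ContinuousOn (fun p : ℝ × ℝ => XX χ ((1 / 2 - p.1 : ℝ) + p.2 * I))
      (Icc (0:ℝ) (1 / 4) ×ˢ Icc (-1:ℝ) 1) := by
    rintro ⟨d, u⟩ ⟨⟨hd0, hd1⟩, -⟩
    simp only at hd0 hd1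
    apply ContinuousAt.continuousWithinAt
    unfold XX
    have r1 : (1 - (((1 / 2 - d : ℝ) : ℂ) + u * I) + aa χ).re = 1 / 2 + d + (aa χ).re := by
      simp
      ring
    have r2 : ((((1 / 2 - d : ℝ) : ℂ) + u * I) + aa χ).re = 1 / 2 - d + (aa χ).re := by simp
    have c1 : ContinuousAt (fun p : ℝ × ℝ => Gammaℝ (1 - (((1 / 2 - p.1 : ℝ) : ℂ) + p.2 * I) + aa χ))
        (d, u) := by
      refine ContinuousAt.comp (g := Gammaℝ) (hGd _ ?_) (by fun_prop)
      simp only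
      rw [r1]
      rcases ha with h | h <;> rw [h] <;> linarith
    have c2 : ContinuousAt (fun p : ℝ × ℝ => Gammaℝ ((((1 / 2 - p.1 : ℝ) : ℂ) + p.2 * I) + aa χ))
        (d, u) := by
      refine ContinuousAt.comp (g := Gammaℝ) (hGd _ ?_) (by fun_prop)
      simp only
      rw [r2]
      rcases ha with h | h <;> rw [h] <;> linarith
    have c3 : ContinuousAt (fun p : ℝ × ℝ => (q : ℂ) ^ (1 / 2 - (((1 / 2 - p.1 : ℝ) : ℂ) + p.2 * I)))
        (d, u) := by
      refine ContinuousAt.const_cpow (by fun_prop) (Or.inl natCast_q_ne)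
    refine ((c3.mul continuousAt_const).mul c1).div c2 ?_
    apply Gammaℝ_ne_zero_of_re_pos
    simp only
    rw [r2]
    rcases ha with h | h <;> rw [h] <;> linarith
  obtain ⟨A, hA⟩ := (isCompact_Icc.prod isCompact_Icc).exists_bound_of_continuousOn hc
  refine ⟨max A 0, le_max_right _ _, fun d u hd0 hd1 hu => ?_⟩
  exact (hA (d, u) ⟨⟨hd0, hd1⟩, abs_le.1 hu⟩).trans (le_max_left _ _)

/-- the reflection inequality -/
theorem refl_all (hχ : χ.IsPrimitive) : ∃ A : ℝ, 0 ≤ A ∧ ∀ d u : ℝ, 0 ≤ d → d ≤ 1 / 4 →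
    ‖DirichletCharacter.LFunction χ (pt (1 / 2 - d) u)‖ ≤
      A * (1 + |u|) ^ d * ‖DirichletCharacter.LFunction χ (pt (1 / 2 + d) u)‖ := by
  obtain ⟨A1, hA1, h1⟩ := XX_large hχ
  obtain ⟨A2, hA2, h2⟩ := XX_small (χ := χ)
  have hX : ∀ d u : ℝ, 0 ≤ d → d ≤ 1 / 4 →
      ‖XX χ ((1 / 2 - d : ℝ) + u * I)‖ ≤ (A1 + A2) * (1 + |u|) ^ d := by
    intro d u hd0 hd1
    have hp : (1 : ℝ) ≤ (1 + |u|) ^ d := Real.one_le_rpow (by linarith [abs_nonneg u]) hd0
    rcases le_total 1 |u| with h | h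
    · have := h1 d u hd0 hd1 h
      nlinarith
    · have := h2 d u hd0 hd1 h
      nlinarith
  -- off the real axis
  have hne : ∀ d u : ℝ, 0 ≤ d → d ≤ 1 / 4 → u ≠ 0 →
      ‖DirichletCharacter.LFunction χ (pt (1 / 2 - d) u)‖ ≤
        (A1 + A2) * (1 + |u|) ^ d * ‖DirichletCharacter.LFunction χ (pt (1 / 2 + d) u)‖ := by
    intro d u hd0 hd1 hu
    have him : (pt (1 / 2 - d) u).im ≠ 0 := by
      simp [pt]
      exact hu
    rw [func_eq hχ him, norm_mul]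
    have e1 : 1 - (starRingEnd ℂ) (pt (1 / 2 - d) u) = pt (1 / 2 + d) u := by
      unfold pt
      rw [map_add, map_mul, conj_I, conj_ofReal, conj_ofReal]
      push_cast
      ring
    unfold H370.DL.refl
    rw [e1, RCLike.norm_conj]
    refine mul_le_mul_of_nonneg_right ?_ (norm_nonneg _)
    exact hX d u hd0 hd1
  refine ⟨A1 + A2, by positivity, fun d u hd0 hd1 => ?_⟩
  by_cases hu : u ≠ 0
  · exact hne d u hd0 hd1 hu
  push Not at hu
  subst hu
  -- the real axis, by continuity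
  have hcont : ∀ c : ℝ, c ≤ 3 / 4 → ContinuousAt (fun u : ℝ =>
      ‖DirichletCharacter.LFunction χ (pt c u)‖) 0 := by
    intro c hc
    have h3 : pt c 0 ≠ 1 := by
      intro h
      have := congrArg Complex.re h
      simp [pt] at this
      linarith
    have h4 : ContinuousAt (DirichletCharacter.LFunction χ) (pt c 0) :=
      (analyticAt_L h3).continuousAt
    have h5 : ContinuousAt (fun u : ℝ => pt c u) 0 := by
      unfold pt
      fun_prop
    exact (ContinuousAt.comp (f := fun u : ℝ => pt c u) h4 h5).norm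
  have hL : Tendsto (fun u : ℝ => ‖DirichletCharacter.LFunction χ (pt (1 / 2 - d) u)‖) (𝓝[≠] 0)
      (𝓝 ‖DirichletCharacter.LFunction χ (pt (1 / 2 - d) 0)‖) :=
    (hcont _ (by linarith)).tendsto.mono_left nhdsWithin_le_nhds
  have hR : Tendsto (fun u : ℝ => (A1 + A2) * (1 + |u|) ^ d *
      ‖DirichletCharacter.LFunction χ (pt (1 / 2 + d) u)‖) (𝓝[≠] 0)
      (𝓝 ((A1 + A2) * (1 + |(0 : ℝ)|) ^ d *
        ‖DirichletCharacter.LFunction χ (pt (1 / 2 + d) 0)‖)) := by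
    have h6 : ContinuousAt (fun u : ℝ => (A1 + A2) * (1 + |u|) ^ d *
      ‖DirichletCharacter.LFunction χ (pt (1 / 2 + d) u)‖) 0 := by
      refine ContinuousAt.mul ?_ (hcont _ (by linarith))
      refine ContinuousAt.mul continuousAt_const ?_
      exact ContinuousAt.rpow_const (by fun_prop) (Or.inr hd0)
    exact h6.tendsto.mono_left nhdsWithin_le_nhds
  refine le_of_tendsto_of_tendsto hL hR ?_
  filter_upwards [self_mem_nhdsWithin] with u hu
  exact hne d u hd0 hd1 hu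

lemma norm_le1 {s : ℂ} (h0 : 1 / 4 ≤ s.re) (h1 : s.re ≤ 4) : ‖s‖ ≤ 4 * (1 + |s.im|) := by
  refine (norm_le_abs_re_add_abs_im s).trans ?_
  rw [abs_of_nonneg (by linarith : 0 ≤ s.re)]
  linarith [abs_nonneg s.im]

lemma norm_le2 {s : ℂ} (h0 : 1 / 4 ≤ s.re) (h1 : s.re ≤ 4) : ‖s - 1‖ ≤ 5 * (1 + |s.im|) := by
  refine (norm_sub_le _ _).trans ?_
  rw [norm_one]
  linarith [norm_le1 h0 h1, abs_nonneg s.im]

lemma pow_le6 (x : ℝ) : (1 + |x|) ^ 2 ≤ (1 + |x|) ^ 6 :=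
  pow_le_pow_right₀ (by linarith [abs_nonneg x]) (by norm_num)

lemma gr_ne (hχ1 : χ ≠ 1) : ∀ s : ℂ, 1 / 4 ≤ s.re → s.re ≤ 4 →
    ‖(s - 1) * DirichletCharacter.LFunction χ s‖ ≤ (80 * (q + 1)) * (1 + |s.im|) ^ 6 := by
  intro s h1 h2
  have hs : 0 < s.re := by linarith
  have hA : ∀ u : ℝ, ‖∑ k ∈ Finset.Icc 1 ⌊u⌋₊, χ (k : ZMod q)‖ ≤ (q + 1 : ℝ) :=
    fun u => norm_sum_Icc_le hχ1 _
  rw [L_integral hχ1 hs, norm_mul, norm_mul]
  have h4 := J_bound hA hs
  have hq : (0 : ℝ) ≤ q := Nat.cast_nonneg q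
  have h5 : (q + 1 : ℝ) / s.re ≤ 4 * (q + 1) := by
    rw [div_le_iff₀ hs]
    nlinarith
  have h6 := norm_le1 h1 h2
  have h7 := norm_le2 h1 h2
  have h8 := pow_le6 s.im
  have h9 := abs_nonneg s.im
  calc _ ≤ (5 * (1 + |s.im|)) * ((4 * (1 + |s.im|)) * (4 * (q + 1))) := by
        gcongr
        exact h4.trans h5
    _ = (80 * (q + 1)) * (1 + |s.im|) ^ 2 := by ring
    _ ≤ _ := by gcongr

lemma ser_chi (s : ℂ) (hs : 1 < s.re) :
    HasSum (fun n : ℕ => χ n * (n : ℂ) ^ (-s)) (DirichletCharacter.LFunction χ s) := by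
  have h1 : LSeriesHasSum (fun n : ℕ => χ n) s (DirichletCharacter.LFunction χ s) := by
    rw [DirichletCharacter.LFunction_eq_LSeries χ hs]
    exact (DirichletCharacter.LSeriesSummable_of_one_lt_re χ hs).LSeriesHasSum
  have h2 : (fun n : ℕ => χ n * (n : ℂ) ^ (-s)) = LSeries.term (fun n : ℕ => χ n) s := by
    funext n
    rcases eq_or_ne n 0 with rfl | hn
    · have h00 : ((0 : ℕ) : ℂ) = 0 := Nat.cast_zero
      rw [LSeries.term_zero, h00, zero_cpow, mul_zero]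
      intro h
      have := congrArg Complex.re h
      simp at this
      linarith
    · rw [LSeries.term_of_ne_zero hn, cpow_neg, div_eq_mul_inv]
  rw [h2]
  exact h1

end Pool.Agent.N802.WD.IX

namespace Pool.Agent.N802.WD

open IX

/-- **INSTX** -/
theorem tw_chi {q : ℕ} [NeZero q] (hq : 1 < q) {χ : DirichletCharacter ℂ q}
    (hχ : χ.IsPrimitive) : ∃ A : ℝ, TwF (fun n => χ n) (DirichletCharacter.LFunction χ) A := by
  have hχ1 : χ ≠ 1 := by
    rintro rfl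
    rw [DirichletCharacter.IsPrimitive, DirichletCharacter.conductor_one] at hχ
    omega
  obtain ⟨A, hA0, hA⟩ := refl_all hχ
  have hq0 : (0 : ℝ) ≤ q := Nat.cast_nonneg q
  refine ⟨A + 80 * (q + 1), ?_⟩
  constructor
  · intro m n
    rw [Nat.cast_mul, map_mul]
  · rw [Nat.cast_one, map_one]
  · intro n
    exact DirichletCharacter.norm_le_one χ _
  · refine ⟨fun s => (s - 1) * DirichletCharacter.LFunction χ s, ?_, fun s _ => rfl⟩
    exact (differentiable_id.sub_const 1).mul (DirichletCharacter.differentiable_LFunction hχ1)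
  · intro s hs
    exact ser_chi s hs
  · intro s h1 h2
    refine (gr_ne hχ1 s h1 h2).trans ?_
    gcongr
    linarith
  · intro d u h1 h2
    refine (hA d u h1 h2).trans ?_
    gcongr
    linarith [show (0 : ℝ) ≤ 80 * (q + 1) by positivity]

end Pool.Agent.N802.WD
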