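import Pool.Agent.N802.WD.InstX

/-!
# WD2, INSTZ: the zeta function satisfies `TwF` (helper297)
-/

set_option autoImplicit false

open Complex Filter Topology Set MeasureTheory

namespace Pool.Agent.N802.WD

open IX H370.DL

lemma zeta_gr (s : ℂ) (h1 : 1 / 4 ≤ s.re) (h2 : s.re ≤ 4) :
    ‖(s - 1) * riemannZeta s‖ ≤ 84 * (1 + |s.im|) ^ 6 := by
  have hs : 0 < s.re := by linarith
  have h9 := abs_nonneg s.im
  have h8 := IX.pow_le6 s.im
  rcases eq_or_ne s 1 with h | hne
  · rw [h, sub_self, zero_mul, norm_zero]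
    positivity
  have hA : ∀ u : ℝ, ‖((Int.fract u : ℝ) : ℂ)‖ ≤ 1 := by
    intro u
    rw [Complex.norm_real, Real.norm_eq_abs, Int.abs_fract]
    exact (Int.fract_lt_one u).le
  have h4 := J_bound hA hs
  have h5 : (1 : ℝ) / s.re ≤ 4 := by
    rw [div_le_iff₀ hs]
    linarith
  have h6 := norm_le1 h1 h2
  have h7 := norm_le2 h1 h2
  have hs1 : s - 1 ≠ 0 := sub_ne_zero.2 hne
  have e : (s - 1) * riemannZeta s = s - (s - 1) * (s *
      ∫ u in Ioi (1 : ℝ), ((Int.fract u : ℝ) : ℂ) * (u : ℂ) ^ (-s - 1)) := by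
    rw [ZU.J_a1.zf_one s hs hne]
    field_simp
    ring
  rw [e]
  refine (norm_sub_le _ _).trans ?_
  rw [norm_mul, norm_mul]
  have h10 : (1 + |s.im|) ≤ (1 + |s.im|) ^ 2 := by nlinarith
  calc _ ≤ 4 * (1 + |s.im|) + (5 * (1 + |s.im|)) * ((4 * (1 + |s.im|)) * 4) := by
        gcongr
        exact h4.trans h5
    _ ≤ 84 * (1 + |s.im|) ^ 2 := by nlinarith
    _ ≤ _ := by gcongr

/-- **INSTZ** -/
theorem tw_zeta : ∃ A : ℝ, TwF (fun _ => 1) riemannZeta A := by
  have hχ : (1 : DirichletCharacter ℂ 1).IsPrimitive := by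
    rw [DirichletCharacter.IsPrimitive, DirichletCharacter.conductor_one]
  obtain ⟨A, hA0, hA⟩ := refl_all hχ
  rw [DirichletCharacter.LFunction_modOne_eq] at hA
  refine ⟨A + 84, ?_⟩
  constructor
  · intro m n
    simp
  · rfl
  · intro n
    simp
  · refine ⟨DirichletCharacter.LFunctionTrivChar₁ 1,
      DirichletCharacter.differentiable_LFunctionTrivChar₁ 1, fun s hs => ?_⟩
    have h1 : DirichletCharacter.LFunctionTrivChar₁ 1 s =
        (s - 1) * DirichletCharacter.LFunctionTrivChar 1 s := by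
      unfold DirichletCharacter.LFunctionTrivChar₁
      rw [Function.update_of_ne hs]
    rw [h1, DirichletCharacter.LFunctionTrivChar, DirichletCharacter.LFunction_modOne_eq]
  · intro s hs
    have h1 := ser_chi (χ := (1 : DirichletCharacter ℂ 1)) s hs
    rw [DirichletCharacter.LFunction_modOne_eq] at h1
    have h2 : (fun n : ℕ => (1 : ℂ) * (n : ℂ) ^ (-s)) =
        fun n : ℕ => (1 : DirichletCharacter ℂ 1) n * (n : ℂ) ^ (-s) := by
      funext n
      rw [MulChar.one_apply (isUnit_of_subsingleton _)]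
    show HasSum (fun n : ℕ => (1 : ℂ) * (n : ℂ) ^ (-s)) (riemannZeta s)
    rw [h2]
    exact h1
  · intro s h1 h2
    refine (zeta_gr s h1 h2).trans ?_
    gcongr
    linarith
  · intro d u h1 h2
    refine (hA d u h1 h2).trans ?_
    gcongr
    linarith

end Pool.Agent.N802.WD
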