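import Pool.Agent.N802.WD.Ker0

/-!
# A function at a point from its values on a line to the left, with a power of the Gevrey kernel

Adapted from `Pool.Agent.N802.WD.K.cauchy_gev` (helper771).
-/

set_option autoImplicit false

namespace Pool.Agent.N802.WD.K

open MeasureTheory Set Filter Topology Complex
open Pool.Agent.R399.TW (pt pt_re pt_im pt_cont kernel_id Ph gd gd_half gd_even gd_nn gd_int strip)
open Pool.Agent.N786.D

/-- **A function at a point from its values on a line to the left, with a Gevrey kernel** -/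
theorem cauchy_gev2 {g : ℂ → ℂ} (hg : Differentiable ℂ g) {a μ lam G : ℝ} {m B : ℕ} (J p : ℕ)
    (hB : m + 3 ≤ 2 * B - 1) (hml : μ < lam)
    (hgr : ∀ z : ℂ, a ≤ z.re → ‖g z‖ ≤ G * (1 + |z.im|) ^ m * Real.exp (-(lam * z.re)))
    {s : ℂ} (hs : a < s.re) :
    Integrable (fun v : ℝ => ‖g (pt a (s.im + v))‖ * (kap B (s.re - a) v * gev0 (s.re - a) J v ^ p)) ∧
    ‖g s‖ ≤ Real.exp (-(μ * (s.re - a))) *
      ∫ v : ℝ, ‖g (pt a (s.im + v))‖ * (kap B (s.re - a) v * gev0 (s.re - a) J v ^ p) := by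
  obtain ⟨τ, hτ⟩ : ∃ τ : ℝ, τ = s.im := ⟨_, rfl⟩
  obtain ⟨r, hr⟩ : ∃ r : ℝ, r = s.re - a := ⟨_, rfl⟩
  obtain ⟨A, hA⟩ : ∃ A : ℕ, A = 2 * B - 1 := ⟨_, rfl⟩
  have hr0 : 0 < r := by rw [hr]; linarith
  rw [← hτ, ← hr]
  rw [← hA] at hB
  have hAB : A + 1 = 2 * B := by omega
  have hG : 0 ≤ G := by
    have h1 := (norm_nonneg _).trans (hgr (pt a 0) (by simp))
    simp only [pt_im, pt_re, abs_zero, add_zero, one_pow, mul_one] at h1
    exact nonneg_of_mul_nonneg_left h1 (Real.exp_pos _)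
  set k : ℂ → ℂ := fun w => cexp ((μ : ℂ) * w) * ((2 * r : ℂ) / (w + 2 * r)) ^ A * gk r J w ^ p with hk
  set F : ℂ → ℂ := fun z => g z * k (z - s) with hF
  have hnk : ∀ w : ℂ, ‖k w‖ = Real.exp (μ * w.re) * ((2 * r) / ‖w + 2 * r‖) ^ A * ‖gk r J w‖ ^ p := by
    intro w
    rw [hk]
    simp only
    rw [norm_mul, norm_mul, Complex.norm_exp, norm_pow, norm_pow, norm_div]
    congr 3
    · simp
    · congr 1
      have : (2 * r : ℂ) = ((2 * r : ℝ) : ℂ) := by push_cast; ring
      rw [this, Complex.norm_real, Real.norm_of_nonneg (by positivity)]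
  obtain ⟨c, hc⟩ : ∃ c : ℝ, c = min r 1 / 2 := ⟨_, rfl⟩
  have hc0 : 0 < c := by rw [hc]; have := lt_min hr0 one_pos; linarith
  have hlow : ∀ w : ℂ, -r ≤ w.re → c * (1 + |w.im|) ≤ ‖w + 2 * r‖ := by
    intro w hw
    have h1 := Complex.abs_re_le_norm (w + 2 * r)
    have h2 := Complex.abs_im_le_norm (w + 2 * r)
    have h3 : (w + 2 * r).re = w.re + 2 * r := by simp
    have h4 : (w + 2 * r).im = w.im := by simp
    rw [h3, abs_of_pos (by linarith)] at h1
    rw [h4] at h2
    have h5 : min r 1 ≤ r := min_le_left _ _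
    have h6 : min r 1 ≤ 1 := min_le_right _ _
    have h7 : 0 < min r 1 := lt_min hr0 one_pos
    rw [hc]
    nlinarith [abs_nonneg w.im]
  obtain ⟨D, hD⟩ : ∃ D : ℝ, D = G * (1 + |τ|) ^ m * Real.exp (-(μ * s.re)) * ((2 * r) / c) ^ A *
    (2 ^ J) ^ p := ⟨_, rfl⟩
  have hD0 : 0 ≤ D := by rw [hD]; positivity
  have hFb : ∀ z : ℂ, a ≤ z.re → ‖F z‖ ≤ D * Real.exp (-((lam - μ) * z.re)) * q2 (z.im - τ) := by
    intro z hz
    have h1 := hgr z hz
    have h2 : (z - s).re = z.re - s.re := by simp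
    have h3 : (z - s).im = z.im - τ := by rw [hτ]; simp
    have h4 := hlow (z - s) (by rw [h2, hr]; linarith)
    have h4' : ‖gk r J (z - s)‖ ^ p ≤ (2 ^ J) ^ p :=
      pow_le_pow_left₀ (norm_nonneg _) (gk_norm_le hr0 J (by rw [h2, hr]; linarith)) p
    rw [h3] at h4
    have h5 : (1 + |z.im|) ^ m ≤ (1 + |τ|) ^ m * (1 + |z.im - τ|) ^ m := by
      rw [← mul_pow]
      refine pow_le_pow_left₀ (by positivity) ?_ m
      have h6 : |z.im| ≤ |z.im - τ| + |τ| := by
        have := abs_add_le (z.im - τ) τ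
        simpa using this
      nlinarith [abs_nonneg τ, abs_nonneg (z.im - τ)]
    have h6 : ((2 * r) / ‖z - s + 2 * r‖) ^ A ≤
        ((2 * r) / c) ^ A * ((1 + |z.im - τ|) ^ A)⁻¹ := by
      rw [← inv_pow, ← mul_pow]
      refine pow_le_pow_left₀ (by positivity) ?_ A
      rw [← div_eq_mul_inv, div_div]
      exact div_le_div_of_nonneg_left (by positivity) (by positivity) h4
    have h7 : (1 + |z.im - τ|) ^ m * ((1 + |z.im - τ|) ^ A)⁻¹ ≤ q2 (z.im - τ) := by
      unfold q2
      rw [mul_inv_le_iff₀ (by positivity), ← div_eq_inv_mul, le_div_iff₀ (by positivity),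
        ← pow_add]
      exact pow_le_pow_right₀ (by linarith [abs_nonneg (z.im - τ)]) (by omega)
    rw [hF]
    simp only
    rw [norm_mul, hnk, h2]
    calc ‖g z‖ * (Real.exp (μ * (z.re - s.re)) * ((2 * r) / ‖z - s + 2 * r‖) ^ A *
          ‖gk r J (z - s)‖ ^ p) ≤
        (G * ((1 + |τ|) ^ m * (1 + |z.im - τ|) ^ m) * Real.exp (-(lam * z.re))) *
        (Real.exp (μ * (z.re - s.re)) *
          (((2 * r) / c) ^ A * ((1 + |z.im - τ|) ^ A)⁻¹) * (2 ^ J) ^ p) := by
          have hy1 : ‖g z‖ ≤ G * ((1 + |τ|) ^ m * (1 + |z.im - τ|) ^ m) *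
              Real.exp (-(lam * z.re)) := h1.trans (by gcongr)
          refine mul_le_mul hy1 ?_ (by positivity) (by positivity)
          exact mul_le_mul (mul_le_mul_of_nonneg_left h6 (Real.exp_pos _).le) h4' (by positivity)
            (by positivity)
      _ = D * Real.exp (-((lam - μ) * z.re)) *
          ((1 + |z.im - τ|) ^ m * ((1 + |z.im - τ|) ^ A)⁻¹) := by
          have e : Real.exp (-(lam * z.re)) * Real.exp (μ * (z.re - s.re)) =
              Real.exp (-(μ * s.re)) * Real.exp (-((lam - μ) * z.re)) := by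
            rw [← Real.exp_add, ← Real.exp_add]
            congr 1
            ring
          rw [hD]
          linear_combination (G * (1 + |τ|) ^ m * (1 + |z.im - τ|) ^ m * ((2 * r) / c) ^ A *
            ((1 + |z.im - τ|) ^ A)⁻¹ * (2 ^ J) ^ p) * e
      _ ≤ _ := mul_le_mul_of_nonneg_left h7 (by positivity)
  -- the value at the point
  have hk0 : k 0 = 1 := by
    rw [hk]
    simp only
    have : (2 * r : ℂ) ≠ 0 := by
      have : (r : ℂ) ≠ 0 := by exact_mod_cast hr0.ne'
      simp [this]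
    rw [mul_zero, Complex.exp_zero, zero_add, div_self this, one_pow, one_mul, one_mul, gk_zero hr0,
      one_pow]
  have hFs : F s = g s := by
    rw [hF]
    simp only
    rw [sub_self, hk0, mul_one]
  set Φ : ℂ → ℂ := fun z => F z - F s * cexp ((z - s) ^ 2) with hΦ
  have hΦs : Φ s = 0 := by
    rw [hΦ]
    simp
  set U : Set ℂ := {z | a - r < z.re} with hU
  have hUo : IsOpen U := isOpen_lt continuous_const Complex.continuous_re
  have hsU : s ∈ U := by
    rw [hU, mem_setOf_eq]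
    linarith
  have hFd : DifferentiableOn ℂ F U := by
    intro z hz
    have hz' : a - r < z.re := hz
    refine DifferentiableAt.differentiableWithinAt ?_
    refine (hg z).mul ?_
    have h1 : z - s + 2 * r ≠ 0 := by
      intro h
      have := congrArg Complex.re h
      simp at this
      rw [hr] at hz' this
      linarith
    rw [hk]
    refine DifferentiableAt.mul (DifferentiableAt.mul (by fun_prop) ?_) ?_
    · refine DifferentiableAt.pow ?_ A
      exact DifferentiableAt.div (by fun_prop) (by fun_prop) h1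
    · refine DifferentiableAt.pow ?_ p
      refine DifferentiableAt.comp z (g := gk r J) (f := fun z : ℂ => z - s)
        (gk_diff hr0 J ?_) (by fun_prop)
      rw [Complex.sub_re]
      rw [hr] at hz' ⊢
      linarith
  have hΦd : DifferentiableOn ℂ Φ U := by
    refine hFd.sub ?_
    exact (by fun_prop : Differentiable ℂ fun z : ℂ => F s * cexp ((z - s) ^ 2)).differentiableOn
  have hfd : DifferentiableOn ℂ (dslope Φ s) U :=
    (Complex.differentiableOn_dslope (hUo.mem_nhds hsU)).mpr hΦd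
  have hgauss : ∀ z : ℂ, ‖cexp ((z - s) ^ 2)‖ =
      Real.exp ((z.re - s.re) ^ 2) * Real.exp (-(z.im - τ) ^ 2) := by
    intro z
    rw [Complex.norm_exp, ← Real.exp_add]
    congr 1
    rw [hτ]
    simp [pow_two]
    ring
  have hfne : ∀ z : ℂ, z ≠ s → dslope Φ s z = F z / (z - s) - F s * (cexp ((z - s) ^ 2) / (z - s)) := by
    intro z hz
    rw [dslope_of_ne _ hz, slope_def_field, hΦs, hΦ]
    simp only
    ring
  -- the integrals
  have hIF : ∀ x : ℝ, a ≤ x → x ≠ s.re →
      Integrable (fun t : ℝ => F (pt x t) / (pt x t - s)) ∧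
      Integrable (fun t : ℝ => cexp ((pt x t - s) ^ 2) / (pt x t - s)) := by
    intro x hx hxs
    have hne : ∀ t : ℝ, pt x t - s ≠ 0 := fun t h => by
      have := congrArg Complex.re h
      simp at this
      exact hxs (by linarith)
    have hcp := pt_cont x
    have hlow2 : ∀ t : ℝ, |x - s.re| ≤ ‖pt x t - s‖ := fun t => by
      have := Complex.abs_re_le_norm (pt x t - s)
      simpa using this
    have hx0 : 0 < |x - s.re| := abs_pos.mpr (sub_ne_zero.mpr hxs)
    constructor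
    · refine ((q2_int.comp_sub_right τ).const_mul
        (D * Real.exp (-((lam - μ) * x)) / |x - s.re|)).mono' ?_ (Eventually.of_forall fun t => ?_)
      · refine Continuous.aestronglyMeasurable ?_
        refine Continuous.div₀ ?_ (by fun_prop) hne
        exact hFd.continuousOn.comp_continuous hcp fun t => by
          rw [hU, mem_setOf_eq, pt_re]
          linarith
      · rw [norm_div]
        have h1 := hFb (pt x t) (by rw [pt_re]; exact hx)
        rw [pt_re, pt_im] at h1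
        rw [div_le_iff₀ (norm_pos_iff.mpr (hne t))]
        refine h1.trans ?_
        rw [div_mul_eq_mul_div, div_mul_eq_mul_div, le_div_iff₀ hx0]
        exact mul_le_mul_of_nonneg_left (hlow2 t) (by have := q2_pos (t - τ); positivity)
    · refine ((q2_int.comp_sub_right τ).const_mul
        (2 * Real.exp ((x - s.re) ^ 2) / |x - s.re|)).mono' ?_ (Eventually.of_forall fun t => ?_)
      · refine Continuous.aestronglyMeasurable ?_
        exact Continuous.div₀ (by fun_prop) (by fun_prop) hne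
      · rw [norm_div, hgauss, pt_re, pt_im]
        have h1 := exp_le_q2 (t - τ)
        rw [div_le_iff₀ (norm_pos_iff.mpr (hne t)), div_mul_eq_mul_div, div_mul_eq_mul_div,
          le_div_iff₀ hx0]
        calc Real.exp ((x - s.re) ^ 2) * Real.exp (-(t - τ) ^ 2) * |x - s.re| ≤
            Real.exp ((x - s.re) ^ 2) * (2 * q2 (t - τ)) * ‖pt x t - s‖ := by
              have := q2_pos (t - τ)
              gcongr
              exact hlow2 t
          _ = _ := by ring
  have hE : ∀ x : ℝ, ∫ t : ℝ, cexp ((pt x t - s) ^ 2) / (pt x t - s) =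
      ∫ t : ℝ, cexp (pt (x - s.re) t ^ 2) / pt (x - s.re) t := by
    intro x
    rw [← integral_sub_right_eq_self (fun t : ℝ => cexp (pt (x - s.re) t ^ 2) /
      pt (x - s.re) t) τ]
    refine integral_congr_ae (Eventually.of_forall fun t => ?_)
    simp only
    have e : pt x t - s = pt (x - s.re) (t - τ) := by
      apply Complex.ext
      · simp
      · rw [hτ]; simp
    rw [e]
  have hmain : ∀ b : ℝ, s.re < b → 2 * Real.pi * F s =
      (∫ t : ℝ, F (pt b t) / (pt b t - s)) - ∫ t : ℝ, F (pt a t) / (pt a t - s) := by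
    intro b hb
    have hsub : strip a b ⊆ U := fun z hz => by
      rw [hU, mem_setOf_eq]
      have := hz.1
      linarith
    obtain ⟨C', hC'⟩ := bd2_of_eventually (f := dslope Φ s) (a := a) (b := b)
      (hfd.continuousOn.mono hsub)
      (C := (D * Real.exp (-((lam - μ) * a)) + ‖F s‖ * (Real.exp ((b - a) ^ 2) * 2)) *
        (1 + |τ|) ^ 2) (T₀ := |τ| + 1) (by
        intro z hz hT
        have h1 : 1 ≤ |z.im - τ| := by
          have := abs_add_le (z.im - τ) τ
          simp only [sub_add_cancel] at this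
          linarith
        have hzs : z ≠ s := fun h => by
          rw [h, hτ, sub_self, abs_zero] at h1
          linarith
        rw [hfne z hzs]
        have h2 : 1 ≤ ‖z - s‖ := by
          have := Complex.abs_im_le_norm (z - s)
          have e : (z - s).im = z.im - τ := by rw [hτ]; simp
          rw [e] at this
          linarith
        have h3 := hFb z hz.1
        have h4 : ‖F z / (z - s)‖ ≤ D * Real.exp (-((lam - μ) * a)) * q2 (z.im - τ) := by
          rw [norm_div]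
          refine (div_le_self (norm_nonneg _) h2).trans (h3.trans ?_)
          have h5 : Real.exp (-((lam - μ) * z.re)) ≤ Real.exp (-((lam - μ) * a)) := by
            refine Real.exp_le_exp.mpr ?_
            have := mul_le_mul_of_nonneg_left hz.1 (sub_pos.mpr hml).le
            linarith
          have := q2_pos (z.im - τ)
          gcongr
        have h5 : ‖F s * (cexp ((z - s) ^ 2) / (z - s))‖ ≤
            ‖F s‖ * (Real.exp ((b - a) ^ 2) * 2) * q2 (z.im - τ) := by
          rw [norm_mul, norm_div, hgauss]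
          have h6 := exp_le_q2 (z.im - τ)
          have h7 : Real.exp ((z.re - s.re) ^ 2) ≤ Real.exp ((b - a) ^ 2) := by
            refine Real.exp_le_exp.mpr ?_
            have h8 := hz.1
            have h9 := hz.2
            nlinarith
          calc ‖F s‖ * (Real.exp ((z.re - s.re) ^ 2) * Real.exp (-(z.im - τ) ^ 2) / ‖z - s‖) ≤
              ‖F s‖ * (Real.exp ((z.re - s.re) ^ 2) * Real.exp (-(z.im - τ) ^ 2)) := by
                gcongr
                exact div_le_self (by positivity) h2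
            _ ≤ ‖F s‖ * (Real.exp ((b - a) ^ 2) * (2 * q2 (z.im - τ))) := by gcongr
            _ = _ := by ring
        have h6 := q2_le τ z.im
        calc ‖F z / (z - s) - F s * (cexp ((z - s) ^ 2) / (z - s))‖ ≤
            D * Real.exp (-((lam - μ) * a)) * q2 (z.im - τ) +
            ‖F s‖ * (Real.exp ((b - a) ^ 2) * 2) * q2 (z.im - τ) :=
              (norm_sub_le _ _).trans (add_le_add h4 h5)
          _ = (D * Real.exp (-((lam - μ) * a)) + ‖F s‖ * (Real.exp ((b - a) ^ 2) * 2)) *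
              q2 (z.im - τ) := by ring
          _ ≤ (D * Real.exp (-((lam - μ) * a)) + ‖F s‖ * (Real.exp ((b - a) ^ 2) * 2)) *
              ((1 + |τ|) ^ 2 * (1 + z.im ^ 2)⁻¹) :=
                mul_le_mul_of_nonneg_left h6 (by positivity)
          _ = _ := by ring)
    have hsh := vshift2 (f := dslope Φ s) (hs.trans hb).le (hfd.continuousOn.mono hsub)
      (hfd.mono fun z hz => by
        rw [hU, mem_setOf_eq]
        have := hz.1
        linarith) hC'
    have hne : ∀ x : ℝ, x ≠ s.re → ∀ t : ℝ, pt x t ≠ s := fun x hx t h => hx (by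
      rw [← h, pt_re])
    have hval : ∀ x : ℝ, a ≤ x → x ≠ s.re → ∫ t : ℝ, dslope Φ s (pt x t) =
        (∫ t : ℝ, F (pt x t) / (pt x t - s)) -
          F s * ∫ t : ℝ, cexp ((pt x t - s) ^ 2) / (pt x t - s) := by
      intro x hx hxs
      obtain ⟨i1, i2⟩ := hIF x hx hxs
      have e1 : ∀ t : ℝ, dslope Φ s (pt x t) = F (pt x t) / (pt x t - s) -
          F s * (cexp ((pt x t - s) ^ 2) / (pt x t - s)) := fun t => hfne _ (hne x hxs t)
      simp_rw [e1]
      rw [integral_sub i1 (i2.const_mul _), integral_const_mul]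
    rw [hval a le_rfl hs.ne, hval b (hs.trans hb).le hb.ne', hE a, hE b,
      gk_left (by linarith), gk_right (by linarith)] at hsh
    linear_combination hsh
  -- the limit
  obtain ⟨Q, hQ⟩ : ∃ Q : ℝ, Q = ∫ t : ℝ, q2 (t - τ) := ⟨_, rfl⟩
  have hI : 2 * Real.pi * ‖F s‖ ≤ ‖∫ t : ℝ, F (pt a t) / (pt a t - s)‖ := by
    have h1 : ∀ b : ℝ, s.re + 1 ≤ b → 2 * Real.pi * ‖F s‖ ≤
        D * Q * Real.exp (-((lam - μ) * b)) + ‖∫ t : ℝ, F (pt a t) / (pt a t - s)‖ := by
      intro b hb
      have h2 := congrArg norm (hmain b (by linarith))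
      rw [norm_mul] at h2
      have h3 : ‖(2 * Real.pi : ℂ)‖ = 2 * Real.pi := by
        have : (2 * Real.pi : ℂ) = ((2 * Real.pi : ℝ) : ℂ) := by push_cast; ring
        rw [this, Complex.norm_real, Real.norm_of_nonneg (by positivity)]
      rw [h3] at h2
      rw [h2]
      refine (norm_sub_le _ _).trans (add_le_add ?_ le_rfl)
      have h4 : ‖∫ t : ℝ, F (pt b t) / (pt b t - s)‖ ≤
          ∫ t : ℝ, D * Real.exp (-((lam - μ) * b)) * q2 (t - τ) := by
        refine norm_integral_le_of_norm_le ((q2_int.comp_sub_right τ).const_mul _)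
          (Eventually.of_forall fun t => ?_)
        rw [norm_div]
        have h5 : 1 ≤ ‖pt b t - s‖ := by
          have := Complex.abs_re_le_norm (pt b t - s)
          have e : (pt b t - s).re = b - s.re := by simp
          rw [e, abs_of_pos (by linarith)] at this
          linarith
        refine (div_le_self (norm_nonneg _) h5).trans ?_
        have h6 := hFb (pt b t) (by rw [pt_re]; linarith)
        rw [pt_re, pt_im] at h6
        exact h6
      rw [integral_const_mul, ← hQ] at h4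
      linarith
    have h2 : Tendsto (fun b : ℝ => D * Q * Real.exp (-((lam - μ) * b)) +
        ‖∫ t : ℝ, F (pt a t) / (pt a t - s)‖) atTop
        (𝓝 (D * Q * 0 + ‖∫ t : ℝ, F (pt a t) / (pt a t - s)‖)) := by
      refine Tendsto.add_const _ (Tendsto.const_mul _ ?_)
      refine Real.tendsto_exp_neg_atTop_nhds_zero.comp ?_
      exact Tendsto.const_mul_atTop (sub_pos.mpr hml) tendsto_id
    rw [mul_zero, zero_add] at h2
    refine ge_of_tendsto h2 ?_
    filter_upwards [eventually_ge_atTop (s.re + 1)] with b hb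
    exact h1 b hb
  -- the norm of the integrand
  have hnorm : ∀ v : ℝ, ‖F (pt a (τ + v)) / (pt a (τ + v) - s)‖ =
      Real.exp (-(μ * r)) * (‖g (pt a (τ + v))‖ * (kap B r v * gev0 r J v ^ p)) := by
    intro v
    rw [norm_div, hF]
    simp only
    rw [norm_mul, hnk]
    have e1 : pt a (τ + v) - s = ⟨-r, v⟩ := by
      apply Complex.ext
      · rw [hr]; simp
      · rw [hτ]; simp
    have e2 : (⟨-r, v⟩ : ℂ) + 2 * r = ⟨r, v⟩ := by
      apply Complex.ext
      · simp; ring
      · simp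
    rw [e1, e2, gk_line hr0]
    have n1 : ‖(⟨-r, v⟩ : ℂ)‖ = Real.sqrt (r ^ 2 + v ^ 2) := by
      rw [Complex.norm_def, Complex.normSq_mk]
      congr 1
      ring
    have n2 : ‖(⟨r, v⟩ : ℂ)‖ = Real.sqrt (r ^ 2 + v ^ 2) := by
      rw [Complex.norm_def, Complex.normSq_mk]
      congr 1
      ring
    rw [n1, n2]
    unfold kap
    rw [← hA]
    have hX : 0 < r ^ 2 + v ^ 2 := by positivity
    have hX1 : 0 < Real.sqrt (r ^ 2 + v ^ 2) := Real.sqrt_pos.mpr hX
    have e3 : (r ^ 2 + v ^ 2) ^ B = Real.sqrt (r ^ 2 + v ^ 2) ^ A * Real.sqrt (r ^ 2 + v ^ 2) := by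
      rw [← pow_succ, hAB, pow_mul, Real.sq_sqrt hX.le]
    rw [e3, div_pow]
    have e4 : μ * (⟨-r, v⟩ : ℂ).re = -(μ * r) := by simp
    rw [e4]
    field_simp
  have hint : Integrable (fun v : ℝ => ‖F (pt a (τ + v)) / (pt a (τ + v) - s)‖) := by
    have h1 := ((hIF a le_rfl hs.ne).1.norm).comp_add_left τ
    exact h1
  have hex : Real.exp (-(μ * r)) ≠ 0 := (Real.exp_pos _).ne'
  constructor
  · have h1 := hint.const_mul (Real.exp (-(μ * r)))⁻¹
    refine h1.congr (Eventually.of_forall fun v => ?_)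
    simp only
    rw [hnorm v, ← mul_assoc, inv_mul_cancel₀ hex, one_mul]
  · rw [← hFs]
    have h1 : ‖∫ t : ℝ, F (pt a t) / (pt a t - s)‖ ≤
        Real.exp (-(μ * r)) * ∫ v : ℝ, ‖g (pt a (τ + v))‖ * (kap B r v * gev0 r J v ^ p) := by
      refine (norm_integral_le_integral_norm _).trans (le_of_eq ?_)
      rw [← integral_add_left_eq_self (fun t : ℝ => ‖F (pt a t) / (pt a t - s)‖) τ,
        ← integral_const_mul]
      exact integral_congr_ae (Eventually.of_forall fun v => hnorm v)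
    have h2 : ‖F s‖ ≤ 2 * Real.pi * ‖F s‖ := by
      have := Real.pi_gt_three
      have := norm_nonneg (F s)
      nlinarith
    exact h2.trans (hI.trans h1)



/-! ### the decay of the powers of the Gevrey factor -/

/-- the decay with an explicit rate -/
theorem gev_decay_expl (κ : ℝ) (hκ : 0 < κ) (L r : ℝ) (hL : 1 ≤ L) (hr : 0 < r) (hrL : r ≤ κ / L) :
    ∃ J : ℕ, Continuous (gev0 r J) ∧ ∀ v : ℝ, 0 ≤ gev0 r J v ∧
      gev0 r J v * Real.exp (Real.log 2 / (2 * Real.sqrt κ) * Real.sqrt (L * min 1 |v|)) ≤ 20 := by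
  have hκ1 : 0 < Real.sqrt κ := Real.sqrt_pos.mpr hκ
  have hlog : 0 < Real.log 2 := Real.log_pos one_lt_two
  refine ⟨⌊Real.sqrt (1 / (4 * r))⌋₊, gev0_cont hr _, fun v => ⟨gev0_nn hr _ v, ?_⟩⟩
  obtain ⟨m, hm⟩ : ∃ m : ℝ, m = min 1 |v| := ⟨_, rfl⟩
  have hm0 : 0 ≤ m := by rw [hm]; exact le_min zero_le_one (abs_nonneg v)
  have hm1 : m ≤ 1 := by rw [hm]; exact min_le_left _ _
  have hmv : m ≤ |v| := by rw [hm]; exact min_le_right _ _
  rw [← hm]
  obtain ⟨y, hy⟩ : ∃ y : ℝ, y = Real.sqrt (m / (4 * r)) := ⟨_, rfl⟩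
  have hy0 : 0 ≤ y := by rw [hy]; positivity
  have hyJ : ⌊y⌋₊ ≤ ⌊Real.sqrt (1 / (4 * r))⌋₊ := by
    refine Nat.floor_le_floor ?_
    rw [hy]
    gcongr
  obtain ⟨K, hK⟩ := Nat.exists_eq_add_of_le hyJ
  rw [hK]
  have hysq : y ^ 2 = m / (4 * r) := by rw [hy, Real.sq_sqrt (by positivity)]
  have h1 : gev0 r (⌊y⌋₊ + K) v ≤ Real.exp 2 * (1 / 2) ^ ⌊y⌋₊ := by
    refine gev0_le hr _ _ fun j hj => ?_
    have h2 : (j : ℝ) + 1 ≤ y := by
      have h3 : ((j + 1 : ℕ) : ℝ) ≤ ⌊y⌋₊ := by exact_mod_cast hj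
      have h4 := Nat.floor_le hy0
      push_cast at h3
      linarith
    have h5 : ((j : ℝ) + 1) ^ 2 ≤ m / (4 * r) := by
      rw [← hysq]
      exact pow_le_pow_left₀ (by positivity) h2 2
    rw [le_div_iff₀ (by positivity)] at h5
    linarith
  -- the exponent
  have h2 : Real.sqrt (L * m) ≤ 2 * Real.sqrt κ * y := by
    rw [hy]
    have e : 2 * Real.sqrt κ * Real.sqrt (m / (4 * r)) = Real.sqrt (4 * κ * (m / (4 * r))) := by
      rw [mul_assoc, ← Real.sqrt_mul hκ.le, show (4 : ℝ) * κ * (m / (4 * r)) =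
        2 ^ 2 * (κ * (m / (4 * r))) by ring,
        Real.sqrt_mul (by positivity : (0 : ℝ) ≤ 2 ^ 2) (κ * (m / (4 * r))),
        Real.sqrt_sq (by norm_num)]
    rw [e]
    refine Real.sqrt_le_sqrt ?_
    have h3 : L ≤ κ / r := by
      rw [le_div_iff₀ (by linarith)] at hrL
      rw [le_div_iff₀ hr]
      linarith
    calc L * m ≤ κ / r * m := by gcongr
      _ = _ := by field_simp
  have h3 : Real.log 2 / (2 * Real.sqrt κ) * Real.sqrt (L * m) ≤ Real.log 2 * ((⌊y⌋₊ : ℝ) + 1) := by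
    calc Real.log 2 / (2 * Real.sqrt κ) * Real.sqrt (L * m) ≤
        Real.log 2 / (2 * Real.sqrt κ) * (2 * Real.sqrt κ * y) := by gcongr
      _ = Real.log 2 * y := by field_simp
      _ ≤ _ := by
        have := (Nat.lt_floor_add_one y).le
        gcongr
  have h4 : Real.exp (Real.log 2 / (2 * Real.sqrt κ) * Real.sqrt (L * m)) ≤ 2 ^ (⌊y⌋₊ + 1) := by
    refine (Real.exp_le_exp.mpr h3).trans (le_of_eq ?_)
    have e : Real.log 2 * ((⌊y⌋₊ : ℝ) + 1) = ((⌊y⌋₊ + 1 : ℕ) : ℝ) * Real.log 2 := by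
      push_cast
      ring
    rw [e, Real.exp_nat_mul, Real.exp_log two_pos]
  have h5 : Real.exp 2 ≤ 10 := by
    have h6 := Real.exp_one_lt_d9
    have h7 : Real.exp 2 = Real.exp 1 ^ 2 := by
      rw [← Real.exp_nat_mul]
      norm_num
    rw [h7]
    have h8 := Real.exp_pos 1
    nlinarith
  calc gev0 r (⌊y⌋₊ + K) v * Real.exp (Real.log 2 / (2 * Real.sqrt κ) * Real.sqrt (L * m)) ≤
      (Real.exp 2 * (1 / 2) ^ ⌊y⌋₊) * 2 ^ (⌊y⌋₊ + 1) := by gcongr
    _ = Real.exp 2 * 2 := by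
        rw [pow_succ, mul_assoc, ← mul_assoc ((1 / 2 : ℝ) ^ ⌊y⌋₊), ← mul_pow]
        norm_num
    _ ≤ 20 := by linarith

/-- the powers of the Gevrey factor -/
theorem gev_decay2 : ∃ C₂ : ℝ, 0 < C₂ ∧ ∀ κ C₁ : ℝ, 0 < κ → 0 < C₁ → ∃ p : ℕ, ∀ L r : ℝ, 1 ≤ L →
    0 < r → r ≤ κ / L → ∃ J : ℕ, Continuous (gev0 r J) ∧ ∀ v : ℝ, 0 ≤ gev0 r J v ∧
      gev0 r J v ^ p * Real.exp (C₁ * Real.sqrt (L * min 1 |v|)) ≤
        Real.exp (C₂ * (1 + C₁ * Real.sqrt κ)) := by
  refine ⟨9, by norm_num, fun κ C₁ hκ hC₁ => ?_⟩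
  have hκ1 : 0 < Real.sqrt κ := Real.sqrt_pos.mpr hκ
  have hlog : 0 < Real.log 2 := Real.log_pos one_lt_two
  obtain ⟨ε, hε⟩ : ∃ ε : ℝ, ε = Real.log 2 / (2 * Real.sqrt κ) := ⟨_, rfl⟩
  have hε0 : 0 < ε := by rw [hε]; positivity
  refine ⟨⌈C₁ / ε⌉₊, fun L r hL hr hrL => ?_⟩
  obtain ⟨J, hJc, hJ⟩ := gev_decay_expl κ hκ L r hL hr hrL
  refine ⟨J, hJc, fun v => ⟨(hJ v).1, ?_⟩⟩
  obtain ⟨h0, h1⟩ := hJ v
  rw [← hε] at h1
  obtain ⟨X, hX⟩ : ∃ X : ℝ, X = Real.sqrt (L * min 1 |v|) := ⟨_, rfl⟩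
  have hX0 : 0 ≤ X := by rw [hX]; exact Real.sqrt_nonneg _
  rw [← hX] at h1 ⊢
  obtain ⟨p, hp⟩ : ∃ p : ℕ, p = ⌈C₁ / ε⌉₊ := ⟨_, rfl⟩
  rw [← hp]
  have hp1 : C₁ ≤ p * ε := by
    have := Nat.le_ceil (C₁ / ε)
    rw [← hp, div_le_iff₀ hε0] at this
    exact this
  have hp2 : (p : ℝ) ≤ 3 * (C₁ * Real.sqrt κ) + 1 := by
    have h2 := (Nat.ceil_lt_add_one (show 0 ≤ C₁ / ε by positivity)).le
    rw [← hp] at h2
    have h3 : C₁ / ε ≤ 3 * (C₁ * Real.sqrt κ) := by
      rw [hε, div_div_eq_mul_div, div_le_iff₀ hlog]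
      have h4 := Real.log_two_gt_d9
      have h5 : 0 < C₁ * Real.sqrt κ := by positivity
      nlinarith
    linarith
  have h20 : (20 : ℝ) ≤ Real.exp 3 := by
    have h6 := Real.exp_one_gt_d9
    have h7 : Real.exp 3 = Real.exp 1 ^ 3 := by
      rw [← Real.exp_nat_mul]
      norm_num
    rw [h7]
    have h8 : (2.718 : ℝ) ≤ Real.exp 1 := by linarith
    calc (20 : ℝ) ≤ 2.718 ^ 3 := by norm_num
      _ ≤ Real.exp 1 ^ 3 := by gcongr
  calc gev0 r J v ^ p * Real.exp (C₁ * X) ≤ gev0 r J v ^ p * Real.exp (p * (ε * X)) := by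
        refine mul_le_mul_of_nonneg_left (Real.exp_le_exp.2 ?_) (pow_nonneg h0 _)
        rw [← mul_assoc]
        exact mul_le_mul_of_nonneg_right hp1 hX0
    _ = (gev0 r J v * Real.exp (ε * X)) ^ p := by
        rw [mul_pow, ← Real.exp_nat_mul]
    _ ≤ 20 ^ p := pow_le_pow_left₀ (mul_nonneg h0 (Real.exp_pos _).le) h1 p
    _ ≤ Real.exp 3 ^ p := pow_le_pow_left₀ (by norm_num) h20 p
    _ = Real.exp (p * 3) := by rw [← Real.exp_nat_mul]
    _ ≤ _ := by
        refine Real.exp_le_exp.2 ?_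
        have h5 : 0 < C₁ * Real.sqrt κ := by positivity
        nlinarith

end Pool.Agent.N802.WD.K
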