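import Pool.Agent.N802.WD.Stm3
import Pool.Agent.N802.WD.Ker20

/-!
# KER2: a function at a point from its values on a line to the left, with a power of a Gevrey kernel
(helper771, after `Pool.Agent.N802.WD.Ker0`)
-/

set_option autoImplicit false

namespace Pool.Agent.N802.WD

/-- **KER2** -/
theorem ker2 : S_ker2 := by
  have he : ∀ (r : ℝ) (J : ℕ), gev r J = K.gev0 r J := fun r J => rfl
  constructor
  · intro g hg a μ lam G m B J p hB hml hgr s hs
    simp only [he]
    exact K.cauchy_gev2 hg J p hB hml hgr hs
  · simp only [he]
    exact K.gev_decay2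

end Pool.Agent.N802.WD
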