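import Pool.Agent.N802.WD.Stm3
import Pool.Agent.N802.WD.Msd

/-!
# The mean square of twisted smooth partial sums times the mollifier, long weights (helper901)
-/

set_option autoImplicit false

open Complex Filter Topology Set MeasureTheory
open scoped BigOperators ComplexConjugate

namespace Pool.Agent.N802.WD

namespace Msd2

open TC Pool.Agent.N802.U Msd
open Pool.Agent.R399.TW (pt)

lemma Dx_eq (χ : ℕ → ℂ) (V : ℝ → ℝ) (M : ℕ) (σ y t : ℝ) :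
    Dx χ V M (pt σ (t + y)) = RP (Finset.Icc 1 M) (fun n => χ n * dn V σ y n) t := by
  unfold Dx RP TP dn
  refine Finset.sum_congr rfl fun n hn => ?_
  rw [cpow_pt n (Finset.mem_Icc.1 hn).1]
  ring

lemma Mx_eq (χ : ℕ → ℂ) (V : ℝ → ℝ) (M : ℕ) (σ y t : ℝ) :
    Mx χ V M (pt σ (t + y)) = RP (Finset.Icc 1 M) (fun n => χ n * bn V σ y n) t := by
  unfold Mx RP TP bn dn
  refine Finset.sum_congr rfl fun n hn => ?_
  rw [cpow_pt n (Finset.mem_Icc.1 hn).1]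
  ring

lemma cv_tw {χ : ℕ → ℂ} (hχ : ∀ m n : ℕ, χ (m * n) = χ m * χ n) (P S : Finset ℕ) (f g : ℕ → ℂ)
    (m : ℕ) : cv P S (fun n => χ n * f n) (fun n => χ n * g n) m = χ m * cv P S f g m := by
  unfold cv
  rw [Finset.mul_sum]
  refine Finset.sum_congr rfl fun z hz => ?_
  rw [← (Finset.mem_filter.1 hz).2, hχ]
  ring

lemma cvE_bdd {E : ℝ × ℝ → ℕ → ℂ} (hEb : ∀ m, ∃ B : ℝ, 0 ≤ B ∧ ∀ y, ‖E y m‖ ≤ B) (P S : Finset ℕ)
    (r : ℕ → ℂ) (k : ℕ) : ∃ B : ℝ, 0 ≤ B ∧ ∀ y : ℝ × ℝ, ‖cv P S (E y) r k‖ ≤ B := by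
  choose B hB0 hB using hEb
  refine ⟨∑ z ∈ (P ×ˢ S).filter (fun z => z.1 * z.2 = k), B z.1 * ‖r z.2‖,
    Finset.sum_nonneg fun z _ => mul_nonneg (hB0 _) (norm_nonneg _), fun y => ?_⟩
  unfold cv
  refine (norm_sum_le _ _).trans (Finset.sum_le_sum fun z _ => ?_)
  rw [norm_mul]
  exact mul_le_mul_of_nonneg_right (hB _ _) (norm_nonneg _)

lemma cvE_cont {E : ℝ × ℝ → ℕ → ℂ} (hEc : ∀ m, Continuous fun y => E y m) (P S : Finset ℕ)
    (r : ℕ → ℂ) (k : ℕ) : Continuous (fun y : ℝ × ℝ => cv P S (E y) r k) := by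
  unfold cv
  exact continuous_finsetSum _ fun z _ => (hEc z.1).mul_const _

lemma AkE_int {K₁ K₂ : ℝ → ℂ} (h₁ : Integrable K₁) (h₂ : Integrable K₂) {E : ℝ × ℝ → ℕ → ℂ}
    (hEc : ∀ m, Continuous fun y => E y m) (hEb : ∀ m, ∃ B : ℝ, 0 ≤ B ∧ ∀ y, ‖E y m‖ ≤ B)
    (P S : Finset ℕ) (c r : ℕ → ℂ)
    (hc : ∀ m ∈ P, c m = ∫ y : ℝ × ℝ, (K₁ y.1 * K₂ y.2) * E y m) (k : ℕ) :
    cv P S c r k = ∫ y : ℝ × ℝ, (K₁ y.1 * K₂ y.2) * cv P S (E y) r k := by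
  unfold cv
  simp only [Finset.mul_sum]
  rw [integral_finsetSum]
  · refine Finset.sum_congr rfl fun z hz => ?_
    rw [hc _ (Finset.mem_product.1 (Finset.mem_filter.1 hz).1).1, ← integral_mul_const]
    congr 1
    funext y
    ring
  · intro z _
    obtain ⟨B, -, hB⟩ := hEb z.1
    have h0 := (kk_int h₁ h₂).bdd_mul (f := fun y : ℝ × ℝ => E y z.1) (c := B)
      (hEc z.1).aestronglyMeasurable (Eventually.of_forall hB)
    refine (h0.mul_const (r z.2)).congr (Eventually.of_forall fun y => ?_)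
    simp only
    ring

/-- Minkowski's inequality for the coefficients -/
lemma w1_leE {K₁ K₂ : ℝ → ℂ} (h₁ : Integrable K₁) (h₂ : Integrable K₂) {E : ℝ × ℝ → ℕ → ℂ}
    (hEc : ∀ m, Continuous fun y => E y m) (hEb : ∀ m, ∃ B : ℝ, 0 ≤ B ∧ ∀ y, ‖E y m‖ ≤ B)
    (P S Q : Finset ℕ) (c r : ℕ → ℂ)
    (hc : ∀ m ∈ P, c m = ∫ y : ℝ × ℝ, (K₁ y.1 * K₂ y.2) * E y m)
    (bd : ℝ × ℝ → ℝ) (hbd : Integrable bd)
    (hb : ∀ y : ℝ × ℝ, ‖K₁ y.1‖ * ‖K₂ y.2‖ * ∑ k ∈ Q, ‖cv P S (E y) r k‖ ^ 2 ≤ bd y) :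
    w1 Q (cv P S c r) ≤ ((∫ y, ‖K₁ y‖) * ∫ y, ‖K₂ y‖) * ∫ y, bd y := by
  have hkn : Integrable (fun y : ℝ × ℝ => ‖K₁ y.1‖ * ‖K₂ y.2‖) := by
    rw [Measure.volume_eq_prod]
    exact h₁.norm.mul_prod h₂.norm
  have hmass : ∫ y : ℝ × ℝ, ‖K₁ y.1‖ * ‖K₂ y.2‖ = (∫ y, ‖K₁ y‖) * ∫ y, ‖K₂ y‖ := by
    rw [Measure.volume_eq_prod]
    exact integral_prod_mul (fun y => ‖K₁ y‖) (fun y => ‖K₂ y‖)
  have hk2 : ∀ k, Integrable (fun y : ℝ × ℝ =>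
      ‖K₁ y.1‖ * ‖K₂ y.2‖ * ‖cv P S (E y) r k‖ ^ 2) := by
    intro k
    obtain ⟨B, hB0, hB⟩ := cvE_bdd hEb P S r k
    have h := hkn.bdd_mul (f := fun y : ℝ × ℝ => ‖cv P S (E y) r k‖ ^ 2) (c := B ^ 2)
      (((cvE_cont hEc P S r k).norm.pow 2).aestronglyMeasurable)
      (Eventually.of_forall fun y => by
        rw [Real.norm_of_nonneg (by positivity)]
        exact pow_le_pow_left₀ (norm_nonneg _) (hB y) 2)
    refine h.congr (Eventually.of_forall fun y => ?_)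
    simp only
    ring
  have hk1 : ∀ k, Integrable (fun y : ℝ × ℝ =>
      ‖K₁ y.1‖ * ‖K₂ y.2‖ * ‖cv P S (E y) r k‖) := by
    intro k
    obtain ⟨B, hB0, hB⟩ := cvE_bdd hEb P S r k
    have h := hkn.bdd_mul (f := fun y : ℝ × ℝ => ‖cv P S (E y) r k‖) (c := B)
      ((cvE_cont hEc P S r k).norm.aestronglyMeasurable)
      (Eventually.of_forall fun y => by
        rw [Real.norm_of_nonneg (by positivity)]
        exact hB y)
    refine h.congr (Eventually.of_forall fun y => ?_)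
    simp only
    ring
  have h1 : ∀ k ∈ Q, ‖cv P S c r k‖ ^ 2 ≤ ((∫ y, ‖K₁ y‖) * ∫ y, ‖K₂ y‖) *
      ∫ y : ℝ × ℝ, ‖K₁ y.1‖ * ‖K₂ y.2‖ * ‖cv P S (E y) r k‖ ^ 2 := by
    intro k _
    have h2 : ‖cv P S c r k‖ ≤ ∫ y : ℝ × ℝ, ‖K₁ y.1‖ * ‖K₂ y.2‖ *
        ‖cv P S (E y) r k‖ := by
      rw [AkE_int h₁ h₂ hEc hEb P S c r hc k]
      refine (norm_integral_le_integral_norm _).trans (le_of_eq ?_)
      congr 1
      funext y
      rw [norm_mul, norm_mul]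
    refine (pow_le_pow_left₀ (norm_nonneg _) h2 2).trans ?_
    rw [← hmass]
    exact cs_int volume _ _ hkn (fun y => by positivity) (hk1 k) (hk2 k)
  unfold w1
  refine (Finset.sum_le_sum h1).trans ?_
  rw [← Finset.mul_sum]
  refine mul_le_mul_of_nonneg_left ?_ (by positivity)
  rw [← integral_finsetSum _ fun k _ => hk2 k]
  refine integral_mono (integrable_finsetSum _ fun k _ => hk2 k) hbd fun y => ?_
  simp only
  rw [← Finset.mul_sum]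
  exact hb y

end Msd2

open Msd Msd2 TC Pool.Agent.N802.U in
open Pool.Agent.R399.TW (pt) in
/-- **MSD2** -/
theorem msd2 (hop : S_op) : S_msd2 := by
  obtain ⟨C0, q, hC0, hop⟩ := hop
  refine ⟨q, C0, hC0, fun α₁ α₂ β₁ β₂ κ C ε hα₁ hα₂ hβ₁ hβ₂ hκ hC hε => ?_⟩
  obtain ⟨γ, hγ⟩ : ∃ γ : ℝ, γ = 1 + (α₂ + β₂) := ⟨_, rfl⟩
  obtain ⟨T1, hT1⟩ := ev_T γ (2 * ε) (by linarith)
  refine ⟨2 * C0 * (C * Real.pi) ^ 4, max 10 T1, by positivity, le_max_left _ _, ?_⟩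
  intro T hT V₁ V₂ K₁ K₂ hV₁ hV₂ χ hχm hχ1 N H hN hNT hH S hS r τ k₁ k₂ hk₁ hk₂ x v
  have hT10 : 10 ≤ T := (le_max_left _ _).trans hT
  have hT0 : 0 < T := by linarith
  have hTe := hT1 T ((le_max_right _ _).trans hT)
  obtain ⟨L, hL⟩ : ∃ L : ℝ, L = Real.log T := ⟨_, rfl⟩
  rw [← hL] at hV₁ hV₂ ⊢
  have hL1 : 1 ≤ L := by
    rw [hL, Real.le_log_iff_exp_le hT0]
    have := Real.exp_one_lt_d9
    linarith
  have hL0 : 0 < L := by linarith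
  obtain ⟨kk, hkk⟩ : ∃ kk : ℝ, kk = max (max k₁ k₂) 0 + 1 := ⟨_, rfl⟩
  have b1 : k₁ ≤ max (max k₁ k₂) 0 := (le_max_left _ _).trans (le_max_left _ _)
  have b2 : k₂ ≤ max (max k₁ k₂) 0 := (le_max_right _ _).trans (le_max_left _ _)
  have b3 : 0 ≤ max (max k₁ k₂) 0 := le_max_right _ _
  have b4 : max (max k₁ k₂) 0 ≤ κ := by
    refine max_le (max_le ?_ ?_) (by linarith)
    · exact (le_abs_self _).trans hk₁
    · exact (le_abs_self _).trans hk₂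
  have b5 := (abs_le.1 hk₁).1
  have b6 := (abs_le.1 hk₂).1
  have hkk1 : 1 ≤ kk := by rw [hkk]; linarith
  obtain ⟨a₁, ha₁⟩ : ∃ a₁ : ℝ, a₁ = kk - k₁ := ⟨_, rfl⟩
  obtain ⟨a₂, ha₂⟩ : ∃ a₂ : ℝ, a₂ = kk - k₂ := ⟨_, rfl⟩
  have c1 : 1 ≤ a₁ := by rw [ha₁, hkk]; linarith
  have c2 : a₁ ≤ 2 * κ + 1 := by rw [ha₁, hkk]; linarith
  have c3 : 1 ≤ a₂ := by rw [ha₂, hkk]; linarith
  have c4 : a₂ ≤ 2 * κ + 1 := by rw [ha₂, hkk]; linarith
  obtain ⟨s, hs⟩ : ∃ s : ℝ, s = 1 / 2 + kk / L := ⟨_, rfl⟩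
  have hs₁ : (1 / 2 + k₁ / L) + a₁ / L = s := by rw [hs, ha₁]; ring
  have hs₂ : (1 / 2 + k₂ / L) + a₂ / L = s := by rw [hs, ha₂]; ring
  obtain ⟨hi₁, hm₁⟩ := K_int hC hC0 (K₁ a₁) (hV₁.cont a₁ c1 c2) (hV₁.bd a₁ c1 c2)
  obtain ⟨hi₂, hm₂⟩ := K_int hC hC0 (K₂ a₂) (hV₂.cont a₂ c3 c4) (hV₂.bd a₂ c3 c4)
  obtain ⟨N₁, hN₁⟩ : ∃ N₁ : ℕ, N₁ = ⌊T ^ α₂⌋₊ := ⟨_, rfl⟩
  obtain ⟨N₂, hN₂⟩ : ∃ N₂ : ℕ, N₂ = ⌊T ^ β₂⌋₊ := ⟨_, rfl⟩
  rw [← hN₁, ← hN₂]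
  have z₁ : ∀ n : ℕ, N₁ < n → V₁ (Real.log n) = 0 := by
    intro n hn
    apply hV₁.zero
    rw [hN₁] at hn
    have h1 := Nat.lt_of_floor_lt hn
    rw [hL, ← Real.log_rpow hT0]
    exact Real.log_le_log (by positivity) h1.le
  have z₂ : ∀ n : ℕ, N₂ < n → V₂ (Real.log n) = 0 := by
    intro n hn
    apply hV₂.zero
    rw [hN₂] at hn
    have h1 := Nat.lt_of_floor_lt hn
    rw [hL, ← Real.log_rpow hT0]
    exact Real.log_le_log (by positivity) h1.le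
  obtain ⟨P, hP⟩ : ∃ P : Finset ℕ, P = (Finset.Icc 1 N₁ ×ˢ Finset.Icc 1 N₂).image
    (fun z => z.1 * z.2) := ⟨_, rfl⟩
  obtain ⟨Q, hQ⟩ : ∃ Q : Finset ℕ, Q = (P ×ˢ S).image (fun z => z.1 * z.2) := ⟨_, rfl⟩
  have hP1 : ∀ m ∈ P, 1 ≤ m ∧ (m : ℝ) ≤ T ^ (α₂ + β₂) := by
    intro m hm
    rw [hP, Finset.mem_image] at hm
    obtain ⟨z, hz, rfl⟩ := hm
    rw [Finset.mem_product, Finset.mem_Icc, Finset.mem_Icc] at hz
    refine ⟨Nat.mul_pos (by omega) (by omega), ?_⟩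
    rw [Real.rpow_add hT0]
    push_cast
    have h1 : (z.1 : ℝ) ≤ T ^ α₂ := by
      have h2 : (z.1 : ℝ) ≤ (N₁ : ℝ) := by exact_mod_cast hz.1.2
      rw [hN₁] at h2
      exact h2.trans (Nat.floor_le (by positivity))
    have h3 : (z.2 : ℝ) ≤ T ^ β₂ := by
      have h2 : (z.2 : ℝ) ≤ (N₂ : ℝ) := by exact_mod_cast hz.2.2
      rw [hN₂] at h2
      exact h2.trans (Nat.floor_le (by positivity))
    exact mul_le_mul h1 h3 (by positivity) (by positivity)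
  obtain ⟨K0, hK0⟩ : ∃ K0 : ℝ, K0 = T ^ (α₂ + β₂) * N := ⟨_, rfl⟩
  have hQ1 : ∀ m ∈ Q, 1 ≤ m ∧ (m : ℝ) ≤ K0 := by
    intro m hm
    rw [hQ, Finset.mem_image] at hm
    obtain ⟨z, hz, rfl⟩ := hm
    rw [Finset.mem_product] at hz
    have h1 := hP1 _ hz.1
    have h2 := hS _ hz.2
    refine ⟨Nat.mul_pos (by omega) (by omega), ?_⟩
    rw [hK0]
    push_cast
    exact mul_le_mul h1.2 h2.2 (by positivity) (by positivity)
  obtain ⟨cc, hcc⟩ : ∃ cc : ℕ → ℂ, cc = cv (Finset.Icc 1 N₁) (Finset.Icc 1 N₂)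
    (fun n => χ n * dn V₁ (1 / 2 + k₁ / L) (x + v) n) (fun n => χ n * bn V₂ (1 / 2 + k₂ / L) x n) := ⟨_, rfl⟩
  -- the integrand
  have hint : ∀ t : ℝ, rh τ H S r t *
      (‖Dx χ V₁ N₁ (pt (1 / 2 + k₁ / L) (t + x + v))‖ ^ 2 *
        ‖Mx χ V₂ N₂ (pt (1 / 2 + k₂ / L) (t + x))‖ ^ 2) =
      om τ H t * ‖RP Q (cv P S cc r) t‖ ^ 2 := by
    intro t
    have e1 : t + x + v = t + (x + v) := by ring
    rw [e1, Dx_eq, Mx_eq]
    have e2 := RP_mul (Finset.Icc 1 N₁) (Finset.Icc 1 N₂)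
      (fun n => χ n * dn V₁ (1 / 2 + k₁ / L) (x + v) n)
      (fun n => χ n * bn V₂ (1 / 2 + k₂ / L) x n) (fun k hk => (Finset.mem_Icc.1 hk).1)
      (fun k hk => (Finset.mem_Icc.1 hk).1) P (fun m hm n hn => by
        rw [hP, Finset.mem_image]
        exact ⟨(m, n), Finset.mem_product.2 ⟨hm, hn⟩, rfl⟩) t
    have e3 := RP_mul P S cc r (fun k hk => (hP1 k hk).1) (fun k hk => (hS k hk).1) Q
      (fun m hm n hn => by
        rw [hQ, Finset.mem_image]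
        exact ⟨(m, n), Finset.mem_product.2 ⟨hm, hn⟩, rfl⟩) t
    rw [← hcc] at e2
    rw [← e3, ← e2, norm_mul, norm_mul]
    unfold rh
    ring
  simp only [hint]
  -- the mean value
  have hTab : 1 ≤ T ^ (α₂ + β₂) := Real.one_le_rpow (by linarith) (by linarith)
  have hK01 : 1 ≤ K0 := by
    rw [hK0]
    exact one_le_mul_of_one_le_of_one_le hTab hN
  have hK0p : 0 < K0 := by linarith
  have hHK : K0 * T ^ ε ≤ H := by
    refine le_trans (le_of_eq ?_) hH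
    rw [hK0, Real.rpow_add hT0 (α₂ + β₂) ε]
    ring
  have hTε : 0 < T ^ ε := by positivity
  have hH0 : 0 < H := lt_of_lt_of_le (by positivity) hHK
  have hK0γ : K0 ≤ T ^ γ := by
    rw [hK0, hγ, Real.rpow_add hT0 1 (α₂ + β₂), Real.rpow_one, mul_comm]
    exact mul_le_mul_of_nonneg_right hNT (by positivity)
  have hms := ms Q (cv P S cc r) τ H K0 hH0 hK01 hQ1 (by
    refine le_trans ?_ hTe
    refine mul_le_mul hK0γ (Real.exp_le_exp.2 ?_) (Real.exp_pos _).le (by positivity)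
    have h1 : (K0 * T ^ ε) ^ 2 ≤ H ^ 2 := pow_le_pow_left₀ (by positivity) hHK 2
    have h2 : T ^ (2 * ε) / 8 = (K0 * T ^ ε) ^ 2 / (8 * K0 ^ 2) := by
      rw [mul_comm 2 ε, Real.rpow_mul hT0.le]
      rw [show (T ^ ε) ^ (2 : ℝ) = (T ^ ε) ^ 2 from by norm_cast]
      field_simp
    rw [h2, neg_div]
    apply neg_le_neg
    exact div_le_div_of_nonneg_right h1 (by positivity))
  refine hms.trans ?_
  -- the coefficients
  have hcm : ∀ m ∈ P, cc m = ∫ y : ℝ × ℝ, (K₁ a₁ y.1 * K₂ a₂ y.2) * (χ m * ey L s x v y m) := by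
    intro m hm
    rw [hcc, cv_tw hχm, cm_int V₁ V₂ (K₁ a₁) (K₂ a₂) a₁ a₂ _ _ L s x v hs₁ hs₂ (hV₁.rep a₁ c1 c2)
      (hV₂.rep a₂ c3 c4) hi₁ hi₂ N₁ N₂ z₁ z₂ m (hP1 m hm).1, ← integral_const_mul]
    congr 1
    funext y
    ring
  have hEc : ∀ m, Continuous fun y : ℝ × ℝ => χ m * ey L s x v y m := fun m =>
    continuous_const.mul (ey_cont L s x v m)
  have hEb : ∀ m, ∃ B : ℝ, 0 ≤ B ∧ ∀ y : ℝ × ℝ, ‖χ m * ey L s x v y m‖ ≤ B := by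
    intro m
    refine ⟨∑ w ∈ m.divisorsAntidiagonal, Real.exp (-(s * (Real.log w.1 + Real.log w.2))),
      Finset.sum_nonneg fun w _ => (Real.exp_pos _).le, fun y => ?_⟩
    rw [norm_mul]
    refine (mul_le_of_le_one_left (norm_nonneg _) (hχ1 m)).trans ?_
    unfold ey
    exact (norm_sum_le _ _).trans (Finset.sum_le_sum fun w _ => Gy_norm L s x v y w.1 w.2)
  obtain ⟨bd, hbd⟩ : ∃ bd : ℝ × ℝ → ℝ, bd = fun y => (C0 * w1 S r * grow L C0 q v) *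
    ((C * (1 + y.1 ^ 2)⁻¹) * (C * (1 + y.2 ^ 2)⁻¹)) := ⟨_, rfl⟩
  have hI2 : Integrable (fun y : ℝ => C * (1 + y ^ 2)⁻¹) := integrable_inv_one_add_sq.const_mul C
  have hbi : Integrable bd := by
    rw [hbd, Measure.volume_eq_prod]
    exact (hI2.mul_prod hI2).const_mul _
  have hbv : ∫ y, bd y = (C0 * w1 S r * grow L C0 q v) * (C * Real.pi) ^ 2 := by
    rw [hbd, Measure.volume_eq_prod, integral_const_mul,
      integral_prod_mul (fun y => C * (1 + y ^ 2)⁻¹) (fun y => C * (1 + y ^ 2)⁻¹),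
      integral_const_mul, integral_univ_inv_one_add_sq]
    ring
  have hlogN : Real.log N ≤ 1 * L := by
    rw [one_mul, hL]
    exact Real.log_le_log (by linarith) hNT
  have hlogN0 : 0 ≤ Real.log N := Real.log_nonneg hN
  have hw0 : 0 ≤ w1 S r := w1_nonneg S r
  have hpt : ∀ y : ℝ × ℝ, ‖K₁ a₁ y.1‖ * ‖K₂ a₂ y.2‖ *
      ∑ k ∈ Q, ‖cv P S (fun m => χ m * ey L s x v y m) r k‖ ^ 2 ≤ bd y := by
    intro y
    have h1 := hop L N kk (v + (y.1 - y.2) / L) hL1 hN hkk1 P (fun m => χ m * ey L s x v y m)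
      (fun m hm => ⟨(hP1 m hm).1, by
        rw [norm_mul, ey_norm L s x v y m (hP1 m hm).1, hs]
        refine mul_le_of_le_one_left ?_ (hχ1 m)
        unfold gc
        exact mul_nonneg (Real.rpow_nonneg (Nat.cast_nonneg m) _)
          (Finset.prod_nonneg fun p _ => norm_nonneg _)⟩) S hS r Q
    have h2 := growth C0 C0 C0 L 1 v y.1 y.2 q hC0 hL1 zero_le_one (by simp) (by simp)
    have hu0 : 0 ≤ min 1 |v + (y.1 - y.2) / L| := le_min zero_le_one (abs_nonneg _)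
    have h2' : Real.exp (C0 * Real.sqrt (Real.log N * min 1 |v + (y.1 - y.2) / L|)) ≤
        Real.exp (C0 * Real.sqrt (1 * L * min 1 |v + (y.1 - y.2) / L|)) :=
      Real.exp_le_exp.2 (mul_le_mul_of_nonneg_left (Real.sqrt_le_sqrt
        (mul_le_mul_of_nonneg_right hlogN hu0)) hC0.le)
    have hg0 : 0 ≤ grow L 0 q (v + (y.1 - y.2) / L) := by
      unfold grow
      have := abs_nonneg (v + (y.1 - y.2) / L)
      positivity
    have h3 : ∑ k ∈ Q, ‖cv P S (fun m => χ m * ey L s x v y m) r k‖ ^ 2 ≤ C0 * w1 S r *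
        (grow L C0 q v * (((1 + |y.1|) ^ q * Real.exp (C0 * Real.sqrt (min |y.1| L))) *
          ((1 + |y.2|) ^ q * Real.exp (C0 * Real.sqrt (min |y.2| L))))) := by
      refine h1.trans (le_trans ?_
        (mul_le_mul_of_nonneg_left h2 (mul_nonneg hC0.le hw0)))
      have h7 := mul_le_mul_of_nonneg_left h2' (mul_nonneg (mul_nonneg hC0.le hw0) hg0)
      calc _ = C0 * w1 S r * grow L 0 q (v + (y.1 - y.2) / L) *
            Real.exp (C0 * Real.sqrt (Real.log N * min 1 |v + (y.1 - y.2) / L|)) := by ring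
        _ ≤ _ := h7
        _ = _ := by ring
    have g1 := K_bound hC (K₁ a₁) y.1 (hV₁.bd a₁ c1 c2 y.1)
    have g2 := K_bound hC (K₂ a₂) y.2 (hV₂.bd a₂ c3 c4 y.2)
    have hgr : 0 ≤ grow L C0 q v := by
      unfold grow
      have := abs_nonneg v
      positivity
    have h4 := mul_le_mul_of_nonneg_left h3
      (show 0 ≤ ‖K₁ a₁ y.1‖ * ‖K₂ a₂ y.2‖ by positivity)
    refine h4.trans ?_
    have h5 : ‖K₁ a₁ y.1‖ * ‖K₂ a₂ y.2‖ * (C0 * w1 S r *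
        (grow L C0 q v * (((1 + |y.1|) ^ q * Real.exp (C0 * Real.sqrt (min |y.1| L))) *
          ((1 + |y.2|) ^ q * Real.exp (C0 * Real.sqrt (min |y.2| L)))))) =
        (C0 * w1 S r * grow L C0 q v) *
        ((‖K₁ a₁ y.1‖ * ((1 + |y.1|) ^ q * Real.exp (C0 * Real.sqrt (min |y.1| L)))) *
         (‖K₂ a₂ y.2‖ * ((1 + |y.2|) ^ q * Real.exp (C0 * Real.sqrt (min |y.2| L))))) := by ring
    rw [h5, hbd]
    refine mul_le_mul_of_nonneg_left ?_ (mul_nonneg (mul_nonneg hC0.le hw0) hgr)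
    exact mul_le_mul g1 g2 (by positivity) (by positivity)
  have hw := w1_leE hi₁ hi₂ hEc hEb P S Q cc r hcm bd hbi hpt
  rw [hbv] at hw
  have hgr : 0 ≤ grow L C0 q v := by
    unfold grow
    have := abs_nonneg v
    positivity
  have hmass : (∫ y, ‖K₁ a₁ y‖) * (∫ y, ‖K₂ a₂ y‖) ≤ (C * Real.pi) ^ 2 := by
    rw [sq]
    exact mul_le_mul hm₁ hm₂ (integral_nonneg fun _ => norm_nonneg _) (by positivity)
  have hw2 : w1 Q (cv P S cc r) ≤ (C * Real.pi) ^ 2 *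
      ((C0 * w1 S r * grow L C0 q v) * (C * Real.pi) ^ 2) := by
    refine hw.trans (mul_le_mul_of_nonneg_right hmass ?_)
    exact mul_nonneg (mul_nonneg (mul_nonneg hC0.le hw0) hgr) (by positivity)
  have h9 : Real.sqrt (2 * Real.pi) * H * w1 Q (cv P S cc r) ≤ Real.sqrt (2 * Real.pi) * H *
      ((C * Real.pi) ^ 2 * ((C0 * w1 S r * grow L C0 q v) * (C * Real.pi) ^ 2)) :=
    mul_le_mul_of_nonneg_left hw2 (by positivity)
  unfold mr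
  refine (mul_le_mul_of_nonneg_left h9 (by norm_num)).trans (le_of_eq ?_)
  ring

end Pool.Agent.N802.WD
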