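import Pool.Agent.N802.WD.Fin2
import Pool.Agent.N802.WD.Cut2
import Pool.Agent.N802.WD.Ker2
import Pool.Agent.N802.WD.Msd2
import Pool.Agent.N802.WD.Boot2
import Pool.Agent.N802.WD.Right2
import Pool.Agent.N802.WD.Asm2b
import Pool.Agent.N802.WD.Wdz2
import Pool.Agent.N802.WD.InstX
import Pool.Agent.N802.WD.InstZ

/-! # The density theorem with long weights, for zeta and for `L(s, χ)` -/

open Complex Filter Topology Set MeasureTheory
open scoped BigOperators ComplexConjugate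

namespace Pool.Agent.N802.WD

open H370 hiding pt
open TC Pool.Agent.N802.U Pool.Agent.N802
open Pool.Agent.N802.X (cd)

/-- short weights from long weights -/
theorem wd_of_wd2 {F : ℂ → ℂ} (h : S_wd2 F) : S_wd F := by
  obtain ⟨c, C, T0, hc, hC, hT0, H⟩ := h (1 / 4) (by norm_num) le_rfl
  refine ⟨c, C, 1 / 8, T0, hc, hC, by norm_num, hT0, fun T hT S hS r τ H' hH U1 U2 x A h1 h2 h3 =>
    ?_⟩
  have hT1 : 1 ≤ T := by linarith
  have hT00 : 0 < T := by linarith
  refine H T hT (T ^ (1 / 8 : ℝ)) H' (Real.one_le_rpow hT1 (by norm_num)) ?_ ?_ S hS r τ U1 U2 x A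
    h1 h2 h3
  · calc T ^ (1 / 8 : ℝ) ≤ T ^ (1 : ℝ) := Real.rpow_le_rpow_of_exponent_le hT1 (by norm_num)
      _ = T := Real.rpow_one T
  · refine le_trans (le_of_eq ?_) hH
    rw [← Real.rpow_add hT00]
    norm_num

/-- the decay to the right -/
theorem rt2 : S_rt2 := right2 (boot2 cut2 (msd2 op) ker2)

/-- **the density theorem with long weights** -/
theorem wd2_tw {χ : ℕ → ℂ} {F : ℂ → ℂ} {A : ℝ} (h : TwF χ F A) (hF : GoodL F) : S_wd2 F :=
  asm2b rt2 jen χ F A h hF

theorem wd2_zeta : S_wd2 riemannZeta := by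
  obtain ⟨A, hA⟩ := tw_zeta
  exact wd2_tw hA H370.good_zeta

theorem wdz2_zeta : S_wdz2 riemannZeta := wdz2 H370.good_zeta wd2_zeta

theorem wd2_chi {q : ℕ} [NeZero q] (χ : DirichletCharacter ℂ q) (hχ : χ.IsPrimitive) :
    S_wd2 (DirichletCharacter.LFunction χ) := by
  rcases Nat.lt_or_ge 1 q with hq | hq
  · obtain ⟨A, hA⟩ := tw_chi hq hχ
    exact wd2_tw hA (H370.good_dirichlet χ hχ)
  · obtain rfl : q = 1 := le_antisymm hq (Nat.pos_of_ne_zero (NeZero.ne q))
    rw [show DirichletCharacter.LFunction χ = riemannZeta from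
      DirichletCharacter.LFunction_modOne_eq]
    exact wd2_zeta

theorem wdz2_chi {q : ℕ} [NeZero q] (χ : DirichletCharacter ℂ q) (hχ : χ.IsPrimitive) :
    S_wdz2 (DirichletCharacter.LFunction χ) := wdz2 (H370.good_dirichlet χ hχ) (wd2_chi χ hχ)

/-- simple zeros on the critical line -/
theorem simple_chi {q : ℕ} [NeZero q] (χ : DirichletCharacter ℂ q) (hχ : χ.IsPrimitive) :
    S_directD (DirichletCharacter.LFunction χ) 0.6725 (cs (DirichletCharacter.LFunction χ)) :=
  simple_of (H370.good_dirichlet χ hχ) (wd_of_wd2 (wd2_chi χ hχ))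

/-- distinct zeros -/
theorem distinct_chi {q : ℕ} [NeZero q] (χ : DirichletCharacter ℂ q) (hχ : χ.IsPrimitive) :
    S_directD (DirichletCharacter.LFunction χ) 0.83625 cd :=
  distinct_of (H370.good_dirichlet χ hχ) (wd_of_wd2 (wd2_chi χ hχ))

end Pool.Agent.N802.WD
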