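import Pool.Agent.N935.WD.JenE
import Pool.Agent.N802.WD.Stm4

/-!
# The number of zeros of a block: conclusion
-/

set_option linter.unusedSectionVars false

namespace Pool.Agent.N802.WD.J3

open MeasureTheory Set Filter Topology Complex Metric
open Pool.Agent.R399.TW (pt pt_re pt_im pt_cont)
open Pool.Agent.N935.WD

variable {c₁ C₁ L : ℝ} {f : ℂ → ℂ} {a b x M : ℝ} {w : ℝ → ℝ}

/-- Jensen's inequality at one centre -/
lemma hone (h : Hyp c₁ C₁ L f a b x M w) {B : ℝ} (hB : 1 ≤ B) {r d e : ℝ} (hr0 : 0 < r)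
    (hd1 : -(1 / (4 * L)) ≤ d) (hd2 : d ≤ r / 2)
    (hgeo : ∀ P : ℝ, 1 ≤ P → (4 * (P * r) - e) ^ 2 + (1 / L) ^ 2 ≤
      (4 * (P * r) - d) ^ 2 * (1 - 2 * (P⁻¹ / B)))
    {t : ℝ} (ht : 50 ≤ t + x) (Z : Finset ℂ) (m : ℂ → ℕ)
    (hZ : ∀ s ∈ Z, (1 / 2 + e ≤ s.re ∧ s.re ≤ 1 / 2 + 2 * r) ∧ |s.im - (t + x)| ≤ 1 / L)
    (hm : ∀ s ∈ Z, m s ≤ analyticOrderNatAt (fun z => 1 + f z) s) {P : ℝ} (hP : 1 ≤ P)
    (hP5 : 4 * (P * r) ≤ 5) (hH : Hf f (pt (1 / 2 + 4 * (P * r)) (t + x)) ≤ 1 / 2) {p q : ℝ}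
    (hpq : ∀ y : ℝ, 0 ≤ y → y ^ 2 ≤ p + q * y ^ 2 ∨ 2 * y ≤ p + q * y ^ 2) :
    ∑ s ∈ Z, (m s : ℝ) ≤ B * P * (p +
      q * Real.circleAverage (Hf f) (pt (1 / 2 + 4 * (P * r)) (t + x)) (4 * (P * r) - d) +
      2 * Hf f (pt (1 / 2 + 4 * (P * r)) (t + x))) := by
  have hL : 0 < L := by linarith [h.L0]
  have hB0 : 0 < B := by linarith
  have hL2 : 1 / (4 * L) ≤ 1 := by
    rw [div_le_one (by positivity)]
    linarith [h.L0]
  have hP0 : 0 < P := by linarith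
  have hPr : r ≤ P * r := by nlinarith
  obtain ⟨c, hc⟩ : ∃ c : ℂ, c = pt (1 / 2 + 4 * (P * r)) (t + x) := ⟨_, rfl⟩
  obtain ⟨R, hR⟩ : ∃ R : ℝ, R = 4 * (P * r) - d := ⟨_, rfl⟩
  have hcre : c.re = 1 / 2 + 4 * (P * r) := by rw [hc, pt_re]
  have hcim : c.im = t + x := by rw [hc, pt_im]
  have hR0 : 0 < R := by rw [hR]; linarith
  have hR6 : R ≤ 6 := by rw [hR]; linarith
  rw [← hc] at hH ⊢
  rw [← hR]
  have hball : ∀ z ∈ closedBall c R, 2 ≤ z.im := by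
    intro z hz
    rw [mem_closedBall, dist_eq_norm] at hz
    have h1 := (Complex.abs_im_le_norm (z - c)).trans hz
    rw [Complex.sub_im, hcim, abs_le] at h1
    linarith [h1.1]
  have hopen : IsOpen {z : ℂ | 1 < z.im} := isOpen_lt continuous_const Complex.continuous_im
  have hdiff : DifferentiableOn ℂ f {z : ℂ | 1 < z.im} := fun z hz =>
    (h.df z hz).differentiableWithinAt
  have hf : AnalyticOnNhd ℂ f (closedBall c R) := fun z hz =>
    hdiff.analyticOnNhd hopen z (by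
      have := hball z hz
      show 1 < z.im
      linarith)
  have hcc : 2 ≤ c.im := by rw [hcim]; linarith
  have hfc : ‖f c‖ ^ 2 ≤ 1 / 2 := by rw [← Hf_eq f hcc]; exact hH
  have hκ : (0 : ℝ) ≤ P⁻¹ / B := by positivity
  have hw : ∀ z ∈ Z, ‖c - z‖ ≤ R ∧ (c ≠ z → P⁻¹ / B ≤ Real.log (R * ‖c - z‖⁻¹)) := by
    intro z hz
    obtain ⟨⟨h1, h2⟩, h3⟩ := hZ z hz
    refine wt (D := 4 * (P * r) - e) (h := 1 / L) hR0 ?_ ?_ ?_ hκ ?_
    · rw [hcre]; linarith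
    · rw [hcre]; linarith
    · rw [hcim]; exact h3
    · rw [hR]; exact hgeo P hP
  have key := jensen_pt hR0 hf hfc (fun z hz => (hw z hz).1) hκ (fun z hz => (hw z hz).2) m hm hpq
  have hav : Real.circleAverage (fun z => ‖f z‖ ^ 2) c R = Real.circleAverage (Hf f) c R := by
    refine Real.circleAverage_congr_sphere fun z hz => ?_
    rw [abs_of_pos hR0] at hz
    exact (Hf_eq f (hball z (sphere_subset_closedBall hz))).symm
  rw [hav, ← Hf_eq f hcc] at key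
  have h5 : ∑ s ∈ Z, (m s : ℝ) = B * P * ((∑ s ∈ Z, (m s : ℝ)) * (P⁻¹ / B)) := by
    field_simp
  rw [h5]
  exact mul_le_mul_of_nonneg_left key (by positivity)

/-- the count at a fixed height -/
lemma hpoint (h : Hyp c₁ C₁ L f a b x M w) {B : ℝ} (hB : 1 ≤ B) {r d e : ℝ} (hr0 : 0 < r)
    (hd1 : -(1 / (4 * L)) ≤ d) (hd2 : d ≤ r / 2)
    (hgeo : ∀ P : ℝ, 1 ≤ P → (4 * (P * r) - e) ^ 2 + (1 / L) ^ 2 ≤
      (4 * (P * r) - d) ^ 2 * (1 - 2 * (P⁻¹ / B)))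
    {K : ℕ} (hK1 : 5 / 2 ≤ 4 * (2 ^ K * r)) (hK2 : 4 * (2 ^ K * r) ≤ 5)
    {t : ℝ} (ht : 50 ≤ t + x) (Z : Finset ℂ) (m : ℂ → ℕ)
    (hZ : ∀ s ∈ Z, (1 / 2 + e ≤ s.re ∧ s.re ≤ 1 / 2 + 2 * r) ∧ |s.im - (t + x)| ≤ 1 / L)
    (hm : ∀ s ∈ Z, m s ≤ analyticOrderNatAt (fun z => 1 + f z) s) :
    ∑ s ∈ Z, (m s : ℝ) ≤
      ∑ k ∈ Finset.range (K + 1), B * 2 ^ k * Tt c₁ L r d f x k t := by
  classical
  have hPK : Hf f (pt (1 / 2 + 4 * (2 ^ K * r)) (t + x)) ≤ 1 / 2 := by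
    rw [Hf_eq f (by rw [pt_im]; linarith)]
    have h1 := h.bd (pt (1 / 2 + 4 * (2 ^ K * r)) (t + x)) (by rw [pt_im]; linarith)
      (by rw [pt_re]; linarith)
    nlinarith [norm_nonneg (f (pt (1 / 2 + 4 * (2 ^ K * r)) (t + x)))]
  have hex : ∃ k : ℕ, Hf f (pt (1 / 2 + 4 * (2 ^ k * r)) (t + x)) ≤ 1 / 2 := ⟨K, hPK⟩
  obtain ⟨k, hk⟩ : ∃ k : ℕ, k = Nat.find hex := ⟨_, rfl⟩
  have hk1 : Hf f (pt (1 / 2 + 4 * (2 ^ k * r)) (t + x)) ≤ 1 / 2 := by
    rw [hk]; exact Nat.find_spec hex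
  have hkK : k ≤ K := by rw [hk]; exact Nat.find_min' hex hPK
  have hmin : ∀ j < k, ¬ Hf f (pt (1 / 2 + 4 * (2 ^ j * r)) (t + x)) ≤ 1 / 2 := by
    intro j hj
    rw [hk] at hj
    exact Nat.find_min hex hj
  have hP : (1 : ℝ) ≤ 2 ^ k := one_le_pow₀ (by norm_num)
  have hP5 : 4 * ((2 : ℝ) ^ k * r) ≤ 5 := by
    have : (2 : ℝ) ^ k ≤ 2 ^ K := pow_le_pow_right₀ (by norm_num) hkK
    nlinarith
  have key : ∑ s ∈ Z, (m s : ℝ) ≤ B * 2 ^ k * Tt c₁ L r d f x k t := by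
    rcases k with _ | k
    · have h1 := hone h hB hr0 hd1 hd2 hgeo ht Z m hZ hm hP hP5 hk1 (p := 0) (q := 1)
        (fun y _ => Or.inl (by linarith))
      refine h1.trans (le_of_eq ?_)
      simp only [Tt, pow_zero, one_mul]
      ring
    · have h2 := hmin k (Nat.lt_succ_self k)
      rw [not_le] at h2
      obtain ⟨u, hu⟩ : ∃ u : ℝ, u = Hf f (pt (1 / 2 + 4 * (2 ^ k * r)) (t + x)) := ⟨_, rfl⟩
      obtain ⟨lam, hlam⟩ : ∃ l : ℝ, l = Real.exp (c₁ * L * (2 ^ (k + 1) * r)) := ⟨_, rfl⟩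
      have hlam0 : 0 < lam := by rw [hlam]; exact Real.exp_pos _
      have hlam' : Real.exp (-(c₁ * L * (2 ^ (k + 1) * r))) = lam⁻¹ := by
        rw [hlam, Real.exp_neg]
      have h1 := hone h hB hr0 hd1 hd2 hgeo ht Z m hZ hm hP hP5 hk1 (p := 2 * lam * u)
        (q := 2 * lam⁻¹) (fun y hy => Or.inr (by
          rw [← hu] at h2
          -- `2 y ≤ 2 lam u + 2 y² / lam`
          have h3 : 0 ≤ lam⁻¹ * (y - lam / 2) ^ 2 := by positivity
          have h4 : lam⁻¹ * (y - lam / 2) ^ 2 = lam⁻¹ * y ^ 2 - y + lam / 4 := by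
            field_simp
            ring
          nlinarith))
      refine h1.trans (le_of_eq ?_)
      simp only [Tt]
      rw [hlam', ← hlam, ← hu]
  refine key.trans ?_
  exact Finset.single_le_sum (f := fun k => B * 2 ^ k * Tt c₁ L r d f x k t)
    (fun j _ => mul_nonneg (by positivity) (Tt_nonneg _ _ _ _ _ _ _ _))
    (Finset.mem_range.mpr (Nat.lt_succ_of_le hkK))

/-- the mean value of the first term -/
lemma hT0 (h : Hyp c₁ C₁ L f a b x M w) {r d : ℝ} (hr0 : 0 < r) (hr : r ≤ 1)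
    (hd1 : -(1 / (4 * L)) ≤ d) (hd2 : d ≤ r / 2) :
    ∫ t in a..b, w t * Tt c₁ L r d f x 0 t ≤ 3 * (C₁ * M * Real.exp (-(c₁ * L * d))) := by
  have hL : 0 < L := by linarith [h.L0]
  have hL1 : 1 / (4 * L) ≤ 1 / (2 * L) := by
    apply one_div_le_one_div_of_le (by positivity)
    linarith
  have hL2 : 1 / (4 * L) ≤ 1 := by
    rw [div_le_one (by positivity)]
    linarith [h.L0]
  have hL3 : 0 < 1 / (2 * L) := by positivity
  have h1 := h.circ (σ := 4 * r) (R := 4 * r - d) (by linarith) (by linarith) (by linarith)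
    (by linarith)
  have h2 := h.line (ρ := 4 * r) (y := 0) (by linarith) (by linarith) (by norm_num)
  have hcH : Continuous fun t : ℝ => Hf f (pt (1 / 2 + 4 * r) (t + x)) :=
    (Hf_cont h.df).comp ((pt_cont _).comp (continuous_id.add continuous_const))
  have e : ∫ t in a..b, w t * Tt c₁ L r d f x 0 t =
      (∫ t in a..b, w t * Real.circleAverage (Hf f) (pt (1 / 2 + 4 * r) (t + x)) (4 * r - d)) +
      2 * ∫ t in a..b, w t * Hf f (pt (1 / 2 + 4 * r) (t + x + 0)) := by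
    rw [← intervalIntegral.integral_const_mul, ← intervalIntegral.integral_add]
    · refine intervalIntegral.integral_congr fun t _ => ?_
      simp only [Tt, add_zero]
      ring
    · exact (h.wc.mul (circ_cont h.df _ _ _)).intervalIntegrable _ _
    · simp only [add_zero]
      exact (continuous_const.mul (h.wc.mul hcH)).intervalIntegrable _ _
  rw [e]
  have e2 : 4 * r - (4 * r - d) = d := by ring
  rw [e2] at h1
  have h3 : Real.exp (-(c₁ * L * (4 * r))) ≤ Real.exp (-(c₁ * L * d)) := by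
    apply Real.exp_le_exp.mpr
    have : c₁ * L * d ≤ c₁ * L * (4 * r) :=
      mul_le_mul_of_nonneg_left (by linarith) (mul_pos h.c0 hL).le
    linarith
  have h4 : C₁ * Real.exp (-(c₁ * L * (4 * r))) * M ≤ C₁ * Real.exp (-(c₁ * L * d)) * M :=
    mul_le_mul_of_nonneg_right (mul_le_mul_of_nonneg_left h3 h.C0.le) h.M0
  linarith

open Classical in
/-- **the block lemma** -/
lemma hblock (h : Hyp c₁ C₁ L f a b x M w) {B : ℝ} (hB : 1 ≤ B) {r d e : ℝ} (hr0 : 0 < r)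
    (hr : r ≤ 1)
    (hLr : 8 ≤ L * r) (hd1 : -(1 / (4 * L)) ≤ d) (hd2 : d ≤ r / 2)
    (hgeo : ∀ P : ℝ, 1 ≤ P → (4 * (P * r) - e) ^ 2 + (1 / L) ^ 2 ≤
      (4 * (P * r) - d) ^ 2 * (1 - 2 * (P⁻¹ / B))) (Z : Finset ℂ) (m : ℂ → ℕ)
    (hm : ∀ s ∈ Z, m s ≤ analyticOrderNatAt (fun z => 1 + f z) s) :
    ∫ t in a..b, w t * ∑ s ∈ Z.filter (fun s => (1 / 2 + e ≤ s.re ∧ s.re ≤ 1 / 2 + 2 * r) ∧
      |s.im - (t + x)| ≤ 1 / L), (m s : ℝ) ≤
      B * C₁ * (3 + Real.exp c₁ / c₁ ^ 2) * M * Real.exp (-(c₁ * L * d)) := by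
  have hL : 0 < L := by linarith [h.L0]
  have hB0 : 0 < B := by linarith
  have hcL : 0 < c₁ * L := mul_pos h.c0 hL
  have hc0 := h.c0
  -- the last scale
  obtain ⟨K, hK1, hK2⟩ : ∃ K : ℕ, 5 / 2 ≤ 4 * ((2 : ℝ) ^ K * r) ∧ 4 * ((2 : ℝ) ^ K * r) ≤ 5 := by
    obtain ⟨n, hn1, hn2⟩ := exists_nat_pow_near (x := (5 / 4) / r) (y := (2 : ℝ))
      (by rw [le_div_iff₀ hr0]; linarith) (by norm_num)
    refine ⟨n, ?_, ?_⟩
    · rw [div_lt_iff₀ hr0, pow_succ] at hn2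
      linarith
    · rw [le_div_iff₀ hr0] at hn1
      linarith
  have hTi : ∀ k : ℕ, Continuous (fun t => w t * (B * 2 ^ k * Tt c₁ L r d f x k t)) := fun k =>
    h.wc.mul (continuous_const.mul (Tt_cont h.df _ _ _ _ _ k))
  have h1 : ∫ t in a..b, w t * ∑ s ∈ Z.filter (fun s => (1 / 2 + e ≤ s.re ∧
      s.re ≤ 1 / 2 + 2 * r) ∧ |s.im - (t + x)| ≤ 1 / L), (m s : ℝ) ≤
      ∫ t in a..b, ∑ k ∈ Finset.range (K + 1), w t * (B * 2 ^ k * Tt c₁ L r d f x k t) := by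
    refine intervalIntegral.integral_mono_on h.ab
      (cnt_int h.wc Z m (fun s => 1 / 2 + e ≤ s.re ∧ s.re ≤ 1 / 2 + 2 * r) (1 / L) x a b _
        (fun t s => Finset.mem_filter))
      ((continuous_finsetSum _ fun k _ => hTi k).intervalIntegrable _ _) ?_
    intro t ht
    rw [← Finset.mul_sum]
    refine mul_le_mul_of_nonneg_left ?_ (h.w0 t)
    exact hpoint h hB hr0 hd1 hd2 hgeo hK1 hK2 (by linarith [ht.1, h.ax]) _ m
      (fun s hs => (Finset.mem_filter.mp hs).2)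
      (fun s hs => hm s (Finset.mem_filter.mp hs).1)
  refine h1.trans ?_
  rw [intervalIntegral.integral_finsetSum (fun k _ => (hTi k).intervalIntegrable _ _)]
  have h2 : ∀ k : ℕ, ∫ t in a..b, w t * (B * 2 ^ k * Tt c₁ L r d f x k t) =
      B * 2 ^ k * ∫ t in a..b, w t * Tt c₁ L r d f x k t := by
    intro k
    rw [← intervalIntegral.integral_const_mul]
    refine intervalIntegral.integral_congr fun t _ => ?_
    ring
  simp_rw [h2]
  rw [Finset.sum_range_succ']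
  obtain ⟨E, hE⟩ : ∃ E : ℝ, E = Real.exp (-(c₁ * L * d)) := ⟨_, rfl⟩
  have hE0 : 0 < E := by rw [hE]; exact Real.exp_pos _
  have hCM : 0 ≤ C₁ * M := mul_nonneg h.C0.le h.M0
  have h3 : ∀ k ∈ Finset.range K, B * 2 ^ (k + 1) *
      ∫ t in a..b, w t * Tt c₁ L r d f x (k + 1) t ≤
      B * (Real.exp c₁ / c₁ ^ 2) * (C₁ * M) * E * ((2 : ℝ) ^ (k + 1))⁻¹ := by
    intro k hk
    rw [Finset.mem_range] at hk
    obtain ⟨P, hP⟩ : ∃ P : ℝ, P = 2 ^ (k + 1) := ⟨_, rfl⟩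
    have hP1 : 1 ≤ P := by rw [hP]; exact one_le_pow₀ (by norm_num)
    have hP0 : 0 < P := by linarith
    have hPK : P ≤ 2 ^ K := by
      rw [hP]; exact pow_le_pow_right₀ (by norm_num) (by omega)
    have h4 := h.T1 hr0 hd1 hd2 k (by rw [← hP]; nlinarith)
    rw [← hP] at h4 ⊢
    have h5 : P * Real.exp (-(c₁ * L * (P * r))) ≤ E * (P⁻¹ / (8 * c₁ ^ 2)) := by
      have h6 : Real.exp (-(c₁ * L * (P * r))) ≤ E * Real.exp (-(4 * c₁ * P)) := by
        rw [hE, ← Real.exp_add]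
        apply Real.exp_le_exp.mpr
        have h7 : c₁ * L * d ≤ c₁ * L * (P * r / 2) :=
          mul_le_mul_of_nonneg_left (by nlinarith) hcL.le
        have h8 : c₁ * (4 * P) ≤ c₁ * (L * (P * r / 2)) :=
          mul_le_mul_of_nonneg_left (by nlinarith) hc0.le
        linarith
      have h9 := exp_bd (u := 4 * c₁ * P) (by positivity)
      calc P * Real.exp (-(c₁ * L * (P * r))) ≤ P * (E * (2 / (4 * c₁ * P) ^ 2)) :=
            mul_le_mul_of_nonneg_left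
              (h6.trans (mul_le_mul_of_nonneg_left h9 hE0.le)) hP0.le
        _ = E * (P⁻¹ / (8 * c₁ ^ 2)) := by
            field_simp
            ring
    calc B * P * ∫ t in a..b, w t * Tt c₁ L r d f x (k + 1) t ≤
        B * P * (6 * Real.exp c₁ * (C₁ * M * Real.exp (-(c₁ * L * (P * r))))) :=
          mul_le_mul_of_nonneg_left h4 (by positivity)
      _ = 6 * B * Real.exp c₁ * (C₁ * M) * (P * Real.exp (-(c₁ * L * (P * r)))) := by ring
      _ ≤ 6 * B * Real.exp c₁ * (C₁ * M) * (E * (P⁻¹ / (8 * c₁ ^ 2))) :=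
          mul_le_mul_of_nonneg_left h5
            (mul_nonneg (mul_nonneg (by positivity) (Real.exp_pos _).le) hCM)
      _ = 6 * B / 8 * (Real.exp c₁ / c₁ ^ 2) * (C₁ * M) * E * P⁻¹ := by
          field_simp
      _ ≤ B * (Real.exp c₁ / c₁ ^ 2) * (C₁ * M) * E * P⁻¹ := by
          have : 0 ≤ (Real.exp c₁ / c₁ ^ 2) * (C₁ * M) * E * P⁻¹ := by
            have := Real.exp_pos c₁
            positivity
          have h10 := mul_nonneg hB0.le this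
          linarith
  have h4 := Finset.sum_le_sum h3
  rw [← Finset.mul_sum] at h4
  have h5 : B * (Real.exp c₁ / c₁ ^ 2) * (C₁ * M) * E *
      ∑ k ∈ Finset.range K, ((2 : ℝ) ^ (k + 1))⁻¹ ≤
      B * (Real.exp c₁ / c₁ ^ 2) * (C₁ * M) * E * 1 := by
    refine mul_le_mul_of_nonneg_left (geom_le K) ?_
    have := Real.exp_pos c₁
    positivity
  have h6 := hT0 h hr0 hr hd1 hd2
  rw [← hE] at h6 ⊢
  have h7 : B * 2 ^ 0 * ∫ t in a..b, w t * Tt c₁ L r d f x 0 t ≤ B * (3 * (C₁ * M * E)) := by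
    rw [pow_zero, mul_one]
    exact mul_le_mul_of_nonneg_left h6 hB0.le
  calc _ ≤ B * (Real.exp c₁ / c₁ ^ 2) * (C₁ * M) * E * 1 + B * (3 * (C₁ * M * E)) :=
        add_le_add (h4.trans h5) h7
    _ = _ := by ring

end Pool.Agent.N802.WD.J3
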