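import Pool.Agent.N802.WD.Jen3

/-!
# Stretched exponential moments of the number of zeros in a window
-/

set_option linter.unusedSectionVars false

namespace Pool.Agent.N802.WD.JX

open MeasureTheory Set Filter Topology Complex Metric
open Pool.Agent.R399.TW (pt pt_re pt_im pt_cont)
open Pool.Agent.N935.WD

/-- Jensen's inequality for `1 - f ^ 2`, logarithmic -/
lemma jlog {f : ℂ → ℂ} {c : ℂ} {ρ ω : ℝ} (hρ : 0 < ρ)
    (hf : AnalyticOnNhd ℂ f (closedBall c ρ)) (hc : ‖f c‖ ^ 2 ≤ 1 / 2) {Z : Finset ℂ}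
    (hZ : ∀ z ∈ Z, ‖c - z‖ ≤ ρ) (hω0 : 0 ≤ ω)
    (hω : ∀ z ∈ Z, c ≠ z → ω ≤ Real.log (ρ * ‖c - z‖⁻¹)) (m : ℂ → ℕ)
    (hm : ∀ z ∈ Z, m z ≤ analyticOrderNatAt (fun s => 1 + f s) z) :
    (∑ z ∈ Z, (m z : ℝ)) * ω ≤
      Real.log (1 + Real.circleAverage (fun z => ‖f z‖ ^ 2) c ρ) + 1 := by
  set h : ℂ → ℂ := fun s => 1 - f s ^ 2 with hh
  have hhd : AnalyticOnNhd ℂ h (closedBall c ρ) := fun s hs =>
    analyticAt_const.sub ((hf s hs).pow 2)
  have hlow : 1 - ‖f c‖ ^ 2 ≤ ‖h c‖ := by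
    have h1 := norm_sub_norm_le (1 : ℂ) (f c ^ 2)
    rw [norm_one, norm_pow] at h1
    exact h1
  have hc0 : h c ≠ 0 := by
    intro h0
    rw [h0, norm_zero] at hlow
    linarith
  have h1 := jensen_fin hρ hhd hc0 hZ
  have h2 : (∑ z ∈ Z, (m z : ℝ)) * ω ≤
      ∑ z ∈ Z, (analyticOrderNatAt h z : ℝ) * Real.log (ρ * ‖c - z‖⁻¹) := by
    rw [Finset.sum_mul]
    refine Finset.sum_le_sum fun z hz => ?_
    have hzb : z ∈ closedBall c ρ := by
      rw [mem_closedBall, dist_comm, dist_eq_norm]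
      exact hZ z hz
    have hmz : (m z : ℝ) ≤ analyticOrderNatAt h z :=
      Nat.cast_le.mpr ((hm z hz).trans (order_le hρ hf hc0 hzb))
    by_cases hcz : c = z
    · have h3 : analyticOrderNatAt h z = 0 := by
        rw [← hcz]
        unfold analyticOrderNatAt
        rw [(hhd c (mem_closedBall_self hρ.le)).analyticOrderAt_eq_zero.mpr hc0]
        rfl
      rw [h3] at hmz ⊢
      have h4 : (m z : ℝ) = 0 := le_antisymm (by simpa using hmz) (Nat.cast_nonneg _)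
      rw [h4]
      simp
    · exact mul_le_mul hmz (hω z hz hcz) hω0 (Nat.cast_nonneg _)
  have hfc : ContinuousOn (fun z => ‖f z‖ ^ 2) (closedBall c ρ) := (hf.continuousOn.norm).pow 2
  have hci : CircleIntegrable (fun z => ‖f z‖ ^ 2) c ρ :=
    (hfc.mono sphere_subset_closedBall).circleIntegrable hρ.le
  obtain ⟨V, hV⟩ : ∃ V : ℝ, V = Real.circleAverage (fun z => ‖f z‖ ^ 2) c ρ := ⟨_, rfl⟩
  have hV0 : 0 ≤ V := by
    rw [hV]
    exact Real.circleAverage_nonneg_of_nonneg fun z _ => by positivity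
  obtain ⟨p, hp⟩ : ∃ p : ℝ, p = Real.log (1 + V) + 1 / (1 + V) - 1 := ⟨_, rfl⟩
  have hpq : ∀ y : ℝ, 0 ≤ y → Real.log (1 + y ^ 2) ≤ p + (1 / (1 + V)) * y ^ 2 := by
    intro y hy
    have h5 := Real.log_le_sub_one_of_pos (x := (1 + y ^ 2) / (1 + V)) (by positivity)
    rw [Real.log_div (by positivity) (by positivity)] at h5
    rw [hp]
    have h6 : (1 + y ^ 2) / (1 + V) = 1 / (1 + V) + (1 / (1 + V)) * y ^ 2 := by ring
    linarith
  have h4 : Real.circleAverage (fun z => Real.log ‖h z‖) c ρ ≤ Real.log (1 + V) := by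
    have e : p + (1 / (1 + V)) * V = Real.log (1 + V) := by
      rw [hp]
      field_simp
      ring
    rw [← e]
    have e2 : p + (1 / (1 + V)) * V =
        Real.circleAverage (fun z => p + (1 / (1 + V)) * ‖f z‖ ^ 2) c ρ := by
      have e1 : Real.circleAverage (fun z => p + (1 / (1 + V)) * ‖f z‖ ^ 2) c ρ =
          Real.circleAverage (fun _ => p) c ρ +
            Real.circleAverage (fun z => (1 / (1 + V)) * ‖f z‖ ^ 2) c ρ :=
        Real.circleAverage_fun_add (circleIntegrable_const p c ρ)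
          (hci.const_fun_smul (a := (1 / (1 + V))))
      rw [e1, Real.circleAverage_const]
      congr 1
      have e3 : (1 / (1 + V)) • Real.circleAverage (fun z => ‖f z‖ ^ 2) c ρ =
          Real.circleAverage (fun z => (1 / (1 + V)) • ‖f z‖ ^ 2) c ρ :=
        (Real.circleAverage_fun_smul (a := (1 / (1 + V) : ℝ)) (f := fun z => ‖f z‖ ^ 2)).symm
      rw [← hV] at e3
      exact e3
    rw [e2]
    refine Real.circleAverage_mono ?_ ?_ ?_
    · have hm : MeromorphicOn h (sphere c |ρ|) := fun z hz =>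
        (hhd z (sphere_subset_closedBall (by rwa [abs_of_pos hρ] at hz))).meromorphicAt
      exact hm.circleIntegrable_log_norm
    · exact (circleIntegrable_const p c ρ).add (hci.const_fun_smul (a := (1 / (1 + V))))
    · intro z _
      have h6 : ‖h z‖ ≤ 1 + ‖f z‖ ^ 2 := by
        have := norm_sub_le (1 : ℂ) (f z ^ 2)
        rw [norm_one, norm_pow] at this
        exact this
      have h7 := hpq ‖f z‖ (norm_nonneg _)
      rcases eq_or_ne (h z) 0 with h0 | h0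
      · rw [h0, norm_zero, Real.log_zero]
        refine le_trans ?_ h7
        exact Real.log_nonneg (by nlinarith [sq_nonneg ‖f z‖])
      · exact (Real.log_le_log (norm_pos_iff.mpr h0) h6).trans h7
  have h7 : -Real.log ‖h c‖ ≤ 1 := by
    have hpos : 0 < ‖h c‖ := norm_pos_iff.mpr hc0
    have h8 := Real.one_sub_inv_le_log_of_pos hpos
    have h9 : ‖h c‖⁻¹ ≤ 2 := by
      rw [inv_le_comm₀ hpos (by positivity)]
      refine le_trans ?_ hlow
      norm_num
      linarith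
    linarith
  rw [← hV]
  linarith

variable {c₁ C₁ L : ℝ} {f : ℂ → ℂ} {a b x M : ℝ} {w : ℝ → ℝ}

/-- the circle average at the scale `P` -/
noncomputable def VV (L x : ℝ) (f : ℂ → ℂ) (P t : ℝ) : ℝ :=
  Real.circleAverage (Hf f) (pt (1 / 2 + 4 * (P * (8 / L))) (t + x)) (4 * (P * (8 / L)) + 1 / (4 * L))

/-- the value at the centre of the scale `P` -/
noncomputable def HH (L x : ℝ) (f : ℂ → ℂ) (P t : ℝ) : ℝ :=
  Hf f (pt (1 / 2 + 4 * (P * (8 / L))) (t + x))

lemma VV_nonneg (P t : ℝ) : 0 ≤ VV L x f P t :=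
  Real.circleAverage_nonneg_of_nonneg fun z _ => Hf_nonneg f z

lemma HH_nonneg (P t : ℝ) : 0 ≤ HH L x f P t := Hf_nonneg f _

/-- the count at one centre -/
lemma oneX (h : Hyp c₁ C₁ L f a b x M w) {t : ℝ} (ht : 50 ≤ t + x) (Z : Finset ℂ) (m : ℂ → ℕ)
    {P : ℝ} (hP : 1 ≤ P) (hP5 : 4 * (P * (8 / L)) ≤ 5)
    (hZ : ∀ s ∈ Z, (1 / 2 ≤ s.re ∧ s.re ≤ 1 / 2 + 4 * (P * (8 / L))) ∧ |s.im - (t + x)| ≤ 1 / L)
    (hm : ∀ s ∈ Z, m s ≤ analyticOrderNatAt (fun z => 1 + f z) s) (hH : HH L x f P t ≤ 1 / 2) :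
    ∑ s ∈ Z, (m s : ℝ) ≤ 200 * P * (Real.log (1 + VV L x f P t) + 1) := by
  have hL : 0 < L := by linarith [h.L0]
  have hL2 : 1 / (4 * L) ≤ 1 := by
    rw [div_le_one (by positivity)]
    linarith [h.L0]
  have hL3 : 0 < 1 / (4 * L) := by positivity
  have hP0 : 0 < P := by linarith
  have hr0 : 0 < P * (8 / L) := by positivity
  obtain ⟨c, hc⟩ : ∃ c : ℂ, c = pt (1 / 2 + 4 * (P * (8 / L))) (t + x) := ⟨_, rfl⟩
  obtain ⟨R, hR⟩ : ∃ R : ℝ, R = 4 * (P * (8 / L)) + 1 / (4 * L) := ⟨_, rfl⟩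
  have hcre : c.re = 1 / 2 + 4 * (P * (8 / L)) := by rw [hc, pt_re]
  have hcim : c.im = t + x := by rw [hc, pt_im]
  have hR0 : 0 < R := by rw [hR]; linarith
  have hR6 : R ≤ 6 := by rw [hR]; linarith
  unfold HH at hH
  unfold VV
  rw [← hc] at hH ⊢
  rw [← hR]
  have hball : ∀ z ∈ closedBall c R, 2 ≤ z.im := by
    intro z hz
    rw [mem_closedBall, dist_eq_norm] at hz
    have h1 := (Complex.abs_im_le_norm (z - c)).trans hz
    rw [Complex.sub_im, hcim, abs_le] at h1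
    linarith [h1.1]
  have hopen : IsOpen {z : ℂ | 1 < z.im} := isOpen_lt continuous_const Complex.continuous_im
  have hdiff : DifferentiableOn ℂ f {z : ℂ | 1 < z.im} := fun z hz =>
    (h.df z hz).differentiableWithinAt
  have hf : AnalyticOnNhd ℂ f (closedBall c R) := fun z hz =>
    hdiff.analyticOnNhd hopen z (by
      have := hball z hz
      show 1 < z.im
      linarith)
  have hcc : 2 ≤ c.im := by rw [hcim]; linarith
  have hfc : ‖f c‖ ^ 2 ≤ 1 / 2 := by rw [← Hf_eq f hcc]; exact hH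
  have hκ : (0 : ℝ) ≤ P⁻¹ / 200 := by positivity
  have hw : ∀ z ∈ Z, ‖c - z‖ ≤ R ∧ (c ≠ z → P⁻¹ / 200 ≤ Real.log (R * ‖c - z‖⁻¹)) := by
    intro z hz
    obtain ⟨⟨h1, h2⟩, h3⟩ := hZ z hz
    refine wt (D := 4 * (P * (8 / L))) (h := 1 / L) hR0 ?_ ?_ ?_ hκ ?_
    · rw [hcre]; linarith
    · rw [hcre]; linarith
    · rw [hcim]; exact h3
    · have h4 := geo2 (L := L) (P := P) hL hP
      rw [hR]
      rw [sub_zero, sub_neg_eq_add] at h4
      exact h4
  have key := jlog hR0 hf hfc (fun z hz => (hw z hz).1) hκ (fun z hz => (hw z hz).2) m hm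
  have hav : Real.circleAverage (fun z => ‖f z‖ ^ 2) c R = Real.circleAverage (Hf f) c R := by
    refine Real.circleAverage_congr_sphere fun z hz => ?_
    rw [abs_of_pos hR0] at hz
    exact (Hf_eq f (hball z (sphere_subset_closedBall hz))).symm
  rw [hav] at key
  have h5 : ∑ s ∈ Z, (m s : ℝ) = 200 * P * ((∑ s ∈ Z, (m s : ℝ)) * (P⁻¹ / 200)) := by
    field_simp
  rw [h5]
  exact mul_le_mul_of_nonneg_left key (by positivity)

/-- the stretched exponential -/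
noncomputable def gg (c n : ℝ) : ℝ := n * Real.exp (c * Real.sqrt n)

lemma gg_mono {c n n' : ℝ} (hc : 0 ≤ c) (hn : 0 ≤ n) (h : n ≤ n') : gg c n ≤ gg c n' := by
  unfold gg
  have h1 := Real.sqrt_le_sqrt h
  have h2 : Real.exp (c * Real.sqrt n) ≤ Real.exp (c * Real.sqrt n') :=
    Real.exp_le_exp.mpr (mul_le_mul_of_nonneg_left h1 hc)
  exact mul_le_mul h h2 (Real.exp_pos _).le (hn.trans h)

lemma gg_nonneg {c n : ℝ} (hn : 0 ≤ n) : 0 ≤ gg c n := mul_nonneg hn (Real.exp_pos _).le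

/-- the elementary inequality -/
lemma elem {c n P V : ℝ} (hc : 0 < c) (hn : 0 ≤ n) (hP : 1 ≤ P) (hV : 0 ≤ V)
    (h : n ≤ 200 * P * (Real.log (1 + V) + 1)) :
    gg c n ≤ 1600 * P * Real.exp (200 * c ^ 2 * P) * (1 + Real.sqrt V) := by
  obtain ⟨l, hl⟩ : ∃ l : ℝ, l = Real.log (1 + V) + 1 := ⟨_, rfl⟩
  have hl1 : 1 ≤ l := by
    rw [hl]
    have := Real.log_nonneg (show 1 ≤ 1 + V by linarith)
    linarith
  rw [← hl] at h
  have hP0 : 0 < P := by linarith
  refine (gg_mono hc.le hn h).trans ?_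
  unfold gg
  have h1 : c * Real.sqrt (200 * P * l) ≤ 200 * c ^ 2 * P + l / 4 := by
    refine le_of_sq_le_sq ?_ (by positivity)
    rw [mul_pow, Real.sq_sqrt (by positivity)]
    nlinarith [sq_nonneg (200 * c ^ 2 * P - l / 4)]
  have h2 : l ≤ 4 * Real.exp (l / 4) := by
    have := Real.add_one_le_exp (l / 4)
    linarith
  have h3 : Real.exp (c * Real.sqrt (200 * P * l)) ≤
      Real.exp (200 * c ^ 2 * P) * Real.exp (l / 4) := by
    rw [← Real.exp_add]
    exact Real.exp_le_exp.mpr h1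
  have h4 : Real.exp (Real.log (1 + V) / 2) ≤ 1 + Real.sqrt V := by
    refine le_of_sq_le_sq ?_ (by positivity)
    have e : Real.exp (Real.log (1 + V) / 2) ^ 2 = 1 + V := by
      rw [← Real.exp_nat_mul]
      have e1 : ((2 : ℕ) : ℝ) * (Real.log (1 + V) / 2) = Real.log (1 + V) := by
        push_cast
        ring
      rw [e1, Real.exp_log (by linarith)]
    rw [e]
    have := Real.sq_sqrt hV
    nlinarith [Real.sqrt_nonneg V]
  have h5 : Real.exp (l / 4) * Real.exp (l / 4) ≤ 2 * (1 + Real.sqrt V) := by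
    rw [← Real.exp_add]
    have e : l / 4 + l / 4 = 1 / 2 + Real.log (1 + V) / 2 := by rw [hl]; ring
    rw [e, Real.exp_add]
    have h6 : Real.exp (1 / 2) ≤ 2 := by
      have h7 : Real.exp (1 / 2) ^ 2 ≤ 2 ^ 2 := by
        rw [← Real.exp_nat_mul]
        have h8 := Real.exp_one_lt_d9
        norm_num
        linarith
      exact le_of_sq_le_sq h7 (by norm_num)
    exact mul_le_mul h6 h4 (Real.exp_pos _).le (by norm_num)
  calc 200 * P * l * Real.exp (c * Real.sqrt (200 * P * l)) ≤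
      200 * P * (4 * Real.exp (l / 4)) * (Real.exp (200 * c ^ 2 * P) * Real.exp (l / 4)) := by
        gcongr
    _ = 800 * P * Real.exp (200 * c ^ 2 * P) * (Real.exp (l / 4) * Real.exp (l / 4)) := by ring
    _ ≤ 800 * P * Real.exp (200 * c ^ 2 * P) * (2 * (1 + Real.sqrt V)) := by gcongr
    _ = _ := by ring

/-- the terms of the bound -/
noncomputable def WW (c₁ L x : ℝ) (f : ℂ → ℂ) (u : ℝ → ℝ) (P t : ℝ) : ℝ :=
  1600 * P * Real.exp (c₁ * P) * (2 * Real.exp (2 * c₁ * P) * u t +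
    Real.exp (-(2 * c₁ * P)) * VV L x f P t)

lemma elem1 {c P V u c₁ n : ℝ} (hc : 0 < c) (hc1 : 200 * c ^ 2 = c₁) (hn : 0 ≤ n) (hP : 1 ≤ P)
    (hV : 0 ≤ V) (hu : 1 ≤ u) (h : n ≤ 200 * P * (Real.log (1 + V) + 1)) :
    gg c n ≤ 1600 * P * Real.exp (c₁ * P) * (2 * Real.exp (2 * c₁ * P) * u +
      Real.exp (-(2 * c₁ * P)) * V) := by
  have h1 := elem hc hn hP hV h
  rw [hc1] at h1
  refine h1.trans (mul_le_mul_of_nonneg_left ?_ (by positivity))
  have hc10 : 0 < c₁ := by rw [← hc1]; positivity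
  obtain ⟨lam, hlam⟩ : ∃ l : ℝ, l = Real.exp (2 * c₁ * P) := ⟨_, rfl⟩
  have hlam' : Real.exp (-(2 * c₁ * P)) = lam⁻¹ := by rw [hlam, Real.exp_neg]
  have hlam1 : 1 ≤ lam := by rw [hlam]; exact Real.one_le_exp (by positivity)
  rw [hlam', ← hlam]
  have h2 : Real.sqrt V ≤ lam + lam⁻¹ * V := by
    have h3 : 0 ≤ lam⁻¹ * (Real.sqrt V - lam) ^ 2 := by positivity
    have h4 : lam⁻¹ * (Real.sqrt V - lam) ^ 2 = lam⁻¹ * V - 2 * Real.sqrt V + lam := by
      have := Real.sq_sqrt hV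
      have e : (Real.sqrt V - lam) ^ 2 = V - 2 * lam * Real.sqrt V + lam ^ 2 := by
        rw [sub_sq, this]; ring
      rw [e]
      field_simp
    have h5 := Real.sqrt_nonneg V
    linarith
  nlinarith

lemma elem0 {c V c₁ n : ℝ} (hc : 0 < c) (hc1 : 200 * c ^ 2 = c₁) (hn : 0 ≤ n)
    (hV : 0 ≤ V) (h : n ≤ 200 * 1 * (Real.log (1 + V) + 1)) :
    gg c n ≤ 1600 * Real.exp c₁ * (2 + V) := by
  have h1 := elem hc hn le_rfl hV h
  rw [hc1, mul_one, mul_one] at h1
  refine h1.trans (mul_le_mul_of_nonneg_left ?_ (by positivity))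
  have h2 := Real.sq_sqrt hV
  nlinarith [sq_nonneg (Real.sqrt V - 1)]

end Pool.Agent.N802.WD.JX
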