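import Pool.Agent.N802.WD.JenX

/-!
# Stretched exponential moments of the number of zeros in a window: integration
-/

set_option linter.unusedSectionVars false

namespace Pool.Agent.N802.WD.JX

open MeasureTheory Set Filter Topology Complex Metric
open Pool.Agent.R399.TW (pt pt_re pt_im pt_cont)
open Pool.Agent.N935.WD

variable {c₁ C₁ L : ℝ} {f : ℂ → ℂ} {a b x M : ℝ} {w : ℝ → ℝ}

open Classical in
/-- the number of zeros in the window -/
noncomputable def nn (Z : Finset ℂ) (m : ℂ → ℕ) (L x t : ℝ) : ℝ :=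
  ∑ s ∈ Z.filter (fun s => 1 / 2 ≤ s.re ∧ |s.im - (t + x)| ≤ 1 / L), (m s : ℝ)

open Classical in
/-- the number of zeros far from the line -/
noncomputable def cf (Z : Finset ℂ) (m : ℂ → ℕ) (L x P t : ℝ) : ℝ :=
  ∑ s ∈ Z.filter (fun s => 1 / 2 + 32 * P / L ≤ s.re ∧ |s.im - (t + x)| ≤ 1 / L), (m s : ℝ)

/-- the indicator of a bad centre -/
noncomputable def uu (Z : Finset ℂ) (m : ℂ → ℕ) (f : ℂ → ℂ) (L x P t : ℝ) : ℝ :=
  2 * HH L x f P t + cf Z m L x P t

lemma nn_nonneg (Z : Finset ℂ) (m : ℂ → ℕ) (L x t : ℝ) : 0 ≤ nn Z m L x t :=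
  Finset.sum_nonneg fun _ _ => Nat.cast_nonneg _

lemma cf_nonneg (Z : Finset ℂ) (m : ℂ → ℕ) (L x P t : ℝ) : 0 ≤ cf Z m L x P t :=
  Finset.sum_nonneg fun _ _ => Nat.cast_nonneg _

lemma WW_nonneg {u : ℝ → ℝ} {P t : ℝ} (hP : 0 ≤ P) (hu : 0 ≤ u t) :
    0 ≤ WW c₁ L x f u P t := by
  unfold WW
  have := VV_nonneg (L := L) (x := x) (f := f) P t
  positivity

/-- the count at a fixed height -/
lemma pointX (h : Hyp c₁ C₁ L f a b x M w) {c : ℝ} (hc : 0 < c) (hc1 : 200 * c ^ 2 = c₁)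
    {K : ℕ} (hK1 : 5 / 2 ≤ 4 * (2 ^ K * (8 / L))) (hK2 : 4 * (2 ^ K * (8 / L)) ≤ 5)
    {t : ℝ} (ht : 50 ≤ t + x) (Z : Finset ℂ) (m : ℂ → ℕ)
    (hZ : ∀ s ∈ Z, s.re ≤ 1 ∧ m s ≤ analyticOrderNatAt (fun z => 1 + f z) s) :
    gg c (nn Z m L x t) ≤ 1600 * Real.exp c₁ * (2 + VV L x f 1 t) +
      ∑ k ∈ Finset.range K, WW c₁ L x f (uu Z m f L x (2 ^ k)) (2 ^ (k + 1)) t := by
  classical
  have hL : 0 < L := by linarith [h.L0]
  have hc0 := h.c0
  set Zn := (Z.filter (fun s => 1 / 2 ≤ s.re ∧ |s.im - (t + x)| ≤ 1 / L)).filter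
    (fun s => m s ≠ 0) with hZn
  have hsum : nn Z m L x t = ∑ s ∈ Zn, (m s : ℝ) := by
    unfold nn
    rw [hZn, Finset.sum_filter (s := Z.filter _) (p := fun s => m s ≠ 0)]
    refine Finset.sum_congr rfl fun s _ => ?_
    by_cases hs : m s = 0
    · rw [if_neg (not_not.mpr hs), hs]; simp
    · rw [if_pos hs]
  let Good : ℕ → Prop := fun k => HH L x f (2 ^ k) t ≤ 1 / 2 ∧
    ∀ s ∈ Zn, s.re ≤ 1 / 2 + 4 * (2 ^ k * (8 / L))
  have hKg : Good K := by
    constructor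
    · unfold HH
      rw [Hf_eq f (by rw [pt_im]; linarith)]
      have h1 := h.bd (pt (1 / 2 + 4 * (2 ^ K * (8 / L))) (t + x)) (by rw [pt_im]; linarith)
        (by rw [pt_re]; linarith)
      nlinarith [norm_nonneg (f (pt (1 / 2 + 4 * (2 ^ K * (8 / L))) (t + x)))]
    · intro s hs
      rw [hZn, Finset.mem_filter, Finset.mem_filter] at hs
      have := (hZ s hs.1.1).1
      linarith
  have hex : ∃ k : ℕ, Good k := ⟨K, hKg⟩
  obtain ⟨k, hk⟩ : ∃ k : ℕ, k = Nat.find hex := ⟨_, rfl⟩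
  have hk1 : Good k := by rw [hk]; exact Nat.find_spec hex
  have hkK : k ≤ K := by rw [hk]; exact Nat.find_min' hex hKg
  have hmin : ∀ j < k, ¬ Good j := by
    intro j hj
    rw [hk] at hj
    exact Nat.find_min hex hj
  have hP : (1 : ℝ) ≤ 2 ^ k := one_le_pow₀ (by norm_num)
  have hP5 : 4 * ((2 : ℝ) ^ k * (8 / L)) ≤ 5 := by
    have h1 : (2 : ℝ) ^ k ≤ 2 ^ K := pow_le_pow_right₀ (by norm_num) hkK
    have h2 : (2 : ℝ) ^ k * (8 / L) ≤ 2 ^ K * (8 / L) :=
      mul_le_mul_of_nonneg_right h1 (by positivity)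
    linarith
  have hone := oneX h ht Zn m hP hP5 (fun s hs => by
    have h1 := hk1.2 s hs
    rw [hZn, Finset.mem_filter, Finset.mem_filter] at hs
    exact ⟨⟨hs.1.2.1, h1⟩, hs.1.2.2⟩) (fun s hs => by
    rw [hZn, Finset.mem_filter, Finset.mem_filter] at hs
    exact (hZ s hs.1.1).2) hk1.1
  rw [← hsum] at hone
  have hV := VV_nonneg (L := L) (x := x) (f := f) (2 ^ k) t
  have hu0 : ∀ j, 0 ≤ uu Z m f L x (2 ^ j) t := fun j => by
    unfold uu
    have h1 := HH_nonneg (L := L) (x := x) (f := f) (2 ^ j) t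
    have h2 := cf_nonneg Z m L x (2 ^ j) t
    linarith
  have hWn : ∀ j ∈ Finset.range K, 0 ≤ WW c₁ L x f (uu Z m f L x (2 ^ j)) (2 ^ (j + 1)) t :=
    fun j _ => WW_nonneg (by positivity) (hu0 j)
  rcases k with _ | j
  · rw [pow_zero] at hone hV
    have h1 := elem0 hc hc1 (nn_nonneg Z m L x t) hV hone
    have h2 := Finset.sum_nonneg hWn
    linarith
  · have hu1 : 1 ≤ uu Z m f L x (2 ^ j) t := by
      have h1 := hmin j (Nat.lt_succ_self j)
      unfold uu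
      have h2 := HH_nonneg (L := L) (x := x) (f := f) (2 ^ j) t
      have h3 := cf_nonneg Z m L x (2 ^ j) t
      by_cases h4 : HH L x f (2 ^ j) t ≤ 1 / 2
      · have h5 : ∃ s ∈ Zn, 1 / 2 + 4 * (2 ^ j * (8 / L)) < s.re := by
          by_contra hcon
          push Not at hcon
          exact h1 ⟨h4, hcon⟩
        obtain ⟨s, hs, hs2⟩ := h5
        rw [hZn, Finset.mem_filter, Finset.mem_filter] at hs
        have h6 : (1 : ℝ) ≤ m s := by
          exact_mod_cast Nat.one_le_iff_ne_zero.mpr hs.2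
        have h7 : (m s : ℝ) ≤ cf Z m L x (2 ^ j) t := by
          unfold cf
          refine Finset.single_le_sum (f := fun s => (m s : ℝ)) (fun _ _ => Nat.cast_nonneg _) ?_
          rw [Finset.mem_filter]
          refine ⟨hs.1.1, ?_, hs.1.2.2⟩
          have e : 32 * (2 : ℝ) ^ j / L = 4 * (2 ^ j * (8 / L)) := by ring
          rw [e]
          exact hs2.le
        linarith
      · rw [not_le] at h4
        linarith
    have h1 : gg c (nn Z m L x t) ≤ WW c₁ L x f (uu Z m f L x (2 ^ j)) (2 ^ (j + 1)) t :=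
      elem1 hc hc1 (nn_nonneg Z m L x t) hP hV hu1 hone
    have h2 := Finset.single_le_sum
      (f := fun j => WW c₁ L x f (uu Z m f L x (2 ^ j)) (2 ^ (j + 1)) t) hWn
      (Finset.mem_range.mpr (by omega : j < K))
    have h3 : 0 ≤ 1600 * Real.exp c₁ * (2 + VV L x f 1 t) := by
      have := VV_nonneg (L := L) (x := x) (f := f) 1 t
      positivity
    linarith

/-- integrability -/
lemma gg_int (hw : Continuous w) (Z : Finset ℂ) (m : ℂ → ℕ) {c : ℝ} (hc : 0 ≤ c) (L x a b : ℝ) :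
    IntervalIntegrable (fun t => w t * gg c (nn Z m L x t)) volume a b := by
  classical
  have h2 : IntervalIntegrable (fun t => |w t| * gg c (∑ s ∈ Z, (m s : ℝ))) volume a b :=
    (hw.abs.mul continuous_const).intervalIntegrable _ _
  have e : ∀ t, nn Z m L x t =
      ∑ s ∈ Z, if 1 / 2 ≤ s.re ∧ |s.im - (t + x)| ≤ 1 / L then (m s : ℝ) else 0 := by
    intro t
    unfold nn
    rw [Finset.sum_filter]
  have hmeas : Measurable fun t => nn Z m L x t := by
    simp_rw [e]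
    refine Finset.measurable_fun_sum _ fun s _ => ?_
    apply Measurable.ite _ measurable_const measurable_const
    have hc : Continuous (fun t : ℝ => |s.im - (t + x)|) := by fun_prop
    exact (MeasurableSet.const _).inter (isClosed_le hc continuous_const).measurableSet
  have hg : Continuous (gg c) := by
    unfold gg
    fun_prop
  apply h2.mono_fun'
  · apply AEStronglyMeasurable.restrict
    apply Measurable.aestronglyMeasurable
    exact hw.measurable.mul (hg.measurable.comp hmeas)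
  · refine Eventually.of_forall fun t => ?_
    simp only
    rw [Real.norm_eq_abs, abs_mul, abs_of_nonneg (gg_nonneg (nn_nonneg Z m L x t))]
    refine mul_le_mul_of_nonneg_left (gg_mono hc (nn_nonneg Z m L x t) ?_) (abs_nonneg _)
    unfold nn
    exact Finset.sum_le_sum_of_subset_of_nonneg (Finset.filter_subset _ _)
      fun _ _ _ => Nat.cast_nonneg _

lemma VV_cont (df : ∀ z : ℂ, 1 < z.im → DifferentiableAt ℂ f z) (P : ℝ) :
    Continuous (VV L x f P) := circ_cont df _ _ _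

lemma HH_cont (df : ∀ z : ℂ, 1 < z.im → DifferentiableAt ℂ f z) (P : ℝ) :
    Continuous (HH L x f P) :=
  (Hf_cont df).comp ((pt_cont _).comp (continuous_id.add continuous_const))

lemma VV_int (h : Hyp c₁ C₁ L f a b x M w) {P : ℝ} (hP : 1 ≤ P) (hP5 : 4 * (P * (8 / L)) ≤ 5) :
    ∫ t in a..b, w t * VV L x f P t ≤ C₁ * Real.exp (c₁ / 4) * M := by
  have hL : 0 < L := by linarith [h.L0]
  have hP0 : 0 < P := by linarith
  have h0 : 0 < P * (8 / L) := by positivity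
  have hL1 : 1 / (4 * L) ≤ 1 / (2 * L) := by
    apply one_div_le_one_div_of_le (by positivity)
    linarith
  have hL2 : 1 / (4 * L) ≤ 1 := by
    rw [div_le_one (by positivity)]
    linarith [h.L0]
  have hL3 : 0 < 1 / (4 * L) := by positivity
  have h1 := h.circ (σ := 4 * (P * (8 / L))) (R := 4 * (P * (8 / L)) + 1 / (4 * L))
    (by linarith) (by linarith) (by linarith) (by linarith)
  have e : -(c₁ * L * (4 * (P * (8 / L)) - (4 * (P * (8 / L)) + 1 / (4 * L)))) = c₁ / 4 := by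
    field_simp
    ring
  rw [e] at h1
  exact h1

lemma uu_int (h : Hyp c₁ C₁ L f a b x M w) (Z : Finset ℂ) (m : ℂ → ℕ)
    (hZ : ∀ s ∈ Z, s.re ≤ 1 ∧ m s ≤ analyticOrderNatAt (fun z => 1 + f z) s) {P : ℝ} (hP : 1 ≤ P)
    (hP5 : 4 * (P * (8 / L)) ≤ 5) :
    IntervalIntegrable (fun t => w t * uu Z m f L x P t) volume a b ∧
    ∫ t in a..b, w t * uu Z m f L x P t ≤
      (2 * C₁ + 200 * C₁ * (3 + Real.exp c₁ / c₁ ^ 2) * (Real.exp (9 * c₁ / 4) + 1 / c₁)) *
        Real.exp (-(8 * c₁ * P)) * M := by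
  classical
  have hL : 0 < L := by linarith [h.L0]
  have hc0 := h.c0
  have hP0 : 0 < P := by linarith
  have h0 : 0 < P * (8 / L) := by positivity
  have hL3 : 0 < 1 / (2 * L) := by positivity
  have i1 : IntervalIntegrable (fun t => w t * HH L x f P t) volume a b :=
    (h.wc.mul (HH_cont h.df P)).intervalIntegrable _ _
  have i2 : IntervalIntegrable (fun t => w t * cf Z m L x P t) volume a b :=
    cnt_int h.wc Z m (fun s => 1 / 2 + 32 * P / L ≤ s.re) (1 / L) x a b _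
      (fun t s => Finset.mem_filter)
  have h1 := h.line (ρ := 4 * (P * (8 / L))) (y := 0) (by linarith) (by linarith) (by norm_num)
  have h2 := h.total Z m hZ (A := 32 * P) (by positivity)
  have e1 : (fun t => w t * uu Z m f L x P t) =
      fun t => 2 * (w t * HH L x f P t) + w t * cf Z m L x P t := by
    funext t
    unfold uu
    ring
  rw [e1]
  refine ⟨(i1.const_mul 2).add i2, ?_⟩
  rw [intervalIntegral.integral_add (i1.const_mul 2) i2, intervalIntegral.integral_const_mul]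
  have e2 : ∫ t in a..b, w t * HH L x f P t =
      ∫ t in a..b, w t * Hf f (pt (1 / 2 + 4 * (P * (8 / L))) (t + x + 0)) := by
    refine intervalIntegral.integral_congr fun t _ => ?_
    simp only [HH, add_zero]
  rw [e2]
  have e3 : -(c₁ * L * (4 * (P * (8 / L)))) = -(32 * c₁ * P) := by
    field_simp
    ring
  rw [e3] at h1
  have e4 : -(c₁ / 4 * (32 * P)) = -(8 * c₁ * P) := by ring
  rw [e4] at h2
  have h3 : Real.exp (-(32 * c₁ * P)) ≤ Real.exp (-(8 * c₁ * P)) := by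
    apply Real.exp_le_exp.mpr
    have : 0 < c₁ * P := mul_pos hc0 hP0
    linarith
  have h4 : C₁ * Real.exp (-(32 * c₁ * P)) * M ≤ C₁ * Real.exp (-(8 * c₁ * P)) * M :=
    mul_le_mul_of_nonneg_right (mul_le_mul_of_nonneg_left h3 h.C0.le) h.M0
  have h5 : ∫ t in a..b, w t * cf Z m L x P t ≤
      200 * C₁ * (3 + Real.exp c₁ / c₁ ^ 2) * (Real.exp (9 * c₁ / 4) + 1 / c₁) *
        Real.exp (-(8 * c₁ * P)) * M := h2
  linarith

/-- **stretched exponential moments** -/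
theorem jenx_core (c₁ C₁ : ℝ) (hc : 0 < c₁) (hC : 0 < C₁) : ∃ c C L₀ : ℝ, 0 < c ∧ 0 < C ∧
  1 ≤ L₀ ∧ ∀ L : ℝ, L₀ ≤ L → ∀ f : ℂ → ℂ, (∀ z : ℂ, 1 < z.im → DifferentiableAt ℂ f z) →
  (∀ z : ℂ, 1 < z.im → 3 ≤ z.re → ‖f z‖ ≤ 1 / 2) →
  ∀ (a b x M : ℝ) (w : ℝ → ℝ), a ≤ b → 50 ≤ a + x → Continuous w → (∀ t, 0 ≤ w t) → 0 ≤ M →
  (∫ t in a..b, w t ≤ C₁ * M) →
  (∀ ρ y : ℝ, -(1 / (2 * L)) ≤ ρ → ρ ≤ 30 → |y| ≤ 30 →
    ∫ t in a..b, w t * ‖f (pt (1 / 2 + ρ) (t + x + y))‖ ^ 2 ≤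
      C₁ * Real.exp (-(c₁ * L * ρ)) * M) →
  ∀ (Z : Finset ℂ) (m : ℂ → ℕ), (∀ s ∈ Z, 1 < s.im ∧ s.re ≤ 1 ∧
    m s ≤ analyticOrderNatAt (fun z => 1 + f z) s) →
  ∫ t in a..b, w t * gg c (nn Z m L x t) ≤ C * M := by
  obtain ⟨C3, hC3⟩ : ∃ C3 : ℝ, C3 = 2 * C₁ + 200 * C₁ * (3 + Real.exp c₁ / c₁ ^ 2) *
    (Real.exp (9 * c₁ / 4) + 1 / c₁) := ⟨_, rfl⟩
  have hC30 : 0 < C3 := by rw [hC3]; positivity
  obtain ⟨C4, hC4⟩ : ∃ C4 : ℝ, C4 = 2 * C3 + C₁ * Real.exp (c₁ / 4) := ⟨_, rfl⟩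
  have hC40 : 0 < C4 := by rw [hC4]; positivity
  refine ⟨Real.sqrt (c₁ / 200), 1600 * Real.exp c₁ * (2 * C₁ + C₁ * Real.exp (c₁ / 4)) +
    3200 / c₁ ^ 2 * C4, 64, by positivity, by positivity, by norm_num, ?_⟩
  intro L hL f df bd a b x M w hab hax hw hw0 hM hwm hint Z m hZ
  have h : Hyp c₁ C₁ L f a b x M w := ⟨hc, hC, by linarith, df, bd, hab, hax, hw, hw0, hM, hint⟩
  have hL0 : 0 < L := by linarith
  have hcc : 200 * Real.sqrt (c₁ / 200) ^ 2 = c₁ := by
    rw [Real.sq_sqrt (by positivity)]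
    field_simp
  have hc0 : 0 < Real.sqrt (c₁ / 200) := by positivity
  -- the last scale
  obtain ⟨K, hK1, hK2⟩ : ∃ K : ℕ, 5 / 2 ≤ 4 * ((2 : ℝ) ^ K * (8 / L)) ∧
      4 * ((2 : ℝ) ^ K * (8 / L)) ≤ 5 := by
    have h8 : 0 < 8 / L := by positivity
    have h81 : 8 / L ≤ 5 / 4 := by
      rw [div_le_iff₀ hL0]
      linarith
    obtain ⟨n, hn1, hn2⟩ := exists_nat_pow_near (x := (5 / 4) / (8 / L)) (y := (2 : ℝ))
      (by rw [le_div_iff₀ h8]; linarith) (by norm_num)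
    refine ⟨n, ?_, ?_⟩
    · rw [div_lt_iff₀ h8, pow_succ] at hn2
      linarith
    · rw [le_div_iff₀ h8] at hn1
      linarith
  have hZ' : ∀ s ∈ Z, s.re ≤ 1 ∧ m s ≤ analyticOrderNatAt (fun z => 1 + f z) s :=
    fun s hs => (hZ s hs).2
  have hk5 : ∀ k ≤ K, 4 * ((2 : ℝ) ^ k * (8 / L)) ≤ 5 := by
    intro k hk
    have h1 : (2 : ℝ) ^ k ≤ 2 ^ K := pow_le_pow_right₀ (by norm_num) hk
    have h2 : (2 : ℝ) ^ k * (8 / L) ≤ 2 ^ K * (8 / L) :=
      mul_le_mul_of_nonneg_right h1 (by positivity)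
    linarith
  have hone : ∀ k : ℕ, (1 : ℝ) ≤ 2 ^ k := fun k => one_le_pow₀ (by norm_num)
  have iV : ∀ P : ℝ, IntervalIntegrable (fun t => w t * VV L x f P t) volume a b := fun P =>
    (hw.mul (VV_cont df P)).intervalIntegrable _ _
  have iw : IntervalIntegrable w volume a b := hw.intervalIntegrable _ _
  have iW : ∀ k ∈ Finset.range K, IntervalIntegrable
      (fun t => w t * WW c₁ L x f (uu Z m f L x (2 ^ k)) (2 ^ (k + 1)) t) volume a b := by
    intro k hk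
    rw [Finset.mem_range] at hk
    have h1 := (uu_int h Z m hZ' (hone k) (hk5 k hk.le)).1
    have h2 := ((h1.const_mul (1600 * 2 ^ (k + 1) * Real.exp (c₁ * 2 ^ (k + 1)) *
      (2 * Real.exp (2 * c₁ * 2 ^ (k + 1))))).add ((iV (2 ^ (k + 1))).const_mul
      (1600 * 2 ^ (k + 1) * Real.exp (c₁ * 2 ^ (k + 1)) * Real.exp (-(2 * c₁ * 2 ^ (k + 1))))))
    refine h2.congr fun t _ => ?_
    simp only [WW]
    ring
  have i0 : IntervalIntegrable (fun t => w t * (1600 * Real.exp c₁ * (2 + VV L x f 1 t)))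
      volume a b := by
    have h2 := (iw.const_mul (1600 * Real.exp c₁ * 2)).add
      ((iV 1).const_mul (1600 * Real.exp c₁))
    refine h2.congr fun t _ => ?_
    ring
  have iS := IntervalIntegrable.sum (μ := volume) (a := a) (b := b) (Finset.range K) iW
  rw [Finset.sum_fn] at iS
  have h1 := intervalIntegral.integral_mono_on hab (gg_int hw Z m hc0.le L x a b) (i0.add iS)
    (fun t ht => by
      have h2 := mul_le_mul_of_nonneg_left
        (pointX (t := t) h hc0 hcc hK1 hK2 (by linarith [ht.1]) Z m hZ') (hw0 t)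
      refine h2.trans (le_of_eq ?_)
      rw [mul_add, Finset.mul_sum])
  refine h1.trans ?_
  rw [intervalIntegral.integral_add i0 iS, intervalIntegral.integral_finsetSum iW]
  have hb0 : ∫ t in a..b, w t * (1600 * Real.exp c₁ * (2 + VV L x f 1 t)) ≤
      1600 * Real.exp c₁ * (2 * C₁ + C₁ * Real.exp (c₁ / 4)) * M := by
    have e : (fun t => w t * (1600 * Real.exp c₁ * (2 + VV L x f 1 t))) =
        fun t => 1600 * Real.exp c₁ * (2 * w t + w t * VV L x f 1 t) := by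
      funext t
      ring
    rw [e, intervalIntegral.integral_const_mul,
      intervalIntegral.integral_add (iw.const_mul 2) (iV 1), intervalIntegral.integral_const_mul]
    have h2 := VV_int h le_rfl (by
      have := hk5 0 (Nat.zero_le K)
      rwa [pow_zero] at this)
    have h3 : 2 * (∫ t in a..b, w t) + ∫ t in a..b, w t * VV L x f 1 t ≤
        (2 * C₁ + C₁ * Real.exp (c₁ / 4)) * M := by linarith
    calc _ ≤ 1600 * Real.exp c₁ * ((2 * C₁ + C₁ * Real.exp (c₁ / 4)) * M) :=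
          mul_le_mul_of_nonneg_left h3 (by positivity)
      _ = _ := by ring
  have hbk : ∀ k ∈ Finset.range K,
      ∫ t in a..b, w t * WW c₁ L x f (uu Z m f L x (2 ^ k)) (2 ^ (k + 1)) t ≤
      3200 / c₁ ^ 2 * C4 * M * ((2 : ℝ) ^ (k + 1))⁻¹ := by
    intro k hk
    rw [Finset.mem_range] at hk
    obtain ⟨Q, hQ⟩ : ∃ Q : ℝ, Q = 2 ^ (k + 1) := ⟨_, rfl⟩
    have hQ1 : 1 ≤ Q := by rw [hQ]; exact hone _
    have hQ0 : 0 < Q := by linarith
    obtain ⟨j1, j2⟩ := uu_int h Z m hZ' (hone k) (hk5 k hk.le)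
    have j3 := VV_int h (P := 2 ^ (k + 1)) (hone _) (hk5 (k + 1) hk)
    rw [← hC3] at j2
    have hQk : (2 : ℝ) ^ k = Q / 2 := by rw [hQ, pow_succ]; ring
    have e5 : -(8 * c₁ * 2 ^ k) = -(4 * c₁ * Q) := by rw [hQk]; ring
    rw [e5] at j2
    rw [← hQ] at j3 ⊢
    have e : ∫ t in a..b, w t * WW c₁ L x f (uu Z m f L x (2 ^ k)) Q t =
        1600 * Q * Real.exp (c₁ * Q) * (2 * Real.exp (2 * c₁ * Q) *
          (∫ t in a..b, w t * uu Z m f L x (2 ^ k) t) + Real.exp (-(2 * c₁ * Q)) *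
          ∫ t in a..b, w t * VV L x f Q t) := by
      rw [← intervalIntegral.integral_const_mul, ← intervalIntegral.integral_const_mul,
        ← intervalIntegral.integral_add (j1.const_mul _) ((iV Q).const_mul _),
        ← intervalIntegral.integral_const_mul]
      refine intervalIntegral.integral_congr fun t _ => ?_
      simp only [WW]
      ring
    rw [e]
    have k1 : Real.exp (c₁ * Q) * (2 * Real.exp (2 * c₁ * Q) *
        (C3 * Real.exp (-(4 * c₁ * Q)) * M) + Real.exp (-(2 * c₁ * Q)) *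
        (C₁ * Real.exp (c₁ / 4) * M)) = C4 * M * Real.exp (-(c₁ * Q)) := by
      have e1 : Real.exp (c₁ * Q) * (Real.exp (2 * c₁ * Q) * Real.exp (-(4 * c₁ * Q))) =
          Real.exp (-(c₁ * Q)) := by
        rw [← Real.exp_add, ← Real.exp_add]
        congr 1
        ring
      have e2 : Real.exp (c₁ * Q) * Real.exp (-(2 * c₁ * Q)) = Real.exp (-(c₁ * Q)) := by
        rw [← Real.exp_add]
        congr 1
        ring
      calc _ = 2 * C3 * M * (Real.exp (c₁ * Q) * (Real.exp (2 * c₁ * Q) *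
            Real.exp (-(4 * c₁ * Q)))) + C₁ * Real.exp (c₁ / 4) * M *
            (Real.exp (c₁ * Q) * Real.exp (-(2 * c₁ * Q))) := by ring
        _ = _ := by
            rw [e1, e2, hC4]
            ring
    have k2 : Q * Real.exp (-(c₁ * Q)) ≤ 2 / c₁ ^ 2 * Q⁻¹ := by
      have h9 := exp_bd (u := c₁ * Q) (by positivity)
      calc Q * Real.exp (-(c₁ * Q)) ≤ Q * (2 / (c₁ * Q) ^ 2) :=
            mul_le_mul_of_nonneg_left h9 hQ0.le
        _ = _ := by
            field_simp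
    calc 1600 * Q * Real.exp (c₁ * Q) * (2 * Real.exp (2 * c₁ * Q) *
          (∫ t in a..b, w t * uu Z m f L x (2 ^ k) t) + Real.exp (-(2 * c₁ * Q)) *
          ∫ t in a..b, w t * VV L x f Q t) ≤
        1600 * Q * Real.exp (c₁ * Q) * (2 * Real.exp (2 * c₁ * Q) *
          (C3 * Real.exp (-(4 * c₁ * Q)) * M) + Real.exp (-(2 * c₁ * Q)) *
          (C₁ * Real.exp (c₁ / 4) * M)) := by
          gcongr
      _ = 1600 * Q * (Real.exp (c₁ * Q) * (2 * Real.exp (2 * c₁ * Q) *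
          (C3 * Real.exp (-(4 * c₁ * Q)) * M) + Real.exp (-(2 * c₁ * Q)) *
          (C₁ * Real.exp (c₁ / 4) * M))) := by ring
      _ = 1600 * (C4 * M) * (Q * Real.exp (-(c₁ * Q))) := by rw [k1]; ring
      _ ≤ 1600 * (C4 * M) * (2 / c₁ ^ 2 * Q⁻¹) := mul_le_mul_of_nonneg_left k2 (by positivity)
      _ = _ := by ring
  have h2 := Finset.sum_le_sum hbk
  rw [← Finset.mul_sum] at h2
  have h3 : 3200 / c₁ ^ 2 * C4 * M * ∑ k ∈ Finset.range K, ((2 : ℝ) ^ (k + 1))⁻¹ ≤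
      3200 / c₁ ^ 2 * C4 * M * 1 := mul_le_mul_of_nonneg_left (geom_le K) (by positivity)
  linarith

end Pool.Agent.N802.WD.JX
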