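import Pool.Agent.N802.WD.Pt6
import Pool.Agent.N802.X.Dist

/-! # One height, width `H₀ / L` -/

open Complex Filter Topology Set MeasureTheory
open scoped BigOperators ComplexConjugate

namespace Pool.Agent.N802.WD

open H370 hiding pt
open TC Pool.Agent.N802.U
open Pool.Agent.N845.U2 (cnt cnt_int)

section

variable (F : ℂ → ℂ) (U1 U2 : ℝ)

lemma dk_cont {X0 : ℝ} (hX : 0 < X0) (h y : ℝ) : Continuous (fun t : ℝ => dk X0 h (y - t)) := by
  unfold dk
  apply Continuous.inv₀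
  · fun_prop
  · intro t
    have : 0 ≤ max 0 (|y - t| - h) / X0 := div_nonneg (le_max_left _ _) hX.le
    positivity

lemma EA_cont {X0 : ℝ} (hX : 0 < X0) (θ L h : ℝ) :
    Continuous (fun t => EA F U1 U2 θ L X0 h t) := by
  unfold EA
  exact continuous_finsetSum _ fun s _ =>
    continuous_const.mul (continuous_const.mul (dk_cont hX h s.im))

lemma EO_eq {X0 : ℝ} (θ L h t : ℝ) : EO F U1 U2 θ L X0 h t =
    EA F U1 U2 θ L X0 h t -
      cnt (Zf F U1 U2) (fun s => (mult F s : ℝ) * Real.exp (θ * (|(zz s).im| * L))) h t := by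
  classical
  unfold EO EA cnt
  rw [← Finset.sum_sub_distrib, Finset.sum_filter]
  refine Finset.sum_congr rfl fun s _ => ?_
  by_cases hc : |s.im - t| ≤ h
  · rw [if_neg (not_lt.2 hc), if_pos hc]
    have : dk X0 h (s.im - t) = 1 := by
      unfold dk
      rw [max_eq_left (by linarith)]
      simp
    rw [this]
    ring
  · rw [if_pos (not_le.1 hc), if_neg hc]
    ring

lemma EA_int {ρ : ℝ → ℝ} (hρ : Continuous ρ) {X0 : ℝ} (hX : 0 < X0) (θ L h a b : ℝ) :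
    IntervalIntegrable (fun t => ρ t * EA F U1 U2 θ L X0 h t) volume a b :=
  (hρ.mul (EA_cont F U1 U2 hX θ L h)).intervalIntegrable _ _

lemma EO_int {ρ : ℝ → ℝ} (hρ : Continuous ρ) {X0 : ℝ} (hX : 0 < X0) (θ L h a b : ℝ) :
    IntervalIntegrable (fun t => ρ t * EO F U1 U2 θ L X0 h t) volume a b := by
  have h1 := (EA_int F U1 U2 hρ hX θ L h a b).sub
    (cnt_int hρ (Zf F U1 U2) (fun s => (mult F s : ℝ) * Real.exp (θ * (|(zz s).im| * L))) h a b)
  refine h1.congr ?_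
  intro t _
  simp only [EO_eq]
  ring

lemma EA_nonneg {X0 : ℝ} (hX : 0 < X0) (θ L h t : ℝ) : 0 ≤ EA F U1 U2 θ L X0 h t := by
  unfold EA
  refine Finset.sum_nonneg fun s _ => ?_
  unfold dk
  positivity

lemma EO_nonneg {X0 : ℝ} (hX : 0 < X0) (θ L h t : ℝ) : 0 ≤ EO F U1 U2 θ L X0 h t := by
  unfold EO
  refine Finset.sum_nonneg fun s _ => ?_
  unfold dk
  positivity

end

/-- a first moment -/
lemma first6 {F : ℂ → ℂ} {CE Cf CM ε η δ T L h U1 U2 τ H : ℝ} {S : Finset ℕ} {r : ℕ → ℂ}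
    {a : ℕ → ℂ} (hε : 0 < ε) (hCf : 0 < Cf) (hCE : 0 < CE)
    (hCM : CM = CE + 1 + 200 * Real.pi * Cf ^ 2 / ε)
    (s1 : 2 * CM ≤ ε / 4 / 100 * (h * L / Real.pi)) (hh0 : 0 < h) (hh1 : h ≤ 1)
    (hLd : L = Real.log T) (hL : 100 ≤ L) (hLT : L ≤ T / 4)
    (s5 : 50 * Real.exp (δ * L + L - L ^ 2 / 4) ≤ 1) (hη : 0 < η) (hη1 : η ≤ 1) (hδ : 0 < δ)
    (hH0 : 0 < H) (hτ1 : T + L * (H + 1) ≤ τ) (hτ2 : τ ≤ 2 * T - L * (H + 1))
    (hR : ∀ t, ‖RP S r t‖ ^ 2 ≤ Real.exp (δ * L) * w1 S r)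
    (ha : ∀ n, ‖a n‖ ≤ ArithmeticFunction.vonMangoldt n)
    {b : ℝ} {W : ℂ → ℂ} {v : ℝ → ℂ} (hW : BW b W v) (hqh : q2 v ≤ h)
    (hef : ∀ t : ℝ, T + L ≤ t → t ≤ 2 * T - L →
      ‖SS F U1 U2 W 0 t - cexp (I * (0 : ℝ) * t) * PD a ⌊T ^ (1 - η)⌋₊ v L 0 t‖ ≤
        CE * Real.sqrt (q2 v))
    (hfm : ‖(∫ t : ℝ, (rh τ H S r t : ℂ) * PD a ⌊T ^ (1 - η)⌋₊ v L 0 t) -
      ((mr H S r * L : ℝ) : ℂ) * gs v 0‖ ≤ Cf * (mr H S r * Real.sqrt (L * q2 v)))
    (hM : ∫ t : ℝ, rh τ H S r t ≤ 2 * mr H S r) :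
    |(∫ t in (T + L)..(2 * T - L), rh τ H S r t * (SS F U1 U2 W 0 t).re) -
      mr H S r * L * (gs v 0).re| ≤ ε / 50 * (mr H S r * (h * L / Real.pi)) := by
  have hLpos : 0 < L := by linarith
  have hw1 := w1_nonneg S r
  have hm0 : 0 ≤ mr H S r := by unfold mr; positivity
  have hsq1 : Real.sqrt (q2 v) ≤ 1 := Real.sqrt_le_one.2 (hqh.trans hh1)
  have hπ := Real.pi_pos
  have hU : 0 ≤ mr H S r * (h * L / Real.pi) := by positivity
  have h1 := fm_use2 (F := F) (U1 := U1) (U2 := U2) (rh_cont τ H S r) (rh_nonneg τ H S r)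
    (rh_intg (τ := τ) hH0 S r) (by linarith : T + L ≤ 2 * T - L) hW
    hef hCE.le
    (fm_tr (A := T + L) (A' := 2 * T - L) hH0 hLpos.le (by linarith) (by linarith) hR hW ha
      hLpos.le hfm) hM
  refine h1.trans ?_
  have htl := trunc3 (S := S) (r := r) (by linarith : 1 ≤ T) hLd hLpos hLT le_rfl
    hδ hη hη1 hH0 rfl rfl s5 (q2 v) hsq1
  have hsqb := sqb hε hCf hCE hh0 hLpos hCM s1
  exact err1 hε hCf hCE hLpos hm0 hCM s1 rfl hU hsqb hqh hsq1 htl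

lemma fin6 {U ε k c P1 KN P3 P4 Z : ℝ} (hεU : 0 ≤ ε * U) (a1 : (1 - 0.03 * ε) * U ≤ P1)
    (a2 : k * KN ≤ (k + ε / 10) * U) (a3 : P3 ≤ (1.3275 + 0.13 * ε) * U)
    (a4 : c * P4 ≤ ε / 400 * U) :
    (2.6725 - k - ε) * U ≤ 4 * P1 - k * KN - P3 - c * P4 - 0 * Z := by
  linarith

/-- the numerical conditions -/
structure Kn (Ce ε ε' L h X1 C : ℝ) : Prop where
  hCe : 0 < Ce
  hε : 0 < ε
  hε1 : ε < 1
  hε' : ε' ≤ ε / 400
  hEA : 2 * Real.pi * ε' * Ce ≤ ε / 400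
  hEO : 42 * C ^ 2 * (Ce * X1) ≤ ε / 400 * (h * L / Real.pi)
  hX : X1 ≤ h * L

section

variable {F : ℂ → ℂ} (hF : GoodL F) {U1 U2 : ℝ} (hU : 1 ≤ U1) {η ε' L h A X1 κ C θ : ℝ} {n : ℕ}
  {G : ℂ → ℂ} {w : ℝ → ℂ} {Gp : ℂ → ℂ} {gp : ℝ → ℂ}
  (hT : TwD η ε' L h A (X1 / L) κ C n G w Gp gp) (hN : NumD η ε' L h A X1 κ C θ n)
  {Ce ε m : ℝ} (hK : Kn Ce ε ε' L h X1 C) (hηε : η ≤ ε / 100) {ρ : ℝ → ℝ} (hρc : Continuous ρ)
  (hρ0 : ∀ t, 0 ≤ ρ t) {A0 B0 : ℝ} (hab : A0 ≤ B0) (hm : 0 ≤ m)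
  (hEA : ∫ t in A0..B0, ρ t * EA F U1 U2 θ L (X1 / L) h t ≤ Ce * (h * L + X1) * m)
  (hEO : ∫ t in A0..B0, ρ t * EO F U1 U2 θ L (X1 / L) h t ≤ Ce * X1 * m)
  (A2 : ∫ t in A0..B0, ρ t * (SS F U1 U2 Gp 0 t).re ≤ (1 + η + ε / 50) * (m * (h * L / Real.pi)))

include hN hK hm hEA in
lemma ea_small : ε' * ∫ t in A0..B0, ρ t * EA F U1 U2 θ L (X1 / L) h t ≤
    ε / 400 * (m * (h * L / Real.pi)) := by
  have hπ := Real.pi_pos
  have hε' := hN.ε0
  have hL : 0 < L := by linarith [hN.L1]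
  have hh := hN.h0
  have hCe := hK.hCe
  calc ε' * ∫ t in A0..B0, ρ t * EA F U1 U2 θ L (X1 / L) h t ≤
      ε' * (Ce * (h * L + X1) * m) := mul_le_mul_of_nonneg_left hEA hε'.le
    _ ≤ ε' * (Ce * (h * L + h * L) * m) := by
        have := hK.hX
        gcongr
    _ = (2 * Real.pi * ε' * Ce) * (m * (h * L / Real.pi)) := by field_simp; ring
    _ ≤ _ := by
        apply mul_le_mul_of_nonneg_right hK.hEA
        positivity

include hN hK hm hEO in
lemma eo_small : 42 * C ^ 2 * ∫ t in A0..B0, ρ t * EO F U1 U2 θ L (X1 / L) h t ≤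
    ε / 400 * (m * (h * L / Real.pi)) := by
  have hC := hN.C1
  calc 42 * C ^ 2 * ∫ t in A0..B0, ρ t * EO F U1 U2 θ L (X1 / L) h t ≤
      42 * C ^ 2 * (Ce * X1 * m) := mul_le_mul_of_nonneg_left hEO (by positivity)
    _ = (42 * C ^ 2 * (Ce * X1)) * m := by ring
    _ ≤ (ε / 400 * (h * L / Real.pi)) * m := mul_le_mul_of_nonneg_right hK.hEO hm
    _ = _ := by ring

include hF hU hT hN hK hηε hρc hρ0 hab hm hEA A2 in
/-- the upper bound -/
lemma upb6 : (∫ t in A0..B0, ρ t * na F U1 U2 h t) ≤ (1 + ε / 20) * (m * (h * L / Real.pi)) := by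
  have hπ := Real.pi_pos
  have hε' := hN.ε0
  have hL : 0 < L := by linarith [hN.L1]
  have hh := hN.h0
  have hε := hK.hε
  have hε1 := hK.hε1
  have hε'2 := hK.hε'
  set U := m * (h * L / Real.pi) with hUd
  have hU0 : 0 ≤ U := by positivity
  have e := ea_small hN hK hm hEA
  rw [← hUd] at e
  have i1 : IntervalIntegrable (fun t => ρ t * ((1 - ε') * na F U1 U2 h t)) volume A0 B0 := by
    have := (na_int (F := F) (U1 := U1) (U2 := U2) hρc h A0 B0).const_mul (1 - ε')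
    refine this.congr ?_
    exact fun t _ => by ring
  have i2 : IntervalIntegrable (fun t => ρ t * (SS F U1 U2 Gp 0 t).re) volume A0 B0 :=
    (hρc.mul (Complex.continuous_re.comp (SS_cont0 hT.bwp F U1 U2))).intervalIntegrable _ _
  have i3 := (EA_int F U1 U2 hρc hN.X0 θ L h A0 B0).const_mul ε'
  have h1 := intervalIntegral.integral_mono_on hab i1 (i2.add i3) (fun t _ => by
    have := mul_le_mul_of_nonneg_left (na_up6 (U1 := U1) (U2 := U2) hF hU hT hN t) (hρ0 t)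
    calc ρ t * ((1 - ε') * na F U1 U2 h t) ≤ _ := this
      _ = _ := by ring)
  have e1 : ∫ t in A0..B0, ρ t * ((1 - ε') * na F U1 U2 h t) =
      (1 - ε') * ∫ t in A0..B0, ρ t * na F U1 U2 h t := by
    rw [← intervalIntegral.integral_const_mul]
    refine intervalIntegral.integral_congr fun t _ => ?_
    show ρ t * ((1 - ε') * na F U1 U2 h t) = (1 - ε') * (ρ t * na F U1 U2 h t)
    ring
  rw [e1, intervalIntegral.integral_add i2 i3, intervalIntegral.integral_const_mul] at h1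
  have h2 : (1 - ε') * ∫ t in A0..B0, ρ t * na F U1 U2 h t ≤ (1 + η + ε / 50 + ε / 400) * U := by
    linarith
  have h3 : (1 + η + ε / 50 + ε / 400) * U ≤ (1 - ε') * ((1 + ε / 20) * U) := by
    have : (1 + η + ε / 50 + ε / 400) ≤ (1 - ε') * (1 + ε / 20) := by nlinarith
    calc (1 + η + ε / 50 + ε / 400) * U ≤ ((1 - ε') * (1 + ε / 20)) * U :=
          mul_le_mul_of_nonneg_right this hU0
      _ = _ := by ring
  exact le_of_mul_le_mul_left (h2.trans h3) (by linarith)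

include hF hU hT hN hK hηε hρc hρ0 hab hm hEA hEO in
/-- the lower bound -/
lemma lob6 (A1 : (1 - η - ε / 50) * (m * (h * L / Real.pi)) ≤
    ∫ t in A0..B0, ρ t * (SS F U1 U2 (fun z => G z ^ 2) 0 t).re) :
    (1 - ε) * (m * (h * L / Real.pi)) ≤ ∫ t in A0..B0, ρ t * na F U1 U2 h t := by
  have hπ := Real.pi_pos
  have hε' := hN.ε0
  have hL : 0 < L := by linarith [hN.L1]
  have hh := hN.h0
  have hε := hK.hε
  have hε1 := hK.hε1
  have hε'2 := hK.hε'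
  have hC := hN.C1
  set U := m * (h * L / Real.pi) with hUd
  have hU0 : 0 ≤ U := by positivity
  have e := ea_small hN hK hm hEA
  have e' := eo_small hN hK hm hEO
  rw [← hUd] at e e'
  have i1 : IntervalIntegrable (fun t => ρ t * ((1 + ε') * na F U1 U2 h t)) volume A0 B0 := by
    have := (na_int (F := F) (U1 := U1) (U2 := U2) hρc h A0 B0).const_mul (1 + ε')
    refine this.congr ?_
    exact fun t _ => by ring
  have i2 : IntervalIntegrable (fun t => ρ t * (SS F U1 U2 (fun z => G z ^ 2) 0 t).re)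
    volume A0 B0 :=
    (hρc.mul (Complex.continuous_re.comp (SS_cont0 hT.bw F U1 U2))).intervalIntegrable _ _
  have i3 := (EA_int F U1 U2 hρc hN.X0 θ L h A0 B0).const_mul ε'
  have i4 := (EO_int F U1 U2 hρc hN.X0 θ L h A0 B0).const_mul (2 * C ^ 2)
  have i13 : IntervalIntegrable (fun t => ρ t * ((1 + ε') * na F U1 U2 h t) +
      ε' * (ρ t * EA F U1 U2 θ L (X1 / L) h t)) volume A0 B0 := i1.add i3
  have h1 := intervalIntegral.integral_mono_on hab i2 (i13.add i4) (fun t _ => by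
    have := mul_le_mul_of_nonneg_left (na_lo6 (U1 := U1) (U2 := U2) hF hU hT hN t) (hρ0 t)
    calc ρ t * (SS F U1 U2 (fun z => G z ^ 2) 0 t).re ≤ _ := this
      _ = _ := by ring)
  have e1 : ∫ t in A0..B0, ρ t * ((1 + ε') * na F U1 U2 h t) =
      (1 + ε') * ∫ t in A0..B0, ρ t * na F U1 U2 h t := by
    rw [← intervalIntegral.integral_const_mul]
    refine intervalIntegral.integral_congr fun t _ => ?_
    show ρ t * ((1 + ε') * na F U1 U2 h t) = (1 + ε') * (ρ t * na F U1 U2 h t)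
    ring
  rw [intervalIntegral.integral_add i13 i4, intervalIntegral.integral_add i1 i3, e1,
    intervalIntegral.integral_const_mul, intervalIntegral.integral_const_mul] at h1
  have hEO0 : 0 ≤ ∫ t in A0..B0, ρ t * EO F U1 U2 θ L (X1 / L) h t := by
    apply intervalIntegral.integral_nonneg hab
    intro t _
    exact mul_nonneg (hρ0 t) (EO_nonneg F U1 U2 hN.X0 θ L h t)
  have h5 : 2 * C ^ 2 * (∫ t in A0..B0, ρ t * EO F U1 U2 θ L (X1 / L) h t) ≤
      42 * C ^ 2 * ∫ t in A0..B0, ρ t * EO F U1 U2 θ L (X1 / L) h t := by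
    apply mul_le_mul_of_nonneg_right _ hEO0
    have := sq_nonneg C
    linarith
  have h2 : (1 - η - ε / 50 - ε / 200) * U ≤ (1 + ε') * ∫ t in A0..B0, ρ t * na F U1 U2 h t := by
    linarith
  have h3 : (1 + ε') * ((1 - ε) * U) ≤ (1 - η - ε / 50 - ε / 200) * U := by
    have : (1 + ε') * (1 - ε) ≤ (1 - η - ε / 50 - ε / 200) := by nlinarith
    calc (1 + ε') * ((1 - ε) * U) = ((1 + ε') * (1 - ε)) * U := by ring
      _ ≤ _ := mul_le_mul_of_nonneg_right this hU0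
  exact le_of_mul_le_mul_left (h3.trans h2) (by linarith)

include hF hU hT hN hK hηε hρc hρ0 hab hm hEA hEO A2 in
/-- the lower bound for a count -/
lemma xb6 {Λ k : ℝ} {x : ℝ → ℝ} (hk0 : 0 ≤ k) (hk : k ≤ 2)
    (A1 : (1 - η - ε / 50) * (m * (h * L / Real.pi)) ≤
      ∫ t in A0..B0, ρ t * (SS F U1 U2 (fun z => G z ^ 2) 0 t).re)
    (A3 : ∫ t in A0..B0, ρ t * (2 * ∫ α in (0 : ℝ)..1, Rf α *
      ‖SS F U1 U2 (fun z => G z ^ 2) (Λ * α) t‖ ^ 2) ≤
      ((1 + η) * (cMTinv + ε / 10) + ε / 100) * (m * (h * L / Real.pi)))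
    (ix : IntervalIntegrable (fun t => ρ t * x t) volume A0 B0)
    (hpt : ∀ t, 4 * (SS F U1 U2 (fun z => G z ^ 2) 0 t).re - k * na F U1 U2 h t -
      2 * (∫ α in (0 : ℝ)..1, Rf α * ‖SS F U1 U2 (fun z => G z ^ 2) (Λ * α) t‖ ^ 2) -
      ∑ s ∈ Zf F U1 U2, (mult F s : ℝ) * cost3 G L h t s ≤ x t) :
    (2.6725 - k - ε) * (m * (h * L / Real.pi)) ≤ ∫ t in A0..B0, ρ t * x t := by
  have hπ := Real.pi_pos
  have hε' := hN.ε0
  have hL : 0 < L := by linarith [hN.L1]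
  have hh := hN.h0
  have hε := hK.hε
  have hε1 := hK.hε1
  have hε'2 := hK.hε'
  have hC := hN.C1
  have hη := hN.η0
  have NA := upb6 hF hU hT hN hK hηε hρc hρ0 hab hm hEA A2
  set U := m * (h * L / Real.pi) with hUd
  have hU0 : 0 ≤ U := by positivity
  have e' := eo_small hN hK hm hEO
  rw [← hUd] at e'
  have cS := SS_cont2 hT.bw F U1 U2 Λ
  have cE : Continuous (fun t : ℝ => ∫ α in (0 : ℝ)..1, Rf α *
      ‖SS F U1 U2 (fun z => G z ^ 2) (Λ * α) t‖ ^ 2) := by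
    apply intervalIntegral.continuous_parametric_intervalIntegral_of_continuous'
    exact (Rf_cont.comp continuous_snd).mul (cS.norm.pow 2)
  have hpt' : ∀ t ∈ Set.Icc A0 B0, 4 * (SS F U1 U2 (fun z => G z ^ 2) 0 t).re -
      k * na F U1 U2 h t - (2 * ∫ α in (0 : ℝ)..1, Rf α *
        ‖SS F U1 U2 (fun z => G z ^ 2) (Λ * α) t‖ ^ 2) -
      (40 * C ^ 2) * EO F U1 U2 θ L (X1 / L) h t - 0 ≤ x t := by
    intro t _
    have h1 := hpt t
    have h2 := cost3_sum (U1 := U1) (U2 := U2) hF hU hT hN t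
    linarith
  have hfin := asm hab hρ0
    ((hρc.mul (Complex.continuous_re.comp (SS_cont0 hT.bw F U1 U2))).intervalIntegrable _ _)
    (na_int (F := F) (U1 := U1) (U2 := U2) hρc h A0 B0)
    ((hρc.mul (continuous_const.mul cE)).intervalIntegrable _ _)
    (EO_int F U1 U2 hρc hN.X0 θ L h A0 B0) ix (hρc.intervalIntegrable _ _) hpt'
  refine le_trans ?_ hfin
  have hEO0 : 0 ≤ ∫ t in A0..B0, ρ t * EO F U1 U2 θ L (X1 / L) h t := by
    apply intervalIntegral.integral_nonneg hab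
    intro t _
    exact mul_nonneg (hρ0 t) (EO_nonneg F U1 U2 hN.X0 θ L h t)
  have h5 : 40 * C ^ 2 * (∫ t in A0..B0, ρ t * EO F U1 U2 θ L (X1 / L) h t) ≤
      ε / 400 * U := by
    refine le_trans (mul_le_mul_of_nonneg_right ?_ hEO0) e'
    have := sq_nonneg C
    linarith
  have hcM := Pool.Agent.W354.ZP.cMTinv_sharp
  have a2 : k * (∫ t in A0..B0, ρ t * na F U1 U2 h t) ≤ (k + ε / 10) * U := by
    calc k * (∫ t in A0..B0, ρ t * na F U1 U2 h t) ≤ k * ((1 + ε / 20) * U) :=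
          mul_le_mul_of_nonneg_left NA hk0
      _ = (k + k * (ε / 20)) * U := by ring
      _ ≤ _ := by
          apply mul_le_mul_of_nonneg_right _ hU0
          nlinarith
  have b3 : (1 + η) * (cMTinv + ε / 10) ≤ 1.3275 + 0.12 * ε := by
    calc (1 + η) * (cMTinv + ε / 10) ≤ (1 + η) * (1.3275 + ε / 10) := by
          apply mul_le_mul_of_nonneg_left _ (by linarith)
          linarith
      _ ≤ _ := by nlinarith
  have a3 := A3.trans (mul_le_mul_of_nonneg_right (by linarith :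
    (1 + η) * (cMTinv + ε / 10) + ε / 100 ≤ 1.3275 + 0.13 * ε) hU0)
  have a1 : (1 - 0.03 * ε) * U ≤ ∫ t in A0..B0, ρ t * (SS F U1 U2 (fun z => G z ^ 2) 0 t).re := by
    refine le_trans (mul_le_mul_of_nonneg_right ?_ hU0) A1
    linarith
  have hεU : 0 ≤ ε * U := by positivity
  exact fin6 hεU a1 a2 a3 h5

end

end Pool.Agent.N802.WD
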