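import Pool.Agent.N802.WD.Tw

/-! # The inequalities at one point, width `H₀ / L` -/

open Complex Filter Topology Set MeasureTheory
open scoped BigOperators ComplexConjugate

namespace Pool.Agent.N802.WD

open H370 hiding pt
open TC Pool.Agent.N802.U

/-- the numerical conditions -/
structure NumD (η ε' L h A X1 κ C θ : ℝ) (n : ℕ) : Prop where
  L1 : 100 ≤ L
  η0 : 0 < η
  η1 : η ≤ θ / 2
  θ0 : 0 < θ
  θ1 : θ ≤ 1 / 4
  ε0 : 0 < ε'
  ε1 : ε' ≤ 1 / 10
  h0 : 0 < h
  h1 : h ≤ 1 / 2
  C1 : 1 ≤ C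
  X : 1 ≤ X1
  n1 : 1 ≤ n
  nθ : 2 ≤ ((2 * n - 1 : ℕ) : ℝ) * θ
  far : (2 * C ^ 2 + 1) * Real.exp (-((θ - η) * A)) ≤ ε'
  ph : 4 * C * Real.exp (-(1 / (3 * κ))) ≤ ε' ^ 2
  XL : 4 * C * X1 ≤ ε' * L
  AL : A ≤ ε' * L

lemma min_one_exp {x p : ℝ} (hp : 0 ≤ p) (hp1 : p ≤ 1) : min 1 (Real.exp x) ≤ Real.exp (p * x) := by
  by_cases hx : 0 ≤ x
  · refine (min_le_left _ _).trans ?_
    exact Real.one_le_exp (by positivity)
  · push Not at hx
    refine (min_le_right _ _).trans (Real.exp_le_exp.2 ?_)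
    nlinarith

section

variable {F : ℂ → ℂ} (hF : GoodL F) {U1 U2 : ℝ} (hU : 1 ≤ U1) {η ε' L h A X1 κ C θ : ℝ} {n : ℕ}
  {G : ℂ → ℂ} {w : ℝ → ℂ} {Gp : ℂ → ℂ} {gp : ℝ → ℂ}
  (hT : TwD η ε' L h A (X1 / L) κ C n G w Gp gp) (hN : NumD η ε' L h A X1 κ C θ n)

include hN in
lemma NumD.m_ge : 8 ≤ 2 * n - 1 := by
  have h1 := hN.nθ
  have h2 := hN.θ1
  have h3 := hN.θ0
  by_contra hc
  push Not at hc
  have h4 : ((2 * n - 1 : ℕ) : ℝ) ≤ 7 := by
    exact_mod_cast (by omega : 2 * n - 1 ≤ 7)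
  nlinarith

include hN in
lemma NumD.X0 : 0 < X1 / L := by
  have := hN.L1
  have := hN.X
  positivity

include hF hU in
lemma gau2 {s : ℂ} (hs : s ∈ Zf F U1 U2) (t : ℝ) : ‖cexp (-(zz s - t) ^ 2 / 2)‖ ≤ 2 := by
  refine (gau_norm (zim hF hU hs) t).trans ?_
  have : Real.exp (-(s.im - t) ^ 2 / 2) ≤ 1 := Real.exp_le_one_iff.2 (by
    have := sq_nonneg (s.im - t)
    linarith)
  linarith

include hF hU hT hN in
/-- the size of the squared window -/
lemma nG {s : ℂ} (hs : s ∈ Zf F U1 U2) (t : ℝ) :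
    ‖G (zz s - t) ^ 2 * cexp (-(zz s - t) ^ 2 / 2)‖ ≤
      2 * C ^ 2 * Real.exp (η * (|(zz s).im| * L)) *
        (((vv (X1 / L) h (s.im - t)) ^ (2 * n - 1))⁻¹) ^ 2 := by
  have h1 := hT.cr (zz s - t)
  rw [sub_im', sub_re'] at h1
  have h2 := gau2 hF hU hs t
  have hv := vv_one hN.X0 h (s.im - t)
  have hC := hN.C1
  rw [norm_mul, norm_pow]
  have h3 : ‖G (zz s - t)‖ ^ 2 ≤ (C * Real.exp (η * L / 2 * |(zz s).im|) *
      ((vv (X1 / L) h (s.im - t)) ^ (2 * n - 1))⁻¹) ^ 2 :=
    pow_le_pow_left₀ (norm_nonneg _) h1 2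
  have h4 : Real.exp (η * L / 2 * |(zz s).im|) ^ 2 = Real.exp (η * (|(zz s).im| * L)) := by
    rw [← Real.exp_nat_mul]
    congr 1
    push_cast
    ring
  calc ‖G (zz s - t)‖ ^ 2 * ‖cexp (-(zz s - t) ^ 2 / 2)‖ ≤
      (C * Real.exp (η * L / 2 * |(zz s).im|) *
      ((vv (X1 / L) h (s.im - t)) ^ (2 * n - 1))⁻¹) ^ 2 * 2 :=
        mul_le_mul h3 h2 (norm_nonneg _) (by positivity)
    _ = 2 * C ^ 2 * (Real.exp (η * L / 2 * |(zz s).im|) ^ 2) *
        (((vv (X1 / L) h (s.im - t)) ^ (2 * n - 1))⁻¹) ^ 2 := by ring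
    _ = _ := by rw [h4]

include hF hU hT hN in
/-- the size of the upper window -/
lemma nGp {s : ℂ} (hs : s ∈ Zf F U1 U2) (t : ℝ) :
    ‖Gp (zz s - t) * cexp (-(zz s - t) ^ 2 / 2)‖ ≤
      2 * C * Real.exp (η * (|(zz s).im| * L) / 2) *
        ((vv (X1 / L) h (s.im - t)) ^ (2 * n - 1))⁻¹ := by
  have h1 := hT.crp (zz s - t)
  rw [sub_im', sub_re'] at h1
  have h2 := gau2 hF hU hs t
  have hv := vv_one hN.X0 h (s.im - t)
  have hC := hN.C1
  rw [norm_mul]
  calc ‖Gp (zz s - t)‖ * ‖cexp (-(zz s - t) ^ 2 / 2)‖ ≤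
      (C * Real.exp (η * L / 2 * |(zz s).im|) *
      ((vv (X1 / L) h (s.im - t)) ^ (2 * n - 1))⁻¹) * 2 :=
        mul_le_mul h1 h2 (norm_nonneg _) (by positivity)
    _ = _ := by
      rw [show η * L / 2 * |(zz s).im| = η * (|(zz s).im| * L) / 2 by ring]
      ring

include hN in
lemma v_dec (x : ℝ) {m : ℕ} (hm : 2 ≤ m) : ((vv (X1 / L) h x) ^ m)⁻¹ ≤ dk (X1 / L) h x := by
  have hv := vv_one hN.X0 h x
  unfold dk
  apply inv_anti₀
  · have : 0 < vv (X1 / L) h x := by linarith
    exact pow_pos this 2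
  · exact pow_le_pow_right₀ hv hm

include hN in
lemma dk_pos (x : ℝ) : 0 < dk (X1 / L) h x := by
  have hv := vv_one hN.X0 h x
  have : 0 < vv (X1 / L) h x := by linarith
  unfold dk
  exact inv_pos.2 (pow_pos this 2)

include hN in
lemma dk_one {x : ℝ} (hx : |x| ≤ h) : dk (X1 / L) h x = 1 := by
  unfold dk
  rw [max_eq_left (by linarith)]
  simp

include hF hU hT hN in
lemma nG' {s : ℂ} (hs : s ∈ Zf F U1 U2) (t : ℝ) :
    ‖G (zz s - t) ^ 2 * cexp (-(zz s - t) ^ 2 / 2)‖ ≤
      2 * C ^ 2 * (Real.exp (η * (|(zz s).im| * L)) * dk (X1 / L) h (s.im - t)) := by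
  refine (nG hF hU hT hN hs t).trans ?_
  have hv := vv_one hN.X0 h (s.im - t)
  have hC := hN.C1
  have h8 := hN.m_ge
  have h1 : (((vv (X1 / L) h (s.im - t)) ^ (2 * n - 1))⁻¹) ^ 2 ≤ dk (X1 / L) h (s.im - t) := by
    rw [← inv_pow, ← pow_mul, inv_pow]
    exact v_dec hN _ (by omega)
  have h2 := Real.exp_pos (η * (|(zz s).im| * L))
  calc 2 * C ^ 2 * Real.exp (η * (|(zz s).im| * L)) *
        (((vv (X1 / L) h (s.im - t)) ^ (2 * n - 1))⁻¹) ^ 2 ≤
      2 * C ^ 2 * Real.exp (η * (|(zz s).im| * L)) * dk (X1 / L) h (s.im - t) := by gcongr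
    _ = _ := by ring

include hF hU hT hN in
/-- the cost of a zero -/
lemma cost3_le (t : ℝ) {s : ℂ} (hs : s ∈ Zf F U1 U2) : cost3 G L h t s ≤
    if h < |s.im - t| then 40 * C ^ 2 *
      (Real.exp (θ * (|(zz s).im| * L)) * dk (X1 / L) h (s.im - t)) else 0 := by
  unfold cost3
  split_ifs with hc
  · set k := |(zz s).im| * L with hk
    have hL : 0 < L := by linarith [hN.L1]
    have hk0 : 0 ≤ k := by positivity
    have hη := hN.η1
    have hη0 := hN.η0
    have hθ0 := hN.θ0
    have hθ1 := hN.θ1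
    have hC := hN.C1
    have hn := hN.nθ
    have hv := vv_one hN.X0 h (s.im - t)
    have hd := dk_pos hN (s.im - t)
    have h1 := nG' hF hU hT hN hs t
    have h2 : Real.exp (η * k) ≤ Real.exp (θ * k) := Real.exp_le_exp.2 (by
      apply mul_le_mul_of_nonneg_right _ hk0
      linarith)
    have h3 : ‖G (zz s - t) ^ 2 * cexp (-(zz s - t) ^ 2 / 2)‖ ≤
        2 * C ^ 2 * (Real.exp (θ * k) * dk (X1 / L) h (s.im - t)) := by
      refine h1.trans ?_
      gcongr
    have h4 : min 1 (Real.exp k * ‖G (zz s - t) ^ 2 * cexp (-(zz s - t) ^ 2 / 2)‖) ≤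
        2 * C ^ 2 * (Real.exp (θ * k) * dk (X1 / L) h (s.im - t)) := by
      set v := vv (X1 / L) h (s.im - t) with hvd
      have hv0 : 0 < v := by linarith
      obtain ⟨u, hu⟩ : ∃ u : ℝ, u = Real.log v := ⟨_, rfl⟩
      have hu0 : 0 ≤ u := by rw [hu]; exact Real.log_nonneg hv
      have hvu : v = Real.exp u := by rw [hu, Real.exp_log hv0]
      obtain ⟨a, ha⟩ : ∃ a : ℝ, a = Real.log (2 * C ^ 2) := ⟨_, rfl⟩
      have hC2 : (1 : ℝ) ≤ 2 * C ^ 2 := by nlinarith
      have ha0 : 0 ≤ a := by rw [ha]; exact Real.log_nonneg hC2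
      have hau : 2 * C ^ 2 = Real.exp a := by rw [ha, Real.exp_log (by linarith)]
      obtain ⟨m, hm⟩ : ∃ m : ℝ, m = ((2 * n - 1 : ℕ) : ℝ) := ⟨_, rfl⟩
      rw [← hm] at hn
      have h5 := nG hF hU hT hN hs t
      rw [← hvd, ← hk, hau, hvu, ← Real.exp_nat_mul, ← Real.exp_neg, ← Real.exp_nat_mul,
        ← Real.exp_add, ← Real.exp_add, ← hm] at h5
      have h6 : Real.exp k * ‖G (zz s - t) ^ 2 * cexp (-(zz s - t) ^ 2 / 2)‖ ≤
          Real.exp (k + (a + η * k + ((2 : ℕ) : ℝ) * -(m * u))) := by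
        rw [Real.exp_add k]
        gcongr
      have h7 : dk (X1 / L) h (s.im - t) = Real.exp (-(2 * u)) := by
        show (v ^ 2)⁻¹ = _
        rw [hvu, ← Real.exp_nat_mul, ← Real.exp_neg]
        push_cast
        rfl
      rw [h7, hau, ← Real.exp_add, ← Real.exp_add]
      refine (min_le_min le_rfl h6).trans ((min_one_exp (p := θ / 2) (by positivity)
        (by linarith)).trans (Real.exp_le_exp.2 ?_))
      push_cast
      have g1 : θ / 2 * a ≤ a := mul_le_of_le_one_left ha0 (by linarith)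
      have g2 : θ / 2 * (k + η * k) ≤ θ * k := by
        have : θ / 2 * (k + η * k) = θ * k * ((1 + η) / 2) := by ring
        rw [this]
        exact mul_le_of_le_one_right (by positivity) (by linarith)
      have g3 : 2 * u ≤ θ * (m * u) := by
        calc 2 * u ≤ (m * θ) * u := mul_le_mul_of_nonneg_right hn hu0
          _ = _ := by ring
      have e1 : θ / 2 * (k + (a + η * k + 2 * -(m * u))) =
          θ / 2 * a + θ / 2 * (k + η * k) - θ * (m * u) := by ring
      rw [e1]
      linarith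
    linarith
  · exact le_rfl

include hF hU hT hN in
/-- the sum of the costs -/
theorem cost3_sum (t : ℝ) : ∑ s ∈ Zf F U1 U2, (mult F s : ℝ) * cost3 G L h t s ≤
    40 * C ^ 2 * EO F U1 U2 θ L (X1 / L) h t := by
  classical
  unfold EO
  rw [Finset.mul_sum, Finset.sum_filter]
  refine Finset.sum_le_sum fun s hs => ?_
  have hm : (0 : ℝ) ≤ mult F s := Nat.cast_nonneg _
  refine (mul_le_mul_of_nonneg_left (cost3_le hF hU hT hN t hs) hm).trans (le_of_eq ?_)
  by_cases hc : h < |s.im - t|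
  · rw [if_pos hc, if_pos hc]; ring
  · rw [if_neg hc, if_neg hc, mul_zero]

include hF hU hT hN in
/-- the lower bound for the real part at a zero, upper window -/
lemma up6 (t : ℝ) {s : ℂ} (hs : s ∈ Zf F U1 U2) :
    (if |s.im - t| ≤ h then (1 - ε') else 0) ≤
      (Gp (zz s - t) * cexp (-(zz s - t) ^ 2 / 2)).re +
      ε' * (Real.exp (θ * (|(zz s).im| * L)) * dk (X1 / L) h (s.im - t)) := by
  set k := |(zz s).im| * L with hk
  have hL : 0 < L := by linarith [hN.L1]
  have hk0 : 0 ≤ k := by positivity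
  have hη := hN.η1
  have hη0 := hN.η0
  have hθ0 := hN.θ0
  have hθ1 := hN.θ1
  have hC := hN.C1
  have hε := hN.ε0
  have hε1 := hN.ε1
  have hv := vv_one hN.X0 h (s.im - t)
  have hd := dk_pos hN (s.im - t)
  have hm8 := hN.m_ge
  have hGp := nGp hF hU hT hN hs t
  rw [← hk] at hGp
  have hneg : -‖Gp (zz s - t) * cexp (-(zz s - t) ^ 2 / 2)‖ ≤
      (Gp (zz s - t) * cexp (-(zz s - t) ^ 2 / 2)).re :=
    (abs_le.1 (Complex.abs_re_le_norm _)).1
  have he := Real.exp_pos (θ * k)
  by_cases h3 : k ≤ A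
  · by_cases h4 : |s.im - t| ≤ h
    · rw [if_pos h4]
      have h5 := hT.inp (zz s - t) (by rw [sub_im']; exact h3) (by rw [sub_re']; exact h4)
      have : 0 ≤ ε' * (Real.exp (θ * k) * dk (X1 / L) h (s.im - t)) := by positivity
      linarith
    · rw [if_neg h4]
      by_cases h5 : |s.im - t| ≤ 1
      · -- the phase
        have h6 := hT.ph (zz s - t) (by rw [sub_im']; exact h3) (by rw [sub_re']; exact h5)
        set x := (Gp (zz s - t) * cexp (-(zz s - t) ^ 2 / 2)).re with hx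
        by_contra hc
        push Not at hc
        set P := ε' * (Real.exp (θ * k) * dk (X1 / L) h (s.im - t)) with hP
        have hP0 : 0 < P := by positivity
        have g1 : P < -x := by linarith
        have g2 : -x ≤ 2 * Real.exp (-(1 / (3 * κ))) := by linarith
        have g3 : -x ≤ 2 * C * Real.exp (η * k / 2) *
            ((vv (X1 / L) h (s.im - t)) ^ (2 * n - 1))⁻¹ := by linarith
        have g4 : P ^ 2 < (-x) ^ 2 := pow_lt_pow_left₀ g1 hP0.le two_ne_zero
        have g5 : (-x) ^ 2 ≤ (2 * Real.exp (-(1 / (3 * κ)))) * (2 * C * Real.exp (η * k / 2) *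
            ((vv (X1 / L) h (s.im - t)) ^ (2 * n - 1))⁻¹) := by
          rw [sq]
          exact mul_le_mul g2 g3 (by linarith) (by positivity)
        have g6 : (2 * Real.exp (-(1 / (3 * κ)))) * (2 * C * Real.exp (η * k / 2) *
            ((vv (X1 / L) h (s.im - t)) ^ (2 * n - 1))⁻¹) ≤ P ^ 2 := by
          have g7 : ((vv (X1 / L) h (s.im - t)) ^ (2 * n - 1))⁻¹ ≤
              dk (X1 / L) h (s.im - t) ^ 2 := by
            show _ ≤ (((vv (X1 / L) h (s.im - t)) ^ 2)⁻¹) ^ 2
            rw [inv_pow, ← pow_mul]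
            apply inv_anti₀ (by positivity)
            exact pow_le_pow_right₀ hv (by omega)
          have g8 : Real.exp (η * k / 2) ≤ Real.exp (θ * k) ^ 2 := by
            rw [← Real.exp_nat_mul]
            apply Real.exp_le_exp.2
            push_cast
            have : η * k ≤ θ / 2 * k := mul_le_mul_of_nonneg_right hη hk0
            have : 0 ≤ θ * k := by positivity
            linarith
          have g9 := hN.ph
          calc (2 * Real.exp (-(1 / (3 * κ)))) * (2 * C * Real.exp (η * k / 2) *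
              ((vv (X1 / L) h (s.im - t)) ^ (2 * n - 1))⁻¹) =
              (4 * C * Real.exp (-(1 / (3 * κ)))) * (Real.exp (η * k / 2) *
              ((vv (X1 / L) h (s.im - t)) ^ (2 * n - 1))⁻¹) := by ring
            _ ≤ ε' ^ 2 * (Real.exp (θ * k) ^ 2 * dk (X1 / L) h (s.im - t) ^ 2) := by
                gcongr
            _ = P ^ 2 := by rw [hP]; ring
        linarith
      · -- far away
        push Not at h5
        have g1 : L / (2 * X1) ≤ vv (X1 / L) h (s.im - t) := by
          unfold vv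
          have g2 : |s.im - t| - h ≤ max 0 (|s.im - t| - h) := le_max_right _ _
          have g3 : (1 : ℝ) / 2 ≤ max 0 (|s.im - t| - h) := by linarith [hN.h1]
          have hX := hN.X
          calc L / (2 * X1) = (1 / 2) / (X1 / L) := by field_simp
            _ ≤ max 0 (|s.im - t| - h) / (X1 / L) := by gcongr
            _ ≤ _ := by linarith
        have hX := hN.X
        set v := vv (X1 / L) h (s.im - t) with hvd
        have g4 : (v ^ (2 * n - 1))⁻¹ ≤ (2 * X1 / L) * dk (X1 / L) h (s.im - t) := by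
          show _ ≤ (2 * X1 / L) * (v ^ 2)⁻¹
          have g5 : (v ^ (2 * n - 1))⁻¹ ≤ (v ^ 3)⁻¹ := by
            apply inv_anti₀ (by positivity)
            exact pow_le_pow_right₀ hv (by omega)
          have g6 : v⁻¹ ≤ 2 * X1 / L := by
            rw [inv_le_comm₀ (by positivity) (by positivity), inv_div]
            exact g1
          calc (v ^ (2 * n - 1))⁻¹ ≤ (v ^ 3)⁻¹ := g5
            _ = v⁻¹ * (v ^ 2)⁻¹ := by rw [pow_succ' v 2, mul_inv]
            _ ≤ _ := by gcongr
        have g7 : Real.exp (η * k / 2) ≤ Real.exp (θ * k) := by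
          apply Real.exp_le_exp.2
          have : η * k ≤ θ / 2 * k := mul_le_mul_of_nonneg_right hη hk0
          have : 0 ≤ θ * k := by positivity
          linarith
        have g8 : 2 * C * (2 * X1 / L) ≤ ε' := by
          have := hN.XL
          rw [show 2 * C * (2 * X1 / L) = (4 * C * X1) / L by ring, div_le_iff₀ hL]
          exact this
        have g9 : 2 * C * Real.exp (η * k / 2) * (v ^ (2 * n - 1))⁻¹ ≤
            ε' * (Real.exp (θ * k) * dk (X1 / L) h (s.im - t)) := by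
          calc 2 * C * Real.exp (η * k / 2) * (v ^ (2 * n - 1))⁻¹ ≤
              2 * C * Real.exp (θ * k) * ((2 * X1 / L) * dk (X1 / L) h (s.im - t)) := by gcongr
            _ = (2 * C * (2 * X1 / L)) * (Real.exp (θ * k) * dk (X1 / L) h (s.im - t)) := by ring
            _ ≤ _ := by gcongr
        linarith
  · -- far from the line
    push Not at h3
    have g1 : 2 * C * Real.exp (η * k / 2) * ((vv (X1 / L) h (s.im - t)) ^ (2 * n - 1))⁻¹ ≤
        2 * C ^ 2 * (Real.exp (η * k) * dk (X1 / L) h (s.im - t)) := by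
      have g2 := v_dec hN (s.im - t) (m := 2 * n - 1) (by omega)
      have g3 : Real.exp (η * k / 2) ≤ Real.exp (η * k) := by
        apply Real.exp_le_exp.2
        have : 0 ≤ η * k := by positivity
        linarith
      have g4 : C ≤ C ^ 2 := by nlinarith
      calc 2 * C * Real.exp (η * k / 2) * ((vv (X1 / L) h (s.im - t)) ^ (2 * n - 1))⁻¹ ≤
          2 * C ^ 2 * Real.exp (η * k) * dk (X1 / L) h (s.im - t) := by gcongr
        _ = _ := by ring
    have g5 : (if |s.im - t| ≤ h then (1 - ε') else 0) ≤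
        Real.exp (η * k) * dk (X1 / L) h (s.im - t) := by
      split_ifs with h4
      · rw [dk_one hN h4, mul_one]
        have := Real.one_le_exp (x := η * k) (by positivity)
        linarith
      · positivity
    have g6 : (2 * C ^ 2 + 1) * (Real.exp (η * k) * dk (X1 / L) h (s.im - t)) ≤
        ε' * (Real.exp (θ * k) * dk (X1 / L) h (s.im - t)) := by
      have g7 : Real.exp (η * k) ≤ Real.exp (-((θ - η) * A)) * Real.exp (θ * k) := by
        rw [← Real.exp_add]
        apply Real.exp_le_exp.2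
        have : (θ - η) * A ≤ (θ - η) * k := mul_le_mul_of_nonneg_left h3.le (by linarith)
        linarith
      calc (2 * C ^ 2 + 1) * (Real.exp (η * k) * dk (X1 / L) h (s.im - t)) ≤
          (2 * C ^ 2 + 1) * ((Real.exp (-((θ - η) * A)) * Real.exp (θ * k)) *
            dk (X1 / L) h (s.im - t)) := by gcongr
        _ = ((2 * C ^ 2 + 1) * Real.exp (-((θ - η) * A))) * (Real.exp (θ * k) *
            dk (X1 / L) h (s.im - t)) := by ring
        _ ≤ _ := by
            apply mul_le_mul_of_nonneg_right hN.far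
            positivity
    linarith

include hF hU hT hN in
/-- the upper bound for the real part at a zero, lower window -/
lemma lo6 (t : ℝ) {s : ℂ} (hs : s ∈ Zf F U1 U2) :
    (G (zz s - t) ^ 2 * cexp (-(zz s - t) ^ 2 / 2)).re ≤
      (if |s.im - t| ≤ h then (1 + ε') else 0) +
      ε' * (Real.exp (θ * (|(zz s).im| * L)) * dk (X1 / L) h (s.im - t)) +
      (if h < |s.im - t| then 2 * C ^ 2 *
        (Real.exp (θ * (|(zz s).im| * L)) * dk (X1 / L) h (s.im - t)) else 0) := by
  set k := |(zz s).im| * L with hk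
  have hL : 0 < L := by linarith [hN.L1]
  have hk0 : 0 ≤ k := by positivity
  have hη := hN.η1
  have hη0 := hN.η0
  have hθ0 := hN.θ0
  have hθ1 := hN.θ1
  have hC := hN.C1
  have hε := hN.ε0
  have hε1 := hN.ε1
  have hd := dk_pos hN (s.im - t)
  have hG := nG' hF hU hT hN hs t
  rw [← hk] at hG
  have hre : (G (zz s - t) ^ 2 * cexp (-(zz s - t) ^ 2 / 2)).re ≤
      ‖G (zz s - t) ^ 2 * cexp (-(zz s - t) ^ 2 / 2)‖ := Complex.re_le_norm _
  have hP : 0 ≤ ε' * (Real.exp (θ * k) * dk (X1 / L) h (s.im - t)) := by positivity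
  by_cases h4 : |s.im - t| ≤ h
  · rw [if_pos h4, if_neg (not_lt.2 h4), add_zero]
    by_cases h3 : k ≤ A
    · have h5 := hT.one (zz s - t) (by rw [sub_im']; exact h3)
      have h6 : ‖cexp (-(zz s - t) ^ 2 / 2)‖ ≤ 1 + ε' := by
        rw [Complex.norm_exp]
        have e1 : (-(zz s - t) ^ 2 / 2).re = (zz s).im ^ 2 / 2 + -(s.im - t) ^ 2 / 2 := by
          have e2 : -(zz s - t) ^ 2 / 2 = (((-(1 / 2) : ℝ)) : ℂ) * (zz s - t) ^ 2 := by
            push_cast; ring
          rw [e2, Complex.re_ofReal_mul, sq, Complex.mul_re, Complex.sub_re, Complex.sub_im,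
            Complex.ofReal_re, Complex.ofReal_im, zz_re]
          ring
        rw [e1]
        have h7 : |(zz s).im| ≤ ε' := by
          have : |(zz s).im| * L ≤ ε' * L := h3.trans hN.AL
          exact le_of_mul_le_mul_right this hL
        have h8 : (zz s).im ^ 2 ≤ ε' ^ 2 := by
          rw [← sq_abs]
          exact pow_le_pow_left₀ (abs_nonneg _) h7 2
        have h9 : (zz s).im ^ 2 / 2 + -(s.im - t) ^ 2 / 2 ≤ ε' / 20 := by
          have := sq_nonneg (s.im - t)
          nlinarith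
        refine (Real.exp_le_exp.2 h9).trans ?_
        have h10 := Real.abs_exp_sub_one_sub_id_le (x := ε' / 20) (by
          rw [abs_of_nonneg (by positivity)]; linarith)
        have h11 := (abs_le.1 h10).2
        nlinarith
      have h7 : ‖G (zz s - t) ^ 2 * cexp (-(zz s - t) ^ 2 / 2)‖ ≤ 1 * (1 + ε') := by
        rw [norm_mul, norm_pow]
        apply mul_le_mul _ h6 (norm_nonneg _) zero_le_one
        exact pow_le_one₀ (norm_nonneg _) h5
      linarith
    · push Not at h3
      have g7 : Real.exp (η * k) ≤ Real.exp (-((θ - η) * A)) * Real.exp (θ * k) := by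
        rw [← Real.exp_add]
        apply Real.exp_le_exp.2
        have : (θ - η) * A ≤ (θ - η) * k := mul_le_mul_of_nonneg_left h3.le (by linarith)
        linarith
      have g8 : 2 * C ^ 2 * (Real.exp (η * k) * dk (X1 / L) h (s.im - t)) ≤
          ε' * (Real.exp (θ * k) * dk (X1 / L) h (s.im - t)) := by
        calc 2 * C ^ 2 * (Real.exp (η * k) * dk (X1 / L) h (s.im - t)) ≤
            (2 * C ^ 2 + 1) * ((Real.exp (-((θ - η) * A)) * Real.exp (θ * k)) *
            dk (X1 / L) h (s.im - t)) := by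
              gcongr
              linarith
          _ = ((2 * C ^ 2 + 1) * Real.exp (-((θ - η) * A))) * (Real.exp (θ * k) *
            dk (X1 / L) h (s.im - t)) := by ring
          _ ≤ _ := by
              apply mul_le_mul_of_nonneg_right hN.far
              positivity
      linarith
  · rw [if_neg h4, if_pos (not_le.1 h4)]
    have h2 : Real.exp (η * k) ≤ Real.exp (θ * k) := Real.exp_le_exp.2 (by
      apply mul_le_mul_of_nonneg_right _ hk0
      linarith)
    have h3 : 2 * C ^ 2 * (Real.exp (η * k) * dk (X1 / L) h (s.im - t)) ≤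
        2 * C ^ 2 * (Real.exp (θ * k) * dk (X1 / L) h (s.im - t)) := by gcongr
    linarith

lemma SS_re0 (F : ℂ → ℂ) (U1 U2 : ℝ) (W : ℂ → ℂ) (t : ℝ) : (SS F U1 U2 W 0 t).re =
    ∑ s ∈ Zf F U1 U2, (mult F s : ℝ) * (W (zz s - t) * cexp (-(zz s - t) ^ 2 / 2)).re := by
  unfold SS
  rw [Complex.re_sum]
  refine Finset.sum_congr rfl fun s _ => ?_
  rw [Complex.ofReal_zero, mul_zero, zero_mul, Complex.exp_zero, one_mul,
    ← Complex.ofReal_natCast, Complex.re_ofReal_mul]

include hF hU hT hN in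
/-- the number of zeros near one point, upper bound -/
theorem na_up6 (t : ℝ) : (1 - ε') * na F U1 U2 h t ≤ (SS F U1 U2 Gp 0 t).re +
    ε' * EA F U1 U2 θ L (X1 / L) h t := by
  classical
  rw [SS_re0]
  unfold EA na
  rw [Finset.mul_sum, Finset.mul_sum, ← Finset.sum_add_distrib, Finset.sum_filter]
  refine Finset.sum_le_sum fun s hs => ?_
  have hm : (0 : ℝ) ≤ mult F s := Nat.cast_nonneg _
  have h3 := mul_le_mul_of_nonneg_left (up6 hF hU hT hN t hs) hm
  have e2 : (if |s.im - t| ≤ h then (1 - ε') * (mult F s : ℝ) else 0) =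
      (mult F s : ℝ) * (if |s.im - t| ≤ h then (1 - ε') else 0) := by
    split_ifs <;> ring
  rw [e2]
  refine h3.trans (le_of_eq ?_)
  ring

include hF hU hT hN in
/-- the number of zeros near one point, lower bound -/
theorem na_lo6 (t : ℝ) : (SS F U1 U2 (fun z => G z ^ 2) 0 t).re ≤ (1 + ε') * na F U1 U2 h t +
    ε' * EA F U1 U2 θ L (X1 / L) h t + 2 * C ^ 2 * EO F U1 U2 θ L (X1 / L) h t := by
  classical
  rw [SS_re0]
  unfold EA EO na
  rw [Finset.mul_sum, Finset.mul_sum, Finset.mul_sum, Finset.sum_filter, Finset.sum_filter,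
    ← Finset.sum_add_distrib, ← Finset.sum_add_distrib]
  refine Finset.sum_le_sum fun s hs => ?_
  have hm : (0 : ℝ) ≤ mult F s := Nat.cast_nonneg _
  have h3 := mul_le_mul_of_nonneg_left (lo6 hF hU hT hN t hs) hm
  have e2 : (if |s.im - t| ≤ h then (1 + ε') * (mult F s : ℝ) else 0) =
      (mult F s : ℝ) * (if |s.im - t| ≤ h then (1 + ε') else 0) := by
    split_ifs <;> ring
  have e3 : (if h < |s.im - t| then 2 * C ^ 2 * ((mult F s : ℝ) *
      (Real.exp (θ * (|(zz s).im| * L)) * dk (X1 / L) h (s.im - t))) else 0) =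
      (mult F s : ℝ) * (if h < |s.im - t| then 2 * C ^ 2 *
        (Real.exp (θ * (|(zz s).im| * L)) * dk (X1 / L) h (s.im - t)) else 0) := by
    split_ifs <;> ring
  rw [e2, e3]
  refine h3.trans (le_of_eq ?_)
  ring

end

end Pool.Agent.N802.WD
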