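import Pool.Agent.N802.U.Stm2
import Pool.Agent.R399.TW.Shift
import Pool.Agent.N786.D.Shf

/-!
# The density of zeros with the weight of an arbitrary Dirichlet polynomial: statements

Let `R` be a Dirichlet polynomial of length `T ^ δ` with arbitrary coefficients. The zeros of zeta at
distance `≥ A / log T` from the critical line carry, with the weight `|R|²`, at most the proportion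
`C exp (- c A)`.
-/

open Complex Filter Topology Set MeasureTheory
open scoped BigOperators ComplexConjugate

namespace Pool.Agent.N802.WD

open H370 hiding pt
open TC Pool.Agent.N802.U
open Pool.Agent.R399.TW (pt)
open Pool.Agent.N786.D (kap)

/-! ### cutoffs -/

/-- `V` is a cutoff (`1` up to `β₁ L`, `0` from `β₂ L` on) with the Mellin kernels `K a` -/
structure Cutf (L β₁ β₂ a₀ : ℝ) (B : ℕ) (c C : ℝ) (V : ℝ → ℝ) (K : ℝ → ℝ → ℂ) : Prop where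
  nn : ∀ x, 0 ≤ V x
  le : ∀ x, V x ≤ 1
  one : ∀ x, x ≤ β₁ * L → V x = 1
  zero : ∀ x, β₂ * L ≤ x → V x = 0
  cont : ∀ a, 1 ≤ a → a ≤ a₀ → Continuous (K a)
  bd : ∀ a, 1 ≤ a → a ≤ a₀ → ∀ y : ℝ, ‖K a y‖ ≤
    C * ((1 + |y|) ^ B)⁻¹ * Real.exp (-(c * Real.sqrt (min |y| L)))
  rep : ∀ a, 1 ≤ a → a ≤ a₀ → ∀ x : ℝ, ((V x : ℝ) : ℂ) =
    ∫ y : ℝ, K a y * cexp (-(((a : ℂ) + I * y) / L * x))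

/-- **CUT** -/
def S_cut : Prop := ∀ (β₁ β₂ a₀ : ℝ) (B : ℕ), 0 < β₁ → β₁ < β₂ → 1 ≤ a₀ →
  ∃ c C : ℝ, 0 < c ∧ 0 < C ∧ ∀ L : ℝ, 1 ≤ L → ∃ (V : ℝ → ℝ) (K : ℝ → ℝ → ℂ),
    Cutf L β₁ β₂ a₀ B c C V K

/-! ### the operator norm -/

/-- `|∏ (1 - p ^ (i u))|`, `p` dividing `m` -/
noncomputable def gc (u : ℝ) (m : ℕ) : ℝ := ∏ p ∈ m.primeFactors, ‖1 - cexp (I * u * Real.log p)‖

/-- the growth in the shift -/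
noncomputable def grow (L ε : ℝ) (q : ℕ) (v : ℝ) : ℝ :=
  (1 + L * |v|) ^ q * Real.exp (ε * Real.sqrt (L * min 1 |v|))

open Classical in
/-- **OP**: multiplication by a quotient of two shifted zeta functions -/
def S_op : Prop := ∃ (C : ℝ) (q : ℕ), 0 < C ∧ ∀ L N a u : ℝ, 1 ≤ L → 1 ≤ N → 1 ≤ a →
  ∀ (P : Finset ℕ) (e : ℕ → ℂ),
  (∀ m ∈ P, 1 ≤ m ∧ ‖e m‖ ≤ (m : ℝ) ^ (-(1 / 2 + a / L)) * gc u m) →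
  ∀ S : Finset ℕ, Len S N → ∀ r : ℕ → ℂ, ∀ Q : Finset ℕ,
  ∑ k ∈ Q, ‖∑ z ∈ (P ×ˢ S).filter (fun z => z.1 * z.2 = k), e z.1 * r z.2‖ ^ 2 ≤
    C * grow L 0 q u * Real.exp (C * Real.sqrt (Real.log N * min 1 |u|)) * w1 S r

/-! ### the mean squares of Dirichlet polynomials -/

/-- the smooth partial sum of zeta -/
noncomputable def Dp (V : ℝ → ℝ) (M : ℕ) (s : ℂ) : ℂ :=
  ∑ n ∈ Finset.Icc 1 M, (V (Real.log n) : ℂ) * (n : ℂ) ^ (-s)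

/-- the mollifier -/
noncomputable def Mp (V : ℝ → ℝ) (M : ℕ) (s : ℂ) : ℂ :=
  ∑ n ∈ Finset.Icc 1 M, ((ArithmeticFunction.moebius n : ℤ) : ℂ) * ((V (Real.log n) : ℂ) *
    (n : ℂ) ^ (-s))

/-- **MSD**: the mean square of a smooth partial sum of zeta times the mollifier -/
def S_msd : Prop := ∃ q : ℕ, ∀ α₁ α₂ β₁ β₂ κ c C ε : ℝ, 0 < α₁ → α₁ < α₂ → 0 < β₁ → β₁ < β₂ →
  α₂ + β₂ < 1 → 1 ≤ κ → 0 < c → 0 < C → 0 < ε →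
  ∃ a δ T0 : ℝ, 0 < a ∧ 0 < δ ∧ 10 ≤ T0 ∧ ∀ T : ℝ, T0 ≤ T →
  ∀ (V₁ V₂ : ℝ → ℝ) (K₁ K₂ : ℝ → ℝ → ℂ),
  Cutf (Real.log T) α₁ α₂ (2 * κ + 1) (q + 4) c C V₁ K₁ →
  Cutf (Real.log T) β₁ β₂ (2 * κ + 1) (q + 4) c C V₂ K₂ →
  ∀ S : Finset ℕ, Len S (T ^ δ) → ∀ (r : ℕ → ℂ) (τ H : ℝ), T ^ (1 - δ) ≤ H →
  ∀ k₁ k₂ : ℝ, |k₁| ≤ κ → |k₂| ≤ κ → ∀ x v : ℝ,
  ∫ t : ℝ, rh τ H S r t *
    (‖Dp V₁ ⌊T ^ α₂⌋₊ (pt (1 / 2 + k₁ / Real.log T) (t + x + v))‖ ^ 2 *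
      ‖Mp V₂ ⌊T ^ β₂⌋₊ (pt (1 / 2 + k₂ / Real.log T) (t + x))‖ ^ 2) ≤
    a * grow (Real.log T) ε q v * mr H S r

/-! ### a function at a point from its values on a line to the left, with a Gevrey kernel -/

/-- the Gevrey factor -/
noncomputable def gev (r : ℝ) (J : ℕ) (v : ℝ) : ℝ :=
  ∏ j ∈ Finset.range J, (2 * r * ((j : ℝ) + 1) ^ 2 / ‖pt (2 * r * ((j : ℝ) + 1) ^ 2 - r) v‖)

/-- **KER** -/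
def S_ker : Prop :=
  (∀ {g : ℂ → ℂ}, Differentiable ℂ g → ∀ {a μ lam G : ℝ} {m B : ℕ} (J : ℕ),
    m + 3 ≤ 2 * B - 1 → μ < lam →
    (∀ z : ℂ, a ≤ z.re → ‖g z‖ ≤ G * (1 + |z.im|) ^ m * Real.exp (-(lam * z.re))) →
    ∀ {s : ℂ}, a < s.re →
    Integrable (fun v : ℝ => ‖g (pt a (s.im + v))‖ * (kap B (s.re - a) v * gev (s.re - a) J v)) ∧
    ‖g s‖ ≤ Real.exp (-(μ * (s.re - a))) *
      ∫ v : ℝ, ‖g (pt a (s.im + v))‖ * (kap B (s.re - a) v * gev (s.re - a) J v)) ∧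
  (∀ κ : ℝ, 0 < κ → ∃ ε : ℝ, 0 < ε ∧ ∀ L r : ℝ, 1 ≤ L → 0 < r → r ≤ κ / L →
    ∃ J : ℕ, Continuous (gev r J) ∧ ∀ v : ℝ, 0 ≤ gev r J v ∧
      gev r J v * Real.exp (ε * Real.sqrt (L * min 1 |v|)) ≤ 20)

/-! ### the mollified zeta function -/

/-- **BOOT**: the mean square of the mollified zeta function near the critical line -/
def S_mz : Prop := ∃ β₁ β₂ C δ T0 : ℝ, 0 < β₁ ∧ β₁ < β₂ ∧ β₂ < 1 / 2 ∧ 0 < C ∧ 0 < δ ∧ 10 ≤ T0 ∧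
  ∀ T : ℝ, T0 ≤ T → ∃ V : ℝ → ℝ, (∀ x, 0 ≤ V x ∧ V x ≤ 1) ∧ (∀ x, x ≤ β₁ * Real.log T → V x = 1) ∧
  (∀ x, β₂ * Real.log T ≤ x → V x = 0) ∧
  ∀ S : Finset ℕ, Len S (T ^ δ) → ∀ (r : ℕ → ℂ) (τ H : ℝ), T ^ (1 - δ) ≤ H →
  ∀ x : ℝ, |x| ≤ T / 2 →
  ∫ t in T..(2 * T), rh τ H S r t *
    ‖riemannZeta (pt (1 / 2 - 1 / Real.log T) (t + x)) *
      Mp V ⌊T ^ β₂⌋₊ (pt (1 / 2 - 1 / Real.log T) (t + x))‖ ^ 2 ≤ C * mr H S r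

/-- **RIGHT**: the decay to the right -/
def S_rt : Prop := ∃ β₁ β₂ c C δ T0 : ℝ, 0 < β₁ ∧ β₁ < β₂ ∧ β₂ < 1 / 2 ∧ 0 < c ∧ 0 < C ∧ 0 < δ ∧
  10 ≤ T0 ∧ ∀ T : ℝ, T0 ≤ T → ∃ V : ℝ → ℝ, (∀ x, 0 ≤ V x ∧ V x ≤ 1) ∧
  (∀ x, x ≤ β₁ * Real.log T → V x = 1) ∧ (∀ x, β₂ * Real.log T ≤ x → V x = 0) ∧
  ∀ S : Finset ℕ, Len S (T ^ δ) → ∀ (r : ℕ → ℂ) (τ H : ℝ), T ^ (1 - δ) ≤ H →
  ∀ x : ℝ, |x| ≤ T / 4 → ∀ ρ : ℝ, -(1 / (2 * Real.log T)) ≤ ρ → ρ ≤ 30 →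
  ∫ t in T..(2 * T), rh τ H S r t *
    ‖riemannZeta (pt (1 / 2 + ρ) (t + x)) * Mp V ⌊T ^ β₂⌋₊ (pt (1 / 2 + ρ) (t + x)) - 1‖ ^ 2 ≤
    C * Real.exp (-(c * Real.log T * ρ)) * mr H S r

/-! ### Jensen's formula -/

open Classical in
/-- **JEN**: from the decay of the mean square to the number of zeros -/
def S_jen : Prop := ∀ c₁ C₁ : ℝ, 0 < c₁ → 0 < C₁ → ∃ c C L₀ : ℝ, 0 < c ∧ 0 < C ∧ 1 ≤ L₀ ∧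
  ∀ L : ℝ, L₀ ≤ L → ∀ f : ℂ → ℂ, (∀ z : ℂ, 1 < z.im → DifferentiableAt ℂ f z) →
  (∀ z : ℂ, 1 < z.im → 3 ≤ z.re → ‖f z‖ ≤ 1 / 2) →
  ∀ (a b x M : ℝ) (w : ℝ → ℝ), a ≤ b → 50 ≤ a + x → Continuous w → (∀ t, 0 ≤ w t) → 0 ≤ M →
  (∀ ρ y : ℝ, -(1 / (2 * L)) ≤ ρ → ρ ≤ 30 → |y| ≤ 30 →
    ∫ t in a..b, w t * ‖f (pt (1 / 2 + ρ) (t + x + y))‖ ^ 2 ≤
      C₁ * Real.exp (-(c₁ * L * ρ)) * M) →
  ∀ (Z : Finset ℂ) (m : ℂ → ℕ), (∀ s ∈ Z, 1 < s.im ∧ s.re ≤ 1 ∧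
    m s ≤ analyticOrderNatAt (fun z => 1 + f z) s) →
  ∀ A : ℝ, 0 ≤ A →
  ∫ t in a..b, w t * ∑ s ∈ Z.filter (fun s => 1 / 2 + A / L ≤ s.re ∧ |s.im - (t + x)| ≤ 1 / L),
    (m s : ℝ) ≤ C * Real.exp (-(c * A)) * M

/-! ### the result -/

open Classical in
/-- **the weighted density theorem** -/
def S_wd (F : ℂ → ℂ) : Prop := ∃ c C δ T0 : ℝ, 0 < c ∧ 0 < C ∧ 0 < δ ∧ 10 ≤ T0 ∧ ∀ T : ℝ, T0 ≤ T →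
  ∀ S : Finset ℕ, Len S (T ^ δ) → ∀ (r : ℕ → ℂ) (τ H : ℝ), T ^ (1 - δ) ≤ H →
  ∀ U1 U2 x A : ℝ, 1 ≤ U1 → |x| ≤ T / 5 → 0 ≤ A →
  ∫ t in T..(2 * T), rh τ H S r t *
    ∑ s ∈ (Zf F U1 U2).filter (fun s => A ≤ |(zz s).im| * Real.log T ∧
      |s.im - (t + x)| ≤ 1 / Real.log T), (mult F s : ℝ) ≤
    C * Real.exp (-(c * A)) * mr H S r

end Pool.Agent.N802.WD
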