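import Pool.Agent.N802.WD.Stm
import Pool.Agent.N802.U.Count2
import Pool.Agent.N845.U2.Sh0

/-!
# All Dirichlet polynomials of length `T ^ δ`: statements

Windows of width `H₀ / log T`, the error terms are controlled by the weighted density theorem `S_wd`.
-/

open Complex Filter Topology Set MeasureTheory
open scoped BigOperators ComplexConjugate

namespace Pool.Agent.N802.WD

open H370 hiding pt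
open TC Pool.Agent.N802.U
open Pool.Agent.N845.U2 (cnt)

/-! ### windows -/

/-- **WIN2**: the window of `S_win` with a bound in the whole plane -/
def S_win2 : Prop := ∀ n : ℕ, 1 ≤ n → ∃ C : ℝ, 1 ≤ C ∧ ∀ b s h X0 : ℝ, 0 < b → 0 < s → 0 < h →
  s ≤ X0 → 1 / b ≤ X0 → ∃ (G : ℂ → ℂ) (g : ℝ → ℂ), BW b G g ∧
  (∀ z : ℂ, G (conj z) = conj (G z)) ∧
  (∀ x : ℝ, 0 ≤ (G x).re ∧ (G x).re ≤ 1) ∧
  Integrable (fun x : ℝ => (G x).re) ∧ (∫ x : ℝ, (G x).re) ≤ 2 * (h + s) ∧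
  (∀ z : ℂ, |z.im| ≤ s → ‖G z‖ ≤ 1) ∧
  (∀ (z : ℂ) (X : ℝ), |z.im| ≤ s → 0 < X → ‖G z - 1‖ ≤
    2 * Real.exp ((|z.re| + X - h) / s) + 4 * (2 * n / (b * X)) ^ (2 * n - 1)) ∧
  (∀ (z : ℂ) (κ θ : ℝ), 0 < κ → κ ≤ 1 → |z.im| ≤ κ * s → |θ| ≤ Real.pi / 4 →
    -Real.exp (-(1 / (3 * κ))) ≤ (G z * cexp (I * θ)).re) ∧
  ∀ z : ℂ, ‖G z‖ ≤ C * Real.exp (b * |z.im|) *
    ((1 + max 0 (|z.re| - h) / X0) ^ (2 * n - 1))⁻¹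

/-! ### the inequality at one point -/

open Classical in
/-- the cost of a zero -/
noncomputable def cost3 (G : ℂ → ℂ) (ℓ h t : ℝ) (s : ℂ) : ℝ :=
  if h < |s.im - t| then 12 * ‖G (zz s - t) ^ 2 * cexp (-(zz s - t) ^ 2 / 2)‖ +
    8 * min 1 (Real.exp (|(zz s).im| * ℓ) * ‖G (zz s - t) ^ 2 * cexp (-(zz s - t) ^ 2 / 2)‖)
  else 0

/-- **COUNT3** -/
def S_count3 : Prop := ∀ {F : ℂ → ℂ}, GoodL F → ∀ {U1 U2 : ℝ}, 1 ≤ U1 → ∀ {G : ℂ → ℂ},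
  (∀ z : ℂ, G (conj z) = conj (G z)) → (∀ x : ℝ, ‖G x‖ ≤ 1) → ∀ {Λ ℓ h : ℝ} (t : ℝ), 0 ≤ Λ →
  Λ ≤ ℓ → 0 ≤ h →
  (4 * (SS F U1 U2 (fun z => G z ^ 2) 0 t).re - 2 * na F U1 U2 h t -
    2 * (∫ α in (0 : ℝ)..1, Rf α * ‖SS F U1 U2 (fun z => G z ^ 2) (Λ * α) t‖ ^ 2) -
    ∑ s ∈ Zf F U1 U2, (mult F s : ℝ) * cost3 G ℓ h t s ≤ x1 F U1 U2 h t) ∧
  (4 * (SS F U1 U2 (fun z => G z ^ 2) 0 t).re - na F U1 U2 h t -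
    2 * (∫ α in (0 : ℝ)..1, Rf α * ‖SS F U1 U2 (fun z => G z ^ 2) (Λ * α) t‖ ^ 2) -
    ∑ s ∈ Zf F U1 U2, (mult F s : ℝ) * cost3 G ℓ h t s ≤ 2 * x2 F U1 U2 h t)

/-! ### the error terms -/

/-- the decaying weight -/
noncomputable def dk (X0 h x : ℝ) : ℝ := ((1 + max 0 (|x| - h) / X0) ^ 2)⁻¹

/-- the weighted number of zeros around `t` -/
noncomputable def EA (F : ℂ → ℂ) (U1 U2 θ L X0 h t : ℝ) : ℝ :=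
  ∑ s ∈ Zf F U1 U2, (mult F s : ℝ) * (Real.exp (θ * (|(zz s).im| * L)) * dk X0 h (s.im - t))

open Classical in
/-- the same for the zeros outside the window -/
noncomputable def EO (F : ℂ → ℂ) (U1 U2 θ L X0 h t : ℝ) : ℝ :=
  ∑ s ∈ (Zf F U1 U2).filter (fun s => h < |s.im - t|),
    (mult F s : ℝ) * (Real.exp (θ * (|(zz s).im| * L)) * dk X0 h (s.im - t))

/-- **EW** -/
def S_ew (F : ℂ → ℂ) : Prop := ∃ θ C δ T0 : ℝ, 0 < θ ∧ θ ≤ 1 / 4 ∧ 0 < C ∧ 0 < δ ∧ 10 ≤ T0 ∧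
  ∀ T : ℝ, T0 ≤ T → ∀ S : Finset ℕ, Len S (T ^ δ) → ∀ (r : ℕ → ℂ) (τ H : ℝ), T ^ (1 - δ) ≤ H →
  ∀ U1 U2 : ℝ, T ≤ U1 → U1 ≤ T + 1 → 2 * T - 1 ≤ U2 → U2 ≤ 2 * T →
  ∀ X1 h : ℝ, 1 ≤ X1 → X1 ≤ Real.log T → 0 ≤ h → h ≤ 1 →
  (∫ t in T..(2 * T), rh τ H S r t * EA F U1 U2 θ (Real.log T) (X1 / Real.log T) h t ≤
    C * (h * Real.log T + X1) * mr H S r) ∧
  (∫ t in T..(2 * T), rh τ H S r t * EO F U1 U2 θ (Real.log T) (X1 / Real.log T) h t ≤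
    C * X1 * mr H S r)

/-! ### the theorem, for Gaussian weights, for windows, for the values at the zeros -/

/-- **CORE6** -/
def S_coreD (F : ℂ → ℂ) (q : ℝ) (c : ℂ → ℝ) : Prop := ∀ ε : ℝ, 0 < ε → ε < 1 →
  ∃ δ H0 T0 : ℝ, 0 < δ ∧ 0 < H0 ∧ 10 ≤ T0 ∧ ∀ T : ℝ, T0 ≤ T →
  ∃ U1 U2 : ℝ, T ≤ U1 ∧ U1 ≤ T + 1 ∧ 2 * T - 1 ≤ U2 ∧ U2 ≤ 2 * T ∧
  ∀ h : ℝ, H0 / Real.log T ≤ h → h ≤ δ →
  ∀ S : Finset ℕ, Len S (T ^ δ) → ∀ (r : ℕ → ℂ) (τ H : ℝ), T ^ (1 - δ) ≤ H →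
    T + Real.log T * (H + 1) ≤ τ → τ ≤ 2 * T - Real.log T * (H + 1) →
  (q - ε) * (mr H S r * (h * Real.log T / Real.pi)) ≤
    (∫ t in (T + Real.log T)..(2 * T - Real.log T), rh τ H S r t * cnt (Zf F U1 U2) c h t) ∧
  (∫ t in (T + Real.log T)..(2 * T - Real.log T), rh τ H S r t * na F U1 U2 h t) ≤
    (1 + ε) * (mr H S r * (h * Real.log T / Real.pi)) ∧
  (1 - ε) * (mr H S r * (h * Real.log T / Real.pi)) ≤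
    (∫ t in (T + Real.log T)..(2 * T - Real.log T), rh τ H S r t * na F U1 U2 h t)

/-- **SHARP6** -/
def S_sharpD (F : ℂ → ℂ) (q : ℝ) (c : ℂ → ℝ) : Prop := ∀ ε : ℝ, 0 < ε → ε < 1 →
  ∃ δ H0 T0 : ℝ, 0 < δ ∧ 0 < H0 ∧ 10 ≤ T0 ∧ ∀ T : ℝ, T0 ≤ T →
  ∀ h : ℝ, H0 / Real.log T ≤ h → h ≤ δ → ∀ K : ℝ, T ^ (1 - δ) ≤ K → K ≤ T / 2 →
  ∀ S : Finset ℕ, Len S (T ^ δ) → ∀ r : ℕ → ℂ,
  (q - ε) * (K / (2 * Real.pi) * Real.log T * w1 S r) ≤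
    (∑ s ∈ Zf F T (T + K), c s * Mh S r h s.im) ∧
  (∑ s ∈ Zf F T (T + K), (mult F s : ℝ) * Mh S r h s.im) ≤
    (1 + ε) * (K / (2 * Real.pi) * Real.log T * w1 S r) ∧
  (1 - ε) * (K / (2 * Real.pi) * Real.log T * w1 S r) ≤
    (∑ s ∈ Zf F T (T + K), (mult F s : ℝ) * Mh S r h s.im)

/-- **DIRECT6** -/
def S_directD (F : ℂ → ℂ) (q : ℝ) (c : ℂ → ℝ) : Prop := ∀ ε : ℝ, 0 < ε → ε < 1 →
  ∃ δ T0 : ℝ, 0 < δ ∧ 10 ≤ T0 ∧ ∀ T : ℝ, T0 ≤ T →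
  ∀ K : ℝ, T ^ (1 - δ) ≤ K → K ≤ T / 2 →
  ∀ S : Finset ℕ, Len S (T ^ δ) → ∀ r : ℕ → ℂ,
  (q - ε) * (K / (2 * Real.pi) * Real.log T * w1 S r) ≤
    (∑ s ∈ Zf F T (T + K), c s * ‖RP S r s.im‖ ^ 2) ∧
  (∑ s ∈ Zf F T (T + K), (mult F s : ℝ) * ‖RP S r s.im‖ ^ 2) ≤
    (1 + ε) * (K / (2 * Real.pi) * Real.log T * w1 S r) ∧
  (1 - ε) * (K / (2 * Real.pi) * Real.log T * w1 S r) ≤
    (∑ s ∈ Zf F T (T + K), (mult F s : ℝ) * ‖RP S r s.im‖ ^ 2)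

open Classical in
/-- **WDZ**: the weighted density theorem for the values at the zeros -/
def S_wdz (F : ℂ → ℂ) : Prop := ∃ c C δ T0 : ℝ, 0 < c ∧ 0 < C ∧ 0 < δ ∧ 10 ≤ T0 ∧
  ∀ T : ℝ, T0 ≤ T → ∀ K : ℝ, T ^ (1 - δ) ≤ K → K ≤ T / 2 →
  ∀ S : Finset ℕ, Len S (T ^ δ) → ∀ (r : ℕ → ℂ) (A : ℝ), 0 ≤ A →
  (∑ s ∈ (Zf F T (T + K)).filter (fun s => A ≤ |(zz s).im| * Real.log T),
    (mult F s : ℝ) * ‖RP S r s.im‖ ^ 2) ≤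
    C * Real.exp (-(c * A)) * (K * Real.log T * w1 S r)

end Pool.Agent.N802.WD
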