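import Pool.Agent.N802.WD.Stm2
import Pool.Agent.N802.U.Lo

/-! # The two windows of width `H₀ / L` -/

open Complex Filter Topology Set MeasureTheory
open scoped BigOperators ComplexConjugate

namespace Pool.Agent.N802.WD

open H370 hiding pt
open TC Pool.Agent.N802.U

/-- the decay -/
noncomputable def vv (X0 h x : ℝ) : ℝ := 1 + max 0 (|x| - h) / X0

lemma vv_one {X0 : ℝ} (hX : 0 < X0) (h x : ℝ) : 1 ≤ vv X0 h x := by
  unfold vv
  have : 0 ≤ max 0 (|x| - h) / X0 := div_nonneg (le_max_left _ _) hX.le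
  linarith

lemma vv_anti {X0 : ℝ} (hX : 0 < X0) {h h' : ℝ} (hh : h ≤ h') (x : ℝ) :
    vv X0 h' x ≤ vv X0 h x := by
  unfold vv
  have : max 0 (|x| - h') ≤ max 0 (|x| - h) := max_le_max le_rfl (by linarith)
  gcongr

lemma vv_two {X0 : ℝ} (hX : 0 < X0) {h h' : ℝ} (hh : h' ≤ h + X0) (x : ℝ) :
    vv X0 h x ≤ 2 * vv X0 h' x := by
  unfold vv
  have h1 : max 0 (|x| - h) ≤ max 0 (|x| - h') + X0 := by
    apply max_le
    · have := le_max_left 0 (|x| - h')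
      linarith
    · have := le_max_right 0 (|x| - h')
      linarith
  have h2 : max 0 (|x| - h) / X0 ≤ max 0 (|x| - h') / X0 + 1 := by
    rw [div_add_one hX.ne']
    gcongr
  have h3 : 0 ≤ max 0 (|x| - h') / X0 := div_nonneg (le_max_left _ _) hX.le
  linarith

/-- the properties in `S_win2` -/
structure WinQ (C b s h X0 : ℝ) (n : ℕ) (G : ℂ → ℂ) (g : ℝ → ℂ) : Prop where
  bw : BW b G g
  cj : ∀ z : ℂ, G (conj z) = conj (G z)
  re01 : ∀ x : ℝ, 0 ≤ (G x).re ∧ (G x).re ≤ 1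
  ig : Integrable (fun x : ℝ => (G x).re)
  il : (∫ x : ℝ, (G x).re) ≤ 2 * (h + s)
  le1 : ∀ z : ℂ, |z.im| ≤ s → ‖G z‖ ≤ 1
  inn : ∀ (z : ℂ) (X : ℝ), |z.im| ≤ s → 0 < X → ‖G z - 1‖ ≤
    2 * Real.exp ((|z.re| + X - h) / s) + 4 * (2 * n / (b * X)) ^ (2 * n - 1)
  ph : ∀ (z : ℂ) (κ θ : ℝ), 0 < κ → κ ≤ 1 → |z.im| ≤ κ * s → |θ| ≤ Real.pi / 4 →
    -Real.exp (-(1 / (3 * κ))) ≤ (G z * cexp (I * θ)).re
  cr : ∀ z : ℂ, ‖G z‖ ≤ C * Real.exp (b * |z.im|) * ((vv X0 h z.re) ^ (2 * n - 1))⁻¹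

/-- what is used about the two windows -/
structure TwD (η ε' L h A X0 κ C : ℝ) (n : ℕ) (G : ℂ → ℂ) (w : ℝ → ℂ) (Gp : ℂ → ℂ)
    (gp : ℝ → ℂ) : Prop where
  bw : BW (η * L) (fun z => G z ^ 2) w
  cj : ∀ z : ℂ, G (conj z) = conj (G z)
  le1 : ∀ x : ℝ, ‖G x‖ ≤ 1
  q : q2 w ≤ h / Real.pi
  lo : (1 - η) * (h / Real.pi) ≤ (gs w 0).re
  bwp : BW (η * L / 2) Gp gp
  qp : q2 gp ≤ h
  hi : (gs gp 0).re ≤ (1 + η) * (h / Real.pi)
  one : ∀ z : ℂ, |z.im| * L ≤ A → ‖G z‖ ≤ 1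
  inp : ∀ z : ℂ, |z.im| * L ≤ A → |z.re| ≤ h → 1 - ε' ≤ (Gp z * cexp (-z ^ 2 / 2)).re
  ph : ∀ z : ℂ, |z.im| * L ≤ A → |z.re| ≤ 1 →
    -(2 * Real.exp (-(1 / (3 * κ)))) ≤ (Gp z * cexp (-z ^ 2 / 2)).re
  cr : ∀ z : ℂ, ‖G z‖ ≤ C * Real.exp (η * L / 2 * |z.im|) * ((vv X0 h z.re) ^ (2 * n - 1))⁻¹
  crp : ∀ z : ℂ, ‖Gp z‖ ≤ C * Real.exp (η * L / 2 * |z.im|) *
    ((vv X0 h z.re) ^ (2 * n - 1))⁻¹

/-- the parameters -/
structure ParD (η ε' L h A b s r X κ X0 e1 : ℝ) (n : ℕ) : Prop where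
  L1 : 100 ≤ L
  η0 : 0 < η
  η1 : η ≤ 1 / 10
  ε0 : 0 < ε'
  ε1 : ε' ≤ 1 / 10
  b0 : 0 < b
  be : b = η * L / 2
  s0 : 0 < s
  X0' : 0 < X
  XX : 0 < X0
  h0 : 0 < h
  κ0 : 0 < κ
  κ1 : κ ≤ 1
  rX : r + X ≤ η * h / 100
  sr : s ≤ r
  rX0 : r + X ≤ X0
  bX0 : 1 / b ≤ X0
  hη : h ≤ η / 100
  hε : h ≤ ε' / 100
  As : A = κ * (s * L)
  er : Real.exp (-(r / s)) ≤ e1
  tl : (2 * (n : ℝ) / (b * X)) ^ (2 * n - 1) ≤ e1
  eη : 6 * e1 ≤ η / 25
  eε : 6 * e1 ≤ ε' / 4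

lemma gau_re (z : ℂ) (W : ℂ) : (W * cexp (-z ^ 2 / 2)).re =
    Real.exp (-(z.re ^ 2 - z.im ^ 2) / 2) * (W * cexp (I * ((-(z.re * z.im) : ℝ) : ℂ))).re := by
  set x := z.re with hx
  set y := z.im with hy
  have e1 : -z ^ 2 / 2 = ((-(x ^ 2 - y ^ 2) / 2 : ℝ) : ℂ) + I * ((-(x * y) : ℝ) : ℂ) := by
    have : z = (x : ℂ) + y * I := (Complex.re_add_im z).symm
    rw [this]
    have hI : I ^ 2 = -1 := I_sq
    push_cast
    linear_combination (-(y : ℂ) ^ 2 / 2) * hI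
  rw [e1, Complex.exp_add, ← Complex.ofReal_exp]
  rw [show W * (((Real.exp (-(x ^ 2 - y ^ 2) / 2) : ℝ) : ℂ) * cexp (I * ((-(x * y) : ℝ) : ℂ))) =
    ((Real.exp (-(x ^ 2 - y ^ 2) / 2) : ℝ) : ℂ) * (W * cexp (I * ((-(x * y) : ℝ) : ℂ))) by ring,
    Complex.re_ofReal_mul]

lemma exp_half_two {y : ℝ} (hy : |y| ≤ 1) : Real.exp (y ^ 2 / 2) ≤ 2 := by
  have h1 : y ^ 2 ≤ 1 := by
    rw [← sq_abs]
    exact pow_le_one₀ (abs_nonneg _) hy
  calc Real.exp (y ^ 2 / 2) ≤ Real.exp (1 / 2) := Real.exp_le_exp.2 (by linarith)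
    _ ≤ 2 := by
      have := Real.exp_one_lt_d9
      have h5 : Real.exp (1 / 2) ^ 2 = Real.exp 1 := by
        rw [← Real.exp_nat_mul]; norm_num
      nlinarith [Real.exp_pos (1 / 2 : ℝ)]

section

variable {η ε' L h A b s r X κ X0 e1 : ℝ} {n : ℕ}

lemma ParD.s_le (hP : ParD η ε' L h A b s r X κ X0 e1 n) : s ≤ h / 1000 := by
  have h1 := hP.sr
  have h2 := hP.rX
  have h3 := hP.X0'
  have h4 : η * h / 100 ≤ h / 1000 := by nlinarith [hP.h0, hP.η1]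
  linarith

lemma ParD.im_le (hP : ParD η ε' L h A b s r X κ X0 e1 n) {z : ℂ} (hz : |z.im| * L ≤ A) :
    |z.im| ≤ κ * s := by
  have hL : 0 < L := by linarith [hP.L1]
  rw [hP.As, ← mul_assoc] at hz
  exact le_of_mul_le_mul_right hz hL

lemma ParD.im_le' (hP : ParD η ε' L h A b s r X κ X0 e1 n) {z : ℂ} (hz : |z.im| * L ≤ A) :
    |z.im| ≤ s :=
  (hP.im_le hz).trans (mul_le_of_le_one_left hP.s0.le hP.κ1)

lemma ParD.innG (hP : ParD η ε' L h A b s r X κ X0 e1 n) {C : ℝ} {G : ℂ → ℂ} {g : ℝ → ℂ} {h1 : ℝ}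
    (hG : WinQ C b s h1 X0 n G g) {z : ℂ} (hz : |z.im| ≤ s) (hx : |z.re| + (r + X) ≤ h1) :
    ‖G z - 1‖ ≤ 6 * e1 := by
  have h2 := hG.inn z X hz hP.X0'
  have h3 : Real.exp ((|z.re| + X - h1) / s) ≤ e1 := by
    refine le_trans (Real.exp_le_exp.2 ?_) hP.er
    rw [← neg_div]
    apply div_le_div_of_nonneg_right _ hP.s0.le
    linarith
  have h4 := hP.tl
  linarith

lemma ParD.inRe (hP : ParD η ε' L h A b s r X κ X0 e1 n) {C : ℝ} {G : ℂ → ℂ}
    {g : ℝ → ℂ} (hG : WinQ C b s (h + (r + X)) X0 n G g) {z : ℂ}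
    (hz : |z.im| * L ≤ A) (hx : |z.re| ≤ h) :
    1 - ε' ≤ (G z * cexp (-z ^ 2 / 2)).re := by
  have h1 := (hP.innG hG (hP.im_le' hz) (by linarith)).trans hP.eε
  have hs := hP.s_le
  have hh := hP.hε
  have hh0 := hP.h0
  have hε := hP.ε0
  have hε1 := hP.ε1
  have hz2 : ‖z‖ ≤ 2 * h := by
    have := Complex.norm_le_abs_re_add_abs_im z
    have h3 := hP.im_le' hz
    linarith
  have h3 : ‖-z ^ 2 / 2‖ ≤ 2 * h ^ 2 := by
    rw [norm_div, norm_neg, norm_pow, Complex.norm_ofNat]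
    have : ‖z‖ ^ 2 ≤ (2 * h) ^ 2 := pow_le_pow_left₀ (norm_nonneg _) hz2 2
    linarith
  have hh2 : 2 * h ^ 2 ≤ ε' / 100 := by
    have h5 : h ≤ 1 / 1000 := by linarith
    nlinarith
  have h4 := exp_near (w := -z ^ 2 / 2) (by linarith)
  have h5 : ‖cexp (-z ^ 2 / 2) - 1‖ ≤ ε' / 50 := by linarith
  have e : G z * cexp (-z ^ 2 / 2) - 1 =
      (G z - 1) * (cexp (-z ^ 2 / 2) - 1) + (G z - 1) + (cexp (-z ^ 2 / 2) - 1) := by ring
  have h6 : ‖G z * cexp (-z ^ 2 / 2) - 1‖ ≤ ε' := by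
    rw [e]
    refine (norm_add_le _ _).trans ?_
    have h7 := norm_add_le ((G z - 1) * (cexp (-z ^ 2 / 2) - 1)) (G z - 1)
    have h8 : ‖(G z - 1) * (cexp (-z ^ 2 / 2) - 1)‖ ≤ ε' / 4 * 1 := by
      rw [norm_mul]
      exact mul_le_mul h1 (by linarith) (norm_nonneg _) (by linarith)
    linarith
  have h7 := (Complex.abs_re_le_norm _).trans h6
  rw [Complex.sub_re, Complex.one_re] at h7
  linarith [(abs_le.1 h7).1]

lemma ParD.phRe (hP : ParD η ε' L h A b s r X κ X0 e1 n) {C h1 : ℝ} {G : ℂ → ℂ}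
    {g : ℝ → ℂ} (hG : WinQ C b s h1 X0 n G g) {z : ℂ}
    (hz : |z.im| * L ≤ A) (hx : |z.re| ≤ 1) :
    -(2 * Real.exp (-(1 / (3 * κ)))) ≤ (G z * cexp (-z ^ 2 / 2)).re := by
  have hs := hP.s_le
  have hh := hP.hε
  have hε1 := hP.ε1
  have him := hP.im_le' hz
  have him1 : |z.im| ≤ 1 / 1000 := by linarith
  rw [gau_re]
  have key : -Real.exp (-(1 / (3 * κ))) ≤
      (G z * cexp (I * ((-(z.re * z.im) : ℝ) : ℂ))).re := by
    refine hG.ph z κ _ hP.κ0 hP.κ1 (hP.im_le hz) ?_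
    rw [abs_neg, abs_mul]
    have h6 : |z.re| * |z.im| ≤ 1 * (1 / 1000) := mul_le_mul hx him1 (abs_nonneg _) zero_le_one
    have := Real.pi_gt_three
    linarith
  have h8 := Real.exp_pos (-(z.re ^ 2 - z.im ^ 2) / 2)
  have h9 : Real.exp (-(z.re ^ 2 - z.im ^ 2) / 2) ≤ 2 := by
    refine le_trans (Real.exp_le_exp.2 ?_) (exp_half_two (y := z.im) (by linarith))
    have := sq_nonneg z.re
    linarith
  have h10 := Real.exp_pos (-(1 / (3 * κ)))
  calc -(2 * Real.exp (-(1 / (3 * κ)))) ≤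
      -(Real.exp (-(z.re ^ 2 - z.im ^ 2) / 2) * Real.exp (-(1 / (3 * κ)))) := by
        apply neg_le_neg
        exact mul_le_mul_of_nonneg_right h9 h10.le
    _ = Real.exp (-(z.re ^ 2 - z.im ^ 2) / 2) * (-Real.exp (-(1 / (3 * κ)))) := by ring
    _ ≤ _ := mul_le_mul_of_nonneg_left key h8.le

end

lemma winq (hwin : S_win2) (n : ℕ) (hn : 1 ≤ n) : ∃ C : ℝ, 1 ≤ C ∧ ∀ b s h X0 : ℝ, 0 < b →
    0 < s → 0 < h → s ≤ X0 → 1 / b ≤ X0 → ∃ (G : ℂ → ℂ) (g : ℝ → ℂ), WinQ C b s h X0 n G g := by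
  obtain ⟨C, hC, hw⟩ := hwin n hn
  refine ⟨C, hC, fun b s h X0 h1 h2 h3 h4 h5 => ?_⟩
  obtain ⟨G, g, g1, g2, g3, g4, g5, g6, g7, g8, g9⟩ := hw b s h X0 h1 h2 h3 h4 h5
  exact ⟨G, g, ⟨g1, g2, g3, g4, g5, g6, g7, g8, g9⟩⟩

lemma twp (hsq : S_sq) (hpl : S_pl) (hgs : S_gs) {η ε' L h A b s r X κ X0 e1 C : ℝ} {n : ℕ}
    (hC : 1 ≤ C) (hP : ParD η ε' L h A b s r X κ X0 e1 n) {G Gp : ℂ → ℂ} {g gp : ℝ → ℂ}
    (hG : WinQ C b s (h - s) X0 n G g) (hGp : WinQ C b s (h + (r + X)) X0 n Gp gp) :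
    ∃ w : ℝ → ℂ, TwD η ε' L h A X0 κ (2 ^ (2 * n - 1) * C) n G w Gp gp := by
  have hL1 := hP.L1
  have hrX := hP.rX
  have hX0 := hP.X0'
  have hh0 := hP.h0
  have hs0 := hP.s0
  have hsr := hP.sr
  have hh1 := hP.hη
  have hb0 := hP.b0
  have hη := hP.η0
  have hη1 := hP.η1
  have hsl := hP.s_le
  have hXX := hP.XX
  have heη := hP.eη
  have hηh : η * h / 100 ≤ h / 1000 := by nlinarith
  have hpi := Real.pi_pos
  have hpi3 := Real.pi_gt_three
  obtain ⟨w, hw⟩ := hsq b G g hb0 hG.bw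
  have e2b : 2 * b = η * L := by rw [hP.be]; ring
  rw [e2b] at hw
  have hnG := norm_real hG.cj hG.re01
  have hnGp := norm_real hGp.cj hGp.re01
  have hGsq : ∀ x : ℝ, ‖G x ^ 2‖ ≤ (G x).re := by
    intro x
    rw [norm_pow, hnG]
    have := hG.re01 x
    nlinarith
  have hex1 : ∀ x : ℝ, Real.exp (-x ^ 2 / 2) ≤ 1 := fun x => Real.exp_le_one_iff.2 (by
    have := sq_nonneg x
    linarith)
  have hGc := hG.bw.cont
  have hGpc := hGp.bw.cont
  have hec : Continuous (fun x : ℝ => Real.exp (-x ^ 2 / 2)) := by fun_prop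
  have hηL : 0 < η * L := by positivity
  refine ⟨w, ?_⟩
  constructor
  · exact hw
  · exact hG.cj
  · intro x; rw [hnG]; exact (hG.re01 x).2
  · -- q2 w
    obtain ⟨h1, h2⟩ := hpl (η * L) _ w hηL hw
    have h3 : ∫ x : ℝ, ‖(fun z => G z ^ 2) (x : ℂ)‖ ^ 2 ≤ ∫ x : ℝ, (G x).re := by
      apply integral_mono h1 hG.ig
      intro x
      simp only
      have h4 := hGsq x
      have h5 := hG.re01 x
      have h6 := norm_nonneg (G x ^ 2)
      nlinarith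
    have h4 := hG.il
    rw [le_div_iff₀ hpi]
    linarith
  · -- lower bound
    rw [gs_re hgs hηL hw (fun x => (G x).re ^ 2) (fun x => sq_re hG.cj x)]
    set h' := h - s - (r + X) with hh'
    have hh'0 : 0 < h' := by rw [hh']; linarith
    have hh'1 : h * (1 - η / 50) ≤ h' := by rw [hh']; linarith
    have hval : ∀ y ∈ Set.Icc (-h') h', (1 - η / 10) ≤ Real.exp (-y ^ 2 / 2) * (G y).re ^ 2 := by
      intro y hy
      have hy' : |y| ≤ h' := abs_le.2 hy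
      have h1 := (hP.innG hG (z := (y : ℂ)) (by simp [hs0.le]) (by
        rw [Complex.ofReal_re]; linarith)).trans heη
      have h4 : 1 - η / 25 ≤ (G y).re := by
        have h5 := (Complex.abs_re_le_norm (G y - 1)).trans h1
        rw [Complex.sub_re, Complex.one_re] at h5
        linarith [(abs_le.1 h5).1]
      have h6 : 1 - η / 100 ≤ Real.exp (-y ^ 2 / 2) := by
        have h7 := Real.add_one_le_exp (-y ^ 2 / 2)
        have h8 : y ^ 2 ≤ h' ^ 2 := sq_le_sq' hy.1 hy.2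
        have h9 : h' ^ 2 ≤ h ^ 2 := pow_le_pow_left₀ hh'0.le (by rw [hh']; linarith) 2
        have h10 : h ^ 2 ≤ h * (η / 100) := by rw [sq]; gcongr
        have h11 : h * (η / 100) ≤ 1 * (η / 100) := by
          apply mul_le_mul_of_nonneg_right _ (by positivity)
          linarith
        linarith
      have h7 : (0 : ℝ) ≤ 1 - η / 100 := by linarith
      have h8 : 1 - 2 * η / 25 ≤ (1 - η / 25) ^ 2 := by nlinarith [sq_nonneg (η / 25)]
      have h9 : (1 - η / 100) * (1 - 2 * η / 25) ≤ (1 - η / 100) * (1 - η / 25) ^ 2 :=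
        mul_le_mul_of_nonneg_left h8 h7
      calc (1 - η / 10) ≤ (1 - η / 100) * (1 - 2 * η / 25) := by nlinarith [sq_nonneg η]
        _ ≤ (1 - η / 100) * (1 - η / 25) ^ 2 := h9
        _ ≤ Real.exp (-y ^ 2 / 2) * (G y).re ^ 2 := by
            gcongr
            linarith
    have hint : Integrable (fun y : ℝ => Real.exp (-y ^ 2 / 2) * (G y).re ^ 2) := by
      refine hG.ig.mono' (hec.mul ((Complex.continuous_re.comp hGc).pow 2)).aestronglyMeasurable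
        (Eventually.of_forall fun y => ?_)
      have h1 := hG.re01 y
      rw [Real.norm_of_nonneg (by positivity)]
      have h2 : (G y).re ^ 2 ≤ (G y).re := by nlinarith
      calc Real.exp (-y ^ 2 / 2) * (G y).re ^ 2 ≤ 1 * (G y).re :=
            mul_le_mul (hex1 y) h2 (sq_nonneg _) zero_le_one
        _ = _ := one_mul _
    have h5 : (1 - η / 10) * (2 * h') ≤ ∫ y : ℝ, Real.exp (-y ^ 2 / 2) * (G y).re ^ 2 := by
      calc (1 - η / 10) * (2 * h') = ∫ y in Set.Icc (-h') h', (1 - η / 10) := by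
            rw [setIntegral_const, measureReal_def, Real.volume_Icc,
              ENNReal.toReal_ofReal (by linarith), smul_eq_mul]
            ring
        _ ≤ ∫ y in Set.Icc (-h') h', Real.exp (-y ^ 2 / 2) * (G y).re ^ 2 := by
            apply setIntegral_mono_on _ hint.integrableOn measurableSet_Icc hval
            exact integrableOn_const (by rw [Real.volume_Icc]; exact ENNReal.ofReal_ne_top)
        _ ≤ _ := by
            apply setIntegral_le_integral hint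
            exact Eventually.of_forall fun y => by positivity
    have h6 : (1 - η) * h ≤ (1 - η / 10) * h' := by
      have : (1 - η / 10) * (h * (1 - η / 50)) ≤ (1 - η / 10) * h' :=
        mul_le_mul_of_nonneg_left hh'1 (by linarith)
      refine le_trans ?_ this
      nlinarith
    calc (1 - η) * (h / Real.pi) = ((1 - η) * h) / Real.pi := by ring
      _ ≤ ((1 - η / 10) * h') / Real.pi := by gcongr
      _ = 1 / (2 * Real.pi) * ((1 - η / 10) * (2 * h')) := by field_simp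
      _ ≤ _ := by gcongr
  · rw [← hP.be]; exact hGp.bw
  · -- q2 gp
    obtain ⟨h1, h2⟩ := hpl b _ gp hb0 hGp.bw
    have h3 : ∫ x : ℝ, ‖Gp (x : ℂ)‖ ^ 2 ≤ ∫ x : ℝ, (Gp x).re := by
      apply integral_mono h1 hGp.ig
      intro x
      simp only
      rw [hnGp]
      have := hGp.re01 x
      nlinarith
    have h4 := hGp.il
    have h5 : 0 ≤ q2 gp := integral_nonneg fun v => sq_nonneg _
    nlinarith
  · -- upper bound
    rw [gs_re hgs hb0 hGp.bw (fun x => (Gp x).re) (fun x => real_of_conj hGp.cj x)]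
    have h1 : ∫ y : ℝ, Real.exp (-y ^ 2 / 2) * (Gp y).re ≤ ∫ x : ℝ, (Gp x).re := by
      apply integral_mono_of_nonneg (Eventually.of_forall fun x => by
        have := (hGp.re01 x).1
        positivity) hGp.ig
      refine Eventually.of_forall fun x => ?_
      calc Real.exp (-x ^ 2 / 2) * (Gp x).re ≤ 1 * (Gp x).re :=
            mul_le_mul_of_nonneg_right (hex1 x) (hGp.re01 x).1
        _ = _ := one_mul _
    have h2 := hGp.il
    have h3 : h + (r + X) + s ≤ (1 + η) * h := by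
      have : s ≤ η * h / 100 := by linarith
      have : 0 < η * h := by positivity
      linarith
    calc 1 / (2 * Real.pi) * ∫ y : ℝ, Real.exp (-y ^ 2 / 2) * (Gp y).re ≤
        1 / (2 * Real.pi) * (2 * ((1 + η) * h)) := by
          gcongr
          linarith
      _ = (1 + η) * (h / Real.pi) := by field_simp
  · intro z hz
    exact hG.le1 z (hP.im_le' hz)
  · intro z hz hx
    exact hP.inRe hGp hz hx
  · intro z hz hx
    exact hP.phRe hGp hz hx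
  · intro z
    refine (hG.cr z).trans ?_
    rw [hP.be]
    have h1 := vv_anti hXX (by linarith : h - s ≤ h) z.re
    have h2 := vv_one hXX h z.re
    have h3 : (1 : ℝ) ≤ 2 ^ (2 * n - 1) := one_le_pow₀ (by norm_num)
    have h4 : C ≤ 2 ^ (2 * n - 1) * C := le_mul_of_one_le_left (by linarith) h3
    have h5 : ((vv X0 (h - s) z.re) ^ (2 * n - 1))⁻¹ ≤ ((vv X0 h z.re) ^ (2 * n - 1))⁻¹ := by
      apply inv_anti₀ (by positivity)
      exact pow_le_pow_left₀ (by linarith) h1 _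
    have h6 : 0 ≤ ((vv X0 (h - s) z.re) ^ (2 * n - 1))⁻¹ := by
      have := vv_one hXX (h - s) z.re
      positivity
    gcongr
  · intro z
    refine (hGp.cr z).trans ?_
    rw [hP.be]
    have h1 := vv_two hXX (h := h) (h' := h + (r + X)) (by linarith [hP.rX0]) z.re
    have h2 := vv_one hXX h z.re
    have h2' := vv_one hXX (h + (r + X)) z.re
    have h5 : ((vv X0 (h + (r + X)) z.re) ^ (2 * n - 1))⁻¹ ≤
        2 ^ (2 * n - 1) * ((vv X0 h z.re) ^ (2 * n - 1))⁻¹ := by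
      rw [← div_eq_mul_inv, le_div_iff₀ (by positivity), inv_mul_le_iff₀ (by positivity),
        ← mul_pow]
      apply pow_le_pow_left₀ (by linarith)
      linarith
    calc C * Real.exp (η * L / 2 * |z.im|) * ((vv X0 (h + (r + X)) z.re) ^ (2 * n - 1))⁻¹ ≤
        C * Real.exp (η * L / 2 * |z.im|) * (2 ^ (2 * n - 1) *
          ((vv X0 h z.re) ^ (2 * n - 1))⁻¹) := by gcongr
      _ = _ := by ring

/-- **the two windows** -/
theorem twd (hwin : S_win2) (hsq : S_sq) (hpl : S_pl) (hgs : S_gs) (n : ℕ) (hn : 1 ≤ n) :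
    ∃ C : ℝ, 1 ≤ C ∧ ∀ η ε' A κ : ℝ, 0 < η → η ≤ 1 / 10 → 0 < ε' → ε' ≤ 1 / 10 → 0 < A →
      0 < κ → κ ≤ 1 → ∃ X1 H0 δ : ℝ, 1 ≤ X1 ∧ X1 ≤ H0 ∧ 0 < δ ∧ ∀ L, 100 ≤ L →
      ∀ h : ℝ, H0 / L ≤ h → h ≤ δ → ∃ (G : ℂ → ℂ) (w : ℝ → ℂ) (Gp : ℂ → ℂ) (gp : ℝ → ℂ),
      TwD η ε' L h A (X1 / L) κ C n G w Gp gp := by
  obtain ⟨C, hC, hw⟩ := winq hwin n hn
  refine ⟨2 ^ (2 * n - 1) * C, ?_, fun η ε' A κ hη hη1 hε hε1 hA hκ hκ1 => ?_⟩
  · exact hC.trans (le_mul_of_one_le_left (by linarith) (one_le_pow₀ (by norm_num)))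
  have hn0 : (0 : ℝ) < n := by exact_mod_cast hn
  obtain ⟨e1, he0, he1, heη, heε⟩ : ∃ e1 : ℝ, 0 < e1 ∧ e1 < 1 ∧ 6 * e1 ≤ η / 25 ∧
      6 * e1 ≤ ε' / 4 := by
    refine ⟨min (η / 150) (ε' / 24), lt_min (by positivity) (by positivity), ?_, ?_, ?_⟩
    · exact (min_le_left _ _).trans_lt (by linarith)
    · have := min_le_left (η / 150) (ε' / 24)
      linarith
    · have := min_le_right (η / 150) (ε' / 24)
      linarith
  obtain ⟨ℓ, hℓ1, hℓ⟩ : ∃ ℓ : ℝ, 1 ≤ ℓ ∧ Real.exp (-ℓ) ≤ e1 := by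
    refine ⟨max 1 (-Real.log e1), le_max_left _ _, ?_⟩
    calc Real.exp (-max 1 (-Real.log e1)) ≤ Real.exp (-(-Real.log e1)) :=
          Real.exp_le_exp.2 (neg_le_neg (le_max_right _ _))
      _ = e1 := by rw [neg_neg, Real.exp_log he0]
  obtain ⟨S0, hS0⟩ : ∃ S0 : ℝ, S0 = A / κ := ⟨_, rfl⟩
  have hS00 : 0 < S0 := by rw [hS0]; positivity
  obtain ⟨Y, hY⟩ : ∃ Y : ℝ, Y = 4 * n / (η * e1) := ⟨_, rfl⟩
  have hY0 : 0 < Y := by rw [hY]; positivity
  obtain ⟨M, hM⟩ : ∃ M : ℝ, M = S0 * ℓ + Y := ⟨_, rfl⟩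
  have hSℓ : S0 ≤ S0 * ℓ := le_mul_of_one_le_right hS00.le hℓ1
  obtain ⟨X1, hX1⟩ : ∃ X1 : ℝ, X1 = 1 + 2 / η + M := ⟨_, rfl⟩
  have h2η : 0 < 2 / η := by positivity
  obtain ⟨H0, hH0⟩ : ∃ H0 : ℝ, H0 = X1 + 100 * M / η := ⟨_, rfl⟩
  have hM0 : 0 < M := by rw [hM]; positivity
  refine ⟨X1, H0, min (η / 100) (ε' / 100), ?_, ?_, lt_min (by positivity) (by positivity),
    fun L hL h hh1 hh2 => ?_⟩
  · rw [hX1]; linarith
  · rw [hH0]
    have : 0 < 100 * M / η := by positivity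
    linarith
  have hL0 : 0 < L := by linarith
  have hH0p : 0 < H0 := by rw [hH0, hX1]; positivity
  have hh0 : 0 < h := lt_of_lt_of_le (by positivity) hh1
  have hX10 : 0 < X1 := by rw [hX1]; positivity
  have hhL : H0 ≤ h * L := by rwa [div_le_iff₀ hL0] at hh1
  have hP : ParD η ε' L h A (η * L / 2) (S0 / L) (S0 * ℓ / L) (Y / L) κ (X1 / L) e1 n := by
    constructor
    · exact hL
    · exact hη
    · exact hη1
    · exact hε
    · exact hε1
    · positivity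
    · rfl
    · positivity
    · positivity
    · positivity
    · exact hh0
    · exact hκ
    · exact hκ1
    · rw [← add_div, ← hM, div_le_iff₀ hL0]
      have h1 : 100 * M / η ≤ h * L := by
        refine le_trans ?_ hhL
        rw [hH0]
        linarith
      rw [div_le_iff₀ hη] at h1
      linarith
    · gcongr
    · rw [← add_div, ← hM]
      gcongr
      rw [hX1]; linarith
    · rw [one_div_le (by positivity) (by positivity), one_div_div]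
      rw [div_le_iff₀ hX10]
      have h1 : 2 / η ≤ X1 := by rw [hX1]; linarith
      rw [div_le_iff₀ hη] at h1
      nlinarith
    · exact hh2.trans (min_le_left _ _)
    · exact hh2.trans (min_le_right _ _)
    · rw [hS0]; field_simp
    · have : S0 * ℓ / L / (S0 / L) = ℓ := by field_simp
      rw [this]
      exact hℓ
    · have h1 : 2 * (n : ℝ) / (η * L / 2 * (Y / L)) = e1 := by
        rw [hY]
        field_simp
        norm_num
      rw [h1]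
      have h2 : e1 ^ (2 * n - 1) ≤ e1 ^ 1 :=
        pow_le_pow_of_le_one he0.le he1.le (by omega)
      rwa [pow_one] at h2
    · exact heη
    · exact heε
  have hsX : S0 / L ≤ X1 / L := by
    gcongr
    rw [hX1]; linarith
  have hsh := hP.s_le
  obtain ⟨G, g, hG⟩ := hw (η * L / 2) (S0 / L) (h - S0 / L) (X1 / L) hP.b0 hP.s0 (by linarith) hsX
    hP.bX0
  obtain ⟨Gp, gp, hGp⟩ := hw (η * L / 2) (S0 / L) (h + (S0 * ℓ / L + Y / L)) (X1 / L) hP.b0 hP.s0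
    (by positivity) hsX hP.bX0
  obtain ⟨w, hT⟩ := twp hsq hpl hgs hC hP hG hGp
  exact ⟨G, w, Gp, gp, hT⟩

end Pool.Agent.N802.WD
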